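import Pool.Agent.Helper6_Mono.RO

/-!
# Chains over the Weyl algebra and roots of the Bernstein-Sato polynomial

`Chain s f x B`: a module `B` over the Weyl algebra in the variables `X i`, `i ∈ s`, together with
elements `psi k` which behave like `f ^ (-x-k)`. If such a chain has `f * psi 0 = 0` then `-x` is a
root of the Bernstein-Sato polynomial of `f`.
-/

set_option autoImplicit false

namespace Pool.Agent.Helper6_Mono

open MvPolynomial TensorProduct

/-- A module over the Weyl algebra in the variables `X i`, `i ∈ s` (on which all polynomials act)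
together with elements `psi k` which behave like `f ^ (-x-k)`. -/
structure Chain {σ : Type} (s : Set σ) (f : MvPolynomial σ ℂ) (x : ℂ) (B : Type)
    [AddCommGroup B] [Module ℂ B] where
  act : MvPolynomial σ ℂ →ₐ[ℂ] Module.End ℂ B
  d : σ → Module.End ℂ B
  leibX : ∀ i ∈ s, ∀ j b, d i (act (X j) b) = act (pderiv i (X j)) b + act (X j) (d i b)
  psi : ℕ → B
  mul_psi : ∀ k, act f (psi (k + 1)) = psi k
  d_psi : ∀ i ∈ s, ∀ k : ℕ, d i (psi k) = -(x + k) • act (pderiv i f) (psi (k + 1))
  ne : psi 0 ≠ 0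

section Leib

variable {σ : Type} {B : Type} [AddCommGroup B] [Module ℂ B]

/-- the Leibniz rule for variables implies the Leibniz rule for all polynomials -/
theorem leib_of_X {s : Set σ} {act : MvPolynomial σ ℂ →ₐ[ℂ] Module.End ℂ B}
    {d : σ → Module.End ℂ B}
    (leibX : ∀ i ∈ s, ∀ j b, d i (act (X j) b) = act (pderiv i (X j)) b + act (X j) (d i b))
    {i : σ} (hi : i ∈ s) (p : MvPolynomial σ ℂ) (b : B) :
    d i (act p b) = act (pderiv i p) b + act p (d i b) := by
  induction p using MvPolynomial.induction_on generalizing b with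
  | C a =>
    have h : act (C a) = algebraMap ℂ _ a := by
      rw [← act.commutes a]; rfl
    simp [h, Module.algebraMap_end_apply]
  | add p q hp hq =>
    simp only [map_add, LinearMap.add_apply, hp, hq]
    abel
  | mul_X p j hp =>
    have h : act (X j) (act (pderiv i p) b) = act (pderiv i p) (act (X j) b) := by
      rw [← Module.End.mul_apply, ← Module.End.mul_apply, ← map_mul, ← map_mul,
        mul_comm (pderiv i p)]
    simp only [map_mul, Module.End.mul_apply, Derivation.leibniz, smul_eq_mul, map_add,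
      LinearMap.add_apply, hp, leibX i hi, h]
    abel

end Leib

namespace Chain

variable {σ : Type} {s : Set σ} {f : MvPolynomial σ ℂ} {x : ℂ} {B : Type} [AddCommGroup B]
  [Module ℂ B] (c : Chain s f x B)

include c

theorem leib {i : σ} (hi : i ∈ s) (p : MvPolynomial σ ℂ) (b : B) :
    c.d i (c.act p b) = c.act (pderiv i p) b + c.act p (c.d i b) :=
  leib_of_X c.leibX hi p b

theorem pow_psi (m k : ℕ) : c.act (f ^ m) (c.psi (k + m)) = c.psi k := by
  induction m with
  | zero => simp
  | succ m ih =>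
    rw [pow_succ, map_mul, Module.End.mul_apply, ← add_assoc, c.mul_psi, ih]

theorem act_mul (p q : MvPolynomial σ ℂ) (b : B) : c.act (p * q) b = c.act p (c.act q b) := by
  rw [map_mul, Module.End.mul_apply]

theorem act_C (a : ℂ) (b : B) : c.act (C a) b = a • b := by
  have h : c.act (C a) = algebraMap ℂ _ a := by
    rw [← c.act.commutes a]; rfl
  rw [h, Module.algebraMap_end_apply]

theorem f_ne : f ≠ 0 := by
  rintro rfl
  have := c.mul_psi 0
  rw [map_zero, LinearMap.zero_apply] at this
  exact c.ne this.symm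

end Chain

/-! ### polynomial functions with values in polynomials -/

/-- functions of a complex variable given by polynomials with polynomial coefficients -/
def IsPolyFun {σ : Type} (F : ℂ → MvPolynomial σ ℂ) : Prop :=
  ∃ Q : Polynomial (MvPolynomial σ ℂ), ∀ z : ℂ, F z = Q.eval (C z)

namespace IsPolyFun

variable {σ : Type} {F G : ℂ → MvPolynomial σ ℂ}

theorem const (p : MvPolynomial σ ℂ) : IsPolyFun (fun _ => p) :=
  ⟨Polynomial.C p, fun z => by simp⟩

theorem ofC (b : Polynomial ℂ) : IsPolyFun (σ := σ) (fun z => C (b.eval z)) :=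
  ⟨b.map C, fun z => by rw [Polynomial.eval_map, Polynomial.eval₂_at_apply]⟩

theorem id : IsPolyFun (σ := σ) (fun z => C z) := ⟨Polynomial.X, fun z => by simp⟩

theorem add (hF : IsPolyFun F) (hG : IsPolyFun G) : IsPolyFun (fun z => F z + G z) := by
  obtain ⟨P, hP⟩ := hF
  obtain ⟨Q, hQ⟩ := hG
  exact ⟨P + Q, fun z => by dsimp only; rw [Polynomial.eval_add, hP, hQ]⟩

theorem mul (hF : IsPolyFun F) (hG : IsPolyFun G) : IsPolyFun (fun z => F z * G z) := by
  obtain ⟨P, hP⟩ := hF
  obtain ⟨Q, hQ⟩ := hG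
  exact ⟨P * Q, fun z => by dsimp only; rw [Polynomial.eval_mul, hP, hQ]⟩

theorem deriv (hF : IsPolyFun F) (i : σ) : IsPolyFun (fun z => pderiv i (F z)) := by
  obtain ⟨P, hP⟩ := hF
  refine ⟨P.sum fun n a => Polynomial.monomial n (pderiv i a), fun z => ?_⟩
  dsimp only
  rw [hP, Polynomial.eval_eq_sum, Polynomial.sum, map_sum, Polynomial.sum, Polynomial.eval_finsetSum]
  refine Finset.sum_congr rfl fun n _ => ?_
  rw [Derivation.leibniz, Polynomial.eval_monomial, ← C_pow, pderiv_C, smul_zero, zero_add,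
    smul_eq_mul, mul_comm]

theorem eq_of_nat (hF : IsPolyFun F) (hG : IsPolyFun G) (N : ℕ)
    (h : ∀ n : ℕ, N ≤ n → F n = G n) (z : ℂ) : F z = G z := by
  obtain ⟨P, hP⟩ := hF
  obtain ⟨Q, hQ⟩ := hG
  have : P = Q := by
    refine Polynomial.eq_of_infinite_eval_eq P Q ?_
    refine Set.infinite_of_injective_forall_mem (f := fun n : ℕ => (C ((n + N : ℕ) : ℂ) : MvPolynomial σ ℂ)) ?_ ?_
    · intro a b hab
      have := C_injective _ _ hab
      have : a + N = b + N := by exact_mod_cast this
      omega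
    · intro n
      have := h (n + N) (by omega)
      rw [hP, hQ] at this
      exact this
  rw [hP, hQ, this]

end IsPolyFun

/-- `∂^w f^(z+1) = f^(z+1-|w|) * pw f w z` -/
noncomputable def pw {σ : Type} (f : MvPolynomial σ ℂ) : List σ → ℂ → MvPolynomial σ ℂ
  | [], _ => 1
  | i :: w, z => f * pderiv i (pw f w z) + C (z + 1 - w.length) * pderiv i f * pw f w z

theorem pw_isPolyFun {σ : Type} (f : MvPolynomial σ ℂ) (w : List σ) : IsPolyFun (pw f w) := by
  induction w with
  | nil => exact .const 1
  | cons i w ih =>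
    refine .add (.mul (.const f) (ih.deriv i)) (.mul (.mul ?_ (.const _)) ih)
    have : (fun z : ℂ => (C (z + 1 - w.length) : MvPolynomial σ ℂ)) =
        fun z => C z + C (1 - (w.length : ℂ)) := by
      funext z
      rw [← C_add]
      ring_nf
    rw [this]
    exact .add .id (.const _)

theorem dWord_pow {σ : Type} (f : MvPolynomial σ ℂ) (w : List σ) (n : ℕ) (hn : w.length ≤ n + 1) :
    dWord w (f ^ (n + 1)) = f ^ (n + 1 - w.length) * pw f w n := by
  induction w with
  | nil => simp [dWord, pw]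
  | cons i w ih =>
    have hn' : w.length ≤ n := by simpa using hn
    have h1 : dWord (i :: w) (f ^ (n + 1)) = pderiv i (dWord w (f ^ (n + 1))) := rfl
    rw [h1, ih (by omega), Derivation.leibniz, Derivation.leibniz_pow]
    obtain ⟨m, hm⟩ : ∃ m, n = w.length + m := ⟨n - w.length, by omega⟩
    have h2 : n + 1 - w.length = m + 1 := by omega
    have h3 : n + 1 - (i :: w).length = m := by simp; omega
    have h4 : ((n : ℂ) + 1 - w.length) = ((m + 1 : ℕ) : ℂ) := by
      rw [hm]; push_cast; ring
    rw [h2, h3, pw, h4, C_eq_coe_nat]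
    simp only [smul_eq_mul, nsmul_eq_mul, Nat.add_sub_cancel, pow_succ]
    ring


/-! ### the root lemma -/

/-- set the variables outside `s` equal to `0` and forget them -/
noncomputable def kill {σ : Type} (s : Set σ) : MvPolynomial σ ℂ →ₐ[ℂ] MvPolynomial s ℂ := by
  classical
  exact aeval (fun i => if h : i ∈ s then X ⟨i, h⟩ else 0)

theorem eval_kill {σ : Type} (s : Set σ) (q : s → ℂ) :
    ∃ p : σ → ℂ, ∀ h : MvPolynomial σ ℂ, eval q (kill s h) = eval p h := by
  classical
  refine ⟨fun i => if h : i ∈ s then q ⟨i, h⟩ else 0, fun h => ?_⟩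
  induction h using MvPolynomial.induction_on with
  | C a => simp [kill]
  | add p q hp hq => rw [map_add, map_add, hp, hq, map_add]
  | mul_X p j hp =>
    rw [map_mul, map_mul, hp, map_mul]
    congr 1
    by_cases hj : j ∈ s <;> simp [kill, hj]

/-- the composition of `kill` with the inclusion of the polynomials in the variables of `s` -/
noncomputable def proj {σ : Type} (s : Set σ) : MvPolynomial σ ℂ →ₐ[ℂ] MvPolynomial σ ℂ :=
  (rename (Subtype.val : s → σ)).comp (kill s)

theorem proj_X_mem {σ : Type} {s : Set σ} {i : σ} (hi : i ∈ s) : proj s (X i) = X i := by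
  simp [proj, kill, hi]

theorem proj_X_not_mem {σ : Type} {s : Set σ} {i : σ} (hi : i ∉ s) : proj s (X i) = 0 := by
  simp [proj, kill, hi]

theorem proj_of_supported {σ : Type} {s : Set σ} {f : MvPolynomial σ ℂ}
    (hf : f ∈ supported ℂ s) : proj s f = f := by
  rw [supported_eq_range_rename] at hf
  obtain ⟨g, rfl⟩ := hf
  have : (proj s).comp (rename (Subtype.val : s → σ)) = rename (Subtype.val : s → σ) := by
    ext i : 1
    simp [proj_X_mem i.2]
  exact DFunLike.congr_fun this g


theorem pderiv_mem_supported {σ : Type} {s : Set σ} {f : MvPolynomial σ ℂ}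
    (hf : f ∈ supported ℂ s) (i : σ) : pderiv i f ∈ supported ℂ s := by
  by_cases hi : i ∈ s
  · rw [supported_eq_range_rename] at hf
    obtain ⟨g, rfl⟩ := hf
    have h := pderiv_rename (R := ℂ) (f := (Subtype.val : s → σ)) Subtype.val_injective ⟨i, hi⟩ g
    simp only [AlgHom.toRingHom_eq_coe, RingHom.coe_coe] at *
    rw [h, supported_eq_range_rename]
    exact ⟨_, rfl⟩
  · have : i ∉ f.vars := fun h => hi ((mem_supported.1 hf) h)
    rw [pderiv_eq_zero_of_notMem_vars this]
    exact Subalgebra.zero_mem _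

theorem pderiv_eq_zero_of_supported {σ : Type} {s : Set σ} {f : MvPolynomial σ ℂ}
    (hf : f ∈ supported ℂ s) {i : σ} (hi : i ∉ s) : pderiv i f = 0 :=
  pderiv_eq_zero_of_notMem_vars fun h => hi ((mem_supported.1 hf) h)

theorem pw_mem_supported {σ : Type} {s : Set σ} {f : MvPolynomial σ ℂ}
    (hf : f ∈ supported ℂ s) (w : List σ) (z : ℂ) : pw f w z ∈ supported ℂ s := by
  induction w with
  | nil => exact Subalgebra.one_mem _
  | cons i w ih =>
    refine Subalgebra.add_mem _ (Subalgebra.mul_mem _ hf (pderiv_mem_supported ih i)) ?_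
    exact Subalgebra.mul_mem _ (Subalgebra.mul_mem _ (Subalgebra.algebraMap_mem _ _)
      (pderiv_mem_supported hf i)) ih

namespace Chain

variable {σ : Type} {s : Set σ} {f : MvPolynomial σ ℂ} {x : ℂ} {B : Type} [AddCommGroup B]
  [Module ℂ B]

/-- the same chain with the variables outside `s` acting as `0` -/
noncomputable def killed (c : Chain s f x B) (hf : f ∈ supported ℂ s) : Chain s f x B where
  act := c.act.comp (proj s)
  d := c.d
  leibX i hi j b := by
    classical
    simp only [AlgHom.comp_apply]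
    by_cases hj : j ∈ s
    · rw [proj_X_mem hj, c.leibX i hi]
      congr 2
      rw [pderiv_X]
      by_cases hij : j = i
      · subst hij; simp
      · simp [hij]
    · have hij : i ≠ j := by rintro rfl; exact hj hi
      rw [proj_X_not_mem hj, pderiv_X_of_ne hij.symm]
      simp
  psi := c.psi
  mul_psi k := by rw [AlgHom.comp_apply, proj_of_supported hf, c.mul_psi]
  d_psi i hi k := by
    rw [AlgHom.comp_apply, proj_of_supported (pderiv_mem_supported hf i), c.d_psi i hi]
  ne := c.ne

theorem act_pw (c : Chain s f x B) (hf : f ∈ supported ℂ s) (h0 : c.act f (c.psi 0) = 0)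
    (w : List σ) : c.act (pw f w (-x) * f) (c.psi w.length) = 0 := by
  induction w with
  | nil => simpa [pw] using h0
  | cons i w ih =>
    by_cases hi : i ∈ s
    · have h1 := congrArg (c.d i) ih
      rw [c.leib hi, c.d_psi i hi, map_zero, ← c.mul_psi w.length, ← c.act_mul, map_smul,
        ← c.act_mul, neg_smul, ← sub_eq_add_neg, ← c.act_C, ← c.act_mul, ← LinearMap.sub_apply,
        ← map_sub] at h1
      rw [List.length_cons, ← h1]
      congr 2
      rw [pw, Derivation.leibniz]
      simp only [smul_eq_mul, map_add, map_sub, map_neg, map_one, map_natCast]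
      ring
    · rw [pw, pderiv_eq_zero_of_supported hf hi,
        pderiv_eq_zero_of_supported (pw_mem_supported hf w _) hi]
      simp

end Chain

theorem IsPolyFun.list_sum {σ ι : Type} (P : List ι) (F : ι → ℂ → MvPolynomial σ ℂ)
    (h : ∀ i, IsPolyFun (F i)) : IsPolyFun (fun z => (P.map fun i => F i z).sum) := by
  induction P with
  | nil => simpa using IsPolyFun.const 0
  | cons i P ih => simpa using (h i).add ih

theorem Chain.kill_local {σ : Type} {s : Set σ} {f : MvPolynomial σ ℂ}
    (hf : f ∈ supported ℂ s) {x : ℂ} {B : Type} [AddCommGroup B] [Module ℂ B]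
    (c : Chain s f x B) (hc0 : c.act f (c.psi 0) = 0) {b : Polynomial ℂ}
    (h : MvPolynomial σ ℂ) (P : List (Polynomial (MvPolynomial σ ℂ) × List σ))
    (hP : ∀ n : ℕ, C (b.eval (n : ℂ)) * h * f ^ n =
        (P.map fun aw => aw.1.eval (n : MvPolynomial σ ℂ) * dWord aw.2 (f ^ (n + 1))).sum) :
    c.act h (b.eval (-x) • c.psi 0) = 0 := by
  have hfne := c.f_ne
  obtain ⟨N, hN⟩ : ∃ N, ∀ aw ∈ P, aw.2.length ≤ N := by
    refine ⟨(P.map fun aw => aw.2.length).sum, fun aw haw => ?_⟩
    exact List.single_le_sum (by simp) _ (List.mem_map_of_mem haw)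
  -- an identity of polynomials in `z`
  have hF : IsPolyFun (fun z => C (b.eval z) * h * f ^ N) :=
    ((IsPolyFun.ofC b).mul (.const h)).mul (.const _)
  have hG : IsPolyFun (fun z => (P.map fun aw => aw.1.eval (C z) *
      (f ^ (N + 1 - aw.2.length) * pw f aw.2 z)).sum) :=
    IsPolyFun.list_sum P (fun aw z => aw.1.eval (C z) *
      (f ^ (N + 1 - aw.2.length) * pw f aw.2 z)) fun aw =>
      IsPolyFun.mul ⟨aw.1, fun z => rfl⟩ (.mul (.const _) (pw_isPolyFun f aw.2))
  have hpoly := hF.eq_of_nat hG N (by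
    intro n hn
    have h1 := hP n
    have h3 : f ^ (n - N) * (C (b.eval (n : ℂ)) * h * f ^ N) =
        C (b.eval (n : ℂ)) * h * f ^ n := by
      rw [mul_left_comm, ← pow_add, Nat.sub_add_cancel hn]
    refine mul_left_cancel₀ (pow_ne_zero (n - N) hfne) ?_
    rw [← List.sum_map_mul_left, h3, h1]
    congr 1
    refine List.map_congr_left fun aw haw => ?_
    have h4 := hN aw haw
    rw [dWord_pow f aw.2 n (by omega), show n + 1 - aw.2.length =
      (n - N) + (N + 1 - aw.2.length) by omega, pow_add]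
    simp only [map_natCast]
    ring) (-x)
  have h5 := congrArg (fun p => c.act p (c.psi N)) hpoly
  have h6 := c.pow_psi N 0
  rw [zero_add] at h6
  rw [c.act_mul, h6, c.act_mul, c.act_C] at h5
  rw [map_smul, h5]
  clear h5 hpoly hP hF hG
  induction P with
  | nil => simp
  | cons aw P ih =>
    rw [List.map_cons, List.sum_cons, map_add, LinearMap.add_apply,
      ih fun aw' h' => hN aw' (List.mem_cons_of_mem _ h'), add_zero, c.act_mul]
    have h7 := hN aw List.mem_cons_self
    have h8 : f ^ (N + 1 - aw.2.length) * pw f aw.2 (-x) =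
        pw f aw.2 (-x) * f * f ^ (N - aw.2.length) := by
      rw [show N + 1 - aw.2.length = (N - aw.2.length) + 1 by omega, pow_succ]
      ring
    have h9 := c.pow_psi (N - aw.2.length) aw.2.length
    rw [show aw.2.length + (N - aw.2.length) = N by omega] at h9
    rw [h8, c.act_mul, h9, c.act_pw hf hc0, map_zero]

theorem root_of_chain {σ : Type} {s : Set σ} (hs : s.Finite) {f : MvPolynomial σ ℂ}
    (hf : f ∈ supported ℂ s) {x : ℂ} {B : Type} [AddCommGroup B] [Module ℂ B]
    (c₀ : Chain s f x B) (h0 : c₀.act f (c₀.psi 0) = 0) {b : Polynomial ℂ}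
    (hb : LocalBS f b) : b.eval (-x) = 0 := by
  have hc0 : (c₀.killed hf).act f ((c₀.killed hf).psi 0) = 0 := by
    change c₀.act (proj s f) (c₀.psi 0) = 0
    rw [proj_of_supported hf]; exact h0
  -- the annihilator
  let J : Ideal (MvPolynomial s ℂ) :=
    { carrier := {u | c₀.act (rename (Subtype.val : s → σ) u) (b.eval (-x) • c₀.psi 0) = 0}
      zero_mem' := by simp
      add_mem' := by
        intro u v hu hv
        simp only [Set.mem_ofPred_eq, map_add, LinearMap.add_apply] at *
        rw [hu, hv, add_zero]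
      smul_mem' := by
        intro u v hv
        simp only [Set.mem_ofPred_eq, smul_eq_mul, map_mul, Module.End.mul_apply] at *
        rw [hv, map_zero] }
  have hJ : J = ⊤ := by
    by_contra hJ
    obtain ⟨m, hm, hJm⟩ := Ideal.exists_le_maximal J hJ
    have : Finite s := hs
    obtain ⟨q, hq⟩ := isMaximal_iff_eq_vanishingIdeal_singleton.1 hm
    obtain ⟨p, hp⟩ := eval_kill s q
    obtain ⟨h, hne, P, hP⟩ := hb p
    have h1 : kill s h ∈ J := (c₀.killed hf).kill_local hf hc0 h P hP
    have h2 := hJm h1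
    rw [hq, mem_vanishingIdeal_singleton_iff] at h2
    rw [aeval_eq_eval, hp] at h2
    exact hne h2
  have h1 : (1 : MvPolynomial s ℂ) ∈ J := by rw [hJ]; trivial
  have h2 : b.eval (-x) • c₀.psi 0 = 0 := by
    have : c₀.act (rename (Subtype.val : s → σ) 1) (b.eval (-x) • c₀.psi 0) = 0 := h1
    simpa using this
  exact (smul_eq_zero.1 h2).resolve_right c₀.ne


/-! ### derivations of a field of rational functions -/

section RF

variable {σ : Type} {K : Type} [Field K] [Algebra (MvPolynomial σ ℂ) K]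

/-- `p ↦ p + ∂ᵢ p ε` -/
noncomputable def dualHom (K : Type) [Field K] [Algebra (MvPolynomial σ ℂ) K] (i : σ) :
    MvPolynomial σ ℂ →+* TrivSqZeroExt K K where
  toFun p := TrivSqZeroExt.inl (algebraMap _ K p) + TrivSqZeroExt.inr (algebraMap _ K (pderiv i p))
  map_one' := by ext <;> simp
  map_mul' p q := by
    ext
    · simp
    · simp only [Derivation.leibniz, smul_eq_mul, map_add, map_mul, TrivSqZeroExt.snd_add,
        TrivSqZeroExt.snd_mul, TrivSqZeroExt.snd_inl, TrivSqZeroExt.snd_inr,
        TrivSqZeroExt.fst_add, TrivSqZeroExt.fst_inl, TrivSqZeroExt.fst_inr, add_zero, zero_add,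
        MulOpposite.smul_eq_mul_unop, MulOpposite.unop_op]
      ring
  map_zero' := by ext <;> simp
  map_add' p q := by
    ext
    · simp
    · simp only [map_add, TrivSqZeroExt.snd_add, TrivSqZeroExt.snd_inl, TrivSqZeroExt.snd_inr,
        zero_add]

theorem dualHom_fst (i : σ) (p : MvPolynomial σ ℂ) :
    (dualHom K i p).fst = algebraMap _ K p := by simp [dualHom]

theorem dualHom_snd (i : σ) (p : MvPolynomial σ ℂ) :
    (dualHom K i p).snd = algebraMap _ K (pderiv i p) := by
  simp only [dualHom, RingHom.coe_mk, MonoidHom.coe_mk, OneHom.coe_mk, TrivSqZeroExt.snd_add,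
    TrivSqZeroExt.snd_inl, TrivSqZeroExt.snd_inr, zero_add]

variable [IsFractionRing (MvPolynomial σ ℂ) K]

theorem dualHom_isUnit (i : σ) (y : nonZeroDivisors (MvPolynomial σ ℂ)) :
    IsUnit (dualHom K i y) := by
  rw [TrivSqZeroExt.isUnit_iff_isUnit_fst, dualHom_fst]
  exact IsLocalization.map_units K y

/-- the extension of `dualHom` to the field of rational functions -/
noncomputable def dualHomF (K : Type) [Field K] [Algebra (MvPolynomial σ ℂ) K]
    [IsFractionRing (MvPolynomial σ ℂ) K] (i : σ) : K →+* TrivSqZeroExt K K :=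
  IsLocalization.lift (M := nonZeroDivisors (MvPolynomial σ ℂ)) (dualHom_isUnit i)

theorem dualHomF_algebraMap (i : σ) (p : MvPolynomial σ ℂ) :
    dualHomF K i (algebraMap _ _ p) = dualHom K i p := IsLocalization.lift_eq _ _

theorem fst_dualHomF (i : σ) (u : K) : (dualHomF K i u).fst = u := by
  have : ((TrivSqZeroExt.fstHom K K K : TrivSqZeroExt K K →ₐ[K] K) :
      TrivSqZeroExt K K →+* K).comp (dualHomF K i) = RingHom.id _ := by
    refine IsLocalization.ringHom_ext (nonZeroDivisors (MvPolynomial σ ℂ)) ?_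
    refine RingHom.ext fun p => ?_
    simp only [RingHom.comp_apply, dualHomF_algebraMap, RingHom.id_apply]
    exact dualHom_fst i p
  exact DFunLike.congr_fun this u

variable [Algebra ℂ K] [IsScalarTower ℂ (MvPolynomial σ ℂ) K]

/-- the partial derivatives on the field of rational functions -/
noncomputable def pd (K : Type) [Field K] [Algebra (MvPolynomial σ ℂ) K]
    [IsFractionRing (MvPolynomial σ ℂ) K] [Algebra ℂ K] [IsScalarTower ℂ (MvPolynomial σ ℂ) K]
    (i : σ) : K →ₗ[ℂ] K where
  toFun u := (dualHomF K i u).snd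
  map_add' u v := by simp
  map_smul' a u := by
    have h : a • u = algebraMap _ K (C a : MvPolynomial σ ℂ) * u := by
      rw [Algebra.smul_def, IsScalarTower.algebraMap_apply ℂ (MvPolynomial σ ℂ) K]; rfl
    have h' : a • (dualHomF K i u).snd =
        algebraMap _ K (C a : MvPolynomial σ ℂ) * (dualHomF K i u).snd := by
      rw [Algebra.smul_def, IsScalarTower.algebraMap_apply ℂ (MvPolynomial σ ℂ) K]; rfl
    rw [h, map_mul, TrivSqZeroExt.snd_mul, fst_dualHomF, fst_dualHomF, dualHomF_algebraMap,
      dualHom_snd, pderiv_C, map_zero, smul_zero, add_zero, smul_eq_mul, RingHom.id_apply, h']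

theorem pd_algebraMap (i : σ) (p : MvPolynomial σ ℂ) :
    pd K i (algebraMap _ _ p) = algebraMap _ _ (pderiv i p) := by
  change (dualHomF K i _).snd = _
  rw [dualHomF_algebraMap, dualHom_snd]

theorem pd_mul (i : σ) (u v : K) : pd K i (u * v) = pd K i u * v + u * pd K i v := by
  change (dualHomF K i _).snd = (dualHomF K i u).snd * v + u * (dualHomF K i v).snd
  rw [map_mul, TrivSqZeroExt.snd_mul, fst_dualHomF, fst_dualHomF, smul_eq_mul,
    MulOpposite.smul_eq_mul_unop, MulOpposite.unop_op, add_comm]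

end RF


/-! ### chains from rational functions -/

section FreeChain

variable {σ : Type} (K : Type) [Field K] [Algebra (MvPolynomial σ ℂ) K]
  [IsFractionRing (MvPolynomial σ ℂ) K] [Algebra ℂ K] [IsScalarTower ℂ (MvPolynomial σ ℂ) K]

/-- the chain `h ^ (-k)` in the rational functions with the derivations `∂ᵢ - x ∂ᵢh / h` -/
noncomputable def freeChain (s : Set σ) (h : MvPolynomial σ ℂ) (hh : h ≠ 0) (x : ℂ) :
    Chain s h x K where
  act := Algebra.lsmul ℂ ℂ K
  d i := pd K i - x • LinearMap.mulLeft ℂ (algebraMap _ K (pderiv i h) / algebraMap _ K h)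
  leibX i _ j b := by
    simp only [LinearMap.sub_apply, LinearMap.smul_apply, LinearMap.mulLeft_apply,
      Algebra.lsmul_coe, Algebra.smul_def (X j : MvPolynomial σ ℂ) b, pd_mul, pd_algebraMap]
    simp only [Algebra.smul_def]
    ring
  psi k := (algebraMap _ K h)⁻¹ ^ k
  mul_psi k := by
    have h0 : algebraMap _ K h ≠ 0 := by
      simpa using hh
    rw [Algebra.lsmul_coe]
    dsimp only
    rw [Algebra.smul_def, pow_succ]
    field_simp
  d_psi i _ k := by
    have h0 : algebraMap _ K h ≠ 0 := by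
      simpa using hh
    have h1 : pd K i (algebraMap _ K h)⁻¹ =
        - (algebraMap _ K (pderiv i h)) * (algebraMap _ K h)⁻¹ ^ 2 := by
      have h2 := pd_mul i (algebraMap _ K h) (algebraMap _ K h)⁻¹
      have h3 : pd K i 1 = 0 := by
        rw [← map_one (algebraMap (MvPolynomial σ ℂ) K), pd_algebraMap, pderiv_one, map_zero]
      rw [mul_inv_cancel₀ h0, h3, pd_algebraMap] at h2
      field_simp at h2 ⊢
      linear_combination -h2
    have h4 : ∀ k : ℕ, pd K i ((algebraMap _ K h)⁻¹ ^ k) =
        - (k : K) * (algebraMap _ K (pderiv i h)) * (algebraMap _ K h)⁻¹ ^ (k + 1) := by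
      intro k
      induction k with
      | zero =>
        rw [pow_zero, ← map_one (algebraMap (MvPolynomial σ ℂ) K), pd_algebraMap, pderiv_one]
        simp
      | succ k ih =>
        rw [pow_succ, pd_mul, ih, h1]
        push_cast
        ring
    simp only [LinearMap.sub_apply, LinearMap.smul_apply, LinearMap.mulLeft_apply,
      Algebra.lsmul_coe, h4]
    simp only [Algebra.smul_def, map_neg, map_add, map_natCast, div_eq_mul_inv]
    ring
  ne := by simp

end FreeChain


/-- the quotient of a chain by a submodule stable under all operators -/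
noncomputable def Chain.quot {σ : Type} {s : Set σ} {f : MvPolynomial σ ℂ} {x : ℂ} {B : Type}
    [AddCommGroup B] [Module ℂ B] (c : Chain s f x B) (N : Submodule ℂ B)
    (hact : ∀ p, N ≤ N.comap (c.act p)) (hd : ∀ i, N ≤ N.comap (c.d i)) (hN : c.psi 0 ∉ N) :
    Chain s f x (B ⧸ N) where
  act :=
    { toFun := fun p => N.mapQ N (c.act p) (hact p)
      map_one' := by
        apply Submodule.linearMap_qext
        ext b
        simp
      map_mul' := fun p q => by
        apply Submodule.linearMap_qext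
        ext b
        simp
      map_zero' := by
        apply Submodule.linearMap_qext
        ext b
        simp
      map_add' := fun p q => by
        apply Submodule.linearMap_qext
        ext b
        simp
      commutes' := fun a => by
        apply Submodule.linearMap_qext
        ext b
        simp [Module.algebraMap_end_apply] }
  d i := N.mapQ N (c.d i) (hd i)
  leibX i hi j b := by
    obtain ⟨b, rfl⟩ := N.mkQ_surjective b
    have := congrArg N.mkQ (c.leibX i hi j b)
    simpa using this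
  psi k := N.mkQ (c.psi k)
  mul_psi k := by
    have := congrArg N.mkQ (c.mul_psi k)
    simpa using this
  d_psi i hi k := by
    have := congrArg N.mkQ (c.d_psi i hi k)
    simpa using this
  ne h := hN ((Submodule.Quotient.mk_eq_zero N).1 h)

/-- `-x` is a root of `b_f` because of a chain -/
def WRoot {σ : Type} (s : Set σ) (f : MvPolynomial σ ℂ) (x : ℂ) : Prop :=
  ∃ (B : Type) (_ : AddCommGroup B) (_ : Module ℂ B) (c : Chain s f x B), c.act f (c.psi 0) = 0

/-- moreover the first element of the chain is killed by the partial derivatives of `f` -/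
def SRoot {σ : Type} (s : Set σ) (f : MvPolynomial σ ℂ) (x : ℂ) : Prop :=
  ∃ (B : Type) (_ : AddCommGroup B) (_ : Module ℂ B) (c : Chain s f x B),
    c.act f (c.psi 0) = 0 ∧ ∀ i ∈ s, c.act (pderiv i f) (c.psi 0) = 0

theorem SRoot.wRoot {σ : Type} {s : Set σ} {f : MvPolynomial σ ℂ} {x : ℂ} (h : SRoot s f x) :
    WRoot s f x := by
  obtain ⟨B, i1, i2, c, h1, h2⟩ := h
  exact ⟨B, i1, i2, c, h1⟩

theorem wRoot_one {σ : Type} (s : Set σ) (f : MvPolynomial σ ℂ) (hf : f ≠ 0) (hu : ¬ IsUnit f) :
    WRoot s f 1 := by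
  let K := FractionRing (MvPolynomial σ ℂ)
  let c := freeChain K s f hf 1
  let N : Submodule ℂ K := LinearMap.range
    ((Algebra.linearMap (MvPolynomial σ ℂ) K).restrictScalars ℂ ∘ₗ LinearMap.mulLeft ℂ f)
  have hmem : ∀ u, u ∈ N ↔ ∃ p, algebraMap _ K (f * p) = u := fun u => Iff.rfl
  have hf' : algebraMap _ K f ≠ 0 := by
    simpa using hf
  have hact : ∀ p, N ≤ N.comap (c.act p) := by
    intro p u hu
    obtain ⟨q, rfl⟩ := (hmem u).1 hu
    refine (hmem _).2 ⟨p * q, ?_⟩
    change _ = p • (algebraMap _ K (f * q))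
    rw [Algebra.smul_def, ← map_mul]
    congr 1
    ring
  have hd : ∀ i, N ≤ N.comap (c.d i) := by
    intro i u hu
    obtain ⟨q, rfl⟩ := (hmem u).1 hu
    refine (hmem _).2 ⟨pderiv i q, ?_⟩
    change _ = pd K i (algebraMap _ K (f * q)) -
      (1 : ℂ) • (algebraMap _ K (pderiv i f) / algebraMap _ K f * algebraMap _ K (f * q))
    rw [pd_algebraMap, Derivation.leibniz, one_smul, smul_eq_mul, smul_eq_mul, map_mul, map_add,
      map_mul, map_mul, map_mul, ← mul_assoc, div_mul_cancel₀ _ hf']
    ring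
  have hN : c.psi 0 ∉ N := by
    intro h
    obtain ⟨p, hp⟩ := (hmem _).1 h
    change _ = (algebraMap _ K f)⁻¹ ^ 0 at hp
    rw [pow_zero, ← map_one (algebraMap (MvPolynomial σ ℂ) K)] at hp
    exact hu (IsUnit.of_mul_eq_one p (IsFractionRing.injective (MvPolynomial σ ℂ) K hp))
  refine ⟨K ⧸ N, inferInstance, inferInstance, c.quot N hact hd hN, ?_⟩
  change N.mkQ (c.act f (c.psi 0)) = 0
  rw [Submodule.mkQ_apply, Submodule.Quotient.mk_eq_zero]
  refine (hmem _).2 ⟨1, ?_⟩
  change _ = f • (algebraMap _ K f)⁻¹ ^ 0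
  rw [pow_zero, Algebra.smul_def, mul_one, mul_one]


/-! ### constants and powers -/

theorem Chain.pow_psi_ne {σ : Type} {s : Set σ} {f : MvPolynomial σ ℂ} {x : ℂ} {B : Type}
    [AddCommGroup B] [Module ℂ B] (c : Chain s f x B) (k : ℕ) : c.psi k ≠ 0 := by
  intro h
  have := c.pow_psi k 0
  rw [zero_add, h, map_zero] at this
  exact c.ne this.symm

/-- the chain of a constant multiple -/
noncomputable def Chain.scale {σ : Type} {s : Set σ} {f : MvPolynomial σ ℂ} {x : ℂ} {B : Type}
    [AddCommGroup B] [Module ℂ B] (c : Chain s f x B) (a : ℂ) (ha : a ≠ 0) :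
    Chain s (C a * f) x B where
  act := c.act
  d := c.d
  leibX := c.leibX
  psi k := a⁻¹ ^ k • c.psi k
  mul_psi k := by
    rw [c.act_mul, map_smul, map_smul, c.mul_psi, c.act_C, smul_smul, pow_succ, mul_assoc,
      inv_mul_cancel₀ ha, mul_one]
  d_psi i hi k := by
    rw [map_smul, c.d_psi i hi, Derivation.leibniz, pderiv_C, smul_zero, add_zero, smul_eq_mul,
      c.act_mul, map_smul, map_smul, c.act_C, smul_smul, smul_smul, smul_smul]
    congr 1
    rw [pow_succ]
    field_simp
  ne := by
    rw [pow_zero, one_smul]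
    exact c.ne

theorem WRoot.scale {σ : Type} {s : Set σ} {f : MvPolynomial σ ℂ} {x : ℂ} (h : WRoot s f x)
    (a : ℂ) (ha : a ≠ 0) : WRoot s (C a * f) x := by
  obtain ⟨B, _, _, c, h1⟩ := h
  refine ⟨B, _, _, c.scale a ha, ?_⟩
  change c.act (C a * f) (a⁻¹ ^ 0 • c.psi 0) = 0
  rw [pow_zero, one_smul, c.act_mul, h1, map_zero]

theorem SRoot.scale {σ : Type} {s : Set σ} {f : MvPolynomial σ ℂ} {x : ℂ} (h : SRoot s f x)
    (a : ℂ) (ha : a ≠ 0) : SRoot s (C a * f) x := by
  obtain ⟨B, _, _, c, h1, h2⟩ := h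
  refine ⟨B, _, _, c.scale a ha, ?_, fun i hi => ?_⟩
  · change c.act (C a * f) (a⁻¹ ^ 0 • c.psi 0) = 0
    rw [pow_zero, one_smul, c.act_mul, h1, map_zero]
  · change c.act (pderiv i (C a * f)) (a⁻¹ ^ 0 • c.psi 0) = 0
    rw [pow_zero, one_smul, Derivation.leibniz, pderiv_C, smul_zero, add_zero, smul_eq_mul,
      c.act_mul, h2 i hi, map_zero]

/-- the chain of a power -/
noncomputable def Chain.power {σ : Type} {s : Set σ} {f : MvPolynomial σ ℂ} {x : ℂ} {B : Type}
    [AddCommGroup B] [Module ℂ B] (c : Chain s f x B) (N r : ℕ) (hN : N ≠ 0) (y : ℂ)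
    (hy : y * N = x + r) : Chain s (f ^ N) y B where
  act := c.act
  d := c.d
  leibX := c.leibX
  psi k := c.psi (r + N * k)
  mul_psi k := by
    rw [mul_add, mul_one, ← add_assoc, c.pow_psi]
  d_psi i hi k := by
    obtain ⟨M, rfl⟩ : ∃ M, N = M + 1 := ⟨N - 1, by omega⟩
    have h1 := c.pow_psi M (r + (M + 1) * k + 1)
    rw [show r + (M + 1) * k + 1 + M = r + (M + 1) * (k + 1) by ring] at h1
    rw [c.d_psi i hi, Derivation.leibniz_pow, Nat.add_sub_cancel, smul_eq_mul, nsmul_eq_mul,
      c.act_mul, mul_comm (f ^ M), c.act_mul, h1]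
    have h2 : ((M + 1 : ℕ) : MvPolynomial σ ℂ) = C ((M + 1 : ℕ) : ℂ) := by simp
    rw [h2, c.act_C, smul_smul]
    congr 1
    push_cast at hy ⊢
    linear_combination hy
  ne := c.pow_psi_ne _

theorem WRoot.pow_one {σ : Type} {s : Set σ} {f : MvPolynomial σ ℂ} (h : WRoot s f 1)
    {N : ℕ} (hN : N ≠ 0) : WRoot s (f ^ N) 1 := by
  obtain ⟨B, _, _, c, h1⟩ := h
  obtain ⟨M, rfl⟩ : ∃ M, N = M + 1 := ⟨N - 1, by omega⟩
  refine ⟨B, _, _, c.power (M + 1) M hN 1 (by push_cast; ring), ?_⟩
  change c.act (f ^ (M + 1)) (c.psi (M + (M + 1) * 0)) = 0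
  have h2 := c.pow_psi M 0
  rw [mul_zero, add_zero, pow_succ', c.act_mul]
  rw [zero_add] at h2
  rw [h2, h1]

theorem WRoot.sRoot_pow {σ : Type} {s : Set σ} {f : MvPolynomial σ ℂ} {x : ℂ} (h : WRoot s f x)
    {N : ℕ} (hN : 2 ≤ N) {y : ℂ} (hy : y * N = x) : SRoot s (f ^ N) y := by
  obtain ⟨B, _, _, c, h1⟩ := h
  obtain ⟨M, rfl⟩ : ∃ M, N = M + 2 := ⟨N - 2, by omega⟩
  refine ⟨B, _, _, c.power (M + 2) 0 (by omega) y (by rw [hy]; simp), ?_, fun i hi => ?_⟩
  · change c.act (f ^ (M + 2)) (c.psi (0 + (M + 2) * 0)) = 0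
    rw [mul_zero, zero_add, pow_succ, c.act_mul, h1, map_zero]
  · change c.act (pderiv i (f ^ (M + 2))) (c.psi (0 + (M + 2) * 0)) = 0
    have h2 : pderiv i (f ^ (M + 2)) = ((M + 2 : ℕ) * f ^ M * pderiv i f) * f := by
      rw [Derivation.leibniz_pow, show M + 2 - 1 = M + 1 by omega, smul_eq_mul, nsmul_eq_mul,
        pow_succ]
      ring
    rw [mul_zero, zero_add, h2, c.act_mul, h1, map_zero]


/-! ### tensor products -/

section Tensor

open scoped Classical in
/-- `X i` acts on the first factor if `i ∈ s` and on the second factor if `i ∈ t` -/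
noncomputable def tvar {σ : Type} (s t : Set σ) (i : σ) :
    MvPolynomial σ ℂ ⊗[ℂ] MvPolynomial σ ℂ :=
  if i ∈ s then X i ⊗ₜ 1 else if i ∈ t then 1 ⊗ₜ X i else 0

theorem aeval_tvar_left {σ : Type} {s t : Set σ} {p : MvPolynomial σ ℂ}
    (hp : p ∈ supported ℂ s) : aeval (tvar s t) p = p ⊗ₜ 1 := by
  rw [supported_eq_range_rename] at hp
  obtain ⟨q, rfl⟩ := hp
  have : (aeval (tvar s t)).comp (rename (Subtype.val : s → σ)) =
      Algebra.TensorProduct.includeLeft.comp (rename (Subtype.val : s → σ)) := by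
    ext i : 1
    simp [tvar, i.2]
  exact DFunLike.congr_fun this q

theorem aeval_tvar_right {σ : Type} {s t : Set σ} (hst : Disjoint s t) {p : MvPolynomial σ ℂ}
    (hp : p ∈ supported ℂ t) : aeval (tvar s t) p = 1 ⊗ₜ p := by
  rw [supported_eq_range_rename] at hp
  obtain ⟨q, rfl⟩ := hp
  have : (aeval (tvar s t)).comp (rename (Subtype.val : t → σ)) =
      Algebra.TensorProduct.includeRight.comp (rename (Subtype.val : t → σ)) := by
    ext i : 1
    have h : (i : σ) ∉ s := fun h => (Set.disjoint_left.1 hst) h i.2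
    simp [tvar, i.2, h]
  exact DFunLike.congr_fun this q

variable {σ : Type} {s t : Set σ} {B B' : Type} [AddCommGroup B] [Module ℂ B] [AddCommGroup B']
  [Module ℂ B'] (act : MvPolynomial σ ℂ →ₐ[ℂ] Module.End ℂ B)
  (act' : MvPolynomial σ ℂ →ₐ[ℂ] Module.End ℂ B') (d : σ → Module.End ℂ B)
  (d' : σ → Module.End ℂ B')

/-- the action of polynomials on the tensor product -/
noncomputable def tact (s t : Set σ) : MvPolynomial σ ℂ →ₐ[ℂ] Module.End ℂ (B ⊗[ℂ] B') :=
  (Module.endTensorEndAlgHom (R := ℂ) (S := ℂ) (A := ℂ) (M := B) (N := B')).comp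
    ((Algebra.TensorProduct.map act act').comp (aeval (tvar s t)))

theorem tact_left {p : MvPolynomial σ ℂ} (hp : p ∈ supported ℂ s) (b : B) (b' : B') :
    tact act act' s t p (b ⊗ₜ b') = act p b ⊗ₜ b' := by
  simp only [tact, AlgHom.comp_apply, aeval_tvar_left hp, Algebra.TensorProduct.map_tmul,
    Module.endTensorEndAlgHom_apply, map_one]
  rfl

theorem tact_right (hst : Disjoint s t) {p : MvPolynomial σ ℂ} (hp : p ∈ supported ℂ t) (b : B)
    (b' : B') : tact act act' s t p (b ⊗ₜ b') = b ⊗ₜ act' p b' := by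
  simp only [tact, AlgHom.comp_apply, aeval_tvar_right hst hp, Algebra.TensorProduct.map_tmul,
    Module.endTensorEndAlgHom_apply, map_one]
  rfl

theorem tact_none {i : σ} (hs : i ∉ s) (ht : i ∉ t) : tact act act' s t (X i) = 0 := by
  simp [tact, tvar, hs, ht]

open scoped Classical in
/-- the derivations on the tensor product -/
noncomputable def td (s t : Set σ) (i : σ) : Module.End ℂ (B ⊗[ℂ] B') :=
  if i ∈ s then TensorProduct.map (d i) LinearMap.id else
    if i ∈ t then TensorProduct.map LinearMap.id (d' i) else 0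

theorem td_left {i : σ} (hi : i ∈ s) (b : B) (b' : B') :
    td d d' s t i (b ⊗ₜ b') = d i b ⊗ₜ b' := by
  simp [td, hi]

theorem td_right (hst : Disjoint s t) {i : σ} (hi : i ∈ t) (b : B) (b' : B') :
    td d d' s t i (b ⊗ₜ b') = b ⊗ₜ d' i b' := by
  have h : i ∉ s := fun h => (Set.disjoint_left.1 hst) h hi
  simp [td, hi, h]

theorem X_mem_supp {i : σ} (hi : i ∈ s) : (X i : MvPolynomial σ ℂ) ∈ supported ℂ s := by
  rw [X_mem_supported]; exact hi

theorem td_leibX (hst : Disjoint s t)
    (h : ∀ i ∈ s, ∀ j b, d i (act (X j) b) = act (pderiv i (X j)) b + act (X j) (d i b))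
    (h' : ∀ i ∈ t, ∀ j b, d' i (act' (X j) b) = act' (pderiv i (X j)) b + act' (X j) (d' i b)) :
    ∀ i ∈ s ∪ t, ∀ j z, td d d' s t i (tact act act' s t (X j) z) =
      tact act act' s t (pderiv i (X j)) z + tact act act' s t (X j) (td d d' s t i z) := by
  intro i hi j z
  induction z using TensorProduct.induction_on with
  | zero => simp
  | add z z' hz hz' =>
    simp only [map_add, hz, hz']
    abel
  | tmul b b' =>
    by_cases hij : i = j
    · subst hij
      rw [pderiv_X_self, map_one, Module.End.one_apply]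
      rcases hi with hi | hi
      · rw [tact_left act act' (X_mem_supp hi), td_left d d' hi, td_left d d' hi,
          tact_left act act' (X_mem_supp hi), h i hi, pderiv_X_self, map_one,
          Module.End.one_apply, TensorProduct.add_tmul]
      · rw [tact_right act act' hst (X_mem_supp hi), td_right d d' hst hi, td_right d d' hst hi,
          tact_right act act' hst (X_mem_supp hi), h' i hi, pderiv_X_self, map_one,
          Module.End.one_apply, TensorProduct.tmul_add]
    · rw [pderiv_X_of_ne (Ne.symm hij), map_zero, LinearMap.zero_apply, zero_add]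
      by_cases hj : j ∈ s
      · rw [tact_left act act' (X_mem_supp hj)]
        rcases hi with hi | hi
        · rw [td_left d d' hi, td_left d d' hi, tact_left act act' (X_mem_supp hj), h i hi,
            pderiv_X_of_ne (Ne.symm hij), map_zero, LinearMap.zero_apply, zero_add]
        · rw [td_right d d' hst hi, td_right d d' hst hi, tact_left act act' (X_mem_supp hj)]
      · by_cases hj' : j ∈ t
        · rw [tact_right act act' hst (X_mem_supp hj')]
          rcases hi with hi | hi
          · rw [td_left d d' hi, td_left d d' hi, tact_right act act' hst (X_mem_supp hj')]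
          · rw [td_right d d' hst hi, td_right d d' hst hi,
              tact_right act act' hst (X_mem_supp hj'), h' i hi,
              pderiv_X_of_ne (Ne.symm hij), map_zero, LinearMap.zero_apply, zero_add]
        · rw [tact_none act act' hj hj']
          simp

theorem tmul_ne {b : B} {b' : B'} (hb : b ≠ 0) (hb' : b' ≠ 0) : b ⊗ₜ[ℂ] b' ≠ 0 := by
  intro h
  obtain ⟨φ, hφ⟩ := Module.Projective.exists_dual_ne_zero ℂ hb
  obtain ⟨φ', hφ'⟩ := Module.Projective.exists_dual_ne_zero ℂ hb'
  have := congrArg (TensorProduct.lid ℂ ℂ ∘ₗ TensorProduct.map φ φ' :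
    B ⊗[ℂ] B' →ₗ[ℂ] ℂ) h
  simp [hφ, hφ'] at this

/-- the chain of a product -/
noncomputable def Chain.prod {g h : MvPolynomial σ ℂ} {x : ℂ} (hst : Disjoint s t)
    (hg : g ∈ supported ℂ s) (hh : h ∈ supported ℂ t) (c : Chain s g x B) (c' : Chain t h x B') :
    Chain (s ∪ t) (g * h) x (B ⊗[ℂ] B') where
  act := tact c.act c'.act s t
  d := td c.d c'.d s t
  leibX := td_leibX c.act c'.act c.d c'.d hst c.leibX c'.leibX
  psi k := c.psi k ⊗ₜ c'.psi k
  mul_psi k := by
    rw [map_mul, Module.End.mul_apply, tact_right c.act c'.act hst hh,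
      tact_left c.act c'.act hg, c.mul_psi, c'.mul_psi]
  d_psi i hi k := by
    rw [Derivation.leibniz]
    rcases hi with hi | hi
    · have hit : i ∉ t := fun h => (Set.disjoint_left.1 hst) hi h
      rw [td_left c.d c'.d hi, c.d_psi i hi, pderiv_eq_zero_of_supported hh hit, smul_zero,
        zero_add, smul_eq_mul, mul_comm, map_mul, Module.End.mul_apply,
        tact_right c.act c'.act hst hh, tact_left c.act c'.act (pderiv_mem_supported hg i),
        c'.mul_psi, TensorProduct.smul_tmul']
    · have his : i ∉ s := fun h => (Set.disjoint_left.1 hst) h hi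
      rw [td_right c.d c'.d hst hi, c'.d_psi i hi, pderiv_eq_zero_of_supported hg his, smul_zero,
        add_zero, smul_eq_mul, map_mul, Module.End.mul_apply,
        tact_right c.act c'.act hst (pderiv_mem_supported hh i), tact_left c.act c'.act hg,
        c.mul_psi, TensorProduct.tmul_smul]
  ne := tmul_ne c.ne c'.ne

end Tensor

theorem sRoot_mul_left {σ : Type} {s t : Set σ} {g h : MvPolynomial σ ℂ} {x : ℂ}
    (hst : Disjoint s t) (hg : g ∈ supported ℂ s) (hh : h ∈ supported ℂ t) (h0 : h ≠ 0)
    (hx : SRoot s g x) : SRoot (s ∪ t) (g * h) x := by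
  obtain ⟨B, _, _, c, h1, h2⟩ := hx
  let c' := freeChain (FractionRing (MvPolynomial σ ℂ)) t h h0 x
  refine ⟨_, _, _, c.prod hst hg hh c', ?_, fun i hi => ?_⟩
  · change tact c.act c'.act s t (g * h) (c.psi 0 ⊗ₜ c'.psi 0) = 0
    rw [map_mul, Module.End.mul_apply, tact_right c.act c'.act hst hh,
      tact_left c.act c'.act hg, h1, TensorProduct.zero_tmul]
  · change tact c.act c'.act s t (pderiv i (g * h)) (c.psi 0 ⊗ₜ c'.psi 0) = 0
    rw [Derivation.leibniz]
    rcases hi with hi | hi
    · have hit : i ∉ t := fun h => (Set.disjoint_left.1 hst) hi h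
      rw [pderiv_eq_zero_of_supported hh hit, smul_zero,
        zero_add, smul_eq_mul, mul_comm, map_mul, Module.End.mul_apply,
        tact_right c.act c'.act hst hh, tact_left c.act c'.act (pderiv_mem_supported hg i),
        h2 i hi, TensorProduct.zero_tmul]
    · have his : i ∉ s := fun h => (Set.disjoint_left.1 hst) h hi
      rw [pderiv_eq_zero_of_supported hg his, smul_zero,
        add_zero, smul_eq_mul, map_mul, Module.End.mul_apply,
        tact_right c.act c'.act hst (pderiv_mem_supported hh i), tact_left c.act c'.act hg,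
        h1, TensorProduct.zero_tmul]

theorem sRoot_mul_right {σ : Type} {s t : Set σ} {g h : MvPolynomial σ ℂ} {x : ℂ}
    (hst : Disjoint s t) (hg : g ∈ supported ℂ s) (hh : h ∈ supported ℂ t) (g0 : g ≠ 0)
    (hx : SRoot t h x) : SRoot (s ∪ t) (g * h) x := by
  rw [Set.union_comm, mul_comm]
  exact sRoot_mul_left hst.symm hh hg g0 hx

theorem sRoot_mul_one {σ : Type} {s t : Set σ} {g h : MvPolynomial σ ℂ} {x : ℂ}
    (hst : Disjoint s t) (hg : g ∈ supported ℂ s) (hh : h ∈ supported ℂ t)
    (hx : WRoot s g x) (hy : WRoot t h x) : SRoot (s ∪ t) (g * h) x := by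
  obtain ⟨B, _, _, c, h1⟩ := hx
  obtain ⟨B', _, _, c', h2⟩ := hy
  refine ⟨_, _, _, c.prod hst hg hh c', ?_, fun i hi => ?_⟩
  · change tact c.act c'.act s t (g * h) (c.psi 0 ⊗ₜ c'.psi 0) = 0
    rw [map_mul, Module.End.mul_apply, tact_right c.act c'.act hst hh,
      tact_left c.act c'.act hg, h1, TensorProduct.zero_tmul]
  · change tact c.act c'.act s t (pderiv i (g * h)) (c.psi 0 ⊗ₜ c'.psi 0) = 0
    rw [Derivation.leibniz]
    rcases hi with hi | hi
    · have hit : i ∉ t := fun h => (Set.disjoint_left.1 hst) hi h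
      rw [pderiv_eq_zero_of_supported hh hit, smul_zero,
        zero_add, smul_eq_mul, mul_comm, map_mul, Module.End.mul_apply,
        tact_right c.act c'.act hst hh, tact_left c.act c'.act (pderiv_mem_supported hg i),
        h2, TensorProduct.tmul_zero]
    · have his : i ∉ s := fun h => (Set.disjoint_left.1 hst) h hi
      rw [pderiv_eq_zero_of_supported hg his, smul_zero,
        add_zero, smul_eq_mul, map_mul, Module.End.mul_apply,
        tact_right c.act c'.act hst (pderiv_mem_supported hh i), tact_left c.act c'.act hg,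
        h1, TensorProduct.zero_tmul]

/-! ### sums -/

/-- the coefficients `(x)_a (y)_b / (x+y)_{a+b}` -/
noncomputable def tsCoeff (x y : ℂ) (p : ℕ × ℕ) : ℂ :=
  (ascPochhammer ℂ p.1).eval x * (ascPochhammer ℂ p.2).eval y /
    (ascPochhammer ℂ (p.1 + p.2)).eval (x + y)

section TS

variable {x y : ℂ} (hxy : ∀ k : ℕ, x + y + k ≠ 0)

include hxy

theorem asc_ne (n : ℕ) : (ascPochhammer ℂ n).eval (x + y) ≠ 0 := by
  induction n with
  | zero => simp
  | succ n ih =>
    rw [ascPochhammer_succ_eval]
    exact mul_ne_zero ih (hxy n)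

theorem tsCoeff_left (a b : ℕ) :
    (x + y + (a + b : ℕ)) * tsCoeff x y (a + 1, b) = (x + a) * tsCoeff x y (a, b) := by
  have h1 := asc_ne hxy (a + b)
  have h2 := hxy (a + b)
  simp only [tsCoeff]
  rw [show a + 1 + b = a + b + 1 by ring, ascPochhammer_succ_eval, ascPochhammer_succ_eval]
  field_simp

theorem tsCoeff_right (a b : ℕ) :
    (x + y + (a + b : ℕ)) * tsCoeff x y (a, b + 1) = (y + b) * tsCoeff x y (a, b) := by
  have h1 := asc_ne hxy (a + b)
  have h2 := hxy (a + b)
  simp only [tsCoeff]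
  rw [show a + (b + 1) = a + b + 1 by ring, ascPochhammer_succ_eval, ascPochhammer_succ_eval]
  field_simp

theorem tsCoeff_add (a b : ℕ) :
    tsCoeff x y (a + 1, b) + tsCoeff x y (a, b + 1) = tsCoeff x y (a, b) := by
  have h2 := hxy (a + b)
  refine mul_left_cancel₀ h2 ?_
  rw [mul_add, tsCoeff_left hxy, tsCoeff_right hxy]
  push_cast
  ring

end TS


section Sum

variable {σ : Type} {s t : Set σ} {g h : MvPolynomial σ ℂ} {x y : ℂ} {B B' : Type}
  [AddCommGroup B] [Module ℂ B] [AddCommGroup B'] [Module ℂ B']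

/-- the elements of the chain of a sum -/
noncomputable def tsPsi (c : Chain s g x B) (c' : Chain t h y B') (k : ℕ) : B ⊗[ℂ] B' :=
  ∑ p ∈ Finset.HasAntidiagonal.antidiagonal k, tsCoeff x y p • (c.psi p.1 ⊗ₜ c'.psi p.2)

theorem tsPsi_zero (c : Chain s g x B) (c' : Chain t h y B') :
    tsPsi c c' 0 = c.psi 0 ⊗ₜ c'.psi 0 := by
  simp [tsPsi, tsCoeff]

theorem tact_left_tsPsi (c : Chain s g x B) (c' : Chain t h y B') {u : MvPolynomial σ ℂ}
    (hu : u ∈ supported ℂ s) (h0 : c.act u (c.psi 0) = 0) (k : ℕ) :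
    tact c.act c'.act s t u (tsPsi c c' (k + 1)) =
      ∑ p ∈ Finset.HasAntidiagonal.antidiagonal k,
        tsCoeff x y (p.1 + 1, p.2) • (c.act u (c.psi (p.1 + 1)) ⊗ₜ c'.psi p.2) := by
  rw [tsPsi, map_sum, Finset.Nat.sum_antidiagonal_succ]
  simp only [map_smul, tact_left c.act c'.act hu, h0, TensorProduct.zero_tmul, smul_zero, zero_add]

theorem tact_right_tsPsi (hst : Disjoint s t) (c : Chain s g x B) (c' : Chain t h y B')
    {u : MvPolynomial σ ℂ} (hu : u ∈ supported ℂ t) (h0 : c'.act u (c'.psi 0) = 0) (k : ℕ) :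
    tact c.act c'.act s t u (tsPsi c c' (k + 1)) =
      ∑ p ∈ Finset.HasAntidiagonal.antidiagonal k,
        tsCoeff x y (p.1, p.2 + 1) • (c.psi p.1 ⊗ₜ c'.act u (c'.psi (p.2 + 1))) := by
  rw [tsPsi, map_sum, Finset.Nat.sum_antidiagonal_succ']
  simp only [map_smul, tact_right c.act c'.act hst hu, h0, TensorProduct.tmul_zero, smul_zero,
    zero_add]

/-- the chain of a sum (Thom-Sebastiani) -/
noncomputable def Chain.sum (hst : Disjoint s t) (hg : g ∈ supported ℂ s)
    (hh : h ∈ supported ℂ t) (hxy : ∀ k : ℕ, x + y + k ≠ 0) (c : Chain s g x B)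
    (c' : Chain t h y B') (h1 : c.act g (c.psi 0) = 0)
    (h2 : ∀ i ∈ s, c.act (pderiv i g) (c.psi 0) = 0) (h1' : c'.act h (c'.psi 0) = 0)
    (h2' : ∀ i ∈ t, c'.act (pderiv i h) (c'.psi 0) = 0) :
    Chain (s ∪ t) (g + h) (x + y) (B ⊗[ℂ] B') where
  act := tact c.act c'.act s t
  d := td c.d c'.d s t
  leibX := td_leibX c.act c'.act c.d c'.d hst c.leibX c'.leibX
  psi := tsPsi c c'
  mul_psi k := by
    rw [map_add, LinearMap.add_apply, tact_left_tsPsi c c' hg h1, tact_right_tsPsi hst c c' hh h1',
      ← Finset.sum_add_distrib, tsPsi]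
    refine Finset.sum_congr rfl fun p _ => ?_
    rw [c.mul_psi, c'.mul_psi, ← add_smul, tsCoeff_add hxy]
  d_psi i hi k := by
    rcases hi with hi | hi
    · have hit : i ∉ t := fun h => (Set.disjoint_left.1 hst) hi h
      rw [map_add, pderiv_eq_zero_of_supported hh hit, add_zero,
        tact_left_tsPsi c c' (pderiv_mem_supported hg i) (h2 i hi), tsPsi, map_sum,
        Finset.smul_sum]
      refine Finset.sum_congr rfl fun p hp => ?_
      rw [Finset.HasAntidiagonal.mem_antidiagonal] at hp
      rw [map_smul, td_left c.d c'.d hi, c.d_psi i hi, ← TensorProduct.smul_tmul', smul_smul,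
        smul_smul]
      congr 1
      have := tsCoeff_left hxy p.1 p.2
      rw [hp] at this
      linear_combination this
    · have his : i ∉ s := fun h => (Set.disjoint_left.1 hst) h hi
      rw [map_add, pderiv_eq_zero_of_supported hg his, zero_add,
        tact_right_tsPsi hst c c' (pderiv_mem_supported hh i) (h2' i hi), tsPsi, map_sum,
        Finset.smul_sum]
      refine Finset.sum_congr rfl fun p hp => ?_
      rw [Finset.HasAntidiagonal.mem_antidiagonal] at hp
      rw [map_smul, td_right c.d c'.d hst hi, c'.d_psi i hi, TensorProduct.tmul_smul, smul_smul,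
        smul_smul]
      congr 1
      have := tsCoeff_right hxy p.1 p.2
      rw [hp] at this
      linear_combination this
  ne := by
    rw [tsPsi_zero]
    exact tmul_ne c.ne c'.ne

theorem sRoot_add (hst : Disjoint s t) (hg : g ∈ supported ℂ s)
    (hh : h ∈ supported ℂ t) (hxy : ∀ k : ℕ, x + y + k ≠ 0) (hx : SRoot s g x)
    (hy : SRoot t h y) : SRoot (s ∪ t) (g + h) (x + y) := by
  obtain ⟨B, _, _, c, h1, h2⟩ := hx
  obtain ⟨B', _, _, c', h1', h2'⟩ := hy
  have h0 : tsPsi c c' 0 = c.psi 0 ⊗ₜ c'.psi 0 := tsPsi_zero c c'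
  refine ⟨_, _, _, Chain.sum hst hg hh hxy c c' h1 h2 h1' h2', ?_, fun i hi => ?_⟩
  · change tact c.act c'.act s t (g + h) (tsPsi c c' 0) = 0
    rw [h0, map_add, LinearMap.add_apply, tact_right c.act c'.act hst hh,
      tact_left c.act c'.act hg, h1, h1', TensorProduct.zero_tmul, TensorProduct.tmul_zero,
      add_zero]
  · change tact c.act c'.act s t (pderiv i (g + h)) (tsPsi c c' 0) = 0
    rw [h0, map_add]
    rcases hi with hi | hi
    · have hit : i ∉ t := fun h => (Set.disjoint_left.1 hst) hi h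
      rw [pderiv_eq_zero_of_supported hh hit, add_zero,
        tact_left c.act c'.act (pderiv_mem_supported hg i), h2 i hi, TensorProduct.zero_tmul]
    · have his : i ∉ s := fun h => (Set.disjoint_left.1 hst) h hi
      rw [pderiv_eq_zero_of_supported hg his, zero_add,
        tact_right c.act c'.act hst (pderiv_mem_supported hh i), h2' i hi,
        TensorProduct.tmul_zero]

end Sum

end Pool.Agent.Helper6_Mono
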