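import Mathlib

/-!
# Exactness of the Koszul complex in degree one

If the polynomials `g i` generate an ideal containing a power of every variable, then every
relation `∑ a i * g i = 0` (as many polynomials as variables) is a combination of the trivial
relations.
-/

set_option autoImplicit false

namespace Pool.Agent.Helper6_Mono

open MvPolynomial

section Koszul

variable {τ : Type} [Fintype τ] [DecidableEq τ] {K : Type} [Field K]

/-- every monomial of `p` is divisible by the `N`-th power of a variable in `s` -/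
def InI (N : ℕ) (s : Finset τ) (p : MvPolynomial τ K) : Prop :=
  ∀ m ∈ p.support, ∃ j ∈ s, N ≤ m j

omit [Fintype τ] [DecidableEq τ] in
theorem inI_iff (N : ℕ) (s : Finset τ) (p : MvPolynomial τ K) :
    InI N s p ↔ p ∈ Ideal.span ((fun m => monomial m (1 : K)) ''
      {m : τ →₀ ℕ | ∃ j ∈ s, m = Finsupp.single j N}) := by
  rw [mem_ideal_span_monomial_image]
  constructor
  · intro h m hm
    obtain ⟨j, hj, hN⟩ := h m hm
    exact ⟨Finsupp.single j N, ⟨j, hj, rfl⟩, by simpa using hN⟩
  · intro h m hm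
    obtain ⟨m', ⟨j, hj, rfl⟩, hN⟩ := h m hm
    exact ⟨j, hj, by simpa using hN⟩

omit [Fintype τ] [DecidableEq τ] in
theorem InI.add {N : ℕ} {s : Finset τ} {p q : MvPolynomial τ K} (hp : InI N s p)
    (hq : InI N s q) : InI N s (p + q) := by
  rw [inI_iff] at *
  exact Ideal.add_mem _ hp hq

omit [Fintype τ] [DecidableEq τ] in
theorem InI.sub {N : ℕ} {s : Finset τ} {p q : MvPolynomial τ K} (hp : InI N s p)
    (hq : InI N s q) : InI N s (p - q) := by
  rw [inI_iff] at *
  exact Ideal.sub_mem _ hp hq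

omit [Fintype τ] [DecidableEq τ] in
theorem InI.mul {N : ℕ} {s : Finset τ} (p : MvPolynomial τ K) {q : MvPolynomial τ K}
    (hq : InI N s q) : InI N s (p * q) := by
  rw [inI_iff] at *
  exact Ideal.mul_mem_left _ _ hq

omit [Fintype τ] [DecidableEq τ] in
theorem InI.sum {N : ℕ} {s : Finset τ} {ι : Type} {t : Finset ι} {p : ι → MvPolynomial τ K}
    (hq : ∀ i ∈ t, InI N s (p i)) : InI N s (∑ i ∈ t, p i) := by
  rw [inI_iff]
  exact Ideal.sum_mem _ fun i hi => (inI_iff _ _ _).1 (hq i hi)

omit [Fintype τ] [DecidableEq τ] in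
theorem inI_zero (N : ℕ) (s : Finset τ) : InI N s (0 : MvPolynomial τ K) := by
  intro m hm
  simp at hm

omit [Fintype τ] [DecidableEq τ] in
theorem inI_empty {N : ℕ} {p : MvPolynomial τ K} (h : InI N ∅ p) : p = 0 := by
  by_contra h0
  obtain ⟨m, hm⟩ := Finset.nonempty_iff_ne_empty.2 (fun h1 => h0 (support_eq_empty.1 h1))
  obtain ⟨j, hj, -⟩ := h m hm
  simp at hj

omit [Fintype τ] [DecidableEq τ] in
theorem inI_mono {N : ℕ} {s t : Finset τ} (hst : s ⊆ t) {p : MvPolynomial τ K}
    (h : InI N s p) : InI N t p := by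
  intro m hm
  obtain ⟨j, hj, hN⟩ := h m hm
  exact ⟨j, hst hj, hN⟩

omit [Fintype τ] in
theorem inI_insert_pow (N : ℕ) (s : Finset τ) (i : τ) :
    InI N (insert i s) (X i ^ N : MvPolynomial τ K) := by
  intro m hm
  rw [X_pow_eq_monomial] at hm
  have := support_monomial_subset hm
  rw [Finset.mem_singleton] at this
  subst this
  exact ⟨i, by simp, by simp⟩

omit [Fintype τ] [DecidableEq τ] in
/-- `X i ^ N` is a nonzerodivisor modulo the powers of the other variables -/
theorem inI_of_mul {N : ℕ} {s : Finset τ} {i : τ} (hi : i ∉ s) {p : MvPolynomial τ K}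
    (h : InI N s (X i ^ N * p)) : InI N s p := by
  intro m hm
  have hc : coeff (Finsupp.single i N + m) (X i ^ N * p) = coeff m p := by
    rw [X_pow_eq_monomial, coeff_monomial_mul, one_mul]
  have hm' : Finsupp.single i N + m ∈ (X i ^ N * p).support := by
    rw [mem_support_iff, hc]
    exact mem_support_iff.1 hm
  obtain ⟨j, hj, hN⟩ := h _ hm'
  refine ⟨j, hj, ?_⟩
  have hji : i ≠ j := by rintro rfl; exact hi hj
  simpa [Finsupp.single_apply, hji] using hN

/-- division by `X i ^ N` -/
noncomputable def divX (N : ℕ) (i : τ) : MvPolynomial τ K →ₗ[K] MvPolynomial τ K where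
  toFun p := p.divMonomial (Finsupp.single i N)
  map_add' p q := by
    ext m
    simp [coeff_divMonomial]
  map_smul' c p := by
    ext m
    simp [coeff_divMonomial]

omit [Fintype τ] in
theorem inI_sub_div {N : ℕ} {s : Finset τ} {i : τ} {p : MvPolynomial τ K}
    (h : InI N (insert i s) p) : InI N s (p - X i ^ N * divX N i p) := by
  intro m hm
  by_cases hN : N ≤ m i
  · exfalso
    rw [mem_support_iff] at hm
    apply hm
    have hle : Finsupp.single i N ≤ m := by simpa using hN
    obtain ⟨m', rfl⟩ := exists_add_of_le hle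
    rw [coeff_sub, X_pow_eq_monomial, coeff_monomial_mul, one_mul]
    change coeff _ p - coeff m' (p.divMonomial (Finsupp.single i N)) = 0
    rw [coeff_divMonomial, sub_self]
  · have hc : coeff m (p - X i ^ N * divX N i p) = coeff m p := by
      rw [coeff_sub, X_pow_eq_monomial, coeff_monomial_mul', if_neg, sub_zero]
      simpa using hN
    have hm' : m ∈ p.support := by
      rw [mem_support_iff] at hm ⊢
      rwa [hc] at hm
    obtain ⟨j, hj, hjN⟩ := h m hm'
    rcases Finset.mem_insert.1 hj with rfl | hj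
    · exact absurd hjN hN
    · exact ⟨j, hj, hjN⟩

/-- the Koszul differential, on alternating maps with values in the polynomials -/
noncomputable def kD (g : τ → MvPolynomial τ K) {p : ℕ}
    (z : (τ → K) [⋀^Fin (p + 1)]→ₗ[K] MvPolynomial τ K) :
    (τ → K) [⋀^Fin p]→ₗ[K] MvPolynomial τ K :=
  ∑ j, g j • z.curryLeft (Pi.single j 1)

theorem kD_apply (g : τ → MvPolynomial τ K) {p : ℕ}
    (z : (τ → K) [⋀^Fin (p + 1)]→ₗ[K] MvPolynomial τ K) (v : Fin p → (τ → K)) :
    kD g z v = ∑ j, g j * z (Matrix.vecCons (Pi.single j 1) v) := by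
  have h : ∀ t : Finset τ, (∑ j ∈ t, g j • z.curryLeft (Pi.single j 1)) v =
      ∑ j ∈ t, g j * z (Matrix.vecCons (Pi.single j 1) v) := by
    intro t
    induction t using Finset.induction_on with
    | empty => simp
    | insert j t hj ih =>
      rw [Finset.sum_insert hj, Finset.sum_insert hj, AlternatingMap.add_apply, ih]
      rfl
  exact h Finset.univ

theorem kD_add (g : τ → MvPolynomial τ K) {p : ℕ}
    (z z' : (τ → K) [⋀^Fin (p + 1)]→ₗ[K] MvPolynomial τ K) :
    kD g (z + z') = kD g z + kD g z' := by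
  ext1 v
  simp only [kD_apply, AlternatingMap.add_apply, mul_add, Finset.sum_add_distrib]

theorem kD_smul (g : τ → MvPolynomial τ K) {p : ℕ} (y : MvPolynomial τ K)
    (z : (τ → K) [⋀^Fin (p + 1)]→ₗ[K] MvPolynomial τ K) :
    kD g (y • z) = y • kD g z := by
  ext1 v
  simp only [kD_apply, AlternatingMap.smul_apply, smul_eq_mul, Finset.mul_sum]
  refine Finset.sum_congr rfl fun j _ => ?_
  ring

theorem kD_inI (g : τ → MvPolynomial τ K) {p : ℕ} {N : ℕ} {s : Finset τ}
    {z : (τ → K) [⋀^Fin (p + 1)]→ₗ[K] MvPolynomial τ K} (hz : ∀ v, InI N s (z v)) :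
    ∀ v, InI N s (kD g z v) := by
  intro v
  rw [kD_apply]
  exact InI.sum fun j _ => InI.mul _ (hz _)

theorem kD_kD (g : τ → MvPolynomial τ K) {p : ℕ}
    (z : (τ → K) [⋀^Fin (p + 2)]→ₗ[K] MvPolynomial τ K) : kD g (kD g z) = 0 := by
  ext1 v
  rw [AlternatingMap.zero_apply, kD_apply]
  simp only [kD_apply, Finset.mul_sum]
  rw [← Finset.sum_product']
  refine Finset.sum_involution (fun x _ => (x.2, x.1)) ?_ ?_ ?_ ?_
  · rintro ⟨i, j⟩ -
    have hsw : z (Matrix.vecCons (Pi.single i 1) (Matrix.vecCons (Pi.single j 1) v)) =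
        - z (Matrix.vecCons (Pi.single j 1) (Matrix.vecCons (Pi.single i 1) v)) := by
      have := z.map_swap (Matrix.vecCons (Pi.single j 1) (Matrix.vecCons (Pi.single i 1) v))
        (i := 0) (j := 1) (by simp)
      rw [← this]
      congr 1
      funext k
      refine Fin.cases ?_ (fun k => ?_) k
      · simp
      · refine Fin.cases ?_ (fun k => ?_) k
        · simp
        · have h1 : Equiv.swap (0 : Fin (p + 2)) 1 k.succ.succ = k.succ.succ := by
            refine Equiv.swap_apply_of_ne_of_ne ?_ ?_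
            · exact Fin.succ_ne_zero _
            · intro h
              exact Fin.succ_ne_zero k (Fin.succ_injective _ h)
          simp [h1]
    simp only
    rw [hsw]
    ring
  · rintro ⟨i, j⟩ - hne heq
    simp only [Prod.mk.injEq] at heq
    apply hne
    obtain ⟨h1, -⟩ := heq
    subst h1
    simp only
    rw [z.map_eq_zero_of_eq _ (i := 0) (j := 1) (by simp) (by simp)]
    simp
  · intro x _
    simp
  · intro x _
    rfl

/-- exterior multiplication by a vector of polynomials -/
noncomputable def kE (c : τ → MvPolynomial τ K) {p : ℕ}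
    (z : (τ → K) [⋀^Fin p]→ₗ[K] MvPolynomial τ K) :
    (τ → K) [⋀^Fin (p + 1)]→ₗ[K] MvPolynomial τ K :=
  AlternatingMap.alternatizeUncurryFin
    ({ toFun := fun x => (Fintype.linearCombination K c x) • z
       map_add' := fun x y => by rw [map_add, add_smul]
       map_smul' := fun a x => by
        rw [map_smul, RingHom.id_apply]
        ext1 v
        simp only [AlternatingMap.smul_apply, smul_assoc] } :
      (τ → K) →ₗ[K] (τ → K) [⋀^Fin p]→ₗ[K] MvPolynomial τ K)

omit [DecidableEq τ] in
theorem kE_apply (c : τ → MvPolynomial τ K) {p : ℕ}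
    (z : (τ → K) [⋀^Fin p]→ₗ[K] MvPolynomial τ K) (v : Fin (p + 1) → (τ → K)) :
    kE c z v = ∑ i : Fin (p + 1), (-1) ^ (i : ℕ) *
      (Fintype.linearCombination K c (v i) * z (i.removeNth v)) := by
  rw [kE, AlternatingMap.alternatizeUncurryFin_apply]
  refine Finset.sum_congr rfl fun i _ => ?_
  simp only [LinearMap.coe_mk, AddHom.coe_mk, AlternatingMap.smul_apply, smul_eq_mul]
  rw [zsmul_eq_mul]
  push_cast
  rfl

omit [DecidableEq τ] in
theorem kE_inI (c : τ → MvPolynomial τ K) {p : ℕ} {N : ℕ} {s : Finset τ}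
    {z : (τ → K) [⋀^Fin p]→ₗ[K] MvPolynomial τ K} (hz : ∀ v, InI N s (z v)) :
    ∀ v, InI N s (kE c z v) := by
  intro v
  rw [kE_apply]
  exact InI.sum fun j _ => InI.mul _ (InI.mul _ (hz _))

theorem kD_kE (g c : τ → MvPolynomial τ K) {p : ℕ}
    (z : (τ → K) [⋀^Fin (p + 1)]→ₗ[K] MvPolynomial τ K) :
    kD g (kE c z) = (∑ j, c j * g j) • z - kE c (kD g z) := by
  ext1 v
  rw [AlternatingMap.sub_apply, AlternatingMap.smul_apply, kD_apply, kE_apply]
  simp only [kE_apply]
  have h1 : ∀ j, g j * ∑ i : Fin (p + 1 + 1), (-1 : MvPolynomial τ K) ^ (i : ℕ) *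
      (Fintype.linearCombination K c ((Matrix.vecCons (Pi.single j 1) v : Fin (p + 1 + 1) → (τ → K)) i) *
        z (i.removeNth (Matrix.vecCons (Pi.single j 1) v : Fin (p + 1 + 1) → (τ → K)))) =
      c j * g j * z v - ∑ i : Fin (p + 1), (-1 : MvPolynomial τ K) ^ (i : ℕ) *
        (Fintype.linearCombination K c (v i) *
          (g j * z (Matrix.vecCons (Pi.single j 1) (i.removeNth v)))) := by
    intro j
    rw [Fin.sum_univ_succ]
    have h2 : Fin.removeNth (0 : Fin (p + 1 + 1))
        (Matrix.vecCons (Pi.single j 1) v : Fin (p + 1 + 1) → (τ → K)) = v := by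
      funext k
      simp [Fin.removeNth]
    have h3 : ∀ i : Fin (p + 1), Fin.removeNth i.succ
        (Matrix.vecCons (Pi.single j 1) v : Fin (p + 1 + 1) → (τ → K)) =
        Matrix.vecCons (Pi.single j 1) (i.removeNth v) := by
      intro i
      funext k
      refine Fin.cases ?_ (fun k => ?_) k
      · simp [Fin.removeNth]
      · simp [Fin.removeNth, Fin.succ_succAbove_succ]
    rw [h2]
    simp only [h3]
    simp only [Matrix.cons_val_zero, Matrix.cons_val_succ, Fin.val_zero, pow_zero, one_mul,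
      Fin.val_succ, pow_succ]
    rw [Fintype.linearCombination_apply_single, one_smul, mul_add, Finset.mul_sum,
      sub_eq_add_neg, ← Finset.sum_neg_distrib]
    congr 1
    · ring
    · refine Finset.sum_congr rfl fun i _ => ?_
      ring
  rw [Finset.sum_congr rfl fun j _ => h1 j, Finset.sum_sub_distrib, ← Finset.sum_mul,
    Finset.sum_comm, smul_eq_mul]
  congr 1
  refine Finset.sum_congr rfl fun i _ => ?_
  rw [kD_apply, Finset.mul_sum, Finset.mul_sum]

omit [DecidableEq τ] in
theorem alt_zero {p : ℕ} (hp : Fintype.card τ < p)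
    (z : (τ → K) [⋀^Fin p]→ₗ[K] MvPolynomial τ K) : z = 0 := by
  refine Module.Basis.ext_alternating (Pi.basisFun K τ) fun v hv => ?_
  exfalso
  have := Fintype.card_le_of_injective v hv
  simp at this
  omega

theorem koszul_step {N : ℕ} (g : τ → MvPolynomial τ K)
    (hg : ∀ i, ∃ c : τ → MvPolynomial τ K, ∑ j, c j * g j = X i ^ N) (k : ℕ) :
    ∀ s : Finset τ, s.card + k = Fintype.card τ → ∀ p : ℕ, s.card < p + 1 →
      ∀ z : (τ → K) [⋀^Fin (p + 1)]→ₗ[K] MvPolynomial τ K, (∀ v, InI N s (kD g z v)) →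
        ∃ u : (τ → K) [⋀^Fin (p + 2)]→ₗ[K] MvPolynomial τ K, ∀ v, InI N s ((z - kD g u) v) := by
  induction k with
  | zero =>
    intro s hs p hp z _
    refine ⟨0, fun v => ?_⟩
    rw [alt_zero (by omega) z]
    have : kD g (0 : (τ → K) [⋀^Fin (p + 2)]→ₗ[K] MvPolynomial τ K) = 0 := by
      ext1 v
      rw [kD_apply]
      simp
    rw [this, sub_zero]
    exact inI_zero _ _
  | succ k ih =>
    intro s hs p hp z hz
    obtain ⟨i, hi⟩ : ∃ i, i ∉ s := by
      by_contra hcon
      push Not at hcon
      have : s = Finset.univ := Finset.eq_univ_iff_forall.2 hcon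
      rw [this, Finset.card_univ] at hs
      omega
    obtain ⟨c, hc⟩ := hg i
    have hcard : (insert i s).card = s.card + 1 := Finset.card_insert_of_notMem hi
    have h1 : ∀ v, InI N (insert i s) (kD g (kE c z) v) := by
      intro v
      rw [kD_kE, hc, AlternatingMap.sub_apply, AlternatingMap.smul_apply, smul_eq_mul, mul_comm]
      exact (InI.mul _ (inI_insert_pow N s i)).sub
        (inI_mono (Finset.subset_insert i s) (kE_inI c hz v))
    obtain ⟨u, hu⟩ := ih (insert i s) (by omega) (p + 1) (by omega) (kE c z) h1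
    set w : (τ → K) [⋀^Fin (p + 2)]→ₗ[K] MvPolynomial τ K := kE c z - kD g u with hw
    set u' : (τ → K) [⋀^Fin (p + 2)]→ₗ[K] MvPolynomial τ K :=
      (divX N i).compAlternatingMap w with hu'
    refine ⟨u', fun v => ?_⟩
    apply inI_of_mul hi
    have h2 : ∀ v, InI N s ((w - (X i ^ N : MvPolynomial τ K) • u') v) := by
      intro v
      rw [AlternatingMap.sub_apply, AlternatingMap.smul_apply, smul_eq_mul, hu',
        LinearMap.compAlternatingMap_apply]
      exact inI_sub_div (hu v)
    have h3 := kD_inI g h2 v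
    have h4 : kD g (w - (X i ^ N : MvPolynomial τ K) • u') =
        (X i ^ N : MvPolynomial τ K) • (z - kD g u') - kE c (kD g z) := by
      have h5 : kD g (w - (X i ^ N : MvPolynomial τ K) • u') =
          kD g (kE c z) - kD g (kD g u) - (X i ^ N : MvPolynomial τ K) • kD g u' := by
        ext1 v
        simp only [kD_apply, AlternatingMap.sub_apply, AlternatingMap.smul_apply, smul_eq_mul, hw,
          mul_sub, Finset.sum_sub_distrib, Finset.mul_sum]
        congr 1
        refine Finset.sum_congr rfl fun j _ => ?_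
        ring
      rw [h5, kD_kD, kD_kE, hc, smul_sub]
      abel
    rw [h4] at h3
    have h6 := h3.add (kE_inI c hz v)
    rw [AlternatingMap.sub_apply, sub_add_cancel, AlternatingMap.smul_apply, smul_eq_mul] at h6
    exact h6

/-- **Exactness of the Koszul complex in degree one**. -/
theorem koszul_H1 (g : τ → MvPolynomial τ K)
    (hg : ∀ i, X i ∈ (Ideal.span (Set.range g)).radical) (a : τ → MvPolynomial τ K)
    (ha : ∑ i, a i * g i = 0) :
    ∃ q : τ → τ → MvPolynomial τ K, (∀ i j, q i j = - q j i) ∧ (∀ i, q i i = 0) ∧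
      ∀ i, a i = ∑ j, q i j * g j := by
  choose n hn using hg
  obtain ⟨N, hN⟩ : ∃ N, ∀ i, n i ≤ N := ⟨∑ i, n i, fun i =>
    Finset.single_le_sum (fun j _ => Nat.zero_le (n j)) (Finset.mem_univ i)⟩
  have hg' : ∀ i, ∃ c : τ → MvPolynomial τ K, ∑ j, c j * g j = X i ^ N := by
    intro i
    have h1 : (X i ^ N : MvPolynomial τ K) ∈ Ideal.span (Set.range g) := by
      rw [← Nat.sub_add_cancel (hN i), pow_add]
      exact Ideal.mul_mem_left _ _ (hn i)
    exact (Ideal.mem_span_range_iff_exists_fun).1 h1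
  let z : (τ → K) [⋀^Fin (0 + 1)]→ₗ[K] MvPolynomial τ K :=
    AlternatingMap.ofSubsingleton K (τ → K) (MvPolynomial τ K) (0 : Fin 1)
      (Fintype.linearCombination K a)
  have hz : ∀ x : τ → K, ∀ v : Fin 0 → (τ → K),
      z (Matrix.vecCons x v) = Fintype.linearCombination K a x := by
    intro x v
    simp [z]
  have h1 : ∀ v, InI N ∅ (kD g z v) := by
    intro v
    have : kD g z v = 0 := by
      rw [kD_apply, ← ha]
      refine Finset.sum_congr rfl fun j _ => ?_
      rw [hz, Fintype.linearCombination_apply_single, one_smul, mul_comm]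
    rw [this]
    exact inI_zero _ _
  obtain ⟨u, hu⟩ := koszul_step g hg' (Fintype.card τ) ∅ (by simp) 0 (by simp) z h1
  refine ⟨fun i j => u ![Pi.single j 1, Pi.single i 1], ?_, ?_, ?_⟩
  · intro i j
    have := u.map_swap ![Pi.single j 1, Pi.single i 1] (i := 0) (j := 1) (by simp)
    simp only
    rw [eq_neg_iff_add_eq_zero]
    have h2 : (![Pi.single j 1, Pi.single i 1] : Fin 2 → (τ → K)) ∘ ⇑(Equiv.swap 0 1) =
        ![Pi.single i 1, Pi.single j 1] := by
      funext k
      fin_cases k <;> simp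
    rw [h2] at this
    rw [this]
    ring
  · intro i
    exact u.map_eq_zero_of_eq _ (i := 0) (j := 1) (by simp) (by simp)
  · intro i
    have h2 := inI_empty (hu ![Pi.single i 1])
    rw [AlternatingMap.sub_apply, sub_eq_zero] at h2
    have h3 : z ![Pi.single i 1] = a i := by
      rw [hz, Fintype.linearCombination_apply_single, one_smul]
    rw [h3, kD_apply] at h2
    rw [h2]
    refine Finset.sum_congr rfl fun j _ => ?_
    rw [mul_comm]

end Koszul

end Pool.Agent.Helper6_Mono
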