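import Pool.Agent.Helper6_Mono.BRoots
import Pool.Agent.Helper6_Mono.Koszul
import Pool.Agent.Helper47_Mono.SBlock

/-!
# Roots of the Bernstein-Sato polynomials of the polynomials built from blocks
-/

set_option autoImplicit false

namespace Pool.Agent.Helper6_Mono

open MvPolynomial TensorProduct

theorem block_coeff {k : Type} [Field k] {σ : Type} {w : σ → ℕ} {d : ℕ} {g : MvPolynomial σ k}
    (hd : 0 < d) (hg : IsWeightedHomogeneous w g d) : constantCoeff g = 0 := by
  by_contra h
  have h1 : Finsupp.weight w (0 : σ →₀ ℕ) = d := hg h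
  rw [map_zero] at h1
  omega

theorem RO.basic {σ : Type} {s : Set σ} {S : Set ℚ} {f : MvPolynomial σ ℂ} (h : RO s S f) :
    s.Finite ∧ f ∈ supported ℂ s ∧ constantCoeff f = 0 ∧ f ≠ 0 := by
  induction h with
  | @sing s w d g hs hd hw hg hv hJ h0 =>
    refine ⟨s.finite_toSet, hv, block_coeff hd hg, ?_⟩
    rintro rfl
    obtain ⟨i, hi⟩ := hs
    obtain ⟨N, hN⟩ := hJ i hi
    have h3 : Ideal.span (Set.range fun j : σ => pderiv j (0 : MvPolynomial σ ℂ)) = ⊥ := by
      rw [Ideal.span_eq_bot]
      rintro _ ⟨j, rfl⟩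
      exact map_zero _
    rw [h3, Ideal.mem_bot] at hN
    exact pow_ne_zero N (X_ne_zero i) hN
  | @smooth s w d g hs hd hw hg hv h1 =>
    refine ⟨s.finite_toSet, hv, block_coeff hd hg, ?_⟩
    rintro rfl
    obtain ⟨i, hi⟩ := h1
    exact hi (by simp)
  | smul c hc _ ih =>
    obtain ⟨h1, h2, h3, h4⟩ := ih
    exact ⟨h1, Subalgebra.mul_mem _ (Subalgebra.algebraMap_mem _ c) h2, by simp [h3],
      mul_ne_zero (by simpa using hc) h4⟩
  | pow N hN _ ih =>
    obtain ⟨h1, h2, h3, h4⟩ := ih
    exact ⟨h1, Subalgebra.pow_mem _ h2 N, by rw [map_pow, h3, zero_pow (by omega)],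
      pow_ne_zero _ h4⟩
  | mul hst _ _ ih1 ih2 =>
    obtain ⟨h1, h2, h3, h4⟩ := ih1
    obtain ⟨k1, k2, k3, k4⟩ := ih2
    exact ⟨h1.union k1, Subalgebra.mul_mem _ (supported_mono Set.subset_union_left h2)
      (supported_mono Set.subset_union_right k2), by rw [map_mul, h3, zero_mul],
      mul_ne_zero h4 k4⟩
  | @add s t S T g h hst _ _ ih1 ih2 =>
    obtain ⟨h1, h2, h3, h4⟩ := ih1
    obtain ⟨k1, k2, k3, k4⟩ := ih2
    refine ⟨h1.union k1, Subalgebra.add_mem _ (supported_mono Set.subset_union_left h2)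
      (supported_mono Set.subset_union_right k2), by rw [map_add, h3, k3, add_zero], ?_⟩
    intro h0
    apply h4
    have h5 : proj s h = C (constantCoeff h) := by
      rw [supported_eq_range_rename] at k2
      obtain ⟨q, rfl⟩ := k2
      have : (proj s).comp (rename (Subtype.val : t → σ)) =
          (Algebra.ofId ℂ (MvPolynomial σ ℂ)).comp
            ((aeval (fun _ => (0 : ℂ))) : MvPolynomial t ℂ →ₐ[ℂ] ℂ) := by
        ext i : 1
        have hi : (i : σ) ∉ s := fun h => (Set.disjoint_left.1 hst) h i.2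
        simp [proj_X_not_mem hi]
      have h6 := DFunLike.congr_fun this q
      simp only [AlgHom.comp_apply] at h6
      change proj s (rename _ q) = _
      rw [h6]
      change C _ = C _
      congr 1
      have h7 : constantCoeff (rename (Subtype.val : t → σ) q) = constantCoeff q := by
        simp
      change _ = constantCoeff (rename (Subtype.val : t → σ) q)
      rw [h7, ← eval_zero]
      rfl
    have h6 := congrArg (proj s) h0
    rw [map_add, proj_of_supported h2, h5, k3, C_0, add_zero, map_zero] at h6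
    exact h6

theorem RO.sRoot {σ : Type} {s : Set σ} {S : Set ℚ} {f : MvPolynomial σ ℂ} (h : RO s S f) :
    (∀ x ∈ S, SRoot s f (x : ℂ)) ∧ WRoot s f 1 := by
  have hone : ∀ {s : Set σ} {S : Set ℚ} {f : MvPolynomial σ ℂ}, RO s S f → WRoot s f 1 := by
    intro s S f h
    obtain ⟨-, -, h3, h4⟩ := h.basic
    refine wRoot_one s f h4 fun hu => ?_
    have := hu.map (constantCoeff (R := ℂ) (σ := σ))
    rw [h3] at this
    exact not_isUnit_zero this
  refine ⟨?_, hone h⟩
  induction h with
  | @sing s w d g hs hd hw hg hv hJ h0 =>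
    intro x hx
    rw [Set.mem_singleton_iff.1 hx]
    have := Pool.Agent.Helper47_Mono.sRoot_block_of
      (fun τ _ _ f hf a ha => koszul_H1 f hf a ha) hs w d g hw hg hv hJ (fun i _ => h0 i)
    push_cast at this ⊢
    exact this
  | smooth => intro x hx; exact hx.elim
  | smul c hc _ ih => intro x hx; exact (ih x hx).scale c hc
  | @pow s S f N hN hf ih =>
    rintro x ⟨y, hy, rfl⟩
    have hN' : (N : ℂ) ≠ 0 := by
      have : N ≠ 0 := by omega
      exact_mod_cast this
    rcases hy with hy | hy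
    · exact (ih y hy).wRoot.sRoot_pow hN (by push_cast; field_simp)
    · rw [Set.mem_singleton_iff] at hy
      subst hy
      exact (hone hf).sRoot_pow hN (by push_cast; field_simp)
  | mul hst hf hg ih1 ih2 =>
    obtain ⟨-, h2, -, h4⟩ := hf.basic
    obtain ⟨-, k2, -, k4⟩ := hg.basic
    rintro x ((hx | hx) | hx)
    · exact sRoot_mul_left hst h2 k2 k4 (ih1 x hx)
    · exact sRoot_mul_right hst h2 k2 h4 (ih2 x hx)
    · rw [Set.mem_singleton_iff] at hx
      subst hx
      have := sRoot_mul_one hst h2 k2 (hone hf) (hone hg)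
      simpa using this
  | add hst hf hg ih1 ih2 =>
    obtain ⟨-, h2, -, h4⟩ := hf.basic
    obtain ⟨-, k2, -, k4⟩ := hg.basic
    rintro x ⟨y, hy, z, hz, rfl⟩
    have hy0 := hf.pos y hy
    have hz0 := hg.pos z hz
    have := sRoot_add hst h2 k2 (x := (y : ℂ)) (y := (z : ℂ)) (fun k => ?_) (ih1 y hy) (ih2 z hz)
    · simpa using this
    · have : (0 : ℚ) < y + z + k := by positivity
      exact_mod_cast this.ne'

/-- Every `-x`, where `x` is a slope of the read-once polynomial `f` or `1`, is a root of the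
Bernstein-Sato polynomial of `f`. -/
theorem RO.root {σ : Type} {s : Set σ} {S : Set ℚ} {f : MvPolynomial σ ℂ} (h : RO s S f) :
    ∀ x ∈ S ∪ {1}, (bfun f).eval (-(x : ℂ)) = 0 := by
  intro x hx
  have hw : WRoot s f (x : ℂ) := by
    rcases hx with hx | hx
    · exact (h.sRoot.1 x hx).wRoot
    · rw [Set.mem_singleton_iff] at hx
      subst hx
      simpa using h.sRoot.2
  obtain ⟨h1, h2, -, -⟩ := h.basic
  obtain ⟨B, _, _, c, hc⟩ := hw
  have hI : Ideal.span {b | LocalBS f b} ≤
      RingHom.ker (Polynomial.evalRingHom (-(x : ℂ))) := by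
    rw [Ideal.span_le]
    intro b hb
    exact root_of_chain h1 h2 c hc hb
  have h3 := hI (Submodule.IsPrincipal.generator_mem (Ideal.span {b | LocalBS f b}))
  rw [RingHom.mem_ker, Polynomial.coe_evalRingHom] at h3
  rw [bfun, normalize_apply, Polynomial.eval_mul, h3, zero_mul]

end Pool.Agent.Helper6_Mono
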