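import Pool.Agent.Helper6_Mono.BFunDefs

/-!
# The equivariant motivic zeta function of a polynomial

`k` is a field, `f` is a polynomial over `k` in the finite set of variables `σ`, and
`X_s = {f = 0}` is its zero scheme in the affine space `𝔸^σ`. The profinite group scheme `μ` of
roots of unity is the diagonalizable group with character group `ℚ/ℤ`; for a commutative
`k`-algebra `S` its group of `S`-points is `Hom(ℚ/ℤ, Sˣ)`.
-/

set_option autoImplicit false
set_option linter.unusedVariables false

namespace Pool.Agent.Helper6_Mono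

open MvPolynomial

/-- the character group `ℚ/ℤ` of `μ` -/
abbrev CharMu : Type := AddCircle (1 : ℚ)

noncomputable instance CharMu.instGroup : AddCommGroup CharMu := inferInstance

noncomputable instance CharMu.instMonoid : AddCommMonoid CharMu := inferInstance

/-- the group of `S`-points of `μ` -/
abbrev Mu (S : Type) [CommRing S] : Type := Multiplicative CharMu →* Sˣ

/-- the value of the character `w` at the point `c` of `μ` -/
def Mu.val {S : Type} [CommRing S] (c : Mu S) (w : CharMu) : S :=
  ((c (Multiplicative.ofAdd w) : Sˣ) : S)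

variable {k : Type} [Field k] {σ : Type} {f : MvPolynomial σ k}

/-- the polynomial `e` is homogeneous of degree `c`, the variable `i` having degree `wt i` -/
abbrev Hom {ι : Type} (wt : ι → CharMu) (e : MvPolynomial ι k) (c : CharMu) : Prop :=
  IsWeightedHomogeneous wt e c

/-- the polynomial `p` lies in the ideal generated by the set `E` -/
abbrev InSpan {ι : Type} (E : Set (MvPolynomial ι k)) (p : MvPolynomial ι k) : Prop :=
  p ∈ Ideal.span E

/-- the value of the polynomial `e` at the point `x` with coordinates in a `k`-algebra -/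
noncomputable def ev {ι : Type} {S : Type} [CommRing S] [Algebra k S] (x : ι → S)
    (e : MvPolynomial ι k) : S := aeval x e

variable (f) in
/-- An affine `X_s`-scheme of finite type with good `μ`-action, `X_s = {f = 0} ⊆ 𝔸^σ` carrying the
trivial action: the closed subscheme of the affine space `𝔸^Idx` (coordinate `i` having weight
`wt i`) defined by the homogeneous equations `eqs`, together with the equivariant morphism `pt` to
`X_s`, given by polynomials of weight zero. -/
structure GSch where
  Idx : Type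
  fin : Finite Idx
  wt : Idx → CharMu
  eqs : Set (MvPolynomial Idx k)
  eqs_hom : ∀ e ∈ eqs, ∃ c, Hom wt e c
  pt : σ → MvPolynomial Idx k
  pt_hom : ∀ i, Hom wt (pt i) 0
  pt_mem : InSpan eqs (bind₁ pt f)

namespace GSch

/-- the `S`-points -/
structure Pt (V : GSch f) (S : Type) [CommRing S] [Algebra k S] : Type where
  crd : V.Idx → S
  eq : ∀ e ∈ V.eqs, ev crd e = 0

/-- `x'` is the image of the point `x` under the morphism `φ` -/
def Pt.Maps {V : GSch f} {S S' : Type} [CommRing S] [Algebra k S] [CommRing S'] [Algebra k S']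
    (φ : S →ₐ[k] S') (x : V.Pt S) (x' : V.Pt S') : Prop :=
  ∀ i, x'.crd i = φ (x.crd i)

/-- `x'` is the image of the point `x` under the action of `c` -/
def Pt.Acts {V : GSch f} {S : Type} [CommRing S] [Algebra k S] (c : Mu S) (x x' : V.Pt S) : Prop :=
  ∀ i, x'.crd i = c.val (V.wt i) * x.crd i

/-- the points `x` and `y` lie over the same point of `X_s` -/
def Pt.Over {V W : GSch f} {S : Type} [CommRing S] [Algebra k S] (x : V.Pt S) (y : W.Pt S) : Prop :=
  ∀ i, ev y.crd (W.pt i) = ev x.crd (V.pt i)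

/-- bijections between the `S`-points of `V` and `W`, for all commutative `k`-algebras `S` -/
structure Bij (V W : GSch f) where
  map : (S : Type) → [CommRing S] → [Algebra k S] → V.Pt S → W.Pt S
  bij : ∀ (S : Type) [CommRing S] [Algebra k S], Function.Bijective (map S)

/-- the bijections are natural -/
def Bij.Natural {V W : GSch f} (F : Bij V W) : Prop :=
  ∀ (S S' : Type) [CommRing S] [Algebra k S] [CommRing S'] [Algebra k S'] (φ : S →ₐ[k] S')
    (x : V.Pt S) (x' : V.Pt S'), Pt.Maps φ x x' → Pt.Maps φ (F.map S x) (F.map S' x')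

/-- the bijections are equivariant -/
def Bij.Equivariant {V W : GSch f} (F : Bij V W) : Prop :=
  ∀ (S : Type) [CommRing S] [Algebra k S] (c : Mu S) (x x' : V.Pt S),
    Pt.Acts c x x' → Pt.Acts c (F.map S x) (F.map S x')

/-- the bijections are compatible with the morphisms to `X_s` -/
def Bij.IsOver {V W : GSch f} (F : Bij V W) : Prop :=
  ∀ (S : Type) [CommRing S] [Algebra k S] (x : V.Pt S), Pt.Over x (F.map S x)

/-- `V` and `W` are isomorphic as `X_s`-schemes with `μ`-action: there are bijections of their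
`S`-points for all commutative `k`-algebras `S` which are natural in `S`, equivariant, and
compatible with the morphisms to `X_s`. -/
def Iso (V W : GSch f) : Prop :=
  ∃ F : Bij V W, F.Natural ∧ F.Equivariant ∧ F.IsOver

/-- homogeneity is preserved by renaming variables -/
theorem isWH_rename {ι ι' : Type} {wt : ι → CharMu} {wt' : ι' → CharMu} (g : ι → ι')
    (hg : ∀ i, wt' (g i) = wt i) {e : MvPolynomial ι k} {w : CharMu}
    (he : Hom wt e w) : Hom wt' (rename g e) w := by
  intro d hd
  obtain ⟨u, hu, hu'⟩ := coeff_rename_ne_zero _ _ _ hd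
  rw [← he hu', ← hu]
  have : wt = wt' ∘ g := funext fun i => (hg i).symm
  rw [this]
  simp only [Finsupp.weight, LinearMap.toAddMonoidHom_coe]
  exact Finsupp.linearCombination_mapDomain ℕ g u

theorem span_rename {ι ι' : Type} (g : ι → ι') (E : Set (MvPolynomial ι k))
    (E' : Set (MvPolynomial ι' k)) (hE : ∀ e ∈ E, rename g e ∈ Ideal.span E')
    {p : MvPolynomial ι k} (hp : p ∈ Ideal.span E) : rename g p ∈ Ideal.span E' := by
  have : Ideal.span E ≤ (Ideal.span E').comap (rename g : MvPolynomial ι k →ₐ[k] _) := by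
    rw [Ideal.span_le]
    exact hE
  exact this hp

theorem bind₁_rename {ι ι' : Type} (g : ι → ι') (p : σ → MvPolynomial ι k) :
    bind₁ (fun i => rename g (p i)) f = rename g (bind₁ p f) := by
  have h : (bind₁ fun i => rename g (p i) : MvPolynomial σ k →ₐ[k] _)
      = (rename g).comp (bind₁ p) := by
    ext i
    simp
  rw [h]
  rfl

/-- the equations of the closed subscheme `{h = 0}` -/
def zeroEqs (V : GSch f) (h : MvPolynomial V.Idx k) : Set (MvPolynomial V.Idx k) :=
  {e | e = h ∨ e ∈ V.eqs}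

theorem zero_hom (V : GSch f) (h : MvPolynomial V.Idx k) (c : CharMu) (hh : Hom V.wt h c) :
    ∀ e ∈ V.zeroEqs h, ∃ c, Hom V.wt e c := by
  rintro e (rfl | he)
  · exact ⟨c, hh⟩
  · exact V.eqs_hom e he

theorem zero_mem (V : GSch f) (h : MvPolynomial V.Idx k) :
    InSpan (V.zeroEqs h) (bind₁ V.pt f) :=
  Ideal.span_mono (fun e he => Or.inr he) V.pt_mem

/-- the closed subscheme `{h = 0}` of `V`, for a homogeneous function `h` -/
def zero (V : GSch f) (h : MvPolynomial V.Idx k) (c : CharMu) (hh : Hom V.wt h c) :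
    GSch f where
  Idx := V.Idx
  fin := V.fin
  wt := V.wt
  eqs := V.zeroEqs h
  eqs_hom := zero_hom V h c hh
  pt := V.pt
  pt_hom := V.pt_hom
  pt_mem := zero_mem V h

/-- the weights on `𝔸¹ × V`, the new coordinate having weight `c` -/
def optWt (V : GSch f) (c : CharMu) : Option V.Idx → CharMu := fun o => o.elim c V.wt

/-- functions on `V` as functions on `𝔸¹ × V` -/
noncomputable def opt (V : GSch f) (e : MvPolynomial V.Idx k) : MvPolynomial (Option V.Idx) k :=
  rename some e

/-- the new coordinate on `𝔸¹ × V` -/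
noncomputable def optX (V : GSch f) : MvPolynomial (Option V.Idx) k := X none

theorem opt_hom (V : GSch f) (c : CharMu) {e : MvPolynomial V.Idx k} {w : CharMu}
    (he : Hom V.wt e w) : Hom (V.optWt c) (V.opt e) w :=
  isWH_rename some (fun i => rfl) he

theorem opt_fin (V : GSch f) : Finite (Option V.Idx) := by
  have := V.fin
  infer_instance

/-- the equations of the open subscheme `{h ≠ 0}` -/
def unitEqs (V : GSch f) (h : MvPolynomial V.Idx k) : Set (MvPolynomial (Option V.Idx) k) :=
  {e | e = V.optX * V.opt h - 1 ∨ ∃ e' ∈ V.eqs, e = V.opt e'}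

theorem unit_hom (V : GSch f) (h : MvPolynomial V.Idx k) (c : CharMu) (hh : Hom V.wt h c) :
    ∀ e ∈ V.unitEqs h, ∃ w, Hom (V.optWt (-c)) e w := by
  rintro e (rfl | ⟨e, he, rfl⟩)
  · refine ⟨0, IsWeightedHomogeneous.sub ?_ (isWeightedHomogeneous_one k _)⟩
    have h1 : IsWeightedHomogeneous (V.optWt (-c)) V.optX (-c) := isWeightedHomogeneous_X k _ none
    have h2 := V.opt_hom (-c) hh
    have := IsWeightedHomogeneous.mul h1 h2
    rwa [neg_add_cancel] at this
  · obtain ⟨w, hw⟩ := V.eqs_hom e he
    exact ⟨w, V.opt_hom _ hw⟩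

theorem unit_mem (V : GSch f) (h : MvPolynomial V.Idx k) :
    InSpan (V.unitEqs h) (bind₁ (fun i => V.opt (V.pt i)) f) := by
  unfold opt
  rw [bind₁_rename some V.pt]
  exact span_rename some V.eqs _
    (fun e he => Ideal.subset_span (Or.inr ⟨e, he, rfl⟩)) V.pt_mem

/-- the open subscheme `{h ≠ 0}` of `V`, for a homogeneous function `h`; the new coordinate `z` is
subject to `z * h = 1` -/
noncomputable def unit (V : GSch f) (h : MvPolynomial V.Idx k) (c : CharMu)
    (hh : Hom V.wt h c) : GSch f where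
  Idx := Option V.Idx
  fin := opt_fin V
  wt := V.optWt (-c)
  eqs := V.unitEqs h
  eqs_hom := unit_hom V h c hh
  pt := fun i => V.opt (V.pt i)
  pt_hom := fun i => opt_hom V (-c) (V.pt_hom i)
  pt_mem := unit_mem V h

/-- functions on `V` as functions on `V × W` -/
noncomputable def inl (V W : GSch f) (e : MvPolynomial V.Idx k) :
    MvPolynomial (V.Idx ⊕ W.Idx) k := rename Sum.inl e

/-- functions on `W` as functions on `V × W` -/
noncomputable def inr (V W : GSch f) (e : MvPolynomial W.Idx k) :
    MvPolynomial (V.Idx ⊕ W.Idx) k := rename Sum.inr e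

/-- the weights on `V × W` -/
def prodWt (V W : GSch f) : V.Idx ⊕ W.Idx → CharMu := Sum.elim V.wt W.wt

/-- the equations of the fibre product over `X_s` -/
def prodEqs (V W : GSch f) : Set (MvPolynomial (V.Idx ⊕ W.Idx) k) :=
  {e | (∃ e' ∈ V.eqs, e = V.inl W e') ∨ (∃ e' ∈ W.eqs, e = V.inr W e') ∨
    ∃ i, e = V.inl W (V.pt i) - V.inr W (W.pt i)}

theorem prod_fin (V W : GSch f) : Finite (V.Idx ⊕ W.Idx) := by
  have := V.fin
  have := W.fin
  infer_instance

theorem inl_hom (V W : GSch f) {e : MvPolynomial V.Idx k} {w : CharMu}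
    (he : Hom V.wt e w) : Hom (V.prodWt W) (V.inl W e) w :=
  isWH_rename Sum.inl (fun i => rfl) he

theorem inr_hom (V W : GSch f) {e : MvPolynomial W.Idx k} {w : CharMu}
    (he : Hom W.wt e w) : Hom (V.prodWt W) (V.inr W e) w :=
  isWH_rename Sum.inr (fun i => rfl) he

theorem prod_hom (V W : GSch f) : ∀ e ∈ V.prodEqs W, ∃ c, Hom (V.prodWt W) e c := by
  rintro e (⟨e, he, rfl⟩ | ⟨e, he, rfl⟩ | ⟨i, rfl⟩)
  · obtain ⟨w, hw⟩ := V.eqs_hom e he
    exact ⟨w, inl_hom V W hw⟩
  · obtain ⟨w, hw⟩ := W.eqs_hom e he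
    exact ⟨w, inr_hom V W hw⟩
  · exact ⟨0, IsWeightedHomogeneous.sub (inl_hom V W (V.pt_hom i)) (inr_hom V W (W.pt_hom i))⟩

theorem prod_mem (V W : GSch f) :
    InSpan (V.prodEqs W) (bind₁ (fun i => V.inl W (V.pt i)) f) := by
  unfold inl
  rw [bind₁_rename Sum.inl V.pt]
  exact span_rename Sum.inl V.eqs _
    (fun e he => Ideal.subset_span (Or.inl ⟨e, he, rfl⟩)) V.pt_mem

/-- the fibre product over `X_s` -/
noncomputable def prod (V W : GSch f) : GSch f where
  Idx := V.Idx ⊕ W.Idx
  fin := prod_fin V W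
  wt := V.prodWt W
  eqs := V.prodEqs W
  eqs_hom := prod_hom V W
  pt := fun i => V.inl W (V.pt i)
  pt_hom := fun i => inl_hom V W (V.pt_hom i)
  pt_mem := prod_mem V W

/-- the equations of `V × 𝔸¹` -/
def lineEqs (V : GSch f) : Set (MvPolynomial (Option V.Idx) k) :=
  {e | ∃ e' ∈ V.eqs, e = V.opt e'}

theorem line_hom (V : GSch f) (c : CharMu) : ∀ e ∈ V.lineEqs, ∃ w, Hom (V.optWt c) e w := by
  rintro e ⟨e, he, rfl⟩
  obtain ⟨w, hw⟩ := V.eqs_hom e he
  exact ⟨w, opt_hom V c hw⟩

theorem line_mem (V : GSch f) :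
    InSpan V.lineEqs (bind₁ (fun i => V.opt (V.pt i)) f) := by
  unfold opt
  rw [bind₁_rename some V.pt]
  refine span_rename some V.eqs _ (fun e he => Ideal.subset_span ?_) V.pt_mem
  exact ⟨e, he, rfl⟩

/-- the product `V × 𝔸¹`, the coordinate of the line having weight `c` -/
noncomputable def line (V : GSch f) (c : CharMu) : GSch f where
  Idx := Option V.Idx
  fin := opt_fin V
  wt := V.optWt c
  eqs := V.lineEqs
  eqs_hom := line_hom V c
  pt := fun i => V.opt (V.pt i)
  pt_hom := fun i => opt_hom V c (V.pt_hom i)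
  pt_mem := line_mem V

theorem base_hom (f : MvPolynomial σ k) :
    ∀ e ∈ ({f} : Set (MvPolynomial σ k)), ∃ c, Hom (fun _ : σ => (0 : CharMu)) e c := by
  rintro e rfl
  exact ⟨0, fun d _ => by simp [Finsupp.weight_apply]⟩

theorem base_mem (f : MvPolynomial σ k) : InSpan {f} (bind₁ X f) := by
  have : bind₁ X f = f := by simp
  rw [this]
  exact Ideal.subset_span rfl

variable (f) in
/-- `X_s` itself -/
noncomputable def base [Finite σ] : GSch f where
  Idx := σ
  fin := inferInstance
  wt := fun _ => 0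
  eqs := {f}
  eqs_hom := base_hom f
  pt := X
  pt_hom := fun i => isWeightedHomogeneous_X k _ i
  pt_mem := base_mem f

end GSch

/-- the relations of the Grothendieck ring -/
inductive KRel (f : MvPolynomial σ k) [Finite σ] : MvPolynomial (GSch f) ℤ → Prop
  | iso (V W : GSch f) (h : V.Iso W) : KRel f (X V - X W)
  | scissor (V : GSch f) (h : MvPolynomial V.Idx k) (c : CharMu)
      (hh : Hom V.wt h c) : KRel f (X V - X (V.zero h c hh) - X (V.unit h c hh))
  | prod (V W : GSch f) : KRel f (X (V.prod W) - X V * X W)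
  | one : KRel f (X (GSch.base f) - 1)
  | line (V : GSch f) (c : CharMu) : KRel f (X (V.line c) - X ((GSch.base f).line 0) * X V)

/-- the ideal generated by the relations of the Grothendieck ring -/
noncomputable def relIdeal (f : MvPolynomial σ k) [Finite σ] : Ideal (MvPolynomial (GSch f) ℤ) :=
  Ideal.span {r | KRel f r}

/-- The Grothendieck ring `K₀` of `X_s`-varieties with good `μ`-action: generated by the classes
of the affine ones, with the relations of isomorphism, additivity, multiplicativity for the fibre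
product over `X_s`, and `[V × 𝔸¹] = 𝕃 [V]` for every linear action on the line. -/
def K0 (f : MvPolynomial σ k) [Finite σ] : Type 1 :=
  MvPolynomial (GSch f) ℤ ⧸ relIdeal f

noncomputable instance K0.ring0 (f : MvPolynomial σ k) [Finite σ] : CommRing (K0 f) :=
  Ideal.Quotient.commRing (relIdeal f)

/-- the class of a variety in the Grothendieck ring -/
noncomputable def K0.cl0 [Finite σ] (V : GSch f) : K0 f :=
  Ideal.Quotient.mk (relIdeal f) (X V)

/-- the class of `𝔸¹ × X_s` in the Grothendieck ring -/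
noncomputable def K0.L0 (f : MvPolynomial σ k) [Finite σ] : K0 f := K0.cl0 ((GSch.base f).line 0)

/-- the localization `ℳ` of the Grothendieck ring at the class `𝕃` of `𝔸¹ × X_s` -/
def MM (f : MvPolynomial σ k) [Finite σ] : Type 1 := Localization.Away (K0.L0 f)

noncomputable instance MM.ringM (f : MvPolynomial σ k) [Finite σ] : CommRing (MM f) :=
  (inferInstance : CommRing (Localization.Away (K0.L0 f)))

/-- the canonical map from the Grothendieck ring to its localization -/
noncomputable def toMM (f : MvPolynomial σ k) [Finite σ] : K0 f →+* MM f :=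
  algebraMap (K0 f) (Localization.Away (K0.L0 f))

theorem toMM_isUnit (f : MvPolynomial σ k) [Finite σ] : IsUnit (toMM f (K0.L0 f)) :=
  IsLocalization.Away.algebraMap_isUnit (S := Localization.Away (K0.L0 f)) (K0.L0 f)

/-- the class of a variety in `ℳ` -/
noncomputable def cls [Finite σ] (V : GSch f) : MM f := toMM f (K0.cl0 V)

/-- the class `𝕃`, a unit of `ℳ` -/
noncomputable def LL (f : MvPolynomial σ k) [Finite σ] : (MM f)ˣ := (toMM_isUnit f).unit

/-- the element `𝕃 ^ a` of `ℳ` -/
noncomputable def Lpow (f : MvPolynomial σ k) [Finite σ] (a : ℤ) : MM f :=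
  ((LL f ^ a : (MM f)ˣ) : MM f)

/-- the universal `m`-jet `γ(t)`, with coordinates `γ_{i,j}`, `j ≤ m` -/
noncomputable def uJet (k : Type) [Field k] (σ : Type) (m : ℕ) (i : σ) :
    Polynomial (MvPolynomial (σ × Fin (m + 1)) k) :=
  ∑ j : Fin (m + 1), Polynomial.C (X (i, j)) * Polynomial.X ^ (j : ℕ)

/-- the coefficient of `t ^ l` in `f(γ(t))` -/
noncomputable def jetCoeff (f : MvPolynomial σ k) (m l : ℕ) : MvPolynomial (σ × Fin (m + 1)) k :=
  (aeval (uJet k σ m) f).coeff l

/-- the weight of the coordinate `γ_{i,j}` of an `m`-jet, corresponding to the action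
`γ(t) ↦ γ(λ t)` of the group of `m`-th roots of unity -/
noncomputable def jetWt (σ : Type) (m : ℕ) : σ × Fin (m + 1) → CharMu :=
  fun p => ((((p.2 : ℕ) : ℚ) / m : ℚ) : CharMu)

theorem jetWt_eq (m : ℕ) (i : σ) (j : Fin (m + 1)) :
    jetWt σ m (i, j) = (j : ℕ) • (((1 : ℚ) / m : ℚ) : CharMu) := by
  rw [jetWt, ← AddCircle.coe_nsmul, nsmul_eq_mul, mul_one_div]

theorem jetCoeff_hom (f : MvPolynomial σ k) (m l : ℕ) :
    IsWeightedHomogeneous (jetWt σ m) (jetCoeff f m l) (l • (((1 : ℚ) / m : ℚ) : CharMu)) := by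
  unfold jetCoeff
  induction f using MvPolynomial.induction_on generalizing l with
  | C a =>
    rw [algHom_C]
    show IsWeightedHomogeneous _ ((Polynomial.C (algebraMap k (MvPolynomial (σ × Fin (m + 1)) k) a)
      ).coeff l) _
    rw [Polynomial.coeff_C]
    split_ifs with h
    · rw [h, zero_smul]
      exact isWeightedHomogeneous_C _ a
    · exact isWeightedHomogeneous_zero _ _ _
  | add p q hp hq =>
    rw [map_add, Polynomial.coeff_add]
    exact (hp l).add (hq l)
  | mul_X p i hp =>
    rw [map_mul, aeval_X, Polynomial.coeff_mul]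
    refine IsWeightedHomogeneous.sum _ _ _ fun x hx => ?_
    rw [← Finset.HasAntidiagonal.mem_antidiagonal.1 hx, add_smul]
    refine (hp x.1).mul ?_
    unfold uJet
    rw [Polynomial.finsetSum_coeff]
    refine IsWeightedHomogeneous.sum _ _ _ fun j _ => ?_
    rw [Polynomial.coeff_C_mul, Polynomial.coeff_X_pow]
    split_ifs with h
    · rw [mul_one, h, ← jetWt_eq m i j]
      exact isWeightedHomogeneous_X k _ _
    · rw [mul_zero]
      exact isWeightedHomogeneous_zero _ _ _

theorem jetCoeff_zero (f : MvPolynomial σ k) (m : ℕ) :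
    jetCoeff f m 0 = bind₁ (fun i => X (i, 0)) f := by
  have h : ((Polynomial.constantCoeff : Polynomial (MvPolynomial (σ × Fin (m + 1)) k) →+* _).comp
      ((aeval (uJet k σ m) : MvPolynomial σ k →ₐ[k] _) : MvPolynomial σ k →+* _))
      = ((bind₁ (fun i => X (i, 0)) : MvPolynomial σ k →ₐ[k] MvPolynomial (σ × Fin (m + 1)) k) :
        MvPolynomial σ k →+* _) := by
    apply MvPolynomial.ringHom_ext
    · intro a
      simp only [RingHom.comp_apply, RingHom.coe_coe, algHom_C]
      show (Polynomial.C (algebraMap k (MvPolynomial (σ × Fin (m + 1)) k) a)).coeff 0 = _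
      rw [Polynomial.coeff_C_zero]
    · intro i
      simp only [RingHom.comp_apply, RingHom.coe_coe, aeval_X, bind₁_X_right]
      show (uJet k σ m i).coeff 0 = _
      unfold uJet
      rw [Polynomial.finsetSum_coeff, Finset.sum_eq_single 0]
      · simp
      · intro j _ hj
        rw [Polynomial.coeff_C_mul, Polynomial.coeff_X_pow, if_neg, mul_zero]
        intro h
        exact hj (Fin.ext (by simpa using h.symm))
      · intro h
        exact absurd (Finset.mem_univ _) h
  exact RingHom.congr_fun h f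

/-- the equations `f(γ(t)) = t ^ m` modulo `t ^ (m + 1)` -/
def jetEqs (f : MvPolynomial σ k) (m : ℕ) : Set (MvPolynomial (σ × Fin (m + 1)) k) :=
  {e | (∃ l < m, e = jetCoeff f m l) ∨ e = jetCoeff f m m - 1}

theorem jetEqs_hom (f : MvPolynomial σ k) (m : ℕ) (hm : m ≠ 0) :
    ∀ e ∈ jetEqs f m, ∃ c, Hom (jetWt σ m) e c := by
  rintro e (⟨l, hl, rfl⟩ | rfl)
  · exact ⟨_, jetCoeff_hom f m l⟩
  · refine ⟨_, (jetCoeff_hom f m m).sub ?_⟩
    have : m • (((1 : ℚ) / m : ℚ) : CharMu) = 0 := by
      rw [← AddCircle.coe_nsmul, nsmul_eq_mul, mul_one_div_cancel (by exact_mod_cast hm)]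
      exact AddCircle.coe_period 1
    rw [this]
    exact isWeightedHomogeneous_one _ _

/-- the coordinates of the point `γ(0)` of `X_s` -/
noncomputable def jetPt (k : Type) [Field k] (σ : Type) (m : ℕ) (i : σ) :
    MvPolynomial (σ × Fin (m + 1)) k := X (i, 0)

theorem jetPt_hom (m : ℕ) (i : σ) : Hom (jetWt σ m) (jetPt k σ m i) 0 := by
  have h := isWeightedHomogeneous_X k (jetWt σ m) ((i, 0) : σ × Fin (m + 1))
  rwa [jetWt_eq, Fin.val_zero, zero_smul] at h

theorem jetEqs_mem (f : MvPolynomial σ k) (m : ℕ) (hm : m ≠ 0) :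
    InSpan (jetEqs f m) (bind₁ (jetPt k σ m) f) := by
  apply Ideal.subset_span
  refine Or.inl ⟨0, Nat.pos_of_ne_zero hm, ?_⟩
  rw [jetCoeff_zero]
  rfl

theorem jet_fin (σ : Type) [Finite σ] (m : ℕ) : Finite (σ × Fin (m + 1)) := inferInstance

/-- the `X_s`-variety `X_{m,1}` of `m`-jets `γ` with `f(γ(t)) = t ^ m` modulo `t ^ (m + 1)`, over
`X_s` by `γ ↦ γ(0)` and with the action `γ(t) ↦ γ(λ t)` of the `m`-th roots of unity -/
noncomputable def XJet (f : MvPolynomial σ k) [Finite σ] (m : ℕ) (hm : m ≠ 0) : GSch f where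
  Idx := σ × Fin (m + 1)
  fin := jet_fin σ m
  wt := jetWt σ m
  eqs := jetEqs f m
  eqs_hom := jetEqs_hom f m hm
  pt := jetPt k σ m
  pt_hom := jetPt_hom m
  pt_mem := jetEqs_mem f m hm

/-- the coefficients of the zeta function: `[X_{m,1}] 𝕃 ^ (-m n)` for `m ≥ 1`, `n` being the number
of variables, and `0` for `m = 0` -/
noncomputable def zetaCoeff (f : MvPolynomial σ k) [Finite σ] (m : ℕ) : MM f :=
  if hm : m = 0 then 0 else cls (XJet f m hm) * Lpow f (-(m * Nat.card σ))

/-- The equivariant motivic zeta function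
`Z_f(T) = ∑_{m ≥ 1} [X_{m,1}] 𝕃 ^ (-m n) T ^ m` of Denef and Loeser, `n` being the number of
variables. -/
noncomputable def Zf (f : MvPolynomial σ k) [Finite σ] : PowerSeries (MM f) :=
  PowerSeries.mk (zetaCoeff f)

/-- the power series `1 - 𝕃 ^ a T ^ b` -/
noncomputable def denom (f : MvPolynomial σ k) [Finite σ] (a : ℤ) (b : ℕ) : PowerSeries (MM f) :=
  1 - PowerSeries.C (Lpow f a) * PowerSeries.X ^ b

/-- the set consisting of `T` and the elements `1 / (1 - 𝕃 ^ a T ^ b)`, `(a, b) ∈ S` -/
def gens (f : MvPolynomial σ k) [Finite σ] (S : Finset (ℤ × ℕ)) : Set (PowerSeries (MM f)) :=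
  {x | x = PowerSeries.X ∨ ∃ p ∈ S, x * denom f p.1 p.2 = 1}

/-- the subring `ℳ[T, 1 / (1 - 𝕃 ^ a T ^ b)]`, `(a, b) ∈ S`, of `ℳ[[T]]` -/
noncomputable def zetaRing (f : MvPolynomial σ k) [Finite σ] (S : Finset (ℤ × ℕ)) :
    Set (PowerSeries (MM f)) :=
  {x | x ∈ Algebra.adjoin (MM f) (gens f S)}

end Pool.Agent.Helper6_Mono
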