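import Pool.Agent.Helper6_Mono.Jet
import Pool.Agent.Helper6_Mono.GDefs

/-!
# The universal additive invariant with values in the localized Grothendieck ring
-/

set_option autoImplicit false
set_option linter.unusedVariables false

namespace Pool.Agent.Helper6_Mono

open MvPolynomial

/-! ### transport along isomorphisms over the base -/

section OIsoLemmas

variable {k : Type} [Field k] {W : Type} [AddCommGroup W] {β : Type} {wβ : β → W}

theorem OIso.zero' {X Y : Over k W β wβ} (e : GEquiv X.F Y.F)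
    (he : ∀ (S : Type) [CommRing S] [Algebra k S] (x : X.F.obj S) (b : β),
      (Y.pt b).fn (e.eq S x) = (X.pt b).fn x) {w : W} (g : NF X.F w) (h : NF Y.F w)
    (hgh : ∀ (S : Type) [CommRing S] [Algebra k S] (x : X.F.obj S), h.fn (e.eq S x) = g.fn x) :
    OIso (X.zero g) (Y.zero h) := by
  refine ⟨⟨fun S _ _ => ?_, ?_⟩, ?_⟩
  · exact
      { toFun := fun x => ⟨e.eq S x.1, by show h.fn (e.eq S x.1) = 0; rw [hgh]; exact x.2⟩
        invFun := fun y => ⟨(e.eq S).symm y.1, by
          show g.fn ((e.eq S).symm y.1) = 0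
          rw [← hgh, Equiv.apply_symm_apply]; exact y.2⟩
        left_inv := fun x => Subtype.ext ((e.eq S).symm_apply_apply x.1)
        right_inv := fun y => Subtype.ext ((e.eq S).apply_symm_apply y.1) }
  · intro S S' _ _ _ _ φ c x
    exact Subtype.ext (e.eq_tw φ c x.1)
  · intro S _ _ x b
    exact he S x.1 b

theorem OIso.unit' {X Y : Over k W β wβ} (e : GEquiv X.F Y.F)
    (he : ∀ (S : Type) [CommRing S] [Algebra k S] (x : X.F.obj S) (b : β),
      (Y.pt b).fn (e.eq S x) = (X.pt b).fn x) {w : W} (g : NF X.F w) (h : NF Y.F w)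
    (hgh : ∀ (S : Type) [CommRing S] [Algebra k S] (x : X.F.obj S), h.fn (e.eq S x) = g.fn x) :
    OIso (X.unit g) (Y.unit h) := by
  refine ⟨⟨fun S _ _ => ?_, ?_⟩, ?_⟩
  · exact
      { toFun := fun x => ⟨e.eq S x.1, by show IsUnit (h.fn (e.eq S x.1)); rw [hgh]; exact x.2⟩
        invFun := fun y => ⟨(e.eq S).symm y.1, by
          show IsUnit (g.fn ((e.eq S).symm y.1))
          rw [← hgh, Equiv.apply_symm_apply]; exact y.2⟩
        left_inv := fun x => Subtype.ext ((e.eq S).symm_apply_apply x.1)
        right_inv := fun y => Subtype.ext ((e.eq S).apply_symm_apply y.1) }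
  · intro S S' _ _ _ _ φ c x
    exact Subtype.ext (e.eq_tw φ c x.1)
  · intro S _ _ x b
    exact he S x.1 b

theorem OIso.times' {X Y : Over k W β wβ} (h : OIso X Y) (G : GF k W) :
    OIso (X.times G) (Y.times G) := by
  obtain ⟨e, he⟩ := h
  refine ⟨⟨fun S _ _ => Equiv.prodCongr (e.eq S) (Equiv.refl _), ?_⟩, ?_⟩
  · intro S S' _ _ _ _ φ c x
    exact Prod.ext (e.eq_tw φ c x.1) rfl
  · intro S _ _ x b
    exact he S x.1 b

end OIsoLemmas

namespace RingPart

variable {k : Type} [Field k] {σ : Type} {f : MvPolynomial σ k}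

/-- functors over the affine space of the variables -/
abbrev Ov (k : Type) [Field k] (σ : Type) : Type 1 := Over k QZ σ (fun _ : σ => (0 : QZ))

variable (f) in
/-- the polynomial `f` as a function -/
@[reducible] noncomputable def fNF (X : Ov k σ) : NF X.F 0 :=
  ⟨fun x => aeval (X.base x) f, fun {S S'} _ _ _ _ φ c x => by
    rw [X.base_tw]
    have : (fun b : σ => chr c (0 : QZ) * φ (X.base x b)) = fun b => φ (X.base x b) := by
      funext b; rw [chr_zero, one_mul]
    rw [this, chr_zero, one_mul, ← comp_aeval_apply]⟩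

/-- the functor over the base given by a `GSch` -/
@[reducible] noncomputable def ov (V : GSch f) : Ov k σ where
  F := affGF V.Idx V.wt V.eqs V.eqs_hom
  pt i := ⟨fun x => aeval x.1 (V.pt i), fun φ c x => aeval_tw (V.pt_hom i) φ c x.1⟩

/-- restriction of functions to the part over `{f = 0}` -/
@[reducible] noncomputable def resNF {X : Ov k σ} {w : QZ} (h : NF X.F w) :
    NF (X.zero (fNF f X)).F w :=
  ⟨fun x => h.fn x.1, fun φ c x => h.fn_tw φ c x.1⟩

/-- `V` represents the part of `X` over `{f = 0}` -/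
def Pres (X : Ov k σ) (V : GSch f) : Prop := OIso (X.zero (fNF f X)) (ov V)

theorem exists_pres {X : Ov k σ} (hX : FT X.F) : ∃ V : GSch f, Pres X V := by
  obtain ⟨ι, hι, wt, E, hE, ⟨e⟩⟩ := FT.zero hX (fNF f X)
  choose p hp hpx using fun i : σ => (((X.zero (fNF f X)).pt i).pull e.symm).exists_poly
  have hu : ∀ q : MvPolynomial ι k, aeval (uPt (wt := wt) (hE := hE)).1 q =
      Ideal.Quotient.mk (Ideal.span E) q := by
    intro q
    have : (aeval (uPt (wt := wt) (hE := hE)).1 : MvPolynomial ι k →ₐ[k] UA E) =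
        Ideal.Quotient.mkₐ k (Ideal.span E) := by
      apply MvPolynomial.algHom_ext
      intro i
      rw [aeval_X]
      rfl
    rw [this]
    rfl
  let u : (affGF ι wt E hE).obj (UA E) := uPt (wt := wt) (hE := hE)
  have hmem : bind₁ p f ∈ Ideal.span E := by
    rw [← Ideal.Quotient.eq_zero_iff_mem, ← hu, aeval_bind₁]
    have h1 : aeval (X.base ((e.eq (UA E)).symm u).1) f = 0 := ((e.eq (UA E)).symm u).2
    have h2 : (fun i => aeval (uPt (wt := wt) (hE := hE)).1 (p i)) =
        X.base ((e.eq (UA E)).symm u).1 := by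
      funext i
      exact (hpx i (UA E) u).symm
    rw [h2]
    exact h1
  refine ⟨⟨ι, hι, wt, E, hE, p, hp, hmem⟩, e, ?_⟩
  intro S _ _ x i
  show aeval (e.eq S x).1 (p i) = (X.pt i).fn x.1
  rw [← hpx i S (e.eq S x)]
  show (X.pt i).fn ((e.eq S).symm (e.eq S x)).1 = (X.pt i).fn x.1
  rw [Equiv.symm_apply_apply]

/-- points as elements of the subtype -/
def ptEquiv (V : GSch f) (S : Type) [CommRing S] [Algebra k S] : V.Pt S ≃ (ov V).F.obj S where
  toFun x := ⟨x.crd, x.eq⟩
  invFun x := ⟨x.1, x.2⟩
  left_inv x := rfl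
  right_inv x := rfl

theorem iso_of_OIso {V V' : GSch f} (h : OIso (ov V) (ov V')) : V.Iso V' := by
  obtain ⟨e, he⟩ := h
  refine ⟨⟨fun S _ _ x => (ptEquiv V' S).symm (e.eq S (ptEquiv V S x)), fun S _ _ =>
    (((ptEquiv V S).trans (e.eq S)).trans (ptEquiv V' S).symm).bijective⟩, ?_, ?_, ?_⟩
  · intro S S' _ _ _ _ φ x x' hx j
    have h1 : ptEquiv V S' x' =
        (affGF V.Idx V.wt V.eqs V.eqs_hom).tw φ 1 (ptEquiv V S x) := by
      apply Subtype.ext
      funext i
      refine (hx i).trans ?_
      show _ = chr 1 (V.wt i) * φ (x.crd i)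
      rw [chr_one, one_mul]
    show (e.eq S' (ptEquiv V S' x')).1 j = φ ((e.eq S (ptEquiv V S x)).1 j)
    rw [h1]
    have h2 := e.eq_tw φ 1 (ptEquiv V S x)
    have h3 := congrArg (fun z : (affGF V'.Idx V'.wt V'.eqs V'.eqs_hom).obj S' => z.1 j) h2
    refine h3.trans ?_
    show chr 1 (V'.wt j) * φ ((e.eq S (ptEquiv V S x)).1 j) = φ ((e.eq S (ptEquiv V S x)).1 j)
    rw [chr_one, one_mul]
  · intro S _ _ c x x' hx j
    have h1 : ptEquiv V S x' =
        (affGF V.Idx V.wt V.eqs V.eqs_hom).tw (AlgHom.id k S) c (ptEquiv V S x) := by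
      apply Subtype.ext
      funext i
      exact hx i
    show (e.eq S (ptEquiv V S x')).1 j = _
    rw [h1]
    have h2 := e.eq_tw (AlgHom.id k S) c (ptEquiv V S x)
    exact congrArg (fun z : (affGF V'.Idx V'.wt V'.eqs V'.eqs_hom).obj S => z.1 j) h2
  · intro S _ _ x i
    exact he S (ptEquiv V S x) i

theorem cls_eq_of_OIso [Finite σ] {V V' : GSch f} (h : OIso (ov V) (ov V')) : cls V = cls V' := by
  have h1 : K0.cl0 V = K0.cl0 V' :=
    Ideal.Quotient.eq.2 (Ideal.subset_span (KRel.iso V V' (iso_of_OIso h)))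
  unfold cls
  rw [h1]

open Classical in
/-- the value of the universal invariant -/
noncomputable def val [Finite σ] (f : MvPolynomial σ k) (X : Ov k σ) : MM f :=
  if h : ∃ V : GSch f, Pres X V then cls h.choose else 0

theorem val_eq [Finite σ] {X : Ov k σ} {V : GSch f} (h : Pres X V) : val f X = cls V := by
  have hex : ∃ V : GSch f, Pres X V := ⟨V, h⟩
  unfold val
  rw [dif_pos hex]
  exact cls_eq_of_OIso ((OIso.symm hex.choose_spec).trans h)

theorem pres_of_OIso {X Y : Ov k σ} {V : GSch f} (h : OIso X Y) (hV : Pres X V) : Pres Y V := by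
  obtain ⟨e, he⟩ := h
  refine OIso.trans (OIso.symm ?_) hV
  refine OIso.zero' e he _ _ ?_
  intro S _ _ x
  show aeval (Y.base (e.eq S x)) f = aeval (X.base x) f
  rw [Over.base_eq he]

/-- a homogeneous polynomial as a function -/
@[reducible] noncomputable def pNF (V : GSch f) {p : MvPolynomial V.Idx k} {w : QZ}
    (hp : IsWeightedHomogeneous V.wt p w) : NF (ov V).F w :=
  ⟨fun x => aeval x.1 p, fun φ c x => aeval_tw hp φ c x.1⟩

theorem ov_zero (V : GSch f) {p : MvPolynomial V.Idx k} {w : QZ}
    (hp : IsWeightedHomogeneous V.wt p w) :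
    OIso ((ov V).zero (pNF V hp)) (ov (V.zero p w hp)) := by
  refine ⟨⟨fun S _ _ => ?_, ?_⟩, ?_⟩
  · exact
      { toFun := fun x => ⟨x.1.1, by
          intro e he
          rcases he with he | he
          · rw [he]
            exact x.2
          · exact x.1.2 e he⟩
        invFun := fun y => ⟨⟨y.1, fun e he => y.2 e (Or.inr he)⟩, y.2 p (Or.inl rfl)⟩
        left_inv := fun x => rfl
        right_inv := fun y => rfl }
  · intro S S' _ _ _ _ φ c x
    rfl
  · intro S _ _ x b
    rfl

theorem aeval_some {ι : Type} {S : Type} [CommRing S] [Algebra k S] (y : Option ι → S)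
    (e : MvPolynomial ι k) : aeval y (rename some e) = aeval (fun i => y (some i)) e := by
  rw [aeval_rename]
  rfl

theorem ov_unit (V : GSch f) {p : MvPolynomial V.Idx k} {w : QZ}
    (hp : IsWeightedHomogeneous V.wt p w) :
    OIso ((ov V).unit (pNF V hp)) (ov (V.unit p w hp)) := by
  have hqe : ∀ (S : Type) [CommRing S] [Algebra k S] (y : Option V.Idx → S),
      aeval y (X none * rename some p - 1 : MvPolynomial (Option V.Idx) k) =
        y none * aeval (fun i => y (some i)) p - 1 := by
    intro S _ _ y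
    rw [map_sub, map_mul, map_one, aeval_X, aeval_some]
  refine ⟨⟨fun S _ _ => ?_, ?_⟩, ?_⟩
  · refine
      { toFun := fun x => ⟨fun o => o.elim (Ring.inverse (aeval x.1.1 p)) x.1.1, ?_⟩
        invFun := fun y => ⟨⟨fun i => y.1 (some i), fun e he => ?_⟩, ?_⟩
        left_inv := fun x => rfl
        right_inv := ?_ }
    · rintro e (rfl | ⟨e, he, rfl⟩)
      · refine (hqe S _).trans ?_
        show Ring.inverse (aeval x.1.1 p) * aeval x.1.1 p - 1 = 0
        rw [Ring.inverse_mul_cancel _ x.2, sub_self]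
      · refine (aeval_some _ e).trans ?_
        exact x.1.2 e he
    · exact (aeval_some _ e).symm.trans (y.2 _ (Or.inr ⟨e, he, rfl⟩))
    · have := (hqe S y.1).symm.trans (y.2 _ (Or.inl rfl))
      rw [sub_eq_zero] at this
      exact IsUnit.of_mul_eq_one_right _ this
    · intro y
      apply Subtype.ext
      funext o
      cases o with
      | some i => rfl
      | none =>
        show Ring.inverse (aeval (fun i => y.1 (some i)) p) = y.1 none
        have := (hqe S y.1).symm.trans (y.2 _ (Or.inl rfl))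
        rw [sub_eq_zero] at this
        exact inv_eq_of_mul this
  · intro S S' _ _ _ _ φ c x
    apply Subtype.ext
    funext o
    cases o with
    | some i => rfl
    | none =>
      show Ring.inverse (aeval (fun i => chr c (V.wt i) * φ (x.1.1 i)) p) =
        chr c (-w) * φ (Ring.inverse (aeval x.1.1 p))
      rw [aeval_tw hp]
      apply inv_eq_of_mul
      rw [show chr c (-w) * φ (Ring.inverse (aeval x.1.1 p)) * (chr c w * φ (aeval x.1.1 p))
        = (chr c (-w) * chr c w) * (φ (Ring.inverse (aeval x.1.1 p)) * φ (aeval x.1.1 p)) by ring,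
        chr_neg_mul, ← map_mul, Ring.inverse_mul_cancel _ x.2, map_one, one_mul]
  · intro S _ _ x b
    exact aeval_some _ (V.pt b)

theorem ov_line (V : GSch f) (w : QZ) :
    OIso ((ov V).times (GF.line k w)) (ov (V.line w)) := by
  refine ⟨⟨fun S _ _ => ?_, ?_⟩, ?_⟩
  · refine
      { toFun := fun x => ⟨fun o => o.elim x.2 x.1.1, ?_⟩
        invFun := fun y => (⟨fun i => y.1 (some i), fun e he => ?_⟩, y.1 none)
        left_inv := fun x => rfl
        right_inv := ?_ }
    · rintro e ⟨e, he, rfl⟩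
      exact (aeval_some _ e).trans (x.1.2 e he)
    · exact (aeval_some _ e).symm.trans (y.2 _ ⟨e, he, rfl⟩)
    · intro y
      apply Subtype.ext
      funext o
      cases o with
      | some i => rfl
      | none => rfl
  · intro S S' _ _ _ _ φ c x
    apply Subtype.ext
    funext o
    cases o with
    | some i => rfl
    | none => rfl
  · intro S _ _ x b
    exact aeval_some _ (V.pt b)

theorem exists_pres_scissor {X : Ov k σ} {V : GSch f} (hV : Pres X V) {w : QZ} (h : NF X.F w) :
    ∃ (p : MvPolynomial V.Idx k) (hp : IsWeightedHomogeneous V.wt p w),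
      Pres (X.zero h) (V.zero p w hp) ∧ Pres (X.unit h) (V.unit p w hp) := by
  obtain ⟨e, he⟩ := hV
  obtain ⟨p, hp, hpx⟩ := NF.exists_poly (hE := V.eqs_hom) ((resNF (f := f) h).pull e.symm)
  have hpe : ∀ (S : Type) [CommRing S] [Algebra k S] (x : (X.zero (fNF f X)).F.obj S),
      (pNF V hp).fn (e.eq S x) = (resNF (f := f) h).fn x := by
    intro S _ _ x
    have := hpx S (e.eq S x)
    change h.fn ((e.eq S).symm (e.eq S x)).1 = _ at this
    rw [Equiv.symm_apply_apply] at this
    exact this.symm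
  refine ⟨p, hp, ?_, ?_⟩
  · refine OIso.trans ?_ ((OIso.zero' e he (resNF h) (pNF V hp) hpe).trans (ov_zero V hp))
    refine ⟨⟨fun S _ _ =>
      { toFun := fun x => ⟨⟨x.1.1, x.2⟩, x.1.2⟩
        invFun := fun y => ⟨⟨y.1.1, y.2⟩, y.1.2⟩
        left_inv := fun x => rfl
        right_inv := fun y => rfl }, fun φ c x => rfl⟩, fun S _ _ x b => rfl⟩
  · refine OIso.trans ?_ ((OIso.unit' e he (resNF h) (pNF V hp) hpe).trans (ov_unit V hp))
    refine ⟨⟨fun S _ _ =>
      { toFun := fun x => ⟨⟨x.1.1, x.2⟩, x.1.2⟩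
        invFun := fun y => ⟨⟨y.1.1, y.2⟩, y.1.2⟩
        left_inv := fun x => rfl
        right_inv := fun y => rfl }, fun φ c x => rfl⟩, fun S _ _ x b => rfl⟩

theorem pres_line {X : Ov k σ} {V : GSch f} (hV : Pres X V) (w : QZ) :
    Pres (X.times (GF.line k w)) (V.line w) := by
  refine OIso.trans ?_ ((OIso.times' hV (GF.line k w)).trans (ov_line V w))
  refine ⟨⟨fun S _ _ =>
      { toFun := fun x => (⟨x.1.1, x.2⟩, x.1.2)
        invFun := fun y => ⟨(y.1.1, y.2), y.1.2⟩
        left_inv := fun x => rfl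
        right_inv := fun y => rfl }, fun φ c x => rfl⟩, fun S _ _ x b => rfl⟩

/-- the universal invariant -/
noncomputable def chi [Finite σ] (f : MvPolynomial σ k) :
    SInv k (fun _ : σ => (0 : QZ)) (LL f) where
  χ X := val f X
  iso {X Y} hX h := by
    obtain ⟨V, hV⟩ := exists_pres (f := f) hX
    rw [val_eq hV, val_eq (pres_of_OIso h hV)]
  scissor {X} hX {w} h := by
    obtain ⟨V, hV⟩ := exists_pres (f := f) hX
    obtain ⟨p, hp, h1, h2⟩ := exists_pres_scissor hV h
    rw [val_eq hV, val_eq h1, val_eq h2]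
    have h3 : K0.cl0 V = K0.cl0 (V.zero p w hp) + K0.cl0 (V.unit p w hp) := by
      refine (Ideal.Quotient.eq.2 ?_ : Ideal.Quotient.mk (relIdeal f) (MvPolynomial.X V) =
        Ideal.Quotient.mk (relIdeal f)
          (MvPolynomial.X (V.zero p w hp) + MvPolynomial.X (V.unit p w hp)))
      rw [← sub_sub]
      exact Ideal.subset_span (KRel.scissor V p w hp)
    unfold cls
    rw [h3, map_add]
  lin {X} hX w := by
    obtain ⟨V, hV⟩ := exists_pres (f := f) hX
    rw [val_eq hV, val_eq (pres_line hV w)]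
    have hL : ((LL f : (MM f)ˣ) : MM f) = toMM f (K0.cl0 ((GSch.base f).line 0)) := rfl
    have h3 : K0.cl0 (V.line w) = K0.cl0 ((GSch.base f).line 0) * K0.cl0 V :=
      (Ideal.Quotient.eq.2 (Ideal.subset_span (KRel.line V w)) :
        Ideal.Quotient.mk (relIdeal f) (MvPolynomial.X (V.line w)) =
        Ideal.Quotient.mk (relIdeal f)
          (MvPolynomial.X ((GSch.base f).line 0) * MvPolynomial.X V))
    rw [hL]
    unfold cls
    rw [h3, map_mul]

/-! ### jets -/

/-- evaluation of the universal jet -/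
theorem coeff_aeval_jet (m l : ℕ) {S : Type} [CommRing S] [Algebra k S]
    (x : σ × Fin (m + 1) → S) (γ : σ → PowerSeries S)
    (hγ : ∀ i j, PowerSeries.coeff j (γ i) = if h : j < m + 1 then x (i, ⟨j, h⟩) else 0) :
    PowerSeries.coeff l (aeval γ f) = aeval x (jetCoeff f m l) := by
  classical
  let Φ : Polynomial (MvPolynomial (σ × Fin (m + 1)) k) →+* PowerSeries S :=
    (Polynomial.coeToPowerSeries.ringHom).comp
      (Polynomial.mapRingHom (aeval x : MvPolynomial (σ × Fin (m + 1)) k →ₐ[k] S).toRingHom)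
  have hΦ : ∀ (p : Polynomial (MvPolynomial (σ × Fin (m + 1)) k)) (j : ℕ),
      PowerSeries.coeff j (Φ p) = aeval x (p.coeff j) := by
    intro p j
    show PowerSeries.coeff j ((Polynomial.map _ p : Polynomial S) : PowerSeries S) = _
    rw [Polynomial.coeff_coe, Polynomial.coeff_map]
    rfl
  have h1 : Φ (aeval (uJet k σ m) f) = aeval γ f := by
    have h2 : Φ.comp ((aeval (uJet k σ m) : MvPolynomial σ k →ₐ[k] _) : MvPolynomial σ k →+* _) =
        ((aeval γ : MvPolynomial σ k →ₐ[k] _) : MvPolynomial σ k →+* _) := by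
      apply MvPolynomial.ringHom_ext
      · intro a
        simp only [RingHom.comp_apply, RingHom.coe_coe, algHom_C]
        ext j
        rw [hΦ, PowerSeries.algebraMap_apply, PowerSeries.coeff_C]
        show aeval x ((Polynomial.C (algebraMap k (MvPolynomial (σ × Fin (m + 1)) k) a)).coeff j) = _
        rw [Polynomial.coeff_C]
        split_ifs
        · rw [AlgHom.commutes]
        · rw [map_zero]
      · intro i
        simp only [RingHom.comp_apply, RingHom.coe_coe, aeval_X]
        ext j
        rw [hΦ, hγ]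
        unfold uJet
        rw [Polynomial.finsetSum_coeff, map_sum]
        split_ifs with h
        · rw [Finset.sum_eq_single (⟨j, h⟩ : Fin (m + 1))]
          · rw [Polynomial.coeff_C_mul, Polynomial.coeff_X_pow, if_pos rfl, mul_one, aeval_X]
          · intro j' _ hj'
            rw [Polynomial.coeff_C_mul, Polynomial.coeff_X_pow, if_neg, mul_zero, map_zero]
            intro h'
            exact hj' (Fin.ext h'.symm)
          · intro h'
            exact absurd (Finset.mem_univ _) h'
        · apply Finset.sum_eq_zero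
          intro j' _
          rw [Polynomial.coeff_C_mul, Polynomial.coeff_X_pow, if_neg, mul_zero, map_zero]
          intro h'
          have := j'.2
          omega
    exact RingHom.congr_fun h2 f
  rw [← h1, hΦ]
  rfl

theorem jetEqs_iff (m : ℕ) {S : Type} [CommRing S] [Algebra k S] (y : σ × Fin (m + 1) → S) :
    (∀ e ∈ jetEqs f m, aeval y e = 0) ↔
      ∀ l ≤ m, aeval y (jetCoeff f m l - if l = m then 1 else 0) = 0 := by
  constructor
  · intro h l hl
    rcases Nat.lt_or_ge l m with h1 | h1
    · rw [if_neg (by omega), sub_zero]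
      exact h _ (Or.inl ⟨l, h1, rfl⟩)
    · have h2 : l = m := by omega
      rw [if_pos h2, h2]
      exact h _ (Or.inr rfl)
  · rintro h e (⟨l, hl, rfl⟩ | rfl)
    · have := h l hl.le
      rwa [if_neg (by omega), sub_zero] at this
    · have := h m le_rfl
      rwa [if_pos rfl] at this

theorem pres_jet [Finite σ] (m : ℕ) (hm : m ≠ 0)
    (hω : m • ((((1 : ℚ) / m : ℚ)) : QZ) = 0) :
    Pres ((FibK k σ ((((1 : ℚ) / m : ℚ)) : QZ) m hω).app
        (Jet f Set.univ m ((((1 : ℚ) / m : ℚ)) : QZ))) (XJet f m hm) := by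
  classical
  have hcoef : ∀ {S : Type} [CommRing S] [Algebra k S] (γ : σ → PowerSeries S),
      (∀ i j, (i ∉ (Set.univ : Set σ) ∨ m < j) → PowerSeries.coeff j (γ i) = 0) → ∀ l : ℕ,
      PowerSeries.coeff l (aeval γ f) =
        aeval (fun p : σ × Fin (m + 1) => PowerSeries.coeff (p.2 : ℕ) (γ p.1)) (jetCoeff f m l) := by
    intro S _ _ γ hγ l
    apply coeff_aeval_jet
    intro i j
    split_ifs with h
    · rfl
    · exact hγ i j (Or.inr (by omega))
  have hcoef' : ∀ {S : Type} [CommRing S] [Algebra k S] (y : σ × Fin (m + 1) → S) (l : ℕ),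
      PowerSeries.coeff l (aeval (fun i => PowerSeries.mk fun j =>
          if h : j < m + 1 then y (i, ⟨j, h⟩) else 0 : σ → PowerSeries S) f) =
        aeval y (jetCoeff f m l) := by
    intro S _ _ y l
    apply coeff_aeval_jet
    intro i j
    rw [PowerSeries.coeff_mk]
  have hite : ∀ {S : Type} [CommRing S] [Algebra k S] (y : σ × Fin (m + 1) → S) (l : ℕ),
      aeval y (jetCoeff f m l - if l = m then 1 else 0) =
        aeval y (jetCoeff f m l) - if l = m then 1 else 0 := by
    intro S _ _ y l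
    rw [map_sub]
    split_ifs
    · rw [map_one]
    · rw [map_zero]
  have hr1 : ∀ {S : Type} [CommRing S] [Algebra k S] (y : σ × Fin (m + 1) → S),
      (∀ l ≤ m, aeval y (jetCoeff f m l - if l = m then 1 else 0) = 0) → ∀ a : ℕ, a ≤ m →
      (if a ≤ m then PowerSeries.coeff a (aeval (fun i => PowerSeries.mk fun j =>
          if h : j < m + 1 then y (i, ⟨j, h⟩) else 0 : σ → PowerSeries S) f) else 0) -
        (if a = m then 1 else 0) = 0 := by
    intro S _ _ y hy a ha
    rw [if_pos ha, hcoef', ← hite]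
    exact hy a ha
  have hr0 : ∀ {S : Type} [CommRing S] [Algebra k S] (y : σ × Fin (m + 1) → S),
      (∀ l ≤ m, aeval y (jetCoeff f m l - if l = m then 1 else 0) = 0) →
      aeval (fun i => PowerSeries.coeff 0 (PowerSeries.mk fun j =>
          if h : j < m + 1 then y (i, ⟨j, h⟩) else 0 : PowerSeries S)) f = 0 := by
    intro S _ _ y hy
    have h1 := hy 0 (Nat.zero_le m)
    rw [if_neg (Ne.symm hm), sub_zero, jetCoeff_zero, aeval_bind₁] at h1
    have h2 : (fun i => PowerSeries.coeff 0 (PowerSeries.mk fun j =>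
        if h : j < m + 1 then y (i, ⟨j, h⟩) else 0 : PowerSeries S)) =
        fun i => aeval y (MvPolynomial.X (i, (0 : Fin (m + 1))) :
          MvPolynomial (σ × Fin (m + 1)) k) := by
      funext i
      rw [PowerSeries.coeff_mk, dif_pos (Nat.succ_pos m)]
      exact (aeval_X _ _).symm
    rw [h2]
    exact h1
  refine ⟨⟨fun S _ _ => ?_, ?_⟩, ?_⟩
  · refine
      { toFun := fun x => ⟨fun p => PowerSeries.coeff (p.2 : ℕ) (x.1.1.1.1 p.1), ?_⟩
        invFun := fun y => ⟨⟨(⟨fun i => PowerSeries.mk fun j =>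
          if h : j < m + 1 then y.1 (i, ⟨j, h⟩) else 0, ?_⟩, ()), ?_⟩, ?_⟩
        left_inv := ?_
        right_inv := ?_ }
    · refine (jetEqs_iff m _).2 fun l hl => ?_
      have h1 := x.1.2 (⟨l, by omega⟩ : Fin (m + 1))
      change (if l ≤ m then PowerSeries.coeff l (aeval x.1.1.1.1 f) else 0) -
        (if l = m then 1 else 0) = 0 at h1
      rw [if_pos hl, hcoef x.1.1.1.1 x.1.1.1.2] at h1
      exact (hite _ l).trans h1
    · intro i j h
      rw [PowerSeries.coeff_mk, dif_neg]
      rcases h with h | h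
      · exact absurd (Set.mem_univ i) h
      · omega
    · intro a
      exact hr1 y.1 ((jetEqs_iff m _).1 y.2) a (by have := a.2; omega)
    · exact hr0 y.1 ((jetEqs_iff m _).1 y.2)
    · intro x
      apply Subtype.ext
      apply Subtype.ext
      refine Prod.ext (Subtype.ext ?_) rfl
      funext i
      ext j
      show PowerSeries.coeff j (PowerSeries.mk fun j => if h : j < m + 1 then
        PowerSeries.coeff j (x.1.1.1.1 i) else 0) = _
      rw [PowerSeries.coeff_mk]
      split_ifs with h
      · rfl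
      · exact (x.1.1.1.2 i j (Or.inr (by omega))).symm
    · intro y
      apply Subtype.ext
      funext p
      obtain ⟨i, j⟩ := p
      show PowerSeries.coeff (j : ℕ) (PowerSeries.mk fun j => if h : j < m + 1 then
        y.1 (i, ⟨j, h⟩) else 0) = y.1 (i, j)
      rw [PowerSeries.coeff_mk, dif_pos j.2]
  · intro S S' _ _ _ _ φ c x
    apply Subtype.ext
    funext p
    obtain ⟨i, j⟩ := p
    show PowerSeries.coeff (j : ℕ) (twS _ φ c (x.1.1.1.1 i)) =
      chr c (jetWt σ m (i, j)) * φ (PowerSeries.coeff (j : ℕ) (x.1.1.1.1 i))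
    rw [coeff_twS, jetWt_eq]
  · intro S _ _ x i
    exact aeval_X _ _

end RingPart

/-- There is an additive invariant with values in the localized Grothendieck ring which sends the
jet spaces to their classes. -/
theorem exists_chi {k : Type} [Field k] {σ : Type} [Finite σ] (f : MvPolynomial σ k) :
    ∃ χ : SInv k (fun _ : σ => (0 : QZ)) (LL f), ∀ (m : ℕ) (hm : m ≠ 0)
      (hω : m • ((((1 : ℚ) / m : ℚ)) : QZ) = 0),
      cls (XJet f m hm) = χ.χ ((FibK k σ ((((1 : ℚ) / m : ℚ)) : QZ) m hω).app
        (Jet f Set.univ m ((((1 : ℚ) / m : ℚ)) : QZ))) :=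
  ⟨RingPart.chi f, fun m hm hω => (RingPart.val_eq (RingPart.pres_jet m hm hω)).symm⟩

end Pool.Agent.Helper6_Mono
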