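import Pool.Agent.Helper6_Mono.BFunDefs

/-!
# Built polynomials with their slopes
-/

set_option autoImplicit false

namespace Pool.Agent.Helper6_Mono

open MvPolynomial

/-- the slopes of `f ^ N` -/
def divSlopes (S : Set ℚ) (N : ℕ) : Set ℚ := {x | ∃ y ∈ S ∪ {1}, x = y / N}

/-- the slopes of a sum -/
def addSlopes (S T : Set ℚ) : Set ℚ := {x | ∃ y ∈ S, ∃ z ∈ T, x = y + z}

/-- `RO s S f`: `f` is built from blocks, with set of variables `s` and set of slopes `S`. -/
inductive RO {k : Type} [Field k] {σ : Type} : Set σ → Set ℚ → MvPolynomial σ k → Prop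
  | sing {s : Finset σ} {w : σ → ℕ} {d : ℕ} {g : MvPolynomial σ k} (hs : s.Nonempty)
      (hd : 0 < d) (hw : ∀ i ∈ s, 0 < w i) (hg : IsWeightedHomogeneous w g d)
      (hv : g ∈ supported k (s : Set σ))
      (hJ : ∀ i ∈ s, X i ∈ (Ideal.span (Set.range fun j => pderiv j g)).radical)
      (h0 : ∀ i, constantCoeff (pderiv i g) = 0) :
      RO (s : Set σ) {((∑ i ∈ s, w i : ℕ) : ℚ) / d} g
  | smooth {s : Finset σ} {w : σ → ℕ} {d : ℕ} {g : MvPolynomial σ k} (hs : s.Nonempty)
      (hd : 0 < d) (hw : ∀ i ∈ s, 0 < w i) (hg : IsWeightedHomogeneous w g d)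
      (hv : g ∈ supported k (s : Set σ)) (h1 : ∃ i, constantCoeff (pderiv i g) ≠ 0) :
      RO (s : Set σ) ∅ g
  | smul {s : Set σ} {S : Set ℚ} {f : MvPolynomial σ k} (c : k) (hc : c ≠ 0) (hf : RO s S f) :
      RO s S (C c * f)
  | pow {s : Set σ} {S : Set ℚ} {f : MvPolynomial σ k} (N : ℕ) (hN : 2 ≤ N) (hf : RO s S f) :
      RO s (divSlopes S N) (f ^ N)
  | mul {s t : Set σ} {S T : Set ℚ} {f g : MvPolynomial σ k} (hst : Disjoint s t)
      (hf : RO s S f) (hg : RO t T g) : RO (s ∪ t) (S ∪ T ∪ {1}) (f * g)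
  | add {s t : Set σ} {S T : Set ℚ} {f g : MvPolynomial σ k} (hst : Disjoint s t)
      (hf : RO s S f) (hg : RO t T g) : RO (s ∪ t) (addSlopes S T) (f + g)

section block

variable {k : Type} [Field k] {σ : Type}

theorem mem_of_supp {s : Set σ} {g : MvPolynomial σ k} (hv : g ∈ supported k s)
    {α : σ →₀ ℕ} (hα : α ∈ g.support) {i : σ} (hi : i ∈ α.support) : i ∈ s :=
  (mem_supported.1 hv) ((mem_vars_iff_mem_support i).2 ⟨α, hα, hi⟩)

theorem weight_eq_zero {s : Set σ} {w : σ → ℕ} (hw : ∀ i ∈ s, 0 < w i) {α : σ →₀ ℕ}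
    (hα : ∀ i ∈ α.support, i ∈ s) (h : Finsupp.weight w α = 0) : α = 0 := by
  ext i
  by_contra hi
  have hi' : i ∈ α.support := Finsupp.mem_support_iff.2 hi
  rw [Finsupp.weight_apply, Finsupp.sum, Finset.sum_eq_zero_iff] at h
  have h1 := h i hi'
  rw [smul_eq_mul, Nat.mul_eq_zero] at h1
  have := hw i (hα i hi')
  rcases h1 with h1 | h1
  · exact hi h1
  · omega

/-- the degree of a block is positive -/
theorem block_pos {s : Finset σ} {w : σ → ℕ} {d : ℕ} {g : MvPolynomial σ k} (hs : s.Nonempty)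
    (hw : ∀ i ∈ s, 0 < w i) (hg : IsWeightedHomogeneous w g d)
    (hv : g ∈ supported k (s : Set σ))
    (hJ : ∀ i ∈ s, X i ∈ (Ideal.span (Set.range fun j => pderiv j g)).radical) : 0 < d := by
  rcases Nat.eq_zero_or_pos d with hd | hd
  · exfalso
    classical
    subst hd
    have h1 : g = C (coeff 0 g) := by
      ext α
      rw [coeff_C]
      split_ifs with h
      · rw [← h]
      · by_contra h2
        exact h (weight_eq_zero (s := (s : Set σ)) hw (fun i hi => mem_of_supp hv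
          (mem_support_iff.2 h2) hi) (hg h2)).symm
    have h2 : ∀ j, pderiv j g = 0 := fun j => by rw [h1, pderiv_C]
    obtain ⟨i, hi⟩ := hs
    obtain ⟨N, hN⟩ := hJ i hi
    have h3 : Ideal.span (Set.range fun j => pderiv j g) = ⊥ := by
      rw [Ideal.span_eq_bot]
      rintro _ ⟨j, rfl⟩
      exact h2 j
    rw [h3, Ideal.mem_bot] at hN
    exact pow_ne_zero N (X_ne_zero i) hN
  · exact hd

end block

theorem Built.exists_RO {k : Type} [Field k] {σ : Type} {s : Set σ} {f : MvPolynomial σ k}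
    (h : Built s f) : ∃ S, RO s S f := by
  induction h with
  | @block s g hb =>
    obtain ⟨hs, hv, ⟨w, d, hw, hg⟩, hJ⟩ := hb
    have hd := block_pos hs hw hg hv hJ
    by_cases h0 : ∀ i, constantCoeff (pderiv i g) = 0
    · exact ⟨_, .sing hs hd hw hg hv hJ h0⟩
    · push Not at h0
      exact ⟨_, .smooth hs hd hw hg hv h0⟩
  | smul c hc _ ih => obtain ⟨S, h⟩ := ih; exact ⟨S, .smul c hc h⟩
  | pow N hN _ ih =>
    obtain ⟨S, h⟩ := ih
    rcases Nat.lt_or_ge N 2 with h2 | h2
    · have : N = 1 := by omega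
      subst this
      rw [pow_one]
      exact ⟨S, h⟩
    · exact ⟨_, .pow N h2 h⟩
  | mul hst _ _ ih1 ih2 =>
    obtain ⟨S, h⟩ := ih1
    obtain ⟨T, h'⟩ := ih2
    exact ⟨_, .mul hst h h'⟩
  | add hst _ _ ih1 ih2 =>
    obtain ⟨S, h⟩ := ih1
    obtain ⟨T, h'⟩ := ih2
    exact ⟨_, .add hst h h'⟩

theorem wh_map {k l : Type} [Field k] [Field l] (φ : k →+* l) {σ : Type} {w : σ → ℕ} {d : ℕ}
    {g : MvPolynomial σ k} (hg : IsWeightedHomogeneous w g d) :
    IsWeightedHomogeneous w (MvPolynomial.map φ g) d := by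
  intro α hα
  refine hg fun h => hα ?_
  rw [coeff_map, h, map_zero]

theorem supported_map {k l : Type} [Field k] [Field l] (φ : k →+* l) {σ : Type} {s : Set σ}
    {g : MvPolynomial σ k} (hg : g ∈ supported k s) : MvPolynomial.map φ g ∈ supported l s := by
  rw [mem_supported] at hg ⊢
  exact (Finset.coe_subset.2 (vars_map _ _)).trans hg

theorem radical_map {k l : Type} [Field k] [Field l] (φ : k →+* l) {σ : Type}
    {g : MvPolynomial σ k} {i : σ}
    (h : X i ∈ (Ideal.span (Set.range fun j => pderiv j g)).radical) :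
    X i ∈ (Ideal.span (Set.range fun j => pderiv j (MvPolynomial.map φ g))).radical := by
  obtain ⟨N, hN⟩ := h
  refine ⟨N, ?_⟩
  have h1 := Ideal.mem_map_of_mem (MvPolynomial.map φ) hN
  rw [map_pow, map_X, Ideal.map_span, ← Set.range_comp] at h1
  convert h1 using 4
  exact pderiv_map

theorem RO.map {k l : Type} [Field k] [Field l] (φ : k →+* l) {σ : Type} {s : Set σ}
    {S : Set ℚ} {f : MvPolynomial σ k} (h : RO s S f) : RO s S (MvPolynomial.map φ f) := by
  induction h with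
  | sing hs hd hw hg hv hJ h0 =>
    refine .sing hs hd hw (wh_map φ hg) (supported_map φ hv) (fun i hi => radical_map φ (hJ i hi))
      fun i => ?_
    rw [pderiv_map, constantCoeff_map, h0, map_zero]
  | smooth hs hd hw hg hv h1 =>
    refine .smooth hs hd hw (wh_map φ hg) (supported_map φ hv) ?_
    obtain ⟨i, hi⟩ := h1
    refine ⟨i, ?_⟩
    rw [pderiv_map, constantCoeff_map]
    simpa using hi
  | smul c hc _ ih =>
    rw [map_mul, map_C]; exact .smul _ (by simpa using hc) ih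
  | pow N hN _ ih => rw [map_pow]; exact .pow N hN ih
  | mul hst _ _ ih1 ih2 => rw [map_mul]; exact .mul hst ih1 ih2
  | add hst _ _ ih1 ih2 => rw [map_add]; exact .add hst ih1 ih2

theorem RO.pos {k : Type} [Field k] {σ : Type} {s : Set σ} {S : Set ℚ} {f : MvPolynomial σ k}
    (h : RO s S f) : ∀ x ∈ S, 0 < x := by
  induction h with
  | @sing s w d g hs hd hw hg hv hJ h0 =>
    intro x hx
    rw [Set.mem_singleton_iff.1 hx]
    have h1 : 0 < ∑ i ∈ s, w i := Finset.sum_pos hw hs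
    have h2 : (0 : ℚ) < ((∑ i ∈ s, w i : ℕ) : ℚ) := by exact_mod_cast h1
    have h3 : (0 : ℚ) < d := by exact_mod_cast hd
    exact div_pos h2 h3
  | smooth => intro x hx; exact hx.elim
  | smul c hc _ ih => exact ih
  | pow N hN _ ih =>
    rintro x ⟨y, hy | hy, rfl⟩
    · have := ih y hy
      positivity
    · rw [Set.mem_singleton_iff.1 hy]
      positivity
  | mul hst _ _ ih1 ih2 =>
    rintro x ((hx | hx) | hx)
    · exact ih1 x hx
    · exact ih2 x hx
    · rw [Set.mem_singleton_iff.1 hx]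
      exact one_pos
  | add hst _ _ ih1 ih2 =>
    rintro x ⟨y, hy, z, hz, rfl⟩
    exact add_pos (ih1 y hy) (ih2 z hz)

end Pool.Agent.Helper6_Mono
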