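import Pool.Agent.Helper6_Mono.WHDec
import Pool.Agent.Helper6_Mono.RO

/-!
# Decompositions of blocks
-/

set_option autoImplicit false
set_option linter.unusedVariables false
set_option linter.unusedSectionVars false

namespace Pool.Agent.Helper6_Mono

open PowerSeries Finset

section data

variable {k : Type} [Field k] {σ : Type} {s : Finset σ} {w : σ → ℕ} {d : ℕ}
  {g : MvPolynomial σ k}

theorem pd_zero (hv : g ∈ MvPolynomial.supported k (s : Set σ)) (i : σ) (hi : i ∉ s) :
    MvPolynomial.pderiv i g = 0 :=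
  MvPolynomial.pderiv_eq_zero_of_notMem_vars fun h =>
    hi (Finset.mem_coe.1 ((MvPolynomial.mem_supported.1 hv) h))

theorem pd_supported (hv : g ∈ MvPolynomial.supported k (s : Set σ)) (i : σ) :
    MvPolynomial.pderiv i g ∈ MvPolynomial.supported k (s : Set σ) := by
  by_cases hi : i ∈ s
  · rw [MvPolynomial.supported_eq_range_rename] at hv
    obtain ⟨q, rfl⟩ := hv
    have h := MvPolynomial.pderiv_rename (R := k)
      (f := (Subtype.val : ((s : Set σ) : Type) → σ)) Subtype.val_injective ⟨i, hi⟩ q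
    simp only [AlgHom.toRingHom_eq_coe, RingHom.coe_coe] at *
    rw [h, MvPolynomial.supported_eq_range_rename]
    exact ⟨_, rfl⟩
  · rw [pd_zero hv i hi]
    exact Subalgebra.zero_mem _

theorem wh_int {κ : Type} {w : κ → ℕ} {Q : MvPolynomial κ k} {n : ℕ}
    (h : MvPolynomial.IsWeightedHomogeneous w Q n) :
    MvPolynomial.IsWeightedHomogeneous (fun i => (w i : ℤ)) Q (n : ℤ) := by
  intro α hα
  rw [weight_cast, h hα]

theorem pd_weight (hg : MvPolynomial.IsWeightedHomogeneous w g d) (j : σ) {α : σ →₀ ℕ}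
    (hα : α ∈ (MvPolynomial.pderiv j g).support) : Finsupp.weight w α + w j = d := by
  have h1 : MvPolynomial.IsWeightedHomogeneous (fun i => (w i : ℤ)) (MvPolynomial.pderiv j g)
      ((d : ℤ) - w j) := (wh_int hg).pderiv (by ring)
  have h2 := h1 (MvPolynomial.mem_support_iff.1 hα)
  rw [weight_cast] at h2
  omega

theorem le_weight {α : σ →₀ ℕ} {i : σ} (hi : i ∈ α.support) : w i ≤ Finsupp.weight w α := by
  rw [Finsupp.weight_apply, Finsupp.sum]
  have h1 : α i • w i ≤ ∑ j ∈ α.support, α j • w j :=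
    Finset.single_le_sum (f := fun j => α j • w j) (fun _ _ => Nat.zero_le _) hi
  have h2 : w i ≤ α i • w i := Nat.le_mul_of_pos_left _
    (Nat.pos_of_ne_zero (Finsupp.mem_support_iff.1 hi))
  exact h2.trans h1

/-- the weights of a singular block are at most its degree -/
theorem sing_le [Fintype σ] (hg : MvPolynomial.IsWeightedHomogeneous w g d)
    (hJ : ∀ i ∈ s, MvPolynomial.X i
      ∈ (Ideal.span (Set.range fun j => MvPolynomial.pderiv j g)).radical)
    (h0 : ∀ i, MvPolynomial.constantCoeff (MvPolynomial.pderiv i g) = 0) {i : σ} (hi : i ∈ s) :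
    w i ≤ d := by
  classical
  by_contra hwd
  obtain ⟨N, hN⟩ := hJ i hi
  let p : σ → k := fun j => if j = i then 1 else 0
  have h1 : Ideal.span (Set.range fun j => MvPolynomial.pderiv j g)
      ≤ RingHom.ker (MvPolynomial.aeval p : MvPolynomial σ k →ₐ[k] k) := by
    rw [Ideal.span_le]
    rintro _ ⟨j, rfl⟩
    refine ev_zero (U := {i}) (fun α hα hs => ?_) p (fun j hj => ?_)
    · have h2 := pd_weight hg j hα
      by_cases hα0 : α = 0
      · subst hα0
        exact (MvPolynomial.mem_support_iff.1 hα) (h0 j)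
      · obtain ⟨i', hi'⟩ := Finsupp.support_nonempty_iff.2 hα0
        have h3 := Finset.mem_singleton.1 (hs i' hi')
        subst h3
        have h4 := le_weight (w := w) hi'
        omega
    · exact if_neg fun h => hj (by rw [h]; exact Finset.mem_singleton_self i)
  have h2 := h1 hN
  rw [RingHom.mem_ker, map_pow, MvPolynomial.aeval_X] at h2
  have h3 : p i = 1 := if_pos rfl
  rw [h3, one_pow] at h2
  exact one_ne_zero h2

/-- the data of a singular block -/
def WHD.ofSing [Fintype σ] (hd : 0 < d) (hw : ∀ i ∈ s, 0 < w i)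
    (hg : MvPolynomial.IsWeightedHomogeneous w g d)
    (hv : g ∈ MvPolynomial.supported k (s : Set σ))
    (hJ : ∀ i ∈ s, MvPolynomial.X i
      ∈ (Ideal.span (Set.range fun j => MvPolynomial.pderiv j g)).radical)
    (h0 : ∀ i, MvPolynomial.constantCoeff (MvPolynomial.pderiv i g) = 0) : WHD k σ where
  s := s
  w := w
  d := d
  g := g
  D := ∏ i ∈ s, w i
  hd := hd
  hD := Finset.prod_pos hw
  hw := hw
  hwd i hi := sing_le hg hJ h0 hi
  hwD i hi := Finset.dvd_prod_of_mem w hi
  hg := hg
  hs := pd_zero hv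
  hJ := hJ

theorem smooth_wh (hg : MvPolynomial.IsWeightedHomogeneous w g d) :
    MvPolynomial.IsWeightedHomogeneous (fun i => min (w i) d) g d := by
  intro α hα
  have h1 := hg hα
  rw [← h1, Finsupp.weight_apply, Finsupp.weight_apply, Finsupp.sum, Finsupp.sum]
  refine Finset.sum_congr rfl fun i hi => ?_
  have h2 := le_weight (w := w) hi
  rw [h1] at h2
  rw [Finsupp.weight_apply, Finsupp.sum] at h1
  rw [h1, min_eq_left h2]

/-- the partial derivatives of a smooth block generate the unit ideal -/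
theorem smooth_top (hw : ∀ i ∈ s, 0 < w i) (hg : MvPolynomial.IsWeightedHomogeneous w g d)
    (hv : g ∈ MvPolynomial.supported k (s : Set σ))
    (h1 : ∃ i, MvPolynomial.constantCoeff (MvPolynomial.pderiv i g) ≠ 0) :
    Ideal.span (Set.range fun j => MvPolynomial.pderiv j g) = ⊤ := by
  classical
  obtain ⟨i, hi⟩ := h1
  have h0 := pd_weight hg i (α := 0) (MvPolynomial.mem_support_iff.2 hi)
  rw [map_zero, zero_add] at h0
  have h2 : MvPolynomial.pderiv i g
      = MvPolynomial.C (MvPolynomial.constantCoeff (MvPolynomial.pderiv i g)) := by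
    ext α
    rw [MvPolynomial.coeff_C]
    split_ifs with h
    · rw [← h]
      rfl
    · by_contra h3
      have h4 := pd_weight hg i (MvPolynomial.mem_support_iff.2 h3)
      exact h (weight_eq_zero (s := (s : Set σ)) hw (fun j hj => mem_of_supp (pd_supported hv i)
        (MvPolynomial.mem_support_iff.2 h3) hj) (by omega)).symm
  refine Ideal.eq_top_of_isUnit_mem _ (Ideal.subset_span ⟨i, rfl⟩) ?_
  show IsUnit (MvPolynomial.pderiv i g)
  rw [h2]
  exact (isUnit_iff_ne_zero.2 hi).map MvPolynomial.C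

/-- the data of a smooth block -/
def WHD.ofSmooth (hd : 0 < d) (hw : ∀ i ∈ s, 0 < w i)
    (hg : MvPolynomial.IsWeightedHomogeneous w g d)
    (hv : g ∈ MvPolynomial.supported k (s : Set σ))
    (h1 : ∃ i, MvPolynomial.constantCoeff (MvPolynomial.pderiv i g) ≠ 0) : WHD k σ where
  s := s
  w i := min (w i) d
  d := d
  g := g
  D := ∏ i ∈ s, min (w i) d
  hd := hd
  hD := Finset.prod_pos fun i hi => lt_min (hw i hi) hd
  hw i hi := lt_min (hw i hi) hd
  hwd i hi := min_le_right _ _
  hwD i hi := Finset.dvd_prod_of_mem (fun i => min (w i) d) hi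
  hg := smooth_wh hg
  hs := pd_zero hv
  hJ i hi := by
    rw [smooth_top hw hg hv h1, Ideal.radical_top]
    trivial

end data

/-! ### Smooth blocks -/

section smooth

variable {k : Type} [Field k] {σ : Type} [Fintype σ] (B : WHD k σ) {n : ℕ} (en : Fin n → σ)
  {R : Type*} [CommRing R] {L : Rˣ}

theorem WHD.stz_empty' (hen : Function.Surjective en)
    (hT : Ideal.span (Set.range fun j => MvPolynomial.pderiv j B.g) = ⊤) {a l : ℕ} {ω : QZ}
    (χ : SInv k (wser σ ω) L) {U : Finset σ} (hU : U ⊆ B.sA a) :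
    χ.χ ((B.XU a l ω U).stz (fun i => B.evX a l ω hU (B.hpd (en i)))) = 0 := by
  refine χ.empty (FT.stz (B.XU_FT U) _) fun S _ _ p => ?_
  have h1 : Ideal.span (Set.range fun j => MvPolynomial.pderiv j B.g)
      ≤ RingHom.ker (MvPolynomial.aeval (B.xl a U p.1.1.1) : MvPolynomial σ k →ₐ[k] S) := by
    rw [Ideal.span_le]
    rintro _ ⟨j, rfl⟩
    obtain ⟨m, rfl⟩ := hen j
    exact p.2 m
  rw [hT] at h1
  have h2 := h1 (show (1 : MvPolynomial σ k) ∈ (⊤ : Ideal _) from trivial)
  rw [RingHom.mem_ker, map_one] at h2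
  exact h2

/-- the sets of variables -/
abbrev WHD.PU' : Type := {U : Finset σ // U ⊆ B.s}

noncomputable instance : Fintype B.PU' := Fintype.ofFinite _

theorem WHD.smooth_total (hen : Function.Surjective en)
    (hT : Ideal.span (Set.range fun j => MvPolynomial.pderiv j B.g) = ⊤) (l : ℕ) (ω : ℚ)
    (χ : SInv k (wser σ (ω : QZ)) L) :
    Li L ^ (B.s.card * l) * χ.χ (Jet B.g (B.s : Set σ) l (ω : QZ))
      = ∑ U : B.PU', ∑ j, ((B.zc en U.1 j).val χ l + (B.fz en U.1 j).val χ l 0) := by
  classical
  have hs : B.sA 0 = B.s := by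
    ext i
    rw [B.mem_sA, zero_mul]
    simp
  rw [χ.iso (FT.jet _ (Set.toFinite _) l _) (B.first_iso l (ω : QZ)),
    χ.torus (B.XA_FT (a := 0) (l := l)) (B.lead 0 l (ω : QZ)) (B.sA 0), hs, Finset.mul_sum,
    Finset.sum_subtype B.s.powerset (p := fun U => U ⊆ B.s) (fun U => Finset.mem_powerset)]
  refine Finset.sum_congr rfl fun U _ => ?_
  have hU : U.1 ⊆ B.sA 0 := by rw [hs]; exact U.2
  have h1 : χ.χ ((B.XA 0 l (ω : QZ)).tor (B.lead 0 l (ω : QZ)) B.s U.1)
      = ∑ j, χ.χ (B.XUj en 0 l (ω : QZ) hU j) := by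
    have h2 := χ.stair (B.XU_FT (a := 0) (l := l) (ω := (ω : QZ)) U.1)
      (fun i => B.evX 0 l (ω : QZ) hU (B.hpd (en i)))
    rw [B.stz_empty' en hen hT χ hU, add_zero] at h2
    rw [← h2]
    show _ = χ.χ ((B.XA 0 l (ω : QZ)).tor (B.lead 0 l (ω : QZ)) (B.sA 0) U.1)
    rw [hs]
  rw [h1, Finset.mul_sum]
  refine Finset.sum_congr rfl fun j _ => ?_
  rw [B.piece_class en χ (by rw [zero_mul]; exact Nat.zero_le _) hU j, B.E_zero, pow_zero,
    one_mul, B.level_zero en hU j ω χ]

variable (L) in
/-- the decomposition for smooth blocks -/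
noncomputable def WHD.decSmooth
    (hT : Ideal.span (Set.range fun j => MvPolynomial.pderiv j B.g) = ⊤) :
    Dec (k := k) L B.g (B.s : Set σ) ∅ := by
  let n := Fintype.card σ
  let e : Fin n ≃ σ := (Fintype.equivFin σ).symm
  exact
  { I0 := B.PU' × Fin n
    I := Empty
    J := B.PU' × Fin n
    z := fun p => B.zc e p.1.1 p.2
    α := fun _ => 1
    r := fun i => i.elim
    A := fun i => i.elim
    A0 := fun i => i.elim
    fc := fun p => B.fz e p.1.1 p.2
    C := fun _ m => if m = 0 then 1 else 0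
    T := fun _ m => if m = 0 then 1 else 0
    rA := fun i => i.elim
    rC := fun _ => RP.single 1 0
    rT := fun _ => RP.single 1 0
    main := fun ω χ l => by
      have hcard : Nat.card (B.s : Set σ) = B.s.card := by
        rw [Nat.card_coe_set_eq, Set.ncard_coe_finset]
      rw [hcard, B.smooth_total e e.surjective hT l ω χ, ← Fintype.sum_prod_type'
        (f := fun (U : B.PU') (j : Fin n) => (B.zc e U.1 j).val χ l + (B.fz e U.1 j).val χ l 0)]
      simp only [Finset.univ_eq_empty, Finset.sum_empty, Finset.sum_const_zero, add_zero, one_mul,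
        Finset.sum_add_distrib, Finset.sum_comm (s := range l)]
      rw [add_assoc]
      congr 1
      rcases Nat.eq_zero_or_pos l with hl | hl
      · subst hl
        simp only [Finset.range_zero, Finset.sum_empty, if_true, one_mul,
          Finset.sum_const_zero, zero_add]
      · have h2 : ∀ p : B.PU' × Fin n, ∑ m ∈ range l,
            (if m = 0 then (1 : R) else 0) * (B.fz e p.1.1 p.2).val χ l m
            = (B.fz e p.1.1 p.2).val χ l 0 := by
          intro p
          rw [Finset.sum_eq_single 0]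
          · rw [if_pos rfl, one_mul]
          · intro m _ hm
            rw [if_neg hm, zero_mul]
          · intro hm
            exact absurd (Finset.mem_range.2 hl) hm
        simp only [h2, if_neg hl.ne', zero_mul, Finset.sum_const_zero, add_zero] }

end smooth

end Pool.Agent.Helper6_Mono
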