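import Pool.Agent.Helper6_Mono.Fib
import Pool.Agent.Helper6_Mono.Ring
import Pool.Agent.Helper6_Mono.BRO
import Pool.Agent.Helper6_Mono.WHBlock

/-!
# The equivariant motivic monodromy conjecture for the polynomials built from blocks
-/

set_option autoImplicit false
set_option linter.unusedVariables false
set_option linter.unusedSectionVars false

namespace Pool.Agent.Helper6_Mono

open PowerSeries Finset

variable {k : Type} [Field k] {σ : Type}

/-- the zero polynomial depends on no variables -/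
theorem DepOn.zero (s : Set σ) : DepOn (0 : MvPolynomial σ k) s := by
  intro A _ _ γ γ' _
  rw [map_zero, map_zero]

theorem depOn_of_supported {s : Set σ} {f : MvPolynomial σ k}
    (hv : f ∈ MvPolynomial.supported k s) : DepOn f s := by
  intro A _ _ γ γ' hγ
  have h := (MvPolynomial.mem_supported.1 hv)
  rw [MvPolynomial.aeval_def, MvPolynomial.aeval_def]
  exact MvPolynomial.eval₂Hom_congr' rfl (fun i hi _ => hγ i (h hi)) rfl

/-- a built polynomial depends on its variables only -/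
theorem RO.depOn {s : Set σ} {S : Set ℚ} {f : MvPolynomial σ k} (h : RO s S f) : DepOn f s := by
  induction h with
  | sing hs hd hw hg hv hJ h0 => exact depOn_of_supported hv
  | smooth hs hd hw hg hv h1 => exact depOn_of_supported hv
  | smul c hc _ ih =>
    intro A _ _ γ γ' hγ
    rw [map_mul, map_mul, ih A γ γ' hγ, MvPolynomial.algHom_C, MvPolynomial.algHom_C]
  | pow N hN _ ih =>
    intro A _ _ γ γ' hγ
    rw [map_pow, map_pow, ih A γ γ' hγ]
  | mul hst _ _ ih1 ih2 =>
    intro A _ _ γ γ' hγ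
    rw [map_mul, map_mul, ih1 A γ γ' (fun i hi => hγ i (Or.inl hi)),
      ih2 A γ γ' (fun i hi => hγ i (Or.inr hi))]
  | add hst _ _ ih1 ih2 =>
    intro A _ _ γ γ' hγ
    rw [map_add, map_add, ih1 A γ γ' (fun i hi => hγ i (Or.inl hi)),
      ih2 A γ γ' (fun i hi => hγ i (Or.inr hi))]

/-- every built polynomial has a decomposition -/
theorem RO.exists_dec [CharZero k] [Finite σ] {R : Type*} [CommRing R] (L : Rˣ) {s : Set σ}
    {S : Set ℚ} {f : MvPolynomial σ k} (h : RO s S f) : Nonempty (Dec (k := k) L f s S) := by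
  have := Fintype.ofFinite σ
  induction h with
  | sing hs hd hw hg hv hJ h0 => exact ⟨(WHD.ofSing hd hw hg hv hJ h0).dec L⟩
  | smooth hs hd hw hg hv h1 =>
    exact ⟨(WHD.ofSmooth hd hw hg hv h1).decSmooth L (smooth_top hw hg hv h1)⟩
  | smul c hc _ ih =>
    obtain ⟨D⟩ := ih
    exact ⟨D.smul c hc⟩
  | pow N hN _ ih =>
    obtain ⟨D⟩ := ih
    exact ⟨D.pow N hN (Nat.cast_ne_zero.2 (by omega))⟩
  | mul hst hf hg ih1 ih2 =>
    obtain ⟨D⟩ := ih1
    obtain ⟨D'⟩ := ih2
    exact ⟨Dec.mul hst hf.depOn hg.depOn D D'⟩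
  | add hst hf hg ih1 ih2 =>
    obtain ⟨D⟩ := ih1
    obtain ⟨D'⟩ := ih2
    exact ⟨Dec.add hst hf.depOn hg.depOn D D'⟩

theorem addSlopes_zero (S : Set ℚ) : addSlopes S {0} = S := by
  ext x
  constructor
  · rintro ⟨y, hy, z, hz, rfl⟩
    rw [Set.mem_singleton_iff.1 hz, add_zero]
    exact hy
  · intro hx
    exact ⟨x, hx, 0, rfl, (add_zero x).symm⟩

/-- a decomposition of the jets in all variables -/
theorem RO.exists_dec_univ [CharZero k] [Finite σ] {R : Type*} [CommRing R] (L : Rˣ) {s : Set σ}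
    {S : Set ℚ} {f : MvPolynomial σ k} (h : RO s S f) :
    Nonempty (Dec (k := k) L f Set.univ S) := by
  obtain ⟨D⟩ := h.exists_dec L
  have D' := Dec.add (disjoint_compl_right (a := s)) h.depOn (DepOn.zero sᶜ) D
    (Dec.zero k L sᶜ)
  rw [add_zero, Set.union_compl_self, addSlopes_zero] at D'
  exact ⟨D'⟩

/-- denominators are inverted by finitely many geometric series -/
theorem denoms_inv {R : Type*} [CommRing R] (L : Rˣ) {S : Set ℚ} (hS : ∀ x ∈ S, 0 < x)
    {D : PowerSeries R} (hD : D ∈ denoms L S) :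
    ∃ P : Finset (ℤ × ℕ), (∀ p ∈ P, p.1 < 0 ∧ 0 < p.2 ∧ -((p.1 : ℚ) / p.2) ∈ S) ∧
      ∃ E ∈ Algebra.adjoin R ({PowerSeries.X} ∪ {x : PowerSeries R | ∃ p ∈ P,
        x * (1 - PowerSeries.C ((L ^ p.1 : Rˣ) : R) * PowerSeries.X ^ p.2) = 1}), E * D = 1 := by
  classical
  unfold denoms at hD
  induction hD using Submonoid.closure_induction with
  | mem x hx =>
    obtain ⟨u, v, hv, huv, rfl⟩ := hx
    have hu : 0 < u := by
      have h1 := hS _ huv
      have hv' : (0 : ℚ) < v := by exact_mod_cast hv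
      have := (div_pos_iff_of_pos_right hv').1 h1
      exact_mod_cast this
    have hunit : IsUnit (1 - PowerSeries.C ((L⁻¹ ^ u : Rˣ) : R) * PowerSeries.X ^ v) := by
      rw [PowerSeries.isUnit_iff_constantCoeff, map_sub, map_mul, map_pow,
        PowerSeries.constantCoeff_X, zero_pow (by omega), mul_zero, sub_zero, map_one]
      exact isUnit_one
    obtain ⟨E, hE⟩ := hunit.exists_left_inv
    have hL : (L ^ (-(u : ℤ)) : Rˣ) = L⁻¹ ^ u := by
      rw [zpow_neg, zpow_natCast, inv_pow]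
    refine ⟨{(-(u : ℤ), v)}, ?_, E, Algebra.subset_adjoin (Or.inr ⟨_, Finset.mem_singleton_self _,
      ?_⟩), hE⟩
    · intro p hp
      rw [Finset.mem_singleton] at hp
      subst hp
      refine ⟨by simpa using hu, hv, ?_⟩
      have : -(((-(u : ℤ) : ℤ) : ℚ) / (v : ℚ)) = (u : ℚ) / v := by
        push_cast
        ring
      rw [this]
      exact huv
    · rw [hL]
      exact hE
  | one => exact ⟨∅, by simp, 1, one_mem _, one_mul 1⟩
  | mul x y _ _ hx hy =>
    obtain ⟨P, hP, E, hE, hE1⟩ := hx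
    obtain ⟨P', hP', E', hE', hE1'⟩ := hy
    refine ⟨P ∪ P', ?_, E * E', mul_mem ?_ ?_, ?_⟩
    · intro p hp
      rcases Finset.mem_union.1 hp with hp | hp
      · exact hP p hp
      · exact hP' p hp
    · refine Algebra.adjoin_mono (Set.union_subset_union_right _ ?_) hE
      rintro x ⟨p, hp, hx⟩
      exact ⟨p, Finset.mem_union_left _ hp, hx⟩
    · refine Algebra.adjoin_mono (Set.union_subset_union_right _ ?_) hE'
      rintro x ⟨p, hp, hx⟩
      exact ⟨p, Finset.mem_union_right _ hp, hx⟩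
    · calc E * E' * (x * y) = (E * x) * (E' * y) := by ring
        _ = 1 := by rw [hE1, hE1', one_mul]

/-- rationality of the zeta function -/
theorem RO.zeta [CharZero k] [Finite σ] {s : Set σ} {S : Set ℚ} {f : MvPolynomial σ k}
    (h : RO s S f) :
    ∃ P : Finset (ℤ × ℕ), (∀ p ∈ P, p.1 < 0 ∧ 0 < p.2 ∧ -((p.1 : ℚ) / p.2) ∈ S ∪ {1}) ∧
      Zf f ∈ zetaRing f P := by
  obtain ⟨χ, hχ⟩ := exists_chi f
  obtain ⟨D⟩ := h.exists_dec_univ (LL f)
  set a : ℕ → MM f := fun m => ∑ i, D.A i m * (D.r i).cl χ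
    + ∑ j, conv (LL f) (D.C j) m * χ.χ (triv (D.fc j).Y) with ha
  have hz : Zf f = PowerSeries.mk a := by
    ext m
    rw [Zf, PowerSeries.coeff_mk, PowerSeries.coeff_mk]
    unfold zetaCoeff
    split_ifs with hm
    · subst hm
      simp only [ha, D.A0, conv_zero, zero_mul, Finset.sum_const_zero, add_zero]
    · have hω : m • ((((1 : ℚ) / m : ℚ)) : QZ) = 0 := by
        rw [← AddCircle.coe_nsmul, nsmul_eq_mul, mul_one_div_cancel (by exact_mod_cast hm)]
        exact AddCircle.coe_period 1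
      have hL : Lpow f (-(m * Nat.card σ)) = ((LL f)⁻¹ : (MM f)ˣ) ^ (m * Nat.card σ) := by
        unfold Lpow
        rw [← Units.val_pow_eq_pow_val, inv_pow, ← zpow_natCast, ← zpow_neg]
        push_cast
        rfl
      rw [hχ m hm hω, hL, mul_comm]
      exact D.zeta χ m hm hω
  have hRP : RP (LL f) (steps (S ∪ {1})) a := by
    refine (RP.sum Finset.univ fun i _ => ?_).add (RP.sum Finset.univ fun j _ => ?_)
    · exact (((D.rA i).mono (steps_mono Set.subset_union_left)).smul ((D.r i).cl χ)).congr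
        fun m => mul_comm _ _
    · exact ((conv_RP (D.rC j)).smul (χ.χ (triv (D.fc j).Y))).congr fun m => mul_comm _ _
  obtain ⟨Dn, hDn, Q, hQ⟩ := hRP.toRG
  have hpos : ∀ x ∈ S ∪ {1}, (0 : ℚ) < x := by
    rintro x (hx | hx)
    · exact h.pos x hx
    · rw [Set.mem_singleton_iff.1 hx]
      exact one_pos
  obtain ⟨P, hP, E, hE, hE1⟩ := denoms_inv (LL f) hpos hDn
  refine ⟨P, hP, ?_⟩
  have e1 : Zf f = E * (Q : PowerSeries (MM f)) := by
    rw [← hQ, ← mul_assoc, hE1, one_mul, hz]
  rw [e1]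
  have hgen : ({PowerSeries.X} ∪ {x : PowerSeries (MM f) | ∃ p ∈ P,
        x * (1 - PowerSeries.C ((LL f ^ p.1 : (MM f)ˣ) : MM f) * PowerSeries.X ^ p.2) = 1})
      = gens f P := rfl
  rw [hgen] at hE
  show E * (Q : PowerSeries (MM f)) ∈ Algebra.adjoin (MM f) (gens f P)
  refine mul_mem hE ?_
  have hX : (PowerSeries.X : PowerSeries (MM f)) ∈ Algebra.adjoin (MM f) (gens f P) :=
    Algebra.subset_adjoin (Or.inl rfl)
  clear hQ e1
  induction Q using Polynomial.induction_on' with
  | add p q hp hq =>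
    rw [Polynomial.coe_add]
    exact add_mem hp hq
  | monomial n c =>
    rw [← Polynomial.C_mul_X_pow_eq_monomial, Polynomial.coe_mul, Polynomial.coe_C,
      Polynomial.coe_pow, Polynomial.coe_X]
    exact mul_mem (Subalgebra.algebraMap_mem _ c) (pow_mem hX n)

end Pool.Agent.Helper6_Mono
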