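import Pool.Agent.Helper6_Mono.Jet

/-!
# Jets and cells whose series vanishes to a given order
-/

set_option autoImplicit false
set_option linter.unusedVariables false

namespace Pool.Agent.Helper6_Mono

open PowerSeries

variable {k : Type} [Field k] {σ : Type} {W : Type} [AddCommGroup W]

/-- the locus where the series vanishes modulo `t ^ N`, over the space of points -/
@[reducible] noncomputable def VanK (k : Type) [Field k] (σ : Type) (ω : W) (N : ℕ) :
    Kern k W (σ ⊕ ℕ) (wser σ ω) σ (fun _ => 0) where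
  K := GF.one k W
  hK := FT.one
  A := Fin N
  wA j := (j : ℕ) • ω
  r j {S} _ _ b z := b (Sum.inr j)
  r_tw j {S S'} _ _ _ _ φ c x z := rfl
  Φ i {S} _ _ b z := b (Sum.inl i)
  Φ_tw i {S S'} _ _ _ _ φ c x z := rfl

/-- low coefficients of `g(γ)` depend on low coefficients of `γ` only -/
theorem coeff_aeval_congr {S : Type} [CommRing S] [Algebra k S] (g : MvPolynomial σ k) (l : ℕ)
    (γ γ' : σ → S⟦X⟧) (h : ∀ i j, j ≤ l → coeff j (γ i) = coeff j (γ' i)) :
    ∀ j, j ≤ l → coeff j (MvPolynomial.aeval γ g) = coeff j (MvPolynomial.aeval γ' g) := by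
  induction g using MvPolynomial.induction_on with
  | C a => intro j hj; rw [MvPolynomial.algHom_C, MvPolynomial.algHom_C]
  | add p q hp hq =>
    intro j hj
    rw [map_add, map_add, map_add, map_add, hp j hj, hq j hj]
  | mul_X p i hp =>
    intro j hj
    rw [map_mul (MvPolynomial.aeval γ), map_mul (MvPolynomial.aeval γ'), MvPolynomial.aeval_X,
      MvPolynomial.aeval_X, coeff_mul_congr (h i) hj,
      mul_comm, mul_comm _ (γ' i), coeff_mul_congr hp hj]

theorem van_jet_iso (g : MvPolynomial σ k) (s : Set σ) (l N : ℕ) (hN : N ≤ l + 1) (ω : W) :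
    OIso ((VanK k σ ω N).app (Jet g s (l + 1) ω))
      (((VanK k σ ω N).app (Jet g s l ω)).times (GF.lines k s ((l + 1) • ω))) := by
  classical
  have key : ∀ {S : Type} [CommRing S] [Algebra k S] (γ γ' : σ → S⟦X⟧)
      (h : ∀ i j, j ≤ l → coeff j (γ i) = coeff j (γ' i)) (j : ℕ) (hj : j < N),
      (if j ≤ l + 1 then coeff j (MvPolynomial.aeval γ g) else 0)
        = if j ≤ l then coeff j (MvPolynomial.aeval γ' g) else 0 := by
    intro S _ _ γ γ' h j hj
    rw [if_pos (by omega), if_pos (by omega), coeff_aeval_congr g l γ γ' h j (by omega)]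
  have hlow : ∀ {S : Type} [CommRing S] [Algebra k S] (γ : (jetGF k s (l + 1) ω).obj S) (i : σ)
      (j : ℕ), j ≤ l → coeff j (((jetSucc s l ω).eq S γ).1.1 i) = coeff j (γ.1 i) := by
    intro S _ _ γ i j hj
    show coeff j (lowS l (γ.1 i)) = _
    rw [coeff_lowS, if_pos hj]
  refine OIso.mk' (fun S _ _ p => (⟨(((jetSucc s l ω).eq S p.1.1).1, ()), fun a => ?_⟩,
      ((jetSucc s l ω).eq S p.1.1).2))
    (fun S _ _ q => ⟨(((jetSucc s l ω).eq S).symm (q.1.1.1, q.2), ()), fun a => ?_⟩)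
    ?_ ?_ ?_ ?_
  · have h1 := p.2 a
    have h2 := key p.1.1.1 ((jetSucc s l ω).eq S p.1.1).1.1
      (fun i j hj => (hlow p.1.1 i j hj).symm) a a.2
    exact h2.symm.trans h1
  · have h1 := q.1.2 a
    have h3 := (jetSucc s l ω).eq S |>.apply_symm_apply (q.1.1.1, q.2)
    have h2 := key (((jetSucc s l ω).eq S).symm (q.1.1.1, q.2)).1 q.1.1.1.1 (fun i j hj => by
      rw [← hlow _ i j hj, h3]) a a.2
    exact h2.trans h1
  · intro S _ _ p
    exact Subtype.ext (Prod.ext (((jetSucc s l ω).eq S).symm_apply_apply p.1.1) rfl)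
  · intro S _ _ q
    have h3 := (jetSucc s l ω).eq S |>.apply_symm_apply (q.1.1.1, q.2)
    exact Prod.ext (Subtype.ext (Prod.ext (congrArg (fun x => x.1) h3) rfl))
      (congrArg (fun x => x.2) h3)
  · intro S S' _ _ _ _ φ c p
    have h3 := (jetSucc s l ω).eq_tw φ c p.1.1
    exact Prod.ext (Subtype.ext (Prod.ext (congrArg (fun x => x.1) h3) rfl))
      (congrArg (fun x => x.2) h3)
  · intro S _ _ p i
    exact hlow p.1.1 i 0 (Nat.zero_le _)

/-- a functor all of whose points live over trivial rings has class zero -/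
theorem SInv.empty {β : Type} {wβ : β → QZ} {R : Type*} [CommRing R] {L : Rˣ}
    (χ : SInv k wβ L) {X : Over k QZ β wβ} (hX : FT X.F)
    (h : ∀ (S : Type) [CommRing S] [Algebra k S] (x : X.F.obj S), (1 : S) = 0) : χ.χ X = 0 := by
  have h0 := χ.scissor hX (NF.one X.F)
  have h1 : OIso (X.zero (NF.one X.F)) X := by
    refine OIso.mk' (fun S _ _ p => p.1) (fun S _ _ x => ⟨x, h S x⟩) (fun S _ _ x => rfl)
      (fun S _ _ x => rfl) (fun φ c x => rfl) (fun S _ _ x b => rfl)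
  have h2 : OIso (X.unit (NF.one X.F)) X := by
    refine OIso.mk' (fun S _ _ p => p.1) (fun S _ _ x => ⟨x, isUnit_one⟩) (fun S _ _ x => rfl)
      (fun S _ _ x => rfl) (fun φ c x => rfl) (fun S _ _ x b => rfl)
  rw [χ.iso (FT.zero hX _) h1, χ.iso (FT.unit' hX _) h2] at h0
  have := congrArg (fun y => y - χ.χ X) h0
  simpa using this.symm

/-- order at least `N`: no condition -/
theorem van_cell_iso_ge (ω : W) (m n N : ℕ) (h : N ≤ m) (Y : OverS k σ W) (a : NF Y.F (m • ω)) :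
    OIso ((VanK k σ ω N).app ((GenK k σ ω m n).app (withU Y a)))
      (Y.times (GF.sl k ω (m • ω) 1 (n + 1))) := by
  refine OIso.mk' (fun S _ _ p => (p.1.1.1.1, ⟨p.1.1.1.2.1 - C (coeff 0 p.1.1.1.2.1), ?_⟩))
    (fun S _ _ q => ⟨(⟨(q.1, ⟨q.2.1 + C (a.fn q.1), ?_⟩), ?_⟩, ()), ?_⟩) ?_ ?_ ?_ ?_
  · intro j hj
    rw [map_sub, coeff_C]
    split_ifs with h
    · rw [h, sub_self]
    · rw [p.1.1.1.2.2 j (by omega), sub_zero]
  · intro j hj
    rw [map_add, coeff_C, if_neg (by omega), q.2.2 j (by omega), add_zero]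
  · intro _
    show coeff 0 (q.2.1 + C (a.fn q.1)) - a.fn q.1 = 0
    rw [map_add, coeff_C, if_pos rfl, q.2.2 0 (by omega)]; ring
  · intro j
    show coeff (j : ℕ) (PowerSeries.X ^ m * (q.2.1 + C (a.fn q.1))) = 0
    rw [coeff_X_pow_mul', if_neg (by have := j.2; omega)]
  · intro S _ _ p
    have h1' : coeff 0 p.1.1.1.2.1 = a.fn p.1.1.1.1 := sub_eq_zero.1 (p.1.1.2 ())
    refine Subtype.ext (Prod.ext (Subtype.ext (Prod.ext rfl (Subtype.ext ?_))) rfl)
    show p.1.1.1.2.1 - C (coeff 0 p.1.1.1.2.1) + C (a.fn p.1.1.1.1) = p.1.1.1.2.1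
    rw [h1']; ring
  · intro S _ _ q
    refine Prod.ext rfl (Subtype.ext ?_)
    show q.2.1 + C (a.fn q.1) - C (coeff 0 (q.2.1 + C (a.fn q.1))) = q.2.1
    rw [map_add, coeff_C, if_pos rfl, q.2.2 0 (by omega), zero_add]; ring
  · intro S S' _ _ _ _ φ c p
    refine Prod.ext rfl (Subtype.ext ?_)
    show C (chr c (m • ω)) * twS ω φ c p.1.1.1.2.1
      - C (coeff 0 (C (chr c (m • ω)) * twS ω φ c p.1.1.1.2.1))
      = C (chr c (m • ω)) * twS ω φ c (p.1.1.1.2.1 - C (coeff 0 p.1.1.1.2.1))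
    rw [map_sub, twS_C, coeff_C_mul, coeff_twS, zero_smul, chr_zero, one_mul, map_mul]; ring
  · intro S _ _ p b
    rfl

/-- order `m < N`, leading coefficient zero -/
theorem van_cell_iso_lt (ω : W) (m n N : ℕ) (h : m < N) (hN : N ≤ m + n + 1) (Y : OverS k σ W) :
    OIso ((VanK k σ ω N).app ((GenK k σ ω m n).app (withU Y (NF.zero Y.F (m • ω)))))
      (Y.times (GF.sl k ω (m • ω) (N - m) (n + 1))) := by
  refine OIso.mk' (fun S _ _ p => (p.1.1.1.1, ⟨p.1.1.1.2.1, ?_⟩))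
    (fun S _ _ q => ⟨(⟨(q.1, ⟨q.2.1, ?_⟩), ?_⟩, ()), ?_⟩) ?_ ?_ ?_ ?_
  · intro j hj
    rcases hj with hj | hj
    · have h1 : coeff (m + j) (PowerSeries.X ^ m * p.1.1.1.2.1) = 0 := p.2 ⟨m + j, by omega⟩
      rwa [coeff_X_pow_mul', if_pos (by omega), Nat.add_sub_cancel_left] at h1
    · exact p.1.1.1.2.2 j (Or.inr hj)
  · intro j hj
    exact q.2.2 j (by omega)
  · intro _
    show coeff 0 q.2.1 - 0 = 0
    rw [q.2.2 0 (by omega), sub_zero]
  · intro j
    show coeff (j : ℕ) (PowerSeries.X ^ m * q.2.1) = 0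
    rw [coeff_X_pow_mul']
    split_ifs
    · exact q.2.2 _ (by have := j.2; omega)
    · rfl
  · intro S _ _ p
    rfl
  · intro S _ _ q
    rfl
  · intro S S' _ _ _ _ φ c p
    rfl
  · intro S _ _ p b
    rfl

section chi

variable {R : Type*} [CommRing R] {L : Rˣ} {ω : QZ} (ψ : SInv k (fun _ : σ => (0 : QZ)) L)

theorem VanK_FT {N : ℕ} {X : Over k QZ (σ ⊕ ℕ) (wser σ ω)} (hX : FT X.F) :
    FT ((VanK k σ ω N).app X).F := (VanK k σ ω N).app_FT hX

theorem van_cell_ge {l m N : ℕ} (h : N ≤ m) (Y : OverS k σ QZ) (hY : FT Y.F)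
    (a : NF Y.F (m • ω)) :
    ((ψ.comp (VanK k σ ω N)).cell l m).χ (withU Y a) = ψ.χ Y := by
  show Li L ^ (l - m) * ψ.χ ((VanK k σ ω N).app ((GenK k σ ω m (l - m)).app (withU Y a))) = _
  rw [ψ.iso (VanK_FT (GenK_FT (X := withU Y a) hY)) (van_cell_iso_ge ω m (l - m) N h Y a),
    ψ.times_sl hY _ _ _ _ (by omega), Nat.add_sub_cancel, ← mul_assoc, Li_pow_mul, one_mul]

theorem van_cell_lt {l m N : ℕ} (h : m < N) (hm : m ≤ l) (hN : N ≤ l + 1) (Y : OverS k σ QZ)
    (hY : FT Y.F) :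
    ((ψ.comp (VanK k σ ω N)).cell l m).χ (withU Y (NF.zero Y.F (m • ω)))
      = Li L ^ (N - m - 1) * ψ.χ Y := by
  show Li L ^ (l - m) * ψ.χ ((VanK k σ ω N).app ((GenK k σ ω m (l - m)).app
    (withU Y (NF.zero Y.F (m • ω))))) = _
  rw [ψ.iso (VanK_FT (GenK_FT (X := withU Y (NF.zero Y.F (m • ω))) hY))
    (van_cell_iso_lt ω m (l - m) N h (by omega) Y),
    ψ.times_sl hY _ _ _ _ (by omega)]
  have e1 : Li L ^ (l - m) = Li L ^ (N - m - 1) * Li L ^ (l - m + 1 - (N - m)) := by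
    rw [← pow_add]; congr 1; omega
  rw [e1]
  calc _ = (Li L ^ (l - m + 1 - (N - m)) * (L : R) ^ (l - m + 1 - (N - m)))
        * (Li L ^ (N - m - 1) * ψ.χ Y) := by ring
    _ = _ := by rw [Li_pow_mul, one_mul]

theorem van_cell_unit {l m N : ℕ} (h : m < N) (Y : OverS k σ QZ) (hY : FT Y.F)
    (a : NF Y.F (m • ω))
    (ha : ∀ (S : Type) [CommRing S] [Algebra k S] (x : Y.F.obj S), IsUnit (a.fn x)) :
    ((ψ.comp (VanK k σ ω N)).cell l m).χ (withU Y a) = 0 := by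
  show Li L ^ (l - m) * ψ.χ ((VanK k σ ω N).app ((GenK k σ ω m (l - m)).app (withU Y a))) = _
  rw [ψ.empty (VanK_FT (GenK_FT (X := withU Y a) hY)), mul_zero]
  intro S _ _ p
  have h1 : coeff m (PowerSeries.X ^ m * p.1.1.1.2.1) = 0 := p.2 ⟨m, h⟩
  rw [coeff_X_pow_mul', if_pos le_rfl, Nat.sub_self] at h1
  have h2 : coeff 0 p.1.1.1.2.1 = a.fn p.1.1.1.1 := sub_eq_zero.1 (p.1.1.2 ())
  rw [h2] at h1
  have h3 := ha S p.1.1.1.1
  rw [h1, isUnit_zero_iff] at h3
  exact h3.symm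

theorem van_jet_succ [Finite σ] (g : MvPolynomial σ k) (s : Set σ) (l N : ℕ) (hN : N ≤ l + 1) :
    Li L ^ (Nat.card s * (l + 1)) * ψ.χ ((VanK k σ ω N).app (Jet g s (l + 1) ω))
      = Li L ^ (Nat.card s * l) * ψ.χ ((VanK k σ ω N).app (Jet g s l ω)) := by
  have hJ : ∀ l, FT (Jet g s l ω).F := fun l => FT.jet s (Set.toFinite s) l ω
  rw [ψ.iso (VanK_FT (hJ (l + 1))) (van_jet_iso g s l N hN ω), ψ.times_lines (VanK_FT (hJ l)),
    mul_add, mul_one, pow_add]
  calc _ = (Li L ^ (Nat.card s) * (L : R) ^ (Nat.card s))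
        * (Li L ^ (Nat.card s * l) * ψ.χ ((VanK k σ ω N).app (Jet g s l ω))) := by ring
    _ = _ := by rw [Li_pow_mul, one_mul]

end chi

end Pool.Agent.Helper6_Mono
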