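import Pool.Agent.Helper6_Mono.Fib

/-!
# Families of series with prescribed support; torus strata; staircases
-/

set_option autoImplicit false
set_option linter.unusedVariables false
set_option linter.unusedSectionVars false

namespace Pool.Agent.Helper6_Mono

open PowerSeries Finset

variable {k : Type} [Field k] {σ : Type} {W : Type} [AddCommGroup W]

/-! ### Products of lines -/

/-- functions on a set, with weights -/
@[reducible] def GF.pi (k : Type) [Field k] {T : Type} (wt : T → W) : GF k W where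
  obj S _ _ := T → S
  tw φ c x := fun i => chr c (wt i) * φ (x i)
  tw_id x := by funext i; simp
  tw_tw φ c ψ d x := by funext i; simp [mul_assoc]

theorem FT.pi {T : Type} [Finite T] (wt : T → W) : FT (GF.pi k wt) :=
  ⟨T, inferInstance, wt, ∅, fun e he => he.elim, ⟨⟨fun S _ _ =>
    { toFun := fun x => ⟨x, fun e he => he.elim⟩
      invFun := fun y => y.1
      left_inv := fun x => rfl
      right_inv := fun y => rfl }, fun φ c x => rfl⟩⟩⟩

/-- reindexing -/
def GF.piEquiv {T T' : Type} (e : T ≃ T') (wt : T' → W) :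
    GEquiv (GF.pi k wt) (GF.pi k fun i => wt (e i)) where
  eq S _ _ :=
    { toFun := fun x => fun i => x (e i)
      invFun := fun y => fun i => y (e.symm i)
      left_inv := fun x => by funext i; simp
      right_inv := fun y => by funext i; simp }
  eq_tw φ c x := rfl

/-- one more factor -/
def GF.piOption {T : Type} (wt : Option T → W) :
    GEquiv (GF.pi k wt) ((GF.pi k fun i => wt (some i)).prod (GF.line k (wt none))) where
  eq S _ _ :=
    { toFun := fun x => (fun i => x (some i), x none)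
      invFun := fun y => fun o => o.elim y.2 y.1
      left_inv := fun x => by funext o; cases o <;> rfl
      right_inv := fun y => rfl }
  eq_tw φ c x := rfl

/-- no factor -/
def GF.piEmpty (wt : PEmpty → W) : GEquiv (GF.pi k wt) (GF.one k W) where
  eq S _ _ :=
    { toFun := fun x => ()
      invFun := fun y => fun o => o.elim
      left_inv := fun x => by funext o; cases o
      right_inv := fun y => rfl }
  eq_tw φ c x := rfl

theorem SInv.times_pi {β : Type} {wβ : β → QZ} {R : Type*} [CommRing R] {L : Rˣ}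
    (χ : SInv k wβ L) {X : Over k QZ β wβ} (hX : FT X.F) (T : Type) [Finite T] (wt : T → QZ) :
    χ.χ (X.times (GF.pi k wt)) = (L : R) ^ (Nat.card T) * χ.χ X := by
  suffices h : Finite T ∧ ∀ wt : T → QZ,
    χ.χ (X.times (GF.pi k wt)) = (L : R) ^ (Nat.card T) * χ.χ X from h.2 wt
  induction T using Finite.induction_empty_option with
  | @of_equiv T T' e ih =>
    obtain ⟨hT, ih⟩ := ih (fun i => wt (e i))
    have hT' : Finite T' := Finite.of_equiv T e
    refine ⟨hT', fun wt => ?_⟩
    rw [χ.iso (hX.prod (FT.pi wt)) (X.times_congr (GF.piEquiv e wt)), ih,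
      Nat.card_congr e]
  | h_empty =>
    refine ⟨inferInstance, fun wt => ?_⟩
    rw [χ.iso (hX.prod (FT.pi wt)) (X.times_congr (GF.piEmpty wt)),
      χ.iso (hX.prod FT.one) X.times_one]
    simp
  | @h_option T _ ih =>
    obtain ⟨hT, ih⟩ := ih (fun i => wt (some i))
    refine ⟨inferInstance, fun wt => ?_⟩
    rw [χ.iso (hX.prod (FT.pi wt)) (X.times_congr (GF.piOption wt)),
      χ.iso (hX.prod ((FT.pi _).prod (FT.line _))) (X.times_prod _ _),
      χ.lin (hX.prod (FT.pi _)), ih, Finite.card_option, pow_succ]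
    ring

/-! ### Families of series -/

/-- families of series with coefficients in the index set `D`, `t` having weight `ω` -/
@[reducible] noncomputable def GF.sup (k : Type) [Field k] (D : Set (σ × ℕ)) (ω : W) :
    GF k W where
  obj S _ _ := {γ : σ → S⟦X⟧ // ∀ i j, (i, j) ∉ D → coeff j (γ i) = 0}
  tw φ c γ := ⟨fun i => twS ω φ c (γ.1 i), fun i j h => by
    rw [coeff_twS, γ.2 i j h, map_zero, mul_zero]⟩
  tw_id γ := Subtype.ext (funext fun i => twS_id ω _)
  tw_tw φ c ψ d γ := Subtype.ext (funext fun i => twS_twS ω φ c ψ d _)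

open scoped Classical in
/-- a family of series is the family of its coefficients -/
noncomputable def GF.supEquiv (D : Set (σ × ℕ)) (ω : W) :
    GEquiv (GF.sup k D ω) (GF.pi k fun p : D => p.1.2 • ω) where
  eq S _ _ :=
    { toFun := fun γ => fun p => coeff p.1.2 (γ.1 p.1.1)
      invFun := fun x => ⟨fun i => PowerSeries.mk fun j => if h : (i, j) ∈ D then x ⟨(i, j), h⟩
          else 0, fun i j h => by rw [coeff_mk, dif_neg h]⟩
      left_inv := fun γ => by
        refine Subtype.ext (funext fun i => ?_)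
        ext j
        show coeff j (PowerSeries.mk fun j => if h : (i, j) ∈ D then coeff j (γ.1 i) else 0) = _
        rw [coeff_mk]
        split_ifs with h
        · rfl
        · rw [γ.2 i j h]
      right_inv := fun x => by
        funext p
        show coeff p.1.2 (PowerSeries.mk fun j => if h : (p.1.1, j) ∈ D then x ⟨(p.1.1, j), h⟩
          else 0) = x p
        rw [coeff_mk, dif_pos p.2] }
  eq_tw {S S'} _ _ _ _ φ c γ := by
    funext p
    show coeff p.1.2 (twS ω φ c (γ.1 p.1.1)) = chr c (p.1.2 • ω) * φ (coeff p.1.2 (γ.1 p.1.1))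
    rw [coeff_twS]

theorem FT.sup {D : Set (σ × ℕ)} (hD : D.Finite) (ω : W) : FT (GF.sup k D ω) := by
  have : Finite D := hD
  exact FT.of_equiv (GF.supEquiv D ω) (FT.pi _)

theorem SInv.times_sup {β : Type} {wβ : β → QZ} {R : Type*} [CommRing R] {L : Rˣ}
    (χ : SInv k wβ L) {X : Over k QZ β wβ} (hX : FT X.F) {D : Set (σ × ℕ)} (hD : D.Finite)
    (ω : QZ) : χ.χ (X.times (GF.sup k D ω)) = (L : R) ^ D.ncard * χ.χ X := by
  have : Finite D := hD
  rw [χ.iso (hX.prod (FT.sup hD ω)) (X.times_congr (GF.supEquiv D ω)), χ.times_pi hX,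
    Nat.card_coe_set_eq]

/-! ### Torus strata -/

section torus

variable {β : Type} {wβ : β → W} {ι : Type}

/-- the locus where the functions `f i`, `i ∈ T`, are invertible for `i ∈ U` and zero for
`i ∉ U` -/
@[reducible] def Over.tor (X : Over k W β wβ) {wf : ι → W} (f : ∀ i, NF X.F (wf i))
    (T U : Finset ι) : Over k W β wβ :=
  X.sub (fun S _ _ x => ∀ i ∈ T, (i ∈ U → IsUnit ((f i).fn x)) ∧ (i ∉ U → (f i).fn x = 0))
    (fun φ c x hx i hi => by
      rw [(f i).fn_tw]
      refine ⟨fun h => (chr_isUnit c _).mul (((hx i hi).1 h).map φ), fun h => ?_⟩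
      rw [(hx i hi).2 h, map_zero, mul_zero])

variable (X : Over k W β wβ) {wf : ι → W} (f : ∀ i, NF X.F (wf i))

/-- restriction of a function to a stratum -/
@[reducible] def Over.torF {X : Over k W β wβ} {wf : ι → W} (f : ∀ i, NF X.F (wf i))
    (T U : Finset ι) {w : W} (g : NF X.F w) : NF (X.tor f T U).F w :=
  ⟨fun x => g.fn x.1, fun φ c x => g.fn_tw φ c x.1⟩

theorem Over.tor_empty (U : Finset ι) : OIso (X.tor f ∅ U) X :=
  OIso.mk' (fun S _ _ p => p.1) (fun S _ _ p => ⟨p, fun i hi => by simp at hi⟩)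
    (fun S _ _ p => rfl) (fun S _ _ p => rfl) (fun φ c p => rfl) (fun S _ _ p b => rfl)

variable [DecidableEq ι]

theorem Over.tor_insert_mem {T U : Finset ι} {a : ι} (h : a ∈ U) :
    OIso ((X.tor f T U).unit (Over.torF f T U (f a))) (X.tor f (insert a T) U) := by
  refine OIso.mk' (fun S _ _ p => ⟨p.1.1, fun i hi => ?_⟩) (fun S _ _ p => ⟨⟨p.1, fun i hi =>
    p.2 i (Finset.mem_insert_of_mem hi)⟩, (p.2 a (Finset.mem_insert_self _ _)).1 h⟩)
    (fun S _ _ p => rfl) (fun S _ _ p => rfl) (fun φ c p => rfl) (fun S _ _ p b => rfl)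
  rcases Finset.mem_insert.1 hi with rfl | hi
  · exact ⟨fun _ => p.2, fun h' => absurd h h'⟩
  · exact p.1.2 i hi

theorem Over.tor_insert_not_mem {T U : Finset ι} {a : ι} (h : a ∉ U) :
    OIso ((X.tor f T U).zero (Over.torF f T U (f a))) (X.tor f (insert a T) U) := by
  refine OIso.mk' (fun S _ _ p => ⟨p.1.1, fun i hi => ?_⟩) (fun S _ _ p => ⟨⟨p.1, fun i hi =>
    p.2 i (Finset.mem_insert_of_mem hi)⟩, (p.2 a (Finset.mem_insert_self _ _)).2 h⟩)
    (fun S _ _ p => rfl) (fun S _ _ p => rfl) (fun φ c p => rfl) (fun S _ _ p b => rfl)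
  rcases Finset.mem_insert.1 hi with rfl | hi
  · exact ⟨fun h' => absurd h' h, fun _ => p.2⟩
  · exact p.1.2 i hi

theorem FT.tor {X : Over k W β wβ} (hX : FT X.F) {wf : ι → W} (f : ∀ i, NF X.F (wf i))
    (T U : Finset ι) : FT (X.tor f T U).F := by
  induction T using Finset.induction_on with
  | empty =>
    obtain ⟨e, -⟩ := X.tor_empty f U
    exact FT.of_equiv e hX
  | insert a T ha ih =>
    by_cases h : a ∈ U
    · obtain ⟨e, -⟩ := (X.tor_insert_mem f (T := T) h).symm
      exact FT.of_equiv e (FT.unit' ih _)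
    · obtain ⟨e, -⟩ := (X.tor_insert_not_mem f (T := T) h).symm
      exact FT.of_equiv e (FT.zero ih _)

theorem Over.tor_congr {T U U' : Finset ι} (h : ∀ i ∈ T, (i ∈ U ↔ i ∈ U')) :
    OIso (X.tor f T U) (X.tor f T U') := by
  refine OIso.mk' (fun S _ _ p => ⟨p.1, fun i hi => ?_⟩) (fun S _ _ p => ⟨p.1, fun i hi => ?_⟩)
    (fun S _ _ p => rfl) (fun S _ _ p => rfl) (fun φ c p => rfl) (fun S _ _ p b => rfl)
  · rw [← h i hi]; exact p.2 i hi
  · rw [h i hi]; exact p.2 i hi

theorem SInv.torus {wβ : β → QZ} {R : Type*} [CommRing R] {L : Rˣ} (χ : SInv k wβ L)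
    {X : Over k QZ β wβ} (hX : FT X.F) {wf : ι → QZ} (f : ∀ i, NF X.F (wf i)) (T : Finset ι) :
    χ.χ X = ∑ U ∈ T.powerset, χ.χ (X.tor f T U) := by
  induction T using Finset.induction_on with
  | empty =>
    rw [Finset.powerset_empty, Finset.sum_singleton, χ.iso (FT.tor hX f ∅ ∅) (X.tor_empty f ∅)]
  | insert a T ha ih =>
    rw [Finset.sum_powerset_insert ha, ← Finset.sum_add_distrib, ih]
    refine Finset.sum_congr rfl fun U hU => ?_
    have haU : a ∉ U := fun h => ha (Finset.mem_powerset.1 hU h)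
    rw [χ.scissor (FT.tor hX f T U) (Over.torF f T U (f a))]
    congr 1
    · exact χ.iso (FT.zero (FT.tor hX f T U) _) (X.tor_insert_not_mem f haU)
    · have h1 : OIso (X.tor f T U) (X.tor f T (insert a U)) := X.tor_congr f fun i hi => by
        rw [Finset.mem_insert]
        constructor
        · exact Or.inr
        · rintro (rfl | h)
          · exact absurd hi ha
          · exact h
      have h2 : OIso ((X.tor f T U).unit (Over.torF f T U (f a)))
          ((X.tor f T (insert a U)).unit (Over.torF f T (insert a U) (f a))) := by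
        refine OIso.mk' (fun S _ _ p => ⟨⟨p.1.1, fun i hi => ?_⟩, p.2⟩)
          (fun S _ _ p => ⟨⟨p.1.1, fun i hi => ?_⟩, p.2⟩)
          (fun S _ _ p => rfl) (fun S _ _ p => rfl) (fun φ c p => rfl) (fun S _ _ p b => rfl)
        · have hne : i ≠ a := by rintro rfl; exact ha hi
          rw [Finset.mem_insert, or_iff_right hne]
          exact p.1.2 i hi
        · have hne : i ≠ a := by rintro rfl; exact ha hi
          have := p.1.2 i hi
          rwa [Finset.mem_insert, or_iff_right hne] at this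
      exact χ.iso (FT.unit' (FT.tor hX f T U) _)
        (h2.trans (X.tor_insert_mem f (Finset.mem_insert_self a U)))

end torus

/-! ### Staircases -/

section stair

variable {β : Type} {wβ : β → W}

/-- restriction of a function to a zero locus -/
@[reducible] def Over.zeroF {X : Over k W β wβ} {v w : W} (h : NF X.F v) (g : NF X.F w) :
    NF (X.zero h).F w := ⟨fun x => g.fn x.1, fun φ c x => g.fn_tw φ c x.1⟩

/-- the locus where `h j` is the first nonzero function of the sequence `h`, and is invertible -/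
@[reducible] def Over.stp (X : Over k W β wβ) {n : ℕ} {wf : Fin n → W} (h : ∀ i, NF X.F (wf i))
    (j : Fin n) : Over k W β wβ :=
  X.sub (fun S _ _ x => (∀ i < j, (h i).fn x = 0) ∧ IsUnit ((h j).fn x))
    (fun φ c x hx => ⟨fun i hi => by rw [(h i).fn_tw, hx.1 i hi, map_zero, mul_zero], by
      rw [(h j).fn_tw]; exact (chr_isUnit c _).mul (hx.2.map φ)⟩)

/-- the locus where all functions of the sequence `h` vanish -/
@[reducible] def Over.stz (X : Over k W β wβ) {n : ℕ} {wf : Fin n → W} (h : ∀ i, NF X.F (wf i)) :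
    Over k W β wβ :=
  X.sub (fun S _ _ x => ∀ i, (h i).fn x = 0)
    (fun φ c x hx i => by rw [(h i).fn_tw, hx i, map_zero, mul_zero])

theorem FT.stz {X : Over k W β wβ} (hX : FT X.F) {n : ℕ} {wf : Fin n → W}
    (h : ∀ i, NF X.F (wf i)) : FT (X.stz h).F :=
  FT.closed hX (fun φ c x hx i => by rw [(h i).fn_tw, hx i, map_zero, mul_zero]) h
    (fun S _ _ x => Iff.rfl)

theorem FT.stp {X : Over k W β wβ} (hX : FT X.F) {n : ℕ} {wf : Fin n → W}
    (h : ∀ i, NF X.F (wf i)) (j : Fin n) : FT (X.stp h j).F := by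
  let Z : Over k W β wβ := X.sub (fun S _ _ x => ∀ i : {i // i < j}, (h i).fn x = 0)
      (fun φ c x hx i => by rw [(h i).fn_tw, hx i, map_zero, mul_zero])
  have hZ : FT Z.F := FT.closed hX (fun φ c x hx i => by
    rw [(h i).fn_tw, hx i, map_zero, mul_zero]) (fun i : {i // i < j} => h i)
    (fun S _ _ x => Iff.rfl)
  let hz : NF Z.F (wf j) := ⟨fun x => (h j).fn x.1, fun φ c x => (h j).fn_tw φ c x.1⟩
  have h1 : FT (Z.unit hz).F := FT.unit' hZ _
  refine FT.of_equiv (F := (X.stp h j).F) (G := (Z.unit hz).F) ⟨fun S _ _ =>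
    { toFun := fun x => ⟨⟨x.1, fun i => x.2.1 i i.2⟩, x.2.2⟩
      invFun := fun x => ⟨x.1.1, fun i hi => x.1.2 ⟨i, hi⟩, x.2⟩
      left_inv := fun x => rfl
      right_inv := fun x => rfl }, fun φ c x => rfl⟩ h1

theorem SInv.stair {wβ : β → QZ} {R : Type*} [CommRing R] {L : Rˣ} (χ : SInv k wβ L) {n : ℕ}
    {X : Over k QZ β wβ} (hX : FT X.F) {wf : Fin n → QZ} (h : ∀ i, NF X.F (wf i)) :
    χ.χ X = ∑ j, χ.χ (X.stp h j) + χ.χ (X.stz h) := by
  induction n generalizing X with
  | zero =>
    rw [Finset.univ_eq_empty, Finset.sum_empty, zero_add]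
    exact χ.iso hX (OIso.mk' (fun S _ _ p => ⟨p, fun i => i.elim0⟩) (fun S _ _ p => p.1)
      (fun S _ _ p => rfl) (fun S _ _ p => rfl) (fun φ c p => rfl) (fun S _ _ p b => rfl))
  | succ n ih =>
    rw [Fin.sum_univ_succ, χ.scissor hX (h 0), ih (FT.zero hX (h 0)) (fun i => Over.zeroF (h 0) (h i.succ))]
    have h0 : χ.χ (X.unit (h 0)) = χ.χ (X.stp h 0) :=
      χ.iso (FT.unit' hX _) (OIso.mk' (fun S _ _ p => ⟨p.1, fun i hi => by
        exact absurd hi (Nat.not_lt_zero _), p.2⟩)
        (fun S _ _ p => ⟨p.1, p.2.2⟩)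
        (fun S _ _ p => rfl) (fun S _ _ p => rfl) (fun φ c p => rfl) (fun S _ _ p b => rfl))
    have h1 : ∀ j : Fin n, χ.χ ((X.zero (h 0)).stp (fun i : Fin n => Over.zeroF (h 0) (h i.succ)) j)
        = χ.χ (X.stp h j.succ) := by
      intro j
      refine χ.iso (FT.stp (FT.zero hX _) _ _) (OIso.mk' (fun S _ _ p => ⟨p.1.1, fun i hi => ?_,
        p.2.2⟩) (fun S _ _ p => ⟨⟨p.1, p.2.1 0 (Fin.succ_pos j)⟩, fun i hi => ?_, p.2.2⟩)
        (fun S _ _ p => rfl) (fun S _ _ p => rfl) (fun φ c p => rfl) (fun S _ _ p b => rfl))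
      · refine Fin.cases (fun hi => p.1.2) (fun i hi => p.2.1 i (Fin.succ_lt_succ_iff.1 hi)) i hi
      · exact p.2.1 i.succ (Fin.succ_lt_succ_iff.2 hi)
    have h2 : χ.χ ((X.zero (h 0)).stz (fun i : Fin n => Over.zeroF (h 0) (h i.succ))) = χ.χ (X.stz h) := by
      refine χ.iso (FT.stz (FT.zero hX _) _) (OIso.mk' (fun S _ _ p => ⟨p.1.1, fun i => ?_⟩)
        (fun S _ _ p => ⟨⟨p.1, p.2 0⟩, fun i => p.2 i.succ⟩)
        (fun S _ _ p => rfl) (fun S _ _ p => rfl) (fun φ c p => rfl) (fun S _ _ p b => rfl))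
      exact Fin.cases p.1.2 (fun i => p.2 i) i
    rw [h0, h2, Finset.sum_congr rfl fun j _ => h1 j]
    ring

end stair

end Pool.Agent.Helper6_Mono
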