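import Mathlib

/-!
# Rational sequences with prescribed slopes
-/

set_option autoImplicit false

namespace Pool.Agent.Helper6_Mono

variable {R : Type*} [CommRing R] (L : Rˣ)

/-- `RP L P a`: after finitely many steps `a ↦ (a (m + v) - L ^ (-u) a m)` with `(u, v) ∈ P` the
sequence `a` becomes eventually zero. -/
inductive RP (P : Set (ℕ × ℕ)) : (ℕ → R) → Prop
  | fin (a : ℕ → R) (N : ℕ) (h : ∀ m, N ≤ m → a m = 0) : RP P a
  | step (a : ℕ → R) (u v : ℕ) (huv : (u, v) ∈ P)
      (h : RP P (fun m => a (m + v) - ((L⁻¹ ^ u : Rˣ) : R) * a m)) : RP P a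

namespace RP

variable {L} {P : Set (ℕ × ℕ)}

theorem mono {Q : Set (ℕ × ℕ)} (hPQ : P ⊆ Q) {a : ℕ → R} (h : RP L P a) : RP L Q a := by
  induction h with
  | fin a N h => exact .fin a N h
  | step a u v huv _ ih => exact .step a u v (hPQ huv) ih

theorem congr {a b : ℕ → R} (h : RP L P a) (hab : ∀ m, a m = b m) : RP L P b := by
  have : a = b := funext hab
  rwa [← this]

theorem zero : RP L P (fun _ => (0 : R)) := .fin _ 0 fun _ _ => rfl

/-- constant multiples -/
theorem smul (c : R) {a : ℕ → R} (h : RP L P a) : RP L P (fun m => c * a m) := by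
  induction h with
  | fin a N h => exact .fin _ N fun m hm => by rw [h m hm, mul_zero]
  | step a u v huv _ ih =>
    refine .step _ u v huv (ih.congr fun m => ?_)
    ring

/-- shifts -/
theorem shift (w : ℕ) {a : ℕ → R} (h : RP L P a) : RP L P (fun m => a (m + w)) := by
  induction h with
  | fin a N h => exact .fin _ N fun m hm => h _ (by omega)
  | step a u v huv _ ih =>
    refine .step _ u v huv (ih.congr fun m => ?_)
    simp only [show m + w + v = m + v + w by ring]

/-- a step applied to a rational sequence -/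
theorem op (c : R) (w : ℕ) {a : ℕ → R} (h : RP L P a) :
    RP L P (fun m => a (m + w) - c * a m) := by
  induction h with
  | fin a N h => exact .fin _ N fun m hm => by rw [h m hm, h (m + w) (by omega)]; ring
  | step a u v huv _ ih =>
    refine .step _ u v huv (ih.congr fun m => ?_)
    simp only [show m + w + v = m + v + w by ring]
    ring

theorem add_fin {a b : ℕ → R} (h : RP L P a) (N : ℕ) (hb : ∀ m, N ≤ m → b m = 0) :
    RP L P (fun m => a m + b m) := by
  induction h generalizing b with
  | fin a N' h =>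
    refine .fin _ (max N N') fun m hm => ?_
    rw [h m (le_trans (le_max_right _ _) hm), hb m (le_trans (le_max_left _ _) hm), add_zero]
  | step a u v huv _ ih =>
    refine .step _ u v huv ((ih (b := fun m => b (m + v) - ((L⁻¹ ^ u : Rˣ) : R) * b m)
      fun m hm => ?_).congr fun m => ?_)
    · simp only [hb m hm, hb (m + v) (by omega)]; ring
    · ring

theorem add {a b : ℕ → R} (ha : RP L P a) (hb : RP L P b) : RP L P (fun m => a m + b m) := by
  induction ha generalizing b with
  | fin a N h => exact (hb.add_fin N h).congr fun m => add_comm _ _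
  | step a u v huv _ ih =>
    refine .step _ u v huv ((ih (hb.op ((L⁻¹ ^ u : Rˣ) : R) v)).congr fun m => ?_)
    ring

theorem sub {a b : ℕ → R} (ha : RP L P a) (hb : RP L P b) : RP L P (fun m => a m - b m) :=
  (ha.add (hb.smul (-1))).congr fun m => by ring

theorem sum {ι : Type*} (s : Finset ι) {a : ι → ℕ → R}
    (h : ∀ i ∈ s, RP L P (a i)) : RP L P (fun m => ∑ i ∈ s, a i m) := by
  classical
  induction s using Finset.induction_on with
  | empty => simpa using zero
  | insert i s hi ih =>
    refine ((h i (Finset.mem_insert_self _ _)).add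
      (ih fun j hj => h j (Finset.mem_insert_of_mem hj))).congr fun m => ?_
    rw [Finset.sum_insert hi]

/-- changing finitely many entries from below: undoing a shift -/
theorem of_shift (w : ℕ) {a : ℕ → R} (h : RP L P (fun m => a (m + w))) : RP L P a := by
  generalize hb : (fun m => a (m + w)) = b at h
  induction h generalizing a with
  | fin b N h =>
    refine .fin _ (N + w) fun m hm => ?_
    have := congrFun hb (m - w)
    simp only [Nat.sub_add_cancel (show w ≤ m by omega)] at this
    rw [this, h _ (by omega)]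
  | step b u v huv _ ih =>
    subst hb
    refine .step _ u v huv (ih ?_)
    funext m
    simp only [show m + w + v = m + v + w by ring]

end RP

/-! ### Hadamard products -/

/-- the steps of shift length `v` with slope in `S` -/
def stepsV (S : Set ℚ) (v : ℕ) : Set (ℕ × ℕ) := {p | p.2 = v ∧ 0 < p.2 ∧ (p.1 : ℚ) / p.2 ∈ S}

/-- the steps with slope in `S` -/
def steps (S : Set ℚ) : Set (ℕ × ℕ) := {p | 0 < p.2 ∧ (p.1 : ℚ) / p.2 ∈ S}

theorem RP.toV {L : Rˣ} {S : Set ℚ} {a : ℕ → R} (h : RP L (steps S) a) :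
    ∃ v₀, 0 < v₀ ∧ ∀ n, 0 < n → RP L (stepsV S (v₀ * n)) a := by
  induction h with
  | fin a N h => exact ⟨1, one_pos, fun n _ => .fin a N h⟩
  | step a u v huv _ ih =>
    obtain ⟨v₀, hv₀, ih⟩ := ih
    have hv : 0 < v := huv.1
    refine ⟨v * v₀, Nat.mul_pos hv hv₀, fun n hn => ?_⟩
    have h1 := ih (v * n) (Nat.mul_pos hv hn)
    rw [show v₀ * (v * n) = v * (v₀ * n) by ring] at h1
    rw [mul_assoc]
    have hNpos : 0 < v₀ * n := Nat.mul_pos hv₀ hn
    generalize v₀ * n = N at h1 hNpos ⊢
    refine .step _ (u * N) (v * N) ⟨rfl, Nat.mul_pos hv hNpos, ?_⟩ ?_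
    · have := huv.2
      have hN' : (N : ℚ) ≠ 0 := by exact_mod_cast hNpos.ne'
      simp only at this ⊢
      rw [Nat.cast_mul, Nat.cast_mul, mul_div_mul_right _ _ hN']
      exact this
    · have key : ∀ M : ℕ, RP L (stepsV S (v * N))
          (fun m => a (m + v * M) - ((L⁻¹ ^ (u * M) : Rˣ) : R) * a m) := by
        intro M
        induction M with
        | zero => exact RP.zero.congr fun m => by simp
        | succ M ihM =>
          refine ((h1.shift (v * M)).add (ihM.smul ((L⁻¹ ^ u : Rˣ) : R))).congr fun m => ?_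
          rw [show m + v * M + v = m + v * (M + 1) by ring, show u * (M + 1) = u + u * M by ring,
            pow_add, Units.val_mul]
          ring
      exact key N

theorem RP.hadamardV {L : Rˣ} {S T : Set ℚ} {v : ℕ} {a b : ℕ → R} (ha : RP L (stepsV S v) a)
    (hb : RP L (stepsV T v) b) :
    RP L (stepsV {x | ∃ y ∈ S, ∃ z ∈ T, x = y + z} v) (fun m => a m * b m) := by
  induction ha generalizing b with
  | fin a N h => exact .fin _ N fun m hm => by rw [h m hm, zero_mul]
  | step a u v' huv ha' iha =>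
    obtain rfl : v' = v := huv.1
    induction hb with
    | fin b N h => exact .fin _ N fun m hm => by rw [h m hm, mul_zero]
    | step b u' v'' huv' hb' ihb =>
      obtain rfl : v'' = v' := huv'.1
      refine .step _ (u + u') v'' ⟨rfl, huv.2.1, _, huv.2.2, _, huv'.2.2, ?_⟩ ?_
      · simp only [Nat.cast_add]; ring
      · have hbfull : RP L (stepsV T v'') b := .step b u' v'' huv' hb'
        refine ((iha (hbfull.shift v'')).add (ihb.smul ((L⁻¹ ^ u : Rˣ) : R))).congr fun m => ?_
        rw [pow_add, Units.val_mul]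
        ring

theorem RP.hadamard {L : Rˣ} {S T : Set ℚ} {a b : ℕ → R} (ha : RP L (steps S) a)
    (hb : RP L (steps T) b) :
    RP L (steps {x | ∃ y ∈ S, ∃ z ∈ T, x = y + z}) (fun m => a m * b m) := by
  obtain ⟨v, hv, ha⟩ := ha.toV
  obtain ⟨w, hw, hb⟩ := hb.toV
  have h1 := ha w hw
  have h2 := hb v hv
  rw [mul_comm w v] at h2
  exact (h1.hadamardV h2).mono fun p hp => hp.2

/-! ### Generating functions -/

/-- the possible denominators -/
noncomputable def denoms (S : Set ℚ) : Submonoid (PowerSeries R) :=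
  Submonoid.closure {p | ∃ u v : ℕ, 0 < v ∧ (u : ℚ) / v ∈ S ∧
    p = 1 - PowerSeries.C ((L⁻¹ ^ u : Rˣ) : R) * PowerSeries.X ^ v}

/-- `RG L S a`: the generating function of `a` is a polynomial over a product of
`1 - L ^ (-u) T ^ v` with `u / v ∈ S`. -/
def RG (S : Set ℚ) (a : ℕ → R) : Prop :=
  ∃ D ∈ denoms L S, ∃ Q : Polynomial R, D * PowerSeries.mk a = Q

theorem RP.toRG {S : Set ℚ} {a : ℕ → R} (h : RP L (steps S) a) : RG L S a := by
  induction h with
  | fin a N h =>
    refine ⟨1, one_mem _, PowerSeries.trunc N (PowerSeries.mk a), ?_⟩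
    ext m
    rw [one_mul, Polynomial.coeff_coe, PowerSeries.coeff_trunc]
    split_ifs with hm
    · rfl
    · rw [PowerSeries.coeff_mk, h m (by omega)]
  | step a u v huv _ ih =>
    obtain ⟨D, hD, Q, hQ⟩ := ih
    refine ⟨D * (1 - PowerSeries.C ((L⁻¹ ^ u : Rˣ) : R) * PowerSeries.X ^ v),
      mul_mem hD (Submonoid.subset_closure ⟨u, v, huv.1, huv.2, rfl⟩), ?_⟩
    -- `(1 - α T^v) A = T^v B + P`
    have hDpoly : ∀ D' ∈ denoms L S, ∃ D'' : Polynomial R, (D'' : PowerSeries R) = D' := by
      intro D' hD'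
      induction hD' using Submonoid.closure_induction with
      | mem x hx =>
        obtain ⟨u, v, _, _, rfl⟩ := hx
        exact ⟨1 - Polynomial.C ((L⁻¹ ^ u : Rˣ) : R) * Polynomial.X ^ v, by simp⟩
      | one => exact ⟨1, by simp⟩
      | mul x y _ _ hx hy =>
        obtain ⟨x', rfl⟩ := hx
        obtain ⟨y', rfl⟩ := hy
        exact ⟨x' * y', by simp⟩
    obtain ⟨D', rfl⟩ := hDpoly D hD
    have e : (1 - PowerSeries.C ((L⁻¹ ^ u : Rˣ) : R) * PowerSeries.X ^ v) * PowerSeries.mk a
        = PowerSeries.X ^ v * PowerSeries.mk (fun m => a (m + v) - ((L⁻¹ ^ u : Rˣ) : R) * a m)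
          + ((PowerSeries.trunc v (PowerSeries.mk a) : Polynomial R) : PowerSeries R) := by
      ext m
      rw [sub_mul, one_mul, map_sub, map_add, Polynomial.coeff_coe, PowerSeries.coeff_trunc,
        mul_assoc, PowerSeries.coeff_C_mul, PowerSeries.coeff_X_pow_mul',
        PowerSeries.coeff_X_pow_mul']
      rcases Nat.lt_or_ge m v with h | h
      · rw [if_neg (by omega), if_neg (by omega), if_pos h]
        simp
      · rw [if_pos h, if_pos h, if_neg (by omega)]
        simp only [PowerSeries.coeff_mk, Nat.sub_add_cancel h]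
        ring
    refine ⟨Polynomial.X ^ v * Q + D' * PowerSeries.trunc v (PowerSeries.mk a), ?_⟩
    rw [mul_assoc, e, Polynomial.coe_add, Polynomial.coe_mul, ← hQ]
    simp only [Polynomial.coe_pow, Polynomial.coe_X, Polynomial.coe_mul]
    ring

/-- `RG` with a shift undone -/
theorem RG.toRP {S : Set ℚ} {a : ℕ → R} (h : RG L S a) : RP L (steps S) a := by
  obtain ⟨D, hD, Q, hQ⟩ := h
  unfold denoms at hD
  induction hD using Submonoid.closure_induction_left generalizing a Q with
  | one =>
    refine .fin _ (Q.natDegree + 1) fun m hm => ?_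
    have := congrArg (PowerSeries.coeff m) hQ
    rw [one_mul, PowerSeries.coeff_mk, Polynomial.coeff_coe] at this
    rw [this, Polynomial.coeff_eq_zero_of_natDegree_lt (by omega)]
  | mul_left x hx y hy ih =>
    obtain ⟨u, v, hv, huv, rfl⟩ := hx
    -- `B = (1 - α T^v) A`
    set α : R := ((L⁻¹ ^ u : Rˣ) : R) with hα
    have h1 : RP L (steps S) (fun m => PowerSeries.coeff m
        ((1 - PowerSeries.C α * PowerSeries.X ^ v) * PowerSeries.mk a)) := by
      refine ih Q ?_
      have e : (PowerSeries.mk fun m => PowerSeries.coeff m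
          ((1 - PowerSeries.C α * PowerSeries.X ^ v) * PowerSeries.mk a))
          = (1 - PowerSeries.C α * PowerSeries.X ^ v) * PowerSeries.mk a := by
        ext m
        rw [PowerSeries.coeff_mk]
      rw [e, ← hQ]
      ring
    refine .step _ u v ⟨hv, huv⟩ ((h1.shift v).congr fun m => ?_)
    rw [sub_mul, one_mul, map_sub, mul_assoc, PowerSeries.coeff_C_mul, PowerSeries.coeff_X_pow_mul,
      PowerSeries.coeff_mk, PowerSeries.coeff_mk]

theorem denoms_coe {S : Set ℚ} {D : PowerSeries R} (hD : D ∈ denoms L S) :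
    ∃ D' : Polynomial R, (D' : PowerSeries R) = D := by
  unfold denoms at hD
  induction hD using Submonoid.closure_induction with
  | mem x hx =>
    obtain ⟨u, v, _, _, rfl⟩ := hx
    exact ⟨1 - Polynomial.C ((L⁻¹ ^ u : Rˣ) : R) * Polynomial.X ^ v, by simp⟩
  | one => exact ⟨1, by simp⟩
  | mul x y _ _ hx hy =>
    obtain ⟨x', rfl⟩ := hx
    obtain ⟨y', rfl⟩ := hy
    exact ⟨x' * y', by simp⟩

theorem denoms_mono {S T : Set ℚ} (h : S ⊆ T) : denoms L S ≤ denoms L T := by
  apply Submonoid.closure_mono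
  rintro p ⟨u, v, hv, huv, rfl⟩
  exact ⟨u, v, hv, h huv, rfl⟩

/-- Cauchy products -/
theorem RP.cauchy {L : Rˣ} {S T : Set ℚ} {a b : ℕ → R} (ha : RP L (steps S) a)
    (hb : RP L (steps T) b) :
    RP L (steps (S ∪ T)) (fun m => ∑ p ∈ Finset.HasAntidiagonal.antidiagonal m, a p.1 * b p.2) := by
  obtain ⟨D, hD, Q, hQ⟩ := ha.toRG
  obtain ⟨D', hD', Q', hQ'⟩ := hb.toRG
  refine RG.toRP L ⟨D * D', mul_mem (denoms_mono L Set.subset_union_left hD)
    (denoms_mono L Set.subset_union_right hD'), Q * Q', ?_⟩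
  have e : (PowerSeries.mk fun m => ∑ p ∈ Finset.HasAntidiagonal.antidiagonal m, a p.1 * b p.2)
      = PowerSeries.mk a * PowerSeries.mk b := by
    ext m
    rw [PowerSeries.coeff_mk, PowerSeries.coeff_mul]
    simp
  rw [e, Polynomial.coe_mul, ← hQ, ← hQ']
  ring

/-- a sequence with one nonzero entry -/
theorem RP.single {L : Rˣ} {P : Set (ℕ × ℕ)} (c : R) (n : ℕ) :
    RP L P (fun m => if m = n then c else 0) :=
  .fin _ (n + 1) fun m hm => if_neg (by omega)

/-- constant sequences have slope zero -/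
theorem RP.const {L : Rˣ} (c : R) : RP L (steps {0}) (fun _ => c) :=
  .step _ 0 1 ⟨one_pos, by simp⟩ (.fin _ 0 fun m _ => by simp)

/-- the sequence `0, L⁻¹, L⁻², …` -/
theorem RP.tail {L : Rˣ} :
    RP L (steps {1}) (fun m => if m = 0 then (0 : R) else ((L⁻¹ ^ m : Rˣ) : R)) := by
  refine .step _ 1 1 ⟨one_pos, by simp⟩ (.fin _ 1 fun m hm => ?_)
  rw [if_neg (by omega), if_neg (by omega), ← Units.val_mul, ← pow_add, add_comm 1 m, sub_self]

/-- the slopes divided by `N` -/
theorem RP.dil {L : Rˣ} {S T : Set ℚ} {N : ℕ} (hN : 0 < N) (hST : ∀ x ∈ S, x / N ∈ T) {a : ℕ → R}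
    (ha : RP L (steps S) a) :
    RP L (steps T) (fun m => if N ∣ m then a (m / N) else 0) := by
  induction ha with
  | fin a M h =>
    refine .fin _ (N * M) fun m hm => ?_
    split_ifs with hd
    · exact h _ ((Nat.le_div_iff_mul_le hN).2 (by rwa [mul_comm]))
    · rfl
  | step a u v huv _ ih =>
    refine .step _ u (N * v) ⟨Nat.mul_pos hN huv.1, ?_⟩ (ih.congr fun m => ?_)
    · have := hST _ huv.2
      rwa [Nat.cast_mul, mul_comm (N : ℚ), ← div_div]
    · have h1 : N ∣ m + N * v ↔ N ∣ m := (Nat.dvd_add_left (Nat.dvd_mul_right N v))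
      by_cases hd : N ∣ m
      · rw [if_pos hd, if_pos hd, if_pos (h1.2 hd), Nat.add_mul_div_left _ _ hN]
      · rw [if_neg hd, if_neg hd, if_neg (fun h => hd (h1.1 h))]
        ring

theorem RP.floor {L : Rˣ} {S T : Set ℚ} {N : ℕ} (hN : 0 < N) (hST : ∀ x ∈ S, x / N ∈ T) {a : ℕ → R}
    (ha : RP L (steps S) a) :
    RP L (steps T) (fun m => a (m / N)) := by
  induction ha with
  | fin a M h =>
    refine .fin _ (N * M) fun m hm => ?_
    exact h _ ((Nat.le_div_iff_mul_le hN).2 (by rwa [mul_comm]))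
  | step a u v huv _ ih =>
    refine .step _ u (N * v) ⟨Nat.mul_pos hN huv.1, ?_⟩ (ih.congr fun m => ?_)
    · have := hST _ huv.2
      rwa [Nat.cast_mul, mul_comm (N : ℚ), ← div_div]
    · rw [Nat.add_mul_div_left _ _ hN]

end Pool.Agent.Helper6_Mono
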