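import Mathlib

/-!
# Blocks, the polynomials built from them, and the Bernstein-Sato polynomial
-/

set_option autoImplicit false

namespace Pool.Agent.Helper6_Mono

open MvPolynomial

/-- `g` is a building block with set of variables `s`: it is weighted homogeneous for some positive
integral weights of the variables, and it has no critical point except possibly the origin (the
ideal of its partial derivatives contains a power of every variable). -/
def IsBlock {k : Type} [Field k] {σ : Type} (s : Finset σ) (g : MvPolynomial σ k) : Prop :=
  s.Nonempty ∧ g ∈ supported k (s : Set σ) ∧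
    (∃ (w : σ → ℕ) (d : ℕ), (∀ i ∈ s, 0 < w i) ∧ IsWeightedHomogeneous w g d) ∧
    ∀ i ∈ s, X i ∈ (Ideal.span (Set.range fun j => pderiv j g)).radical

/-- `Built s f`: the polynomial `f` in the variables of the set `s` is built from blocks by
multiplication with nonzero constants, positive powers, products and sums (the two factors or
summands have disjoint sets of variables). -/
inductive Built {k : Type} [Field k] {σ : Type} : Set σ → MvPolynomial σ k → Prop
  | block {s : Finset σ} {g : MvPolynomial σ k} (hg : IsBlock s g) : Built s g
  | smul {s : Set σ} {f : MvPolynomial σ k} (c : k) (hc : c ≠ 0) (hf : Built s f) :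
      Built s (C c * f)
  | pow {s : Set σ} {f : MvPolynomial σ k} (N : ℕ) (hN : N ≠ 0) (hf : Built s f) :
      Built s (f ^ N)
  | mul {s t : Set σ} {f g : MvPolynomial σ k} (hst : Disjoint s t) (hf : Built s f)
      (hg : Built t g) : Built (s ∪ t) (f * g)
  | add {s t : Set σ} {f g : MvPolynomial σ k} (hst : Disjoint s t) (hf : Built s f)
      (hg : Built t g) : Built (s ∪ t) (f + g)

/-- the iterated partial derivative `∂_{i₁} ⋯ ∂_{i_r} p` for the word `w = [i₁, …, i_r]` -/
noncomputable def dWord {σ : Type} (w : List σ) (p : MvPolynomial σ ℂ) : MvPolynomial σ ℂ :=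
  w.foldr (fun i q => pderiv i q) p

/-- The functional equation `b(s) f^s = P f^(s+1)` holds locally on affine space: near each
complex point `p` (on the Zariski neighbourhood `h ≠ 0` of `p`) there is a differential operator
`P = h⁻¹ ∑ a(x,s) ∂^w` with coefficients polynomial in `s` for which it holds. The sum runs over
the finite list `P` of pairs `(a, w)`; since both sides of the equation are `f^s` times a rational
function of `x`, polynomial in `s`, it is enough to state it for all natural numbers `s = n`. -/
def LocalBS {σ : Type} (f : MvPolynomial σ ℂ) (b : Polynomial ℂ) : Prop :=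
  ∀ p : σ → ℂ, ∃ h : MvPolynomial σ ℂ, eval p h ≠ 0 ∧
    ∃ P : List (Polynomial (MvPolynomial σ ℂ) × List σ), ∀ n : ℕ,
      C (b.eval (n : ℂ)) * h * f ^ n =
        (P.map fun aw => aw.1.eval (n : MvPolynomial σ ℂ) * dWord aw.2 (f ^ (n + 1))).sum

/-- The Bernstein-Sato polynomial `b_f`: the monic generator of the ideal of all polynomials `b`
satisfying the functional equation locally. -/
noncomputable def bfun {σ : Type} (f : MvPolynomial σ ℂ) : Polynomial ℂ :=
  normalize (Submodule.IsPrincipal.generator (Ideal.span {b | LocalBS f b}))

end Pool.Agent.Helper6_Mono
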