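import Pool.Agent.Helper6_Mono.Series

/-!
# Cells over the space of series and their sums, products and powers
-/

set_option autoImplicit false
set_option linter.unusedVariables false

namespace Pool.Agent.Helper6_Mono

open PowerSeries

variable {k : Type} [Field k] {W : Type} [AddCommGroup W] {σ : Type}

/-- weights of the base (points, series) -/
@[reducible] def wser (σ : Type) (ω : W) : σ ⊕ ℕ → W := Sum.elim (fun _ => 0) (fun j => j • ω)

/-- weights of the base (points, a leading coefficient) -/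
@[reducible] def wopt (σ : Type) (w : W) : Option σ → W := fun o => o.elim w (fun _ => 0)

/-- The cell of order `m`: series `t ^ m * U` with `U` of degree at most `n` and with prescribed
constant coefficient. -/
@[reducible] noncomputable def GenK (k : Type) [Field k] (σ : Type) (ω : W) (m n : ℕ) :
    Kern k W (Option σ) (wopt σ (m • ω)) (σ ⊕ ℕ) (wser σ ω) where
  K := GF.sl k ω (m • ω) 0 (n + 1)
  hK := FT.sl _ _ _ _ (Nat.zero_le _)
  A := Unit
  wA _ := m • ω
  r _ {S} _ _ b z := coeff 0 z.1 - b none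
  r_tw a {S S'} _ _ _ _ φ c x z := by
    rw [coeff_sl_tw, zero_smul, add_zero, map_sub, mul_sub]
    rfl
  Φ b' {S} _ _ b z := match b' with
    | Sum.inl i => b (some i)
    | Sum.inr j => coeff j (X ^ m * z.1)
  Φ_tw b' {S S'} _ _ _ _ φ c x z := by
    cases b' with
    | inl i => rfl
    | inr j =>
      show coeff j (X ^ m * (C (chr c (m • ω)) * twS ω φ c z.1))
        = chr c (j • ω) * φ (coeff j (X ^ m * z.1))
      rw [coeff_X_pow_mul', coeff_X_pow_mul', coeff_C_mul, coeff_twS]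
      split_ifs with h
      · rw [← mul_assoc, ← chr_add, ← add_smul, Nat.add_sub_cancel' h]
      · rw [map_zero, mul_zero]

/-- sum with a fixed functor over the base -/
@[reducible] def AddK (ω : W) (G : Over k W (σ ⊕ ℕ) (wser σ ω)) (hG : FT G.F) :
    Kern k W (σ ⊕ ℕ) (wser σ ω) (σ ⊕ ℕ) (wser σ ω) where
  K := G.F
  hK := hG
  A := Empty
  wA a := a.elim
  r a {S} _ _ b z := a.elim
  r_tw a {S S'} _ _ _ _ φ c x z := a.elim
  Φ b' {S} _ _ b z := b b' + (G.pt b').fn z
  Φ_tw b' {S S'} _ _ _ _ φ c x z := by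
    rw [(G.pt b').fn_tw, map_add, mul_add]

/-- the series below a point -/
def ser {S : Type} (b : σ ⊕ ℕ → S) : S⟦X⟧ := PowerSeries.mk fun j => b (Sum.inr j)

theorem coeff_ser {S : Type} [CommRing S] (b : σ ⊕ ℕ → S) (j : ℕ) :
    coeff j (ser b) = b (Sum.inr j) := by rw [ser, coeff_mk]

theorem ser_tw {S S' : Type} [CommRing S] [Algebra k S] [CommRing S'] [Algebra k S'] (ω : W)
    (φ : S →ₐ[k] S') (c : Chr W S') (b : σ ⊕ ℕ → S) :
    ser (fun i => chr c (wser σ ω i) * φ (b i)) = twS ω φ c (ser b) := by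
  ext j
  rw [coeff_ser, coeff_twS, coeff_ser]
  rfl

/-- product with a fixed functor over the base; series are truncated at `t ^ l` -/
@[reducible] noncomputable def MulK (ω : W) (l : ℕ) (G : Over k W (σ ⊕ ℕ) (wser σ ω))
    (hG : FT G.F) : Kern k W (σ ⊕ ℕ) (wser σ ω) (σ ⊕ ℕ) (wser σ ω) where
  K := G.F
  hK := hG
  A := Empty
  wA a := a.elim
  r a {S} _ _ b z := a.elim
  r_tw a {S S'} _ _ _ _ φ c x z := a.elim
  Φ b' {S} _ _ b z := match b' with
    | Sum.inl i => b (Sum.inl i) + (G.pt (Sum.inl i)).fn z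
    | Sum.inr j => if j ≤ l then coeff j (ser b * ser (G.base z)) else 0
  Φ_tw b' {S S'} _ _ _ _ φ c x z := by
    cases b' with
    | inl i => simp only []; rw [(G.pt _).fn_tw, map_add, mul_add]
    | inr j =>
      show (if j ≤ l then coeff j (ser _ * ser (G.base (G.F.tw φ c z))) else 0)
        = chr c (j • ω) * φ (if j ≤ l then coeff j (ser x * ser (G.base z)) else 0)
      rw [G.base_tw, ser_tw, ser_tw, ← map_mul, coeff_twS]
      split_ifs
      · rfl
      · rw [map_zero, mul_zero]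

/-- powers; series are truncated at `t ^ l` -/
@[reducible] noncomputable def PowK (k : Type) [Field k] (σ : Type) (ω : W) (l N : ℕ) :
    Kern k W (σ ⊕ ℕ) (wser σ ω) (σ ⊕ ℕ) (wser σ ω) where
  K := GF.one k W
  hK := FT.one
  A := Empty
  wA a := a.elim
  r a {S} _ _ b z := a.elim
  r_tw a {S S'} _ _ _ _ φ c x z := a.elim
  Φ b' {S} _ _ b z := match b' with
    | Sum.inl i => b (Sum.inl i)
    | Sum.inr j => if j ≤ l then coeff j (ser b ^ N) else 0
  Φ_tw b' {S S'} _ _ _ _ φ c x z := by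
    cases b' with
    | inl i => rfl
    | inr j =>
      show (if j ≤ l then coeff j (ser _ ^ N) else 0)
        = chr c (j • ω) * φ (if j ≤ l then coeff j (ser x ^ N) else 0)
      rw [ser_tw, ← map_pow, coeff_twS]
      split_ifs
      · rfl
      · rw [map_zero, mul_zero]

/-- multiplication of the series with a constant -/
@[reducible] noncomputable def ScaleK (σ : Type) (ω : W) (a : k) :
    Kern k W (σ ⊕ ℕ) (wser σ ω) (σ ⊕ ℕ) (wser σ ω) where
  K := GF.one k W
  hK := FT.one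
  A := Empty
  wA a := a.elim
  r a {S} _ _ b z := a.elim
  r_tw a {S S'} _ _ _ _ φ c x z := a.elim
  Φ b' {S} _ _ b z := match b' with
    | Sum.inl i => b (Sum.inl i)
    | Sum.inr j => algebraMap k S a * b (Sum.inr j)
  Φ_tw b' {S S'} _ _ _ _ φ c x z := by
    cases b' with
    | inl i => rfl
    | inr j =>
      show algebraMap k S' a * (chr c (j • ω) * φ (x (Sum.inr j)))
        = chr c (j • ω) * φ (algebraMap k S a * x (Sum.inr j))
      rw [map_mul, AlgHom.commutes]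
      ring

/-- product of two functors over `Option σ`, with a new function `u` -/
@[reducible] def prA {v v' w : W} (X : Over k W (Option σ) (wopt σ v))
    (Y : Over k W (Option σ) (wopt σ v')) (u : NF (X.F.prod Y.F) w) :
    Over k W (Option σ) (wopt σ w) where
  F := X.F.prod Y.F
  pt b := match b with
    | none => u
    | some i => ((X.pt (some i)).fst Y.F).add ((Y.pt (some i)).snd X.F)

/-- replace the function over `none` -/
@[reducible] def setU {v w : W} (X : Over k W (Option σ) (wopt σ v)) (u : NF X.F w) :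
    Over k W (Option σ) (wopt σ w) where
  F := X.F
  pt b := match b with
    | none => u
    | some i => X.pt (some i)

theorem OIso.mk' {β : Type} {wβ : β → W} {X Y : Over k W β wβ}
    (f : (S : Type) → [CommRing S] → [Algebra k S] → X.F.obj S → Y.F.obj S)
    (g : (S : Type) → [CommRing S] → [Algebra k S] → Y.F.obj S → X.F.obj S)
    (hgf : ∀ (S : Type) [CommRing S] [Algebra k S] (x : X.F.obj S), g S (f S x) = x)
    (hfg : ∀ (S : Type) [CommRing S] [Algebra k S] (y : Y.F.obj S), f S (g S y) = y)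
    (hf : ∀ {S S' : Type} [CommRing S] [Algebra k S] [CommRing S'] [Algebra k S']
      (φ : S →ₐ[k] S') (c : Chr W S') (x : X.F.obj S), f S' (X.F.tw φ c x) = Y.F.tw φ c (f S x))
    (hp : ∀ (S : Type) [CommRing S] [Algebra k S] (x : X.F.obj S) (b : β),
      (Y.pt b).fn (f S x) = (X.pt b).fn x) : OIso X Y :=
  ⟨⟨fun S _ _ => ⟨f S, g S, hgf S, hfg S⟩, hf⟩, hp⟩

theorem addCell_iso (ω : W) (m d n : ℕ) (X : Over k W (Option σ) (wopt σ (m • ω)))
    (Y : Over k W (Option σ) (wopt σ ((m + d) • ω))) (hG : FT ((GenK k σ ω (m + d) n).app Y).F)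
    (u : NF (X.F.prod Y.F) (m • ω))
    (hu : ∀ (S : Type) [CommRing S] [Algebra k S] (x : (X.F.prod Y.F).obj S),
      u.fn x = (X.pt none).fn x.1 + if d = 0 then (Y.pt none).fn x.2 else 0) :
    OIso ((AddK ω ((GenK k σ ω (m + d) n).app Y) hG).app ((GenK k σ ω m (d + n)).app X))
      (((GenK k σ ω m (d + n)).app (prA X Y u)).times (GF.sl k ω ((m + d) • ω) 1 (n + 1))) := by
  refine OIso.mk' (fun S _ _ p => (⟨((p.1.1.1.1, p.1.2.1.1),
      ⟨p.1.1.1.2.1 + PowerSeries.X ^ d * p.1.2.1.2.1, ?_⟩), ?_⟩,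
        ⟨p.1.2.1.2.1 - C (coeff 0 p.1.2.1.2.1), ?_⟩))
    (fun S _ _ q => ⟨(⟨(q.1.1.1.1, ⟨q.1.1.2.1
      - PowerSeries.X ^ d * (q.2.1 + C ((Y.pt none).fn q.1.1.1.2)), ?_⟩), ?_⟩,
      ⟨(q.1.1.1.2, ⟨q.2.1 + C ((Y.pt none).fn q.1.1.1.2), ?_⟩), ?_⟩), fun a => a.elim⟩)
    ?_ ?_ ?_ ?_
  · intro j hj
    rw [map_add, coeff_X_pow_mul', p.1.1.1.2.2 j (by omega)]
    split_ifs with h
    · rw [p.1.2.1.2.2 (j - d) (by omega), add_zero]
    · rw [add_zero]
  · intro a
    have h1 := p.1.1.2 ()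
    have h2 := p.1.2.2 ()
    rw [sub_eq_zero] at h1 h2
    show coeff 0 (p.1.1.1.2.1 + PowerSeries.X ^ d * p.1.2.1.2.1)
      - u.fn (p.1.1.1.1, p.1.2.1.1) = 0
    rw [hu, map_add, coeff_X_pow_mul', h1, sub_eq_zero]
    rcases Nat.eq_zero_or_pos d with h | h
    · have e : coeff (0 - d) p.1.2.1.2.1 = coeff 0 p.1.2.1.2.1 :=
        congrArg (fun i => coeff i p.1.2.1.2.1) (show 0 - d = 0 by omega)
      rw [if_pos (by omega), if_pos h, e, h2]
    · rw [if_neg (by omega), if_neg (by omega)]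
  · intro j hj
    rw [map_sub, coeff_C]
    split_ifs with h
    · rw [h, sub_self]
    · rw [p.1.2.1.2.2 j (by omega), sub_zero]
  · intro j hj
    rw [map_sub, coeff_X_pow_mul', q.1.1.2.2 j (by omega)]
    split_ifs with h
    · rw [map_add, coeff_C, if_neg (by omega), q.2.2 (j - d) (by omega)]; ring
    · ring
  · intro a
    have h1 := q.1.2 ()
    rw [sub_eq_zero] at h1
    show coeff 0 (q.1.1.2.1 - PowerSeries.X ^ d * (q.2.1 + C ((Y.pt none).fn q.1.1.1.2)))
      - (X.pt none).fn q.1.1.1.1 = 0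
    have h3 : coeff 0 q.1.1.2.1 = u.fn q.1.1.1 := h1
    rw [map_sub, coeff_X_pow_mul', h3, hu, map_add, coeff_C]
    rcases Nat.eq_zero_or_pos d with h | h
    · rw [if_pos (show d ≤ 0 by omega), if_pos (show d = 0 by omega),
        if_pos (show 0 - d = 0 by omega), q.2.2 (0 - d) (by omega)]; ring
    · rw [if_neg (show ¬ d ≤ 0 by omega), if_neg (show ¬ d = 0 by omega)]; ring
  · intro j hj
    rw [map_add, coeff_C, if_neg (by omega), q.2.2 j (by omega), add_zero]
  · intro a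
    show coeff 0 (q.2.1 + C ((Y.pt none).fn q.1.1.1.2)) - (Y.pt none).fn q.1.1.1.2 = 0
    rw [map_add, coeff_C, if_pos rfl, q.2.2 0 (by omega)]; ring
  · intro S _ _ p
    have h2 := p.1.2.2 ()
    rw [sub_eq_zero] at h2
    have h2' : coeff 0 p.1.2.1.2.1 = (Y.pt none).fn p.1.2.1.1 := h2
    refine Subtype.ext (Prod.ext (Subtype.ext (Prod.ext rfl (Subtype.ext ?_)))
      (Subtype.ext (Prod.ext rfl (Subtype.ext ?_))))
    · show p.1.1.1.2.1 + PowerSeries.X ^ d * p.1.2.1.2.1 - PowerSeries.X ^ d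
        * (p.1.2.1.2.1 - C (coeff 0 p.1.2.1.2.1) + C ((Y.pt none).fn p.1.2.1.1)) = p.1.1.1.2.1
      rw [h2']; ring
    · show p.1.2.1.2.1 - C (coeff 0 p.1.2.1.2.1) + C ((Y.pt none).fn p.1.2.1.1) = p.1.2.1.2.1
      rw [h2']; ring
  · intro S _ _ q
    have h3 : coeff 0 (q.2.1 + C ((Y.pt none).fn q.1.1.1.2)) = (Y.pt none).fn q.1.1.1.2 := by
      rw [map_add, coeff_C, if_pos rfl, q.2.2 0 (by omega)]; ring
    refine Prod.ext (Subtype.ext (Prod.ext rfl (Subtype.ext ?_))) (Subtype.ext ?_)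
    · show q.1.1.2.1 - PowerSeries.X ^ d * (q.2.1 + C ((Y.pt none).fn q.1.1.1.2))
        + PowerSeries.X ^ d * (q.2.1 + C ((Y.pt none).fn q.1.1.1.2)) = q.1.1.2.1
      ring
    · show q.2.1 + C ((Y.pt none).fn q.1.1.1.2)
        - C (coeff 0 (q.2.1 + C ((Y.pt none).fn q.1.1.1.2))) = q.2.1
      rw [h3]; ring
  · intro S S' _ _ _ _ φ c p
    refine Prod.ext (Subtype.ext (Prod.ext rfl (Subtype.ext ?_))) (Subtype.ext ?_)
    · show C (chr c (m • ω)) * twS ω φ c p.1.1.1.2.1
        + PowerSeries.X ^ d * (C (chr c ((m + d) • ω)) * twS ω φ c p.1.2.1.2.1)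
        = C (chr c (m • ω)) * twS ω φ c (p.1.1.1.2.1 + PowerSeries.X ^ d * p.1.2.1.2.1)
      have e : chr c ((m + d) • ω) = chr c (m • ω) * chr c (d • ω) := by
        rw [add_smul, chr_add]
      rw [map_add, map_mul, twS_X_pow, e, map_mul]; ring
    · show C (chr c ((m + d) • ω)) * twS ω φ c p.1.2.1.2.1
        - C (coeff 0 (C (chr c ((m + d) • ω)) * twS ω φ c p.1.2.1.2.1))
        = C (chr c ((m + d) • ω)) * twS ω φ c (p.1.2.1.2.1 - C (coeff 0 p.1.2.1.2.1))
      rw [map_sub, twS_C, coeff_C_mul, coeff_twS, zero_smul, chr_zero, one_mul, map_mul]; ring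
  · intro S _ _ p b
    cases b with
    | inl i => rfl
    | inr j =>
      show coeff j (PowerSeries.X ^ m * (p.1.1.1.2.1 + PowerSeries.X ^ d * p.1.2.1.2.1))
        = coeff j (PowerSeries.X ^ m * p.1.1.1.2.1)
          + coeff j (PowerSeries.X ^ (m + d) * p.1.2.1.2.1)
      rw [← map_add]
      congr 1
      ring

/-! ### Truncation -/

section low

variable {S S' : Type} [CommRing S] [Algebra k S] [CommRing S'] [Algebra k S']

/-- the part of degree at most `e` -/
noncomputable def lowS (e : ℕ) (U : S⟦X⟧) : S⟦X⟧ := PowerSeries.mk fun j => if j ≤ e then coeff j U else 0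

theorem coeff_lowS (e : ℕ) (U : S⟦X⟧) (j : ℕ) :
    coeff j (lowS e U) = if j ≤ e then coeff j U else 0 := by rw [lowS, coeff_mk]

theorem lowS_add (e : ℕ) (U V : S⟦X⟧) : lowS e (U + V) = lowS e U + lowS e V := by
  ext j
  rw [map_add, coeff_lowS, coeff_lowS, coeff_lowS]
  split_ifs
  · rw [map_add]
  · rw [add_zero]

theorem twS_lowS (ω : W) (φ : S →ₐ[k] S') (c : Chr W S') (e : ℕ) (U : S⟦X⟧) :
    twS ω φ c (lowS e U) = lowS e (twS ω φ c U) := by
  ext j
  rw [coeff_twS, coeff_lowS, coeff_lowS, coeff_twS]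
  split_ifs
  · rfl
  · rw [map_zero, mul_zero]

theorem lowS_C_mul (e : ℕ) (a : S) (U : S⟦X⟧) : lowS e (C a * U) = C a * lowS e U := by
  ext j
  rw [coeff_C_mul, coeff_lowS, coeff_lowS, coeff_C_mul]
  split_ifs
  · rfl
  · rw [mul_zero]

theorem coeff_mul_congr {U V V' : S⟦X⟧} {e : ℕ} (h : ∀ j, j ≤ e → coeff j V = coeff j V') {j : ℕ}
    (hj : j ≤ e) : coeff j (U * V) = coeff j (U * V') := by
  rw [coeff_mul, coeff_mul]
  refine Finset.sum_congr rfl fun p hp => ?_
  rw [h p.2 (by have := Finset.HasAntidiagonal.mem_antidiagonal.1 hp; omega)]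

theorem lowS_mul_congr {U V V' : S⟦X⟧} {e : ℕ} (h : ∀ j, j ≤ e → coeff j V = coeff j V') :
    lowS e (U * V) = lowS e (U * V') := by
  ext j
  rw [coeff_lowS, coeff_lowS]
  split_ifs with hj
  · exact coeff_mul_congr h hj
  · rfl

theorem lowS_eq_self {e : ℕ} {U : S⟦X⟧} (h : ∀ j, e < j → coeff j U = 0) : lowS e U = U := by
  ext j
  rw [coeff_lowS]
  split_ifs with hj
  · rfl
  · rw [h j (by omega)]

theorem lowS_mul_lowS (e : ℕ) (U V : S⟦X⟧) : lowS e (U * lowS e V) = lowS e (U * V) :=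
  lowS_mul_congr fun j hj => by rw [coeff_lowS, if_pos hj]

theorem coeff_zero_mul (U V : S⟦X⟧) : coeff 0 (U * V) = coeff 0 U * coeff 0 V := by
  simp only [PowerSeries.coeff_zero_eq_constantCoeff_apply, map_mul]

theorem isUnit_series {U : S⟦X⟧} (h : IsUnit (coeff 0 U)) : IsUnit U := by
  rw [PowerSeries.isUnit_iff_constantCoeff, ← PowerSeries.coeff_zero_eq_constantCoeff_apply]
  exact h

end low

theorem mulCell_iso (ω : W) (m m' e : ℕ) (X : Over k W (Option σ) (wopt σ (m • ω)))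
    (hX : ∀ (S : Type) [CommRing S] [Algebra k S] (x : X.F.obj S), IsUnit ((X.pt none).fn x))
    (Y : Over k W (Option σ) (wopt σ (m' • ω))) (hG : FT ((GenK k σ ω m' (m + e)).app Y).F)
    (u : NF (X.F.prod Y.F) ((m + m') • ω))
    (hu : ∀ (S : Type) [CommRing S] [Algebra k S] (x : (X.F.prod Y.F).obj S),
      u.fn x = (X.pt none).fn x.1 * (Y.pt none).fn x.2) :
    OIso ((MulK ω (m + m' + e) ((GenK k σ ω m' (m + e)).app Y) hG).app
        ((GenK k σ ω m (m' + e)).app X))
      ((((GenK k σ ω (m + m') e).app (prA X Y u)).times (GF.sl k ω (m • ω) 1 (m' + e + 1))).times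
        (GF.sl k ω (m' • ω) (e + 1) (m + e + 1))) := by
  refine OIso.mk' (fun S _ _ p => ((⟨((p.1.1.1.1, p.1.2.1.1),
      ⟨lowS e (p.1.1.1.2.1 * p.1.2.1.2.1), ?_⟩), ?_⟩,
        ⟨p.1.1.1.2.1 - C (coeff 0 p.1.1.1.2.1), ?_⟩), ⟨p.1.2.1.2.1 - lowS e p.1.2.1.2.1, ?_⟩))
    (fun S _ _ q => ⟨(⟨(q.1.1.1.1.1, ⟨q.1.2.1 + C ((X.pt none).fn q.1.1.1.1.1), ?_⟩), ?_⟩,
      ⟨(q.1.1.1.1.2, ⟨lowS e (Ring.inverse (q.1.2.1 + C ((X.pt none).fn q.1.1.1.1.1))
        * q.1.1.1.2.1) + q.2.1, ?_⟩), ?_⟩), fun a => a.elim⟩)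
    ?_ ?_ ?_ ?_
  · intro j hj
    rw [coeff_lowS, if_neg (by omega)]
  · intro a
    have h1 := p.1.1.2 ()
    have h2 := p.1.2.2 ()
    rw [sub_eq_zero] at h1 h2
    show coeff 0 (lowS e (p.1.1.1.2.1 * p.1.2.1.2.1)) - u.fn (p.1.1.1.1, p.1.2.1.1) = 0
    rw [hu, coeff_lowS, if_pos (Nat.zero_le e), sub_eq_zero, coeff_zero_mul, h1, h2]
  · intro j hj
    rw [map_sub, coeff_C]
    split_ifs with h
    · rw [h, sub_self]
    · rw [p.1.1.1.2.2 j (by omega), sub_zero]
  · intro j hj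
    rw [map_sub, coeff_lowS]
    split_ifs with h
    · rw [sub_self]
    · rw [p.1.2.1.2.2 j (by omega), sub_zero]
  · intro j hj
    rw [map_add, coeff_C, if_neg (by omega), q.1.2.2 j (by omega), add_zero]
  · intro a
    show coeff 0 (q.1.2.1 + C ((X.pt none).fn q.1.1.1.1.1)) - (X.pt none).fn q.1.1.1.1.1 = 0
    rw [map_add, coeff_C, if_pos rfl, q.1.2.2 0 (by omega)]; ring
  · intro j hj
    rw [map_add, coeff_lowS, if_neg (by omega), q.2.2 j (by omega), add_zero]
  · intro a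
    show coeff 0 (lowS e (Ring.inverse (q.1.2.1 + C ((X.pt none).fn q.1.1.1.1.1))
        * q.1.1.1.2.1) + q.2.1) - (Y.pt none).fn q.1.1.1.1.2 = 0
    have h1 : coeff 0 (q.1.2.1 + C ((X.pt none).fn q.1.1.1.1.1)) = (X.pt none).fn q.1.1.1.1.1 := by
      rw [map_add, coeff_C, if_pos rfl, q.1.2.2 0 (by omega), zero_add]
    have h2 : IsUnit (q.1.2.1 + C ((X.pt none).fn q.1.1.1.1.1)) :=
      isUnit_series (by rw [h1]; exact hX S _)
    have h3 := q.1.1.2 ()
    rw [sub_eq_zero] at h3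
    have h4 : coeff 0 q.1.1.1.2.1 = (X.pt none).fn q.1.1.1.1.1 * (Y.pt none).fn q.1.1.1.1.2 := by
      rw [← hu S q.1.1.1.1]; exact h3
    have h5 : (q.1.2.1 + C ((X.pt none).fn q.1.1.1.1.1))
        * (Ring.inverse (q.1.2.1 + C ((X.pt none).fn q.1.1.1.1.1)) * q.1.1.1.2.1)
        = q.1.1.1.2.1 := by
      rw [← mul_assoc, Ring.mul_inverse_cancel _ h2, one_mul]
    have h6 := congrArg (coeff 0) h5
    rw [coeff_zero_mul, h1, h4] at h6
    have h7 := (hX S q.1.1.1.1.1).mul_left_cancel h6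
    rw [map_add, coeff_lowS, if_pos (Nat.zero_le e), q.2.2 0 (by omega), h7]; ring
  · intro S _ _ p
    have h1 := p.1.1.2 ()
    rw [sub_eq_zero] at h1
    have h1' : coeff 0 p.1.1.1.2.1 = (X.pt none).fn p.1.1.1.1 := h1
    have h2 : IsUnit p.1.1.1.2.1 := isUnit_series (by rw [h1']; exact hX S _)
    have h3 : p.1.1.1.2.1 - C (coeff 0 p.1.1.1.2.1) + C ((X.pt none).fn p.1.1.1.1)
        = p.1.1.1.2.1 := by rw [h1']; ring
    refine Subtype.ext (Prod.ext (Subtype.ext (Prod.ext rfl (Subtype.ext ?_)))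
      (Subtype.ext (Prod.ext rfl (Subtype.ext ?_))))
    · exact h3
    · show lowS e (Ring.inverse (p.1.1.1.2.1 - C (coeff 0 p.1.1.1.2.1)
        + C ((X.pt none).fn p.1.1.1.1)) * lowS e (p.1.1.1.2.1 * p.1.2.1.2.1))
        + (p.1.2.1.2.1 - lowS e p.1.2.1.2.1) = p.1.2.1.2.1
      rw [h3, lowS_mul_lowS, ← mul_assoc, Ring.inverse_mul_cancel _ h2, one_mul]
      ring
  · intro S _ _ q
    have h1 : coeff 0 (q.1.2.1 + C ((X.pt none).fn q.1.1.1.1.1)) = (X.pt none).fn q.1.1.1.1.1 := by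
      rw [map_add, coeff_C, if_pos rfl, q.1.2.2 0 (by omega), zero_add]
    have h2 : IsUnit (q.1.2.1 + C ((X.pt none).fn q.1.1.1.1.1)) :=
      isUnit_series (by rw [h1]; exact hX S _)
    have h8 : lowS e q.2.1 = 0 := by
      ext j
      rw [coeff_lowS, map_zero]
      split_ifs
      · exact q.2.2 j (by omega)
      · rfl
    have h9 : lowS e q.1.1.1.2.1 = q.1.1.1.2.1 := lowS_eq_self fun j hj => q.1.1.1.2.2 j (by omega)
    have h10 : ∀ V : S⟦X⟧, lowS e (lowS e V) = lowS e V := fun V =>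
      lowS_eq_self fun j hj => by rw [coeff_lowS, if_neg (by omega)]
    refine Prod.ext (Prod.ext (Subtype.ext (Prod.ext rfl (Subtype.ext ?_))) (Subtype.ext ?_))
      (Subtype.ext ?_)
    · show lowS e ((q.1.2.1 + C ((X.pt none).fn q.1.1.1.1.1))
        * (lowS e (Ring.inverse (q.1.2.1 + C ((X.pt none).fn q.1.1.1.1.1)) * q.1.1.1.2.1)
          + q.2.1)) = q.1.1.1.2.1
      rw [← lowS_mul_lowS, lowS_add, h8, add_zero, h10, lowS_mul_lowS, ← mul_assoc,
        Ring.mul_inverse_cancel _ h2, one_mul, h9]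
    · show q.1.2.1 + C ((X.pt none).fn q.1.1.1.1.1)
        - C (coeff 0 (q.1.2.1 + C ((X.pt none).fn q.1.1.1.1.1))) = q.1.2.1
      rw [h1]; ring
    · show lowS e (Ring.inverse (q.1.2.1 + C ((X.pt none).fn q.1.1.1.1.1)) * q.1.1.1.2.1) + q.2.1
        - lowS e (lowS e (Ring.inverse (q.1.2.1 + C ((X.pt none).fn q.1.1.1.1.1))
          * q.1.1.1.2.1) + q.2.1) = q.2.1
      rw [lowS_add, h8, h10]; ring
  · intro S S' _ _ _ _ φ c p
    refine Prod.ext (Prod.ext (Subtype.ext (Prod.ext rfl (Subtype.ext ?_))) (Subtype.ext ?_))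
      (Subtype.ext ?_)
    · show lowS e ((C (chr c (m • ω)) * twS ω φ c p.1.1.1.2.1)
        * (C (chr c (m' • ω)) * twS ω φ c p.1.2.1.2.1))
        = C (chr c ((m + m') • ω)) * twS ω φ c (lowS e (p.1.1.1.2.1 * p.1.2.1.2.1))
      have e1 : chr c ((m + m') • ω) = chr c (m • ω) * chr c (m' • ω) := by
        rw [add_smul, chr_add]
      rw [twS_lowS, ← lowS_C_mul, e1, map_mul, map_mul]
      congr 1
      ring
    · show C (chr c (m • ω)) * twS ω φ c p.1.1.1.2.1
        - C (coeff 0 (C (chr c (m • ω)) * twS ω φ c p.1.1.1.2.1))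
        = C (chr c (m • ω)) * twS ω φ c (p.1.1.1.2.1 - C (coeff 0 p.1.1.1.2.1))
      rw [map_sub, twS_C, coeff_C_mul, coeff_twS, zero_smul, chr_zero, one_mul, map_mul]; ring
    · show C (chr c (m' • ω)) * twS ω φ c p.1.2.1.2.1
        - lowS e (C (chr c (m' • ω)) * twS ω φ c p.1.2.1.2.1)
        = C (chr c (m' • ω)) * twS ω φ c (p.1.2.1.2.1 - lowS e p.1.2.1.2.1)
      rw [map_sub, twS_lowS, lowS_C_mul]; ring
  · intro S _ _ p b
    cases b with
    | inl i => rfl
    | inr j =>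
      show coeff j (PowerSeries.X ^ (m + m') * lowS e (p.1.1.1.2.1 * p.1.2.1.2.1))
        = if j ≤ m + m' + e then coeff j
          (ser (((GenK k σ ω m (m' + e)).app X).base p.1.1)
            * ser (((GenK k σ ω m' (m + e)).app Y).base p.1.2)) else 0
      have e1 : ser (((GenK k σ ω m (m' + e)).app X).base p.1.1)
          = PowerSeries.X ^ m * p.1.1.1.2.1 := by
        ext j; rw [coeff_ser]
      have e2 : ser (((GenK k σ ω m' (m + e)).app Y).base p.1.2)
          = PowerSeries.X ^ m' * p.1.2.1.2.1 := by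
        ext j; rw [coeff_ser]
      rw [e1, e2, show PowerSeries.X ^ m * p.1.1.1.2.1 * (PowerSeries.X ^ m' * p.1.2.1.2.1)
        = PowerSeries.X ^ (m + m') * (p.1.1.1.2.1 * p.1.2.1.2.1) by ring, coeff_X_pow_mul',
        coeff_X_pow_mul', coeff_lowS]
      split_ifs <;> first | rfl | omega

theorem mulCell_iso_zero (ω : W) (m n m' n' l : ℕ) (h : l < m + m')
    (X : Over k W (Option σ) (wopt σ (m • ω)))
    (Y : Over k W (Option σ) (wopt σ (m' • ω))) (hG : FT ((GenK k σ ω m' n').app Y).F) :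
    OIso ((MulK ω l ((GenK k σ ω m' n').app Y) hG).app ((GenK k σ ω m n).app X))
      ((((GenK k σ ω l 0).app (prA X Y (NF.zero (X.F.prod Y.F) (l • ω)))).times
        (GF.sl k ω (m • ω) 1 (n + 1))).times (GF.sl k ω (m' • ω) 1 (n' + 1))) := by
  have hcz : ∀ {S : Type} [CommRing S] [Algebra k S] {r : ℕ} {w : W}
      (E : (GF.sl k ω w 1 r).obj S) (a : S), coeff 0 (E.1 + C a) = a := by
    intro S _ _ r w E a
    rw [map_add, coeff_C, if_pos rfl, E.2 0 (by omega), zero_add]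
  refine OIso.mk' (fun S _ _ p => ((⟨((p.1.1.1.1, p.1.2.1.1), ⟨0, ?_⟩), ?_⟩,
        ⟨p.1.1.1.2.1 - C (coeff 0 p.1.1.1.2.1), ?_⟩), ⟨p.1.2.1.2.1 - C (coeff 0 p.1.2.1.2.1), ?_⟩))
    (fun S _ _ q => ⟨(⟨(q.1.1.1.1.1, ⟨q.1.2.1 + C ((X.pt none).fn q.1.1.1.1.1), ?_⟩), ?_⟩,
      ⟨(q.1.1.1.1.2, ⟨q.2.1 + C ((Y.pt none).fn q.1.1.1.1.2), ?_⟩), ?_⟩), fun a => a.elim⟩)
    ?_ ?_ ?_ ?_
  · intro j hj
    rw [map_zero]
  · intro a
    show coeff 0 (0 : S⟦X⟧) - 0 = 0
    rw [map_zero, sub_zero]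
  · intro j hj
    rw [map_sub, coeff_C]
    split_ifs with h
    · rw [h, sub_self]
    · rw [p.1.1.1.2.2 j (by omega), sub_zero]
  · intro j hj
    rw [map_sub, coeff_C]
    split_ifs with h
    · rw [h, sub_self]
    · rw [p.1.2.1.2.2 j (by omega), sub_zero]
  · intro j hj
    rw [map_add, coeff_C, if_neg (by omega), q.1.2.2 j (by omega), add_zero]
  · intro a
    show coeff 0 (q.1.2.1 + C ((X.pt none).fn q.1.1.1.1.1)) - (X.pt none).fn q.1.1.1.1.1 = 0
    rw [hcz, sub_self]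
  · intro j hj
    rw [map_add, coeff_C, if_neg (by omega), q.2.2 j (by omega), add_zero]
  · intro a
    show coeff 0 (q.2.1 + C ((Y.pt none).fn q.1.1.1.1.2)) - (Y.pt none).fn q.1.1.1.1.2 = 0
    rw [hcz, sub_self]
  · intro S _ _ p
    have h1 := p.1.1.2 ()
    have h2 := p.1.2.2 ()
    rw [sub_eq_zero] at h1 h2
    have h1' : coeff 0 p.1.1.1.2.1 = (X.pt none).fn p.1.1.1.1 := h1
    have h2' : coeff 0 p.1.2.1.2.1 = (Y.pt none).fn p.1.2.1.1 := h2
    refine Subtype.ext (Prod.ext (Subtype.ext (Prod.ext rfl (Subtype.ext ?_)))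
      (Subtype.ext (Prod.ext rfl (Subtype.ext ?_))))
    · show p.1.1.1.2.1 - C (coeff 0 p.1.1.1.2.1) + C ((X.pt none).fn p.1.1.1.1) = p.1.1.1.2.1
      rw [h1']; ring
    · show p.1.2.1.2.1 - C (coeff 0 p.1.2.1.2.1) + C ((Y.pt none).fn p.1.2.1.1) = p.1.2.1.2.1
      rw [h2']; ring
  · intro S _ _ q
    refine Prod.ext (Prod.ext (Subtype.ext (Prod.ext rfl (Subtype.ext ?_))) (Subtype.ext ?_))
      (Subtype.ext ?_)
    · have h3 := q.1.1.2 ()
      rw [sub_eq_zero] at h3
      have h4 : coeff 0 q.1.1.1.2.1 = 0 := h3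
      show (0 : S⟦X⟧) = q.1.1.1.2.1
      ext j
      rw [map_zero]
      rcases Nat.eq_zero_or_pos j with hj | hj
      · rw [hj, h4]
      · rw [q.1.1.1.2.2 j (by omega)]
    · show q.1.2.1 + C ((X.pt none).fn q.1.1.1.1.1)
        - C (coeff 0 (q.1.2.1 + C ((X.pt none).fn q.1.1.1.1.1))) = q.1.2.1
      rw [hcz]; ring
    · show q.2.1 + C ((Y.pt none).fn q.1.1.1.1.2)
        - C (coeff 0 (q.2.1 + C ((Y.pt none).fn q.1.1.1.1.2))) = q.2.1
      rw [hcz]; ring
  · intro S S' _ _ _ _ φ c p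
    refine Prod.ext (Prod.ext (Subtype.ext (Prod.ext rfl (Subtype.ext ?_))) (Subtype.ext ?_))
      (Subtype.ext ?_)
    · show (0 : S'⟦X⟧) = C (chr c (l • ω)) * twS ω φ c 0
      rw [map_zero, mul_zero]
    · show C (chr c (m • ω)) * twS ω φ c p.1.1.1.2.1
        - C (coeff 0 (C (chr c (m • ω)) * twS ω φ c p.1.1.1.2.1))
        = C (chr c (m • ω)) * twS ω φ c (p.1.1.1.2.1 - C (coeff 0 p.1.1.1.2.1))
      rw [map_sub, twS_C, coeff_C_mul, coeff_twS, zero_smul, chr_zero, one_mul, map_mul]; ring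
    · show C (chr c (m' • ω)) * twS ω φ c p.1.2.1.2.1
        - C (coeff 0 (C (chr c (m' • ω)) * twS ω φ c p.1.2.1.2.1))
        = C (chr c (m' • ω)) * twS ω φ c (p.1.2.1.2.1 - C (coeff 0 p.1.2.1.2.1))
      rw [map_sub, twS_C, coeff_C_mul, coeff_twS, zero_smul, chr_zero, one_mul, map_mul]; ring
  · intro S _ _ p b
    cases b with
    | inl i => rfl
    | inr j =>
      show coeff j (PowerSeries.X ^ l * (0 : S⟦X⟧))
        = if j ≤ l then coeff j (ser (((GenK k σ ω m n).app X).base p.1.1)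
            * ser (((GenK k σ ω m' n').app Y).base p.1.2)) else 0
      have e1 : ser (((GenK k σ ω m n).app X).base p.1.1)
          = PowerSeries.X ^ m * p.1.1.1.2.1 := by
        ext j; rw [coeff_ser]
      have e2 : ser (((GenK k σ ω m' n').app Y).base p.1.2)
          = PowerSeries.X ^ m' * p.1.2.1.2.1 := by
        ext j; rw [coeff_ser]
      rw [mul_zero, map_zero, e1, e2,
        show PowerSeries.X ^ m * p.1.1.1.2.1 * (PowerSeries.X ^ m' * p.1.2.1.2.1)
        = PowerSeries.X ^ (m + m') * (p.1.1.1.2.1 * p.1.2.1.2.1) by ring, coeff_X_pow_mul']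
      split_ifs <;> first | rfl | omega

/-! ### Roots of power series -/

section roots

variable {S : Type} [CommRing S] [Algebra k S]

/-- powers of series agreeing up to degree `e` -/
theorem pow_congr {U V : S⟦X⟧} {e : ℕ} (h : ∀ j, j ≤ e → coeff j U = coeff j V) (N : ℕ) :
    ∀ j, j ≤ e → coeff j (U ^ N) = coeff j (V ^ N) := by
  induction N with
  | zero => intro j hj; rw [pow_zero, pow_zero]
  | succ N ih =>
    intro j hj
    rw [pow_succ, pow_succ, coeff_mul_congr h hj, mul_comm, mul_comm _ V, coeff_mul_congr ih hj]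

/-- uniqueness of roots -/
theorem root_unique {U V : S⟦X⟧} {e N : ℕ} (hN : IsUnit (N : S)) (h0 : coeff 0 U = coeff 0 V)
    (hU : IsUnit (coeff 0 U)) (h : ∀ j, j ≤ e → coeff j (U ^ N) = coeff j (V ^ N)) :
    ∀ j, j ≤ e → coeff j U = coeff j V := by
  -- `U ^ N - V ^ N = (U - V) * T` with `T` a unit
  set T : S⟦X⟧ := ∑ i ∈ Finset.range N, U ^ i * V ^ (N - 1 - i) with hT
  have h1 : (U - V) * T = U ^ N - V ^ N := (Commute.all U V).mul_geom_sum₂ N
  have h2 : coeff 0 T = N * coeff 0 U ^ (N - 1) := by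
    rw [hT, map_sum]
    have : ∀ i ∈ Finset.range N, coeff 0 (U ^ i * V ^ (N - 1 - i)) = coeff 0 U ^ (N - 1) := by
      intro i hi
      rw [Finset.mem_range] at hi
      rw [coeff_zero_mul]
      simp only [PowerSeries.coeff_zero_eq_constantCoeff_apply, map_pow] at h0 ⊢
      rw [← h0, ← pow_add]
      congr 1
      omega
    rw [Finset.sum_congr rfl this, Finset.sum_const, Finset.card_range, nsmul_eq_mul]
  have h3 : IsUnit T := isUnit_series (by rw [h2]; exact hN.mul (hU.pow _))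
  have h4 : U - V = (U ^ N - V ^ N) * Ring.inverse T := by
    rw [← h1, mul_assoc, Ring.mul_inverse_cancel _ h3, mul_one]
  intro j hj
  have h5 : coeff j (U - V) = 0 := by
    rw [h4, mul_comm, coeff_mul]
    refine Finset.sum_eq_zero fun p hp => ?_
    rw [map_sub, h p.2 (by have := Finset.HasAntidiagonal.mem_antidiagonal.1 hp; omega), sub_self,
      mul_zero]
  rw [map_sub, sub_eq_zero] at h5
  exact h5

/-- existence of roots -/
theorem root_exists {P : S⟦X⟧} {N : ℕ} (hN : IsUnit (N : S)) {u : S} (hu : IsUnit u)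
    (h0 : coeff 0 P = u ^ N) (e : ℕ) :
    ∃ U : S⟦X⟧, coeff 0 U = u ∧ (∀ j, e < j → coeff j U = 0) ∧
      ∀ j, j ≤ e → coeff j (U ^ N) = coeff j P := by
  have hN0 : N ≠ 0 ∨ Subsingleton S := by
    by_cases h : N = 0
    · right
      rw [h, Nat.cast_zero, isUnit_zero_iff] at hN
      exact subsingleton_of_zero_eq_one hN
    · exact Or.inl h
  rcases hN0 with hN0 | hS
  swap
  · refine ⟨0, Subsingleton.elim _ _, fun _ _ => Subsingleton.elim _ _,
      fun _ _ => Subsingleton.elim _ _⟩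
  induction e with
  | zero =>
    refine ⟨C u, by simp, fun j hj => by rw [coeff_C, if_neg (by omega)], fun j hj => ?_⟩
    have : j = 0 := by omega
    subst this
    rw [h0, ← map_pow]
    simp
  | succ e ih =>
    obtain ⟨U, hU0, hU1, hU2⟩ := ih
    -- correct the coefficient `e + 1`
    obtain ⟨w, hw⟩ : ∃ w, (N * u ^ (N - 1)) * w = 1 := (hN.mul (hu.pow _)).exists_right_inv
    let a : S := w * (coeff (e + 1) P - coeff (e + 1) (U ^ N))
    let V : S⟦X⟧ := U + C a * X ^ (e + 1)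
    have hVj : ∀ j, coeff j V = coeff j U + if j = e + 1 then a else 0 := by
      intro j
      rw [map_add, coeff_C_mul, coeff_X_pow]
      split_ifs <;> simp
    have hV0 : coeff 0 V = coeff 0 U := by rw [hVj, if_neg (by omega), add_zero]
    refine ⟨V, by rw [hV0, hU0], fun j hj => ?_, fun j hj => ?_⟩
    · rw [hVj, if_neg (by omega), hU1 j (by omega), add_zero]
    · rcases Nat.lt_or_ge j (e + 1) with h | h
      · rw [pow_congr (e := e) (V := U) (fun i hi => by rw [hVj, if_neg (by omega), add_zero]) N j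
          (by omega)]
        exact hU2 j (by omega)
      · have hj' : j = e + 1 := by omega
        subst hj'
        -- `V ^ N - U ^ N = (V - U) * T`
        set T : S⟦X⟧ := ∑ i ∈ Finset.range N, V ^ i * U ^ (N - 1 - i) with hT
        have h1 : (V - U) * T = V ^ N - U ^ N := (Commute.all V U).mul_geom_sum₂ N
        have h2 : coeff 0 T = N * u ^ (N - 1) := by
          rw [hT, map_sum]
          have : ∀ i ∈ Finset.range N, coeff 0 (V ^ i * U ^ (N - 1 - i)) = u ^ (N - 1) := by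
            intro i hi
            rw [Finset.mem_range] at hi
            rw [coeff_zero_mul]
            simp only [PowerSeries.coeff_zero_eq_constantCoeff_apply, map_pow] at hV0 hU0 ⊢
            rw [hV0, hU0, ← pow_add]
            congr 1
            omega
          rw [Finset.sum_congr rfl this, Finset.sum_const, Finset.card_range, nsmul_eq_mul]
        have h3 : V - U = X ^ (e + 1) * C a := by
          show U + C a * X ^ (e + 1) - U = _
          ring
        have h4 : coeff (e + 1) (V ^ N - U ^ N) = a * (N * u ^ (N - 1)) := by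
          rw [← h1, h3, mul_assoc, coeff_X_pow_mul', if_pos le_rfl, Nat.sub_self, coeff_C_mul, h2]
        rw [map_sub] at h4
        have h5 : a * (N * u ^ (N - 1)) = coeff (e + 1) P - coeff (e + 1) (U ^ N) := by
          show w * (coeff (e + 1) P - coeff (e + 1) (U ^ N)) * (N * u ^ (N - 1)) = _
          rw [mul_comm w, mul_assoc, mul_comm w, hw, mul_one]
        rw [h5] at h4
        exact sub_left_injective h4

end roots

theorem powCell_iso (ω : W) (m n e N : ℕ) (hn : m + n = N * m + e) (hN1 : 1 ≤ N)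
    (hN : (N : k) ≠ 0) (X : Over k W (Option σ) (wopt σ (m • ω)))
    (hX : ∀ (S : Type) [CommRing S] [Algebra k S] (x : X.F.obj S), IsUnit ((X.pt none).fn x))
    (u : NF X.F ((N * m) • ω))
    (hu : ∀ (S : Type) [CommRing S] [Algebra k S] (x : X.F.obj S),
      u.fn x = (X.pt none).fn x ^ N) :
    OIso ((PowK k σ ω (N * m + e) N).app ((GenK k σ ω m n).app X))
      (((GenK k σ ω (N * m) e).app (setU X u)).times (GF.sl k ω (m • ω) (e + 1) (n + 1))) := by
  have hNm : m ≤ N * m := Nat.le_mul_of_pos_left m hN1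
  have hNS : ∀ (S : Type) [CommRing S] [Algebra k S], IsUnit (N : S) := by
    intro S _ _
    have := (isUnit_iff_ne_zero.2 hN).map (algebraMap k S)
    rwa [map_natCast] at this
  refine OIso.ofBij (fun S _ _ p => (⟨(p.1.1.1.1, ⟨lowS e (p.1.1.1.2.1 ^ N), ?_⟩), ?_⟩,
      ⟨p.1.1.1.2.1 - lowS e p.1.1.1.2.1, ?_⟩)) ?_ ?_ ?_
  · intro j hj
    rw [coeff_lowS, if_neg (by omega)]
  · intro a
    have h1 := p.1.1.2 ()
    rw [sub_eq_zero] at h1
    show coeff 0 (lowS e (p.1.1.1.2.1 ^ N)) - u.fn p.1.1.1.1 = 0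
    have h1' : coeff 0 p.1.1.1.2.1 = (X.pt none).fn p.1.1.1.1 := h1
    rw [hu, coeff_lowS, if_pos (Nat.zero_le e), sub_eq_zero, ← h1']
    simp only [PowerSeries.coeff_zero_eq_constantCoeff_apply, map_pow]
  · intro j hj
    rw [map_sub, coeff_lowS]
    split_ifs with h
    · rw [sub_self]
    · rw [p.1.1.1.2.2 j (by omega), sub_zero]
  · intro S S' _ _ _ _ φ c p
    refine Prod.ext (Subtype.ext (Prod.ext rfl (Subtype.ext ?_))) (Subtype.ext ?_)
    · show lowS e ((C (chr c (m • ω)) * twS ω φ c p.1.1.1.2.1) ^ N)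
        = C (chr c ((N * m) • ω)) * twS ω φ c (lowS e (p.1.1.1.2.1 ^ N))
      have e1 : chr c ((N * m) • ω) = chr c (m • ω) ^ N := by
        rw [mul_smul, chr_nsmul]
      rw [twS_lowS, ← lowS_C_mul, e1, mul_pow, map_pow, map_pow]
    · show C (chr c (m • ω)) * twS ω φ c p.1.1.1.2.1
        - lowS e (C (chr c (m • ω)) * twS ω φ c p.1.1.1.2.1)
        = C (chr c (m • ω)) * twS ω φ c (p.1.1.1.2.1 - lowS e p.1.1.1.2.1)
      rw [map_sub, twS_lowS, lowS_C_mul]; ring
  · intro S _ _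
    constructor
    · intro p p' hpp
      have h1 : coeff 0 p.1.1.1.2.1 = (X.pt none).fn p.1.1.1.1 := sub_eq_zero.1 (p.1.1.2 ())
      have h1' : coeff 0 p'.1.1.1.2.1 = (X.pt none).fn p'.1.1.1.1 := sub_eq_zero.1 (p'.1.1.2 ())
      have hx : p.1.1.1.1 = p'.1.1.1.1 := congrArg (fun q => q.1.1.1) hpp
      have hlow : lowS e (p.1.1.1.2.1 ^ N) = lowS e (p'.1.1.1.2.1 ^ N) :=
        congrArg (fun q => q.1.1.2.1) hpp
      have hhigh : p.1.1.1.2.1 - lowS e p.1.1.1.2.1 = p'.1.1.1.2.1 - lowS e p'.1.1.1.2.1 :=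
        congrArg (fun q => q.2.1) hpp
      have hroot := root_unique (U := p.1.1.1.2.1) (V := p'.1.1.1.2.1) (e := e) (hNS S)
        (by rw [h1, h1', hx]) (by rw [h1]; exact hX S _) (fun j hj => by
          have := congrArg (coeff j) hlow
          rwa [coeff_lowS, coeff_lowS, if_pos hj, if_pos hj] at this)
      have hU : p.1.1.1.2.1 = p'.1.1.1.2.1 := by
        ext j
        rcases Nat.lt_or_ge e j with h | h
        · have := congrArg (coeff j) hhigh
          rwa [map_sub, map_sub, coeff_lowS, coeff_lowS, if_neg (by omega), if_neg (by omega),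
            sub_zero, sub_zero] at this
        · exact hroot j h
      exact Subtype.ext (Prod.ext (Subtype.ext (Prod.ext hx (Subtype.ext hU))) rfl)
    · intro q
      have h1 : coeff 0 q.1.1.2.1 = (X.pt none).fn q.1.1.1 ^ N := by
        rw [← hu]
        exact sub_eq_zero.1 (q.1.2 ())
      obtain ⟨V, hV0, hV1, hV2⟩ := root_exists (hNS S) (hX S q.1.1.1) h1 e
      have hVE : ∀ j, j ≤ e → coeff j (V + q.2.1) = coeff j V := by
        intro j hj
        rw [map_add, q.2.2 j (by omega), add_zero]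
      refine ⟨⟨(⟨(q.1.1.1, ⟨V + q.2.1, fun j hj => ?_⟩), fun a => ?_⟩, ()), fun a => a.elim⟩, ?_⟩
      · rw [map_add, hV1 j (by omega), q.2.2 j (by omega), add_zero]
      · show coeff 0 (V + q.2.1) - (X.pt none).fn q.1.1.1 = 0
        rw [hVE 0 (Nat.zero_le _), hV0, sub_self]
      · refine Prod.ext (Subtype.ext (Prod.ext rfl (Subtype.ext ?_))) (Subtype.ext ?_)
        · show lowS e ((V + q.2.1) ^ N) = q.1.1.2.1
          ext j
          rw [coeff_lowS]
          split_ifs with hj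
          · rw [pow_congr hVE N j hj, hV2 j hj]
          · rw [q.1.1.2.2 j (by omega)]
        · show V + q.2.1 - lowS e (V + q.2.1) = q.2.1
          ext j
          rw [map_sub, coeff_lowS]
          split_ifs with hj
          · rw [sub_self, q.2.2 j (by omega)]
          · rw [map_add, hV1 j (by omega)]; ring
  · intro S _ _ p b
    cases b with
    | inl i => rfl
    | inr j =>
      show coeff j (PowerSeries.X ^ (N * m) * lowS e (p.1.1.1.2.1 ^ N))
        = if j ≤ N * m + e then coeff j (ser (((GenK k σ ω m n).app X).base p.1.1) ^ N) else 0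
      have e1 : ser (((GenK k σ ω m n).app X).base p.1.1)
          = PowerSeries.X ^ m * p.1.1.1.2.1 := by
        ext j; rw [coeff_ser]
      rw [e1, mul_pow, ← pow_mul, mul_comm m N, coeff_X_pow_mul', coeff_X_pow_mul', coeff_lowS]
      split_ifs <;> first | rfl | omega

theorem powCell_iso_zero (ω : W) (m n l N : ℕ) (h : l < N * m)
    (X : Over k W (Option σ) (wopt σ (m • ω))) :
    OIso ((PowK k σ ω l N).app ((GenK k σ ω m n).app X))
      (((GenK k σ ω l 0).app (setU X (NF.zero X.F (l • ω)))).times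
        (GF.sl k ω (m • ω) 1 (n + 1))) := by
  refine OIso.mk' (fun S _ _ p => (⟨(p.1.1.1.1, ⟨0, ?_⟩), ?_⟩,
        ⟨p.1.1.1.2.1 - C (coeff 0 p.1.1.1.2.1), ?_⟩))
    (fun S _ _ q => ⟨(⟨(q.1.1.1, ⟨q.2.1 + C ((X.pt none).fn q.1.1.1), ?_⟩), ?_⟩, ()),
      fun a => a.elim⟩)
    ?_ ?_ ?_ ?_
  · intro j hj
    rw [map_zero]
  · intro a
    show coeff 0 (0 : S⟦X⟧) - 0 = 0
    rw [map_zero, sub_zero]
  · intro j hj
    rw [map_sub, coeff_C]
    split_ifs with h
    · rw [h, sub_self]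
    · rw [p.1.1.1.2.2 j (by omega), sub_zero]
  · intro j hj
    rw [map_add, coeff_C, if_neg (by omega), q.2.2 j (by omega), add_zero]
  · intro a
    show coeff 0 (q.2.1 + C ((X.pt none).fn q.1.1.1)) - (X.pt none).fn q.1.1.1 = 0
    rw [map_add, coeff_C, if_pos rfl, q.2.2 0 (by omega), zero_add, sub_self]
  · intro S _ _ p
    have h1' : coeff 0 p.1.1.1.2.1 = (X.pt none).fn p.1.1.1.1 := sub_eq_zero.1 (p.1.1.2 ())
    refine Subtype.ext (Prod.ext (Subtype.ext (Prod.ext rfl (Subtype.ext ?_))) rfl)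
    show p.1.1.1.2.1 - C (coeff 0 p.1.1.1.2.1) + C ((X.pt none).fn p.1.1.1.1) = p.1.1.1.2.1
    rw [h1']; ring
  · intro S _ _ q
    refine Prod.ext (Subtype.ext (Prod.ext rfl (Subtype.ext ?_))) (Subtype.ext ?_)
    · have h4 : coeff 0 q.1.1.2.1 = 0 := sub_eq_zero.1 (q.1.2 ())
      show (0 : S⟦X⟧) = q.1.1.2.1
      ext j
      rw [map_zero]
      rcases Nat.eq_zero_or_pos j with hj | hj
      · rw [hj, h4]
      · rw [q.1.1.2.2 j (by omega)]
    · show q.2.1 + C ((X.pt none).fn q.1.1.1)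
        - C (coeff 0 (q.2.1 + C ((X.pt none).fn q.1.1.1))) = q.2.1
      rw [map_add, coeff_C, if_pos rfl, q.2.2 0 (by omega), zero_add]; ring
  · intro S S' _ _ _ _ φ c p
    refine Prod.ext (Subtype.ext (Prod.ext rfl (Subtype.ext ?_))) (Subtype.ext ?_)
    · show (0 : S'⟦X⟧) = C (chr c (l • ω)) * twS ω φ c 0
      rw [map_zero, mul_zero]
    · show C (chr c (m • ω)) * twS ω φ c p.1.1.1.2.1
        - C (coeff 0 (C (chr c (m • ω)) * twS ω φ c p.1.1.1.2.1))
        = C (chr c (m • ω)) * twS ω φ c (p.1.1.1.2.1 - C (coeff 0 p.1.1.1.2.1))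
      rw [map_sub, twS_C, coeff_C_mul, coeff_twS, zero_smul, chr_zero, one_mul, map_mul]; ring
  · intro S _ _ p b
    cases b with
    | inl i => rfl
    | inr j =>
      show coeff j (PowerSeries.X ^ l * (0 : S⟦X⟧))
        = if j ≤ l then coeff j (ser (((GenK k σ ω m n).app X).base p.1.1) ^ N) else 0
      have e1 : ser (((GenK k σ ω m n).app X).base p.1.1)
          = PowerSeries.X ^ m * p.1.1.1.2.1 := by
        ext j; rw [coeff_ser]
      rw [mul_zero, map_zero, e1, mul_pow, ← pow_mul, mul_comm m N, coeff_X_pow_mul']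
      split_ifs <;> first | rfl | omega

/-- multiplication with a constant -/
@[reducible] def NF.smulk {F : GF k W} {w : W} (a : k) (h : NF F w) : NF F w :=
  ⟨fun {S} _ _ x => algebraMap k S a * h.fn x, fun φ c x => by
    rw [h.fn_tw, map_mul, AlgHom.commutes]; ring⟩

theorem scaleCell_iso (ω : W) (m n : ℕ) (a : k) (ha : a ≠ 0)
    (X : Over k W (Option σ) (wopt σ (m • ω))) :
    OIso ((ScaleK σ ω a).app ((GenK k σ ω m n).app X))
      ((GenK k σ ω m n).app (setU X ((X.pt none).smulk a))) := by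
  have hCC : ∀ (S : Type) [CommRing S] [Algebra k S],
      (C (algebraMap k S a⁻¹) : S⟦X⟧) * C (algebraMap k S a) = 1 := by
    intro S _ _
    rw [← map_mul, ← map_mul, inv_mul_cancel₀ ha, map_one, map_one]
  refine OIso.mk' (fun S _ _ p => ⟨(p.1.1.1.1, ⟨C (algebraMap k S a) * p.1.1.1.2.1, ?_⟩), ?_⟩)
    (fun S _ _ q => ⟨(⟨(q.1.1, ⟨C (algebraMap k S a⁻¹) * q.1.2.1, ?_⟩), ?_⟩, ()),
      fun a => a.elim⟩)
    ?_ ?_ ?_ ?_
  · intro j hj
    rw [coeff_C_mul, p.1.1.1.2.2 j hj, mul_zero]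
  · intro _
    show coeff 0 (C (algebraMap k S a) * p.1.1.1.2.1)
      - algebraMap k S a * (X.pt none).fn p.1.1.1.1 = 0
    have h1' : coeff 0 p.1.1.1.2.1 = (X.pt none).fn p.1.1.1.1 := sub_eq_zero.1 (p.1.1.2 ())
    rw [coeff_C_mul, h1', sub_self]
  · intro j hj
    rw [coeff_C_mul, q.1.2.2 j hj, mul_zero]
  · intro _
    have h1 : coeff 0 q.1.2.1 = algebraMap k S a * (X.pt none).fn q.1.1 :=
      sub_eq_zero.1 (q.2 ())
    show coeff 0 (C (algebraMap k S a⁻¹) * q.1.2.1) - (X.pt none).fn q.1.1 = 0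
    rw [coeff_C_mul, h1, ← mul_assoc, ← map_mul, inv_mul_cancel₀ ha, map_one, one_mul, sub_self]
  · intro S _ _ p
    refine Subtype.ext (Prod.ext (Subtype.ext (Prod.ext rfl (Subtype.ext ?_))) rfl)
    show C (algebraMap k S a⁻¹) * (C (algebraMap k S a) * p.1.1.1.2.1) = p.1.1.1.2.1
    rw [← mul_assoc, hCC, one_mul]
  · intro S _ _ q
    refine Subtype.ext (Prod.ext rfl (Subtype.ext ?_))
    show C (algebraMap k S a) * (C (algebraMap k S a⁻¹) * q.1.2.1) = q.1.2.1
    rw [← mul_assoc, mul_comm (C (algebraMap k S a)), hCC, one_mul]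
  · intro S S' _ _ _ _ φ c p
    refine Subtype.ext (Prod.ext rfl (Subtype.ext ?_))
    show C (algebraMap k S' a) * (C (chr c (m • ω)) * twS ω φ c p.1.1.1.2.1)
      = C (chr c (m • ω)) * twS ω φ c (C (algebraMap k S a) * p.1.1.1.2.1)
    rw [map_mul, twS_C, AlgHom.commutes]; ring
  · intro S _ _ p b
    cases b with
    | inl i => rfl
    | inr j =>
      show coeff j (PowerSeries.X ^ m * (C (algebraMap k S a) * p.1.1.1.2.1))
        = algebraMap k S a * coeff j (PowerSeries.X ^ m * p.1.1.1.2.1)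
      rw [← coeff_C_mul]
      congr 1
      ring

end Pool.Agent.Helper6_Mono
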