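import Pool.Agent.Helper6_Mono.Van
import Pool.Agent.Helper6_Mono.Seq

/-!
# Decomposition of jet spaces into cells
-/

set_option autoImplicit false
set_option linter.unusedVariables false
set_option linter.unusedSectionVars false

namespace Pool.Agent.Helper6_Mono

open PowerSeries Finset

variable {k : Type} [Field k] {σ : Type}

variable (k σ) in
/-- cells of order zero -/
structure ZCell where
  Y : OverS k σ ℤ
  ft : FT Y.F
  u : NF Y.F 0
  hu : ∀ (S : Type) [CommRing S] [Algebra k S] (x : Y.F.obj S), IsUnit (u.fn x)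

variable (k σ) in
/-- regular cells of positive order -/
structure RCell where
  Y : OverS k σ ℤ
  ft : FT Y.F
  e : ℕ
  he : 0 < e
  u : NF Y.F (e : ℤ)
  hu : ∀ (S : Type) [CommRing S] [Algebra k S] (x : Y.F.obj S), IsUnit (u.fn x)
  v : NF Y.F 1
  hv : ∀ (S : Type) [CommRing S] [Algebra k S] (x : Y.F.obj S), IsUnit (v.fn x)

variable (k σ) in
/-- free cells -/
structure FCell where
  Y : OverS k σ ℤ
  ft : FT Y.F

/-- the functor with trivial action -/
@[reducible] def triv (Y : OverS k σ ℤ) : OverS k σ QZ := Y.mapS 0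

/-- the functor with the action of weight `q` -/
@[reducible] def twq (Y : OverS k σ ℤ) (q : QZ) : OverS k σ QZ := Y.mapS (zmultiplesHom QZ q)

/-- the unit of a cell of order zero -/
@[reducible] def ZCell.un (c : ZCell k σ) (ω : QZ) : NF (triv c.Y).F (0 • ω) :=
  (c.u.mapWt 0).cast (by simp)

/-- the weight of a regular cell of order `m` -/
@[reducible] def RCell.q (c : RCell k σ) (ω : ℚ) (m : ℕ) : QZ := ((m * ω / c.e : ℚ) : QZ)

theorem q_eq (ω : ℚ) (m e : ℕ) (he : 0 < e) :
    zmultiplesHom QZ ((m * ω / e : ℚ) : QZ) (e : ℤ) = m • ((ω : ℚ) : QZ) := by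
  rw [zmultiplesHom_apply, ← AddCircle.coe_zsmul, ← AddCircle.coe_nsmul]
  congr 1
  have : (e : ℚ) ≠ 0 := by exact_mod_cast he.ne'
  simp only [zsmul_eq_mul, nsmul_eq_mul, Int.cast_natCast]
  field_simp

/-- the unit of a regular cell of order `m` -/
@[reducible] def RCell.un (c : RCell k σ) (ω : ℚ) (m : ℕ) :
    NF (twq c.Y (c.q ω m)).F (m • (ω : QZ)) :=
  (c.u.mapWt _).cast (q_eq ω m c.e c.he)

variable {R : Type*} [CommRing R] {L : Rˣ}

/-- normalized class of a cell of order zero -/
@[reducible] noncomputable def ZCell.val (c : ZCell k σ) {ω : QZ} (χ : SInv k (wser σ ω) L)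
    (l : ℕ) : R :=
  (χ.cell l 0).χ (withU (triv c.Y) (c.un ω))

/-- normalized class of a regular cell -/
@[reducible] noncomputable def RCell.val (c : RCell k σ) {ω : ℚ}
    (χ : SInv k (wser σ (ω : QZ)) L) (l m : ℕ) : R :=
  (χ.cell l m).χ (withU (twq c.Y (c.q ω m)) (c.un ω m))

/-- normalized class of a free cell -/
@[reducible] noncomputable def FCell.val (c : FCell k σ) {ω : QZ} (χ : SInv k (wser σ ω) L)
    (l m : ℕ) : R :=
  (χ.cell l m).χ (withU (triv c.Y) (NF.zero (triv c.Y).F (m • ω)))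

variable (L) in
/-- decomposition of the jet spaces of `g` into cells -/
structure Dec (g : MvPolynomial σ k) (s : Set σ) (S : Set ℚ) where
  I0 : Type
  I : Type
  J : Type
  [f0 : Fintype I0]
  [f1 : Fintype I]
  [f2 : Fintype J]
  z : I0 → ZCell k σ
  α : I0 → R
  r : I → RCell k σ
  A : I → ℕ → R
  A0 : ∀ i, A i 0 = 0
  fc : J → FCell k σ
  C : J → ℕ → R
  T : J → ℕ → R
  rA : ∀ i, RP L (steps S) (A i)
  rC : ∀ j, RP L (steps S) (C j)
  rT : ∀ j, RP L (steps S) (T j)
  main : ∀ (ω : ℚ) (χ : SInv k (wser σ (ω : QZ)) L) (l : ℕ),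
    Li L ^ (Nat.card s * l) * χ.χ (Jet g s l (ω : QZ)) =
      ∑ i, α i * (z i).val χ l
        + ∑ m ∈ range (l + 1), ∑ i, A i m * (r i).val χ l m
        + ∑ m ∈ range l, ∑ j, C j m * (fc j).val χ l m
        + ∑ j, T j l * (fc j).val χ l l

attribute [instance] Dec.f0 Dec.f1 Dec.f2

section TI

variable [Finite σ] {g : MvPolynomial σ k} {s : Set σ} {S : Set ℚ} (D : Dec (k := k) L g s S)
  (ψ : SInv k (fun _ : σ => (0 : QZ)) L)

/-- the cells of order zero over the space of points -/
noncomputable def Dec.zs : R := ∑ i, D.α i * ψ.χ (triv (D.z i).Y)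

/-- the regular cells over the space of points -/
noncomputable def Dec.as (m : ℕ) : R := ∑ i, D.A i m * ψ.χ (triv (D.r i).Y)

/-- the free cells over the space of points -/
noncomputable def Dec.cs (m : ℕ) : R := ∑ j, D.C j m * ψ.χ (triv (D.fc j).Y)

/-- the free cells over the space of points, last order -/
noncomputable def Dec.ts (m : ℕ) : R := ∑ j, D.T j m * ψ.χ (triv (D.fc j).Y)

theorem Dec.as_zero : D.as ψ 0 = 0 := by
  unfold Dec.as
  exact Finset.sum_eq_zero fun i _ => by rw [D.A0, zero_mul]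

theorem twq_zero (c : RCell k σ) (m : ℕ) : twq c.Y (c.q 0 m) = triv c.Y := by
  unfold twq triv
  have : zmultiplesHom QZ (c.q 0 m) = 0 := by
    ext
    simp [RCell.q]
  rw [this]

/-- weights of regular cells do not matter over the space of points -/
theorem RCell.shift (c : RCell k σ) (q : QZ) : ψ.χ (twq c.Y q) = ψ.χ (triv c.Y) := by
  symm
  exact ψ.shift c.Y c.ft (AddMonoidHom.id ℤ) c.v c.hv rfl (fun _ => rfl) 0 (zmultiplesHom QZ q) q
    (fun w => by simp) (fun _ => map_zero _) (fun _ => map_zero _)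

/-- classes of the loci where the series vanishes -/
theorem Dec.van (l N : ℕ) (hN : N ≤ l + 1) :
    Li L ^ (Nat.card s * l) * ψ.χ ((VanK k σ ((0 : ℚ) : QZ) N).app (Jet g s l ((0 : ℚ) : QZ)))
      = (if N = 0 then D.zs ψ else 0) + ∑ m ∈ range (l + 1), (if N ≤ m then D.as ψ m else 0)
        + ∑ m ∈ range l, (if N ≤ m then D.cs ψ m else Li L ^ (N - m - 1) * D.cs ψ m)
        + D.ts ψ l := by
  have h := D.main 0 (ψ.comp (VanK k σ ((0 : ℚ) : QZ) N)) l
  refine h.trans ?_
  congr 1
  · congr 1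
    · congr 1
      · split_ifs with h0
        · refine Finset.sum_congr rfl fun i _ => congrArg (D.α i * ·) ?_
          exact van_cell_ge ψ (by omega) (triv (D.z i).Y) (FT.mapWt 0 (D.z i).ft) _
        · refine Finset.sum_eq_zero fun i _ => ?_
          have e := van_cell_unit ψ (N := N) (l := l) (show 0 < N by omega) (triv (D.z i).Y)
            (FT.mapWt 0 (D.z i).ft) ((D.z i).un ((0 : ℚ) : QZ)) (D.z i).hu
          exact (congrArg (D.α i * ·) e).trans (mul_zero _)
      · refine Finset.sum_congr rfl fun m hm => ?_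
        split_ifs with h0
        · refine Finset.sum_congr rfl fun i _ => congrArg (D.A i m * ·) ?_
          exact (van_cell_ge ψ h0 (twq (D.r i).Y _) (FT.mapWt _ (D.r i).ft) _).trans
            (RCell.shift ψ _ _)
        · refine Finset.sum_eq_zero fun i _ => ?_
          have e := van_cell_unit ψ (N := N) (l := l) (show m < N by omega)
            (twq (D.r i).Y ((D.r i).q 0 m))
            (FT.mapWt _ (D.r i).ft) ((D.r i).un (0 : ℚ) m) (D.r i).hu
          exact (congrArg (D.A i m * ·) e).trans (mul_zero _)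
    · refine Finset.sum_congr rfl fun m hm => ?_
      rw [Finset.mem_range] at hm
      unfold Dec.cs
      split_ifs with h0
      · refine Finset.sum_congr rfl fun i _ => congrArg (D.C i m * ·) ?_
        exact van_cell_ge ψ h0 (triv (D.fc i).Y) (FT.mapWt _ (D.fc i).ft) _
      · rw [Finset.mul_sum]
        refine Finset.sum_congr rfl fun i _ => ?_
        have e := van_cell_lt ψ (N := N) (l := l) (ω := ((0 : ℚ) : QZ)) (show m < N by omega)
          (by omega) (by omega) (triv (D.fc i).Y) (FT.mapWt _ (D.fc i).ft)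
        refine (congrArg (D.C i m * ·) e).trans ?_
        ring
  · refine Finset.sum_congr rfl fun i _ => congrArg (D.T i l * ·) ?_
    rcases Nat.lt_or_ge l N with h0 | h0
    · refine (van_cell_lt ψ h0 le_rfl (by omega) (triv (D.fc i).Y)
        (FT.mapWt _ (D.fc i).ft)).trans ?_
      rw [show N - l - 1 = 0 by omega, pow_zero, one_mul]
    · exact van_cell_ge ψ h0 (triv (D.fc i).Y) (FT.mapWt _ (D.fc i).ft) _

/-- the tail identity -/
theorem Dec.ti (m : ℕ) : D.ts ψ m = D.ts ψ (m + 1) + D.as ψ (m + 1) + D.cs ψ m := by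
  have h1 := D.van ψ (m + 1) (m + 1) (by omega)
  have h2 := D.van ψ m (m + 1) (by omega)
  rw [van_jet_succ ψ g s m (m + 1) le_rfl] at h1
  rw [h1] at h2
  have e1 : ∑ m' ∈ range (m + 1 + 1), (if m + 1 ≤ m' then D.as ψ m' else 0) = D.as ψ (m + 1) := by
    rw [Finset.sum_range_succ, if_pos le_rfl, Finset.sum_eq_zero, zero_add]
    intro m' hm'
    rw [Finset.mem_range] at hm'
    rw [if_neg (by omega)]
  have e2 : ∑ m' ∈ range (m + 1), (if m + 1 ≤ m' then D.as ψ m' else 0) = 0 := by
    refine Finset.sum_eq_zero fun m' hm' => ?_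
    rw [Finset.mem_range] at hm'
    rw [if_neg (by omega)]
  have e3 : ∑ m' ∈ range (m + 1), (if m + 1 ≤ m' then D.cs ψ m'
      else Li L ^ (m + 1 - m' - 1) * D.cs ψ m')
      = ∑ m' ∈ range m, (if m + 1 ≤ m' then D.cs ψ m'
      else Li L ^ (m + 1 - m' - 1) * D.cs ψ m') + D.cs ψ m := by
    rw [Finset.sum_range_succ, if_neg (by omega), show m + 1 - m - 1 = 0 by omega, pow_zero,
      one_mul]
  rw [e1, e2, e3] at h2
  rw [if_neg (by omega)] at h2
  linear_combination -h2

/-- the class of all jets -/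
theorem Dec.all (l : ℕ) :
    Li L ^ (Nat.card s * l) * ψ.χ ((VanK k σ ((0 : ℚ) : QZ) 0).app (Jet g s l ((0 : ℚ) : QZ)))
      = D.zs ψ + D.ts ψ 0 := by
  induction l with
  | zero =>
    have h := D.van ψ 0 0 (by omega)
    rw [h, if_pos rfl, Finset.sum_range_one, if_pos le_rfl, D.as_zero, Finset.sum_range_zero]
    ring
  | succ l ih => rw [van_jet_succ ψ g s l 0 (by omega), ih]

end TI

end Pool.Agent.Helper6_Mono
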