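import Pool.Agent.Helper6_Mono.PairCells

/-!
# Decompositions: sums
-/

set_option autoImplicit false
set_option linter.unusedVariables false
set_option linter.unusedSectionVars false

namespace Pool.Agent.Helper6_Mono

open PowerSeries Finset

variable {k : Type} [Field k] {σ : Type} {R : Type*} [CommRing R] {L : Rˣ}

section padd

variable {ω : QZ} (χ : SInv k (wser σ ω) L)

theorem AddK_commB : CommB (k := k) (σ := σ) (ω := ω) (AddK ω) := fun hX hY => AddK_comm hX hY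

theorem padd_lt {l m m' : ℕ} (h : m < m') (hl : m' ≤ l) (Y : OverS k σ QZ) (hY : FT Y.F)
    (a : NF Y.F (m • ω)) (Y' : OverS k σ QZ) (hY' : FT Y'.F) (a' : NF Y'.F (m' • ω)) :
    PB (AddK ω) χ l (withU Y a) (withU Y' a') hY' = ((χ.cell l m).left Y hY a).χ Y' := by
  rw [SInv.left_val (χ.cell l m) Y hY a hY']
  exact cell_add χ h.le hl (X := withU Y a) hY (Y := withU Y' a') hY' (a.fst Y'.F)
    (fun S _ _ x => by
      show a.fn x.1 = a.fn x.1 + if m' = m then a'.fn x.2 else 0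
      rw [if_neg (by omega), add_zero])

theorem padd_gt {l m m' : ℕ} (h : m' < m) (hl : m ≤ l) (Y : OverS k σ QZ) (hY : FT Y.F)
    (a : NF Y.F (m • ω)) (Y' : OverS k σ QZ) (hY' : FT Y'.F) (a' : NF Y'.F (m' • ω)) :
    PB (AddK ω) χ l (withU Y a) (withU Y' a') hY' = ((χ.cell l m').left Y' hY' a').χ Y := by
  rw [PB_comm AddK_commB χ l (X := withU Y a) hY (Y := withU Y' a') hY']
  exact padd_lt χ h hl Y' hY' a' Y hY a

theorem padd_free {l m : ℕ} (hl : m ≤ l) (Y : OverS k σ QZ) (hY : FT Y.F)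
    (a : NF Y.F (m • ω)) (Y' : OverS k σ QZ) (hY' : FT Y'.F) :
    PB (AddK ω) χ l (withU Y a) (withU Y' (NF.zero _ (m • ω))) hY'
      = ((χ.cell l m).left Y hY a).χ Y' := by
  rw [SInv.left_val (χ.cell l m) Y hY a hY']
  exact cell_add χ le_rfl hl (X := withU Y a) hY (Y := withU Y' (NF.zero _ (m • ω))) hY'
    (a.fst Y'.F) (fun S _ _ x => by
      show a.fn x.1 = a.fn x.1 + if m = m then (0 : S) else 0
      rw [ite_self, add_zero])

theorem padd_free' {l m : ℕ} (hl : m ≤ l) (Y : OverS k σ QZ) (hY : FT Y.F)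
    (Y' : OverS k σ QZ) (hY' : FT Y'.F) (a' : NF Y'.F (m • ω)) :
    PB (AddK ω) χ l (withU Y (NF.zero _ (m • ω))) (withU Y' a') hY'
      = ((χ.cell l m).left Y' hY' a').χ Y := by
  rw [PB_comm AddK_commB χ l (X := withU Y (NF.zero _ (m • ω))) hY (Y := withU Y' a') hY']
  exact padd_free χ hl Y' hY' a' Y hY

theorem padd_reg {l m : ℕ} (hl : m ≤ l) (Y : OverS k σ QZ) (hY : FT Y.F)
    (a : NF Y.F (m • ω)) (Y' : OverS k σ QZ) (hY' : FT Y'.F) (a' : NF Y'.F (m • ω)) :
    PB (AddK ω) χ l (withU Y a) (withU Y' a') hY'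
      = (χ.cell l m).χ (withU (prS Y Y') ((a.fst _).add (a'.snd _))) :=
  cell_add χ le_rfl hl (X := withU Y a) hY (Y := withU Y' a') hY'
    ((a.fst _).add (a'.snd _)) (fun S _ _ x => by
      show a.fn x.1 + a'.fn x.2 = a.fn x.1 + if m = m then a'.fn x.2 else 0
      rw [if_pos rfl])

end padd

section sums

/-- splitting a double sum -/
theorem sum_tri (n : ℕ) (f : ℕ → ℕ → R) :
    ∑ m ∈ range (n + 1), ∑ m' ∈ range (n + 1), f m m'
      = ∑ m ∈ range (n + 1), (f m m + ∑ m' ∈ Ioc m n, f m m' + ∑ m' ∈ Ioc m n, f m' m) := by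
  have h1 : ∀ m ∈ range (n + 1), ∑ m' ∈ range (n + 1), f m m'
      = f m m + ∑ m' ∈ Ioc m n, f m m' + ∑ m' ∈ range m, f m m' := by
    intro m hm
    rw [Finset.mem_range] at hm
    have : range (n + 1) = insert m (Ioc m n ∪ range m) := by
      ext a
      simp only [Finset.mem_range, Finset.mem_Ioc, Finset.mem_insert, Finset.mem_union]
      omega
    rw [this, Finset.sum_insert (by simp), Finset.sum_union, add_assoc]
    rw [Finset.disjoint_left]
    intro a
    simp only [Finset.mem_range, Finset.mem_Ioc]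
    omega
  rw [Finset.sum_congr rfl h1]
  simp only [Finset.sum_add_distrib]
  congr 1
  have h2 : ∀ m ∈ range (n + 1), ∑ m' ∈ range m, f m m'
      = ∑ m' ∈ range (n + 1), if m' < m then f m m' else 0 := by
    intro m hm
    rw [Finset.mem_range] at hm
    rw [← Finset.sum_filter]
    refine Finset.sum_congr ?_ fun _ _ => rfl
    ext a
    simp only [Finset.mem_range, Finset.mem_filter]
    omega
  have h3 : ∀ m ∈ range (n + 1), ∑ m' ∈ Ioc m n, f m' m
      = ∑ m' ∈ range (n + 1), if m < m' then f m' m else 0 := by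
    intro m hm
    rw [Finset.mem_range] at hm
    rw [← Finset.sum_filter]
    refine Finset.sum_congr ?_ fun _ _ => rfl
    ext a
    simp only [Finset.mem_range, Finset.mem_filter, Finset.mem_Ioc]
    omega
  rw [Finset.sum_congr rfl h2, Finset.sum_congr rfl h3, Finset.sum_comm]

theorem alg_total {X X' J J' : Type} [Fintype X] [Fintype X'] [Fintype J] [Fintype J']
    (a : X ⊕ J → R) (b : X' ⊕ J' → R) (P : X ⊕ J → X' ⊕ J' → R) (T : X ⊕ J → R)
    (T' : X' ⊕ J' → R) :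
    ∑ κ, a κ * ∑ κ', b κ' * P κ κ'
      + ∑ κ, a κ * (T κ - ∑ j', b (Sum.inr j') * P κ (Sum.inr j'))
      + ∑ κ', b κ' * (T' κ' - ∑ j, a (Sum.inr j) * P (Sum.inr j) κ')
      = ∑ κ, a κ * T κ + ∑ κ', b κ' * T' κ'
        + ∑ x, a (Sum.inl x) * ∑ x', b (Sum.inl x') * P (Sum.inl x) (Sum.inl x')
        - ∑ j, a (Sum.inr j) * ∑ j', b (Sum.inr j') * P (Sum.inr j) (Sum.inr j') := by
  have e : ∑ κ', b κ' * ∑ j, a (Sum.inr j) * P (Sum.inr j) κ'
      = ∑ j, a (Sum.inr j) * ∑ κ', b κ' * P (Sum.inr j) κ' := by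
    simp only [Finset.mul_sum]
    rw [Finset.sum_comm]
    refine Finset.sum_congr rfl fun _ _ => Finset.sum_congr rfl fun _ _ => by ring
  simp only [mul_sub, Finset.sum_sub_distrib]
  rw [e]
  simp only [Fintype.sum_sum_type, mul_add, Finset.sum_add_distrib]
  ring

theorem uniform_sum {I0 I J : Type} [Fintype I0] [Fintype I] [Fintype J] (l : ℕ) (α : I0 → R)
    (A : I → ℕ → R) (C T : J → ℕ → R) (V0 : I0 → R) (VR : I → ℕ → R) (VF : J → ℕ → R) :
    ∑ i, α i * V0 i + ∑ m ∈ range (l + 1), ∑ i, A i m * VR i m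
      + ∑ m ∈ range l, ∑ j, C j m * VF j m + ∑ j, T j l * VF j l
      = ∑ m ∈ range (l + 1), (∑ i, (if m = 0 then α i else 0) * V0 i + ∑ i, A i m * VR i m
        + ∑ j, (if m < l then C j m else T j m) * VF j m) := by
  have e2 : ∑ m ∈ range (l + 1), ∑ i, (if m = 0 then α i else 0) * V0 i
      = ∑ i, α i * V0 i := by
    rw [Finset.sum_eq_single 0]
    · exact Finset.sum_congr rfl fun i _ => by rw [if_pos rfl]
    · intro m _ hm
      exact Finset.sum_eq_zero fun i _ => by rw [if_neg hm, zero_mul]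
    · intro h0
      exact absurd (Finset.mem_range.2 (Nat.succ_pos l)) h0
  have e3 : ∑ m ∈ range (l + 1), ∑ j, (if m < l then C j m else T j m) * VF j m
      = ∑ m ∈ range l, ∑ j, C j m * VF j m + ∑ j, T j l * VF j l := by
    rw [Finset.sum_range_succ (fun m => ∑ j, (if m < l then C j m else T j m) * VF j m)]
    congr 1
    · refine Finset.sum_congr rfl fun m hm => Finset.sum_congr rfl fun j _ => ?_
      rw [if_pos (Finset.mem_range.1 hm)]
    · refine Finset.sum_congr rfl fun j _ => ?_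
      rw [if_neg (lt_irrefl l)]
  rw [Finset.sum_add_distrib, Finset.sum_add_distrib, e2, e3]
  ring

end sums

section add

variable [Finite σ] {g h : MvPolynomial σ k} {s t : Set σ} {S T : Set ℚ}
  (D : Dec (k := k) L g s S) (D' : Dec (k := k) L h t T) {ω : ℚ}
  (χ : SInv k (wser σ (ω : QZ)) L) (l : ℕ)

/-- the value of a pair -/
noncomputable def pA (m m' : ℕ) (κ : D.K) (κ' : D'.K) : R :=
  PB (AddK (ω : QZ)) χ l (withU (D.cX ω κ m) (D.cU ω κ m)) (withU (D'.cX ω κ' m') (D'.cU ω κ' m'))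
    (D'.cX_FT ω κ' m')

/-- a cell of the first factor and a free cell of the second -/
noncomputable def vL (m : ℕ) (κ : D.K) (j' : D'.J) : R :=
  (χ.cell l m).χ (withU (prS (D.cX ω κ m) (triv (D'.fc j').Y)) ((D.cU ω κ m).fst _))

theorem vL_eq (m : ℕ) (κ : D.K) (j' : D'.J) :
    ((χ.cell l m).left (D.cX ω κ m) (D.cX_FT ω κ m) (D.cU ω κ m)).χ (triv (D'.fc j').Y)
      = vL D D' χ l m κ j' :=
  SInv.left_val _ _ _ _ (FT.mapWt _ (D'.fc j').ft)

theorem add_per (m : ℕ) (hm : m ≤ l) :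
    (∑ κ, D.γ l κ m * ∑ κ', D'.γ l κ' m * pA D D' χ l m m κ κ')
      + ∑ m' ∈ Ioc m l, (∑ κ, D.γ l κ m * ∑ κ', D'.γ l κ' m' * pA D D' χ l m m' κ κ')
      + ∑ m' ∈ Ioc m l, (∑ κ, D.γ l κ m' * ∑ κ', D'.γ l κ' m * pA D D' χ l m' m κ κ')
      = ∑ κ, D.γ l κ m * ∑ j', D'.T j' m * vL D D' χ l m κ j'
        + ∑ κ', D'.γ l κ' m * ∑ j, D.T j m * vL D' D χ l m κ' j
        + ∑ x, D.γ l (Sum.inl x) m * ∑ x', D'.γ l (Sum.inl x') m
          * pA D D' χ l m m (Sum.inl x) (Sum.inl x')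
        - ∑ j, D.γ l (Sum.inr j) m * ∑ j', D'.γ l (Sum.inr j') m * vL D D' χ l m (Sum.inr j) j' := by
  have h1 : ∑ m' ∈ Ioc m l, (∑ κ, D.γ l κ m * ∑ κ', D'.γ l κ' m' * pA D D' χ l m m' κ κ')
      = ∑ κ, D.γ l κ m * (∑ j', D'.T j' m * vL D D' χ l m κ j'
        - ∑ j', D'.γ l (Sum.inr j') m * pA D D' χ l m m κ (Sum.inr j')) := by
    rw [Finset.sum_comm]
    refine Finset.sum_congr rfl fun κ _ => ?_
    rw [← Finset.mul_sum]
    congr 1
    have e := D'.tail' ω ((χ.cell l m).left (D.cX ω κ m) (D.cX_FT ω κ m) (D.cU ω κ m)) hm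
    have e1 : ∑ m' ∈ Ioc m l, ∑ κ', D'.γ l κ' m' * pA D D' χ l m m' κ κ'
        = ∑ m' ∈ Ioc m l, ∑ κ', D'.γ l κ' m' * ((χ.cell l m).left (D.cX ω κ m)
          (D.cX_FT ω κ m) (D.cU ω κ m)).χ (D'.cX ω κ' m') := by
      refine Finset.sum_congr rfl fun m' hm' => Finset.sum_congr rfl fun κ' _ => ?_
      rw [Finset.mem_Ioc] at hm'
      rw [pA, padd_lt χ hm'.1 hm'.2 _ (D.cX_FT ω κ m)]
    have e2 : ∑ j', D'.γ l (Sum.inr j') m * pA D D' χ l m m κ (Sum.inr j')
        = ∑ j', D'.γ l (Sum.inr j') m * ((χ.cell l m).left (D.cX ω κ m)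
          (D.cX_FT ω κ m) (D.cU ω κ m)).χ (triv (D'.fc j').Y) := by
      refine Finset.sum_congr rfl fun j' _ => congrArg (D'.γ l (Sum.inr j') m * ·) ?_
      exact padd_free χ hm (D.cX ω κ m) (D.cX_FT ω κ m) (D.cU ω κ m) (triv (D'.fc j').Y)
        (FT.mapWt _ (D'.fc j').ft)
    have e3 : D'.ts ((χ.cell l m).left (D.cX ω κ m) (D.cX_FT ω κ m) (D.cU ω κ m)) m
        = ∑ j', D'.T j' m * vL D D' χ l m κ j' := by
      unfold Dec.ts
      exact Finset.sum_congr rfl fun j' _ => by rw [vL_eq]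
    rw [e1, e2, ← e3, ← e]
    ring
  have h2 : ∑ m' ∈ Ioc m l, (∑ κ, D.γ l κ m' * ∑ κ', D'.γ l κ' m * pA D D' χ l m' m κ κ')
      = ∑ κ', D'.γ l κ' m * (∑ j, D.T j m * vL D' D χ l m κ' j
        - ∑ j, D.γ l (Sum.inr j) m * pA D D' χ l m m (Sum.inr j) κ') := by
    have h3 : ∀ m' ∈ Ioc m l, (∑ κ, D.γ l κ m' * ∑ κ', D'.γ l κ' m * pA D D' χ l m' m κ κ')
        = ∑ κ', D'.γ l κ' m * ∑ κ, D.γ l κ m' * pA D D' χ l m' m κ κ' := by
      intro m' _
      simp only [Finset.mul_sum]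
      rw [Finset.sum_comm]
      refine Finset.sum_congr rfl fun _ _ => Finset.sum_congr rfl fun _ _ => by ring
    rw [Finset.sum_congr rfl h3, Finset.sum_comm]
    refine Finset.sum_congr rfl fun κ' _ => ?_
    rw [← Finset.mul_sum]
    congr 1
    have e := D.tail' ω ((χ.cell l m).left (D'.cX ω κ' m) (D'.cX_FT ω κ' m) (D'.cU ω κ' m)) hm
    have e1 : ∑ m' ∈ Ioc m l, ∑ κ, D.γ l κ m' * pA D D' χ l m' m κ κ'
        = ∑ m' ∈ Ioc m l, ∑ κ, D.γ l κ m' * ((χ.cell l m).left (D'.cX ω κ' m)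
          (D'.cX_FT ω κ' m) (D'.cU ω κ' m)).χ (D.cX ω κ m') := by
      refine Finset.sum_congr rfl fun m' hm' => Finset.sum_congr rfl fun κ _ => ?_
      rw [Finset.mem_Ioc] at hm'
      rw [pA, padd_gt χ hm'.1 hm'.2 _ (D.cX_FT ω κ m')]
    have e2 : ∑ j, D.γ l (Sum.inr j) m * pA D D' χ l m m (Sum.inr j) κ'
        = ∑ j, D.γ l (Sum.inr j) m * ((χ.cell l m).left (D'.cX ω κ' m)
          (D'.cX_FT ω κ' m) (D'.cU ω κ' m)).χ (triv (D.fc j).Y) := by
      refine Finset.sum_congr rfl fun j _ => congrArg (D.γ l (Sum.inr j) m * ·) ?_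
      exact padd_free' χ hm (triv (D.fc j).Y) (FT.mapWt _ (D.fc j).ft) (D'.cX ω κ' m)
        (D'.cX_FT ω κ' m) (D'.cU ω κ' m)
    have e3 : D.ts ((χ.cell l m).left (D'.cX ω κ' m) (D'.cX_FT ω κ' m) (D'.cU ω κ' m)) m
        = ∑ j, D.T j m * vL D' D χ l m κ' j := by
      unfold Dec.ts
      exact Finset.sum_congr rfl fun j _ => by rw [vL_eq]
    rw [e1, e2, ← e3, ← e]
    ring
  have h4 : ∑ j, D.γ l (Sum.inr j) m * ∑ j', D'.γ l (Sum.inr j') m * vL D D' χ l m (Sum.inr j) j'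
      = ∑ j, D.γ l (Sum.inr j) m * ∑ j', D'.γ l (Sum.inr j') m
        * pA D D' χ l m m (Sum.inr j) (Sum.inr j') := by
    refine Finset.sum_congr rfl fun j _ => ?_
    congr 1
    refine Finset.sum_congr rfl fun j' _ => congrArg (D'.γ l (Sum.inr j') m * ·) ?_
    rw [← vL_eq]
    exact (padd_free χ hm (D.cX ω (Sum.inr j) m) (D.cX_FT ω _ m) (D.cU ω (Sum.inr j) m)
      (triv (D'.fc j').Y) (FT.mapWt _ (D'.fc j').ft)).symm
  rw [h1, h2, h4]
  exact alg_total _ _ _ _ _

theorem vL_z (i : D.I0) (j' : D'.J) :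
    vL D D' χ l 0 (Sum.inl (Sum.inl i)) j' = ((D.z i).mulF (D'.fc j')).val χ l := rfl

theorem vL_r (m : ℕ) (i : D.I) (j' : D'.J) :
    vL D D' χ l m (Sum.inl (Sum.inr i)) j' = ((D.r i).mulF (D'.fc j')).val χ l m :=
  (RCell.mulF_val (D.r i) (D'.fc j') χ l m).symm

theorem vL_f (m : ℕ) (j : D.J) (j' : D'.J) :
    vL D D' χ l m (Sum.inr j) j' = ((D.fc j).mulF (D'.fc j')).val χ l m := rfl

theorem vL_swap (m : ℕ) (hm : m ≤ l) (j : D.J) (j' : D'.J) :
    vL D' D χ l m (Sum.inr j') j = vL D D' χ l m (Sum.inr j) j' := by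
  rw [← vL_eq, ← vL_eq]
  have h1 := padd_free χ hm (D.cX ω (Sum.inr j) m) (D.cX_FT ω _ m) (D.cU ω (Sum.inr j) m)
      (triv (D'.fc j').Y) (FT.mapWt _ (D'.fc j').ft)
  have h2 := padd_free' χ hm (triv (D.fc j).Y) (FT.mapWt _ (D.fc j).ft) (D'.cX ω (Sum.inr j') m)
        (D'.cX_FT ω _ m) (D'.cU ω (Sum.inr j') m)
  exact h2.symm.trans h1

theorem pA_zz (i : D.I0) (i' : D'.I0) :
    pA D D' χ l 0 0 (Sum.inl (Sum.inl i)) (Sum.inl (Sum.inl i'))
      = ((D.z i).addF (D'.z i')).val χ l 0 + ((D.z i).addZ (D'.z i')).val χ l :=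
  (padd_reg χ (Nat.zero_le l) _ (FT.mapWt _ (D.z i).ft) _ _ (FT.mapWt _ (D'.z i').ft) _).trans
    (ZCell.add_val (D.z i) (D'.z i') χ l)

theorem pA_rr (m : ℕ) (hm : m ≤ l) (i : D.I) (i' : D'.I) :
    pA D D' χ l m m (Sum.inl (Sum.inr i)) (Sum.inl (Sum.inr i'))
      = ((D.r i).addF (D'.r i')).val χ l m + ((D.r i).addU (D'.r i')).val χ l m :=
  (padd_reg χ hm _ (FT.mapWt _ (D.r i).ft) _ _ (FT.mapWt _ (D'.r i').ft) _).trans
    (RCell.add_val (D.r i) (D'.r i') χ l m)

theorem add_per' (m : ℕ) (hm : m ≤ l) :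
    ∑ κ, D.γ l κ m * ∑ j', D'.T j' m * vL D D' χ l m κ j'
        + ∑ κ', D'.γ l κ' m * ∑ j, D.T j m * vL D' D χ l m κ' j
        + ∑ x, D.γ l (Sum.inl x) m * ∑ x', D'.γ l (Sum.inl x') m
          * pA D D' χ l m m (Sum.inl x) (Sum.inl x')
        - ∑ j, D.γ l (Sum.inr j) m * ∑ j', D'.γ l (Sum.inr j') m * vL D D' χ l m (Sum.inr j) j'
      = (∑ i, ∑ j', (if m = 0 then D.α i * D'.T j' 0 else 0)
            * ((D.z i).mulF (D'.fc j')).val χ l
          + (∑ i', ∑ j, (if m = 0 then D'.α i' * D.T j 0 else 0)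
            * ((D'.z i').mulF (D.fc j)).val χ l
          + ∑ i, ∑ i', (if m = 0 then D.α i * D'.α i' else 0)
            * ((D.z i).addZ (D'.z i')).val χ l))
        + (∑ i, ∑ j', (D.A i m * D'.T j' m) * ((D.r i).mulF (D'.fc j')).val χ l m
          + (∑ i', ∑ j, (D.T j m * D'.A i' m) * ((D'.r i').mulF (D.fc j)).val χ l m
          + ∑ i, ∑ i', (D.A i m * D'.A i' m) * ((D.r i).addU (D'.r i')).val χ l m))
        + (∑ j, ∑ j', (if m < l then D.C j m * D'.T j' m + (D.T j m - D.C j m) * D'.C j' m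
            else D.T j m * D'.T j' m) * ((D.fc j).mulF (D'.fc j')).val χ l m
          + (∑ i, ∑ i', (D.A i m * D'.A i' m) * ((D.r i).addF (D'.r i')).val χ l m
          + ∑ i, ∑ i', (if m = 0 then D.α i * D'.α i' else 0)
            * ((D.z i).addF (D'.z i')).val χ l m)) := by
  have t1 : ∑ κ, D.γ l κ m * ∑ j', D'.T j' m * vL D D' χ l m κ j'
      = ∑ i, ∑ j', (if m = 0 then D.α i * D'.T j' 0 else 0)
            * ((D.z i).mulF (D'.fc j')).val χ l
        + ∑ i, ∑ j', (D.A i m * D'.T j' m) * ((D.r i).mulF (D'.fc j')).val χ l m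
        + ∑ j, ∑ j', (D.γ l (Sum.inr j) m * D'.T j' m)
          * ((D.fc j).mulF (D'.fc j')).val χ l m := by
    refine (D.sum_K _).trans ?_
    congr 1
    · congr 1
      · refine Finset.sum_congr rfl fun i _ => ?_
        rcases Nat.eq_zero_or_pos m with h0 | h0
        · subst h0
          rw [Finset.mul_sum]
          refine Finset.sum_congr rfl fun j' _ => ?_
          rw [if_pos rfl, vL_z, mul_assoc]
          rfl
        · have h1 : D.γ l (Sum.inl (Sum.inl i)) m = 0 := if_neg (by omega)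
          rw [h1, zero_mul]
          symm
          refine Finset.sum_eq_zero fun j' _ => ?_
          rw [if_neg (by omega), zero_mul]
      · refine Finset.sum_congr rfl fun i _ => ?_
        rw [Finset.mul_sum]
        refine Finset.sum_congr rfl fun j' _ => ?_
        rw [vL_r, mul_assoc]
        rfl
    · refine Finset.sum_congr rfl fun j _ => ?_
      rw [Finset.mul_sum]
      refine Finset.sum_congr rfl fun j' _ => ?_
      rw [vL_f, mul_assoc]
  have t2 : ∑ κ', D'.γ l κ' m * ∑ j, D.T j m * vL D' D χ l m κ' j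
      = ∑ i', ∑ j, (if m = 0 then D'.α i' * D.T j 0 else 0)
            * ((D'.z i').mulF (D.fc j)).val χ l
        + ∑ i', ∑ j, (D.T j m * D'.A i' m) * ((D'.r i').mulF (D.fc j)).val χ l m
        + ∑ j, ∑ j', (D'.γ l (Sum.inr j') m * D.T j m)
          * ((D.fc j).mulF (D'.fc j')).val χ l m := by
    refine (D'.sum_K _).trans ?_
    congr 1
    · congr 1
      · refine Finset.sum_congr rfl fun i _ => ?_
        rcases Nat.eq_zero_or_pos m with h0 | h0
        · subst h0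
          rw [Finset.mul_sum]
          refine Finset.sum_congr rfl fun j' _ => ?_
          rw [if_pos rfl, vL_z, mul_assoc]
          rfl
        · have h1 : D'.γ l (Sum.inl (Sum.inl i)) m = 0 := if_neg (by omega)
          rw [h1, zero_mul]
          symm
          refine Finset.sum_eq_zero fun j' _ => ?_
          rw [if_neg (by omega), zero_mul]
      · refine Finset.sum_congr rfl fun i _ => ?_
        rw [Finset.mul_sum]
        refine Finset.sum_congr rfl fun j' _ => ?_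
        have h2 : D'.γ l (Sum.inl (Sum.inr i)) m = D'.A i m := rfl
        rw [vL_r, h2]
        ring
    · rw [Finset.sum_comm]
      refine Finset.sum_congr rfl fun j' _ => ?_
      rw [Finset.mul_sum]
      refine Finset.sum_congr rfl fun j _ => ?_
      rw [vL_swap D D' χ l m hm, vL_f, mul_assoc]
  have t3 : ∑ x, D.γ l (Sum.inl x) m * ∑ x', D'.γ l (Sum.inl x') m
          * pA D D' χ l m m (Sum.inl x) (Sum.inl x')
      = ∑ i, ∑ i', (if m = 0 then D.α i * D'.α i' else 0)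
            * (((D.z i).addF (D'.z i')).val χ l m + ((D.z i).addZ (D'.z i')).val χ l)
        + ∑ i, ∑ i', (D.A i m * D'.A i' m) * (((D.r i).addF (D'.r i')).val χ l m
            + ((D.r i).addU (D'.r i')).val χ l m) := by
    rw [Fintype.sum_sum_type]
    congr 1
    · refine Finset.sum_congr rfl fun i _ => ?_
      rcases Nat.eq_zero_or_pos m with h0 | h0
      · subst h0
        rw [Fintype.sum_sum_type]
        have h1 : ∑ i', D'.γ l (Sum.inl (Sum.inr i')) 0
            * pA D D' χ l 0 0 (Sum.inl (Sum.inl i)) (Sum.inl (Sum.inr i')) = 0 := by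
          refine Finset.sum_eq_zero fun i' _ => ?_
          have : D'.γ l (Sum.inl (Sum.inr i')) 0 = 0 := D'.A0 i'
          rw [this, zero_mul]
        rw [h1, add_zero, Finset.mul_sum]
        refine Finset.sum_congr rfl fun i' _ => ?_
        rw [pA_zz, if_pos rfl, mul_assoc]
        rfl
      · have h1 : D.γ l (Sum.inl (Sum.inl i)) m = 0 := if_neg (by omega)
        rw [h1, zero_mul]
        symm
        refine Finset.sum_eq_zero fun j' _ => ?_
        rw [if_neg (by omega), zero_mul]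
    · refine Finset.sum_congr rfl fun i _ => ?_
      rcases Nat.eq_zero_or_pos m with h0 | h0
      · subst h0
        have h1 : D.γ l (Sum.inl (Sum.inr i)) 0 = 0 := D.A0 i
        rw [h1, zero_mul]
        symm
        refine Finset.sum_eq_zero fun i' _ => ?_
        rw [D.A0 i, zero_mul, zero_mul]
      · rw [Fintype.sum_sum_type]
        have h1 : ∑ i', D'.γ l (Sum.inl (Sum.inl i')) m
            * pA D D' χ l m m (Sum.inl (Sum.inr i)) (Sum.inl (Sum.inl i')) = 0 := by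
          refine Finset.sum_eq_zero fun i' _ => ?_
          have : D'.γ l (Sum.inl (Sum.inl i')) m = 0 := if_neg (by omega)
          rw [this, zero_mul]
        rw [h1, zero_add, Finset.mul_sum]
        refine Finset.sum_congr rfl fun i' _ => ?_
        rw [pA_rr D D' χ l m hm, mul_assoc]
        rfl
  have t4 : ∑ j, D.γ l (Sum.inr j) m * ∑ j', D'.γ l (Sum.inr j') m
        * vL D D' χ l m (Sum.inr j) j'
      = ∑ j, ∑ j', (D.γ l (Sum.inr j) m * D'.γ l (Sum.inr j') m)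
          * ((D.fc j).mulF (D'.fc j')).val χ l m := by
    refine Finset.sum_congr rfl fun j _ => ?_
    rw [Finset.mul_sum]
    refine Finset.sum_congr rfl fun j' _ => ?_
    rw [vL_f, mul_assoc]
  have t5 : ∑ j, ∑ j', (if m < l then D.C j m * D'.T j' m + (D.T j m - D.C j m) * D'.C j' m
            else D.T j m * D'.T j' m) * ((D.fc j).mulF (D'.fc j')).val χ l m
      = ∑ j, ∑ j', (D.γ l (Sum.inr j) m * D'.T j' m)
          * ((D.fc j).mulF (D'.fc j')).val χ l m
        + ∑ j, ∑ j', (D'.γ l (Sum.inr j') m * D.T j m)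
          * ((D.fc j).mulF (D'.fc j')).val χ l m
        - ∑ j, ∑ j', (D.γ l (Sum.inr j) m * D'.γ l (Sum.inr j') m)
          * ((D.fc j).mulF (D'.fc j')).val χ l m := by
    simp only [← Finset.sum_add_distrib, ← Finset.sum_sub_distrib]
    refine Finset.sum_congr rfl fun j _ => Finset.sum_congr rfl fun j' _ => ?_
    rcases Nat.lt_or_ge m l with h0 | h0
    · rw [if_pos h0, D.γ_free_lt h0, D'.γ_free_lt h0]
      ring
    · obtain rfl : m = l := le_antisymm hm h0
      rw [if_neg (lt_irrefl _), D.γ_free_eq, D'.γ_free_eq]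
      ring
  rw [t1, t2, t3, t4, t5]
  simp only [mul_add, Finset.sum_add_distrib]
  ring

end add

theorem card_union [Finite σ] {s t : Set σ} (hst : Disjoint s t) :
    Nat.card ↑(s ∪ t) = Nat.card s + Nat.card t := by
  rw [Nat.card_coe_set_eq, Nat.card_coe_set_eq, Nat.card_coe_set_eq,
    Set.ncard_union_eq hst (Set.toFinite _) (Set.toFinite _)]

/-- decomposition of a sum -/
noncomputable def Dec.add [Finite σ] {g h : MvPolynomial σ k} {s t : Set σ} {S T : Set ℚ}
    (hst : Disjoint s t) (hg : DepOn g s) (hh : DepOn h t)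
    (D : Dec (k := k) L g s S) (D' : Dec (k := k) L h t T) :
    Dec (k := k) L (g + h) (s ∪ t) (addSlopes S T) where
  I0 := (D.I0 × D'.J) ⊕ ((D'.I0 × D.J) ⊕ (D.I0 × D'.I0))
  I := (D.I × D'.J) ⊕ ((D'.I × D.J) ⊕ (D.I × D'.I))
  J := (D.J × D'.J) ⊕ ((D.I × D'.I) ⊕ (D.I0 × D'.I0))
  z := Sum.elim (fun p => (D.z p.1).mulF (D'.fc p.2))
    (Sum.elim (fun p => (D'.z p.1).mulF (D.fc p.2)) (fun p => (D.z p.1).addZ (D'.z p.2)))
  α := Sum.elim (fun p => D.α p.1 * D'.T p.2 0)
    (Sum.elim (fun p => D'.α p.1 * D.T p.2 0) (fun p => D.α p.1 * D'.α p.2))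
  r := Sum.elim (fun p => (D.r p.1).mulF (D'.fc p.2))
    (Sum.elim (fun p => (D'.r p.1).mulF (D.fc p.2)) (fun p => (D.r p.1).addU (D'.r p.2)))
  A := Sum.elim (fun p m => D.A p.1 m * D'.T p.2 m)
    (Sum.elim (fun p m => D.T p.2 m * D'.A p.1 m) (fun p m => D.A p.1 m * D'.A p.2 m))
  A0 i := by
    rcases i with p | p | p
    · show D.A p.1 0 * D'.T p.2 0 = 0
      rw [D.A0, zero_mul]
    · show D.T p.2 0 * D'.A p.1 0 = 0
      rw [D'.A0, mul_zero]
    · show D.A p.1 0 * D'.A p.2 0 = 0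
      rw [D.A0, zero_mul]
  fc := Sum.elim (fun p => (D.fc p.1).mulF (D'.fc p.2))
    (Sum.elim (fun p => (D.r p.1).addF (D'.r p.2)) (fun p => (D.z p.1).addF (D'.z p.2)))
  C := Sum.elim (fun p m => D.C p.1 m * D'.T p.2 m + (D.T p.1 m - D.C p.1 m) * D'.C p.2 m)
    (Sum.elim (fun p m => D.A p.1 m * D'.A p.2 m)
      (fun p m => if m = 0 then D.α p.1 * D'.α p.2 else 0))
  T := Sum.elim (fun p m => D.T p.1 m * D'.T p.2 m)
    (Sum.elim (fun p m => D.A p.1 m * D'.A p.2 m)
      (fun p m => if m = 0 then D.α p.1 * D'.α p.2 else 0))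
  rA i := by
    rcases i with p | p | p
    · exact (D.rA p.1).hadamard (D'.rT p.2)
    · exact (D.rT p.2).hadamard (D'.rA p.1)
    · exact (D.rA p.1).hadamard (D'.rA p.2)
  rC j := by
    rcases j with p | p | p
    · exact ((D.rC p.1).hadamard (D'.rT p.2)).add
        (((D.rT p.1).sub (D.rC p.1)).hadamard (D'.rC p.2))
    · exact (D.rA p.1).hadamard (D'.rA p.2)
    · exact RP.single _ 0
  rT j := by
    rcases j with p | p | p
    · exact (D.rT p.1).hadamard (D'.rT p.2)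
    · exact (D.rA p.1).hadamard (D'.rA p.2)
    · exact RP.single _ 0
  main ω χ l := by
    have hG : FT (Jet h t l (ω : QZ)).F := FT.jet t (Set.toFinite t) l _
    rw [χ.iso (FT.jet (s ∪ t) (Set.toFinite _) l _) (jet_add_iso hst hg hh l (ω : QZ) hG),
      card_union hst]
    refine (Dec.pair (B := AddK (ω : QZ)) AddK_commB D D' χ l hG).trans ?_
    rw [uniform_sum]
    have e1 : ∑ m ∈ range (l + 1), ∑ κ, D.γ l κ m * ∑ m' ∈ range (l + 1), ∑ κ', D'.γ l κ' m'
        * PB (AddK (ω : QZ)) χ l (withU (D.cX ω κ m) (D.cU ω κ m))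
          (withU (D'.cX ω κ' m') (D'.cU ω κ' m')) (D'.cX_FT ω κ' m')
        = ∑ m ∈ range (l + 1), ∑ m' ∈ range (l + 1), ∑ κ, D.γ l κ m * ∑ κ', D'.γ l κ' m'
          * pA D D' χ l m m' κ κ' := by
      refine Finset.sum_congr rfl fun m _ => ?_
      rw [Finset.sum_comm]
      refine Finset.sum_congr rfl fun κ _ => ?_
      rw [Finset.mul_sum]
      rfl
    rw [e1, sum_tri]
    refine Finset.sum_congr rfl fun m hm => ?_
    have hm' : m ≤ l := by
      rw [Finset.mem_range] at hm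
      omega
    rw [add_per D D' χ l m hm', add_per' D D' χ l m hm']
    simp only [Fintype.sum_sum_type, Sum.elim_inl, Sum.elim_inr, Fintype.sum_prod_type]
    congr 1
    congr 1
    congr 1
    · refine Finset.sum_congr rfl fun i _ => Finset.sum_congr rfl fun i' _ => ?_
      rw [ite_self]
    · refine Finset.sum_congr rfl fun i _ => Finset.sum_congr rfl fun i' _ => ?_
      rw [ite_self]

end Pool.Agent.Helper6_Mono
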