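import Pool.Agent.Helper6_Mono.Dec

/-!
# Decompositions: variables, zero, scaling
-/

set_option autoImplicit false
set_option linter.unusedVariables false
set_option linter.unusedSectionVars false

namespace Pool.Agent.Helper6_Mono

open PowerSeries Finset

variable {k : Type} [Field k] {σ : Type} {R : Type*} [CommRing R] {L : Rˣ}

theorem NF.ext' {W : Type} [AddCommGroup W] {F : GF k W} {w : W} {g h : NF F w}
    (H : ∀ (S : Type) [CommRing S] [Algebra k S] (x : F.obj S), g.fn x = h.fn x) : g = h := by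
  obtain ⟨g, hg⟩ := g
  obtain ⟨h, hh⟩ := h
  congr 1
  funext S _ _ x
  exact H S x

/-! ### Scaling -/

theorem jet_smul_iso {W : Type} [AddCommGroup W] (g : MvPolynomial σ k) (s : Set σ) (l : ℕ)
    (ω : W) (a : k) :
    OIso (Jet (MvPolynomial.C a * g) s l ω) ((ScaleK σ ω a).app (Jet g s l ω)) := by
  refine OIso.mk' (fun S _ _ p => ⟨(p, ()), fun a => a.elim⟩) (fun S _ _ q => q.1.1)
    (fun S _ _ p => rfl) (fun S _ _ q => rfl) (fun φ c p => rfl) (fun S _ _ p b => ?_)
  cases b with
  | inl i => rfl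
  | inr j =>
    show algebraMap k S a * (if j ≤ l then coeff j (MvPolynomial.aeval p.1 g) else 0)
      = if j ≤ l then coeff j (MvPolynomial.aeval p.1 (MvPolynomial.C a * g)) else 0
    split_ifs
    · rw [map_mul (MvPolynomial.aeval p.1), MvPolynomial.algHom_C, PowerSeries.algebraMap_apply,
        coeff_C_mul]
    · rw [mul_zero]

/-- scaling a cell of order zero -/
@[reducible] def ZCell.smul (c : ZCell k σ) (a : k) (ha : a ≠ 0) : ZCell k σ where
  Y := c.Y
  ft := c.ft
  u := c.u.smulk a
  hu S _ _ x := ((isUnit_iff_ne_zero.2 ha).map (algebraMap k S)).mul (c.hu S x)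

/-- scaling a regular cell -/
@[reducible] def RCell.smul (c : RCell k σ) (a : k) (ha : a ≠ 0) : RCell k σ where
  Y := c.Y
  ft := c.ft
  e := c.e
  he := c.he
  u := c.u.smulk a
  hu S _ _ x := ((isUnit_iff_ne_zero.2 ha).map (algebraMap k S)).mul (c.hu S x)
  v := c.v
  hv := c.hv

/-- decomposition of `a * g` -/
noncomputable def Dec.smul [Finite σ] {g : MvPolynomial σ k} {s : Set σ} {S : Set ℚ}
    (D : Dec (k := k) L g s S) (a : k) (ha : a ≠ 0) : Dec (k := k) L (MvPolynomial.C a * g) s S where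
  I0 := D.I0
  I := D.I
  J := D.J
  z i := (D.z i).smul a ha
  α := D.α
  r i := (D.r i).smul a ha
  A := D.A
  A0 := D.A0
  fc := D.fc
  C := D.C
  T := D.T
  rA := D.rA
  rC := D.rC
  rT := D.rT
  main ω χ l := by
    rw [χ.iso (FT.jet s (Set.toFinite s) l _) (jet_smul_iso g s l (ω : QZ) a)]
    have h := D.main ω (χ.comp (ScaleK σ (ω : QZ) a)) l
    refine h.trans ?_
    have hf : ∀ (j : D.J) (m : ℕ), (D.fc j).val (χ.comp (ScaleK σ (ω : QZ) a)) l m
        = (D.fc j).val χ l m := by
      intro j m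
      refine (cell_scale χ a ha (X := withU (triv (D.fc j).Y) (NF.zero _ _))
        (FT.mapWt 0 (D.fc j).ft)).trans ?_
      show (χ.cell l m).χ (withU (triv (D.fc j).Y) ((NF.zero _ _).smulk a)) = _
      have e : (NF.zero (triv (D.fc j).Y).F (m • (ω : QZ))).smulk a = NF.zero _ _ :=
        NF.ext' fun S _ _ x => mul_zero _
      rw [e]
    congr 1
    · congr 1
      · congr 1
        · refine Finset.sum_congr rfl fun i _ => congrArg (D.α i * ·) ?_
          exact cell_scale χ a ha (X := withU (triv (D.z i).Y) ((D.z i).un (ω : QZ)))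
            (FT.mapWt 0 (D.z i).ft)
        · refine Finset.sum_congr rfl fun m hm => Finset.sum_congr rfl fun i _ =>
            congrArg (D.A i m * ·) ?_
          exact cell_scale χ a ha (X := withU (twq (D.r i).Y _) ((D.r i).un ω m))
            (FT.mapWt _ (D.r i).ft)
      · refine Finset.sum_congr rfl fun m hm => Finset.sum_congr rfl fun j _ => ?_
        rw [hf]
    · refine Finset.sum_congr rfl fun j _ => ?_
      rw [hf]

/-! ### The zero polynomial -/

open scoped Classical in
/-- affine space with coordinates in the set `s` -/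
@[reducible] noncomputable def affS (k : Type) [Field k] (s : Set σ) : OverS k σ ℤ where
  F := GF.lines k s 0
  pt i := ⟨fun {S} _ _ x => if h : i ∈ s then x ⟨i, h⟩ else 0,
    fun {S S'} _ _ _ _ φ c x => by
      show (if h : i ∈ s then chr c 0 * φ (x ⟨i, h⟩) else 0) = chr c 0 * φ (if h : i ∈ s then
        x ⟨i, h⟩ else 0)
      split_ifs
      · rfl
      · rw [map_zero, mul_zero]⟩

theorem jet_zero_iso (s : Set σ) (l : ℕ) (ω : QZ) :
    OIso (Jet (0 : MvPolynomial σ k) s (l + 1) ω)
      ((Jet (0 : MvPolynomial σ k) s l ω).times (GF.lines k s ((l + 1) • ω))) := by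
  refine ⟨jetSucc s l ω, fun S _ _ x b => ?_⟩
  cases b with
  | inl i =>
    show coeff 0 (lowS l (x.1 i)) = coeff 0 (x.1 i)
    rw [coeff_lowS, if_pos (Nat.zero_le _)]
  | inr j =>
    show (if j ≤ l then coeff j (MvPolynomial.aeval _ (0 : MvPolynomial σ k)) else 0)
      = if j ≤ l + 1 then coeff j (MvPolynomial.aeval x.1 (0 : MvPolynomial σ k)) else 0
    simp only [map_zero, ite_self]

open scoped Classical in
theorem jet_zero_zero_iso (s : Set σ) (l : ℕ) (ω : QZ) :
    OIso (Jet (0 : MvPolynomial σ k) s 0 ω)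
      ((GenK k σ ω l 0).app (withU (triv (affS k s)) (NF.zero _ (l • ω)))) := by
  refine OIso.mk' (fun S _ _ p => ⟨((jetZero s ω).eq S p, ⟨0, fun j _ => map_zero _⟩),
      fun a => by
        show coeff 0 (0 : S⟦X⟧) - 0 = 0
        rw [map_zero, sub_zero]⟩)
    (fun S _ _ q => ((jetZero s ω).eq S).symm q.1.1) ?_ ?_ ?_ ?_
  · intro S _ _ p
    exact ((jetZero s ω).eq S).symm_apply_apply p
  · intro S _ _ q
    refine Subtype.ext (Prod.ext (((jetZero s ω).eq S).apply_symm_apply q.1.1) (Subtype.ext ?_))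
    show (0 : S⟦X⟧) = q.1.2.1
    ext j
    have h0 : coeff 0 q.1.2.1 = 0 := sub_eq_zero.1 (q.2 ())
    rcases Nat.eq_zero_or_pos j with h | h
    · rw [h, h0, map_zero]
    · rw [q.1.2.2 j (by omega), map_zero]
  · intro S S' _ _ _ _ φ c p
    refine Subtype.ext (Prod.ext ?_ (Subtype.ext ?_))
    · funext i
      show coeff 0 (twS ω φ c (p.1 i)) = chr (c.pull (0 : ℤ →+ QZ)) 0 * φ (coeff 0 (p.1 i))
      rw [coeff_twS, zero_smul, chr_zero, chr_zero]
    · show (0 : S'⟦X⟧) = C (chr c (l • ω)) * twS ω φ c 0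
      rw [map_zero, mul_zero]
  · intro S _ _ p b
    cases b with
    | inl i =>
      show (if h : i ∈ s then coeff 0 (p.1 i) else 0) = coeff 0 (p.1 i)
      split_ifs with h
      · rfl
      · rw [p.2 i 0 (Or.inl h)]
    | inr j =>
      show coeff j (PowerSeries.X ^ l * (0 : S⟦X⟧))
        = if j ≤ 0 then coeff j (MvPolynomial.aeval p.1 (0 : MvPolynomial σ k)) else 0
      rw [mul_zero, map_zero, map_zero, map_zero, ite_self]

theorem jet_zero_class [Finite σ] {ω : QZ} (χ : SInv k (wser σ ω) L) (s : Set σ) (l : ℕ) :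
    Li L ^ (Nat.card s * l) * χ.χ (Jet (0 : MvPolynomial σ k) s l ω)
      = χ.χ (Jet (0 : MvPolynomial σ k) s 0 ω) := by
  induction l with
  | zero => rw [mul_zero, pow_zero, one_mul]
  | succ l ih =>
    rw [χ.iso (FT.jet s (Set.toFinite s) _ _) (jet_zero_iso s l ω),
      χ.times_lines (FT.jet s (Set.toFinite s) l ω), mul_add, mul_one, pow_add, ← ih]
    calc _ = (Li L ^ (Nat.card s) * (L : R) ^ (Nat.card s))
          * (Li L ^ (Nat.card s * l) * χ.χ (Jet (0 : MvPolynomial σ k) s l ω)) := by ring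
      _ = _ := by rw [Li_pow_mul, one_mul]

/-- decomposition of the zero polynomial -/
noncomputable def Dec.zero (k : Type) [Field k] [Finite σ] (L : Rˣ) (s : Set σ) :
    Dec (k := k) L 0 s {0} where
  I0 := Empty
  I := Empty
  J := Unit
  z i := i.elim
  α i := i.elim
  r i := i.elim
  A i := i.elim
  A0 i := i.elim
  fc _ := ⟨affS k s, FT.lines _ _⟩
  C _ _ := 0
  T _ _ := 1
  rA i := i.elim
  rC _ := RP.zero
  rT _ := RP.const 1
  main ω χ l := by
    rw [jet_zero_class, χ.iso (FT.jet s (Set.toFinite s) _ _) (jet_zero_zero_iso s l (ω : QZ))]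
    simp only [Finset.univ_eq_empty, Finset.sum_empty, Finset.sum_const_zero, zero_add, zero_mul,
      Finset.univ_unique, Finset.sum_const, Finset.card_singleton, one_smul, one_mul]
    show _ = Li L ^ (l - l) * χ.χ ((GenK k σ (ω : QZ) l (l - l)).app _)
    rw [Nat.sub_self, pow_zero, one_mul]

/-! ### Variables -/

open scoped Classical in
/-- the coordinate line -/
@[reducible] noncomputable def lineS (k : Type) [Field k] (i : σ) : OverS k σ QZ where
  F := GF.line k 0
  pt j := ⟨fun {S} _ _ x => if j = i then x else 0, fun {S S'} _ _ _ _ φ c x => by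
      show (if j = i then chr c 0 * φ x else 0) = chr c 0 * φ (if j = i then x else 0)
      split_ifs
      · rfl
      · rw [map_zero, mul_zero]⟩

open scoped Classical in
/-- the punctured coordinate line -/
@[reducible] noncomputable def gmS (k : Type) [Field k] (i : σ) : ZCell k σ where
  Y :=
    { F := GF.gm k 0
      pt := fun j => ⟨fun {S} _ _ x => if j = i then x.1 else 0, fun {S S'} _ _ _ _ φ c x => by
        show (if j = i then chr c 0 * φ x.1 else 0) = chr c 0 * φ (if j = i then x.1 else 0)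
        split_ifs
        · rfl
        · rw [map_zero, mul_zero]⟩ }
  ft := FT.gm 0
  u := ⟨fun x => x.1, fun φ c x => rfl⟩
  hu S _ _ x := x.2

/-- the origin -/
@[reducible] noncomputable def ptS (k : Type) [Field k] (σ : Type) : FCell k σ where
  Y :=
    { F := GF.one k ℤ
      pt := fun j => NF.zero _ _ }
  ft := FT.one

open scoped Classical in
theorem jet_X_iso (i : σ) (l : ℕ) (ω : QZ) :
    OIso (Jet (MvPolynomial.X i : MvPolynomial σ k) {i} l ω)
      ((GenK k σ ω 0 l).app (withU (lineS k i) (w := 0 • ω)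
        ⟨fun x => x, fun φ c x => by rw [zero_smul]⟩)) := by
  refine OIso.mk' (fun S _ _ p => ⟨(coeff 0 (p.1 i), ⟨p.1 i, fun j hj =>
      p.2 i j (Or.inr (by omega))⟩), fun a => sub_self _⟩)
    (fun S _ _ q => ⟨fun j => if j = i then q.1.2.1 else 0, fun j n hn => ?_⟩) ?_ ?_ ?_ ?_
  · show coeff n (if j = i then q.1.2.1 else 0) = 0
    split_ifs with h
    · exact q.1.2.2 n (Or.inr (by
        rcases hn with hn | hn
        · exact absurd h hn
        · omega))
    · rw [map_zero]
  · intro S _ _ p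
    refine Subtype.ext (funext fun j => ?_)
    show (if j = i then p.1 i else 0) = p.1 j
    split_ifs with h
    · rw [h]
    · ext n
      rw [p.2 j n (Or.inl h), map_zero]
  · intro S _ _ q
    have h0 : coeff 0 q.1.2.1 = q.1.1 := sub_eq_zero.1 (q.2 ())
    refine Subtype.ext (Prod.ext ?_ (Subtype.ext ?_))
    · show coeff 0 (if i = i then q.1.2.1 else 0) = q.1.1
      rw [if_pos rfl, h0]
    · show (if i = i then q.1.2.1 else 0) = q.1.2.1
      rw [if_pos rfl]
  · intro S S' _ _ _ _ φ c p
    refine Subtype.ext (Prod.ext ?_ (Subtype.ext ?_))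
    · show coeff 0 (twS ω φ c (p.1 i)) = chr c 0 * φ (coeff 0 (p.1 i))
      rw [coeff_twS, zero_smul]
    · show twS ω φ c (p.1 i) = C (chr c (0 • ω)) * twS ω φ c (p.1 i)
      rw [zero_smul, chr_zero, map_one, one_mul]
  · intro S _ _ p b
    cases b with
    | inl j =>
      show (if j = i then coeff 0 (p.1 i) else 0) = coeff 0 (p.1 j)
      split_ifs with h
      · rw [h]
      · rw [p.2 j 0 (Or.inl h)]
    | inr j =>
      show coeff j (PowerSeries.X ^ 0 * p.1 i)
        = if j ≤ l then coeff j (MvPolynomial.aeval p.1 (MvPolynomial.X i)) else 0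
      rw [pow_zero, one_mul, MvPolynomial.aeval_X]
      split_ifs with h
      · rfl
      · rw [p.2 i j (Or.inr (by omega))]

open scoped Classical in
theorem line_class {w : QZ} (hw : w = 0) (θ : SInv k (wopt σ w) L) (i : σ) :
    θ.χ (withU (lineS k i) (w := w) ⟨fun x => x, fun φ c x => by rw [hw]⟩)
      = θ.χ (withU (triv (gmS k i).Y) (((gmS k i).u.mapWt 0).cast (by rw [hw]; simp)))
        + θ.χ (withU (triv (ptS k σ).Y) (NF.zero _ w)) := by
  subst hw
  have hX : FT (withU (lineS k i) (w := (0 : QZ)) ⟨fun x => x, fun φ c x => rfl⟩).F := FT.line 0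
  have h := θ.scissor hX (w := 0) ⟨fun x => x, fun φ c x => rfl⟩
  have h1 : OIso ((withU (lineS k i) (w := (0 : QZ)) ⟨fun x => x, fun φ c x => rfl⟩).unit
      (w := 0) ⟨fun x => x, fun φ c x => rfl⟩)
      (withU (triv (gmS k i).Y) (((gmS k i).u.mapWt 0).cast (by simp))) := by
    refine OIso.mk' (fun S _ _ p => ⟨p.1, p.2⟩) (fun S _ _ p => ⟨p.1, p.2⟩)
      (fun S _ _ p => rfl) (fun S _ _ p => rfl) (fun {S S'} _ _ _ _ φ c p => ?_)
      (fun S _ _ p b => ?_)
    · apply Subtype.ext
      show chr c 0 * φ p.1 = chr (c.pull 0) 0 * φ p.1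
      rw [chr_zero, chr_zero]
    · cases b <;> rfl
  have h2 : OIso ((withU (lineS k i) (w := (0 : QZ)) ⟨fun x => x, fun φ c x => rfl⟩).zero
      (w := 0) ⟨fun x => x, fun φ c x => rfl⟩)
      (withU (triv (ptS k σ).Y) (NF.zero _ (0 : QZ))) := by
    refine OIso.mk' (fun S _ _ p => ()) (fun S _ _ p => ⟨0, rfl⟩)
      (fun S _ _ p => Subtype.ext p.2.symm) (fun S _ _ p => rfl) (fun φ c p => rfl)
      (fun S _ _ p b => ?_)
    cases b with
    | none => exact p.2.symm
    | some j =>
      show (0 : S) = if j = i then p.1 else 0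
      have hp : p.1 = 0 := p.2
      rw [hp, ite_self]
  rw [θ.iso (FT.unit' hX _) h1, θ.iso (FT.zero hX _) h2] at h
  rw [h, add_comm]

/-- decomposition of a variable -/
noncomputable def Dec.var (k : Type) [Field k] [Finite σ] (L : Rˣ) (i : σ) :
    Dec (k := k) L (MvPolynomial.X i) {i} ∅ where
  I0 := Unit
  I := Empty
  J := Unit
  z _ := gmS k i
  α _ := 1
  r i := i.elim
  A i := i.elim
  A0 i := i.elim
  fc _ := ptS k σ
  C _ m := if m = 0 then 1 else 0
  T _ m := if m = 0 then 1 else 0
  rA i := i.elim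
  rC _ := RP.single 1 0
  rT _ := RP.single 1 0
  main ω χ l := by
    rw [χ.iso (FT.jet {i} (Set.toFinite _) _ _) (jet_X_iso i l (ω : QZ))]
    have h := line_class (σ := σ) (w := 0 • (ω : QZ)) (zero_smul _ _) (χ.cell l 0) i
    have e : Li L ^ (Nat.card ({i} : Set σ) * l) * χ.χ ((GenK k σ (ω : QZ) 0 l).app
        (withU (lineS k i) (w := 0 • (ω : QZ)) ⟨fun x => x, fun φ c x => by rw [zero_smul]⟩))
        = (χ.cell l 0).χ (withU (lineS k i) (w := 0 • (ω : QZ))
          ⟨fun x => x, fun φ c x => by rw [zero_smul]⟩) := by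
      show _ = Li L ^ (l - 0) * χ.χ ((GenK k σ (ω : QZ) 0 (l - 0)).app _)
      rw [Nat.sub_zero, Nat.card_coe_set_eq, Set.ncard_singleton, one_mul]
    rw [e, h]
    simp only [Finset.univ_eq_empty, Finset.sum_empty, Finset.sum_const_zero, add_zero,
      Finset.univ_unique, Finset.sum_const, Finset.card_singleton, one_smul, one_mul]
    rcases Nat.eq_zero_or_pos l with hl | hl
    · subst hl
      rw [Finset.sum_range_zero, if_pos rfl, one_mul, add_zero]
    · rw [if_neg (by omega : ¬ l = 0), zero_mul, add_zero, Finset.sum_eq_single 0]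
      · rw [if_pos rfl, one_mul]
      · intro m _ hm
        rw [if_neg hm, zero_mul]
      · intro hm
        exact absurd (Finset.mem_range.2 hl) hm

end Pool.Agent.Helper6_Mono
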