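import Pool.Agent.Helper6_Mono.MulCells

/-!
# Decompositions: products
-/

set_option autoImplicit false
set_option linter.unusedVariables false
set_option linter.unusedSectionVars false

namespace Pool.Agent.Helper6_Mono

open PowerSeries Finset

variable {k : Type} [Field k] {σ : Type} {R : Type*} [CommRing R] {L : Rˣ}

section sums

/-- the Cauchy product -/
def cau (a b : ℕ → R) (M : ℕ) : R := ∑ p ∈ Finset.HasAntidiagonal.antidiagonal M, a p.1 * b p.2

theorem cau_RP {S T : Set ℚ} {a b : ℕ → R} (ha : RP L (steps S) a) (hb : RP L (steps T) b) :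
    RP L (steps (S ∪ T)) (cau a b) := ha.cauchy hb

theorem tri_sum (f : ℕ → ℕ → R) (n : ℕ) :
    ∑ m ∈ range n, ∑ m' ∈ range (n - m), f m m'
      = ∑ M ∈ range n, ∑ p ∈ Finset.HasAntidiagonal.antidiagonal M, f p.1 p.2 := by
  induction n with
  | zero => simp
  | succ n ih =>
    rw [Finset.sum_range_succ (fun M => ∑ p ∈ Finset.HasAntidiagonal.antidiagonal M, f p.1 p.2),
      ← ih, Finset.Nat.sum_antidiagonal_eq_sum_range_succ f]
    have e1 : ∀ m ∈ range (n + 1), ∑ m' ∈ range (n + 1 - m), f m m'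
        = ∑ m' ∈ range (n - m), f m m' + f m (n - m) := by
      intro m hm
      rw [Finset.mem_range] at hm
      rw [show n + 1 - m = (n - m) + 1 by omega, Finset.sum_range_succ]
    rw [Finset.sum_congr rfl e1, Finset.sum_add_distrib,
      Finset.sum_range_succ (fun m => ∑ m' ∈ range (n - m), f m m'), Nat.sub_self,
      Finset.sum_range_zero, add_zero]

/-- double sums over two families of sequences -/
theorem blk {X Y : Type} [Fintype X] [Fintype Y] (n : ℕ) (a : X → ℕ → R) (b : Y → ℕ → R)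
    (v : X → Y → ℕ → ℕ → R) (w : X → Y → ℕ → R)
    (hv : ∀ x y m m', a x m * b y m' * v x y m m' = a x m * b y m' * w x y (m + m')) :
    ∑ m ∈ range n, ∑ x, a x m * ∑ m' ∈ range (n - m), ∑ y, b y m' * v x y m m'
      = ∑ M ∈ range n, ∑ x, ∑ y, cau (a x) (b y) M * w x y M := by
  have e1 : ∀ m ∈ range n, ∑ x, a x m * ∑ m' ∈ range (n - m), ∑ y, b y m' * v x y m m'
      = ∑ m' ∈ range (n - m), ∑ x, ∑ y, a x m * b y m' * v x y m m' := by
    intro m _
    rw [Finset.sum_comm]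
    refine Finset.sum_congr rfl fun x _ => ?_
    rw [Finset.mul_sum]
    refine Finset.sum_congr rfl fun m' _ => ?_
    rw [Finset.mul_sum]
    exact Finset.sum_congr rfl fun y _ => by ring
  rw [Finset.sum_congr rfl e1, tri_sum (fun m m' => ∑ x, ∑ y, a x m * b y m' * v x y m m')]
  refine Finset.sum_congr rfl fun M _ => ?_
  rw [Finset.sum_comm]
  refine Finset.sum_congr rfl fun x _ => ?_
  rw [Finset.sum_comm]
  refine Finset.sum_congr rfl fun y _ => ?_
  rw [cau, Finset.sum_mul]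
  refine Finset.sum_congr rfl fun p hp => ?_
  rw [Finset.HasAntidiagonal.mem_antidiagonal] at hp
  rw [hv, hp]

theorem blk_last {X Y : Type} [Fintype X] [Fintype Y] (l : ℕ) (a : X → ℕ → R) (b : Y → ℕ → R)
    (w : X → Y → R) :
    ∑ m ∈ range (l + 1), ∑ x, a x m * ∑ y, b y (l - m) * w x y
      = ∑ x, ∑ y, cau (a x) (b y) l * w x y := by
  rw [Finset.sum_comm]
  refine Finset.sum_congr rfl fun x _ => ?_
  have e1 : ∀ m ∈ range (l + 1), a x m * ∑ y, b y (l - m) * w x y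
      = ∑ y, a x m * b y (l - m) * w x y := by
    intro m _
    rw [Finset.mul_sum]
    exact Finset.sum_congr rfl fun y _ => by ring
  rw [Finset.sum_congr rfl e1, Finset.sum_comm]
  refine Finset.sum_congr rfl fun y _ => ?_
  rw [cau, Finset.Nat.sum_antidiagonal_eq_sum_range_succ (fun i j => a x i * b y j),
    Finset.sum_mul]

/-- the last free coefficients of a product -/
theorem blk_conv {X Y : Type} [Fintype X] [Fintype Y] (l : ℕ) (c : X → ℕ → R) (c' : Y → ℕ → R)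
    (w : X → Y → ℕ → R) :
    ∑ m ∈ range l, ∑ x, c x m * ∑ a ∈ range (l - 1 - m), Li L ^ (a + 1)
        * ∑ m' ∈ range (l - 1 - m - a), ∑ y, c' y m' * w x y (m + 1 + a + m')
      = ∑ M ∈ range l, ∑ x, ∑ y, cau (conv L (c x)) (c' y) M * w x y M := by
  rw [← blk l (fun x => conv L (c x)) c' (fun x y m m' => w x y (m + m')) w
    (fun _ _ _ _ => rfl)]
  rcases Nat.eq_zero_or_pos l with h0 | h0
  · subst h0
    simp
  obtain ⟨q, rfl⟩ : ∃ q, l = q + 1 := ⟨l - 1, by omega⟩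
  rw [Finset.sum_comm, Finset.sum_comm (s := range (q + 1))]
  refine Finset.sum_congr rfl fun x _ => ?_
  rw [← conv_swap (show q ≤ q + 1 by omega) (c x)
    (fun a => ∑ m' ∈ range (q + 1 - a), ∑ y, c' y m' * w x y (a + m'))]
  refine Finset.sum_congr rfl fun m hm => ?_
  rw [Finset.mem_range] at hm
  congr 1
  refine Finset.sum_nbij' (fun a => m + 1 + a) (fun a => a - (m + 1)) ?_ ?_ ?_ ?_ ?_
  · intro a ha
    rw [Finset.mem_range] at ha
    rw [Finset.mem_Ioc]
    omega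
  · intro a ha
    rw [Finset.mem_Ioc] at ha
    rw [Finset.mem_range]
    omega
  · intro a _
    show m + 1 + a - (m + 1) = a
    omega
  · intro a ha
    rw [Finset.mem_Ioc] at ha
    show m + 1 + (a - (m + 1)) = a
    omega
  · intro a ha
    rw [Finset.mem_range] at ha
    show Li L ^ (a + 1) * ∑ m' ∈ range (q + 1 - 1 - m - a), ∑ y, c' y m' * w x y (m + 1 + a + m')
      = Li L ^ (m + 1 + a - m) * ∑ m' ∈ range (q + 1 - (m + 1 + a)), ∑ y, c' y m'
        * w x y (m + 1 + a + m')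
    rw [show m + 1 + a - m = a + 1 by omega,
      show q + 1 - 1 - m - a = q + 1 - (m + 1 + a) by omega]

/-- the last coefficients -/
def tl (c : ℕ → R) (t' c' : ℕ → R) (L : Rˣ) (l : ℕ) : R :=
  ∑ m ∈ range l, c m * (t' (l - 1 - m) + conv L c' (l - 1 - m))

theorem tl_RP {S T : Set ℚ} {c t' c' : ℕ → R} (hc : RP L (steps S) c) (ht : RP L (steps T) t')
    (hc' : RP L (steps T) c') : RP L (steps (S ∪ (T ∪ {1}))) (tl c t' c' L) := by
  refine RP.of_shift 1 ((hc.cauchy ((ht.mono ?_).add (conv_RP hc'))).congr fun m => ?_)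
  · intro p hp
    exact ⟨hp.1, Or.inl hp.2⟩
  · rw [Finset.Nat.sum_antidiagonal_eq_sum_range_succ (fun i j => c i * (t' j + conv L c' j)), tl]
    refine Finset.sum_congr rfl fun i _ => ?_
    rw [Nat.add_sub_cancel]

theorem blk_tl {X Y : Type} [Fintype X] [Fintype Y] (l : ℕ) (c : X → ℕ → R) (t' c' : Y → ℕ → R)
    (w : X → Y → R) :
    ∑ m ∈ range l, ∑ x, c x m * (∑ y, t' y (l - 1 - m) * w x y
        + ∑ m' ∈ range (l - 1 - m), Li L ^ (l - 1 - m - m') * ∑ y, c' y m' * w x y)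
      = ∑ x, ∑ y, tl (c x) (t' y) (c' y) L l * w x y := by
  rw [Finset.sum_comm]
  refine Finset.sum_congr rfl fun x _ => ?_
  have e1 : ∀ m ∈ range l, c x m * (∑ y, t' y (l - 1 - m) * w x y
        + ∑ m' ∈ range (l - 1 - m), Li L ^ (l - 1 - m - m') * ∑ y, c' y m' * w x y)
      = ∑ y, c x m * (t' y (l - 1 - m) + conv L (c' y) (l - 1 - m)) * w x y := by
    intro m _
    have e2 : ∑ m' ∈ range (l - 1 - m), Li L ^ (l - 1 - m - m') * ∑ y, c' y m' * w x y
        = ∑ y, conv L (c' y) (l - 1 - m) * w x y := by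
      simp only [Finset.mul_sum, conv, Finset.sum_mul]
      rw [Finset.sum_comm]
      exact Finset.sum_congr rfl fun _ _ => Finset.sum_congr rfl fun _ _ => by ring
    rw [e2, ← Finset.sum_add_distrib, Finset.mul_sum]
    exact Finset.sum_congr rfl fun y _ => by ring
  rw [Finset.sum_congr rfl e1, Finset.sum_comm]
  refine Finset.sum_congr rfl fun y _ => ?_
  rw [tl, Finset.sum_mul]

end sums

section mul

/-- an invertible cell without its leading coefficient -/
@[reducible] def Dec.xF {g : MvPolynomial σ k} {s : Set σ} {S : Set ℚ}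
    (D : Dec (k := k) L g s S) (x : D.I0 ⊕ D.I) : FCell k σ :=
  match x with
  | Sum.inl i => ⟨(D.z i).Y, (D.z i).ft⟩
  | Sum.inr i => ⟨(D.r i).Y, (D.r i).ft⟩

variable [Finite σ] {g h : MvPolynomial σ k} {s t : Set σ} {S T : Set ℚ}
  (D : Dec (k := k) L g s S) (D' : Dec (k := k) L h t T) {ω : ℚ}
  (χ : SInv k (wser σ (ω : QZ)) L) (l : ℕ)

theorem xF_shift (ψ : SInv k (fun _ : σ => (0 : QZ)) L) (x : D.I0 ⊕ D.I) (m : ℕ) :
    ψ.χ (D.cX ω (Sum.inl x) m) = ψ.χ (triv (D.xF x).Y) := by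
  rcases x with i | i
  · rfl
  · exact RCell.shift ψ (D.r i) _

theorem psi_F (F G : FCell k σ) (M : ℕ) :
    (psi χ l (triv F.Y) (FT.mapWt _ F.ft) M).χ (triv G.Y) = (F.mulF G).val χ l M :=
  psi_val χ l _ _ M (FT.mapWt _ G.ft)

theorem psi_x (x : D.I0 ⊕ D.I) (m M : ℕ) (G : FCell k σ) :
    (psi χ l (D.cX ω (Sum.inl x) m) (D.cX_FT ω _ m) M).χ (triv G.Y)
      = ((D.xF x).mulF G).val χ l M := by
  rw [psi_comm χ l _ _ M (FT.mapWt _ G.ft), xF_shift, psi_comm χ l _ _ M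
    (FT.mapWt _ (D.xF x).ft), psi_F]

theorem cs_x (x : D.I0 ⊕ D.I) (m M m' : ℕ) :
    D'.cs (psi χ l (D.cX ω (Sum.inl x) m) (D.cX_FT ω _ m) M) m'
      = ∑ j', D'.C j' m' * ((D.xF x).mulF (D'.fc j')).val χ l M :=
  Finset.sum_congr rfl fun j' _ => by rw [psi_x]

theorem ts_x (x : D.I0 ⊕ D.I) (m M m' : ℕ) :
    D'.ts (psi χ l (D.cX ω (Sum.inl x) m) (D.cX_FT ω _ m) M) m'
      = ∑ j', D'.T j' m' * ((D.xF x).mulF (D'.fc j')).val χ l M :=
  Finset.sum_congr rfl fun j' _ => by rw [psi_x]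

theorem cs_F (F : FCell k σ) (M m' : ℕ) :
    D'.cs (psi χ l (triv F.Y) (FT.mapWt _ F.ft) M) m'
      = ∑ j', D'.C j' m' * (F.mulF (D'.fc j')).val χ l M :=
  Finset.sum_congr rfl fun j' _ => by rw [psi_F]

theorem ts_F (F : FCell k σ) (M m' : ℕ) :
    D'.ts (psi χ l (triv F.Y) (FT.mapWt _ F.ft) M) m'
      = ∑ j', D'.T j' m' * (F.mulF (D'.fc j')).val χ l M :=
  Finset.sum_congr rfl fun j' _ => by rw [psi_F]

theorem rs_F (F : FCell k σ) (M m' : ℕ) :
    D'.rs (psi χ l (triv F.Y) (FT.mapWt _ F.ft) M) m'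
      = ∑ x', D'.ρ x' m' * (F.mulF (D'.xF x')).val χ l M := by
  rw [D'.rs_eq (ω := ω)]
  exact Finset.sum_congr rfl fun x' _ => by rw [xF_shift, psi_F]

/-- the product of two invertible cells -/
noncomputable def wR : D.I0 ⊕ D.I → D'.I0 ⊕ D'.I → ℕ → R
  | Sum.inl i, Sum.inl i', _ => ((D.z i).mulZ (D'.z i')).val χ l
  | Sum.inl i, Sum.inr i', M => ((D'.r i').mulX (D.z i).Y (D.z i).ft (D.z i).u (D.z i).hu).val χ l M
  | Sum.inr i, Sum.inl i', M =>
      ((D.r i).mulX (D'.z i').Y (D'.z i').ft (D'.z i').u (D'.z i').hu).val χ l M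
  | Sum.inr i, Sum.inr i', M =>
      ((D.r i).mulX (D'.r i').Y (D'.r i').ft (D'.r i').u (D'.r i').hu).val χ l M

theorem vR_eq (x : D.I0 ⊕ D.I) (x' : D'.I0 ⊕ D'.I) (m m' : ℕ) :
    D.ρ x m * D'.ρ x' m' * vR D' χ l (D.cX ω (Sum.inl x) m) m (D.cU ω (Sum.inl x) m) m' x'
      = D.ρ x m * D'.ρ x' m' * wR D D' χ l x x' (m + m') := by
  rcases x with i | i <;> rcases x' with i' | i'
  · rcases Nat.eq_zero_or_pos m with h0 | h0
    · rcases Nat.eq_zero_or_pos m' with h1 | h1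
      · subst h0 h1
        congr 1
      · have : D'.ρ (Sum.inl i') m' = 0 := if_neg (by omega)
        rw [this]; ring
    · have : D.ρ (Sum.inl i) m = 0 := if_neg (by omega)
      rw [this]; ring
  · rcases Nat.eq_zero_or_pos m with h0 | h0
    · subst h0
      congr 1
      exact mulZR_val (D.z i) (D'.r i') χ l m'
    · have : D.ρ (Sum.inl i) m = 0 := if_neg (by omega)
      rw [this]; ring
  · rcases Nat.eq_zero_or_pos m' with h1 | h1
    · subst h1
      congr 1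
      exact mulRZ_val (D.r i) (D'.z i') χ l m
    · have : D'.ρ (Sum.inl i') m' = 0 := if_neg (by omega)
      rw [this]; ring
  · congr 1
    exact mulRR_val (D.r i) (D'.r i') χ l m m'

theorem Fm_x {m : ℕ} (hm : m ≤ l) (x : D.I0 ⊕ D.I) :
    D.ρ x m * Fm D' χ l m (withU (D.cX ω (Sum.inl x) m) (D.cU ω (Sum.inl x) m))
      = D.ρ x m * ∑ m' ∈ range (l + 1 - m), ∑ x', D'.ρ x' m'
          * vR D' χ l (D.cX ω (Sum.inl x) m) m (D.cU ω (Sum.inl x) m) m' x'
        + D.ρ x m * ∑ m' ∈ range (l - m), ∑ j', D'.C j' m'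
          * ((D.xF x).mulF (D'.fc j')).val χ l (m + m')
        + D.ρ x m * ∑ j', D'.T j' (l - m) * ((D.xF x).mulF (D'.fc j')).val χ l l := by
  rcases D.ρ_cases (ω := ω) x m with h0 | h0
  · rw [h0]; ring
  · rw [Fm_reg D' χ l _ (D.cX_FT ω _ m) hm _ h0, ts_x, show l + 1 - m = l - m + 1 by omega]
    simp only [cs_x]
    ring

theorem Fm_F {m : ℕ} (hm : m < l) (F : FCell k σ) :
    Fm D' χ l m (withU (triv F.Y) (NF.zero (triv F.Y).F (m • (ω : QZ))))
      = ∑ m' ∈ range (l - m), ∑ x', D'.ρ x' m' * (F.mulF (D'.xF x')).val χ l (m + m')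
        + ((L : R) - 1) * ∑ a ∈ range (l - 1 - m), Li L ^ (a + 1)
            * ∑ m' ∈ range (l - 1 - m - a), ∑ j', D'.C j' m'
              * (F.mulF (D'.fc j')).val χ l (m + 1 + a + m')
        + (∑ j', D'.T j' (l - 1 - m) * (F.mulF (D'.fc j')).val χ l l
          + ∑ m' ∈ range (l - 1 - m), Li L ^ (l - 1 - m - m')
            * ∑ j', D'.C j' m' * (F.mulF (D'.fc j')).val χ l l) := by
  have h1 := Fm_free D' χ l (triv F.Y) (FT.mapWt _ F.ft) (l - 1 - m) m (by omega)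
  rw [h1, ts_F, show l - 1 - m + 1 = l - m by omega]
  simp only [cs_F, rs_F]

theorem Fm_F_last (F : FCell k σ) :
    Fm D' χ l l (withU (triv F.Y) (NF.zero (triv F.Y).F (l • (ω : QZ))))
      = ∑ x', D'.ρ x' 0 * (F.mulF (D'.xF x')).val χ l l
        + ∑ j', D'.T j' 0 * (F.mulF (D'.fc j')).val χ l l := by
  rw [Fm_nil D' χ l (triv F.Y) (FT.mapWt _ F.ft), ts_F, ← rs_F, Dec.rs, if_pos rfl, D'.as_zero,
    add_zero]

theorem mul_total :
    ∑ m ∈ range (l + 1), ∑ κ, D.γ l κ m * Fm D' χ l m (withU (D.cX ω κ m) (D.cU ω κ m))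
      = ∑ M ∈ range (l + 1), ∑ x, ∑ x', cau (D.ρ x) (D'.ρ x') M * wR D D' χ l x x' M
        + ∑ M ∈ range l, (∑ x, ∑ j', cau (D.ρ x) (D'.C j') M
              * ((D.xF x).mulF (D'.fc j')).val χ l M
            + ∑ j, ∑ x', cau (D.C j) (D'.ρ x') M * ((D.fc j).mulF (D'.xF x')).val χ l M
            + ∑ j, ∑ j', (((L : R) - 1) * cau (conv L (D.C j)) (D'.C j') M)
              * ((D.fc j).mulF (D'.fc j')).val χ l M)
        + (∑ x, ∑ j', cau (D.ρ x) (D'.T j') l * ((D.xF x).mulF (D'.fc j')).val χ l l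
            + ∑ j, ∑ x', (D.T j l * D'.ρ x' 0) * ((D.fc j).mulF (D'.xF x')).val χ l l
            + ∑ j, ∑ j', (tl (D.C j) (D'.T j') (D'.C j') L l + D.T j l * D'.T j' 0)
              * ((D.fc j).mulF (D'.fc j')).val χ l l) := by
  have e1 : ∀ m ∈ range (l + 1), ∑ κ, D.γ l κ m
        * Fm D' χ l m (withU (D.cX ω κ m) (D.cU ω κ m))
      = ∑ x, D.ρ x m * ∑ m' ∈ range (l + 1 - m), ∑ x', D'.ρ x' m'
          * vR D' χ l (D.cX ω (Sum.inl x) m) m (D.cU ω (Sum.inl x) m) m' x'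
        + ∑ x, D.ρ x m * ∑ m' ∈ range (l - m), ∑ j', D'.C j' m'
          * ((D.xF x).mulF (D'.fc j')).val χ l (m + m')
        + ∑ x, D.ρ x m * ∑ j', D'.T j' (l - m) * ((D.xF x).mulF (D'.fc j')).val χ l l
        + ∑ j, D.γ l (Sum.inr j) m * Fm D' χ l m (withU (triv (D.fc j).Y)
            (NF.zero (triv (D.fc j).Y).F (m • (ω : QZ)))) := by
    intro m hm
    rw [Finset.mem_range] at hm
    rw [Fintype.sum_sum_type]
    congr 1
    rw [← Finset.sum_add_distrib, ← Finset.sum_add_distrib]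
    refine Finset.sum_congr rfl fun x _ => ?_
    rw [D.γ_inl, Fm_x D D' χ l (by omega)]
  have e2 : ∑ m ∈ range (l + 1), ∑ j, D.γ l (Sum.inr j) m
        * Fm D' χ l m (withU (triv (D.fc j).Y) (NF.zero (triv (D.fc j).Y).F (m • (ω : QZ))))
      = ∑ m ∈ range l, ∑ j, D.C j m * ∑ m' ∈ range (l - m), ∑ x', D'.ρ x' m'
            * ((D.fc j).mulF (D'.xF x')).val χ l (m + m')
        + ((L : R) - 1) * ∑ m ∈ range l, ∑ j, D.C j m * ∑ a ∈ range (l - 1 - m), Li L ^ (a + 1)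
            * ∑ m' ∈ range (l - 1 - m - a), ∑ j', D'.C j' m'
              * ((D.fc j).mulF (D'.fc j')).val χ l (m + 1 + a + m')
        + ∑ m ∈ range l, ∑ j, D.C j m * (∑ j', D'.T j' (l - 1 - m)
              * ((D.fc j).mulF (D'.fc j')).val χ l l
          + ∑ m' ∈ range (l - 1 - m), Li L ^ (l - 1 - m - m')
            * ∑ j', D'.C j' m' * ((D.fc j).mulF (D'.fc j')).val χ l l)
        + ∑ j, D.T j l * (∑ x', D'.ρ x' 0 * ((D.fc j).mulF (D'.xF x')).val χ l l
        + ∑ j', D'.T j' 0 * ((D.fc j).mulF (D'.fc j')).val χ l l) := by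
    rw [Finset.sum_range_succ]
    congr 1
    · rw [Finset.mul_sum, ← Finset.sum_add_distrib, ← Finset.sum_add_distrib]
      refine Finset.sum_congr rfl fun m hm => ?_
      rw [Finset.mem_range] at hm
      rw [Finset.mul_sum, ← Finset.sum_add_distrib, ← Finset.sum_add_distrib]
      refine Finset.sum_congr rfl fun j _ => ?_
      rw [D.γ_free_lt hm, Fm_F D' χ l hm]
      ring
    · refine Finset.sum_congr rfl fun j _ => ?_
      rw [D.γ_free_eq, Fm_F_last]
  have e3 : ∑ m ∈ range (l + 1), ∑ x, D.ρ x m * ∑ m' ∈ range (l - m), ∑ j', D'.C j' m'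
          * ((D.xF x).mulF (D'.fc j')).val χ l (m + m')
      = ∑ m ∈ range l, ∑ x, D.ρ x m * ∑ m' ∈ range (l - m), ∑ j', D'.C j' m'
          * ((D.xF x).mulF (D'.fc j')).val χ l (m + m') := by
    rw [Finset.sum_range_succ, Nat.sub_self]
    simp
  rw [Finset.sum_congr rfl e1, Finset.sum_add_distrib, Finset.sum_add_distrib,
    Finset.sum_add_distrib, e2, e3,
    blk (l + 1) D.ρ D'.ρ (fun x x' m m' => vR D' χ l (D.cX ω (Sum.inl x) m) m
      (D.cU ω (Sum.inl x) m) m' x') (wR D D' χ l) (fun x y m m' => vR_eq D D' χ l x y m m'),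
    blk l D.ρ D'.C (fun x j' m m' => ((D.xF x).mulF (D'.fc j')).val χ l (m + m'))
      (fun x j' M => ((D.xF x).mulF (D'.fc j')).val χ l M) (fun _ _ _ _ => rfl),
    blk_last l D.ρ D'.T (fun x j' => ((D.xF x).mulF (D'.fc j')).val χ l l),
    blk l D.C D'.ρ (fun j x' m m' => ((D.fc j).mulF (D'.xF x')).val χ l (m + m'))
      (fun j x' M => ((D.fc j).mulF (D'.xF x')).val χ l M) (fun _ _ _ _ => rfl),
    blk_conv l D.C D'.C (fun j j' M => ((D.fc j).mulF (D'.fc j')).val χ l M),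
    blk_tl l D.C D'.T D'.C (fun j j' => ((D.fc j).mulF (D'.fc j')).val χ l l)]
  have e4 : ∑ j, D.T j l * (∑ x', D'.ρ x' 0 * ((D.fc j).mulF (D'.xF x')).val χ l l
        + ∑ j', D'.T j' 0 * ((D.fc j).mulF (D'.fc j')).val χ l l)
      = ∑ j, ∑ x', (D.T j l * D'.ρ x' 0) * ((D.fc j).mulF (D'.xF x')).val χ l l
        + ∑ j, ∑ j', (D.T j l * D'.T j' 0) * ((D.fc j).mulF (D'.fc j')).val χ l l := by
    rw [← Finset.sum_add_distrib]
    refine Finset.sum_congr rfl fun j _ => ?_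
    rw [mul_add, Finset.mul_sum, Finset.mul_sum]
    congr 1
    · exact Finset.sum_congr rfl fun _ _ => by ring
    · exact Finset.sum_congr rfl fun _ _ => by ring
  have e5 : ((L : R) - 1) * ∑ M ∈ range l, ∑ j, ∑ j', cau (conv L (D.C j)) (D'.C j') M
        * ((D.fc j).mulF (D'.fc j')).val χ l M
      = ∑ M ∈ range l, ∑ j, ∑ j', (((L : R) - 1) * cau (conv L (D.C j)) (D'.C j') M)
        * ((D.fc j).mulF (D'.fc j')).val χ l M := by
    simp only [Finset.mul_sum]
    exact Finset.sum_congr rfl fun _ _ => Finset.sum_congr rfl fun _ _ =>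
      Finset.sum_congr rfl fun _ _ => by ring
  have e6 : ∑ j, ∑ j', (tl (D.C j) (D'.T j') (D'.C j') L l + D.T j l * D'.T j' 0)
              * ((D.fc j).mulF (D'.fc j')).val χ l l
      = ∑ j, ∑ j', tl (D.C j) (D'.T j') (D'.C j') L l * ((D.fc j).mulF (D'.fc j')).val χ l l
        + ∑ j, ∑ j', (D.T j l * D'.T j' 0) * ((D.fc j).mulF (D'.fc j')).val χ l l := by
    rw [← Finset.sum_add_distrib]
    refine Finset.sum_congr rfl fun j _ => ?_
    rw [← Finset.sum_add_distrib]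
    exact Finset.sum_congr rfl fun _ _ => by ring
  rw [e4, e5, e6, Finset.sum_add_distrib, Finset.sum_add_distrib]
  ring

end mul

theorem steps_mono {S S' : Set ℚ} (h : S ⊆ S') : steps S ⊆ steps S' :=
  fun _ hp => ⟨hp.1, h hp.2⟩

theorem Dec.ρ_RP {g : MvPolynomial σ k} {s : Set σ} {S : Set ℚ} (D : Dec (k := k) L g s S)
    (x : D.I0 ⊕ D.I) : RP L (steps S) (D.ρ x) := by
  rcases x with i | i
  · exact RP.single _ 0
  · exact D.rA i

theorem cau_zero (a b : ℕ → R) : cau a b 0 = a 0 * b 0 := by simp [cau]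

theorem cau_single_zero {a b : R} (l : ℕ) (v : R) :
    ∑ M ∈ range (l + 1), cau (fun m => if m = 0 then a else 0) (fun m => if m = 0 then b else 0) M
      * v = a * b * v := by
  rw [Finset.sum_eq_single 0]
  · rw [cau_zero, if_pos rfl, if_pos rfl]
  · intro M _ hM
    have : cau (fun m => if m = 0 then a else 0) (fun m => if m = 0 then b else 0) M = 0 := by
      refine Finset.sum_eq_zero fun p hp => ?_
      rw [Finset.HasAntidiagonal.mem_antidiagonal] at hp
      show (if p.1 = 0 then a else 0) * (if p.2 = 0 then b else 0) = 0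
      by_cases h1 : p.1 = 0
      · rw [if_neg (show ¬ p.2 = 0 by omega), mul_zero]
      · rw [if_neg h1, zero_mul]
    rw [this, zero_mul]
  · intro h0
    exact absurd (Finset.mem_range.2 (Nat.succ_pos l)) h0

/-- decomposition of a product -/
noncomputable def Dec.mul [Finite σ] {g h : MvPolynomial σ k} {s t : Set σ} {S T : Set ℚ}
    (hst : Disjoint s t) (hg : DepOn g s) (hh : DepOn h t)
    (D : Dec (k := k) L g s S) (D' : Dec (k := k) L h t T) :
    Dec (k := k) L (g * h) (s ∪ t) (S ∪ T ∪ {1}) where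
  I0 := D.I0 × D'.I0
  I := (D.I0 × D'.I) ⊕ ((D.I × D'.I0) ⊕ (D.I × D'.I))
  J := ((D.I0 ⊕ D.I) × D'.J) ⊕ ((D.J × (D'.I0 ⊕ D'.I)) ⊕ (D.J × D'.J))
  z p := (D.z p.1).mulZ (D'.z p.2)
  α p := D.α p.1 * D'.α p.2
  r := Sum.elim (fun p => (D'.r p.2).mulX (D.z p.1).Y (D.z p.1).ft (D.z p.1).u (D.z p.1).hu)
    (Sum.elim (fun p => (D.r p.1).mulX (D'.z p.2).Y (D'.z p.2).ft (D'.z p.2).u (D'.z p.2).hu)
      (fun p => (D.r p.1).mulX (D'.r p.2).Y (D'.r p.2).ft (D'.r p.2).u (D'.r p.2).hu))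
  A := Sum.elim (fun p => cau (D.ρ (Sum.inl p.1)) (D'.ρ (Sum.inr p.2)))
    (Sum.elim (fun p => cau (D.ρ (Sum.inr p.1)) (D'.ρ (Sum.inl p.2)))
      (fun p => cau (D.ρ (Sum.inr p.1)) (D'.ρ (Sum.inr p.2))))
  A0 i := by
    rcases i with p | p | p
    · show cau (D.ρ (Sum.inl p.1)) (D'.ρ (Sum.inr p.2)) 0 = 0
      rw [cau_zero]
      show _ * D'.A p.2 0 = 0
      rw [D'.A0, mul_zero]
    · show cau (D.ρ (Sum.inr p.1)) (D'.ρ (Sum.inl p.2)) 0 = 0
      rw [cau_zero]
      show D.A p.1 0 * _ = 0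
      rw [D.A0, zero_mul]
    · show cau (D.ρ (Sum.inr p.1)) (D'.ρ (Sum.inr p.2)) 0 = 0
      rw [cau_zero]
      show D.A p.1 0 * _ = 0
      rw [D.A0, zero_mul]
  fc := Sum.elim (fun p => (D.xF p.1).mulF (D'.fc p.2))
    (Sum.elim (fun p => (D.fc p.1).mulF (D'.xF p.2)) (fun p => (D.fc p.1).mulF (D'.fc p.2)))
  C := Sum.elim (fun p => cau (D.ρ p.1) (D'.C p.2))
    (Sum.elim (fun p => cau (D.C p.1) (D'.ρ p.2))
      (fun p M => ((L : R) - 1) * cau (conv L (D.C p.1)) (D'.C p.2) M))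
  T := Sum.elim (fun p => cau (D.ρ p.1) (D'.T p.2))
    (Sum.elim (fun p l => D.T p.1 l * D'.ρ p.2 0)
      (fun p l => tl (D.C p.1) (D'.T p.2) (D'.C p.2) L l + D.T p.1 l * D'.T p.2 0))
  rA i := by
    rcases i with p | p | p
    · exact (cau_RP (D.ρ_RP _) (D'.ρ_RP _)).mono (steps_mono Set.subset_union_left)
    · exact (cau_RP (D.ρ_RP _) (D'.ρ_RP _)).mono (steps_mono Set.subset_union_left)
    · exact (cau_RP (D.ρ_RP _) (D'.ρ_RP _)).mono (steps_mono Set.subset_union_left)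
  rC j := by
    rcases j with p | p | p
    · exact (cau_RP (D.ρ_RP _) (D'.rC _)).mono (steps_mono Set.subset_union_left)
    · exact (cau_RP (D.rC _) (D'.ρ_RP _)).mono (steps_mono Set.subset_union_left)
    · refine ((cau_RP (conv_RP (D.rC p.1)) (D'.rC p.2)).smul ((L : R) - 1)).mono (steps_mono ?_)
      rintro x ((hx | hx) | hx)
      · exact Or.inl (Or.inl hx)
      · exact Or.inr hx
      · exact Or.inl (Or.inr hx)
  rT j := by
    rcases j with p | p | p
    · exact (cau_RP (D.ρ_RP _) (D'.rT _)).mono (steps_mono Set.subset_union_left)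
    · refine (((D.rT p.1).smul (D'.ρ p.2 0)).mono (steps_mono ?_)).congr fun m => mul_comm _ _
      exact fun x hx => Or.inl (Or.inl hx)
    · refine ((tl_RP (D.rC p.1) (D'.rT p.2) (D'.rC p.2)).mono (steps_mono ?_)).add
        ((((D.rT p.1).smul (D'.T p.2 0)).mono (steps_mono ?_)).congr fun m => mul_comm _ _)
      · rintro x (hx | hx | hx)
        · exact Or.inl (Or.inl hx)
        · exact Or.inl (Or.inr hx)
        · exact Or.inr hx
      · exact fun x hx => Or.inl (Or.inl hx)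
  main ω χ l := by
    have hG : FT (Jet h t l (ω : QZ)).F := FT.jet t (Set.toFinite t) l _
    rw [χ.iso (FT.jet (s ∪ t) (Set.toFinite _) l _) (jet_mul_iso hst hg hh l (ω : QZ) hG),
      card_union hst]
    refine (Dec.pair (B := MulK (ω : QZ) l) (MulK_commB l) D D' χ l hG).trans ?_
    refine (mul_total D D' χ l).trans ?_
    have e1 : ∑ M ∈ range (l + 1), ∑ x, ∑ x', cau (D.ρ x) (D'.ρ x') M * wR D D' χ l x x' M
        = ∑ i, ∑ i', (D.α i * D'.α i') * ((D.z i).mulZ (D'.z i')).val χ l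
          + ∑ M ∈ range (l + 1), (∑ i, ∑ i', cau (D.ρ (Sum.inl i)) (D'.ρ (Sum.inr i')) M
              * ((D'.r i').mulX (D.z i).Y (D.z i).ft (D.z i).u (D.z i).hu).val χ l M
            + (∑ i, ∑ i', cau (D.ρ (Sum.inr i)) (D'.ρ (Sum.inl i')) M
              * ((D.r i).mulX (D'.z i').Y (D'.z i').ft (D'.z i').u (D'.z i').hu).val χ l M
            + ∑ i, ∑ i', cau (D.ρ (Sum.inr i)) (D'.ρ (Sum.inr i')) M
              * ((D.r i).mulX (D'.r i').Y (D'.r i').ft (D'.r i').u (D'.r i').hu).val χ l M)) := by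
      have e2 : ∑ i, ∑ i', (D.α i * D'.α i') * ((D.z i).mulZ (D'.z i')).val χ l
          = ∑ M ∈ range (l + 1), ∑ i, ∑ i', cau (D.ρ (Sum.inl i)) (D'.ρ (Sum.inl i')) M
            * ((D.z i).mulZ (D'.z i')).val χ l := by
        symm
        rw [Finset.sum_comm]
        refine Finset.sum_congr rfl fun i _ => ?_
        rw [Finset.sum_comm]
        refine Finset.sum_congr rfl fun i' _ => ?_
        exact cau_single_zero l _
      rw [e2, ← Finset.sum_add_distrib]
      refine Finset.sum_congr rfl fun M _ => ?_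
      rw [Fintype.sum_sum_type]
      simp only [Fintype.sum_sum_type, Finset.sum_add_distrib]
      rw [← add_assoc, ← add_assoc, ← add_assoc]
      rfl
    rw [e1]
    simp only [Fintype.sum_sum_type (α₁ := D.I0 × D'.I),
      Fintype.sum_sum_type (α₁ := D.I × D'.I0),
      Fintype.sum_sum_type (α₁ := (D.I0 ⊕ D.I) × D'.J),
      Fintype.sum_sum_type (α₁ := D.J × (D'.I0 ⊕ D'.I)), Sum.elim_inl, Sum.elim_inr,
      Fintype.sum_prod_type, add_assoc]

end Pool.Agent.Helper6_Mono
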