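import Pool.Agent.Helper6_Mono.Tools
import Pool.Agent.Helper6_Mono.RO

/-!
# Decompositions: powers
-/

set_option autoImplicit false
set_option linter.unusedVariables false
set_option linter.unusedSectionVars false

namespace Pool.Agent.Helper6_Mono

open PowerSeries Finset

variable {k : Type} [Field k] {σ : Type} {R : Type*} [CommRing R] {L : Rˣ}

/-- the functor with trivial action, as a functor with integral weights -/
@[reducible] def flat (U : OverS k σ ℤ) : OverS k σ ℤ := U.mapS 0

theorem pull_pull_zero {S : Type} [CommRing S] (c : Chr QZ S) (q : QZ) :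
    (c.pull (zmultiplesHom QZ q)).pull (0 : ℤ →+ ℤ) = c.pull (0 : ℤ →+ QZ) := by
  apply Chr.ext'
  intro w
  simp

/-- comparison of a free cell times a punctured line with a regular cell -/
theorem gm_cell {w q : QZ} (θ : SInv k (wopt σ w) L) (U : OverS k σ ℤ) (hU : FT U.F) {q' : QZ}
    (hq : q' = q) (f : NF ((triv U).times (GF.gm k q')).F w)
    (f' : NF (twq ((flat U).times (GF.gm k (1 : ℤ))) q).F w)
    (hf : ∀ (S : Type) [CommRing S] [Algebra k S] (x : U.F.obj S × {y : S // IsUnit y}),
      f.fn x = f'.fn x) :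
    θ.χ (withU ((triv U).times (GF.gm k q')) f)
      = θ.χ (withU (twq ((flat U).times (GF.gm k (1 : ℤ))) q) f') := by
  subst hq
  refine θ.iso ((FT.mapWt _ hU).prod (FT.gm _)) (OIso.mk' (fun S _ _ p => p)
    (fun S _ _ p => p) (fun S _ _ p => rfl) (fun S _ _ p => rfl) (fun {S S'} _ _ _ _ φ c p => ?_)
      (fun S _ _ p b => ?_))
  · refine Prod.ext ?_ (Subtype.ext ?_)
    · show U.F.tw φ (c.pull 0) p.1 = U.F.tw φ ((c.pull (zmultiplesHom QZ q')).pull 0) p.1
      rw [pull_pull_zero]
    · show chr c q' * φ p.2.1 = chr (c.pull (zmultiplesHom QZ q')) 1 * φ p.2.1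
      rw [chr_pull]
      simp
  · cases b with
    | none => exact (hf S p).symm
    | some i => rfl

/-- the coordinate of the punctured line -/
@[reducible] def gmNF {W : Type} [AddCommGroup W] (F : GF k W) (w : W) :
    NF (F.prod (GF.gm k w)) w := ⟨fun x => x.2.1, fun φ c x => rfl⟩

/-- the `N`-th power of a cell of order zero -/
@[reducible] def ZCell.pow (c : ZCell k σ) (N : ℕ) : ZCell k σ where
  Y := c.Y
  ft := c.ft
  u := (c.u.pow N).cast (smul_zero _)
  hu S _ _ x := (c.hu S x).pow N

/-- the `N`-th power of a regular cell -/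
@[reducible] def RCell.pow (c : RCell k σ) (N : ℕ) (hN : 0 < N) : RCell k σ where
  Y := c.Y
  ft := c.ft
  e := N * c.e
  he := Nat.mul_pos hN c.he
  u := (c.u.pow N).cast (by simp)
  hu S _ _ x := (c.hu S x).pow N
  v := c.v
  hv := c.hv

/-- the regular cell `y ^ N` on a free cell times a punctured line -/
@[reducible] def FCell.pow (c : FCell k σ) (N : ℕ) (hN : 0 < N) : RCell k σ where
  Y := (flat c.Y).times (GF.gm k (1 : ℤ))
  ft := (FT.mapWt _ c.ft).prod (FT.gm _)
  e := N
  he := hN
  u := ⟨fun x => x.2.1 ^ N, fun {S S'} _ _ _ _ φ c x => by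
    show (chr c 1 * φ x.2.1) ^ N = chr c (N : ℤ) * φ (x.2.1 ^ N)
    rw [mul_pow, map_pow, ← chr_nsmul]
    simp⟩
  hu S _ _ x := x.2.2.pow N
  v := ⟨fun x => x.2.1, fun φ c x => rfl⟩
  hv S _ _ x := x.2.2

/-- the power of a series of large order -/
theorem pow_nil {ω : QZ} (χ : SInv k (wser σ ω) L) (l N : ℕ) (hN : 1 ≤ N) {Y : OverS k σ QZ}
    (hY : FT Y.F) :
    ((χ.comp (PowK k σ ω l N)).cell l l).χ (withU Y (NF.zero Y.F (l • ω)))
      = (χ.cell l l).χ (withU Y (NF.zero Y.F (l • ω))) := by
  have h : OIso ((PowK k σ ω l N).app ((GenK k σ ω l 0).app (withU Y (NF.zero Y.F (l • ω)))))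
      ((GenK k σ ω l 0).app (withU Y (NF.zero Y.F (l • ω)))) := by
    refine OIso.mk' (fun S _ _ p => p.1.1) (fun S _ _ p => ⟨(p, ()), fun a => a.elim⟩)
      (fun S _ _ p => rfl) (fun S _ _ p => rfl) (fun φ c p => rfl) (fun S _ _ p b => ?_)
    cases b with
    | inl i => rfl
    | inr j =>
      have h0 : p.1.1.1.2.1 = 0 := by
        ext j
        rcases Nat.eq_zero_or_pos j with h | h
        · rw [h, map_zero]
          exact sub_eq_zero.1 (p.1.1.2 ())
        · rw [p.1.1.1.2.2 j (Or.inr h), map_zero]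
      have e1 : ser (((GenK k σ ω l 0).app (withU Y (NF.zero Y.F (l • ω)))).base p.1.1) = 0 := by
        ext j
        rw [coeff_ser, map_zero]
        show coeff j (PowerSeries.X ^ l * p.1.1.1.2.1) = 0
        rw [h0, mul_zero, map_zero]
      show coeff j (PowerSeries.X ^ l * p.1.1.1.2.1)
        = if j ≤ l then coeff j (ser (((GenK k σ ω l 0).app
          (withU Y (NF.zero Y.F (l • ω)))).base p.1.1) ^ N) else 0
      rw [e1, h0, mul_zero, map_zero, zero_pow (by omega), map_zero, ite_self]
  show Li L ^ (l - l) * χ.χ ((PowK k σ ω l N).app ((GenK k σ ω l (l - l)).app _))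
    = Li L ^ (l - l) * χ.χ ((GenK k σ ω l (l - l)).app _)
  rw [Nat.sub_self]
  congr 1
  exact χ.iso ((PowK k σ ω l N).app_FT (GenK_FT (X := withU Y (NF.zero Y.F (l • ω))) hY)) h

section sums

theorem sum_dvd {l N : ℕ} (hN : 0 < N) (a f : ℕ → R) :
    ∑ M ∈ range (l + 1), (if N ∣ M then a (M / N) else 0) * f M
      = ∑ m ∈ range (l / N + 1), a m * f (N * m) := by
  have h1 : ∀ M ∈ range (l + 1), (if N ∣ M then a (M / N) else 0) * f M
      = if N ∣ M then a (M / N) * f M else 0 := by
    intro M _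
    split_ifs
    · rfl
    · rw [zero_mul]
  rw [Finset.sum_congr rfl h1, ← Finset.sum_filter]
  symm
  refine Finset.sum_nbij' (fun m => N * m) (fun M => M / N) ?_ ?_ ?_ ?_ ?_
  · intro m hm
    rw [Finset.mem_range] at hm
    rw [Finset.mem_filter, Finset.mem_range]
    refine ⟨?_, Nat.dvd_mul_right _ _⟩
    have h2 : m ≤ l / N := by omega
    have := (Nat.le_div_iff_mul_le hN).1 h2
    rw [mul_comm] at this
    omega
  · intro M hM
    rw [Finset.mem_filter, Finset.mem_range] at hM
    rw [Finset.mem_range]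
    have := Nat.div_le_div_right (c := N) (show M ≤ l by omega)
    omega
  · intro m _
    exact Nat.mul_div_cancel_left m hN
  · intro M hM
    rw [Finset.mem_filter] at hM
    exact Nat.mul_div_cancel' hM.2
  · intro m _
    rw [Nat.mul_div_cancel_left m hN]

variable (L) in
/-- `a ↦ ∑_{m < a} L ^ (m - a) C m` -/
def conv (C : ℕ → R) (a : ℕ) : R := ∑ m ∈ range a, Li L ^ (a - m) * C m

theorem conv_zero (C : ℕ → R) : conv L C 0 = 0 := by simp [conv]

theorem conv_RP {S : Set ℚ} {C : ℕ → R} (h : RP L (steps S) C) :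
    RP L (steps (S ∪ {1})) (conv L C) := by
  refine (h.cauchy RP.tail).congr fun a => ?_
  rw [Finset.Nat.sum_antidiagonal_eq_sum_range_succ (fun x y => C x * if y = 0 then (0 : R)
    else ((L⁻¹ ^ y : Rˣ) : R)), Finset.sum_range_succ, Nat.sub_self, if_pos rfl, mul_zero, add_zero]
  refine Finset.sum_congr rfl fun m hm => ?_
  rw [Finset.mem_range] at hm
  rw [if_neg (by omega), mul_comm, Units.val_pow_eq_pow_val]

theorem conv_swap {l q : ℕ} (hq : q ≤ l) (C E : ℕ → R) :
    ∑ m ∈ range l, C m * ∑ a ∈ Ioc m q, Li L ^ (a - m) * E a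
      = ∑ a ∈ range (q + 1), conv L C a * E a := by
  have h1 : ∀ m ∈ range l, C m * ∑ a ∈ Ioc m q, Li L ^ (a - m) * E a
      = ∑ a ∈ range (q + 1), if m < a then Li L ^ (a - m) * C m * E a else 0 := by
    intro m _
    rw [Finset.mul_sum, ← Finset.sum_filter]
    refine Finset.sum_congr ?_ fun a _ => by ring
    ext a
    simp only [Finset.mem_Ioc, Finset.mem_filter, Finset.mem_range]
    omega
  rw [Finset.sum_congr rfl h1, Finset.sum_comm]
  refine Finset.sum_congr rfl fun a ha => ?_
  rw [Finset.mem_range] at ha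
  rw [← Finset.sum_filter, conv, Finset.sum_mul]
  refine Finset.sum_congr ?_ fun _ _ => rfl
  ext m
  simp only [Finset.mem_filter, Finset.mem_range]
  omega

end sums

section pow

variable [Finite σ] {g : MvPolynomial σ k} {s : Set σ} {S : Set ℚ} (D : Dec (k := k) L g s S)
  {N : ℕ} (hN : 2 ≤ N) (hNk : (N : k) ≠ 0) {ω : ℚ} (χ : SInv k (wser σ (ω : QZ)) L)

include hN hNk

theorem pow_zval (c : ZCell k σ) (l : ℕ) :
    c.val (χ.comp (PowK k σ (ω : QZ) l N)) l = (c.pow N).val χ l := by
  have h := cell_pow χ (l := l) (m := 0) (N := N) (Nat.zero_le _) (by simp) (by omega) hNk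
    (X := withU (triv c.Y) (c.un (ω : QZ))) (FT.mapWt 0 c.ft) c.hu
    ((c.pow N).un (ω : QZ)) (fun S _ _ x => rfl)
  exact h

theorem pow_rval (c : RCell k σ) {l m : ℕ} (h : N * m ≤ l) :
    c.val (χ.comp (PowK k σ (ω : QZ) l N)) l m = (c.pow N (by omega)).val χ l (N * m) := by
  have hq : (c.pow N (by omega)).q ω (N * m) = c.q ω m := by
    show (((N * m : ℕ) * ω / (N * c.e : ℕ) : ℚ) : QZ) = ((m * ω / c.e : ℚ) : QZ)
    congr 1
    have h1 : (N : ℚ) ≠ 0 := by
      have : N ≠ 0 := by omega
      exact_mod_cast this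
    rw [Nat.cast_mul, Nat.cast_mul, mul_assoc, mul_div_mul_left _ _ h1]
  have hml : m ≤ l := le_trans (Nat.le_mul_of_pos_left m (by omega)) h
  have h2 := cell_pow χ (l := l) (m := m) (N := N) hml h (by omega) hNk
    (X := withU (twq c.Y (c.q ω m)) (c.un ω m)) (FT.mapWt _ c.ft) c.hu
    (((c.un ω m).pow N).cast (by rw [smul_smul])) (fun S _ _ x => rfl)
  refine h2.trans ?_
  exact (val_congr (χ.cell l (N * m)) c.Y hq.symm _ _ (fun S _ _ x => rfl))

theorem pow_rval_zero (c : RCell k σ) {l m : ℕ} (hm : m ≤ l) (h : l < N * m) :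
    c.val (χ.comp (PowK k σ (ω : QZ) l N)) l m = (χ.cell l l).nil.χ (triv c.Y) := by
  rw [SInv.nil_val _ (FT.mapWt _ c.ft), ← nil_shift _ _ (c.q ω m)]
  exact cell_pow_zero χ hm h (X := withU (twq c.Y (c.q ω m)) (c.un ω m)) (FT.mapWt _ c.ft)

theorem pow_fval (c : FCell k σ) {l m : ℕ} (hm : m ≤ l) :
    c.val (χ.comp (PowK k σ (ω : QZ) l N)) l m
      = ∑ a ∈ Ioc m (l / N), Li L ^ (a - m) * (c.pow N (by omega)).val χ l (N * a)
        + Li L ^ (l / N - m) * (χ.cell l l).nil.χ (triv c.Y) := by
  have hcf : FT (triv c.Y).F := FT.mapWt _ c.ft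
  have hql : l / N ≤ l := Nat.div_le_self _ _
  induction hm using Nat.decreasingInduction with
  | self =>
    rw [SInv.nil_val _ hcf, Finset.Ioc_eq_empty_of_le hql, Finset.sum_empty, zero_add,
      show l / N - l = 0 by omega, pow_zero, one_mul]
    exact pow_nil χ l N (by omega) hcf
  | of_succ m hm ih =>
    have h1 := cell_split (χ.comp (PowK k σ (ω : QZ) l N)) (show m < l from hm) (triv c.Y) hcf
    refine h1.trans ?_
    have h2 : ((χ.comp (PowK k σ (ω : QZ) l N)).cell l (m + 1)).χ
        (withU (triv c.Y) (NF.zero (triv c.Y).F ((m + 1) • (ω : QZ))))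
        = c.val (χ.comp (PowK k σ (ω : QZ) l N)) l (m + 1) := rfl
    rw [h2, ih]
    rcases Nat.lt_or_ge (l / N) (m + 1) with hc | hc
    · have hlt : l < N * (m + 1) := by
        rw [mul_comm]; exact (Nat.div_lt_iff_lt_mul (by omega)).1 hc
      have h3 := cell_pow_zero χ (l := l) (m := m + 1) (N := N) hm hlt
        (X := withU ((triv c.Y).times (GF.gm k ((m + 1) • (ω : QZ))))
          ⟨fun x => x.2.1, fun φ c x => rfl⟩) (hcf.prod (FT.gm _))
      rw [h3]
      have h4 : (χ.cell l l).χ (withU ((triv c.Y).times (GF.gm k ((m + 1) • (ω : QZ))))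
          (NF.zero _ (l • (ω : QZ)))) = ((L : R) - 1) * (χ.cell l l).nil.χ (triv c.Y) := by
        rw [← (χ.cell l l).nil.times_gm hcf ((m + 1) • (ω : QZ)),
          SInv.nil_val _ (hcf.prod (FT.gm _))]
      have h5 : (χ.cell l l).χ (setU (withU ((triv c.Y).times (GF.gm k ((m + 1) • (ω : QZ))))
          (w := (m + 1) • (ω : QZ)) ⟨fun x => x.2.1, fun φ c x => rfl⟩) (NF.zero _ (l • (ω : QZ))))
          = ((L : R) - 1) * (χ.cell l l).nil.χ (triv c.Y) := h4
      rw [h5, Finset.Ioc_eq_empty_of_le (show l / N ≤ m by omega),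
        Finset.Ioc_eq_empty_of_le (show l / N ≤ m + 1 by omega), Finset.sum_empty, zero_add,
        show l / N - (m + 1) = 0 by omega, show l / N - m = 0 by omega, pow_zero, one_mul]
      linear_combination (χ.cell l l).nil.χ (triv c.Y) * Li_mul L
    · have hle : N * (m + 1) ≤ l := by
        rw [mul_comm]; exact (Nat.le_div_iff_mul_le (by omega)).1 hc
      have h3 := cell_pow χ (l := l) (m := m + 1) (N := N) hm hle (by omega) hNk
        (X := withU ((triv c.Y).times (GF.gm k ((m + 1) • (ω : QZ))))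
          ⟨fun x => x.2.1, fun φ c x => rfl⟩) (hcf.prod (FT.gm _)) (fun S _ _ x => x.2.2)
        (((gmNF (triv c.Y).F ((m + 1) • (ω : QZ))).pow N).cast (by rw [smul_smul]))
        (fun S _ _ x => rfl)
      rw [h3]
      have hq : (m + 1) • (ω : QZ) = (c.pow N (by omega)).q ω (N * (m + 1)) := by
        show _ = (((N * (m + 1) : ℕ) * ω / (N : ℕ) : ℚ) : QZ)
        rw [← AddCircle.coe_nsmul]
        congr 1
        have h1 : (N : ℚ) ≠ 0 := by
          have : N ≠ 0 := by omega
          exact_mod_cast this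
        rw [nsmul_eq_mul, Nat.cast_mul, mul_assoc, mul_div_cancel_left₀ _ h1]
      have h4 := gm_cell (χ.cell l (N * (m + 1))) c.Y c.ft hq
        (((gmNF (triv c.Y).F ((m + 1) • (ω : QZ))).pow N).cast (by rw [smul_smul]))
        ((c.pow N (by omega)).un ω (N * (m + 1))) (fun S _ _ x => rfl)
      have h5 : (χ.cell l (N * (m + 1))).χ (setU (withU ((triv c.Y).times
          (GF.gm k ((m + 1) • (ω : QZ)))) (w := (m + 1) • (ω : QZ))
            ⟨fun x => x.2.1, fun φ c x => rfl⟩)
          (((gmNF (triv c.Y).F ((m + 1) • (ω : QZ))).pow N).cast (by rw [smul_smul])))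
          = (c.pow N (by omega)).val χ l (N * (m + 1)) := h4
      rw [h5]
      have h6 : Ioc m (l / N) = insert (m + 1) (Ioc (m + 1) (l / N)) := by
        ext a
        simp only [Finset.mem_Ioc, Finset.mem_insert]
        omega
      have e1 : Li L * ∑ a ∈ Ioc (m + 1) (l / N), Li L ^ (a - (m + 1))
          * (c.pow N (by omega)).val χ l (N * a)
          = ∑ a ∈ Ioc (m + 1) (l / N), Li L ^ (a - m) * (c.pow N (by omega)).val χ l (N * a) := by
        rw [Finset.mul_sum]
        refine Finset.sum_congr rfl fun a ha => ?_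
        rw [Finset.mem_Ioc] at ha
        rw [show a - m = (a - (m + 1)) + 1 by omega, pow_succ]
        ring
      rw [h6, Finset.sum_insert (by simp), Nat.add_sub_cancel_left, pow_one, ← e1,
        show l / N - m = (l / N - (m + 1)) + 1 by omega, pow_succ]
      ring

end pow

/-- decomposition of a power -/
noncomputable def Dec.pow [Finite σ] {g : MvPolynomial σ k} {s : Set σ} {S : Set ℚ}
    (D : Dec (k := k) L g s S) (N : ℕ) (hN : 2 ≤ N) (hNk : (N : k) ≠ 0) :
    Dec (k := k) L (g ^ N) s (divSlopes S N) where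
  I0 := D.I0
  I := D.I ⊕ D.J
  J := D.J
  z i := (D.z i).pow N
  α := D.α
  r i := i.elim (fun i => (D.r i).pow N (by omega)) (fun j => (D.fc j).pow N (by omega))
  A i m := i.elim (fun i => if N ∣ m then D.A i (m / N) else 0)
    (fun j => if N ∣ m then conv L (D.C j) (m / N) else 0)
  A0 i := by
    cases i with
    | inl i => simp [D.A0]
    | inr j => simp [conv_zero]
  fc := D.fc
  C _ _ := 0
  T j l := conv L (D.C j) (l / N) + D.T j (l / N)
  rA i := by
    have hN0 : 0 < N := by omega
    cases i with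
    | inl i => exact (D.rA i).dil (T := divSlopes S N) hN0 (fun x hx => ⟨x, Or.inl hx, rfl⟩)
    | inr j => exact (conv_RP (D.rC j)).dil (T := divSlopes S N) hN0 (fun x hx => ⟨x, hx, rfl⟩)
  rC _ := RP.zero
  rT j := by
    have hN0 : 0 < N := by omega
    exact ((conv_RP (D.rC j)).floor (T := divSlopes S N) hN0 (fun x hx => ⟨x, hx, rfl⟩)).add
      ((D.rT j).floor (T := divSlopes S N) hN0 (fun x hx => ⟨x, Or.inl hx, rfl⟩))
  main ω χ l := by
    have hN0 : 0 < N := by omega
    have hql : l / N ≤ l := Nat.div_le_self _ _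
    set ψ := (χ.cell l l).nil with hψ
    rw [χ.iso (FT.jet s (Set.toFinite s) l _) (jet_pow_iso g s l N (ω : QZ))]
    have h := D.main ω (χ.comp (PowK k σ (ω : QZ) l N)) l
    refine h.trans ?_
    have e0 : ∑ i, D.α i * (D.z i).val (χ.comp (PowK k σ (ω : QZ) l N)) l
        = ∑ i, D.α i * ((D.z i).pow N).val χ l :=
      Finset.sum_congr rfl fun i _ => by rw [pow_zval hN hNk]
    have e1 : ∑ m ∈ range (l + 1), ∑ i, D.A i m * (D.r i).val (χ.comp (PowK k σ (ω : QZ) l N)) l m
        = ∑ m ∈ range (l + 1), ∑ i, (if N ∣ m then D.A i (m / N) else 0)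
            * ((D.r i).pow N hN0).val χ l m + ∑ m ∈ Ioc (l / N) l, D.as ψ m := by
      have h1 : ∑ m ∈ range (l + 1), ∑ i, (if N ∣ m then D.A i (m / N) else 0)
            * ((D.r i).pow N hN0).val χ l m
          = ∑ m ∈ range (l / N + 1), ∑ i, D.A i m * ((D.r i).pow N hN0).val χ l (N * m) := by
        rw [Finset.sum_comm, Finset.sum_comm (s := range (l / N + 1))]
        exact Finset.sum_congr rfl fun i _ => sum_dvd hN0 _ _
      have h2 : range (l + 1) = range (l / N + 1) ∪ Ioc (l / N) l := by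
        ext a
        simp only [Finset.mem_range, Finset.mem_union, Finset.mem_Ioc]
        omega
      rw [h1, h2, Finset.sum_union]
      · congr 1
        · refine Finset.sum_congr rfl fun m hm => Finset.sum_congr rfl fun i _ => ?_
          rw [Finset.mem_range] at hm
          rw [pow_rval hN hNk]
          rw [mul_comm]; exact (Nat.le_div_iff_mul_le hN0).1 (by omega)
        · refine Finset.sum_congr rfl fun m hm => Finset.sum_congr rfl fun i _ => ?_
          rw [Finset.mem_Ioc] at hm
          rw [pow_rval_zero hN hNk χ _ hm.2]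
          rw [mul_comm]; exact (Nat.div_lt_iff_lt_mul hN0).1 hm.1
      · rw [Finset.disjoint_left]
        intro a
        simp only [Finset.mem_range, Finset.mem_Ioc]
        omega
    have e2 : ∑ m ∈ range l, ∑ j, D.C j m * (D.fc j).val (χ.comp (PowK k σ (ω : QZ) l N)) l m
        = ∑ m ∈ range (l + 1), ∑ j, (if N ∣ m then conv L (D.C j) (m / N) else 0)
            * ((D.fc j).pow N hN0).val χ l m
          + (∑ j, conv L (D.C j) (l / N) * ψ.χ (triv (D.fc j).Y)
            + ∑ m ∈ Ico (l / N) l, D.cs ψ m) := by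
      have h1 : ∑ m ∈ range (l + 1), ∑ j, (if N ∣ m then conv L (D.C j) (m / N) else 0)
            * ((D.fc j).pow N hN0).val χ l m
          = ∑ j, ∑ m ∈ range l, D.C j m * ∑ a ∈ Ioc m (l / N), Li L ^ (a - m)
              * ((D.fc j).pow N hN0).val χ l (N * a) := by
        rw [Finset.sum_comm]
        refine Finset.sum_congr rfl fun j _ => ?_
        rw [conv_swap hql (D.C j) (fun a => ((D.fc j).pow N hN0).val χ l (N * a))]
        exact sum_dvd hN0 _ _
      have h3 : ∑ j, conv L (D.C j) (l / N) * ψ.χ (triv (D.fc j).Y)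
            + ∑ m ∈ Ico (l / N) l, D.cs ψ m
          = ∑ j, ∑ m ∈ range l, D.C j m * (Li L ^ (l / N - m) * ψ.χ (triv (D.fc j).Y)) := by
        have h2 : range l = range (l / N) ∪ Ico (l / N) l := by
          ext a
          simp only [Finset.mem_range, Finset.mem_union, Finset.mem_Ico]
          omega
        unfold Dec.cs
        rw [Finset.sum_comm (s := Ico (l / N) l), ← Finset.sum_add_distrib]
        refine Finset.sum_congr rfl fun j _ => ?_
        rw [h2, Finset.sum_union]
        · congr 1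
          · rw [conv, Finset.sum_mul]
            exact Finset.sum_congr rfl fun m _ => by ring
          · refine Finset.sum_congr rfl fun m hm => ?_
            rw [Finset.mem_Ico] at hm
            rw [show l / N - m = 0 by omega, pow_zero, one_mul]
        · rw [Finset.disjoint_left]
          intro a
          simp only [Finset.mem_range, Finset.mem_Ico]
          omega
      rw [h1, h3, ← Finset.sum_add_distrib, Finset.sum_comm]
      refine Finset.sum_congr rfl fun j _ => ?_
      rw [← Finset.sum_add_distrib]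
      refine Finset.sum_congr rfl fun m hm => ?_
      rw [Finset.mem_range] at hm
      rw [pow_fval hN hNk χ (D.fc j) hm.le]
      ring
    have e3 : ∑ j, D.T j l * (D.fc j).val (χ.comp (PowK k σ (ω : QZ) l N)) l l = D.ts ψ l := by
      refine Finset.sum_congr rfl fun j _ => ?_
      rw [pow_fval hN hNk χ (D.fc j) le_rfl, Finset.Ioc_eq_empty_of_le hql, Finset.sum_empty,
        zero_add, show l / N - l = 0 by omega, pow_zero, one_mul]
    have e4 : ∑ j, (conv L (D.C j) (l / N) + D.T j (l / N)) * (D.fc j).val χ l l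
        = ∑ j, conv L (D.C j) (l / N) * ψ.χ (triv (D.fc j).Y) + D.ts ψ (l / N) := by
      unfold Dec.ts
      rw [← Finset.sum_add_distrib]
      refine Finset.sum_congr rfl fun j _ => ?_
      rw [hψ, SInv.nil_val _ (FT.mapWt _ (D.fc j).ft)]
      ring
    have e5 := D.tail ψ hql
    rw [e0, e1, e2, e3]
    simp only [zero_mul, Finset.sum_const_zero, add_zero, Fintype.sum_sum_type, Sum.elim_inl,
      Sum.elim_inr, Finset.sum_add_distrib]
    rw [e4, e5]
    ring

end Pool.Agent.Helper6_Mono
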