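import Pool.Agent.Helper6_Mono.GF

/-!
# Functors of finite type
-/

set_option autoImplicit false
set_option linter.unusedVariables false

namespace Pool.Agent.Helper6_Mono

open MvPolynomial

variable {k : Type} [Field k] {W : Type} [AddCommGroup W]

/-- homogeneous polynomials transform by a character -/
theorem aeval_tw {ι : Type} {wt : ι → W} {e : MvPolynomial ι k} {w : W}
    (he : IsWeightedHomogeneous wt e w) {S S' : Type} [CommRing S] [Algebra k S] [CommRing S']
    [Algebra k S'] (φ : S →ₐ[k] S') (c : Chr W S') (x : ι → S) :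
    aeval (fun i => chr c (wt i) * φ (x i)) e = chr c w * φ (aeval x e) := by
  classical
  rw [aeval_def, aeval_def, eval₂_eq, eval₂_eq, map_sum, Finset.mul_sum]
  refine Finset.sum_congr rfl fun d hd => ?_
  have hw : Finsupp.weight wt d = w := he (mem_support_iff.1 hd)
  have h1 : chr c w = ∏ i ∈ d.support, chr c (wt i) ^ d i := by
    rw [← hw, Finsupp.weight_apply, Finsupp.sum]
    induction d.support using Finset.induction_on with
    | empty => simp
    | insert a s ha ih => rw [Finset.sum_insert ha, Finset.prod_insert ha, chr_add, ih, chr_nsmul]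
  rw [h1, map_mul, map_prod, AlgHom.commutes]
  simp only [mul_pow, Finset.prod_mul_distrib, map_pow]
  ring

/-- the functor of points of the affine scheme with equations `E` and weights `wt` -/
@[reducible] def affGF (ι : Type) (wt : ι → W) (E : Set (MvPolynomial ι k))
    (hE : ∀ e ∈ E, ∃ w, IsWeightedHomogeneous wt e w) : GF k W where
  obj S _ _ := {x : ι → S // ∀ e ∈ E, aeval x e = 0}
  tw φ c x := ⟨fun i => chr c (wt i) * φ (x.1 i), fun e he => by
    obtain ⟨w, hw⟩ := hE e he
    rw [aeval_tw hw, x.2 e he, map_zero, mul_zero]⟩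
  tw_id x := Subtype.ext (by simp)
  tw_tw φ c ψ d x := Subtype.ext (by funext i; simp [mul_assoc])

/-- the universal algebra -/
abbrev UA {ι : Type} (E : Set (MvPolynomial ι k)) : Type := MvPolynomial ι k ⧸ Ideal.span E

/-- the universal point -/
noncomputable def uPt {ι : Type} {wt : ι → W} {E : Set (MvPolynomial ι k)}
    {hE : ∀ e ∈ E, ∃ w, IsWeightedHomogeneous wt e w} : (affGF ι wt E hE).obj (UA E) :=
  ⟨fun i => Ideal.Quotient.mk _ (X i), fun e he => by
    have : (aeval fun i => (Ideal.Quotient.mk (Ideal.span E) (X i) : UA E)) e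
        = Ideal.Quotient.mkₐ k (Ideal.span E) e := by
      rw [aeval_unique (Ideal.Quotient.mkₐ k (Ideal.span E))]
      rfl
    rw [this, Ideal.Quotient.mkₐ_eq_mk, Ideal.Quotient.eq_zero_iff_mem]
    exact Ideal.subset_span he⟩

/-- the classifying map of a point -/
noncomputable def clMap {ι : Type} {E : Set (MvPolynomial ι k)} {S : Type} [CommRing S] [Algebra k S]
    (x : ι → S) (hx : ∀ e ∈ E, aeval x e = 0) : UA E →ₐ[k] S :=
  Ideal.Quotient.liftₐ _ (aeval x) (fun a ha => by
    have : Ideal.span E ≤ RingHom.ker (aeval x : MvPolynomial ι k →ₐ[k] S) := by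
      rw [Ideal.span_le]
      intro e he
      exact hx e he
    exact this ha)

theorem clMap_mk {ι : Type} {E : Set (MvPolynomial ι k)} {S : Type} [CommRing S] [Algebra k S]
    (x : ι → S) (hx : ∀ e ∈ E, aeval x e = 0) (p : MvPolynomial ι k) :
    clMap x hx (Ideal.Quotient.mk _ p) = aeval x p := rfl

/-- the universal twist -/
noncomputable def uChr (S : Type) [CommRing S] : Chr W (AddMonoidAlgebra S W) where
  toFun w := ⟨AddMonoidAlgebra.single w.toAdd 1, AddMonoidAlgebra.single (-w.toAdd) 1,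
    by rw [AddMonoidAlgebra.single_mul_single]; simp [AddMonoidAlgebra.one_def],
    by rw [AddMonoidAlgebra.single_mul_single]; simp [AddMonoidAlgebra.one_def]⟩
  map_one' := by ext1; simp [AddMonoidAlgebra.one_def]
  map_mul' v w := by ext1; simp [AddMonoidAlgebra.single_mul_single]

theorem chr_uChr (S : Type) [CommRing S] (w : W) :
    chr (uChr (W := W) S) w = AddMonoidAlgebra.single w 1 := rfl

theorem coeff_aeval_single {ι : Type} (wt : ι → W) {S : Type} [CommRing S] [Algebra k S]
    (x : ι → S) (w : W) (p : MvPolynomial ι k) :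
    (aeval (fun i => (AddMonoidAlgebra.single (wt i) (x i) : AddMonoidAlgebra S W)) p).coeff w
      = aeval x (weightedHomogeneousComponent wt w p) := by
  classical
  rw [weightedHomogeneousComponent_apply, aeval_def, eval₂_eq, map_sum, AddMonoidAlgebra.coeff_sum,
    Finsupp.finsetSum_apply, Finset.sum_filter]
  refine Finset.sum_congr rfl fun d hd => ?_
  have h1 : ∏ i ∈ d.support, (AddMonoidAlgebra.single (wt i) (x i) : AddMonoidAlgebra S W) ^ d i
      = AddMonoidAlgebra.single (Finsupp.weight wt d) (∏ i ∈ d.support, x i ^ d i) := by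
    rw [Finsupp.weight_apply, Finsupp.sum]
    induction d.support using Finset.induction_on with
    | empty => simp [AddMonoidAlgebra.one_def]
    | insert a s ha ih =>
      rw [Finset.prod_insert ha, Finset.sum_insert ha, Finset.prod_insert ha, ih,
        AddMonoidAlgebra.single_pow, AddMonoidAlgebra.single_mul_single]
  rw [h1, ← Algebra.smul_def, AddMonoidAlgebra.smul_single, AddMonoidAlgebra.coeff_single,
    Finsupp.single_apply]
  split_ifs with h
  · rw [aeval_monomial, Algebra.smul_def, Finsupp.prod]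
  · rfl

/-- a natural homogeneous function is given by a homogeneous polynomial -/
theorem NF.exists_poly {ι : Type} {wt : ι → W} {E : Set (MvPolynomial ι k)}
    {hE : ∀ e ∈ E, ∃ w, IsWeightedHomogeneous wt e w} {w : W} (h : NF (affGF ι wt E hE) w) :
    ∃ p : MvPolynomial ι k, IsWeightedHomogeneous wt p w ∧
      ∀ (S : Type) [CommRing S] [Algebra k S] (x : (affGF ι wt E hE).obj S),
        h.fn x = aeval x.1 p := by
  obtain ⟨p, hp⟩ := Ideal.Quotient.mk_surjective (I := Ideal.span E)
    (h.fn (uPt (wt := wt) (hE := hE)))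
  have key : ∀ (S : Type) [CommRing S] [Algebra k S] (x : (affGF ι wt E hE).obj S),
      x = (affGF ι wt E hE).tw (clMap x.1 x.2) 1 uPt := by
    intro S _ _ x
    apply Subtype.ext
    funext i
    show x.1 i = chr 1 (wt i) * clMap x.1 x.2 (Ideal.Quotient.mk _ (X i))
    rw [clMap_mk, chr_one, one_mul, aeval_X]
  have h1 : ∀ (S : Type) [CommRing S] [Algebra k S] (x : (affGF ι wt E hE).obj S),
      h.fn x = aeval x.1 p := by
    intro S _ _ x
    rw [key S x, h.fn_tw, ← hp, clMap_mk, chr_one, one_mul, ← key S x]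
  refine ⟨weightedHomogeneousComponent wt w p, weightedHomogeneousComponent_isWeightedHomogeneous _ _,
    ?_⟩
  -- compare with the universal twist
  let S₁ : Type := UA E
  let S₂ : Type := AddMonoidAlgebra S₁ W
  let φ : S₁ →ₐ[k] S₂ := IsScalarTower.toAlgHom k S₁ S₂
  have hφ : ∀ a : S₁, φ a = AddMonoidAlgebra.single 0 a := fun a => rfl
  have h2 := h.fn_tw φ (uChr S₁) (uPt (wt := wt) (hE := hE))
  rw [h1 S₂, h1 S₁, chr_uChr, hφ, AddMonoidAlgebra.single_mul_single, one_mul, add_zero] at h2
  have h3 : ((affGF ι wt E hE).tw φ (uChr S₁) (uPt (wt := wt) (hE := hE))).1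
      = fun i => (AddMonoidAlgebra.single (wt i) ((uPt (wt := wt) (hE := hE)).1 i) : S₂) := by
    funext i
    show chr (uChr S₁) (wt i) * φ ((uPt (wt := wt) (hE := hE)).1 i) = _
    rw [chr_uChr, hφ, AddMonoidAlgebra.single_mul_single, one_mul, add_zero]
  rw [h3] at h2
  have h4 := congrArg (fun z : S₂ => z.coeff w) h2
  beta_reduce at h4
  rw [coeff_aeval_single, AddMonoidAlgebra.coeff_single, Finsupp.single_eq_same] at h4
  intro S _ _ x
  rw [h1 S x]
  have h5 : ∀ q : MvPolynomial ι k, aeval x.1 q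
      = clMap x.1 x.2 (aeval (uPt (wt := wt) (hE := hE)).1 q) := by
    intro q
    have : (uPt (wt := wt) (hE := hE)).1 = fun i => Ideal.Quotient.mk (Ideal.span E) (X i) := rfl
    have h6 : (clMap x.1 x.2).comp (aeval (uPt (wt := wt) (hE := hE)).1) = aeval x.1 := by
      apply MvPolynomial.algHom_ext
      intro i
      rw [AlgHom.comp_apply, aeval_X, this, clMap_mk, aeval_X]
    rw [← h6]
    rfl
  rw [h5 p, ← h4, ← h5]

theorem inv_eq_of_mul {S : Type*} [CommRing S] {a b : S} (h : b * a = 1) : Ring.inverse a = b := by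
  have ha : IsUnit a := IsUnit.of_mul_eq_one_right _ h
  calc Ring.inverse a = (b * a) * Ring.inverse a := by rw [h, one_mul]
    _ = b := by rw [mul_assoc, Ring.mul_inverse_cancel _ ha, mul_one]

theorem weight_map {ι : Type} {W' : Type} [AddCommGroup W'] (ψ : W →+ W') (wt : ι → W)
    (d : ι →₀ ℕ) : Finsupp.weight (fun i => ψ (wt i)) d = ψ (Finsupp.weight wt d) := by
  rw [Finsupp.weight_apply, Finsupp.weight_apply, Finsupp.sum, Finsupp.sum, map_sum]
  simp

theorem IsWH_map {ι : Type} {W' : Type} [AddCommGroup W'] (ψ : W →+ W') {wt : ι → W}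
    {e : MvPolynomial ι k} {w : W} (he : IsWeightedHomogeneous wt e w) :
    IsWeightedHomogeneous (fun i => ψ (wt i)) e (ψ w) := by
  intro d hd
  rw [weight_map, he hd]

theorem IsWH_rename {ι ι' : Type} {wt : ι → W} {wt' : ι' → W} (f : ι → ι')
    (hf : ∀ i, wt' (f i) = wt i) {e : MvPolynomial ι k} {w : W}
    (he : IsWeightedHomogeneous wt e w) : IsWeightedHomogeneous wt' (rename f e) w := by
  intro d hd
  obtain ⟨u, hu, hu'⟩ := coeff_rename_ne_zero _ _ _ hd
  rw [← he hu', ← hu]
  have : wt = wt' ∘ f := funext fun i => (hf i).symm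
  rw [this]
  simp only [Finsupp.weight, LinearMap.toAddMonoidHom_coe]
  exact Finsupp.linearCombination_mapDomain ℕ f u

/-- functors of finite type: those isomorphic to the functor of points of an affine scheme of
finite type -/
def FT (F : GF k W) : Prop :=
  ∃ (ι : Type) (_ : Finite ι) (wt : ι → W) (E : Set (MvPolynomial ι k))
    (hE : ∀ e ∈ E, ∃ w, IsWeightedHomogeneous wt e w), Nonempty (GEquiv F (affGF ι wt E hE))

theorem FT.of_equiv {F G : GF k W} (e : GEquiv F G) (h : FT G) : FT F := by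
  obtain ⟨ι, hι, wt, E, hE, ⟨f⟩⟩ := h
  exact ⟨ι, hι, wt, E, hE, ⟨e.trans f⟩⟩

theorem FT.closed {F : GF k W} (hF : FT F)
    {P : (S : Type) → [CommRing S] → [Algebra k S] → F.obj S → Prop}
    (hP : ∀ {S S' : Type} [CommRing S] [Algebra k S] [CommRing S'] [Algebra k S']
      (φ : S →ₐ[k] S') (c : Chr W S') (x : F.obj S), P S x → P S' (F.tw φ c x))
    {A : Type} {w : A → W} (h : ∀ a, NF F (w a))
    (hh : ∀ (S : Type) [CommRing S] [Algebra k S] (x : F.obj S), P S x ↔ ∀ a, (h a).fn x = 0) :
    FT (F.sub P hP) := by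
  obtain ⟨ι, hι, wt, E, hE, ⟨f⟩⟩ := hF
  choose p hp hpx using fun a => ((h a).pull f.symm).exists_poly
  have hE' : ∀ e ∈ E ∪ Set.range p, ∃ w, IsWeightedHomogeneous wt e w := by
    rintro e (he | ⟨a, rfl⟩)
    · exact hE e he
    · exact ⟨_, hp a⟩
  refine ⟨ι, hι, wt, E ∪ Set.range p, hE', ⟨⟨fun S _ _ => ?_, ?_⟩⟩⟩
  · refine
      { toFun := fun x => ⟨(f.eq S x.1).1, ?_⟩
        invFun := fun y => ⟨(f.eq S).symm ⟨y.1, fun e he => y.2 e (Or.inl he)⟩, ?_⟩
        left_inv := ?_
        right_inv := ?_ }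
    · rintro e (he | ⟨a, rfl⟩)
      · exact (f.eq S x.1).2 e he
      · rw [← hpx a S (f.eq S x.1)]
        show (h a).fn ((f.eq S).symm (f.eq S x.1)) = 0
        rw [Equiv.symm_apply_apply]
        exact (hh S x.1).1 x.2 a
    · rw [hh]
      intro a
      have := hpx a S ⟨y.1, fun e he => y.2 e (Or.inl he)⟩
      change (h a).fn ((f.eq S).symm _) = _ at this
      rw [this]
      exact y.2 _ (Or.inr ⟨a, rfl⟩)
    · intro x
      apply Subtype.ext
      exact (f.eq S).symm_apply_apply x.1
    · intro y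
      apply Subtype.ext
      show (f.eq S ((f.eq S).symm ⟨y.1, _⟩)).1 = y.1
      rw [Equiv.apply_symm_apply]
  · intro S S' _ _ _ _ φ c x
    apply Subtype.ext
    show (f.eq S' (F.tw φ c x.1)).1 = _
    rw [f.eq_tw]
    rfl

theorem FT.unit {F : GF k W} (hF : FT F)
    {P : (S : Type) → [CommRing S] → [Algebra k S] → F.obj S → Prop}
    (hP : ∀ {S S' : Type} [CommRing S] [Algebra k S] [CommRing S'] [Algebra k S']
      (φ : S →ₐ[k] S') (c : Chr W S') (x : F.obj S), P S x → P S' (F.tw φ c x))
    {w : W} (h : NF F w)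
    (hh : ∀ (S : Type) [CommRing S] [Algebra k S] (x : F.obj S), P S x ↔ IsUnit (h.fn x)) :
    FT (F.sub P hP) := by
  obtain ⟨ι, hι, wt, E, hE, ⟨f⟩⟩ := hF
  obtain ⟨p, hp, hpx⟩ := (h.pull f.symm).exists_poly
  have hpx' : ∀ (S : Type) [CommRing S] [Algebra k S] (x : F.obj S),
      h.fn x = aeval (f.eq S x).1 p := by
    intro S _ _ x
    have := hpx S (f.eq S x)
    change h.fn ((f.eq S).symm (f.eq S x)) = _ at this
    rwa [Equiv.symm_apply_apply] at this
  let wt' : Option ι → W := fun o => o.elim (-w) wt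
  let q : MvPolynomial (Option ι) k := X none * rename some p - 1
  have hq : IsWeightedHomogeneous wt' q 0 := by
    refine IsWeightedHomogeneous.sub ?_ (isWeightedHomogeneous_one k wt')
    have h1 : IsWeightedHomogeneous wt' (X none : MvPolynomial (Option ι) k) (-w) :=
      isWeightedHomogeneous_X k wt' none
    have h2 : IsWeightedHomogeneous wt' (rename some p) w := IsWH_rename some (fun i => rfl) hp
    have := h1.mul h2
    rwa [neg_add_cancel] at this
  let E' : Set (MvPolynomial (Option ι) k) := insert q (rename some '' E)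
  have hE' : ∀ e ∈ E', ∃ w, IsWeightedHomogeneous wt' e w := by
    rintro e (rfl | ⟨e, he, rfl⟩)
    · exact ⟨0, hq⟩
    · obtain ⟨w, hw⟩ := hE e he
      exact ⟨w, IsWH_rename some (fun i => rfl) hw⟩
  have hren : ∀ (S : Type) [CommRing S] [Algebra k S] (y : Option ι → S) (e : MvPolynomial ι k),
      aeval y (rename some e) = aeval (fun i => y (some i)) e := by
    intro S _ _ y e
    rw [aeval_rename]
    rfl
  have hqe : ∀ (S : Type) [CommRing S] [Algebra k S] (y : Option ι → S),
      aeval y q = y none * aeval (fun i => y (some i)) p - 1 := by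
    intro S _ _ y
    rw [map_sub, map_mul, map_one, aeval_X, hren]
  refine ⟨Option ι, inferInstance, wt', E', hE', ⟨⟨fun S _ _ => ?_, ?_⟩⟩⟩
  · refine
      { toFun := fun x => ⟨fun o => o.elim (Ring.inverse (h.fn x.1)) (f.eq S x.1).1, ?_⟩
        invFun := fun y => ⟨(f.eq S).symm ⟨fun i => y.1 (some i), fun e he => ?_⟩, ?_⟩
        left_inv := ?_
        right_inv := ?_ }
    · rintro e (rfl | ⟨e, he, rfl⟩)
      · rw [hqe]
        have hu := (hh S x.1).1 x.2
        rw [hpx' S x.1] at hu
        show Ring.inverse (h.fn x.1) * aeval (f.eq S x.1).1 p - 1 = 0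
        rw [hpx' S x.1, Ring.inverse_mul_cancel _ hu, sub_self]
      · rw [hren]
        exact (f.eq S x.1).2 e he
    · rw [← hren]
      exact y.2 _ (Or.inr ⟨e, he, rfl⟩)
    · rw [hh, hpx', Equiv.apply_symm_apply]
      have := y.2 q (Or.inl rfl)
      rw [hqe, sub_eq_zero] at this
      exact IsUnit.of_mul_eq_one_right _ this
    · intro x
      apply Subtype.ext
      show (f.eq S).symm ⟨(f.eq S x.1).1, _⟩ = x.1
      exact (f.eq S).symm_apply_apply x.1
    · intro y
      apply Subtype.ext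
      funext o
      cases o with
      | some i =>
        show (f.eq S ((f.eq S).symm ⟨fun i => y.1 (some i), _⟩)).1 i = y.1 (some i)
        rw [Equiv.apply_symm_apply]
      | none =>
        show Ring.inverse (h.fn ((f.eq S).symm ⟨fun i => y.1 (some i), _⟩)) = y.1 none
        rw [hpx', Equiv.apply_symm_apply]
        have := y.2 q (Or.inl rfl)
        rw [hqe, sub_eq_zero] at this
        exact inv_eq_of_mul (by rw [mul_comm] at this; rwa [mul_comm] at this)
  · intro S S' _ _ _ _ φ c x
    apply Subtype.ext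
    funext o
    cases o with
    | some i =>
      show (f.eq S' (F.tw φ c x.1)).1 i = _
      rw [f.eq_tw]
      rfl
    | none =>
      show Ring.inverse (h.fn (F.tw φ c x.1)) = chr c (-w) * φ (Ring.inverse (h.fn x.1))
      have hu := (hh S x.1).1 x.2
      rw [h.fn_tw]
      apply inv_eq_of_mul
      rw [show chr c (-w) * φ (Ring.inverse (h.fn x.1)) * (chr c w * φ (h.fn x.1))
        = (chr c (-w) * chr c w) * (φ (Ring.inverse (h.fn x.1)) * φ (h.fn x.1)) by ring,
        chr_neg_mul, ← map_mul, Ring.inverse_mul_cancel _ hu, map_one, one_mul]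

theorem FT.prod {F G : GF k W} (hF : FT F) (hG : FT G) : FT (F.prod G) := by
  obtain ⟨ι, hι, wt, E, hE, ⟨f⟩⟩ := hF
  obtain ⟨ι', hι', wt', E', hE', ⟨g⟩⟩ := hG
  have hE'' : ∀ e ∈ rename (Sum.inl (β := ι')) '' E ∪ rename (Sum.inr (α := ι)) '' E',
      ∃ w, IsWeightedHomogeneous (Sum.elim wt wt') e w := by
    rintro e (⟨e, he, rfl⟩ | ⟨e, he, rfl⟩)
    · obtain ⟨w, hw⟩ := hE e he
      exact ⟨w, IsWH_rename _ (fun i => rfl) hw⟩
    · obtain ⟨w, hw⟩ := hE' e he
      exact ⟨w, IsWH_rename _ (fun i => rfl) hw⟩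
  refine ⟨ι ⊕ ι', inferInstance, Sum.elim wt wt', _, hE'', ⟨⟨fun S _ _ => ?_, ?_⟩⟩⟩
  · refine
      { toFun := fun x => ⟨Sum.elim (f.eq S x.1).1 (g.eq S x.2).1, ?_⟩
        invFun := fun y => ((f.eq S).symm ⟨fun i => y.1 (Sum.inl i), fun e he => ?_⟩,
          (g.eq S).symm ⟨fun i => y.1 (Sum.inr i), fun e he => ?_⟩)
        left_inv := ?_
        right_inv := ?_ }
    · rintro e (⟨e, he, rfl⟩ | ⟨e, he, rfl⟩)
      · rw [aeval_rename, Sum.elim_comp_inl]
        exact (f.eq S x.1).2 e he
      · rw [aeval_rename, Sum.elim_comp_inr]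
        exact (g.eq S x.2).2 e he
    · have := y.2 _ (Or.inl ⟨e, he, rfl⟩)
      rwa [aeval_rename] at this
    · have := y.2 _ (Or.inr ⟨e, he, rfl⟩)
      rwa [aeval_rename] at this
    · intro x
      exact Prod.ext ((f.eq S).symm_apply_apply x.1) ((g.eq S).symm_apply_apply x.2)
    · intro y
      apply Subtype.ext
      funext o
      cases o with
      | inl i =>
        show (f.eq S ((f.eq S).symm ⟨fun i => y.1 (Sum.inl i), _⟩)).1 i = y.1 (Sum.inl i)
        rw [Equiv.apply_symm_apply]
      | inr i =>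
        show (g.eq S ((g.eq S).symm ⟨fun i => y.1 (Sum.inr i), _⟩)).1 i = y.1 (Sum.inr i)
        rw [Equiv.apply_symm_apply]
  · intro S S' _ _ _ _ φ c x
    apply Subtype.ext
    funext o
    cases o with
    | inl i =>
      show (f.eq S' (F.tw φ c x.1)).1 i = _
      rw [f.eq_tw]
      rfl
    | inr i =>
      show (g.eq S' (G.tw φ c x.2)).1 i = _
      rw [g.eq_tw]
      rfl

theorem FT.mapWt {W' : Type} [AddCommGroup W'] (ψ : W →+ W') {F : GF k W} (hF : FT F) :
    FT (F.mapWt ψ) := by
  obtain ⟨ι, hι, wt, E, hE, ⟨f⟩⟩ := hF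
  refine ⟨ι, hι, fun i => ψ (wt i), E, fun e he => ?_, ⟨⟨fun S _ _ => f.eq S, ?_⟩⟩⟩
  · obtain ⟨w, hw⟩ := hE e he
    exact ⟨_, IsWH_map ψ hw⟩
  · intro S S' _ _ _ _ φ c x
    exact f.eq_tw φ (c.pull ψ) x

theorem FT.line (w : W) : FT (GF.line k w) := by
  refine ⟨Unit, inferInstance, fun _ => w, ∅, fun e he => he.elim, ⟨⟨fun S _ _ => ?_, ?_⟩⟩⟩
  · exact
      { toFun := fun x => ⟨fun _ => x, fun e he => he.elim⟩
        invFun := fun y => y.1 ()
        left_inv := fun x => rfl
        right_inv := fun y => rfl }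
  · intro S S' _ _ _ _ φ c x
    rfl

theorem FT.one : FT (GF.one k W) := by
  refine ⟨Empty, inferInstance, fun i => i.elim, ∅, fun e he => he.elim,
    ⟨⟨fun S _ _ => ?_, ?_⟩⟩⟩
  · exact
      { toFun := fun x => ⟨fun i => i.elim, fun e he => he.elim⟩
        invFun := fun y => ()
        left_inv := fun x => rfl
        right_inv := fun y => Subtype.ext (funext fun i => i.elim) }
  · intro S S' _ _ _ _ φ c x
    exact Subtype.ext (funext fun i => i.elim)

theorem FT.gm (w : W) : FT (GF.gm k w) :=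
  (FT.line w).unit (P := fun S _ _ x => IsUnit x)
    (fun φ c x hx => (chr_isUnit c w).mul (hx.map φ))
    (w := w) ⟨fun x => x, fun φ c x => rfl⟩ (fun S _ _ x => Iff.rfl)

end Pool.Agent.Helper6_Mono
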