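import Pool.Agent.Helper6_Mono.DecMul

/-!
# The fibre over `t ^ m`
-/

set_option autoImplicit false
set_option linter.unusedVariables false
set_option linter.unusedSectionVars false

namespace Pool.Agent.Helper6_Mono

open PowerSeries Finset

variable {k : Type} [Field k] {σ : Type}

section iso

variable {W : Type} [AddCommGroup W]

/-- free cells of order `m' < m` over `t ^ m` -/
theorem fib_free_iso (ω : W) (m m' n : ℕ) (hω : m • ω = 0) (hn : m' + n = m) (hn0 : 0 < n)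
    (Y : OverS k σ W) :
    OIso ((FibK k σ ω m hω).app ((GenK k σ ω m' n).app (withU Y (NF.zero Y.F (m' • ω))))) Y := by
  refine OIso.mk' (fun S _ _ p => p.1.1.1.1)
    (fun S _ _ y => ⟨(⟨(y, ⟨PowerSeries.X ^ n, ?_⟩), ?_⟩, ()), ?_⟩) ?_ ?_ ?_ ?_
  · intro j hj
    rw [coeff_X_pow, if_neg (by omega)]
  · intro _
    show coeff 0 (PowerSeries.X ^ n : S⟦X⟧) - 0 = 0
    rw [coeff_X_pow, if_neg (by omega), sub_zero]
  · intro j
    show coeff (j : ℕ) (PowerSeries.X ^ m' * PowerSeries.X ^ n : S⟦X⟧)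
      - (if (j : ℕ) = m then 1 else 0) = 0
    rw [← pow_add, hn, coeff_X_pow, sub_self]
  · intro S _ _ p
    refine Subtype.ext (Prod.ext (Subtype.ext (Prod.ext rfl (Subtype.ext ?_))) rfl)
    show PowerSeries.X ^ n = p.1.1.1.2.1
    ext i
    rcases Nat.lt_or_ge n i with hi | hi
    · rw [coeff_X_pow, if_neg (by omega), p.1.1.1.2.2 i (by omega)]
    · have h1 : coeff (m' + i) (PowerSeries.X ^ m' * p.1.1.1.2.1)
          - (if m' + i = m then 1 else 0) = 0 := p.2 ⟨m' + i, by omega⟩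
      rw [coeff_X_pow_mul', if_pos (by omega), Nat.add_sub_cancel_left, sub_eq_zero] at h1
      rw [h1, coeff_X_pow]
      split_ifs <;> first | rfl | omega
  · intro S _ _ y
    rfl
  · intro S S' _ _ _ _ φ c p
    rfl
  · intro S _ _ p b
    rfl

/-- the locus `u = 1` -/
@[reducible] def oneS {w : W} (Y : OverS k σ W) (u : NF Y.F w) (hw : w = 0) : OverS k σ W :=
  Y.sub (fun S _ _ x => u.fn x = 1) (fun φ c x hx => by
    rw [u.fn_tw, hx, map_one, mul_one, hw, chr_zero])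

theorem oneS_FT {w : W} (Y : OverS k σ W) (hY : FT Y.F) (u : NF Y.F w) (hw : w = 0) :
    FT (oneS Y u hw).F :=
  FT.closed hY (fun φ c x hx => by
    rw [u.fn_tw, hx, map_one, mul_one, hw, chr_zero])
    (A := Unit) (w := fun _ => 0)
    (fun _ => (u.cast hw).sub (NF.one _)) (fun S _ _ x =>
      ⟨fun hx _ => sub_eq_zero.2 hx, fun hx => sub_eq_zero.1 (hx ())⟩)

/-- cells of order `m` over `t ^ m` -/
theorem fib_reg_iso (ω : W) (m : ℕ) (hω : m • ω = 0) (Y : OverS k σ W) (u : NF Y.F (m • ω)) :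
    OIso ((FibK k σ ω m hω).app ((GenK k σ ω m 0).app (withU Y u))) (oneS Y u hω) := by
  have hz : ∀ {S : Type} [CommRing S] [Algebra k S]
      (p : ((GenK k σ ω m 0).app (withU Y u)).F.obj S), p.1.2.1 = C (u.fn p.1.1) := by
    intro S _ _ p
    have h0 : coeff 0 p.1.2.1 = u.fn p.1.1 := sub_eq_zero.1 (p.2 ())
    ext i
    rw [coeff_C]
    split_ifs with hi
    · rw [hi, h0]
    · rw [p.1.2.2 i (by omega)]
  refine OIso.mk' (fun S _ _ p => ⟨p.1.1.1.1, ?_⟩)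
    (fun S _ _ y => ⟨(⟨(y.1, ⟨1, ?_⟩), ?_⟩, ()), ?_⟩) ?_ ?_ ?_ ?_
  · have h1 : coeff m (PowerSeries.X ^ m * p.1.1.1.2.1)
          - (if m = m then 1 else 0) = 0 := p.2 ⟨m, by omega⟩
    rw [coeff_X_pow_mul', if_pos le_rfl, Nat.sub_self, if_pos rfl, hz p.1.1, coeff_C, if_pos rfl,
      sub_eq_zero] at h1
    exact h1
  · intro j hj
    rw [coeff_one, if_neg (by omega)]
  · intro _
    have h1 : u.fn y.1 = 1 := y.2
    show coeff 0 (1 : S⟦X⟧) - u.fn y.1 = 0
    rw [coeff_one, if_pos rfl, h1, sub_self]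
  · intro j
    show coeff (j : ℕ) (PowerSeries.X ^ m * 1 : S⟦X⟧)
      - (if (j : ℕ) = m then 1 else 0) = 0
    rw [mul_one, coeff_X_pow, sub_self]
  · intro S _ _ p
    refine Subtype.ext (Prod.ext (Subtype.ext (Prod.ext rfl (Subtype.ext ?_))) rfl)
    show (1 : S⟦X⟧) = p.1.1.1.2.1
    have h1 : coeff m (PowerSeries.X ^ m * p.1.1.1.2.1)
          - (if m = m then 1 else 0) = 0 := p.2 ⟨m, by omega⟩
    rw [coeff_X_pow_mul', if_pos le_rfl, Nat.sub_self, if_pos rfl, hz p.1.1, coeff_C, if_pos rfl,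
      sub_eq_zero] at h1
    rw [hz p.1.1, h1, map_one]
  · intro S _ _ y
    rfl
  · intro S S' _ _ _ _ φ c p
    rfl
  · intro S _ _ p b
    rfl

end iso

variable {R : Type*} [CommRing R] {L : Rˣ} (χ : SInv k (fun _ : σ => (0 : QZ)) L) {ω : QZ} {m : ℕ}
  (hω : m • ω = 0)

theorem FibK_FT {X : Over k QZ (σ ⊕ ℕ) (wser σ ω)} (hX : FT X.F) :
    FT ((FibK k σ ω m hω).app X).F := (FibK k σ ω m hω).app_FT hX

theorem fib_free {m' : ℕ} (h : m' < m) (Y : OverS k σ QZ) (hY : FT Y.F) :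
    ((χ.comp (FibK k σ ω m hω)).cell m m').χ (withU Y (NF.zero Y.F (m' • ω)))
      = Li L ^ (m - m') * χ.χ Y := by
  show Li L ^ (m - m') * χ.χ ((FibK k σ ω m hω).app ((GenK k σ ω m' (m - m')).app
    (withU Y (NF.zero Y.F (m' • ω))))) = _
  rw [χ.iso (FibK_FT hω (GenK_FT (X := withU Y (NF.zero Y.F (m' • ω))) hY))
    (fib_free_iso ω m m' (m - m') hω (by omega) (by omega) Y)]

theorem fib_reg (Y : OverS k σ QZ) (hY : FT Y.F) (u : NF Y.F (m • ω)) :
    ((χ.comp (FibK k σ ω m hω)).cell m m).χ (withU Y u) = χ.χ (oneS Y u hω) := by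
  show Li L ^ (m - m) * χ.χ ((FibK k σ ω m hω).app ((GenK k σ ω m (m - m)).app (withU Y u))) = _
  rw [Nat.sub_self, pow_zero, one_mul]
  exact χ.iso (FibK_FT hω (GenK_FT (n := 0) (X := withU Y u) hY)) (fib_reg_iso ω m hω Y u)

theorem fib_free_last (hm : 0 < m) (Y : OverS k σ QZ) (hY : FT Y.F) :
    ((χ.comp (FibK k σ ω m hω)).cell m m).χ (withU Y (NF.zero Y.F (m • ω))) = 0 := by
  rw [fib_reg χ hω Y hY]
  refine χ.empty (oneS_FT _ hY _ hω) fun S _ _ x => ?_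
  have h : (0 : S) = 1 := x.2
  exact h.symm

theorem fib_unit {m' : ℕ} (h : m' < m) (Y : OverS k σ QZ) (hY : FT Y.F) (u : NF Y.F (m' • ω))
    (hu : ∀ (S : Type) [CommRing S] [Algebra k S] (x : Y.F.obj S), IsUnit (u.fn x)) :
    ((χ.comp (FibK k σ ω m hω)).cell m m').χ (withU Y u) = 0 := by
  show Li L ^ (m - m') * χ.χ ((FibK k σ ω m hω).app ((GenK k σ ω m' (m - m')).app
    (withU Y u))) = _
  rw [χ.empty (FibK_FT hω (GenK_FT (X := withU Y u) hY)), mul_zero]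
  intro S _ _ p
  have h1 : coeff m' (PowerSeries.X ^ m' * p.1.1.1.2.1)
          - (if m' = m then 1 else 0) = 0 := p.2 ⟨m', by omega⟩
  rw [coeff_X_pow_mul', if_pos le_rfl, Nat.sub_self, if_neg (by omega), sub_zero] at h1
  have h2 : coeff 0 p.1.1.1.2.1 = u.fn p.1.1.1.1 := sub_eq_zero.1 (p.1.1.2 ())
  rw [h2] at h1
  have h3 := hu S p.1.1.1.1
  rw [h1, isUnit_zero_iff] at h3
  exact h3.symm

/-- the class of the locus `u = 1` of a regular cell -/
noncomputable def RCell.cl (c : RCell k σ) : R :=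
  χ.χ (oneS (twq c.Y ((1 / c.e : ℚ) : QZ)) ((c.u.mapWt _).cast (w := (0 : QZ)) (by
    rw [zmultiplesHom_apply, ← AddCircle.coe_zsmul, zsmul_eq_mul, Int.cast_natCast,
      mul_one_div_cancel (by exact_mod_cast c.he.ne')]
    exact AddCircle.coe_period 1)) rfl)

theorem oneS_congr {q q' w w' : QZ} (Y : OverS k σ ℤ) (hY : FT Y.F) (hq : q = q')
    (u : NF (twq Y q).F w) (u' : NF (twq Y q').F w') (hw : w = 0) (hw' : w' = 0)
    (hu : ∀ (S : Type) [CommRing S] [Algebra k S] (x : Y.F.obj S), u.fn x = u'.fn x) :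
    χ.χ (oneS (twq Y q) u hw) = χ.χ (oneS (twq Y q') u' hw') := by
  subst hq hw
  subst hw'
  rw [NF.ext' (g := u) (h := u') hu]

/-- the coefficients of the zeta function -/
theorem Dec.zeta [Finite σ] {g : MvPolynomial σ k} {S : Set ℚ} (D : Dec (k := k) L g Set.univ S)
    (m : ℕ) (hm : m ≠ 0) (hω : m • ((((1 : ℚ) / m : ℚ)) : QZ) = 0) :
    Li L ^ (m * Nat.card σ) * χ.χ ((FibK k σ ((((1:ℚ)/m : ℚ)) : QZ) m hω).app
        (Jet g Set.univ m ((((1:ℚ)/m : ℚ)) : QZ)))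
      = ∑ i, D.A i m * (D.r i).cl χ + ∑ j, conv L (D.C j) m * χ.χ (triv (D.fc j).Y) := by
  have h := D.main ((1 : ℚ) / m) (χ.comp (FibK k σ ((((1:ℚ)/m : ℚ)) : QZ) m hω)) m
  rw [Nat.card_univ, mul_comm (Nat.card σ) m] at h
  refine h.trans ?_
  have e1 : ∑ i, D.α i * (D.z i).val (χ.comp (FibK k σ ((((1:ℚ)/m : ℚ)) : QZ) m hω)) m = 0 := by
    refine Finset.sum_eq_zero fun i _ => ?_
    have := fib_unit χ hω (m' := 0) (by omega) (triv (D.z i).Y) (FT.mapWt _ (D.z i).ft)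
      ((D.z i).un _) (D.z i).hu
    exact (congrArg (D.α i * ·) this).trans (mul_zero _)
  have e2 : ∑ m' ∈ range (m + 1), ∑ i, D.A i m'
      * (D.r i).val (χ.comp (FibK k σ ((((1:ℚ)/m : ℚ)) : QZ) m hω)) m m'
      = ∑ i, D.A i m * (D.r i).cl χ := by
    rw [Finset.sum_range_succ, Finset.sum_eq_zero, zero_add]
    · refine Finset.sum_congr rfl fun i _ => congrArg (D.A i m * ·) ?_
      refine (fib_reg χ hω (twq (D.r i).Y _) (FT.mapWt _ (D.r i).ft) _).trans ?_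
      refine oneS_congr χ (D.r i).Y (D.r i).ft ?_ _ _ _ _ (fun S _ _ x => rfl)
      have hm' : (m : ℚ) ≠ 0 := by exact_mod_cast hm
      show (((m * ((1 : ℚ) / m) / (D.r i).e : ℚ)) : QZ) = _
      rw [mul_one_div_cancel hm']
    · intro m' hm'
      rw [Finset.mem_range] at hm'
      refine Finset.sum_eq_zero fun i _ => ?_
      have := fib_unit χ hω hm' (twq (D.r i).Y ((D.r i).q ((1 : ℚ) / m) m'))
        (FT.mapWt _ (D.r i).ft) ((D.r i).un _ m') (D.r i).hu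
      exact (congrArg (D.A i m' * ·) this).trans (mul_zero _)
  have e3 : ∑ m' ∈ range m, ∑ j, D.C j m'
      * (D.fc j).val (χ.comp (FibK k σ ((((1:ℚ)/m : ℚ)) : QZ) m hω)) m m'
      = ∑ j, conv L (D.C j) m * χ.χ (triv (D.fc j).Y) := by
    rw [Finset.sum_comm]
    refine Finset.sum_congr rfl fun j _ => ?_
    rw [conv, Finset.sum_mul]
    refine Finset.sum_congr rfl fun m' hm' => ?_
    rw [Finset.mem_range] at hm'
    have := fib_free χ hω hm' (triv (D.fc j).Y) (FT.mapWt _ (D.fc j).ft)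
    refine (congrArg (D.C j m' * ·) this).trans ?_
    ring
  have e4 : ∑ j, D.T j m
      * (D.fc j).val (χ.comp (FibK k σ ((((1:ℚ)/m : ℚ)) : QZ) m hω)) m m = 0 := by
    refine Finset.sum_eq_zero fun j _ => ?_
    have := fib_free_last χ hω (by omega) (triv (D.fc j).Y) (FT.mapWt _ (D.fc j).ft)
    exact (congrArg (D.T j m * ·) this).trans (mul_zero _)
  rw [e1, e2, e3, e4]
  ring

end Pool.Agent.Helper6_Mono
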