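import Mathlib

/-!
# Functors of points with an action of a diagonalizable group
-/

set_option autoImplicit false
set_option linter.unusedVariables false

namespace Pool.Agent.Helper6_Mono

/-- points of the diagonalizable group with character group `W` -/
abbrev Chr (W : Type) [AddCommGroup W] (S : Type) [CommRing S] : Type := Multiplicative W →* Sˣ

section chr

variable {W : Type} [AddCommGroup W] {S S' : Type} [CommRing S] [CommRing S']

/-- the value of the character `w` at the point `c` -/
def chr (c : Chr W S) (w : W) : S := ((c (Multiplicative.ofAdd w) : Sˣ) : S)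

/-- base change of points -/
def Chr.map (c : Chr W S) (φ : S →+* S') : Chr W S' := (Units.map (φ : S →* S')).comp c

/-- change of the group -/
def Chr.pull {W' : Type} [AddCommGroup W'] (ψ : W →+ W') (c : Chr W' S) : Chr W S :=
  c.comp (AddMonoidHom.toMultiplicative ψ)

@[simp] theorem chr_zero (c : Chr W S) : chr c (0 : W) = 1 := by simp [chr]

theorem chr_add (c : Chr W S) (v w : W) : chr c (v + w) = chr c v * chr c w := by
  simp [chr, ofAdd_add]

@[simp] theorem chr_one (w : W) : chr (1 : Chr W S) w = 1 := by simp [chr]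

@[simp] theorem chr_mul (c d : Chr W S) (w : W) : chr (c * d) w = chr c w * chr d w := by
  simp [chr]

@[simp] theorem chr_map (c : Chr W S) (φ : S →+* S') (w : W) : chr (c.map φ) w = φ (chr c w) := by
  simp [chr, Chr.map]

@[simp] theorem chr_pull {W' : Type} [AddCommGroup W'] (ψ : W →+ W') (c : Chr W' S) (w : W) :
    chr (c.pull ψ) w = chr c (ψ w) := rfl

theorem chr_nsmul (c : Chr W S) (n : ℕ) (w : W) : chr c (n • w) = chr c w ^ n := by
  simp [chr, ofAdd_nsmul]

theorem chr_isUnit (c : Chr W S) (w : W) : IsUnit (chr c w) := Units.isUnit _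

theorem chr_mul_neg (c : Chr W S) (w : W) : chr c w * chr c (-w) = 1 := by
  rw [← chr_add, add_neg_cancel, chr_zero]

theorem chr_neg_mul (c : Chr W S) (w : W) : chr c (-w) * chr c w = 1 := by
  rw [← chr_add, neg_add_cancel, chr_zero]

theorem Chr.ext' {c d : Chr W S} (h : ∀ w, chr c w = chr d w) : c = d := by
  ext w
  exact h (Multiplicative.toAdd w)

@[simp] theorem Chr.map_one' (φ : S →+* S') : (1 : Chr W S).map φ = 1 := by
  apply Chr.ext'; intro w; simp

@[simp] theorem Chr.pull_one {W' : Type} [AddCommGroup W'] (ψ : W →+ W') :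
    (1 : Chr W' S).pull ψ = 1 := by
  apply Chr.ext'; intro w; simp

end chr

variable (k : Type) [Field k] (W : Type) [AddCommGroup W]

/-- A set-valued functor on commutative `k`-algebras with an action of the diagonalizable group
with character group `W`. Functoriality and action are combined: `tw φ c` is the map induced by
`φ` followed by the action of `c`. -/
structure GF where
  obj : (S : Type) → [CommRing S] → [Algebra k S] → Type
  tw : {S S' : Type} → [CommRing S] → [Algebra k S] → [CommRing S'] → [Algebra k S'] →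
    (S →ₐ[k] S') → Chr W S' → obj S → obj S'
  tw_id : ∀ {S : Type} [CommRing S] [Algebra k S] (x : obj S), tw (AlgHom.id k S) 1 x = x
  tw_tw : ∀ {S S' S'' : Type} [CommRing S] [Algebra k S] [CommRing S'] [Algebra k S']
    [CommRing S''] [Algebra k S''] (φ : S →ₐ[k] S') (c : Chr W S') (ψ : S' →ₐ[k] S'')
    (d : Chr W S'') (x : obj S), tw ψ d (tw φ c x) = tw (ψ.comp φ) (d * c.map ψ) x

variable {k W}

/-- natural homogeneous functions of weight `w` -/
structure NF (F : GF k W) (w : W) where
  fn : {S : Type} → [CommRing S] → [Algebra k S] → F.obj S → S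
  fn_tw : ∀ {S S' : Type} [CommRing S] [Algebra k S] [CommRing S'] [Algebra k S']
    (φ : S →ₐ[k] S') (c : Chr W S') (x : F.obj S), fn (F.tw φ c x) = chr c w * φ (fn x)

/-- natural equivalences -/
structure GEquiv (F G : GF k W) where
  eq : (S : Type) → [CommRing S] → [Algebra k S] → F.obj S ≃ G.obj S
  eq_tw : ∀ {S S' : Type} [CommRing S] [Algebra k S] [CommRing S'] [Algebra k S']
    (φ : S →ₐ[k] S') (c : Chr W S') (x : F.obj S), eq S' (F.tw φ c x) = G.tw φ c (eq S x)

namespace GEquiv

variable {F G H : GF k W}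

/-- identity -/
def refl (F : GF k W) : GEquiv F F := ⟨fun _ => Equiv.refl _, fun _ _ _ => rfl⟩

/-- inverse -/
def symm (e : GEquiv F G) : GEquiv G F :=
  ⟨fun S => (e.eq S).symm, fun {S S'} _ _ _ _ φ c x => by
    rw [Equiv.symm_apply_eq, e.eq_tw, Equiv.apply_symm_apply]⟩

/-- composition -/
def trans (e : GEquiv F G) (f : GEquiv G H) : GEquiv F H :=
  ⟨fun S => (e.eq S).trans (f.eq S), fun {S S'} _ _ _ _ φ c x => by
    simp only [Equiv.trans_apply, e.eq_tw, f.eq_tw]⟩

/-- a natural bijection is a natural equivalence -/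
noncomputable def ofBij (f : (S : Type) → [CommRing S] → [Algebra k S] → F.obj S → G.obj S)
    (hf : ∀ {S S' : Type} [CommRing S] [Algebra k S] [CommRing S'] [Algebra k S']
      (φ : S →ₐ[k] S') (c : Chr W S') (x : F.obj S), f S' (F.tw φ c x) = G.tw φ c (f S x))
    (hb : ∀ (S : Type) [CommRing S] [Algebra k S], Function.Bijective (f S)) : GEquiv F G :=
  ⟨fun S => Equiv.ofBijective (f S) (hb S), fun φ c x => hf φ c x⟩

@[simp] theorem ofBij_eq (f : (S : Type) → [CommRing S] → [Algebra k S] → F.obj S → G.obj S)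
    (hf : ∀ {S S' : Type} [CommRing S] [Algebra k S] [CommRing S'] [Algebra k S']
      (φ : S →ₐ[k] S') (c : Chr W S') (x : F.obj S), f S' (F.tw φ c x) = G.tw φ c (f S x))
    (hb : ∀ (S : Type) [CommRing S] [Algebra k S], Function.Bijective (f S)) (S : Type)
    [CommRing S] [Algebra k S] (x : F.obj S) : (ofBij f hf hb).eq S x = f S x := rfl

end GEquiv

/-- pull back a function along an equivalence -/
def NF.pull {F G : GF k W} (e : GEquiv F G) {w : W} (h : NF G w) : NF F w :=
  ⟨fun {S} _ _ x => h.fn (e.eq S x), fun φ c x => by rw [e.eq_tw, h.fn_tw]⟩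

/-- subfunctors -/
@[reducible] def GF.sub (F : GF k W) (P : (S : Type) → [CommRing S] → [Algebra k S] → F.obj S → Prop)
    (hP : ∀ {S S' : Type} [CommRing S] [Algebra k S] [CommRing S'] [Algebra k S']
      (φ : S →ₐ[k] S') (c : Chr W S') (x : F.obj S), P S x → P S' (F.tw φ c x)) : GF k W where
  obj S _ _ := {x : F.obj S // P S x}
  tw φ c x := ⟨F.tw φ c x.1, hP φ c x.1 x.2⟩
  tw_id x := Subtype.ext (F.tw_id x.1)
  tw_tw φ c ψ d x := Subtype.ext (F.tw_tw φ c ψ d x.1)

/-- products -/
@[reducible] def GF.prod (F G : GF k W) : GF k W where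
  obj S _ _ := F.obj S × G.obj S
  tw φ c x := (F.tw φ c x.1, G.tw φ c x.2)
  tw_id x := Prod.ext (F.tw_id x.1) (G.tw_id x.2)
  tw_tw φ c ψ d x := Prod.ext (F.tw_tw φ c ψ d x.1) (G.tw_tw φ c ψ d x.2)

/-- change of the group -/
@[reducible] def GF.mapWt {W' : Type} [AddCommGroup W'] (ψ : W →+ W') (F : GF k W) : GF k W' where
  obj S _ _ := F.obj S
  tw φ c x := F.tw φ (c.pull ψ) x
  tw_id x := by rw [Chr.pull_one, F.tw_id]
  tw_tw φ c χ d x := by
    rw [F.tw_tw]
    congr 1

/-- the line of weight `w` -/
@[reducible] def GF.line (k : Type) [Field k] (w : W) : GF k W where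
  obj S _ _ := S
  tw φ c x := chr c w * φ x
  tw_id x := by simp
  tw_tw φ c ψ d x := by simp [mul_assoc]

/-- the punctured line of weight `w` -/
@[reducible] def GF.gm (k : Type) [Field k] (w : W) : GF k W where
  obj S _ _ := {x : S // IsUnit x}
  tw φ c x := ⟨chr c w * φ x.1, (chr_isUnit c w).mul (x.2.map φ)⟩
  tw_id x := Subtype.ext (by simp)
  tw_tw φ c ψ d x := Subtype.ext (by simp [mul_assoc])

/-- the point -/
@[reducible] def GF.one (k : Type) [Field k] (W : Type) [AddCommGroup W] : GF k W where
  obj S _ _ := Unit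
  tw φ c x := ()
  tw_id x := rfl
  tw_tw φ c ψ d x := rfl

end Pool.Agent.Helper6_Mono
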