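import Pool.Agent.Helper6_Mono.Sup

/-!
# Leading terms of weighted homogeneous polynomials; a one-variable Hensel lemma
-/

set_option autoImplicit false
set_option linter.unusedVariables false
set_option linter.unusedSectionVars false

namespace Pool.Agent.Helper6_Mono

open PowerSeries Finset

section Rel

variable {S : Type} [CommRing S]

/-- `U` has order at least `a * δ / D`, and `y` is the coefficient of this order
(`0` if this order is no integer) -/
def Rel (a D δ : ℕ) (U : S⟦X⟧) (y : S) : Prop :=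
  (∀ c, c * D < a * δ → coeff c U = 0) ∧ (∀ c, c * D = a * δ → coeff c U = y) ∧
    ((∀ c, c * D ≠ a * δ) → y = 0)

variable {a D δ δ' : ℕ} {U V : S⟦X⟧} {y z : S}

theorem Rel.zero (a D δ : ℕ) : Rel a D δ (0 : S⟦X⟧) 0 :=
  ⟨fun c _ => map_zero _, fun c _ => map_zero _, fun _ => rfl⟩

theorem Rel.one (hD : 0 < D) : Rel a D 0 (1 : S⟦X⟧) 1 := by
  refine ⟨fun c h => ?_, fun c h => ?_, fun h => ?_⟩
  · omega
  · have : c = 0 := by
      rcases Nat.eq_zero_or_pos c with h' | h'
      · exact h'
      · have := Nat.mul_pos h' hD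
        omega
    rw [this, coeff_one, if_pos rfl]
  · exact absurd (by simp) (h 0)

theorem Rel.add (h : Rel a D δ U y) (h' : Rel a D δ V z) : Rel a D δ (U + V) (y + z) :=
  ⟨fun c hc => by rw [map_add, h.1 c hc, h'.1 c hc, add_zero],
    fun c hc => by rw [map_add, h.2.1 c hc, h'.2.1 c hc],
    fun hc => by rw [h.2.2 hc, h'.2.2 hc, add_zero]⟩

theorem Rel.C_mul (h : Rel a D δ U y) (s : S) : Rel a D δ (C s * U) (s * y) :=
  ⟨fun c hc => by rw [coeff_C_mul, h.1 c hc, mul_zero],
    fun c hc => by rw [coeff_C_mul, h.2.1 c hc],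
    fun hc => by rw [h.2.2 hc, mul_zero]⟩

theorem Rel.mul (hD : 0 < D) (h : Rel a D δ U y) (h' : Rel a D δ' V z) :
    Rel a D (δ + δ') (U * V) (y * z) := by
  refine ⟨fun c hc => ?_, fun c hc => ?_, fun hc => ?_⟩
  · rw [coeff_mul]
    refine Finset.sum_eq_zero fun p hp => ?_
    have hp' := Finset.HasAntidiagonal.mem_antidiagonal.1 hp
    rcases lt_or_ge (p.1 * D) (a * δ) with h1 | h1
    · rw [h.1 _ h1, zero_mul]
    · have h2 : p.2 * D < a * δ' := by
        have e : p.1 * D + p.2 * D = c * D := by rw [← add_mul, hp']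
        rw [mul_add] at hc
        omega
      rw [h'.1 _ h2, mul_zero]
  · rw [coeff_mul]
    have key : ∀ p ∈ Finset.HasAntidiagonal.antidiagonal c, p.1 * D ≠ a * δ →
        coeff p.1 U * coeff p.2 V = 0 := by
      intro p hp h0
      have hp' := Finset.HasAntidiagonal.mem_antidiagonal.1 hp
      rcases lt_or_ge (p.1 * D) (a * δ) with h1 | h1
      · rw [h.1 _ h1, zero_mul]
      · have h2 : p.2 * D < a * δ' := by
          have e : p.1 * D + p.2 * D = c * D := by rw [← add_mul, hp']
          rw [mul_add] at hc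
          omega
        rw [h'.1 _ h2, mul_zero]
    by_cases hex : ∃ p, p * D = a * δ
    · obtain ⟨p, hp⟩ := hex
      have hpc : p ≤ c := by
        have : p * D ≤ c * D := by rw [hc, hp, mul_add]; omega
        exact Nat.le_of_mul_le_mul_right this hD
      have hq : (c - p) * D = a * δ' := by
        rw [Nat.sub_mul, hc, hp, mul_add]; omega
      rw [Finset.sum_eq_single (p, c - p)]
      · rw [h.2.1 _ hp, h'.2.1 _ hq]
      · intro q hq hqp
        refine key q hq fun h0 => hqp ?_
        have e1 : q.1 = p := Nat.eq_of_mul_eq_mul_right hD (h0.trans hp.symm)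
        have e2 := Finset.HasAntidiagonal.mem_antidiagonal.1 hq
        exact Prod.ext e1 (by show q.2 = c - p; omega)
      · intro h0
        exact absurd (Finset.HasAntidiagonal.mem_antidiagonal.2 (by show p + (c - p) = c; omega)) h0
    · have hno : ∀ p, p * D ≠ a * δ := fun p hp => hex ⟨p, hp⟩
      rw [Finset.sum_eq_zero fun p hp => key p hp (hno _), h.2.2 hno, zero_mul]
  · by_cases h1 : ∃ p, p * D = a * δ
    · by_cases h2 : ∃ q, q * D = a * δ'
      · obtain ⟨p, hp⟩ := h1
        obtain ⟨q, hq⟩ := h2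
        exact absurd (by rw [add_mul, hp, hq, mul_add]) (hc (p + q))
      · rw [h'.2.2 fun q hq => h2 ⟨q, hq⟩, mul_zero]
    · rw [h.2.2 fun p hp => h1 ⟨p, hp⟩, zero_mul]

theorem Rel.pow (hD : 0 < D) (h : Rel a D δ U y) (n : ℕ) : Rel a D (n * δ) (U ^ n) (y ^ n) := by
  induction n with
  | zero => rw [pow_zero, pow_zero, zero_mul]; exact Rel.one hD
  | succ n ih =>
    rw [pow_succ, pow_succ, add_mul, one_mul]
    exact ih.mul hD h

theorem Rel.sum {ι : Type} (T : Finset ι) {U : ι → S⟦X⟧} {y : ι → S}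
    (h : ∀ i ∈ T, Rel a D δ (U i) (y i)) : Rel a D δ (∑ i ∈ T, U i) (∑ i ∈ T, y i) := by
  classical
  induction T using Finset.induction_on with
  | empty => exact Rel.zero a D δ
  | insert i T hi ih =>
    rw [Finset.sum_insert hi, Finset.sum_insert hi]
    exact (h i (Finset.mem_insert_self _ _)).add
      (ih fun j hj => h j (Finset.mem_insert_of_mem hj))

theorem Rel.prod (hD : 0 < D) {ι : Type} (T : Finset ι) {U : ι → S⟦X⟧} {y : ι → S} {δ : ι → ℕ}
    (h : ∀ i ∈ T, Rel a D (δ i) (U i) (y i)) :
    Rel a D (∑ i ∈ T, δ i) (∏ i ∈ T, U i) (∏ i ∈ T, y i) := by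
  classical
  induction T using Finset.induction_on with
  | empty => exact Rel.one hD
  | insert i T hi ih =>
    rw [Finset.prod_insert hi, Finset.prod_insert hi, Finset.sum_insert hi]
    exact (h i (Finset.mem_insert_self _ _)).mul hD
      (ih fun j hj => h j (Finset.mem_insert_of_mem hj))

/-- leading terms of weighted homogeneous polynomials -/
theorem Rel.aeval (hD : 0 < D) {k : Type} [Field k] [Algebra k S] {ι : Type} {w : ι → ℕ}
    {P : MvPolynomial ι k} (hP : MvPolynomial.IsWeightedHomogeneous w P δ) {γ : ι → S⟦X⟧}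
    {x : ι → S} (h : ∀ i, Rel a D (w i) (γ i) (x i)) :
    Rel a D δ (MvPolynomial.aeval γ P) (MvPolynomial.aeval x P) := by
  rw [MvPolynomial.aeval_def, MvPolynomial.aeval_def, MvPolynomial.eval₂_eq,
    MvPolynomial.eval₂_eq]
  refine Rel.sum _ fun α hα => ?_
  have hw : Finsupp.weight w α = δ := hP (MvPolynomial.mem_support_iff.1 hα)
  rw [Finsupp.weight_apply, Finsupp.sum] at hw
  rw [PowerSeries.algebraMap_apply, ← hw]
  refine Rel.C_mul (Rel.prod hD _ fun i _ => ?_) _
  rw [smul_eq_mul]
  exact (h i).pow hD _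

theorem Rel.floor (hD : 0 < D) (h : Rel a D δ U y) :
    (∀ c, c < a * δ / D → coeff c U = 0) ∧ coeff (a * δ / D) U = y := by
  refine ⟨fun c hc => h.1 c ?_, ?_⟩
  · have h1 : (c + 1) * D ≤ a * δ := (Nat.le_div_iff_mul_le hD).1 hc
    rw [add_mul, one_mul] at h1
    omega
  · rcases Nat.lt_or_ge (a * δ / D * D) (a * δ) with h1 | h1
    · rw [h.1 _ h1, h.2.2]
      intro c hc
      rw [← hc, Nat.mul_div_cancel _ hD] at h1
      exact lt_irrefl _ h1
    · exact h.2.1 _ (le_antisymm (Nat.div_mul_le_self _ _) h1)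

end Rel

/-! ### The character of weighted homogeneous polynomials on a coordinate subspace -/

theorem aeval_tw_supp {k : Type} [Field k] {W : Type} [AddCommGroup W] {ι : Type} {wt : ι → W}
    {e : MvPolynomial ι k} {w : W} {U : Set ι}
    (he : ∀ α ∈ e.support, (∀ i ∈ α.support, i ∈ U) → Finsupp.weight wt α = w)
    {S S' : Type} [CommRing S] [Algebra k S] [CommRing S'] [Algebra k S'] (φ : S →ₐ[k] S')
    (c : Chr W S') (x : ι → S) (hx : ∀ i, i ∉ U → x i = 0) :
    MvPolynomial.aeval (fun i => chr c (wt i) * φ (x i)) e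
      = chr c w * φ (MvPolynomial.aeval x e) := by
  classical
  rw [MvPolynomial.aeval_def, MvPolynomial.aeval_def, MvPolynomial.eval₂_eq,
    MvPolynomial.eval₂_eq, map_sum, Finset.mul_sum]
  refine Finset.sum_congr rfl fun d hd => ?_
  by_cases hU : ∀ i ∈ d.support, i ∈ U
  · have hw : Finsupp.weight wt d = w := he d hd hU
    have h1 : chr c w = ∏ i ∈ d.support, chr c (wt i) ^ d i := by
      rw [← hw, Finsupp.weight_apply, Finsupp.sum]
      induction d.support using Finset.induction_on with
      | empty => simp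
      | insert a s ha ih =>
        rw [Finset.sum_insert ha, Finset.prod_insert ha, chr_add, ih, chr_nsmul]
    rw [h1, map_mul, map_prod, AlgHom.commutes]
    simp only [mul_pow, Finset.prod_mul_distrib, map_pow]
    ring
  · push Not at hU
    obtain ⟨i, hi, hiU⟩ := hU
    have hne : d i ≠ 0 := Finsupp.mem_support_iff.1 hi
    rw [Finset.prod_eq_zero hi (by rw [hx i hiU, map_zero, mul_zero, zero_pow hne]),
      Finset.prod_eq_zero hi (by rw [hx i hiU, zero_pow hne]), mul_zero, mul_zero, map_zero,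
      mul_zero]

/-! ### Divided differences -/

section dd

variable {k : Type} [Field k] {ι : Type} [DecidableEq ι]

/-- the weights of the variables and of the increment of the variable `j` -/
def wdd (j : ι) (w : ι → ℕ) : Option ι → ℕ := fun o => o.elim (w j) w

/-- `P` has a homogeneous divided difference with respect to the variable `j` -/
def HasDD (j : ι) (w : ι → ℕ) (P : MvPolynomial ι k) (δ : ℤ) : Prop :=
  MvPolynomial.IsWeightedHomogeneous (fun i => (w i : ℤ)) P δ ∧
  ∃ Q : MvPolynomial (Option ι) k,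
    MvPolynomial.IsWeightedHomogeneous (fun o => (wdd j w o : ℤ)) Q (δ - w j) ∧
    MvPolynomial.aeval (fun i => MvPolynomial.X (some i) + if i = j then MvPolynomial.X none
      else 0) P = MvPolynomial.rename some P + MvPolynomial.X none * Q ∧
    MvPolynomial.aeval (fun o : Option ι => o.elim 0 MvPolynomial.X) Q = MvPolynomial.pderiv j P

variable {j : ι} {w : ι → ℕ} {P P' : MvPolynomial ι k} {δ δ' : ℤ}

theorem HasDD.one : HasDD j w (1 : MvPolynomial ι k) 0 :=
  ⟨MvPolynomial.isWeightedHomogeneous_one _ _, 0,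
    MvPolynomial.isWeightedHomogeneous_zero _ _ _, by simp, by simp⟩

theorem HasDD.zero : HasDD j w (0 : MvPolynomial ι k) δ :=
  ⟨MvPolynomial.isWeightedHomogeneous_zero _ _ _, 0,
    MvPolynomial.isWeightedHomogeneous_zero _ _ _, by simp, by simp⟩

theorem HasDD.X (i : ι) : HasDD j w (MvPolynomial.X i : MvPolynomial ι k) (w i) := by
  refine ⟨MvPolynomial.isWeightedHomogeneous_X _ _ _, if i = j then 1 else 0, ?_, ?_, ?_⟩
  · split_ifs with h
    · rw [h, sub_self]
      exact MvPolynomial.isWeightedHomogeneous_one _ _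
    · exact MvPolynomial.isWeightedHomogeneous_zero _ _ _
  · rw [MvPolynomial.aeval_X, MvPolynomial.rename_X]
    split_ifs
    · rw [mul_one]
    · rw [mul_zero]
  · by_cases h : i = j
    · rw [if_pos h, map_one, h, MvPolynomial.pderiv_X_self]
    · rw [if_neg h, map_zero, MvPolynomial.pderiv_X_of_ne h]

theorem HasDD.add (h : HasDD j w P δ) (h' : HasDD j w P' δ) : HasDD j w (P + P') δ := by
  obtain ⟨h0, Q, h1, h2, h3⟩ := h
  obtain ⟨h0', Q', h1', h2', h3'⟩ := h'
  refine ⟨h0.add h0', Q + Q', h1.add h1', ?_, ?_⟩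
  · rw [map_add, h2, h2', map_add]; ring
  · rw [map_add, h3, h3', map_add]

theorem HasDD.C_mul (h : HasDD j w P δ) (a : k) : HasDD j w (MvPolynomial.C a * P) δ := by
  obtain ⟨h0, Q, h1, h2, h3⟩ := h
  refine ⟨h0.C_mul a, MvPolynomial.C a * Q, h1.C_mul a, ?_, ?_⟩
  · rw [map_mul, h2, map_mul, MvPolynomial.rename_C, MvPolynomial.algHom_C]
    show MvPolynomial.C a * _ = _
    ring
  · rw [map_mul, h3, MvPolynomial.algHom_C, Derivation.leibniz, MvPolynomial.pderiv_C]
    show MvPolynomial.C a * _ = _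
    simp

theorem rename_aeval_elim (P : MvPolynomial ι k) :
    MvPolynomial.aeval (fun o : Option ι => o.elim (0 : MvPolynomial ι k) MvPolynomial.X)
      (MvPolynomial.rename some P) = P := by
  rw [MvPolynomial.aeval_rename]
  show MvPolynomial.aeval (fun i => MvPolynomial.X i) P = P
  exact MvPolynomial.aeval_X_left_apply P

theorem IsWH_rename_nat {w : ι → ℕ} {j : ι} {P : MvPolynomial ι k} {δ : ℤ}
    (h : MvPolynomial.IsWeightedHomogeneous (fun i => (w i : ℤ)) P δ) :
    MvPolynomial.IsWeightedHomogeneous (fun o => (wdd j w o : ℤ)) (MvPolynomial.rename some P)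
      δ := IsWH_rename some (fun i => rfl) h

theorem HasDD.mul (h : HasDD j w P δ) (h' : HasDD j w P' δ') :
    HasDD j w (P * P') (δ + δ') := by
  obtain ⟨h0, Q, h1, h2, h3⟩ := h
  obtain ⟨h0', Q', h1', h2', h3'⟩ := h'
  refine ⟨h0.mul h0', Q * MvPolynomial.rename some P' + MvPolynomial.rename some P * Q'
    + MvPolynomial.X none * (Q * Q'), ?_, ?_, ?_⟩
  · refine (MvPolynomial.IsWeightedHomogeneous.add ?_ ?_).add ?_
    · have := h1.mul (IsWH_rename_nat (j := j) h0')
      rwa [show δ - w j + δ' = δ + δ' - w j by ring] at this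
    · have := (IsWH_rename_nat (j := j) h0).mul h1'
      rwa [show δ + (δ' - w j) = δ + δ' - w j by ring] at this
    · have := (MvPolynomial.isWeightedHomogeneous_X k (fun o => (wdd j w o : ℤ)) none).mul
        (h1.mul h1')
      have e : (wdd j w none : ℤ) + (δ - w j + (δ' - w j)) = δ + δ' - w j := by
        show (w j : ℤ) + (δ - w j + (δ' - w j)) = δ + δ' - w j
        ring
      rwa [e] at this
  · rw [map_mul, h2, h2', map_mul]; ring
  · rw [map_add, map_add, map_mul, map_mul, map_mul, rename_aeval_elim, rename_aeval_elim,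
      MvPolynomial.aeval_X, h3, h3', Derivation.leibniz]
    show _ + _ + 0 * _ = _
    rw [smul_eq_mul, smul_eq_mul]
    ring

theorem HasDD.pow (h : HasDD j w P δ) (n : ℕ) : HasDD j w (P ^ n) (n * δ) := by
  induction n with
  | zero => rw [pow_zero, Nat.cast_zero, zero_mul]; exact HasDD.one
  | succ n ih =>
    rw [pow_succ, Nat.cast_succ, add_mul, one_mul]
    exact ih.mul h

theorem HasDD.prod {T : Finset ι} {P : ι → MvPolynomial ι k} {δ : ι → ℤ}
    (h : ∀ i ∈ T, HasDD j w (P i) (δ i)) : HasDD j w (∏ i ∈ T, P i) (∑ i ∈ T, δ i) := by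
  induction T using Finset.induction_on with
  | empty => exact HasDD.one
  | insert i T hi ih =>
    rw [Finset.prod_insert hi, Finset.sum_insert hi]
    exact (h i (Finset.mem_insert_self _ _)).mul
      (ih fun j hj => h j (Finset.mem_insert_of_mem hj))

theorem HasDD.sum {T : Finset (ι →₀ ℕ)} {P : (ι →₀ ℕ) → MvPolynomial ι k}
    (h : ∀ i ∈ T, HasDD j w (P i) δ) : HasDD j w (∑ i ∈ T, P i) δ := by
  induction T using Finset.induction_on with
  | empty => exact HasDD.zero
  | insert i T hi ih =>
    rw [Finset.sum_insert hi]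
    exact (h i (Finset.mem_insert_self _ _)).add
      (ih fun j hj => h j (Finset.mem_insert_of_mem hj))

theorem weight_cast {κ : Type} (w : κ → ℕ) (α : κ →₀ ℕ) :
    Finsupp.weight (fun i => (w i : ℤ)) α = ((Finsupp.weight w α : ℕ) : ℤ) := by
  rw [Finsupp.weight_apply, Finsupp.weight_apply, Finsupp.sum, Finsupp.sum, Nat.cast_sum]
  refine Finset.sum_congr rfl fun i _ => ?_
  simp

theorem HasDD.of_wh {n : ℕ} (hP : MvPolynomial.IsWeightedHomogeneous w P n) :
    HasDD j w P n := by
  rw [← MvPolynomial.support_sum_monomial_coeff P]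
  refine HasDD.sum fun α hα => ?_
  rw [MvPolynomial.monomial_eq]
  refine HasDD.C_mul ?_ _
  have hw : Finsupp.weight w α = n := hP (MvPolynomial.mem_support_iff.1 hα)
  rw [Finsupp.weight_apply, Finsupp.sum] at hw
  have h1 : HasDD j w (∏ i ∈ α.support, (MvPolynomial.X i : MvPolynomial ι k) ^ α i)
      (∑ i ∈ α.support, (α i : ℤ) * (w i : ℤ)) := HasDD.prod fun i _ => (HasDD.X i).pow _
  rw [← hw, Nat.cast_sum]
  simpa [Finsupp.prod] using h1

theorem wh_nat {κ : Type} {w : κ → ℕ} {Q : MvPolynomial κ k} {n : ℕ}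
    (h : MvPolynomial.IsWeightedHomogeneous (fun i => (w i : ℤ)) Q n) :
    MvPolynomial.IsWeightedHomogeneous w Q n := by
  intro α hα
  have := h hα
  rw [weight_cast] at this
  exact_mod_cast this

/-- the divided difference -/
theorem exists_dd {d : ℕ} (hP : MvPolynomial.IsWeightedHomogeneous w P d) (hj : w j ≤ d) :
    ∃ Q : MvPolynomial (Option ι) k,
      MvPolynomial.IsWeightedHomogeneous (wdd j w) Q (d - w j) ∧
      (∀ {S : Type} [CommRing S] [Algebra k S] (γ : ι → S) (y y' : S),
        MvPolynomial.aeval (Function.update γ j y') P - MvPolynomial.aeval (Function.update γ j y) P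
          = (y' - y) * MvPolynomial.aeval (fun o : Option ι => o.elim (y' - y)
            (Function.update γ j y)) Q) ∧
      (∀ {S : Type} [CommRing S] [Algebra k S] (x : ι → S),
        MvPolynomial.aeval (fun o : Option ι => o.elim 0 x) Q
          = MvPolynomial.aeval x (MvPolynomial.pderiv j P)) := by
  obtain ⟨-, Q, h1, h2, h3⟩ := HasDD.of_wh (j := j) hP
  refine ⟨Q, wh_nat ?_, fun {S} _ _ γ y y' => ?_, fun {S} _ _ x => ?_⟩
  · rw [Nat.cast_sub hj]
    exact h1
  · have h4 := congrArg (MvPolynomial.aeval (fun o : Option ι => o.elim (y' - y)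
      (Function.update γ j y))) h2
    rw [map_add, map_mul, MvPolynomial.aeval_X, MvPolynomial.aeval_rename] at h4
    have e1 : MvPolynomial.aeval ((fun o : Option ι => o.elim (y' - y)
        (Function.update γ j y)) ∘ some) P = MvPolynomial.aeval (Function.update γ j y) P := rfl
    have e2 : MvPolynomial.aeval (fun o : Option ι => o.elim (y' - y) (Function.update γ j y))
        (MvPolynomial.aeval (fun i => MvPolynomial.X (some i) + if i = j then
          (MvPolynomial.X none : MvPolynomial (Option ι) k) else 0) P)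
        = MvPolynomial.aeval (Function.update γ j y') P := by
      rw [MvPolynomial.comp_aeval_apply]
      congr 2
      funext i
      rw [map_add, MvPolynomial.aeval_X]
      by_cases hi : i = j
      · subst hi
        rw [if_pos rfl, MvPolynomial.aeval_X, Function.update_self]
        show Function.update γ i y i + (y' - y) = y'
        rw [Function.update_self]; ring
      · rw [if_neg hi, map_zero, add_zero, Function.update_of_ne hi]
        show Function.update γ j y i = γ i
        rw [Function.update_of_ne hi]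
    rw [e1, e2] at h4
    rw [h4]
    show _ + (y' - y) * _ - _ = _
    ring
  · rw [← h3, MvPolynomial.comp_aeval_apply]
    congr 2
    funext o
    cases o with
    | none => show (0 : S) = MvPolynomial.aeval x 0; rw [map_zero]
    | some i => show x i = MvPolynomial.aeval x (MvPolynomial.X i); rw [MvPolynomial.aeval_X]

end dd

/-! ### Hensel's lemma in one variable -/

section hensel

variable {S : Type} [CommRing S]

theorem mul_low {ε T : S⟦X⟧} {n r : ℕ} (h1 : ∀ c < n, coeff c ε = 0)
    (h2 : ∀ c < r, coeff c T = 0) :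
    (∀ c < n + r, coeff c (ε * T) = 0) ∧
      coeff (n + r) (ε * T) = coeff n ε * coeff r T := by
  obtain ⟨ε', rfl⟩ := X_pow_dvd_iff.2 h1
  obtain ⟨T', rfl⟩ := X_pow_dvd_iff.2 h2
  have e : (X : S⟦X⟧) ^ n * ε' * (X ^ r * T') = X ^ (n + r) * (ε' * T') := by ring
  rw [e]
  refine ⟨fun c hc => ?_, ?_⟩
  · rw [coeff_X_pow_mul', if_neg (by omega)]
  · rw [coeff_X_pow_mul', if_pos le_rfl, coeff_X_pow_mul', if_pos le_rfl, coeff_X_pow_mul',
      if_pos le_rfl, Nat.sub_self, Nat.sub_self, Nat.sub_self, coeff_zero_mul]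

/-- triangular maps with diagonal entry `v`: the coefficient `n + r` of the value depends on the
coefficients up to `n`, and linearly on the coefficient `n` with factor `v` (`n ≥ b`) -/
def Tri (F : S⟦X⟧ → S⟦X⟧) (b r : ℕ) (v : S) (y₀ : S⟦X⟧) : Prop :=
  ∀ (n : ℕ) (y y' : S⟦X⟧), b ≤ n → (∀ c < b, coeff c y = coeff c y₀) →
    (∀ c < n, coeff c y = coeff c y') →
    (∀ c < n + r, coeff c (F y) = coeff c (F y')) ∧
      coeff (n + r) (F y') - coeff (n + r) (F y) = (coeff n y' - coeff n y) * v

variable {F : S⟦X⟧ → S⟦X⟧} {b r : ℕ} {v : S} {y₀ : S⟦X⟧}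

theorem Tri.unique (hF : Tri F b r v y₀) (hv : IsUnit v) {q : ℕ} {y y' : S⟦X⟧}
    (hy : ∀ c < b, coeff c y = coeff c y₀) (hy' : ∀ c < b, coeff c y' = coeff c y₀)
    (hq : ∀ c, q ≤ c → coeff c y = coeff c y')
    (h : ∀ c < q + r, coeff c (F y) = coeff c (F y')) : y = y' := by
  have key : ∀ n, ∀ c < n, coeff c y = coeff c y' := by
    intro n
    induction n with
    | zero => intro c hc; omega
    | succ n ih =>
      intro c hc
      rcases Nat.lt_or_ge c n with h1 | h1
      · exact ih c h1
      · obtain rfl : c = n := by omega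
        rcases Nat.lt_or_ge c b with h2 | h2
        · rw [hy c h2, hy' c h2]
        · rcases Nat.lt_or_ge c q with h3 | h3
          · have h4 := (hF c y y' h2 hy ih).2
            rw [h (c + r) (by omega), sub_self] at h4
            have h5 := (IsUnit.mul_left_eq_zero hv).1 h4.symm
            exact (sub_eq_zero.1 h5).symm
          · exact hq c h3
  ext c
  exact key (c + 1) c (by omega)

theorem Tri.exists (hF : Tri F b r v y₀) (hv : IsUnit v) {h : S⟦X⟧}
    (h0 : ∀ c < b + r, coeff c (F y₀) = coeff c h) {q : ℕ} (hq : b ≤ q) :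
    ∃ y : S⟦X⟧, (∀ c < b, coeff c y = coeff c y₀) ∧ (∀ c, q ≤ c → coeff c y = coeff c y₀) ∧
      ∀ c < q + r, coeff c (F y) = coeff c h := by
  obtain ⟨u, hu⟩ := hv.exists_right_inv
  induction q, hq using Nat.le_induction with
  | base => exact ⟨y₀, fun c _ => rfl, fun c _ => rfl, h0⟩
  | succ q hq ih =>
    obtain ⟨y, h1, h2, h3⟩ := ih
    let y' : S⟦X⟧ := y + C ((coeff (q + r) h - coeff (q + r) (F y)) * u) * X ^ q
    have hy' : ∀ c, c ≠ q → coeff c y' = coeff c y := by
      intro c hc
      rw [map_add, coeff_C_mul, coeff_X_pow, if_neg hc, mul_zero, add_zero]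
    have hy'q : coeff q y' = coeff q y + (coeff (q + r) h - coeff (q + r) (F y)) * u := by
      rw [map_add, coeff_C_mul, coeff_X_pow, if_pos rfl, mul_one]
    have h4 := hF q y y' hq h1 (fun c hc => (hy' c (by omega)).symm)
    refine ⟨y', fun c hc => by rw [hy' c (by omega), h1 c hc], fun c hc => by
      rw [hy' c (by omega), h2 c (by omega)], fun c hc => ?_⟩
    rcases Nat.lt_or_ge c (q + r) with h5 | h5
    · rw [← h4.1 c h5, h3 c h5]
    · obtain rfl : c = q + r := by omega
      have h6 := h4.2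
      rw [hy'q, add_sub_cancel_left, mul_assoc, mul_comm u v, hu, mul_one] at h6
      exact sub_left_injective h6

theorem tri_block {k : Type} [Field k] [Algebra k S] {σ : Type} [DecidableEq σ] {w : σ → ℕ}
    {g : MvPolynomial σ k} {d a D : ℕ} (hD : 0 < D)
    (hg : MvPolynomial.IsWeightedHomogeneous w g d) (j : σ) (hj : w j ≤ d)
    (hdiv : D ∣ a * (d - w j)) (γ₀ : σ → S⟦X⟧) (x : σ → S)
    (hx : ∀ i, Rel a D (w i) (γ₀ i) (x i)) :
    Tri (fun y => MvPolynomial.aeval (Function.update γ₀ j y) g) (a * w j / D + 1)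
      (a * (d - w j) / D) (MvPolynomial.aeval x (MvPolynomial.pderiv j g)) (γ₀ j) := by
  obtain ⟨Q, hQ, hQ1, hQ2⟩ := exists_dd hg hj
  intro n y y' hn hy hyy'
  have hlt : ∀ c, c * D ≤ a * w j → c < a * w j / D + 1 := fun c hc =>
    Nat.lt_succ_of_le ((Nat.le_div_iff_mul_le hD).2 hc)
  have hr : a * (d - w j) / D * D = a * (d - w j) := Nat.div_mul_cancel hdiv
  have hrel : Rel a D (d - w j) (MvPolynomial.aeval (fun o : Option σ => o.elim (y' - y)
      (Function.update γ₀ j y)) Q) (MvPolynomial.aeval x (MvPolynomial.pderiv j g)) := by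
    rw [← hQ2]
    refine Rel.aeval hD hQ fun o => ?_
    cases o with
    | none =>
      show Rel a D (w j) (y' - y) 0
      refine ⟨fun c hc => ?_, fun c hc => ?_, fun _ => rfl⟩
      · rw [map_sub, hyy' c (lt_of_lt_of_le (hlt c hc.le) hn), sub_self]
      · rw [map_sub, hyy' c (lt_of_lt_of_le (hlt c hc.le) hn), sub_self]
    | some i =>
      show Rel a D (w i) (Function.update γ₀ j y i) (x i)
      by_cases hi : i = j
      · subst hi
        rw [Function.update_self]
        refine ⟨fun c hc => ?_, fun c hc => ?_, (hx i).2.2⟩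
        · rw [hy c (hlt c hc.le), (hx i).1 c hc]
        · rw [hy c (hlt c hc.le), (hx i).2.1 c hc]
      · rw [Function.update_of_ne hi]
        exact hx i
  have h1 : ∀ c < n, coeff c (y' - y) = 0 := fun c hc => by
    rw [map_sub, hyy' c hc, sub_self]
  have h2 : ∀ c < a * (d - w j) / D, coeff c (MvPolynomial.aeval (fun o : Option σ =>
      o.elim (y' - y) (Function.update γ₀ j y)) Q) = 0 := (hrel.floor hD).1
  have h3 := mul_low h1 h2
  have h4 := hQ1 γ₀ y y'
  refine ⟨fun c hc => ?_, ?_⟩
  · have h5 := congrArg (coeff c) h4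
    rw [h3.1 c hc, map_sub, sub_eq_zero] at h5
    exact h5.symm
  · have h5 := congrArg (coeff (n + a * (d - w j) / D)) h4
    rw [h3.2, map_sub, (hrel.floor hD).2, map_sub] at h5
    exact h5

end hensel

end Pool.Agent.Helper6_Mono
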