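import Pool.Agent.Helper6_Mono.Shift

/-!
# Jets
-/

set_option autoImplicit false
set_option linter.unusedVariables false

namespace Pool.Agent.Helper6_Mono

open PowerSeries

variable {k : Type} [Field k] {σ : Type} {W : Type} [AddCommGroup W]

/-- jets of order `l` in the variables of the set `s`, `t` having weight `ω` -/
@[reducible] noncomputable def jetGF (k : Type) [Field k] (s : Set σ) (l : ℕ) (ω : W) : GF k W where
  obj S _ _ := {γ : σ → S⟦X⟧ // ∀ i j, (i ∉ s ∨ l < j) → coeff j (γ i) = 0}
  tw φ c γ := ⟨fun i => twS ω φ c (γ.1 i), fun i j h => by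
    rw [coeff_twS, γ.2 i j h, map_zero, mul_zero]⟩
  tw_id γ := Subtype.ext (funext fun i => twS_id ω _)
  tw_tw φ c ψ d γ := Subtype.ext (funext fun i => twS_twS ω φ c ψ d _)

/-- the jet space over the base of points and series: `γ ↦ (γ(0), g(γ) mod t ^ (l + 1))` -/
@[reducible] noncomputable def Jet (g : MvPolynomial σ k) (s : Set σ) (l : ℕ) (ω : W) :
    Over k W (σ ⊕ ℕ) (wser σ ω) where
  F := jetGF k s l ω
  pt b := match b with
    | Sum.inl i => ⟨fun γ => coeff 0 (γ.1 i), fun φ c γ => by
        show coeff 0 (twS ω φ c (γ.1 i)) = _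
        rw [coeff_twS, zero_smul]
        rfl⟩
    | Sum.inr j => ⟨fun γ => if j ≤ l then coeff j (MvPolynomial.aeval γ.1 g) else 0,
        fun φ c γ => by
          show (if j ≤ l then coeff j (MvPolynomial.aeval (fun i => twS ω φ c (γ.1 i)) g) else 0)
            = chr c (j • ω) * φ (if j ≤ l then coeff j (MvPolynomial.aeval γ.1 g) else 0)
          have : MvPolynomial.aeval (fun i => twS ω φ c (γ.1 i)) g
              = twS ω φ c (MvPolynomial.aeval γ.1 g) := by
            rw [← MvPolynomial.comp_aeval_apply]
          rw [this, coeff_twS]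
          split_ifs
          · rfl
          · rw [map_zero, mul_zero]⟩

/-- a power of the line -/
@[reducible] def GF.lines (k : Type) [Field k] (T : Type) (w : W) : GF k W where
  obj S _ _ := T → S
  tw φ c x := fun i => chr c w * φ (x i)
  tw_id x := by funext i; simp
  tw_tw φ c ψ d x := by funext i; simp [mul_assoc]

/-- reindexing -/
def GF.linesEquiv {T T' : Type} (e : T ≃ T') (w : W) : GEquiv (GF.lines k T' w) (GF.lines k T w) where
  eq S _ _ := e.symm.arrowCongr (Equiv.refl S)
  eq_tw φ c x := rfl

/-- one more factor -/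
def GF.linesOption (T : Type) (w : W) :
    GEquiv (GF.lines k (Option T) w) ((GF.lines k T w).prod (GF.line k w)) where
  eq S _ _ :=
    { toFun := fun x => (fun i => x (some i), x none)
      invFun := fun y => fun o => o.elim y.2 y.1
      left_inv := fun x => by funext o; cases o <;> rfl
      right_inv := fun y => rfl }
  eq_tw φ c x := rfl

/-- no factor -/
def GF.linesEmpty (w : W) : GEquiv (GF.lines k PEmpty w) (GF.one k W) where
  eq S _ _ :=
    { toFun := fun x => ()
      invFun := fun y => fun o => o.elim
      left_inv := fun x => by funext o; cases o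
      right_inv := fun y => rfl }
  eq_tw φ c x := rfl

theorem FT.lines (T : Type) [Finite T] (w : W) : FT (GF.lines k T w) := by
  induction T using Finite.induction_empty_option with
  | of_equiv e ih => exact FT.of_equiv (GF.linesEquiv e w) ih
  | h_empty => exact FT.of_equiv (GF.linesEmpty w) FT.one
  | h_option ih => exact FT.of_equiv (GF.linesOption _ w) (ih.prod (FT.line w))

theorem SInv.times_lines {β : Type} {wβ : β → QZ} {R : Type*} [CommRing R] {L : Rˣ}
    (χ : SInv k wβ L) {X : Over k QZ β wβ} (hX : FT X.F) (T : Type) [Finite T] (w : QZ) :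
    χ.χ (X.times (GF.lines k T w)) = (L : R) ^ (Nat.card T) * χ.χ X := by
  suffices h : Finite T ∧ χ.χ (X.times (GF.lines k T w)) = (L : R) ^ (Nat.card T) * χ.χ X from h.2
  induction T using Finite.induction_empty_option with
  | @of_equiv T T' e ih =>
    obtain ⟨hT, ih⟩ := ih
    have hT' : Finite T' := Finite.of_equiv T e
    refine ⟨hT', ?_⟩
    rw [χ.iso (hX.prod (FT.lines T' w)) (X.times_congr (GF.linesEquiv e w)), ih,
      Nat.card_congr e]
  | h_empty =>
    refine ⟨inferInstance, ?_⟩
    rw [χ.iso (hX.prod (FT.lines _ w)) (X.times_congr (GF.linesEmpty w)),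
      χ.iso (hX.prod FT.one) X.times_one]
    simp
  | @h_option T _ ih =>
    obtain ⟨hT, ih⟩ := ih
    refine ⟨inferInstance, ?_⟩
    rw [χ.iso (hX.prod (FT.lines _ w)) (X.times_congr (GF.linesOption T w)),
      χ.iso (hX.prod ((FT.lines T w).prod (FT.line w))) (X.times_prod _ _),
      χ.lin (hX.prod (FT.lines T w)), ih, Finite.card_option, pow_succ]
    ring

/-- adding one coefficient -/
noncomputable def jetSucc (s : Set σ) (l : ℕ) (ω : W) :
    GEquiv (jetGF k s (l + 1) ω) ((jetGF k s l ω).prod (GF.lines k s ((l + 1) • ω))) := by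
  classical
  exact
  { eq := fun S _ _ =>
      { toFun := fun γ => (⟨fun i => lowS l (γ.1 i), fun i j h => by
            rw [coeff_lowS]
            split_ifs with hj
            · exact γ.2 i j (by rcases h with h | h; exacts [Or.inl h, by omega])
            · rfl⟩, fun i => coeff (l + 1) (γ.1 i))
        invFun := fun p => ⟨fun i => p.1.1 i + C (if h : i ∈ s then p.2 ⟨i, h⟩ else 0)
            * PowerSeries.X ^ (l + 1), fun i j h => by
            rw [map_add, coeff_C_mul, coeff_X_pow]
            rcases h with h | h
            · rw [p.1.2 i j (Or.inl h), dif_neg h, zero_mul, add_zero]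
            · rw [p.1.2 i j (Or.inr (by omega)), if_neg (by omega), mul_zero, add_zero]⟩
        left_inv := fun γ => by
          apply Subtype.ext
          funext i
          ext j
          show coeff j (lowS l (γ.1 i) + C (if h : i ∈ s then
            coeff (l + 1) (γ.1 i) else 0) * PowerSeries.X ^ (l + 1)) = _
          rw [map_add, coeff_C_mul, coeff_X_pow, coeff_lowS]
          by_cases hi : i ∈ s
          · rw [dif_pos hi]
            rcases lt_trichotomy j (l + 1) with h | h | h
            · rw [if_pos (by omega), if_neg (by omega), mul_zero, add_zero]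
            · rw [if_neg (by omega), if_pos h, mul_one, zero_add, h]
            · rw [if_neg (by omega), if_neg (by omega), γ.2 i j (Or.inr h), mul_zero, add_zero]
          · rw [dif_neg hi, γ.2 i j (Or.inl hi)]
            split_ifs <;> ring
        right_inv := fun p => by
          refine Prod.ext (Subtype.ext ?_) ?_
          · funext i
            ext j
            show coeff j (lowS l (p.1.1 i + C (if h : i ∈ s then p.2 ⟨i, h⟩ else 0)
              * PowerSeries.X ^ (l + 1))) = _
            rw [coeff_lowS, map_add, coeff_C_mul, coeff_X_pow]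
            by_cases h1 : j ≤ l
            · rw [if_pos h1, if_neg (show ¬ j = l + 1 by omega), mul_zero, add_zero]
            · rw [if_neg h1, p.1.2 i j (Or.inr (by omega))]
          · show (fun i : s => coeff (l + 1) (p.1.1 i + C (if h : (i : σ) ∈ s then
              p.2 ⟨i, h⟩ else 0) * PowerSeries.X ^ (l + 1))) = p.2
            funext i
            rw [map_add, coeff_C_mul, coeff_X_pow, if_pos rfl, dif_pos i.2,
              p.1.2 i (l + 1) (Or.inr (by omega)), mul_one, zero_add] }
    eq_tw := fun {S S'} _ _ _ _ φ c γ => by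
      refine Prod.ext (Subtype.ext ?_) ?_
      · funext i
        show lowS l (twS ω φ c (γ.1 i)) = twS ω φ c (lowS l (γ.1 i))
        rw [twS_lowS]
      · funext i
        show coeff (l + 1) (twS ω φ c (γ.1 i)) = chr c ((l + 1) • ω) * φ (coeff (l + 1) (γ.1 i))
        rw [coeff_twS] }

/-- jets of order zero are points -/
noncomputable def jetZero (s : Set σ) (ω : W) : GEquiv (jetGF k s 0 ω) (GF.lines k s 0) := by
  classical
  exact
  { eq := fun S _ _ =>
      { toFun := fun γ => fun i => coeff 0 (γ.1 i)
        invFun := fun p => ⟨fun i => C (if h : i ∈ s then p ⟨i, h⟩ else 0), fun i j h => by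
            rw [coeff_C]
            rcases h with h | h
            · rw [dif_neg h, ite_self]
            · rw [if_neg (by omega)]⟩
        left_inv := fun γ => by
          apply Subtype.ext
          funext i
          ext j
          show coeff j (C (if h : i ∈ s then coeff 0 (γ.1 i) else 0)) = _
          rw [coeff_C]
          by_cases hi : i ∈ s
          · rw [dif_pos hi]
            split_ifs with h
            · rw [h]
            · rw [γ.2 i j (Or.inr (by omega))]
          · rw [dif_neg hi, γ.2 i j (Or.inl hi), ite_self]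
        right_inv := fun p => by
          funext i
          show coeff 0 (C (if h : (i : σ) ∈ s then p ⟨i, h⟩ else 0)) = p i
          rw [coeff_C, if_pos rfl, dif_pos i.2] }
    eq_tw := fun {S S'} _ _ _ _ φ c γ => by
      funext i
      show coeff 0 (twS ω φ c (γ.1 i)) = chr c 0 * φ (coeff 0 (γ.1 i))
      rw [coeff_twS, zero_smul] }

theorem FT.jet (s : Set σ) (hs : s.Finite) (l : ℕ) (ω : W) : FT (jetGF k s l ω) := by
  have : Finite s := hs
  induction l with
  | zero => exact FT.of_equiv (jetZero s ω) (FT.lines _ _)
  | succ l ih => exact FT.of_equiv (jetSucc s l ω) (ih.prod (FT.lines _ _))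

/-- the fibre over the series `t ^ m`, as a functor over the space of points; here `m • ω = 0` -/
@[reducible] noncomputable def FibK (k : Type) [Field k] (σ : Type) (ω : W) (m : ℕ)
    (hω : m • ω = 0) : Kern k W (σ ⊕ ℕ) (wser σ ω) σ (fun _ => 0) where
  K := GF.one k W
  hK := FT.one
  A := Fin (m + 1)
  wA j := (j : ℕ) • ω
  r j {S} _ _ b z := b (Sum.inr j) - if (j : ℕ) = m then 1 else 0
  r_tw j {S S'} _ _ _ _ φ c x z := by
    show chr c ((j : ℕ) • ω) * φ (x (Sum.inr j)) - (if (j : ℕ) = m then 1 else 0) = _
    rw [map_sub, mul_sub]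
    split_ifs with h
    · rw [h, hω, chr_zero, map_one, mul_one]
    · rw [map_zero, mul_zero]
  Φ i {S} _ _ b z := b (Sum.inl i)
  Φ_tw i {S S'} _ _ _ _ φ c x z := rfl

end Pool.Agent.Helper6_Mono
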