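import Pool.Agent.Helper6_Mono.MulFree

/-!
# Products of invertible cells
-/

set_option autoImplicit false
set_option linter.unusedVariables false
set_option linter.unusedSectionVars false

namespace Pool.Agent.Helper6_Mono

open PowerSeries Finset

variable {k : Type} [Field k] {σ : Type} {R : Type*} [CommRing R] {L : Rˣ}

/-- product of cells of order zero -/
@[reducible] def ZCell.mulZ (c d : ZCell k σ) : ZCell k σ where
  Y := prS c.Y d.Y
  ft := c.ft.prod d.ft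
  u := ((c.u.fst d.Y.F).mul (d.u.snd c.Y.F)).cast (add_zero _)
  hu S _ _ x := (c.hu S x.1).mul (d.hu S x.2)

/-- product of a regular cell with an invertible cell -/
@[reducible] def RCell.mulX (c : RCell k σ) (Z : OverS k σ ℤ) (ft : FT Z.F) {w : ℤ}
    (u : NF Z.F w) (hu : ∀ (S : Type) [CommRing S] [Algebra k S] (x : Z.F.obj S),
      IsUnit (u.fn x)) : RCell k σ where
  Y := prS c.Y (flat Z)
  ft := c.ft.prod (FT.mapWt _ ft)
  e := c.e
  he := c.he
  u := ((c.u.fst (flat Z).F).mul (((u.mapWt (0 : ℤ →+ ℤ)).cast (w := (0 : ℤ)) rfl).snd c.Y.F)).cast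
    (add_zero _)
  hu S _ _ x := (c.hu S x.1).mul (hu S x.2)
  v := c.v.fst (flat Z).F
  hv S _ _ x := c.hv S x.1

variable {ω : ℚ}

/-- invertible cell of order zero times invertible cell of order zero -/
theorem mulZZ_val (c d : ZCell k σ) (χ : SInv k (wser σ (ω : QZ)) L) (l : ℕ) :
    (χ.cell l (0 + 0)).χ (withU (prS (triv c.Y) (triv d.Y))
      ((((c.un (ω : QZ)).fst _).mul ((d.un (ω : QZ)).snd _)).cast
        (add_smul 0 0 (ω : QZ)).symm)) = (c.mulZ d).val χ l := rfl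

/-- regular cell times invertible cell of order zero -/
theorem mulRZ_val (c : RCell k σ) (d : ZCell k σ) (χ : SInv k (wser σ (ω : QZ)) L) (l m : ℕ) :
    (χ.cell l (m + 0)).χ (withU (prS (twq c.Y (c.q ω m)) (triv d.Y))
      ((((c.un ω m).fst _).mul ((d.un (ω : QZ)).snd _)).cast
        (add_smul m 0 (ω : QZ)).symm)) = (c.mulX d.Y d.ft d.u d.hu).val χ l (m + 0) :=
  (prS_flat (χ.cell l (m + 0)) c.Y d.Y c.ft d.ft _ _ (fun S _ _ x => rfl)).symm

/-- invertible cell of order zero times regular cell -/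
theorem mulZR_val (c : ZCell k σ) (d : RCell k σ) (χ : SInv k (wser σ (ω : QZ)) L) (l m : ℕ) :
    (χ.cell l (0 + m)).χ (withU (prS (triv c.Y) (twq d.Y (d.q ω m)))
      ((((c.un (ω : QZ)).fst _).mul ((d.un ω m).snd _)).cast
        (add_smul 0 m (ω : QZ)).symm)) = (d.mulX c.Y c.ft c.u c.hu).val χ l (0 + m) := by
  have h1 := mulRZ_val d c χ l m
  have h2 : (χ.cell l (0 + m)).χ (withU (prS (triv c.Y) (twq d.Y (d.q ω m)))
      ((((c.un (ω : QZ)).fst _).mul ((d.un ω m).snd _)).cast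
        (add_smul 0 m (ω : QZ)).symm))
      = (χ.cell l (0 + m)).χ (withU (prS (twq d.Y (d.q ω m)) (triv c.Y))
      ((((d.un ω m).fst _).mul ((c.un (ω : QZ)).snd _)).cast
        (by rw [← add_smul, add_comm] : m • (ω : QZ) + 0 • (ω : QZ) = (0 + m) • (ω : QZ)))) :=
    (χ.cell l (0 + m)).iso ((FT.mapWt _ c.ft).prod (FT.mapWt _ d.ft))
      (prS_comm_iso _ _ _ _ (fun S _ _ y z => mul_comm _ _))
  have h3 : (χ.cell l (0 + m)).χ (withU (prS (twq d.Y (d.q ω m)) (triv c.Y))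
      ((((d.un ω m).fst _).mul ((c.un (ω : QZ)).snd _)).cast
        (by rw [← add_smul, add_comm] : m • (ω : QZ) + 0 • (ω : QZ) = (0 + m) • (ω : QZ))))
      = (χ.cell l (m + 0)).χ (withU (prS (twq d.Y (d.q ω m)) (triv c.Y))
      ((((d.un ω m).fst _).mul ((c.un (ω : QZ)).snd _)).cast
        (add_smul m 0 (ω : QZ)).symm)) :=
    cell_idx χ (by omega) _ _ _ (fun S _ _ x => rfl)
  rw [h2, h3, h1, add_zero, zero_add]

section shift2

variable (c d : RCell k σ)

/-- the product of two regular cells with its two gradings -/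
@[reducible] def zz : Over k (ℤ × ℤ) (Option σ) (wopt σ ((c.e : ℤ), (d.e : ℤ))) where
  F := (c.Y.F.mapWt (AddMonoidHom.inl ℤ ℤ)).prod (d.Y.F.mapWt (AddMonoidHom.inr ℤ ℤ))
  pt b := match b with
    | none => (((c.u.mapWt (AddMonoidHom.inl ℤ ℤ)).fst _).mul
        ((d.u.mapWt (AddMonoidHom.inr ℤ ℤ)).snd _)).cast (by simp)
    | some i => ((((c.Y.pt i).mapWt (AddMonoidHom.inl ℤ ℤ)).cast (map_zero _)).fst _).add
        ((((d.Y.pt i).mapWt (AddMonoidHom.inr ℤ ℤ)).cast (map_zero _)).snd _)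

/-- the homomorphism `(w, w') ↦ w q + w' q'` -/
def ev2 (q q' : QZ) : ℤ × ℤ →+ QZ :=
  (zmultiplesHom QZ q).coprod (zmultiplesHom QZ q')

theorem ev2_apply (q q' : QZ) (w : ℤ × ℤ) : ev2 q q' w = w.1 • q + w.2 • q' := rfl

theorem pull_ev2_inl {S : Type} [CommRing S] (x : Chr QZ S) (q q' : QZ) :
    (x.pull (ev2 q q')).pull (AddMonoidHom.inl ℤ ℤ) = x.pull (zmultiplesHom QZ q) := by
  apply Chr.ext'
  intro w
  rw [chr_pull, chr_pull, chr_pull, ev2_apply, zmultiplesHom_apply]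
  simp

theorem pull_ev2_inr {S : Type} [CommRing S] (x : Chr QZ S) (q q' : QZ) :
    (x.pull (ev2 q q')).pull (AddMonoidHom.inr ℤ ℤ) = x.pull (zmultiplesHom QZ q') := by
  apply Chr.ext'
  intro w
  rw [chr_pull, chr_pull, chr_pull, ev2_apply, zmultiplesHom_apply]
  simp

/-- the difference of the two gradings, vanishing on the product of the leading coefficients -/
def del2 : ℤ × ℤ →+ ℤ :=
  (zmultiplesHom ℤ (cof c.e d.e : ℤ)).coprod (zmultiplesHom ℤ (-(cof d.e c.e : ℤ)))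

theorem del2_apply (w : ℤ × ℤ) :
    del2 c d w = w.1 * (cof c.e d.e : ℤ) - w.2 * (cof d.e c.e : ℤ) := by
  show w.1 • (cof c.e d.e : ℤ) + w.2 • (-(cof d.e c.e : ℤ)) = _
  rw [smul_eq_mul, smul_eq_mul]
  ring

theorem exists_v2 : ∃ (wv : ℤ × ℤ) (v : NF (zz c d).F wv), del2 c d wv = 1 ∧
    ∀ (S : Type) [CommRing S] [Algebra k S] (x : (zz c d).F.obj S), IsUnit (v.fn x) := by
  obtain ⟨a, b, hab⟩ := cof_bezout c.e d.e c.he d.he
  let v1 : NF (zz c d).F ((1 : ℤ), (0 : ℤ)) := (c.v.mapWt (AddMonoidHom.inl ℤ ℤ)).fst _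
  let v2 : NF (zz c d).F ((0 : ℤ), (1 : ℤ)) := (d.v.mapWt (AddMonoidHom.inr ℤ ℤ)).snd _
  refine ⟨_, (v1.zp (fun S _ _ x => c.hv S x.1) a).mul (v2.zp (fun S _ _ x => d.hv S x.2) (-b)),
    ?_, fun S _ _ x => (Units.isUnit _).mul (Units.isUnit _)⟩
  rw [del2_apply]
  simp only [Prod.smul_mk, Prod.mk_add_mk, smul_eq_mul]
  linear_combination hab

/-- regular cell times regular cell -/
theorem mulRR_val [Finite σ] (χ : SInv k (wser σ (ω : QZ)) L) (l m m' : ℕ) :
    (χ.cell l (m + m')).χ (withU (prS (twq c.Y (c.q ω m)) (twq d.Y (d.q ω m')))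
      ((((c.un ω m).fst _).mul ((d.un ω m').snd _)).cast
        (add_smul m m' (ω : QZ)).symm)) = (c.mulX d.Y d.ft d.u d.hu).val χ l (m + m') := by
  obtain ⟨wv, v, hδv, hv⟩ := exists_v2 c d
  have hce : (c.e : ℚ) ≠ 0 := by exact_mod_cast c.he.ne'
  have hde : (d.e : ℚ) ≠ 0 := by exact_mod_cast d.he.ne'
  have hcof : (cof c.e d.e : ℚ) ≠ 0 := by exact_mod_cast (cof_pos _ _ c.he d.he).ne'
  have hcof' : (cof d.e c.e : ℚ) ≠ 0 := by exact_mod_cast (cof_pos _ _ d.he c.he).ne'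
  have hmc : (c.e : ℚ) * cof c.e d.e = d.e * cof d.e c.e := by
    exact_mod_cast mul_cof c.e d.e c.he d.he
  set q : QZ := ((m' * ω / (c.e * cof c.e d.e) : ℚ) : QZ) with hq
  have hψ : ∀ w : ℤ × ℤ, ev2 (c.q ω (m + m')) 0 w
      = ev2 (c.q ω m) (d.q ω m') w + del2 c d w • q := by
    intro w
    rw [ev2_apply, ev2_apply, smul_zero, add_zero, hq, del2_apply, RCell.q, RCell.q, RCell.q]
    simp only [← AddCircle.coe_zsmul, ← AddCircle.coe_add]
    congr 1
    simp only [zsmul_eq_mul]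
    push_cast
    have e1 : (w.1 : ℚ) * (cof c.e d.e) * (m' * ω / (c.e * cof c.e d.e)) = w.1 * (m' * ω / c.e) := by
      field_simp
    have e2 : (w.2 : ℚ) * (cof d.e c.e) * (m' * ω / (c.e * cof c.e d.e)) = w.2 * (m' * ω / d.e) := by
      rw [hmc]
      field_simp
    rw [sub_mul, e1, e2]
    ring
  have h₁ : ∀ b : Option σ, ev2 (c.q ω m) (d.q ω m') (wopt σ ((c.e : ℤ), (d.e : ℤ)) b)
      = wopt σ ((m + m') • (ω : QZ)) b := by
    intro b
    cases b with
    | none =>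
      show ev2 (c.q ω m) (d.q ω m') ((c.e : ℤ), (d.e : ℤ)) = (m + m') • (ω : QZ)
      rw [ev2_apply]
      have e1 := q_eq ω m c.e c.he
      have e2 := q_eq ω m' d.e d.he
      rw [zmultiplesHom_apply] at e1 e2
      rw [add_smul]
      exact congrArg₂ (· + ·) e1 e2
    | some i => exact map_zero _
  have h₂ : ∀ b : Option σ, ev2 (c.q ω (m + m')) 0 (wopt σ ((c.e : ℤ), (d.e : ℤ)) b)
      = wopt σ ((m + m') • (ω : QZ)) b := by
    intro b
    cases b with
    | none =>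
      show ev2 (c.q ω (m + m')) 0 ((c.e : ℤ), (d.e : ℤ)) = (m + m') • (ω : QZ)
      rw [ev2_apply, smul_zero, add_zero]
      have e1 := q_eq ω (m + m') c.e c.he
      rw [zmultiplesHom_apply] at e1
      exact e1
    | some i => exact map_zero _
  have hft : FT (zz c d).F := (FT.mapWt _ c.ft).prod (FT.mapWt _ d.ft)
  have key := SInv.shift (χ.cell l (m + m')) (zz c d) hft (del2 c d) v hv hδv (fun b => by
      cases b with
      | none =>
        show del2 c d ((c.e : ℤ), (d.e : ℤ)) = 0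
        rw [del2_apply]
        have : (c.e : ℤ) * cof c.e d.e = d.e * cof d.e c.e := by
          exact_mod_cast mul_cof c.e d.e c.he d.he
        linarith
      | some i => exact map_zero _)
    (ev2 (c.q ω m) (d.q ω m')) (ev2 (c.q ω (m + m')) 0) q hψ h₁ h₂
  have iso1 : OIso (withU (prS (twq c.Y (c.q ω m)) (twq d.Y (d.q ω m')))
      ((((c.un ω m).fst _).mul ((d.un ω m').snd _)).cast
        (add_smul m m' (ω : QZ)).symm)) ((zz c d).mapWt (ev2 (c.q ω m) (d.q ω m')) h₁) := by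
    refine OIso.mk' (fun S _ _ p => p) (fun S _ _ p => p) (fun S _ _ p => rfl)
      (fun S _ _ p => rfl) (fun {S S'} _ _ _ _ φ x p => ?_) (fun S _ _ p b => ?_)
    · refine Prod.ext ?_ ?_
      · show c.Y.F.tw φ (x.pull (zmultiplesHom QZ (c.q ω m))) p.1
          = c.Y.F.tw φ ((x.pull (ev2 (c.q ω m) (d.q ω m'))).pull (AddMonoidHom.inl ℤ ℤ)) p.1
        rw [pull_ev2_inl]
      · show d.Y.F.tw φ (x.pull (zmultiplesHom QZ (d.q ω m'))) p.2
          = d.Y.F.tw φ ((x.pull (ev2 (c.q ω m) (d.q ω m'))).pull (AddMonoidHom.inr ℤ ℤ)) p.2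
        rw [pull_ev2_inr]
    · cases b <;> rfl
  have iso2 : OIso ((zz c d).mapWt (ev2 (c.q ω (m + m')) 0) h₂)
      (withU (twq (c.mulX d.Y d.ft d.u d.hu).Y (c.q ω (m + m')))
        ((c.mulX d.Y d.ft d.u d.hu).un ω (m + m'))) := by
    refine OIso.mk' (fun S _ _ p => p) (fun S _ _ p => p) (fun S _ _ p => rfl)
      (fun S _ _ p => rfl) (fun {S S'} _ _ _ _ φ x p => ?_) (fun S _ _ p b => ?_)
    · refine Prod.ext ?_ ?_
      · show c.Y.F.tw φ ((x.pull (ev2 (c.q ω (m + m')) 0)).pull (AddMonoidHom.inl ℤ ℤ)) p.1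
          = c.Y.F.tw φ (x.pull (zmultiplesHom QZ (c.q ω (m + m')))) p.1
        rw [pull_ev2_inl]
      · show d.Y.F.tw φ ((x.pull (ev2 (c.q ω (m + m')) 0)).pull (AddMonoidHom.inr ℤ ℤ)) p.2
          = d.Y.F.tw φ ((x.pull (zmultiplesHom QZ (c.q ω (m + m')))).pull (0 : ℤ →+ ℤ)) p.2
        rw [pull_ev2_inr, pull_pull_zero]
        congr 1
        apply Chr.ext'
        intro w
        simp
    · cases b <;> rfl
  rw [(χ.cell l (m + m')).iso ((FT.mapWt _ c.ft).prod (FT.mapWt _ d.ft)) iso1, key,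
    (χ.cell l (m + m')).iso (FT.mapWt _ hft) iso2]

end shift2

end Pool.Agent.Helper6_Mono
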