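import Pool.Agent.Helper6_Mono.MulTools

/-!
# Products with a fixed cell
-/

set_option autoImplicit false
set_option linter.unusedVariables false
set_option linter.unusedSectionVars false

namespace Pool.Agent.Helper6_Mono

open PowerSeries Finset

variable {k : Type} [Field k] {σ : Type} {R : Type*} [CommRing R] {L : Rˣ}

theorem cell_idx {ω : QZ} (χ : SInv k (wser σ ω) L) {l M M' : ℕ} (h : M = M') (Y : OverS k σ QZ)
    (a : NF Y.F (M • ω)) (a' : NF Y.F (M' • ω))
    (haa' : ∀ (S : Type) [CommRing S] [Algebra k S] (x : Y.F.obj S), a.fn x = a'.fn x) :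
    (χ.cell l M).χ (withU Y a) = (χ.cell l M').χ (withU Y a') := by
  subst h
  rw [NF.ext' (g := a) (h := a') haa']

section

variable [Finite σ] {h : MvPolynomial σ k} {t : Set σ} {T : Set ℚ}
  (D' : Dec (k := k) L h t T) {ω : ℚ} (χ : SInv k (wser σ (ω : QZ)) L) (l : ℕ)

/-- the coefficients of the invertible cells -/
def Dec.ρ (x : D'.I0 ⊕ D'.I) (m : ℕ) : R := x.elim (fun i => if m = 0 then D'.α i else 0)
  (fun i => D'.A i m)

theorem Dec.γ_inl (x : D'.I0 ⊕ D'.I) (m : ℕ) : D'.γ l (Sum.inl x) m = D'.ρ x m := by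
  rcases x with i | i <;> rfl

/-- if the coefficient is not zero then the leading coefficient is invertible -/
theorem Dec.ρ_cases (x : D'.I0 ⊕ D'.I) (m : ℕ) :
    D'.ρ x m = 0 ∨ ∀ (S : Type) [CommRing S] [Algebra k S] (y : (D'.cX ω (Sum.inl x) m).F.obj S),
      IsUnit ((D'.cU ω (Sum.inl x) m).fn y) := by
  rcases x with i | i
  · rcases Nat.eq_zero_or_pos m with h | h
    · subst h
      exact Or.inr (D'.z i).hu
    · exact Or.inl (if_neg (by omega))
  · exact Or.inr (D'.r i).hu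

/-- the sum over all cells of the second factor -/
noncomputable def Fm (m : ℕ) (X : Over k QZ (Option σ) (wopt σ (m • (ω : QZ)))) : R :=
  ∑ m' ∈ range (l + 1), ∑ κ', D'.γ l κ' m'
        * PB (MulK (ω : QZ) l) χ l X (withU (D'.cX ω κ' m') (D'.cU ω κ' m')) (D'.cX_FT ω κ' m')

theorem Fm_split {m : ℕ} (hm : m < l) (Y : OverS k σ QZ) (hY : FT Y.F) :
    Fm D' χ l m (withU Y (NF.zero Y.F (m • (ω : QZ))))
      = Li L * Fm D' χ l (m + 1) (withU (Y.times (GF.gm k ((m + 1) • (ω : QZ))))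
          (gmNF Y.F ((m + 1) • (ω : QZ))))
        + Li L * Fm D' χ l (m + 1) (withU Y (NF.zero Y.F ((m + 1) • (ω : QZ)))) := by
  have hG : FT (Jet h t l (ω : QZ)).F := FT.jet t (Set.toFinite t) l _
  have h1 := cell_split (χ.comp (MulK (ω : QZ) l (Jet h t l (ω : QZ)) hG)) hm Y hY
  have e0 := Dec.pairF (B := MulK (ω : QZ) l) (MulK_commB l) D' χ l hG
    (X := withU Y (NF.zero Y.F (m • (ω : QZ)))) hY
  have e1 := Dec.pairF (B := MulK (ω : QZ) l) (MulK_commB l) D' χ l hG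
    (X := withU (Y.times (GF.gm k ((m + 1) • (ω : QZ)))) (gmNF Y.F ((m + 1) • (ω : QZ))))
    (hY.prod (FT.gm _))
  have e2 := Dec.pairF (B := MulK (ω : QZ) l) (MulK_commB l) D' χ l hG
    (X := withU Y (NF.zero Y.F ((m + 1) • (ω : QZ)))) hY
  rw [Fm, Fm, Fm, ← e0, ← e1, ← e2, h1]
  ring

variable (Y : OverS k σ QZ) (hY : FT Y.F)

/-- product with an invertible cell of the second factor -/
noncomputable def vR (m : ℕ) (a : NF Y.F (m • (ω : QZ))) (m' : ℕ) (x : D'.I0 ⊕ D'.I) : R :=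
  (χ.cell l (m + m')).χ (withU (prS Y (D'.cX ω (Sum.inl x) m'))
    (((a.fst _).mul ((D'.cU ω (Sum.inl x) m').snd _)).cast (add_smul m m' (ω : QZ)).symm))

theorem Fm_reg {m : ℕ} (hm : m ≤ l) (a : NF Y.F (m • (ω : QZ)))
    (ha : ∀ (S : Type) [CommRing S] [Algebra k S] (x : Y.F.obj S), IsUnit (a.fn x)) :
    Fm D' χ l m (withU Y a)
      = ∑ m' ∈ range (l - m + 1), ∑ x, D'.ρ x m' * vR D' χ l Y m a m' x
        + ∑ m' ∈ range (l - m), D'.cs (psi χ l Y hY (m + m')) m'
        + D'.ts (psi χ l Y hY l) (l - m) := by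
  have hq : l - m ≤ l := Nat.sub_le _ _
  have e1 : range (l + 1) = range (l - m + 1) ∪ Ioc (l - m) l := by
    ext a
    simp only [Finset.mem_range, Finset.mem_Ioc, Finset.mem_union]
    omega
  have hd : Disjoint (range (l - m + 1)) (Ioc (l - m) l) := by
    rw [Finset.disjoint_left]
    intro a
    simp only [Finset.mem_range, Finset.mem_Ioc]
    omega
  rw [Fm, e1, Finset.sum_union hd]
  have e2 : ∑ m' ∈ Ioc (l - m) l, ∑ κ', D'.γ l κ' m'
        * PB (MulK (ω : QZ) l) χ l (withU Y a) (withU (D'.cX ω κ' m') (D'.cU ω κ' m'))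
          (D'.cX_FT ω κ' m')
      = ∑ m' ∈ Ioc (l - m) l, ∑ κ', D'.γ l κ' m' * (psi χ l Y hY l).χ (D'.cX ω κ' m') := by
    refine Finset.sum_congr rfl fun m' hm' => Finset.sum_congr rfl fun κ' _ => ?_
    rw [Finset.mem_Ioc] at hm'
    rw [psi_val χ l Y hY l (D'.cX_FT ω κ' m'), pmul_zero χ hm hm'.2 (by omega) Y hY]
  have e3 : ∀ m' ∈ range (l - m + 1), ∑ κ', D'.γ l κ' m'
        * PB (MulK (ω : QZ) l) χ l (withU Y a) (withU (D'.cX ω κ' m') (D'.cU ω κ' m'))
          (D'.cX_FT ω κ' m')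
      = ∑ x, D'.ρ x m' * vR D' χ l Y m a m' x
        + ∑ j, D'.γ l (Sum.inr j) m' * (psi χ l Y hY (m + m')).χ (triv (D'.fc j).Y) := by
    intro m' hm'
    rw [Finset.mem_range] at hm'
    rw [Fintype.sum_sum_type]
    congr 1
    · refine Finset.sum_congr rfl fun x _ => ?_
      rw [D'.γ_inl]
      congr 1
      exact pmul_le χ (by omega) Y hY a ha _ _ _
    · refine Finset.sum_congr rfl fun j _ => ?_
      congr 1
      rw [psi_val χ l Y hY (m + m') (FT.mapWt _ (D'.fc j).ft)]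
      refine (pmul_le χ (by omega) Y hY a ha _ (D'.cX_FT ω (Sum.inr j) m') _).trans ?_
      exact cell_idx χ rfl _ _ _ (fun S _ _ x => mul_zero _)
  rw [e2, Finset.sum_congr rfl e3, Finset.sum_add_distrib]
  have e4 : ∑ m' ∈ range (l - m + 1), ∑ j, D'.γ l (Sum.inr j) m'
      * (psi χ l Y hY (m + m')).χ (triv (D'.fc j).Y)
      = ∑ m' ∈ range (l - m), D'.cs (psi χ l Y hY (m + m')) m'
        + ∑ j, D'.γ l (Sum.inr j) (l - m) * (psi χ l Y hY l).χ (triv (D'.fc j).Y) := by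
    rw [Finset.sum_range_succ, Nat.add_sub_cancel' hm]
    congr 1
    refine Finset.sum_congr rfl fun m' hm' => ?_
    rw [Finset.mem_range] at hm'
    unfold Dec.cs
    exact Finset.sum_congr rfl fun j _ => by rw [D'.γ_free_lt (by omega)]
  rw [e4, ← D'.tail' ω (psi χ l Y hY l) hq]
  ring

theorem Fm_nil : Fm D' χ l l (withU Y (NF.zero Y.F (l • (ω : QZ))))
    = D'.zs (psi χ l Y hY l) + D'.ts (psi χ l Y hY l) 0 := by
  rw [Fm, ← D'.all' ω (psi χ l Y hY l) l]
  refine Finset.sum_congr rfl fun m' hm' => Finset.sum_congr rfl fun κ' _ => ?_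
  rw [Finset.mem_range] at hm'
  rw [psi_val χ l Y hY l (D'.cX_FT ω κ' m'), pmul_nil χ (by omega) Y hY]

/-- the invertible cells of order `m` over the space of points -/
noncomputable def Dec.rs (ψ : SInv k (fun _ : σ => (0 : QZ)) L) (m : ℕ) : R :=
  (if m = 0 then D'.zs ψ else 0) + D'.as ψ m

theorem Dec.rs_eq (ψ : SInv k (fun _ : σ => (0 : QZ)) L) (m : ℕ) :
    D'.rs ψ m = ∑ x, D'.ρ x m * ψ.χ (D'.cX ω (Sum.inl x) m) := by
  rw [Fintype.sum_sum_type, Dec.rs]
  congr 1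
  · rcases Nat.eq_zero_or_pos m with h | h
    · subst h
      rw [if_pos rfl]
      rfl
    · rw [if_neg (by omega)]
      symm
      refine Finset.sum_eq_zero fun i _ => ?_
      have : D'.ρ (Sum.inl i) m = 0 := if_neg (by omega)
      rw [this, zero_mul]
  · unfold Dec.as
    refine Finset.sum_congr rfl fun i _ => congrArg (D'.A i m * ·) ?_
    exact (RCell.shift ψ (D'.r i) _).symm

theorem Dec.cs_smul (ψ ψ' : SInv k (fun _ : σ => (0 : QZ)) L) (c : R)
    (hψ : ∀ Z : OverS k σ QZ, FT Z.F → ψ.χ Z = c * ψ'.χ Z) (m : ℕ) :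
    D'.cs ψ m = c * D'.cs ψ' m := by
  unfold Dec.cs
  rw [Finset.mul_sum]
  refine Finset.sum_congr rfl fun j _ => ?_
  rw [hψ _ (FT.mapWt _ (D'.fc j).ft)]
  ring

theorem Dec.ts_smul (ψ ψ' : SInv k (fun _ : σ => (0 : QZ)) L) (c : R)
    (hψ : ∀ Z : OverS k σ QZ, FT Z.F → ψ.χ Z = c * ψ'.χ Z) (m : ℕ) :
    D'.ts ψ m = c * D'.ts ψ' m := by
  unfold Dec.ts
  rw [Finset.mul_sum]
  refine Finset.sum_congr rfl fun j _ => ?_
  rw [hψ _ (FT.mapWt _ (D'.fc j).ft)]
  ring

/-- the regular formula for `(Y × Gm, y)` -/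
theorem Fm_gm {m : ℕ} (hm : m + 1 ≤ l) :
    Fm D' χ l (m + 1) (withU (Y.times (GF.gm k ((m + 1) • (ω : QZ))))
          (gmNF Y.F ((m + 1) • (ω : QZ))))
      = ∑ m' ∈ range (l - (m + 1) + 1), ((L : R) * D'.rs (psi χ l Y hY (m + m')) m'
          - D'.rs (psi χ l Y hY (m + 1 + m')) m')
        + ((L : R) - 1) * ∑ m' ∈ range (l - (m + 1)), D'.cs (psi χ l Y hY (m + 1 + m')) m'
        + ((L : R) - 1) * D'.ts (psi χ l Y hY l) (l - (m + 1)) := by
  rw [Fm_reg D' χ l (Y.times (GF.gm k ((m + 1) • (ω : QZ)))) (hY.prod (FT.gm _)) hm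
    (gmNF Y.F ((m + 1) • (ω : QZ))) (fun S _ _ x => x.2.2)]
  congr 1
  · congr 1
    · refine Finset.sum_congr rfl fun m' hm' => ?_
      rw [Finset.mem_range] at hm'
      rw [D'.rs_eq (ω := ω), D'.rs_eq (ω := ω), Finset.mul_sum, ← Finset.sum_sub_distrib]
      refine Finset.sum_congr rfl fun x _ => ?_
      rcases D'.ρ_cases (ω := ω) x m' with h0 | h0
      · rw [h0]; ring
      · have := psi_unit χ (l := l) (m := m) (m' := m') (by omega) Y hY
          (D'.cX ω (Sum.inl x) m') (D'.cX_FT ω _ m') (D'.cU ω (Sum.inl x) m') h0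
          (((NF.fst _ (gmNF Y.F ((m + 1) • (ω : QZ)))).mul
            ((D'.cU ω (Sum.inl x) m').snd _)).cast (add_smul (m + 1) m' (ω : QZ)).symm)
          (fun S _ _ x => rfl)
        rw [vR, this]
        ring
    · rw [Finset.mul_sum]
      refine Finset.sum_congr rfl fun m' _ => ?_
      exact D'.cs_smul _ _ _ (fun Z hZ => psi_gm χ l Y hY _ _ hZ) m'
  · exact D'.ts_smul _ _ _ (fun Z hZ => psi_gm χ l Y hY _ _ hZ) _

theorem Fm_free (n : ℕ) : ∀ m : ℕ, m + n + 1 = l →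
    Fm D' χ l m (withU Y (NF.zero Y.F (m • (ω : QZ))))
      = ∑ m' ∈ range (n + 1), D'.rs (psi χ l Y hY (m + m')) m'
        + ((L : R) - 1) * ∑ a ∈ range n, Li L ^ (a + 1)
            * ∑ m' ∈ range (n - a), D'.cs (psi χ l Y hY (m + 1 + a + m')) m'
        + (D'.ts (psi χ l Y hY l) n
          + ∑ m' ∈ range n, Li L ^ (n - m') * D'.cs (psi χ l Y hY l) m') := by
  have hLi : Li L * (L : R) = 1 := Li_mul L
  induction n with
  | zero =>
    intro m hm
    rw [Fm_split D' χ l (by omega) Y hY, Fm_gm D' χ l Y hY (by omega)]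
    obtain rfl : l = m + 1 := by omega
    rw [Fm_nil D' χ (m + 1) Y hY, Nat.sub_self, Finset.sum_range_one, Finset.sum_range_zero,
      Finset.sum_range_one, Finset.sum_range_zero, Finset.sum_range_zero]
    have e1 : D'.rs (psi χ (m + 1) Y hY (m + 1 + 0)) 0 = D'.zs (psi χ (m + 1) Y hY (m + 1)) := by
      rw [Dec.rs, if_pos rfl, D'.as_zero, add_zero]
    rw [e1]
    linear_combination (D'.rs (psi χ (m + 1) Y hY (m + 0)) 0
      + D'.ts (psi χ (m + 1) Y hY (m + 1)) 0) * hLi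
  | succ n ih =>
    intro m hm
    rw [Fm_split D' χ l (by omega) Y hY, Fm_gm D' χ l Y hY (by omega), ih (m + 1) (by omega),
      show l - (m + 1) = n + 1 by omega]
    have e1 : D'.rs (psi χ l Y hY (m + 1 + (n + 1))) (n + 1) = D'.as (psi χ l Y hY l) (n + 1) := by
      rw [Dec.rs, if_neg (by omega), zero_add, show m + 1 + (n + 1) = l by omega]
    have e2 := D'.ti (psi χ l Y hY l) n
    have e3 : ∑ m' ∈ range (n + 1 + 1), ((L : R) * D'.rs (psi χ l Y hY (m + m')) m'
          - D'.rs (psi χ l Y hY (m + 1 + m')) m')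
        = (L : R) * ∑ m' ∈ range (n + 1 + 1), D'.rs (psi χ l Y hY (m + m')) m'
          - ∑ m' ∈ range (n + 1), D'.rs (psi χ l Y hY (m + 1 + m')) m'
          - D'.as (psi χ l Y hY l) (n + 1) := by
      rw [Finset.sum_sub_distrib, ← Finset.mul_sum,
        Finset.sum_range_succ (fun m' => D'.rs (psi χ l Y hY (m + 1 + m')) m'), e1]
      ring
    have e4 : ∑ a ∈ range (n + 1), Li L ^ (a + 1)
            * ∑ m' ∈ range (n + 1 - a), D'.cs (psi χ l Y hY (m + 1 + a + m')) m'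
        = Li L * (∑ m' ∈ range (n + 1), D'.cs (psi χ l Y hY (m + 1 + m')) m'
          + ∑ a ∈ range n, Li L ^ (a + 1)
            * ∑ m' ∈ range (n - a), D'.cs (psi χ l Y hY (m + 1 + 1 + a + m')) m') := by
      rw [Finset.sum_range_succ', mul_add, add_comm]
      congr 1
      · rw [zero_add, pow_one, Nat.sub_zero, Nat.add_zero]
      · rw [Finset.mul_sum]
        refine Finset.sum_congr rfl fun a _ => ?_
        rw [show n + 1 - (a + 1) = n - a by omega, pow_succ _ (a + 1),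
          show m + 1 + (a + 1) = m + 1 + 1 + a by omega]
        ring
    have e5 : ∑ m' ∈ range (n + 1), Li L ^ (n + 1 - m') * D'.cs (psi χ l Y hY l) m'
        = Li L * (D'.cs (psi χ l Y hY l) n
          + ∑ m' ∈ range n, Li L ^ (n - m') * D'.cs (psi χ l Y hY l) m') := by
      rw [Finset.sum_range_succ, show n + 1 - n = 1 by omega, pow_one, mul_add, Finset.mul_sum,
        add_comm]
      congr 1
      refine Finset.sum_congr rfl fun m' hm' => ?_
      rw [Finset.mem_range] at hm'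
      rw [show n + 1 - m' = (n - m') + 1 by omega, pow_succ]
      ring
    rw [e3, e4, e5]
    linear_combination (∑ m' ∈ range (n + 1 + 1), D'.rs (psi χ l Y hY (m + m')) m'
      + D'.ts (psi χ l Y hY l) (n + 1)) * hLi + Li L * e2

end

end Pool.Agent.Helper6_Mono
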