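import Pool.Agent.Helper6_Mono.DecAdd

/-!
# Products of cells
-/

set_option autoImplicit false
set_option linter.unusedVariables false
set_option linter.unusedSectionVars false

namespace Pool.Agent.Helper6_Mono

open PowerSeries Finset

variable {k : Type} [Field k] {σ : Type}

section iso

variable {W : Type} [AddCommGroup W]

theorem mulCell_iso_nil (ω : W) (m' n' l : ℕ) (Y0 : OverS k σ W)
    (Y : Over k W (Option σ) (wopt σ (m' • ω))) (hG : FT ((GenK k σ ω m' n').app Y).F) :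
    OIso ((MulK ω l ((GenK k σ ω m' n').app Y) hG).app
        ((GenK k σ ω l 0).app (withU Y0 (NF.zero Y0.F (l • ω)))))
      (((GenK k σ ω l 0).app (prA (withU Y0 (NF.zero Y0.F (l • ω))) Y
        (NF.zero (Y0.F.prod Y.F) (l • ω)))).times (GF.sl k ω (m' • ω) 1 (n' + 1))) := by
  have hcz : ∀ {S : Type} [CommRing S] [Algebra k S] {r : ℕ} {w : W}
      (E : (GF.sl k ω w 1 r).obj S) (a : S), coeff 0 (E.1 + C a) = a := by
    intro S _ _ r w E a
    rw [map_add, coeff_C, if_pos rfl, E.2 0 (by omega), zero_add]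
  have hz0 : ∀ {S : Type} [CommRing S] [Algebra k S]
      (p : ((GenK k σ ω l 0).app (withU Y0 (NF.zero Y0.F (l • ω)))).F.obj S), p.1.2.1 = 0 := by
    intro S _ _ p
    ext j
    rcases Nat.eq_zero_or_pos j with hj | hj
    · rw [hj, map_zero]
      exact sub_eq_zero.1 (p.2 ())
    · rw [p.1.2.2 j (by omega), map_zero]
  refine OIso.mk' (fun S _ _ p => (⟨((p.1.1.1.1, p.1.2.1.1), ⟨0, ?_⟩), ?_⟩,
        ⟨p.1.2.1.2.1 - C (coeff 0 p.1.2.1.2.1), ?_⟩))
    (fun S _ _ q => ⟨(⟨(q.1.1.1.1, ⟨0, ?_⟩), ?_⟩,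
      ⟨(q.1.1.1.2, ⟨q.2.1 + C ((Y.pt none).fn q.1.1.1.2), ?_⟩), ?_⟩), fun a => a.elim⟩)
    ?_ ?_ ?_ ?_
  · intro j hj
    rw [map_zero]
  · intro a
    show coeff 0 (0 : S⟦X⟧) - 0 = 0
    rw [map_zero, sub_zero]
  · intro j hj
    rw [map_sub, coeff_C]
    split_ifs with h
    · rw [h, sub_self]
    · rw [p.1.2.1.2.2 j (by omega), sub_zero]
  · intro j hj
    rw [map_zero]
  · intro a
    show coeff 0 (0 : S⟦X⟧) - 0 = 0
    rw [map_zero, sub_zero]
  · intro j hj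
    rw [map_add, coeff_C, if_neg (by omega), q.2.2 j (by omega), add_zero]
  · intro a
    show coeff 0 (q.2.1 + C ((Y.pt none).fn q.1.1.1.2)) - (Y.pt none).fn q.1.1.1.2 = 0
    rw [hcz, sub_self]
  · intro S _ _ p
    have h2 := p.1.2.2 ()
    rw [sub_eq_zero] at h2
    have h2' : coeff 0 p.1.2.1.2.1 = (Y.pt none).fn p.1.2.1.1 := h2
    refine Subtype.ext (Prod.ext (Subtype.ext (Prod.ext rfl (Subtype.ext ?_)))
      (Subtype.ext (Prod.ext rfl (Subtype.ext ?_))))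
    · show 0 = p.1.1.1.2.1
      exact (hz0 p.1.1).symm
    · show p.1.2.1.2.1 - C (coeff 0 p.1.2.1.2.1) + C ((Y.pt none).fn p.1.2.1.1) = p.1.2.1.2.1
      rw [h2']; ring
  · intro S _ _ q
    refine Prod.ext (Subtype.ext (Prod.ext rfl (Subtype.ext ?_)))
      (Subtype.ext ?_)
    · have h3 := q.1.2 ()
      rw [sub_eq_zero] at h3
      have h4 : coeff 0 q.1.1.2.1 = 0 := h3
      show (0 : S⟦X⟧) = q.1.1.2.1
      ext j
      rw [map_zero]
      rcases Nat.eq_zero_or_pos j with hj | hj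
      · rw [hj, h4]
      · rw [q.1.1.2.2 j (by omega)]
    · show q.2.1 + C ((Y.pt none).fn q.1.1.1.2)
        - C (coeff 0 (q.2.1 + C ((Y.pt none).fn q.1.1.1.2))) = q.2.1
      rw [hcz]; ring
  · intro S S' _ _ _ _ φ c p
    refine Prod.ext (Subtype.ext (Prod.ext rfl (Subtype.ext ?_)))
      (Subtype.ext ?_)
    · show (0 : S'⟦X⟧) = C (chr c (l • ω)) * twS ω φ c 0
      rw [map_zero, mul_zero]
    · show C (chr c (m' • ω)) * twS ω φ c p.1.2.1.2.1
        - C (coeff 0 (C (chr c (m' • ω)) * twS ω φ c p.1.2.1.2.1))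
        = C (chr c (m' • ω)) * twS ω φ c (p.1.2.1.2.1 - C (coeff 0 p.1.2.1.2.1))
      rw [map_sub, twS_C, coeff_C_mul, coeff_twS, zero_smul, chr_zero, one_mul, map_mul]; ring
  · intro S _ _ p b
    cases b with
    | inl i => rfl
    | inr j =>
      show coeff j (PowerSeries.X ^ l * (0 : S⟦X⟧))
        = if j ≤ l then coeff j (ser (((GenK k σ ω l 0).app
            (withU Y0 (NF.zero Y0.F (l • ω)))).base p.1.1)
            * ser (((GenK k σ ω m' n').app Y).base p.1.2)) else 0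
      have e1 : ser (((GenK k σ ω l 0).app (withU Y0 (NF.zero Y0.F (l • ω)))).base p.1.1)
          = 0 := by
        ext j
        rw [coeff_ser]
        show coeff j (PowerSeries.X ^ l * p.1.1.1.2.1) = _
        rw [hz0, mul_zero]
      rw [mul_zero, map_zero, e1, zero_mul, map_zero, ite_self]

/-- absorbing an invertible function in the coordinate of a punctured line -/
theorem gm_unit_iso {v v' w : W} (hw : v + v' = w) (Y Z : OverS k σ W) (u : NF Z.F v')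
    (hu : ∀ (S : Type) [CommRing S] [Algebra k S] (x : Z.F.obj S), IsUnit (u.fn x))
    (f : NF (prS (Y.times (GF.gm k v)) Z).F w)
    (hf : ∀ (S : Type) [CommRing S] [Algebra k S] (x : (prS (Y.times (GF.gm k v)) Z).F.obj S),
      f.fn x = x.1.2.1 * u.fn x.2) :
    OIso (withU (prS (Y.times (GF.gm k v)) Z) f)
      (withU ((prS Y Z).times (GF.gm k w)) (gmNF (prS Y Z).F w)) := by
  refine OIso.mk' (fun S _ _ p => ((p.1.1, p.2), ⟨p.1.2.1 * u.fn p.2, p.1.2.2.mul (hu S p.2)⟩))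
    (fun S _ _ q => ((q.1.1, ⟨q.2.1 * Ring.inverse (u.fn q.1.2),
      q.2.2.mul ((hu S q.1.2).ringInverse)⟩), q.1.2)) ?_ ?_ ?_ ?_
  · intro S _ _ p
    refine Prod.ext (Prod.ext rfl (Subtype.ext ?_)) rfl
    show p.1.2.1 * u.fn p.2 * Ring.inverse (u.fn p.2) = p.1.2.1
    rw [mul_assoc, Ring.mul_inverse_cancel _ (hu S p.2), mul_one]
  · intro S _ _ q
    refine Prod.ext rfl (Subtype.ext ?_)
    show q.2.1 * Ring.inverse (u.fn q.1.2) * u.fn q.1.2 = q.2.1
    rw [mul_assoc, Ring.inverse_mul_cancel _ (hu S q.1.2), mul_one]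
  · intro S S' _ _ _ _ φ c p
    refine Prod.ext rfl (Subtype.ext ?_)
    show chr c v * φ p.1.2.1 * u.fn (Z.F.tw φ c p.2) = chr c w * φ (p.1.2.1 * u.fn p.2)
    rw [u.fn_tw, ← hw, chr_add, map_mul]
    ring
  · intro S _ _ p b
    cases b with
    | none => exact (hf S p).symm
    | some i => rfl

/-- the product is commutative -/
theorem prS_comm_iso {w : W} (Y Z : OverS k σ W) (f : NF (prS Y Z).F w) (f' : NF (prS Z Y).F w)
    (hf : ∀ (S : Type) [CommRing S] [Algebra k S] (y : Y.F.obj S) (z : Z.F.obj S),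
      f.fn (y, z) = f'.fn (z, y)) :
    OIso (withU (prS Y Z) f) (withU (prS Z Y) f') := by
  refine OIso.mk' (fun S _ _ p => (p.2, p.1)) (fun S _ _ p => (p.2, p.1)) (fun S _ _ p => rfl)
    (fun S _ _ p => rfl) (fun φ c p => rfl) (fun S _ _ p b => ?_)
  cases b with
  | none => exact (hf S p.1 p.2).symm
  | some i => exact add_comm _ _

/-- moving a factor -/
theorem prS_times_iso {v w : W} (Y Z : OverS k σ W) :
    OIso (withU (prS (Y.times (GF.gm k v)) Z) (NF.zero _ w))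
      ((withU (prS Y Z) (NF.zero _ w)).times (GF.gm k v)) := by
  refine OIso.mk' (fun S _ _ p => ((p.1.1, p.2), p.1.2)) (fun S _ _ p => ((p.1.1, p.2), p.1.2))
    (fun S _ _ p => rfl) (fun S _ _ p => rfl) (fun φ c p => rfl) (fun S _ _ p b => ?_)
  cases b <;> rfl

end iso

variable {R : Type*} [CommRing R] {L : Rˣ}

section pmul

variable {ω : QZ} (χ : SInv k (wser σ ω) L)

theorem MulK_commB (l : ℕ) : CommB (k := k) (σ := σ) (ω := ω) (MulK ω l) :=
  fun hX hY => MulK_comm l hX hY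

theorem pmul_le {l m m' : ℕ} (hl : m + m' ≤ l) (Y : OverS k σ QZ) (hY : FT Y.F)
    (a : NF Y.F (m • ω))
    (ha : ∀ (S : Type) [CommRing S] [Algebra k S] (x : Y.F.obj S), IsUnit (a.fn x))
    (Y' : OverS k σ QZ) (hY' : FT Y'.F) (a' : NF Y'.F (m' • ω)) :
    PB (MulK ω l) χ l (withU Y a) (withU Y' a') hY'
      = (χ.cell l (m + m')).χ (withU (prS Y Y')
        (((a.fst _).mul (a'.snd _)).cast (add_smul m m' ω).symm)) :=
  cell_mul χ hl (X := withU Y a) hY ha (Y := withU Y' a') hY' _ (fun S _ _ x => rfl)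

theorem pmul_zero {l m m' : ℕ} (hm : m ≤ l) (hm' : m' ≤ l) (hl : l < m + m') (Y : OverS k σ QZ)
    (hY : FT Y.F) (a : NF Y.F (m • ω)) (Y' : OverS k σ QZ) (hY' : FT Y'.F)
    (a' : NF Y'.F (m' • ω)) :
    PB (MulK ω l) χ l (withU Y a) (withU Y' a') hY'
      = (χ.cell l l).χ (withU (prS Y Y') (NF.zero _ (l • ω))) :=
  cell_mul_zero χ hm hm' hl (X := withU Y a) hY (Y := withU Y' a') hY'

theorem pmul_nil {l m' : ℕ} (hm' : m' ≤ l) (Y : OverS k σ QZ)
    (hY : FT Y.F) (Y' : OverS k σ QZ) (hY' : FT Y'.F) (a' : NF Y'.F (m' • ω)) :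
    PB (MulK ω l) χ l (withU Y (NF.zero Y.F (l • ω))) (withU Y' a') hY'
      = (χ.cell l l).χ (withU (prS Y Y') (NF.zero _ (l • ω))) := by
  show Li L ^ (l - m') * (Li L ^ (l - l) * χ.χ ((MulK ω l ((GenK k σ ω m' (l - m')).app
    (withU Y' a')) (GenK_FT (X := withU Y' a') hY')).app ((GenK k σ ω l (l - l)).app
      (withU Y (NF.zero Y.F (l • ω))))))
    = Li L ^ (l - l) * χ.χ ((GenK k σ ω l (l - l)).app (withU (prS Y Y') (NF.zero _ (l • ω))))
  rw [Nat.sub_self]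
  have h1 := χ.iso ((MulK ω l ((GenK k σ ω m' (l - m')).app (withU Y' a'))
      (GenK_FT (X := withU Y' a') hY')).app_FT (GenK_FT (n := 0) (X := withU Y (NF.zero Y.F (l • ω)))
        hY)) (mulCell_iso_nil ω m' (l - m') l Y (withU Y' a') (GenK_FT (X := withU Y' a') hY'))
  rw [h1, χ.times_sl (GenK_FT (X := prA (withU Y (NF.zero Y.F (l • ω))) (withU Y' a')
    (NF.zero (Y.F.prod Y'.F) (l • ω))) (hY.prod hY')) _ _ _ _ (by omega), Nat.add_sub_cancel,
    pow_zero, one_mul, one_mul, ← mul_assoc, Li_pow_mul, one_mul]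

/-- the invariants `Z ↦ (Y × Z, 0)` -/
@[reducible] noncomputable def psi (l : ℕ) (Y : OverS k σ QZ) (hY : FT Y.F) (M : ℕ) :
    SInv k (fun _ : σ => (0 : QZ)) L :=
  (χ.cell l M).left Y hY (NF.zero Y.F (M • ω))

theorem psi_val (l : ℕ) (Y : OverS k σ QZ) (hY : FT Y.F) (M : ℕ) {Z : OverS k σ QZ}
    (hZ : FT Z.F) :
    (psi χ l Y hY M).χ Z = (χ.cell l M).χ (withU (prS Y Z) (NF.zero _ (M • ω))) :=
  SInv.left_val _ _ _ _ hZ

theorem psi_comm (l : ℕ) (Y : OverS k σ QZ) (hY : FT Y.F) (M : ℕ) {Z : OverS k σ QZ}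
    (hZ : FT Z.F) : (psi χ l Y hY M).χ Z = (psi χ l Z hZ M).χ Y := by
  rw [psi_val χ l Y hY M hZ, psi_val χ l Z hZ M hY]
  exact (χ.cell l M).iso (hY.prod hZ) (prS_comm_iso Y Z _ _ (fun S _ _ y z => rfl))

theorem psi_gm (l : ℕ) (Y : OverS k σ QZ) (hY : FT Y.F) (w : QZ) (M : ℕ) {Z : OverS k σ QZ}
    (hZ : FT Z.F) :
    (psi χ l (Y.times (GF.gm k w)) (hY.prod (FT.gm w)) M).χ Z
      = ((L : R) - 1) * (psi χ l Y hY M).χ Z := by
  rw [psi_val _ _ _ _ _ hZ, psi_val _ _ _ _ _ hZ]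
  rw [(χ.cell l M).iso ((hY.prod (FT.gm w)).prod hZ) (prS_times_iso Y Z)]
  exact (χ.cell l M).times_gm (X := withU (prS Y Z) (NF.zero _ (M • ω))) (hY.prod hZ) w

/-- the class of the product of `(Y × Gm, y)` with an invertible cell -/
theorem psi_unit {l m m' : ℕ} (hl : m + m' < l) (Y : OverS k σ QZ) (hY : FT Y.F)
    (Z : OverS k σ QZ) (hZ : FT Z.F) (u : NF Z.F (m' • ω))
    (hu : ∀ (S : Type) [CommRing S] [Algebra k S] (x : Z.F.obj S), IsUnit (u.fn x))
    (f : NF (prS (Y.times (GF.gm k ((m + 1) • ω))) Z).F ((m + 1 + m') • ω))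
    (hf : ∀ (S : Type) [CommRing S] [Algebra k S]
      (x : (prS (Y.times (GF.gm k ((m + 1) • ω))) Z).F.obj S), f.fn x = x.1.2.1 * u.fn x.2) :
    (χ.cell l (m + 1 + m')).χ (withU (prS (Y.times (GF.gm k ((m + 1) • ω))) Z) f)
      = (L : R) * (psi χ l Y hY (m + m')).χ Z - (psi χ l Y hY (m + 1 + m')).χ Z := by
  rw [psi_val _ _ _ _ _ hZ, psi_val _ _ _ _ _ hZ]
  rw [(χ.cell l (m + 1 + m')).iso ((hY.prod (FT.gm _)).prod hZ)
    (gm_unit_iso (add_smul (m + 1) m' ω).symm Y Z u hu f hf)]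
  have h1 := cell_split χ hl (prS Y Z) (hY.prod hZ)
  obtain ⟨M, hM⟩ : ∃ M, M = m + m' + 1 := ⟨_, rfl⟩
  have hM' : m + 1 + m' = M := by omega
  rw [hM']
  rw [← hM] at h1
  rw [h1]
  have h2 : (L : R) * Li L = 1 := by rw [mul_comm]; exact Li_mul L
  have h3 : (χ.cell l M).χ (withU ((prS Y Z).times (GF.gm k (M • ω))) (gmNF (prS Y Z).F (M • ω)))
    = (χ.cell l M).χ (withU ((prS Y Z).times (GF.gm k (M • ω)))
          ⟨fun x => x.2.1, fun φ c x => rfl⟩) := rfl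
  rw [h3]
  linear_combination (-1 : R) * ((χ.cell l M).χ (withU ((prS Y Z).times (GF.gm k (M • ω)))
          ⟨fun x => x.2.1, fun φ c x => rfl⟩)
          + (χ.cell l M).χ (withU (prS Y Z) (NF.zero _ (M • ω)))) * h2

end pmul

end Pool.Agent.Helper6_Mono
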