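import Pool.Agent.Helper6_Mono.Cells

/-!
# Normalized classes of cells
-/

set_option autoImplicit false
set_option linter.unusedVariables false

namespace Pool.Agent.Helper6_Mono

open PowerSeries

variable {k : Type} [Field k] {σ : Type}

section general

variable {W : Type} [AddCommGroup W]

theorem addCell_iso' (ω : W) (m n m' n' : ℕ) (h : m ≤ m') (hn : m + n = m' + n')
    (X : Over k W (Option σ) (wopt σ (m • ω)))
    (Y : Over k W (Option σ) (wopt σ (m' • ω))) (hG : FT ((GenK k σ ω m' n').app Y).F)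
    (u : NF (X.F.prod Y.F) (m • ω))
    (hu : ∀ (S : Type) [CommRing S] [Algebra k S] (x : (X.F.prod Y.F).obj S),
      u.fn x = (X.pt none).fn x.1 + if m' = m then (Y.pt none).fn x.2 else 0) :
    OIso ((AddK ω ((GenK k σ ω m' n').app Y) hG).app ((GenK k σ ω m n).app X))
      (((GenK k σ ω m n).app (prA X Y u)).times (GF.sl k ω (m' • ω) 1 (n' + 1))) := by
  obtain ⟨d, rfl⟩ := Nat.exists_eq_add_of_le h
  obtain rfl : n = d + n' := by omega
  refine addCell_iso ω m d n' X Y hG u fun S _ _ x => ?_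
  rw [hu]
  congr 1
  by_cases hd : d = 0
  · rw [if_pos hd, if_pos (by omega)]
  · rw [if_neg hd, if_neg (by omega)]

theorem mulCell_iso' (ω : W) (m n m' n' l e : ℕ) (hn : m + n = l) (hn' : m' + n' = l)
    (he : m + m' + e = l) (X : Over k W (Option σ) (wopt σ (m • ω)))
    (hX : ∀ (S : Type) [CommRing S] [Algebra k S] (x : X.F.obj S), IsUnit ((X.pt none).fn x))
    (Y : Over k W (Option σ) (wopt σ (m' • ω))) (hG : FT ((GenK k σ ω m' n').app Y).F)
    (u : NF (X.F.prod Y.F) ((m + m') • ω))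
    (hu : ∀ (S : Type) [CommRing S] [Algebra k S] (x : (X.F.prod Y.F).obj S),
      u.fn x = (X.pt none).fn x.1 * (Y.pt none).fn x.2) :
    OIso ((MulK ω l ((GenK k σ ω m' n').app Y) hG).app ((GenK k σ ω m n).app X))
      ((((GenK k σ ω (m + m') e).app (prA X Y u)).times (GF.sl k ω (m • ω) 1 (n + 1))).times
        (GF.sl k ω (m' • ω) (e + 1) (n' + 1))) := by
  obtain rfl : n = m' + e := by omega
  obtain rfl : n' = m + e := by omega
  obtain rfl : l = m + m' + e := by omega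
  exact mulCell_iso ω m m' e X hX Y hG u hu

theorem powCell_iso' (ω : W) (m n l e N : ℕ) (hn : m + n = l) (he : N * m + e = l) (hN1 : 1 ≤ N)
    (hN : (N : k) ≠ 0) (X : Over k W (Option σ) (wopt σ (m • ω)))
    (hX : ∀ (S : Type) [CommRing S] [Algebra k S] (x : X.F.obj S), IsUnit ((X.pt none).fn x))
    (u : NF X.F ((N * m) • ω))
    (hu : ∀ (S : Type) [CommRing S] [Algebra k S] (x : X.F.obj S),
      u.fn x = (X.pt none).fn x ^ N) :
    OIso ((PowK k σ ω l N).app ((GenK k σ ω m n).app X))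
      (((GenK k σ ω (N * m) e).app (setU X u)).times (GF.sl k ω (m • ω) (e + 1) (n + 1))) := by
  subst he
  exact powCell_iso ω m n e N hn hN1 hN X hX u hu

end general

variable {R : Type*} [CommRing R] {L : Rˣ}

/-- the inverse of the class of the line -/
@[reducible] def Li (L : Rˣ) : R := ((L⁻¹ : Rˣ) : R)

theorem Li_mul (L : Rˣ) : Li L * (L : R) = 1 := Units.inv_mul L

theorem Li_pow_mul (L : Rˣ) (n : ℕ) : Li L ^ n * (L : R) ^ n = 1 := by
  rw [← mul_pow, Li_mul, one_pow]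

/-- scaling of an invariant -/
@[reducible] def SInv.scale {β : Type} {wβ : β → QZ} (c : R) (χ : SInv k wβ L) : SInv k wβ L where
  χ X := c * χ.χ X
  iso hX h := by rw [χ.iso hX h]
  scissor {X} hX {w} h := by rw [χ.scissor hX h]; ring
  lin {X} hX w := by rw [χ.lin hX w]; ring

variable {ω : QZ}

/-- the normalized class of the cell of order `m`, for series truncated at `t ^ l` -/
@[reducible] noncomputable def SInv.cell (χ : SInv k (wser σ ω) L) (l m : ℕ) :
    SInv k (wopt σ (m • ω)) L :=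
  (χ.comp (GenK k σ ω m (l - m))).scale (Li L ^ (l - m))

theorem GenK_FT {m n : ℕ} {X : Over k QZ (Option σ) (wopt σ (m • ω))} (hX : FT X.F) :
    FT ((GenK k σ ω m n).app X).F := (GenK k σ ω m n).app_FT hX

/-- commutativity of the sum of functors over the base -/
theorem AddK_comm {X Y : Over k QZ (σ ⊕ ℕ) (wser σ ω)} (hX : FT X.F) (hY : FT Y.F) :
    OIso ((AddK ω Y hY).app X) ((AddK ω X hX).app Y) := by
  refine OIso.mk' (fun S _ _ p => ⟨(p.1.2, p.1.1), fun a => a.elim⟩)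
    (fun S _ _ p => ⟨(p.1.2, p.1.1), fun a => a.elim⟩) (fun S _ _ x => rfl) (fun S _ _ x => rfl)
    (fun φ c x => rfl) (fun S _ _ x b => ?_)
  show (Y.pt b).fn x.1.2 + (X.pt b).fn x.1.1 = (X.pt b).fn x.1.1 + (Y.pt b).fn x.1.2
  rw [add_comm]

theorem MulK_comm (l : ℕ) {X Y : Over k QZ (σ ⊕ ℕ) (wser σ ω)} (hX : FT X.F) (hY : FT Y.F) :
    OIso ((MulK ω l Y hY).app X) ((MulK ω l X hX).app Y) := by
  refine OIso.mk' (fun S _ _ p => ⟨(p.1.2, p.1.1), fun a => a.elim⟩)
    (fun S _ _ p => ⟨(p.1.2, p.1.1), fun a => a.elim⟩) (fun S _ _ x => rfl) (fun S _ _ x => rfl)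
    (fun φ c x => rfl) (fun S _ _ x b => ?_)
  cases b with
  | inl i =>
    show (Y.pt (Sum.inl i)).fn x.1.2 + (X.pt (Sum.inl i)).fn x.1.1
      = (X.pt (Sum.inl i)).fn x.1.1 + (Y.pt (Sum.inl i)).fn x.1.2
    rw [add_comm]
  | inr j =>
    show (if j ≤ l then coeff j (ser (Y.base x.1.2) * ser (X.base x.1.1)) else 0)
      = (if j ≤ l then coeff j (ser (X.base x.1.1) * ser (Y.base x.1.2)) else 0)
    rw [mul_comm]

variable (χ : SInv k (wser σ ω) L)

theorem cell_add {l m m' : ℕ} (h : m ≤ m') (hl : m' ≤ l)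
    {X : Over k QZ (Option σ) (wopt σ (m • ω))} (hX : FT X.F)
    {Y : Over k QZ (Option σ) (wopt σ (m' • ω))} (hY : FT Y.F)
    (u : NF (X.F.prod Y.F) (m • ω))
    (hu : ∀ (S : Type) [CommRing S] [Algebra k S] (x : (X.F.prod Y.F).obj S),
      u.fn x = (X.pt none).fn x.1 + if m' = m then (Y.pt none).fn x.2 else 0) :
    Li L ^ (l - m') * (((χ.comp (AddK ω ((GenK k σ ω m' (l - m')).app Y) (GenK_FT hY))).cell l m).χ
      X) = (χ.cell l m).χ (prA X Y u) := by
  show Li L ^ (l - m') * (Li L ^ (l - m) * χ.χ ((AddK ω ((GenK k σ ω m' (l - m')).app Y)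
    (GenK_FT hY)).app ((GenK k σ ω m (l - m)).app X)))
    = Li L ^ (l - m) * χ.χ ((GenK k σ ω m (l - m)).app (prA X Y u))
  rw [χ.iso ((AddK ω _ (GenK_FT hY)).app_FT (GenK_FT hX))
    (addCell_iso' ω m (l - m) m' (l - m') h (by omega) X Y (GenK_FT hY) u hu),
    χ.times_sl (GenK_FT (hX.prod hY)) _ _ _ _ (by omega), Nat.add_sub_cancel]
  calc _ = (Li L ^ (l - m') * (L : R) ^ (l - m')) * (Li L ^ (l - m)
        * χ.χ ((GenK k σ ω m (l - m)).app (prA X Y u))) := by ring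
    _ = _ := by rw [Li_pow_mul, one_mul]

theorem cell_mul {l m m' : ℕ} (hl : m + m' ≤ l)
    {X : Over k QZ (Option σ) (wopt σ (m • ω))} (hX : FT X.F)
    (hXu : ∀ (S : Type) [CommRing S] [Algebra k S] (x : X.F.obj S), IsUnit ((X.pt none).fn x))
    {Y : Over k QZ (Option σ) (wopt σ (m' • ω))} (hY : FT Y.F)
    (u : NF (X.F.prod Y.F) ((m + m') • ω))
    (hu : ∀ (S : Type) [CommRing S] [Algebra k S] (x : (X.F.prod Y.F).obj S),
      u.fn x = (X.pt none).fn x.1 * (Y.pt none).fn x.2) :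
    Li L ^ (l - m') * (((χ.comp (MulK ω l ((GenK k σ ω m' (l - m')).app Y) (GenK_FT hY))).cell
      l m).χ X) = (χ.cell l (m + m')).χ (prA X Y u) := by
  show Li L ^ (l - m') * (Li L ^ (l - m) * χ.χ ((MulK ω l ((GenK k σ ω m' (l - m')).app Y)
    (GenK_FT hY)).app ((GenK k σ ω m (l - m)).app X)))
    = Li L ^ (l - (m + m')) * χ.χ ((GenK k σ ω (m + m') (l - (m + m'))).app (prA X Y u))
  rw [χ.iso ((MulK ω l _ (GenK_FT hY)).app_FT (GenK_FT hX))
    (mulCell_iso' ω m (l - m) m' (l - m') l (l - (m + m')) (by omega) (by omega) (by omega) X hXu Y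
      (GenK_FT hY) u hu),
    χ.times_sl ((GenK_FT (hX.prod hY)).prod (FT.sl _ _ _ _ (by omega))) _ _ _ _ (by omega),
    χ.times_sl (GenK_FT (hX.prod hY)) _ _ _ _ (by omega), Nat.add_sub_cancel,
    show l - m' + 1 - (l - (m + m') + 1) = m by omega]
  have e1 : Li L ^ (l - m') = Li L ^ (l - (m + m')) * Li L ^ m := by
    rw [← pow_add]; congr 1; omega
  rw [e1]
  calc _ = (Li L ^ m * (L : R) ^ m) * (Li L ^ (l - m) * (L : R) ^ (l - m))
        * (Li L ^ (l - (m + m')) * χ.χ ((GenK k σ ω (m + m') (l - (m + m'))).app (prA X Y u))) := by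
        ring
    _ = _ := by rw [Li_pow_mul, Li_pow_mul, one_mul, one_mul]

theorem cell_mul_zero {l m m' : ℕ} (hm : m ≤ l) (hm' : m' ≤ l) (hl : l < m + m')
    {X : Over k QZ (Option σ) (wopt σ (m • ω))} (hX : FT X.F)
    {Y : Over k QZ (Option σ) (wopt σ (m' • ω))} (hY : FT Y.F) :
    Li L ^ (l - m') * (((χ.comp (MulK ω l ((GenK k σ ω m' (l - m')).app Y) (GenK_FT hY))).cell
      l m).χ X) = (χ.cell l l).χ (prA X Y (NF.zero (X.F.prod Y.F) (l • ω))) := by
  show Li L ^ (l - m') * (Li L ^ (l - m) * χ.χ ((MulK ω l ((GenK k σ ω m' (l - m')).app Y)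
    (GenK_FT hY)).app ((GenK k σ ω m (l - m)).app X)))
    = Li L ^ (l - l) * χ.χ ((GenK k σ ω l (l - l)).app
      (prA X Y (NF.zero (X.F.prod Y.F) (l • ω))))
  rw [χ.iso ((MulK ω l _ (GenK_FT hY)).app_FT (GenK_FT hX))
    (mulCell_iso_zero ω m (l - m) m' (l - m') l hl X Y (GenK_FT hY)),
    χ.times_sl ((GenK_FT (hX.prod hY)).prod (FT.sl _ _ _ _ (by omega))) _ _ _ _ (by omega),
    χ.times_sl (GenK_FT (hX.prod hY)) _ _ _ _ (by omega), Nat.add_sub_cancel, Nat.add_sub_cancel,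
    Nat.sub_self, pow_zero, one_mul]
  calc _ = (Li L ^ (l - m') * (L : R) ^ (l - m')) * (Li L ^ (l - m) * (L : R) ^ (l - m))
        * χ.χ ((GenK k σ ω l 0).app (prA X Y (NF.zero (X.F.prod Y.F) (l • ω)))) := by
        ring
    _ = _ := by rw [Li_pow_mul, Li_pow_mul, one_mul, one_mul]

theorem cell_pow {l m N : ℕ} (hm : m ≤ l) (hl : N * m ≤ l) (hN1 : 1 ≤ N) (hN : (N : k) ≠ 0)
    {X : Over k QZ (Option σ) (wopt σ (m • ω))} (hX : FT X.F)
    (hXu : ∀ (S : Type) [CommRing S] [Algebra k S] (x : X.F.obj S), IsUnit ((X.pt none).fn x))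
    (u : NF X.F ((N * m) • ω))
    (hu : ∀ (S : Type) [CommRing S] [Algebra k S] (x : X.F.obj S),
      u.fn x = (X.pt none).fn x ^ N) :
    ((χ.comp (PowK k σ ω l N)).cell l m).χ X = (χ.cell l (N * m)).χ (setU X u) := by
  show Li L ^ (l - m) * χ.χ ((PowK k σ ω l N).app ((GenK k σ ω m (l - m)).app X))
    = Li L ^ (l - N * m) * χ.χ ((GenK k σ ω (N * m) (l - N * m)).app (setU X u))
  have hNm : m ≤ N * m := Nat.le_mul_of_pos_left m hN1
  rw [χ.iso ((PowK k σ ω l N).app_FT (GenK_FT hX))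
    (powCell_iso' ω m (l - m) l (l - N * m) N (by omega) (by omega) hN1 hN X hXu u hu),
    χ.times_sl (GenK_FT (m := N * m) (X := setU X u) hX) _ _ _ _ (by omega),
    show l - m + 1 - (l - N * m + 1) = N * m - m by omega]
  have e1 : Li L ^ (l - m) = Li L ^ (l - N * m) * Li L ^ (N * m - m) := by
    rw [← pow_add]; congr 1; omega
  rw [e1]
  calc _ = (Li L ^ (N * m - m) * (L : R) ^ (N * m - m))
        * (Li L ^ (l - N * m) * χ.χ ((GenK k σ ω (N * m) (l - N * m)).app (setU X u))) := by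
        ring
    _ = _ := by rw [Li_pow_mul, one_mul]

theorem cell_pow_zero {l m N : ℕ} (hm : m ≤ l) (hl : l < N * m)
    {X : Over k QZ (Option σ) (wopt σ (m • ω))} (hX : FT X.F) :
    ((χ.comp (PowK k σ ω l N)).cell l m).χ X
      = (χ.cell l l).χ (setU X (NF.zero X.F (l • ω))) := by
  show Li L ^ (l - m) * χ.χ ((PowK k σ ω l N).app ((GenK k σ ω m (l - m)).app X))
    = Li L ^ (l - l) * χ.χ ((GenK k σ ω l (l - l)).app (setU X (NF.zero X.F (l • ω))))
  rw [χ.iso ((PowK k σ ω l N).app_FT (GenK_FT hX)) (powCell_iso_zero ω m (l - m) l N hl X),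
    χ.times_sl (GenK_FT (m := l) (X := setU X (NF.zero X.F (l • ω))) hX) _ _ _ _ (by omega),
    Nat.add_sub_cancel, Nat.sub_self, pow_zero, one_mul, ← mul_assoc, Li_pow_mul, one_mul]

theorem cell_scale {l m : ℕ} (a : k) (ha : a ≠ 0)
    {X : Over k QZ (Option σ) (wopt σ (m • ω))} (hX : FT X.F) :
    ((χ.comp (ScaleK σ ω a)).cell l m).χ X = (χ.cell l m).χ (setU X ((X.pt none).smulk a)) := by
  show Li L ^ (l - m) * χ.χ ((ScaleK σ ω a).app ((GenK k σ ω m (l - m)).app X)) = _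
  rw [χ.iso ((ScaleK σ ω a).app_FT (GenK_FT hX)) (scaleCell_iso ω m (l - m) a ha X)]

end Pool.Agent.Helper6_Mono
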