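import Pool.Agent.Helper6_Mono.FT

/-!
# Functors over a base, additive invariants, correspondences
-/

set_option autoImplicit false
set_option linter.unusedVariables false

namespace Pool.Agent.Helper6_Mono

variable {k : Type} [Field k] {W : Type} [AddCommGroup W]

namespace NF

variable {F G : GF k W} {v w : W}

/-- first projection -/
@[reducible] def fst (G : GF k W) (h : NF F w) : NF (F.prod G) w :=
  ⟨fun x => h.fn x.1, fun φ c x => h.fn_tw φ c x.1⟩

/-- second projection -/
@[reducible] def snd (F : GF k W) (h : NF G w) : NF (F.prod G) w :=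
  ⟨fun x => h.fn x.2, fun φ c x => h.fn_tw φ c x.2⟩

/-- restriction to a subfunctor -/
@[reducible] def res {P : (S : Type) → [CommRing S] → [Algebra k S] → F.obj S → Prop}
    {hP : ∀ {S S' : Type} [CommRing S] [Algebra k S] [CommRing S'] [Algebra k S']
      (φ : S →ₐ[k] S') (c : Chr W S') (x : F.obj S), P S x → P S' (F.tw φ c x)} (h : NF F w) :
    NF (F.sub P hP) w :=
  ⟨fun x => h.fn x.1, fun φ c x => h.fn_tw φ c x.1⟩

/-- sums -/
@[reducible] def add (g h : NF F w) : NF F w :=
  ⟨fun x => g.fn x + h.fn x, fun φ c x => by rw [g.fn_tw, h.fn_tw, map_add, mul_add]⟩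

/-- differences -/
@[reducible] def sub (g h : NF F w) : NF F w :=
  ⟨fun x => g.fn x - h.fn x, fun φ c x => by rw [g.fn_tw, h.fn_tw, map_sub, mul_sub]⟩

/-- products -/
@[reducible] def mul (g : NF F v) (h : NF F w) : NF F (v + w) :=
  ⟨fun x => g.fn x * h.fn x, fun φ c x => by rw [g.fn_tw, h.fn_tw, map_mul, chr_add]; ring⟩

/-- zero, of any weight -/
@[reducible] def zero (F : GF k W) (w : W) : NF F w :=
  ⟨fun x => 0, fun φ c x => by rw [map_zero, mul_zero]⟩

/-- one -/
@[reducible] def one (F : GF k W) : NF F 0 :=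
  ⟨fun x => 1, fun φ c x => by rw [map_one, mul_one, chr_zero]⟩

/-- powers -/
@[reducible] def pow (g : NF F w) (n : ℕ) : NF F (n • w) :=
  ⟨fun x => g.fn x ^ n, fun φ c x => by rw [g.fn_tw, map_pow, chr_nsmul, mul_pow]⟩

/-- transport of the weight -/
@[reducible] def cast (g : NF F v) (h : v = w) : NF F w :=
  ⟨fun x => g.fn x, fun φ c x => by subst h; exact g.fn_tw φ c x⟩

/-- change of the group -/
def mapWt {W' : Type} [AddCommGroup W'] (ψ : W →+ W') (g : NF F w) : NF (F.mapWt ψ) (ψ w) :=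
  ⟨fun x => g.fn x, fun φ c x => by rw [g.fn_tw, chr_pull]⟩

end NF

variable (k W) in
/-- functors over the affine space with coordinates `β` of weights `wβ` -/
structure Over (β : Type) (wβ : β → W) where
  F : GF k W
  pt : ∀ b, NF F (wβ b)

section Over

variable {β : Type} {wβ : β → W}

/-- isomorphism over the base -/
def OIso (X Y : Over k W β wβ) : Prop :=
  ∃ e : GEquiv X.F Y.F, ∀ (S : Type) [CommRing S] [Algebra k S] (x : X.F.obj S) (b : β),
    (Y.pt b).fn (e.eq S x) = (X.pt b).fn x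

theorem OIso.refl (X : Over k W β wβ) : OIso X X := ⟨GEquiv.refl _, fun S _ _ x b => rfl⟩

theorem OIso.symm {X Y : Over k W β wβ} (h : OIso X Y) : OIso Y X := by
  obtain ⟨e, he⟩ := h
  refine ⟨e.symm, fun S _ _ x b => ?_⟩
  rw [← he]
  show (Y.pt b).fn (e.eq S ((e.eq S).symm x)) = _
  rw [Equiv.apply_symm_apply]

theorem OIso.trans {X Y Z : Over k W β wβ} (h : OIso X Y) (h' : OIso Y Z) : OIso X Z := by
  obtain ⟨e, he⟩ := h
  obtain ⟨f, hf⟩ := h'
  refine ⟨e.trans f, fun S _ _ x b => ?_⟩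
  rw [← he, ← hf]
  rfl

/-- isomorphism from a natural bijection -/
theorem OIso.ofBij {X Y : Over k W β wβ}
    (f : (S : Type) → [CommRing S] → [Algebra k S] → X.F.obj S → Y.F.obj S)
    (hf : ∀ {S S' : Type} [CommRing S] [Algebra k S] [CommRing S'] [Algebra k S']
      (φ : S →ₐ[k] S') (c : Chr W S') (x : X.F.obj S), f S' (X.F.tw φ c x) = Y.F.tw φ c (f S x))
    (hb : ∀ (S : Type) [CommRing S] [Algebra k S], Function.Bijective (f S))
    (hp : ∀ (S : Type) [CommRing S] [Algebra k S] (x : X.F.obj S) (b : β),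
      (Y.pt b).fn (f S x) = (X.pt b).fn x) : OIso X Y :=
  ⟨GEquiv.ofBij f hf hb, hp⟩

namespace Over

/-- subfunctor over the base -/
@[reducible] def sub (X : Over k W β wβ) (P : (S : Type) → [CommRing S] → [Algebra k S] → X.F.obj S → Prop)
    (hP : ∀ {S S' : Type} [CommRing S] [Algebra k S] [CommRing S'] [Algebra k S']
      (φ : S →ₐ[k] S') (c : Chr W S') (x : X.F.obj S), P S x → P S' (X.F.tw φ c x)) :
    Over k W β wβ :=
  ⟨X.F.sub P hP, fun b => (X.pt b).res⟩

/-- zero locus of a homogeneous function -/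
@[reducible] def zero (X : Over k W β wβ) {w : W} (h : NF X.F w) : Over k W β wβ :=
  X.sub (fun S _ _ x => h.fn x = 0) (fun φ c x hx => by rw [h.fn_tw, hx, map_zero, mul_zero])

/-- locus where a homogeneous function is invertible -/
@[reducible] def unit (X : Over k W β wβ) {w : W} (h : NF X.F w) : Over k W β wβ :=
  X.sub (fun S _ _ x => IsUnit (h.fn x))
    (fun φ c x hx => by rw [h.fn_tw]; exact (chr_isUnit c w).mul (hx.map φ))

/-- product with a functor -/
@[reducible] def times (X : Over k W β wβ) (G : GF k W) : Over k W β wβ :=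
  ⟨X.F.prod G, fun b => (X.pt b).fst G⟩

/-- change of the group -/
@[reducible] def mapWt {W' : Type} [AddCommGroup W'] (X : Over k W β wβ) (ψ : W →+ W') {wβ' : β → W'}
    (h : ∀ b, ψ (wβ b) = wβ' b) : Over k W' β wβ' :=
  ⟨X.F.mapWt ψ, fun b => ((X.pt b).mapWt ψ).cast (h b)⟩

end Over

end Over

variable (k W) in
/-- Correspondences from the base `β` to the base `β'`: a functor `K` of finite type, equations
`r` and new coordinates `Φ`, both depending on a point of the base `β` and a point of `K`. -/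
structure Kern (β : Type) (wβ : β → W) (β' : Type) (wβ' : β' → W) where
  K : GF k W
  hK : FT K
  A : Type
  wA : A → W
  r : A → {S : Type} → [CommRing S] → [Algebra k S] → (β → S) → K.obj S → S
  r_tw : ∀ (a : A) {S S' : Type} [CommRing S] [Algebra k S] [CommRing S'] [Algebra k S']
    (φ : S →ₐ[k] S') (c : Chr W S') (x : β → S) (z : K.obj S),
    r a (fun b => chr c (wβ b) * φ (x b)) (K.tw φ c z) = chr c (wA a) * φ (r a x z)
  Φ : β' → {S : Type} → [CommRing S] → [Algebra k S] → (β → S) → K.obj S → S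
  Φ_tw : ∀ (b' : β') {S S' : Type} [CommRing S] [Algebra k S] [CommRing S'] [Algebra k S']
    (φ : S →ₐ[k] S') (c : Chr W S') (x : β → S) (z : K.obj S),
    Φ b' (fun b => chr c (wβ b) * φ (x b)) (K.tw φ c z) = chr c (wβ' b') * φ (Φ b' x z)

section Kern

variable {β : Type} {wβ : β → W} {β' : Type} {wβ' : β' → W}

/-- the point of the base below `x` -/
@[reducible] def Over.base (X : Over k W β wβ) {S : Type} [CommRing S] [Algebra k S] (x : X.F.obj S) : β → S :=
  fun b => (X.pt b).fn x

theorem Over.base_tw (X : Over k W β wβ) {S S' : Type} [CommRing S] [Algebra k S] [CommRing S']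
    [Algebra k S'] (φ : S →ₐ[k] S') (c : Chr W S') (x : X.F.obj S) :
    X.base (X.F.tw φ c x) = fun b => chr c (wβ b) * φ (X.base x b) :=
  funext fun b => (X.pt b).fn_tw φ c x

/-- a function of the base and of `K`, evaluated on `X × K` -/
@[reducible] def Kern.nfr (C : Kern k W β wβ β' wβ') (X : Over k W β wβ) (a : C.A) :
    NF (X.F.prod C.K) (C.wA a) :=
  ⟨fun x => C.r a (X.base x.1) x.2, fun φ c x => by rw [X.base_tw, C.r_tw]⟩

/-- application of a correspondence -/
@[reducible] def Kern.app (C : Kern k W β wβ β' wβ') (X : Over k W β wβ) : Over k W β' wβ' where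
  F := (X.F.prod C.K).sub (fun S _ _ x => ∀ a, C.r a (X.base x.1) x.2 = 0)
    (fun φ c x hx a => by rw [X.base_tw, C.r_tw, hx a, map_zero, mul_zero])
  pt b' := ⟨fun x => C.Φ b' (X.base x.1.1) x.1.2, fun φ c x => by
    show C.Φ b' (X.base (X.F.tw φ c x.1.1)) (C.K.tw φ c x.1.2) = _
    rw [X.base_tw, C.Φ_tw]⟩

theorem Kern.app_FT (C : Kern k W β wβ β' wβ') {X : Over k W β wβ} (hX : FT X.F) :
    FT (C.app X).F :=
  FT.closed (hX.prod C.hK) (fun φ c x hx a => by rw [X.base_tw, C.r_tw, hx a, map_zero, mul_zero])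
    (fun a => C.nfr X a) (fun S _ _ x => Iff.rfl)

theorem Over.base_eq {X Y : Over k W β wβ} {e : GEquiv X.F Y.F}
    (he : ∀ (S : Type) [CommRing S] [Algebra k S] (x : X.F.obj S) (b : β),
      (Y.pt b).fn (e.eq S x) = (X.pt b).fn x) (S : Type) [CommRing S] [Algebra k S]
    (x : X.F.obj S) : Y.base (e.eq S x) = X.base x := funext fun b => he S x b

theorem Over.base_eq' {X Y : Over k W β wβ} {e : GEquiv X.F Y.F}
    (he : ∀ (S : Type) [CommRing S] [Algebra k S] (x : X.F.obj S) (b : β),
      (Y.pt b).fn (e.eq S x) = (X.pt b).fn x) (S : Type) [CommRing S] [Algebra k S]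
    (y : Y.F.obj S) : X.base ((e.eq S).symm y) = Y.base y := by
  rw [← Over.base_eq he, Equiv.apply_symm_apply]

theorem Kern.app_iso (C : Kern k W β wβ β' wβ') {X Y : Over k W β wβ} (h : OIso X Y) :
    OIso (C.app X) (C.app Y) := by
  obtain ⟨e, he⟩ := h
  refine ⟨⟨fun S _ _ => ?_, ?_⟩, ?_⟩
  · exact
      { toFun := fun x => ⟨(e.eq S x.1.1, x.1.2), fun a => by
          show C.r a (Y.base (e.eq S x.1.1)) x.1.2 = 0
          rw [Over.base_eq he]; exact x.2 a⟩
        invFun := fun y => ⟨((e.eq S).symm y.1.1, y.1.2), fun a => by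
          show C.r a (X.base ((e.eq S).symm y.1.1)) y.1.2 = 0
          rw [Over.base_eq' he]; exact y.2 a⟩
        left_inv := fun x => Subtype.ext (Prod.ext ((e.eq S).symm_apply_apply x.1.1) rfl)
        right_inv := fun y => Subtype.ext (Prod.ext ((e.eq S).apply_symm_apply y.1.1) rfl) }
  · intro S S' _ _ _ _ φ c x
    exact Subtype.ext (Prod.ext (e.eq_tw φ c x.1.1) rfl)
  · intro S _ _ x b
    show C.Φ b (Y.base (e.eq S x.1.1)) x.1.2 = C.Φ b (X.base x.1.1) x.1.2
    rw [Over.base_eq he]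

/-- pull back of a function to the application of a correspondence -/
@[reducible] def Kern.lift (C : Kern k W β wβ β' wβ') {X : Over k W β wβ} {w : W} (h : NF X.F w) :
    NF (C.app X).F w := ⟨fun x => h.fn x.1.1, fun φ c x => h.fn_tw φ c x.1.1⟩

theorem Kern.app_zero (C : Kern k W β wβ β' wβ') (X : Over k W β wβ) {w : W} (h : NF X.F w) :
    OIso (C.app (X.zero h)) ((C.app X).zero (C.lift h)) := by
  refine ⟨⟨fun S _ _ => ?_, ?_⟩, ?_⟩
  · exact
      { toFun := fun x => ⟨⟨(x.1.1.1, x.1.2), x.2⟩, x.1.1.2⟩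
        invFun := fun y => ⟨(⟨y.1.1.1, y.2⟩, y.1.1.2), y.1.2⟩
        left_inv := fun x => rfl
        right_inv := fun y => rfl }
  · intro S S' _ _ _ _ φ c x
    rfl
  · intro S _ _ x b
    rfl

theorem Kern.app_unit (C : Kern k W β wβ β' wβ') (X : Over k W β wβ) {w : W} (h : NF X.F w) :
    OIso (C.app (X.unit h)) ((C.app X).unit (C.lift h)) := by
  refine ⟨⟨fun S _ _ => ?_, ?_⟩, ?_⟩
  · exact
      { toFun := fun x => ⟨⟨(x.1.1.1, x.1.2), x.2⟩, x.1.1.2⟩
        invFun := fun y => ⟨(⟨y.1.1.1, y.2⟩, y.1.1.2), y.1.2⟩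
        left_inv := fun x => rfl
        right_inv := fun y => rfl }
  · intro S S' _ _ _ _ φ c x
    rfl
  · intro S _ _ x b
    rfl

theorem Kern.app_times (C : Kern k W β wβ β' wβ') (X : Over k W β wβ) (G : GF k W) :
    OIso (C.app (X.times G)) ((C.app X).times G) := by
  refine ⟨⟨fun S _ _ => ?_, ?_⟩, ?_⟩
  · exact
      { toFun := fun x => (⟨(x.1.1.1, x.1.2), x.2⟩, x.1.1.2)
        invFun := fun y => ⟨((y.1.1.1, y.2), y.1.1.2), y.1.2⟩
        left_inv := fun x => rfl
        right_inv := fun y => rfl }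
  · intro S S' _ _ _ _ φ c x
    rfl
  · intro S _ _ x b
    rfl

end Kern

/-- the character group of the profinite group scheme of roots of unity -/
abbrev QZ : Type := AddCircle (1 : ℚ)

variable (k) in
/-- additive invariants of functors of finite type over the base `β`, with values in a
commutative ring in which the class `L` of the line is invertible -/
structure SInv {β : Type} (wβ : β → QZ) {R : Type*} [CommRing R] (L : Rˣ) where
  χ : Over k QZ β wβ → R
  iso : ∀ {X Y : Over k QZ β wβ}, FT X.F → OIso X Y → χ X = χ Y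
  scissor : ∀ {X : Over k QZ β wβ}, FT X.F → ∀ {w : QZ} (h : NF X.F w),
    χ X = χ (X.zero h) + χ (X.unit h)
  lin : ∀ {X : Over k QZ β wβ}, FT X.F → ∀ w : QZ, χ (X.times (GF.line k w)) = L * χ X

theorem FT.zero {β : Type} {wβ : β → W} {X : Over k W β wβ} (hX : FT X.F) {w : W} (h : NF X.F w) :
    FT (X.zero h).F :=
  hX.closed (fun φ c x hx => by rw [h.fn_tw, hx, map_zero, mul_zero]) (A := Unit) (w := fun _ => w) (fun _ => h)
    (fun S _ _ x => ⟨fun hx _ => hx, fun hx => hx ()⟩)

theorem FT.unit' {β : Type} {wβ : β → W} {X : Over k W β wβ} (hX : FT X.F) {w : W} (h : NF X.F w) :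
    FT (X.unit h).F :=
  hX.unit (fun φ c x hx => by rw [h.fn_tw]; exact (chr_isUnit c w).mul (hx.map φ)) h
    (fun S _ _ x => Iff.rfl)

/-- composition with a correspondence -/
@[reducible] def SInv.comp {β : Type} {wβ : β → QZ} {β' : Type} {wβ' : β' → QZ} {R : Type*} [CommRing R]
    {L : Rˣ} (χ : SInv k wβ' L) (C : Kern k QZ β wβ β' wβ') : SInv k wβ L where
  χ X := χ.χ (C.app X)
  iso hX h := χ.iso (C.app_FT hX) (C.app_iso h)
  scissor {X} hX {w} h := by
    rw [χ.scissor (C.app_FT hX) (C.lift h), χ.iso (C.app_FT (hX.zero h)) (C.app_zero X h),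
      χ.iso (C.app_FT (hX.unit' h)) (C.app_unit X h)]
  lin {X} hX w := by
    rw [χ.iso (C.app_FT (hX.prod (FT.line w))) (C.app_times X (GF.line k w)),
      χ.lin (C.app_FT hX)]

end Pool.Agent.Helper6_Mono
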