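import Pool.Agent.Helper6_Mono.DecPow

/-!
# Pairs of cells
-/

set_option autoImplicit false
set_option linter.unusedVariables false
set_option linter.unusedSectionVars false

namespace Pool.Agent.Helper6_Mono

open PowerSeries Finset

variable {k : Type} [Field k] {σ : Type} {R : Type*} [CommRing R] {L : Rˣ}

namespace Dec

section

variable {g : MvPolynomial σ k} {s : Set σ} {S : Set ℚ} (D : Dec (k := k) L g s S)

/-- all cells -/
abbrev K : Type := (D.I0 ⊕ D.I) ⊕ D.J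

/-- the functor of a cell of order `m` -/
@[reducible] def cX (ω : ℚ) : D.K → ℕ → OverS k σ QZ
  | Sum.inl (Sum.inl i), _ => triv (D.z i).Y
  | Sum.inl (Sum.inr i), m => twq (D.r i).Y ((D.r i).q ω m)
  | Sum.inr j, _ => triv (D.fc j).Y

/-- the leading coefficient of a cell of order `m` -/
@[reducible] def cU (ω : ℚ) : (κ : D.K) → (m : ℕ) → NF (D.cX ω κ m).F (m • (ω : QZ))
  | Sum.inl (Sum.inl i), 0 => (D.z i).un (ω : QZ)
  | Sum.inl (Sum.inl i), (_ + 1) => NF.zero _ _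
  | Sum.inl (Sum.inr i), m => (D.r i).un ω m
  | Sum.inr j, _ => NF.zero _ _

/-- the coefficient of a cell of order `m` -/
def γ (l : ℕ) : D.K → ℕ → R
  | Sum.inl (Sum.inl i), m => if m = 0 then D.α i else 0
  | Sum.inl (Sum.inr i), m => D.A i m
  | Sum.inr j, m => if m < l then D.C j m else D.T j m

theorem cX_FT (ω : ℚ) (κ : D.K) (m : ℕ) : FT (D.cX ω κ m).F := by
  rcases κ with (i | i) | j
  · exact FT.mapWt _ (D.z i).ft
  · exact FT.mapWt _ (D.r i).ft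
  · exact FT.mapWt _ (D.fc j).ft

theorem sum_K (f : D.K → R) :
    ∑ κ, f κ = ∑ i, f (Sum.inl (Sum.inl i)) + ∑ i, f (Sum.inl (Sum.inr i))
      + ∑ j, f (Sum.inr j) := by
  rw [Fintype.sum_sum_type, Fintype.sum_sum_type]

theorem main' (ω : ℚ) (χ : SInv k (wser σ (ω : QZ)) L) (l : ℕ) :
    Li L ^ (Nat.card s * l) * χ.χ (Jet g s l (ω : QZ)) =
      ∑ m ∈ range (l + 1), ∑ κ, D.γ l κ m
        * (χ.cell l m).χ (withU (D.cX ω κ m) (D.cU ω κ m)) := by
  have e1 : ∀ m ∈ range (l + 1), ∑ κ, D.γ l κ m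
        * (χ.cell l m).χ (withU (D.cX ω κ m) (D.cU ω κ m))
      = ∑ i, (if m = 0 then D.α i else 0) * (χ.cell l m).χ
          (withU (D.cX ω (Sum.inl (Sum.inl i)) m) (D.cU ω (Sum.inl (Sum.inl i)) m))
        + ∑ i, D.A i m * (D.r i).val χ l m
        + ∑ j, (if m < l then D.C j m else D.T j m) * (D.fc j).val χ l m :=
    fun m _ => sum_K D _
  have e2 : ∑ m ∈ range (l + 1), ∑ i, (if m = 0 then D.α i else 0) * (χ.cell l m).χ
      (withU (D.cX ω (Sum.inl (Sum.inl i)) m) (D.cU ω (Sum.inl (Sum.inl i)) m))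
      = ∑ i, D.α i * (D.z i).val χ l := by
    rw [Finset.sum_eq_single 0]
    · exact Finset.sum_congr rfl fun i _ => by rw [if_pos rfl]
    · intro m _ hm
      exact Finset.sum_eq_zero fun i _ => by rw [if_neg hm, zero_mul]
    · intro h0
      exact absurd (Finset.mem_range.2 (Nat.succ_pos l)) h0
  have e3 : ∑ m ∈ range (l + 1), ∑ j, (if m < l then D.C j m else D.T j m) * (D.fc j).val χ l m
      = ∑ m ∈ range l, ∑ j, D.C j m * (D.fc j).val χ l m
        + ∑ j, D.T j l * (D.fc j).val χ l l := by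
    rw [Finset.sum_range_succ (fun m => ∑ j, (if m < l then D.C j m else D.T j m)
      * (D.fc j).val χ l m)]
    congr 1
    · refine Finset.sum_congr rfl fun m hm => Finset.sum_congr rfl fun j _ => ?_
      rw [if_pos (Finset.mem_range.1 hm)]
    · refine Finset.sum_congr rfl fun j _ => ?_
      rw [if_neg (lt_irrefl l)]
  rw [D.main ω χ l, Finset.sum_congr rfl e1, Finset.sum_add_distrib, Finset.sum_add_distrib, e2,
    e3]
  ring

theorem γ_free_lt {l m : ℕ} (h : m < l) (j : D.J) : D.γ l (Sum.inr j) m = D.C j m := if_pos h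

theorem γ_free_eq (l : ℕ) (j : D.J) : D.γ l (Sum.inr j) l = D.T j l := if_neg (lt_irrefl l)

/-- the tail identity, uniformly -/
theorem tail' [Finite σ] (ω : ℚ) (ψ : SInv k (fun _ : σ => (0 : QZ)) L) {q l : ℕ} (hq : q ≤ l) :
    ∑ m ∈ Ioc q l, ∑ κ, D.γ l κ m * ψ.χ (D.cX ω κ m)
      + ∑ j, D.γ l (Sum.inr j) q * ψ.χ (triv (D.fc j).Y) = D.ts ψ q := by
  have e1 : ∀ m ∈ Ioc q l, ∑ κ, D.γ l κ m * ψ.χ (D.cX ω κ m)
      = D.as ψ m + ∑ j, D.γ l (Sum.inr j) m * ψ.χ (triv (D.fc j).Y) := by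
    intro m hm
    rw [Finset.mem_Ioc] at hm
    refine (sum_K D _).trans ?_
    congr 1
    have h1 : ∑ i, D.γ l (Sum.inl (Sum.inl i)) m * ψ.χ (D.cX ω (Sum.inl (Sum.inl i)) m) = 0 := by
      refine Finset.sum_eq_zero fun i _ => ?_
      have : D.γ l (Sum.inl (Sum.inl i)) m = 0 := if_neg (by omega)
      rw [this, zero_mul]
    rw [h1, zero_add]
    unfold Dec.as
    refine Finset.sum_congr rfl fun i _ => congrArg (D.A i m * ·) ?_
    exact RCell.shift ψ (D.r i) _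
  rw [Finset.sum_congr rfl e1, Finset.sum_add_distrib, D.tail ψ hq]
  have e2 : ∑ m ∈ Ioc q l, ∑ j, D.γ l (Sum.inr j) m * ψ.χ (triv (D.fc j).Y)
      + ∑ j, D.γ l (Sum.inr j) q * ψ.χ (triv (D.fc j).Y)
      = ∑ m ∈ Icc q l, ∑ j, D.γ l (Sum.inr j) m * ψ.χ (triv (D.fc j).Y) := by
    have : Icc q l = insert q (Ioc q l) := by
      ext a
      simp only [Finset.mem_Icc, Finset.mem_Ioc, Finset.mem_insert]
      omega
    rw [this, Finset.sum_insert (by simp), add_comm]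
  have e3 : ∑ m ∈ Icc q l, ∑ j, D.γ l (Sum.inr j) m * ψ.χ (triv (D.fc j).Y)
      = ∑ m ∈ Ico q l, D.cs ψ m + D.ts ψ l := by
    have : Icc q l = insert l (Ico q l) := by
      ext a
      simp only [Finset.mem_Icc, Finset.mem_Ico, Finset.mem_insert]
      omega
    rw [this, Finset.sum_insert (by simp), add_comm]
    congr 1
    · refine Finset.sum_congr rfl fun m hm => ?_
      rw [Finset.mem_Ico] at hm
      unfold Dec.cs
      exact Finset.sum_congr rfl fun j _ => by rw [D.γ_free_lt hm.2]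
    · unfold Dec.ts
      exact Finset.sum_congr rfl fun j _ => by rw [D.γ_free_eq]
  rw [add_assoc, e2, e3]
  ring

/-- the sum over all cells -/
theorem all' [Finite σ] (ω : ℚ) (ψ : SInv k (fun _ : σ => (0 : QZ)) L) (l : ℕ) :
    ∑ m ∈ range (l + 1), ∑ κ, D.γ l κ m * ψ.χ (D.cX ω κ m) = D.zs ψ + D.ts ψ 0 := by
  rw [← D.tail' ω ψ (Nat.zero_le l)]
  have : range (l + 1) = insert 0 (Ioc 0 l) := by
    ext a
    simp only [Finset.mem_range, Finset.mem_Ioc, Finset.mem_insert]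
    omega
  rw [this, Finset.sum_insert (by simp)]
  have e1 : ∑ κ, D.γ l κ 0 * ψ.χ (D.cX ω κ 0)
      = D.zs ψ + ∑ j, D.γ l (Sum.inr j) 0 * ψ.χ (triv (D.fc j).Y) := by
    refine (sum_K D _).trans ?_
    congr 1
    have h1 : ∑ i, D.γ l (Sum.inl (Sum.inr i)) 0 * ψ.χ (D.cX ω (Sum.inl (Sum.inr i)) 0) = 0 := by
      refine Finset.sum_eq_zero fun i _ => ?_
      have : D.γ l (Sum.inl (Sum.inr i)) 0 = 0 := D.A0 i
      rw [this, zero_mul]
    rw [h1, add_zero]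
    rfl
  rw [e1]
  ring

end

end Dec

section pair

variable {ω : QZ}

/-- the class of a pair of cells -/
@[reducible] noncomputable def PB
    (B : (G : Over k QZ (σ ⊕ ℕ) (wser σ ω)) → FT G.F →
      Kern k QZ (σ ⊕ ℕ) (wser σ ω) (σ ⊕ ℕ) (wser σ ω))
    (χ : SInv k (wser σ ω) L) (l : ℕ) {m m' : ℕ}
    (X : Over k QZ (Option σ) (wopt σ (m • ω))) (Y : Over k QZ (Option σ) (wopt σ (m' • ω)))
    (hY : FT Y.F) : R :=
  Li L ^ (l - m') * ((χ.comp (B ((GenK k σ ω m' (l - m')).app Y) (GenK_FT hY))).cell l m).χ X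

/-- commutativity of a correspondence -/
def CommB (B : (G : Over k QZ (σ ⊕ ℕ) (wser σ ω)) → FT G.F →
      Kern k QZ (σ ⊕ ℕ) (wser σ ω) (σ ⊕ ℕ) (wser σ ω)) : Prop :=
  ∀ {X Y : Over k QZ (σ ⊕ ℕ) (wser σ ω)} (hX : FT X.F) (hY : FT Y.F),
    OIso ((B Y hY).app X) ((B X hX).app Y)

variable {B : (G : Over k QZ (σ ⊕ ℕ) (wser σ ω)) → FT G.F →
      Kern k QZ (σ ⊕ ℕ) (wser σ ω) (σ ⊕ ℕ) (wser σ ω)}

theorem PB_comm (hB : CommB B) (χ : SInv k (wser σ ω) L) (l : ℕ) {m m' : ℕ}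
    {X : Over k QZ (Option σ) (wopt σ (m • ω))} (hX : FT X.F)
    {Y : Over k QZ (Option σ) (wopt σ (m' • ω))} (hY : FT Y.F) :
    PB B χ l X Y hY = PB B χ l Y X hX := by
  show Li L ^ (l - m') * (Li L ^ (l - m) * χ.χ ((B ((GenK k σ ω m' (l - m')).app Y)
    (GenK_FT hY)).app ((GenK k σ ω m (l - m)).app X)))
    = Li L ^ (l - m) * (Li L ^ (l - m') * χ.χ ((B ((GenK k σ ω m (l - m)).app X)
    (GenK_FT hX)).app ((GenK k σ ω m' (l - m')).app Y)))
  rw [χ.iso ((B _ (GenK_FT hY)).app_FT (GenK_FT hX)) (hB (GenK_FT hX) (GenK_FT hY))]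
  ring

end pair

section pairF

variable [Finite σ] {ω : ℚ} {B : (G : Over k QZ (σ ⊕ ℕ) (wser σ (ω : QZ))) → FT G.F →
      Kern k QZ (σ ⊕ ℕ) (wser σ (ω : QZ)) (σ ⊕ ℕ) (wser σ (ω : QZ))}

/-- one cell of the first factor, all jets of the second -/
theorem Dec.pairF (hB : CommB B) {h : MvPolynomial σ k} {t : Set σ} {T : Set ℚ}
    (D' : Dec (k := k) L h t T) (χ : SInv k (wser σ (ω : QZ)) L) (l : ℕ)
    (hG : FT (Jet h t l (ω : QZ)).F) {m : ℕ} {X : Over k QZ (Option σ) (wopt σ (m • (ω : QZ)))}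
    (hX : FT X.F) :
    Li L ^ (Nat.card t * l) * ((χ.comp (B (Jet h t l (ω : QZ)) hG)).cell l m).χ X
      = ∑ m' ∈ range (l + 1), ∑ κ', D'.γ l κ' m'
        * PB B χ l X (withU (D'.cX ω κ' m') (D'.cU ω κ' m')) (D'.cX_FT ω κ' m') := by
  have h1 := D'.main' ω (χ.comp (B ((GenK k σ (ω : QZ) m (l - m)).app X) (GenK_FT hX))) l
  have h2 : ((χ.comp (B (Jet h t l (ω : QZ)) hG)).cell l m).χ X
      = Li L ^ (l - m) * (χ.comp (B ((GenK k σ (ω : QZ) m (l - m)).app X) (GenK_FT hX))).χ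
        (Jet h t l (ω : QZ)) := by
    show Li L ^ (l - m) * χ.χ ((B (Jet h t l (ω : QZ)) hG).app
      ((GenK k σ (ω : QZ) m (l - m)).app X)) = _
    rw [χ.iso ((B _ hG).app_FT (GenK_FT hX)) (hB (GenK_FT hX) hG)]
  rw [h2]
  calc _ = Li L ^ (l - m) * (Li L ^ (Nat.card t * l)
        * (χ.comp (B ((GenK k σ (ω : QZ) m (l - m)).app X) (GenK_FT hX))).χ
        (Jet h t l (ω : QZ))) := by ring
    _ = _ := by
      rw [h1, Finset.mul_sum]
      refine Finset.sum_congr rfl fun m' _ => ?_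
      rw [Finset.mul_sum]
      refine Finset.sum_congr rfl fun κ' _ => ?_
      rw [PB_comm hB χ l hX (D'.cX_FT ω κ' m')]
      ring

/-- all pairs of cells -/
theorem Dec.pair (hB : CommB B) {g h : MvPolynomial σ k} {s t : Set σ} {S T : Set ℚ}
    (D : Dec (k := k) L g s S)
    (D' : Dec (k := k) L h t T) (χ : SInv k (wser σ (ω : QZ)) L) (l : ℕ)
    (hG : FT (Jet h t l (ω : QZ)).F) :
    Li L ^ ((Nat.card s + Nat.card t) * l) * χ.χ ((B (Jet h t l (ω : QZ)) hG).app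
        (Jet g s l (ω : QZ)))
      = ∑ m ∈ range (l + 1), ∑ κ, D.γ l κ m * ∑ m' ∈ range (l + 1), ∑ κ', D'.γ l κ' m'
        * PB B χ l (withU (D.cX ω κ m) (D.cU ω κ m)) (withU (D'.cX ω κ' m') (D'.cU ω κ' m'))
          (D'.cX_FT ω κ' m') := by
  have h1 := D.main' ω (χ.comp (B (Jet h t l (ω : QZ)) hG)) l
  rw [add_mul, pow_add]
  calc _ = Li L ^ (Nat.card t * l) * (Li L ^ (Nat.card s * l)
        * (χ.comp (B (Jet h t l (ω : QZ)) hG)).χ (Jet g s l (ω : QZ))) := by ring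
    _ = _ := by
      rw [h1, Finset.mul_sum]
      refine Finset.sum_congr rfl fun m _ => ?_
      rw [Finset.mul_sum]
      refine Finset.sum_congr rfl fun κ _ => ?_
      rw [← Dec.pairF hB D' χ l hG (D.cX_FT ω κ m)]
      ring

end pairF

end Pool.Agent.Helper6_Mono
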