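import Pool.Agent.Helper6_Mono.Pair

/-!
# Cells built from pairs of cells
-/

set_option autoImplicit false
set_option linter.unusedVariables false
set_option linter.unusedSectionVars false

namespace Pool.Agent.Helper6_Mono

open PowerSeries Finset

variable {k : Type} [Field k] {σ : Type} {R : Type*} [CommRing R] {L : Rˣ}

/-! ### Products with free cells -/

/-- cell of order zero times free cell -/
@[reducible] def ZCell.mulF (c : ZCell k σ) (d : FCell k σ) : ZCell k σ where
  Y := prS c.Y d.Y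
  ft := c.ft.prod d.ft
  u := c.u.fst d.Y.F
  hu S _ _ x := c.hu S x.1

/-- regular cell times a functor with trivial action -/
@[reducible] def RCell.mulF (c : RCell k σ) (d : FCell k σ) : RCell k σ where
  Y := prS c.Y (flat d.Y)
  ft := c.ft.prod (FT.mapWt _ d.ft)
  e := c.e
  he := c.he
  u := c.u.fst (flat d.Y).F
  hu S _ _ x := c.hu S x.1
  v := c.v.fst (flat d.Y).F
  hv S _ _ x := c.hv S x.1

/-- product of free cells -/
@[reducible] def FCell.mulF (c d : FCell k σ) : FCell k σ where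
  Y := prS c.Y d.Y
  ft := c.ft.prod d.ft

variable {ω : ℚ}

theorem ZCell.mulF_val (c : ZCell k σ) (d : FCell k σ) (χ : SInv k (wser σ (ω : QZ)) L) (l : ℕ) :
    (c.mulF d).val χ l = (χ.cell l 0).χ (withU (prS (triv c.Y) (triv d.Y))
      ((c.un (ω : QZ)).fst (triv d.Y).F)) := rfl

theorem FCell.mulF_val (c d : FCell k σ) (χ : SInv k (wser σ (ω : QZ)) L) (l m : ℕ) :
    (c.mulF d).val χ l m = (χ.cell l m).χ (withU (prS (triv c.Y) (triv d.Y))
      (NF.zero _ (m • (ω : QZ)))) := rfl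

theorem prS_flat {w q : QZ} (θ : SInv k (wopt σ w) L) (Y U : OverS k σ ℤ) (hY : FT Y.F)
    (hU : FT U.F) (f : NF (prS (twq Y q) (triv U)).F w) (f' : NF (twq (prS Y (flat U)) q).F w)
    (hf : ∀ (S : Type) [CommRing S] [Algebra k S] (x : Y.F.obj S × U.F.obj S),
      f.fn x = f'.fn x) :
    θ.χ (withU (twq (prS Y (flat U)) q) f') = θ.χ (withU (prS (twq Y q) (triv U)) f) := by
  refine θ.iso (FT.mapWt _ (hY.prod (FT.mapWt _ hU))) (OIso.mk' (fun S _ _ p => p)
    (fun S _ _ p => p) (fun S _ _ p => rfl) (fun S _ _ p => rfl) (fun {S S'} _ _ _ _ φ c p => ?_)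
      (fun S _ _ p b => ?_))
  · refine Prod.ext rfl ?_
    show U.F.tw φ ((c.pull (zmultiplesHom QZ q)).pull 0) p.2 = U.F.tw φ (c.pull 0) p.2
    rw [pull_pull_zero]
  · cases b with
    | none => exact hf S p
    | some i => rfl

theorem RCell.mulF_val (c : RCell k σ) (d : FCell k σ) (χ : SInv k (wser σ (ω : QZ)) L)
    (l m : ℕ) :
    (c.mulF d).val χ l m = (χ.cell l m).χ (withU (prS (twq c.Y (c.q ω m)) (triv d.Y))
      ((c.un ω m).fst (triv d.Y).F)) :=
  prS_flat (χ.cell l m) c.Y d.Y c.ft d.ft _ _ (fun S _ _ x => rfl)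

/-! ### Sums of regular cells -/

/-- integral powers of an invertible function -/
@[reducible] noncomputable def NF.zp {W : Type} [AddCommGroup W] {F : GF k W} {w : W} (v : NF F w)
    (hv : ∀ (S : Type) [CommRing S] [Algebra k S] (x : F.obj S), IsUnit (v.fn x)) (a : ℤ) :
    NF F (a • w) :=
  ⟨fun {S} _ _ x => (((hv S x).unit ^ a : Sˣ) : S), fun {S S'} _ _ _ _ φ c x => by
    have h1 : (hv S' (F.tw φ c x)).unit
        = c (Multiplicative.ofAdd w) * Units.map (φ : S →* S') (hv S x).unit :=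
      Units.ext (v.fn_tw φ c x)
    have h2 : chr c (a • w) = ((c (Multiplicative.ofAdd w) ^ a : S'ˣ) : S') := by
      show ((c (Multiplicative.ofAdd (a • w)) : S'ˣ) : S') = _
      rw [ofAdd_zsmul, map_zpow]
    have h3 : (Units.map (φ : S →* S') (hv S x).unit) ^ a
        = Units.map (φ : S →* S') ((hv S x).unit ^ a) := (map_zpow _ _ _).symm
    rw [h1, h2, mul_zpow, Units.val_mul, h3]
    rfl⟩

theorem NF.zp_unit {W : Type} [AddCommGroup W] {F : GF k W} {w : W} (v : NF F w)
    (hv : ∀ (S : Type) [CommRing S] [Algebra k S] (x : F.obj S), IsUnit (v.fn x)) (a : ℤ)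
    (S : Type) [CommRing S] [Algebra k S] (x : F.obj S) : IsUnit ((v.zp hv a).fn x) :=
  Units.isUnit _

/-- restriction to the locus where a function is invertible -/
@[reducible] def NF.onU {W : Type} [AddCommGroup W] {β : Type} {wβ : β → W} {X : Over k W β wβ}
    {w v : W} (h : NF X.F w) (g : NF X.F v) : NF (X.unit h).F v :=
  ⟨fun x => g.fn x.1, fun φ c x => g.fn_tw φ c x.1⟩

/-- restriction to the zero locus of a function -/
@[reducible] def NF.onZ {W : Type} [AddCommGroup W] {β : Type} {wβ : β → W} {X : Over k W β wβ}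
    {w v : W} (h : NF X.F w) (g : NF X.F v) : NF (X.zero h).F v :=
  ⟨fun x => g.fn x.1, fun φ c x => g.fn_tw φ c x.1⟩

/-- a functor with an invertible function of weight one, as a regular cell -/
@[reducible] def RCell.ofV (Y : OverS k σ ℤ) (ft : FT Y.F) (v : NF Y.F 1)
    (hv : ∀ (S : Type) [CommRing S] [Algebra k S] (x : Y.F.obj S), IsUnit (v.fn x)) :
    RCell k σ where
  Y := Y
  ft := ft
  e := 1
  he := one_pos
  u := v
  hu := hv
  v := v
  hv := hv

section bezout

variable (e e' : ℕ)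

/-- `e' / gcd (e, e')` -/
def cof (e e' : ℕ) : ℕ := e' / Nat.gcd e e'

theorem mul_cof (he : 0 < e) (he' : 0 < e') : e * cof e e' = e' * cof e' e := by
  unfold cof
  rw [Nat.gcd_comm e' e, ← Nat.mul_div_assoc _ (Nat.gcd_dvd_right e e'),
    ← Nat.mul_div_assoc _ (Nat.gcd_dvd_left e e'), mul_comm]

theorem cof_pos (he : 0 < e) (he' : 0 < e') : 0 < cof e e' :=
  Nat.div_pos (Nat.le_of_dvd he' (Nat.gcd_dvd_right _ _)) (Nat.gcd_pos_of_pos_left _ he)

theorem cof_bezout (he : 0 < e) (he' : 0 < e') :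
    ∃ a b : ℤ, a * cof e e' + b * cof e' e = 1 := by
  have h : Nat.Coprime (cof e e') (cof e' e) := by
    unfold cof
    rw [Nat.gcd_comm e' e]
    exact (Nat.coprime_div_gcd_div_gcd (Nat.gcd_pos_of_pos_left _ he)).symm
  have h2 : IsCoprime ((cof e e' : ℕ) : ℤ) ((cof e' e : ℕ) : ℤ) := Nat.isCoprime_iff_coprime.2 h
  obtain ⟨a, b, hab⟩ := h2
  exact ⟨a, b, hab⟩

end bezout

namespace RCell

variable (c d : RCell k σ)

/-- the product of two regular cells with rescaled weights -/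
@[reducible] def YY : OverS k σ ℤ :=
  prS (c.Y.mapS (zmultiplesHom ℤ (cof c.e d.e : ℤ))) (d.Y.mapS (zmultiplesHom ℤ (cof d.e c.e : ℤ)))

theorem YY_ft : FT (c.YY d).F := (FT.mapWt _ c.ft).prod (FT.mapWt _ d.ft)

/-- the common weight -/
def EE : ℕ := c.e * cof c.e d.e

theorem EE_pos : 0 < c.EE d := Nat.mul_pos c.he (cof_pos _ _ c.he d.he)

theorem EE_eq : c.EE d = d.e * cof d.e c.e := mul_cof _ _ c.he d.he

/-- the sum of the leading coefficients -/
@[reducible] def uu : NF (c.YY d).F (c.EE d : ℤ) :=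
  (((c.u.mapWt (zmultiplesHom ℤ (cof c.e d.e : ℤ))).cast (w := (c.EE d : ℤ))
      (by rw [zmultiplesHom_apply, EE]; simp)).fst _).add
    (((d.u.mapWt (zmultiplesHom ℤ (cof d.e c.e : ℤ))).cast (w := (c.EE d : ℤ))
      (by rw [zmultiplesHom_apply, EE_eq]; simp)).snd _)

/-- an invertible function of weight one -/
theorem exists_vv : ∃ v : NF (c.YY d).F 1,
    ∀ (S : Type) [CommRing S] [Algebra k S] (x : (c.YY d).F.obj S), IsUnit (v.fn x) := by
  obtain ⟨a, b, hab⟩ := cof_bezout c.e d.e c.he d.he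
  let v1 : NF (c.YY d).F (cof c.e d.e : ℤ) :=
    ((c.v.mapWt (zmultiplesHom ℤ (cof c.e d.e : ℤ))).cast (by simp)).fst _
  let v2 : NF (c.YY d).F (cof d.e c.e : ℤ) :=
    ((d.v.mapWt (zmultiplesHom ℤ (cof d.e c.e : ℤ))).cast (by simp)).snd _
  refine ⟨((v1.zp (fun S _ _ x => c.hv S x.1) a).mul (v2.zp (fun S _ _ x => d.hv S x.2) b)).cast
    (by rw [smul_eq_mul, smul_eq_mul, hab]), fun S _ _ x => ?_⟩
  exact (Units.isUnit _).mul (Units.isUnit _)

/-- the locus where the sum of the leading coefficients is invertible -/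
@[reducible] noncomputable def addU : RCell k σ where
  Y := (c.YY d).unit (c.uu d)
  ft := FT.unit' (c.YY_ft d) (c.uu d)
  e := c.EE d
  he := c.EE_pos d
  u := (c.uu d).onU (X := c.YY d) (c.uu d)
  hu S _ _ x := x.2
  v := (c.uu d).onU (X := c.YY d) (Classical.choose (c.exists_vv d))
  hv S _ _ x := Classical.choose_spec (c.exists_vv d) S x.1

/-- the locus where the sum of the leading coefficients is zero -/
@[reducible] def addF : FCell k σ where
  Y := (c.YY d).zero (c.uu d)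
  ft := FT.zero (c.YY_ft d) (c.uu d)

end RCell

/-- the locus where the sum of the leading coefficients is invertible -/
@[reducible] def ZCell.addZ (c d : ZCell k σ) : ZCell k σ where
  Y := (prS c.Y d.Y).unit ((c.u.fst d.Y.F).add (d.u.snd c.Y.F))
  ft := FT.unit' (c.ft.prod d.ft) _
  u := ((c.u.fst d.Y.F).add (d.u.snd c.Y.F)).onU (X := prS c.Y d.Y)
    ((c.u.fst d.Y.F).add (d.u.snd c.Y.F))
  hu S _ _ x := x.2

/-- the locus where the sum of the leading coefficients is zero -/
@[reducible] def ZCell.addF (c d : ZCell k σ) : FCell k σ where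
  Y := (prS c.Y d.Y).zero ((c.u.fst d.Y.F).add (d.u.snd c.Y.F))
  ft := FT.zero (c.ft.prod d.ft) _

/-- splitting along the vanishing of a function -/
theorem SInv.split {w : QZ} (θ : SInv k (wopt σ w) L) (Y : OverS k σ QZ) (hY : FT Y.F)
    (u : NF Y.F w) :
    θ.χ (withU Y u) = θ.χ (withU (Y.zero u) (NF.zero _ w))
      + θ.χ (withU (Y.unit u) (u.onU (X := Y) u)) := by
  have h := θ.scissor (X := withU Y u) hY u
  have h1 : OIso ((withU Y u).zero u) (withU (Y.zero u) (NF.zero _ w)) := by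
    refine OIso.mk' (fun S _ _ p => p) (fun S _ _ p => p) (fun S _ _ p => rfl)
      (fun S _ _ p => rfl) (fun φ c p => rfl) (fun S _ _ p b => ?_)
    cases b with
    | none => exact p.2.symm
    | some i => rfl
  have h2 : OIso ((withU Y u).unit u) (withU (Y.unit u) (u.onU (X := Y) u)) := by
    refine OIso.mk' (fun S _ _ p => p) (fun S _ _ p => p) (fun S _ _ p => rfl)
      (fun S _ _ p => rfl) (fun φ c p => rfl) (fun S _ _ p b => ?_)
    cases b <;> rfl
  rw [h, θ.iso (FT.zero (X := withU Y u) hY u) h1, θ.iso (FT.unit' (X := withU Y u) hY u) h2]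

theorem pull_zm {S : Type} [CommRing S] (c : Chr QZ S) {q q' : QZ} {n : ℤ} (h : n • q = q') :
    (c.pull (zmultiplesHom QZ q)).pull (zmultiplesHom ℤ n) = c.pull (zmultiplesHom QZ q') := by
  apply Chr.ext'
  intro w
  rw [chr_pull, chr_pull, chr_pull, zmultiplesHom_apply, zmultiplesHom_apply, zmultiplesHom_apply,
    smul_eq_mul, mul_smul, h]

theorem RCell.add_val (c d : RCell k σ) (χ : SInv k (wser σ (ω : QZ)) L) (l m : ℕ) [Finite σ] :
    (χ.cell l m).χ (withU (prS (twq c.Y (c.q ω m)) (twq d.Y (d.q ω m)))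
        (((c.un ω m).fst _).add ((d.un ω m).snd _)))
      = (c.addF d).val χ l m + (c.addU d).val χ l m := by
  set q : QZ := ((m * ω / (c.EE d) : ℚ) : QZ) with hq
  have hE : (c.EE d : ℚ) ≠ 0 := by exact_mod_cast (c.EE_pos d).ne'
  have hq1 : (cof c.e d.e : ℤ) • q = c.q ω m := by
    rw [hq, ← AddCircle.coe_zsmul]
    congr 1
    have h1 : (c.EE d : ℚ) = c.e * cof c.e d.e := by
      unfold RCell.EE
      push_cast
      ring
    have h2 : (c.e : ℚ) ≠ 0 := by exact_mod_cast c.he.ne'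
    have h3 : (cof c.e d.e : ℚ) ≠ 0 := by exact_mod_cast (cof_pos _ _ c.he d.he).ne'
    rw [h1]
    simp only [zsmul_eq_mul, Int.cast_natCast]
    field_simp
  have hq2 : (cof d.e c.e : ℤ) • q = d.q ω m := by
    rw [hq, ← AddCircle.coe_zsmul]
    congr 1
    have h1 : (c.EE d : ℚ) = d.e * cof d.e c.e := by
      rw [RCell.EE_eq]
      push_cast
      ring
    have h2 : (d.e : ℚ) ≠ 0 := by exact_mod_cast d.he.ne'
    have h3 : (cof d.e c.e : ℚ) ≠ 0 := by exact_mod_cast (cof_pos _ _ d.he c.he).ne'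
    rw [h1]
    simp only [zsmul_eq_mul, Int.cast_natCast]
    field_simp
  have hm : zmultiplesHom QZ q (c.EE d : ℤ) = m • (ω : QZ) := q_eq ω m (c.EE d) (c.EE_pos d)
  have h1 : OIso (withU (prS (twq c.Y (c.q ω m)) (twq d.Y (d.q ω m)))
        (((c.un ω m).fst _).add ((d.un ω m).snd _)))
      (withU (twq (c.YY d) q) (((c.uu d).mapWt (zmultiplesHom QZ q)).cast hm)) := by
    refine OIso.mk' (fun S _ _ p => p) (fun S _ _ p => p) (fun S _ _ p => rfl)
      (fun S _ _ p => rfl) (fun {S S'} _ _ _ _ φ x p => ?_) (fun S _ _ p b => ?_)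
    · refine Prod.ext ?_ ?_
      · show c.Y.F.tw φ (x.pull (zmultiplesHom QZ (c.q ω m))) p.1
          = c.Y.F.tw φ ((x.pull (zmultiplesHom QZ q)).pull
            (zmultiplesHom ℤ (cof c.e d.e : ℤ))) p.1
        rw [pull_zm x hq1]
      · show d.Y.F.tw φ (x.pull (zmultiplesHom QZ (d.q ω m))) p.2
          = d.Y.F.tw φ ((x.pull (zmultiplesHom QZ q)).pull
            (zmultiplesHom ℤ (cof d.e c.e : ℤ))) p.2
        rw [pull_zm x hq2]
    · cases b <;> rfl
  have hft : FT (withU (prS (twq c.Y (c.q ω m)) (twq d.Y (d.q ω m))) (w := m • (ω : QZ))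
        (((c.un ω m).fst _).add ((d.un ω m).snd _))).F := (FT.mapWt _ c.ft).prod (FT.mapWt _ d.ft)
  rw [(χ.cell l m).iso hft h1,
    SInv.split (χ.cell l m) (twq (c.YY d) q) (FT.mapWt _ (c.YY_ft d))]
  congr 1
  exact nil_shift (χ.cell l m) (RCell.ofV ((c.YY d).zero (c.uu d)) (c.addF d).ft
    ((c.uu d).onZ (X := c.YY d) (Classical.choose (c.exists_vv d)))
    (fun S _ _ x => Classical.choose_spec (c.exists_vv d) S x.1)) q

theorem ZCell.add_val (c d : ZCell k σ) (χ : SInv k (wser σ (ω : QZ)) L) (l : ℕ) :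
    (χ.cell l 0).χ (withU (prS (triv c.Y) (triv d.Y))
        (((c.un (ω : QZ)).fst _).add ((d.un (ω : QZ)).snd _)))
      = (c.addF d).val χ l 0 + (c.addZ d).val χ l :=
  SInv.split (χ.cell l 0) (prS (triv c.Y) (triv d.Y)) ((FT.mapWt _ c.ft).prod (FT.mapWt _ d.ft)) _

end Pool.Agent.Helper6_Mono
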