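import Pool.Agent.Helper6_Mono.Over

/-!
# Functors of power series
-/

set_option autoImplicit false
set_option linter.unusedVariables false

namespace Pool.Agent.Helper6_Mono

open PowerSeries

variable {k : Type} [Field k] {W : Type} [AddCommGroup W]

section twS

variable {S S' S'' : Type} [CommRing S] [Algebra k S] [CommRing S'] [Algebra k S'] [CommRing S'']
  [Algebra k S'']

/-- the action on power series, `t` having weight `ω` -/
noncomputable def twS (ω : W) (φ : S →ₐ[k] S') (c : Chr W S') : S⟦X⟧ →ₐ[k] S'⟦X⟧ :=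
  { (rescale (chr c ω)).comp (PowerSeries.map (φ : S →+* S')) with
    commutes' := fun r => by
      ext j
      show coeff j (rescale (chr c ω) (PowerSeries.map (φ : S →+* S') (algebraMap k S⟦X⟧ r))) = _
      rw [coeff_rescale, coeff_map, PowerSeries.algebraMap_apply, PowerSeries.algebraMap_apply,
        coeff_C, coeff_C]
      split_ifs with h
      · rw [h, pow_zero, one_mul]
        exact φ.commutes r
      · rw [map_zero, mul_zero] }

theorem coeff_twS (ω : W) (φ : S →ₐ[k] S') (c : Chr W S') (U : S⟦X⟧) (j : ℕ) :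
    coeff j (twS ω φ c U) = chr c (j • ω) * φ (coeff j U) := by
  show coeff j (rescale (chr c ω) (PowerSeries.map (φ : S →+* S') U)) = _
  rw [coeff_rescale, coeff_map, chr_nsmul]
  rfl

theorem twS_id (ω : W) (U : S⟦X⟧) : twS ω (AlgHom.id k S) 1 U = U := by
  ext j
  rw [coeff_twS]
  simp

theorem twS_twS (ω : W) (φ : S →ₐ[k] S') (c : Chr W S') (ψ : S' →ₐ[k] S'') (d : Chr W S'')
    (U : S⟦X⟧) : twS ω ψ d (twS ω φ c U) = twS ω (ψ.comp φ) (d * c.map ψ) U := by
  ext j
  rw [coeff_twS, coeff_twS, coeff_twS]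
  simp [mul_assoc]

theorem twS_X_pow (ω : W) (φ : S →ₐ[k] S') (c : Chr W S') (m : ℕ) :
    twS ω φ c (X ^ m : S⟦X⟧) = C (chr c (m • ω)) * X ^ m := by
  ext j
  rw [coeff_twS, coeff_C_mul, coeff_X_pow, coeff_X_pow]
  split_ifs with h
  · rw [h, map_one]
  · rw [map_zero, mul_zero, mul_zero]

theorem twS_C (ω : W) (φ : S →ₐ[k] S') (c : Chr W S') (a : S) :
    twS ω φ c (C a : S⟦X⟧) = C (φ a) := by
  ext j
  rw [coeff_twS, coeff_C, coeff_C]
  split_ifs with h
  · rw [h, zero_smul, chr_zero, one_mul]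
  · rw [map_zero, mul_zero]

end twS

/-- power series with coefficients of index in `[p, q)`; `t` has weight `ω`, and there is an
additional weight `w` -/
@[reducible] noncomputable def GF.sl (k : Type) [Field k] (ω w : W) (p q : ℕ) : GF k W where
  obj S _ _ := {U : S⟦X⟧ // ∀ j, (j < p ∨ q ≤ j) → coeff j U = 0}
  tw φ c U := ⟨C (chr c w) * twS ω φ c U.1, fun j hj => by
    rw [coeff_C_mul, coeff_twS, U.2 j hj, map_zero, mul_zero, mul_zero]⟩
  tw_id U := Subtype.ext (by
    show C (chr 1 w) * twS ω (AlgHom.id k _) 1 U.1 = U.1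
    rw [twS_id, chr_one, map_one, one_mul])
  tw_tw φ c ψ d U := Subtype.ext (by
    show C (chr d w) * twS ω ψ d (C (chr c w) * twS ω φ c U.1) = _
    rw [map_mul, twS_C, twS_twS, ← mul_assoc, ← map_mul]
    simp)

theorem coeff_sl_tw {ω w : W} {p q : ℕ} {S S' : Type} [CommRing S] [Algebra k S] [CommRing S']
    [Algebra k S'] (φ : S →ₐ[k] S') (c : Chr W S') (U : (GF.sl k ω w p q).obj S) (j : ℕ) :
    coeff j ((GF.sl k ω w p q).tw φ c U).1 = chr c (w + j • ω) * φ (coeff j U.1) := by
  show coeff j (C (chr c w) * twS ω φ c U.1) = _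
  rw [coeff_C_mul, coeff_twS, chr_add, mul_assoc]

/-- empty range -/
def GF.slNil (ω w : W) (p : ℕ) : GEquiv (GF.sl k ω w p p) (GF.one k W) where
  eq S _ _ :=
    { toFun := fun _ => ()
      invFun := fun _ => ⟨0, fun j _ => by rw [map_zero]⟩
      left_inv := fun U => Subtype.ext (by
        ext j
        rw [map_zero, U.2 j (lt_or_ge j p)])
      right_inv := fun _ => rfl }
  eq_tw φ c x := rfl

/-- adding one coefficient -/
noncomputable def GF.slSucc (ω w : W) (p q : ℕ) (h : p ≤ q) :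
    GEquiv (GF.sl k ω w p (q + 1)) ((GF.sl k ω w p q).prod (GF.line k (w + q • ω))) where
  eq S _ _ :=
    { toFun := fun U => (⟨U.1 - C (coeff q U.1) * X ^ q, fun j hj => by
          rw [map_sub, coeff_C_mul, coeff_X_pow]
          split_ifs with hjq
          · rw [hjq]; ring
          · rw [U.2 j (by omega)]; ring⟩, coeff q U.1)
      invFun := fun V => ⟨V.1.1 + C V.2 * X ^ q, fun j hj => by
          rw [map_add, coeff_C_mul, coeff_X_pow, if_neg (by omega), V.1.2 j (by omega)]; ring⟩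
      left_inv := fun U => Subtype.ext (by ring)
      right_inv := fun V => Prod.ext (Subtype.ext (by
          show V.1.1 + C V.2 * X ^ q - C (coeff q (V.1.1 + C V.2 * X ^ q)) * X ^ q = V.1.1
          rw [map_add, coeff_C_mul, coeff_X_pow, if_pos rfl, V.1.2 q (Or.inr le_rfl)]
          simp)) (by
          show coeff q (V.1.1 + C V.2 * X ^ q) = V.2
          rw [map_add, coeff_C_mul, coeff_X_pow, if_pos rfl, V.1.2 q (Or.inr le_rfl)]
          ring) }
  eq_tw {S S'} _ _ _ _ φ c U := by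
    refine Prod.ext (Subtype.ext ?_) ?_
    · ext j
      show coeff j (((GF.sl k ω w p (q + 1)).tw φ c U).1
        - C (coeff q ((GF.sl k ω w p (q + 1)).tw φ c U).1) * X ^ q)
        = coeff j (C (chr c w) * twS ω φ c (U.1 - C (coeff q U.1) * X ^ q))
      simp only [map_sub, coeff_C_mul, coeff_twS, coeff_X_pow]
      split_ifs with hjq
      · rw [hjq]; simp
      · simp
    · show coeff q ((GF.sl k ω w p (q + 1)).tw φ c U).1 = chr c (w + q • ω) * φ (coeff q U.1)
      rw [coeff_sl_tw]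

theorem FT.sl (ω w : W) (p q : ℕ) (h : p ≤ q) : FT (GF.sl k ω w p q) := by
  induction q, h using Nat.le_induction with
  | base => exact FT.of_equiv (GF.slNil ω w p) FT.one
  | succ q hq ih => exact FT.of_equiv (GF.slSucc ω w p q hq) (ih.prod (FT.line _))

section times

variable {β : Type} {wβ : β → W}

theorem Over.times_congr (X : Over k W β wβ) {G H : GF k W} (e : GEquiv G H) :
    OIso (X.times G) (X.times H) :=
  ⟨⟨fun S _ _ => Equiv.prodCongr (Equiv.refl _) (e.eq S), fun φ c x => Prod.ext rfl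
    (e.eq_tw φ c x.2)⟩, fun S _ _ x b => rfl⟩

theorem Over.times_one (X : Over k W β wβ) : OIso (X.times (GF.one k W)) X :=
  ⟨⟨fun S _ _ => Equiv.prodPUnit _, fun φ c x => rfl⟩, fun S _ _ x b => rfl⟩

theorem Over.times_prod (X : Over k W β wβ) (G H : GF k W) :
    OIso (X.times (G.prod H)) ((X.times G).times H) :=
  ⟨⟨fun S _ _ => (Equiv.prodAssoc _ _ _).symm, fun φ c x => rfl⟩, fun S _ _ x b => rfl⟩

end times

section chi

variable {β : Type} {wβ : β → QZ} {R : Type*} [CommRing R] {L : Rˣ} (χ : SInv k wβ L)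

theorem SInv.times_sl {X : Over k QZ β wβ} (hX : FT X.F) (ω w : QZ) (p q : ℕ) (h : p ≤ q) :
    χ.χ (X.times (GF.sl k ω w p q)) = (L : R) ^ (q - p) * χ.χ X := by
  induction q, h using Nat.le_induction with
  | base =>
    rw [χ.iso (hX.prod (FT.sl _ _ _ _ le_rfl)) (X.times_congr (GF.slNil ω w p)),
      χ.iso (hX.prod FT.one) X.times_one, Nat.sub_self, pow_zero, one_mul]
  | succ q hq ih =>
    rw [χ.iso (hX.prod (FT.sl _ _ _ _ (by omega))) (X.times_congr (GF.slSucc ω w p q hq)),
      χ.iso (hX.prod ((FT.sl _ _ _ _ hq).prod (FT.line _))) (X.times_prod _ _),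
      χ.lin (hX.prod (FT.sl _ _ _ _ hq)), ih, show q + 1 - p = (q - p) + 1 by omega, pow_succ]
    ring

theorem SInv.times_gm {X : Over k QZ β wβ} (hX : FT X.F) (w : QZ) :
    χ.χ (X.times (GF.gm k w)) = ((L : R) - 1) * χ.χ X := by
  have h := χ.scissor (hX.prod (FT.line w)) (X := X.times (GF.line k w)) (w := w)
    ⟨fun x => x.2, fun φ c x => rfl⟩
  rw [χ.lin hX] at h
  have h1 : OIso ((X.times (GF.line k w)).zero (w := w) ⟨fun x => x.2, fun φ c x => rfl⟩) X :=
    ⟨⟨fun S _ _ =>
      { toFun := fun x => x.1.1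
        invFun := fun x => ⟨(x, 0), rfl⟩
        left_inv := fun x => Subtype.ext (Prod.ext rfl x.2.symm)
        right_inv := fun x => rfl }, fun φ c x => rfl⟩, fun S _ _ x b => rfl⟩
  have h2 : OIso ((X.times (GF.line k w)).unit (w := w) ⟨fun x => x.2, fun φ c x => rfl⟩)
      (X.times (GF.gm k w)) :=
    ⟨⟨fun S _ _ =>
      { toFun := fun x => (x.1.1, ⟨x.1.2, x.2⟩)
        invFun := fun x => ⟨(x.1, x.2.1), x.2.2⟩
        left_inv := fun x => rfl
        right_inv := fun x => rfl }, fun φ c x => rfl⟩, fun S _ _ x b => rfl⟩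
  rw [χ.iso (FT.zero (hX.prod (FT.line w)) _) h1, χ.iso (FT.unit' (hX.prod (FT.line w)) _) h2] at h
  rw [sub_mul, one_mul, h]
  ring

end chi

end Pool.Agent.Helper6_Mono
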