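import Pool.Agent.Helper6_Mono.Sigma

/-!
# Change of weights along a grading with an invertible function of degree one
-/

set_option autoImplicit false
set_option linter.unusedVariables false

namespace Pool.Agent.Helper6_Mono

variable {k : Type} [Field k]

section lam

variable {W : Type} [AddCommGroup W] {S S' : Type} [CommRing S] [CommRing S']

/-- the character given by a grading and a unit -/
def lam (δ : W →+ ℤ) (y : Sˣ) : Chr W S where
  toFun w := y ^ (δ w.toAdd)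
  map_one' := by simp
  map_mul' v w := by simp [zpow_add]

theorem chr_lam (δ : W →+ ℤ) (y : Sˣ) (w : W) : chr (lam δ y) w = ((y ^ δ w : Sˣ) : S) := rfl

theorem lam_mul_inv (δ : W →+ ℤ) (y : Sˣ) : lam δ y * lam δ y⁻¹ = 1 := by
  ext w
  simp [lam]

theorem lam_inv_mul (δ : W →+ ℤ) (y : Sˣ) : lam δ y⁻¹ * lam δ y = 1 := by
  ext w
  simp [lam]

theorem Chr.map_id' {k : Type} [Field k] [Algebra k S] (c : Chr W S) :
    c.map ((AlgHom.id k S : S →ₐ[k] S) : S →+* S) = c := by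
  apply Chr.ext'
  intro w
  simp

end lam

variable {R : Type*} [CommRing R] {L : Rˣ} {β : Type} {wβ : β → QZ} {W : Type} [AddCommGroup W]
  {wW : β → W}

/-- the slice `v = 1` -/
def sliceOne (Z : Over k W β wW) {wv : W} (v : NF Z.F wv) (ψ' : W →+ QZ)
    (h' : ∀ b, ψ' (wW b) = wβ b) (hv' : ψ' wv = 0) : Over k QZ β wβ :=
  (Z.mapWt ψ' h').sub (fun S _ _ x => v.fn x = 1) (fun φ c x hx => by
    show v.fn (Z.F.tw φ (c.pull ψ') x) = 1
    rw [v.fn_tw, hx, map_one, mul_one, chr_pull, hv', chr_zero])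

theorem sliceOne_iso (Z : Over k W β wW) (δ : W →+ ℤ) {wv : W} (v : NF Z.F wv)
    (hv : ∀ (S : Type) [CommRing S] [Algebra k S] (x : Z.F.obj S), IsUnit (v.fn x))
    (hδv : δ wv = 1) (hδ : ∀ b, δ (wW b) = 0) (ψ ψ' : W →+ QZ) (a : QZ)
    (hψ : ∀ w, ψ w = ψ' w + δ w • a) (h : ∀ b, ψ (wW b) = wβ b) (h' : ∀ b, ψ' (wW b) = wβ b)
    (hv' : ψ' wv = 0) :
    OIso (Z.mapWt ψ h) ((sliceOne Z v ψ' h' hv').times (GF.gm k a)) := by
  have hva : ψ wv = a := by rw [hψ, hv', hδv, zero_add, one_smul]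
  have hval : ∀ {S : Type} [CommRing S] [Algebra k S] (x : Z.F.obj S) (y : Sˣ),
      v.fn (Z.F.tw (AlgHom.id k S) (lam δ y) x) = (y : S) * v.fn x := by
    intro S _ _ x y
    rw [v.fn_tw, chr_lam, hδv, zpow_one]
    rfl
  have htt : ∀ {S : Type} [CommRing S] [Algebra k S] (x : Z.F.obj S) (c d : Chr W S),
      d * c = 1 → Z.F.tw (AlgHom.id k S) d (Z.F.tw (AlgHom.id k S) c x) = x := by
    intro S _ _ x c d hcd
    rw [Z.F.tw_tw, Chr.map_id', hcd]
    exact Z.F.tw_id x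
  refine OIso.mk' (fun S _ _ z => (⟨Z.F.tw (AlgHom.id k S) (lam δ (hv S z).unit⁻¹) z, ?_⟩,
      ⟨v.fn z, hv S z⟩))
    (fun S _ _ q => Z.F.tw (AlgHom.id k S) (lam δ q.2.2.unit) q.1.1) ?_ ?_ ?_ ?_
  · show v.fn (Z.F.tw (AlgHom.id k S) (lam δ (hv S z).unit⁻¹) z) = 1
    rw [hval]
    exact IsUnit.val_inv_mul (hv S z)
  · intro S _ _ z
    exact htt z _ _ (lam_mul_inv δ _)
  · intro S _ _ q
    have h1 : v.fn (Z.F.tw (AlgHom.id k S) (lam δ q.2.2.unit) q.1.1) = q.2.1 := by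
      rw [hval]
      have : v.fn q.1.1 = 1 := q.1.2
      rw [this, mul_one]
      rfl
    refine Prod.ext (Subtype.ext ?_) (Subtype.ext h1)
    show Z.F.tw (AlgHom.id k S) (lam δ (hv S (Z.F.tw (AlgHom.id k S)
      (lam δ q.2.2.unit) q.1.1)).unit⁻¹) (Z.F.tw (AlgHom.id k S) (lam δ q.2.2.unit) q.1.1) = q.1.1
    have h2 : (hv S (Z.F.tw (AlgHom.id k S) (lam δ q.2.2.unit) q.1.1)).unit = q.2.2.unit :=
      Units.ext h1
    rw [h2]
    exact htt _ _ _ (lam_inv_mul δ _)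
  · intro S S' _ _ _ _ φ c z
    refine Prod.ext (Subtype.ext ?_) (Subtype.ext ?_)
    · show Z.F.tw (AlgHom.id k S') (lam δ (hv S' (Z.F.tw φ (c.pull ψ) z)).unit⁻¹)
        (Z.F.tw φ (c.pull ψ) z)
        = Z.F.tw φ (c.pull ψ') (Z.F.tw (AlgHom.id k S) (lam δ (hv S z).unit⁻¹) z)
      rw [Z.F.tw_tw, Z.F.tw_tw]
      have h3 : (hv S' (Z.F.tw φ (c.pull ψ) z)).unit
          = (c (Multiplicative.ofAdd a)) * Units.map (φ : S →* S') (hv S z).unit := by
        apply Units.ext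
        show v.fn (Z.F.tw φ (c.pull ψ) z) = chr c a * φ (v.fn z)
        rw [v.fn_tw, chr_pull, hva]
      have h4 : lam δ (hv S' (Z.F.tw φ (c.pull ψ) z)).unit⁻¹ *
          (c.pull ψ).map ((AlgHom.id k S' : S' →ₐ[k] S') : S' →+* S')
          = c.pull ψ' * (lam δ (hv S z).unit⁻¹).map (φ : S →+* S') := by
        rw [Chr.map_id', h3]
        apply MonoidHom.ext
        intro w
        show ((c (Multiplicative.ofAdd a)) * Units.map (φ : S →* S') (hv S z).unit)⁻¹ ^ (δ w.toAdd)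
            * c (Multiplicative.ofAdd (ψ w.toAdd))
          = c (Multiplicative.ofAdd (ψ' w.toAdd))
            * Units.map ((φ : S →+* S') : S →* S') ((hv S z).unit⁻¹ ^ (δ w.toAdd))
        have h5 : c (Multiplicative.ofAdd (ψ w.toAdd))
            = c (Multiplicative.ofAdd (ψ' w.toAdd)) * (c (Multiplicative.ofAdd a)) ^ (δ w.toAdd) := by
          rw [hψ, ofAdd_add, map_mul, ofAdd_zsmul, map_zpow]
        have h6 : Units.map ((φ : S →+* S') : S →* S') ((hv S z).unit⁻¹ ^ (δ w.toAdd))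
            = (Units.map (φ : S →* S') (hv S z).unit)⁻¹ ^ (δ w.toAdd) := by
          rw [map_zpow, map_inv]
          rfl
        rw [h5, h6, mul_inv, mul_zpow]
        calc _ = c (Multiplicative.ofAdd (ψ' w.toAdd))
              * (Units.map (φ : S →* S') (hv S z).unit)⁻¹ ^ (δ w.toAdd)
              * ((c (Multiplicative.ofAdd a))⁻¹ ^ (δ w.toAdd)
                * (c (Multiplicative.ofAdd a)) ^ (δ w.toAdd)) := by
              simp only [mul_comm, mul_left_comm, mul_assoc]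
          _ = _ := by rw [← mul_zpow, inv_mul_cancel, one_zpow, mul_one]
      rw [h4]
      rfl
    · show v.fn (Z.F.tw φ (c.pull ψ) z) = chr c a * φ (v.fn z)
      rw [v.fn_tw, chr_pull, hva]
  · intro S _ _ z b
    show (Z.pt b).fn (Z.F.tw (AlgHom.id k S) (lam δ (hv S z).unit⁻¹) z) = (Z.pt b).fn z
    rw [(Z.pt b).fn_tw, chr_lam, hδ, zpow_zero, Units.val_one, one_mul]
    rfl

theorem FT.sliceOne {Z : Over k W β wW} (hZ : FT Z.F) {wv : W} (v : NF Z.F wv) (ψ' : W →+ QZ)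
    (h' : ∀ b, ψ' (wW b) = wβ b) (hv' : ψ' wv = 0) : FT (sliceOne Z v ψ' h' hv').F :=
  FT.closed (hZ.mapWt ψ') (fun φ c x hx => by
    show v.fn (Z.F.tw φ (c.pull ψ') x) = 1
    rw [v.fn_tw, hx, map_one, mul_one, chr_pull, hv', chr_zero])
    (A := Unit) (w := fun _ => 0)
    (fun _ => ((v.mapWt ψ').cast hv').sub (NF.one _)) (fun S _ _ x =>
      ⟨fun hx _ => sub_eq_zero.2 hx, fun hx => sub_eq_zero.1 (hx ())⟩)

/-- the class does not change when the weights are changed along a grading for which there is an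
invertible function of degree one -/
theorem SInv.shift (χ : SInv k wβ L) (Z : Over k W β wW) (hZ : FT Z.F) (δ : W →+ ℤ) {wv : W}
    (v : NF Z.F wv)
    (hv : ∀ (S : Type) [CommRing S] [Algebra k S] (x : Z.F.obj S), IsUnit (v.fn x))
    (hδv : δ wv = 1) (hδ : ∀ b, δ (wW b) = 0) (ψ₁ ψ₂ : W →+ QZ) (q : QZ)
    (hψ : ∀ w, ψ₂ w = ψ₁ w + δ w • q) (h₁ : ∀ b, ψ₁ (wW b) = wβ b) (h₂ : ∀ b, ψ₂ (wW b) = wβ b) :
    χ.χ (Z.mapWt ψ₁ h₁) = χ.χ (Z.mapWt ψ₂ h₂) := by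
  let ψ' : W →+ QZ := ψ₁ - ((zmultiplesHom QZ (ψ₁ wv)).comp δ)
  have e1 : ∀ w, ψ₁ w = ψ' w + δ w • (ψ₁ wv) := by
    intro w
    show ψ₁ w = ψ₁ w - δ w • (ψ₁ wv) + δ w • (ψ₁ wv)
    rw [sub_add_cancel]
  have e2 : ∀ w, ψ₂ w = ψ' w + δ w • (ψ₁ wv + q) := by
    intro w
    rw [hψ, e1 w, smul_add, add_assoc]
  have hv' : ψ' wv = 0 := by
    show ψ₁ wv - δ wv • (ψ₁ wv) = 0
    rw [hδv, one_smul, sub_self]
  have h' : ∀ b, ψ' (wW b) = wβ b := by
    intro b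
    rw [← h₁ b, e1 (wW b), hδ, zero_smul, add_zero]
  rw [χ.iso (hZ.mapWt ψ₁) (sliceOne_iso Z δ v hv hδv hδ ψ₁ ψ' _ e1 h₁ h' hv'),
    χ.iso (hZ.mapWt ψ₂) (sliceOne_iso Z δ v hv hδv hδ ψ₂ ψ' _ e2 h₂ h' hv'),
    χ.times_gm (hZ.sliceOne v ψ' h' hv'), χ.times_gm (hZ.sliceOne v ψ' h' hv')]

end Pool.Agent.Helper6_Mono
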