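import Pool.Agent.Helper6_Mono.Norm

/-!
# Functors over affine space with trivial action, cells, splitting, change of weights
-/

set_option autoImplicit false
set_option linter.unusedVariables false

namespace Pool.Agent.Helper6_Mono

open PowerSeries

variable {k : Type} [Field k] {σ : Type}

variable (k σ) in
/-- functors over the affine space with coordinates `σ` and trivial action -/
abbrev OverS (W : Type) [AddCommGroup W] : Type 1 := Over k W σ (fun _ => (0 : W))

section general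

variable {W : Type} [AddCommGroup W]

/-- add a function -/
@[reducible] def withU {w : W} (Y : OverS k σ W) (u : NF Y.F w) : Over k W (Option σ) (wopt σ w) where
  F := Y.F
  pt b := match b with
    | none => u
    | some i => Y.pt i

/-- product, the coordinates being added -/
@[reducible] def prS (Y Z : OverS k σ W) : OverS k σ W where
  F := Y.F.prod Z.F
  pt i := ((Y.pt i).fst Z.F).add ((Z.pt i).snd Y.F)

theorem prA_withU {v v' w : W} (Y Z : OverS k σ W) (a : NF Y.F v) (b : NF Z.F v')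
    (u : NF (Y.F.prod Z.F) w) : prA (withU Y a) (withU Z b) u = withU (prS Y Z) u := by
  rfl

theorem setU_withU {v w : W} (Y : OverS k σ W) (a : NF Y.F v) (u : NF Y.F w) :
    setU (withU Y a) u = withU Y u := by
  rfl

/-- change of the group -/
@[reducible] def Over.mapS {W' : Type} [AddCommGroup W'] (Y : OverS k σ W) (ψ : W →+ W') :
    OverS k σ W' := Y.mapWt ψ (fun _ => map_zero ψ)

end general

variable {R : Type*} [CommRing R] {L : Rˣ} {ω : QZ}

theorem SInv.congr {β : Type} {wβ : β → QZ} (χ : SInv k wβ L) {X Y : Over k QZ β wβ}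
    (hX : FT X.F) (h : OIso X Y) : χ.χ X = χ.χ Y := χ.iso hX h

theorem coeff_X_mul_pos {S : Type*} [CommRing S] (U : S⟦X⟧) {j : ℕ} (hj : 1 ≤ j) :
    coeff j (PowerSeries.X * U) = coeff (j - 1) U := by
  obtain ⟨i, rfl⟩ : ∃ i, j = i + 1 := ⟨j - 1, by omega⟩
  rw [coeff_succ_X_mul, Nat.add_sub_cancel]

/-- splitting off the next coefficient -/
theorem cell_split (χ : SInv k (wser σ ω) L) {l m : ℕ} (hm : m < l) (Y : OverS k σ QZ)
    (hY : FT Y.F) :
    (χ.cell l m).χ (withU Y (NF.zero Y.F (m • ω)))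
      = Li L * (χ.cell l (m + 1)).χ (withU (Y.times (GF.gm k ((m + 1) • ω)))
          ⟨fun x => x.2.1, fun φ c x => rfl⟩)
        + Li L * (χ.cell l (m + 1)).χ (withU Y (NF.zero Y.F ((m + 1) • ω))) := by
  obtain ⟨n, rfl⟩ : ∃ n, l = m + 1 + n := Nat.exists_eq_add_of_le hm
  show Li L ^ (m + 1 + n - m) * χ.χ ((GenK k σ ω m (m + 1 + n - m)).app _)
    = Li L * (Li L ^ (m + 1 + n - (m + 1)) * χ.χ ((GenK k σ ω (m + 1) (m + 1 + n - (m + 1))).app _))
      + Li L * (Li L ^ (m + 1 + n - (m + 1))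
        * χ.χ ((GenK k σ ω (m + 1) (m + 1 + n - (m + 1))).app _))
  rw [show m + 1 + n - m = n + 1 by omega, show m + 1 + n - (m + 1) = n by omega]
  have hft : FT ((GenK k σ ω m (n + 1)).app (withU Y (NF.zero Y.F (m • ω)))).F :=
    (GenK k σ ω m (n + 1)).app_FT (X := withU Y (NF.zero Y.F (m • ω))) hY
  let h : NF ((GenK k σ ω m (n + 1)).app (withU Y (NF.zero Y.F (m • ω)))).F ((m + 1) • ω) :=
    ⟨fun x => coeff 1 x.1.2.1, fun φ c x => by
      show coeff 1 (C (chr c (m • ω)) * twS ω φ c x.1.2.1) = _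
      rw [coeff_C_mul, coeff_twS, ← mul_assoc, ← chr_add, ← add_smul]⟩
  have hc0 : ∀ {S : Type} [CommRing S] [Algebra k S]
      (p : ((GenK k σ ω m (n + 1)).app (withU Y (NF.zero Y.F (m • ω)))).F.obj S),
      coeff 0 p.1.2.1 = 0 := fun p => sub_eq_zero.1 (p.2 ())
  rw [χ.scissor hft h]
  have sh : ∀ {S : Type} [CommRing S] (U : S⟦X⟧), coeff 0 U = 0 →
      PowerSeries.X * (PowerSeries.mk fun j => coeff (j + 1) U) = U := by
    intro S _ U hU
    ext j
    cases j with
    | zero => rw [coeff_zero_X_mul, hU]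
    | succ j => rw [coeff_succ_X_mul, coeff_mk]
  have h1 : OIso (((GenK k σ ω m (n + 1)).app (withU Y (NF.zero Y.F (m • ω)))).zero h)
      ((GenK k σ ω (m + 1) n).app (withU Y (NF.zero Y.F ((m + 1) • ω)))) := by
    refine OIso.mk' (fun S _ _ p => ⟨(p.1.1.1, ⟨PowerSeries.mk fun j => coeff (j + 1) p.1.1.2.1,
        fun j hj => ?_⟩), fun a => ?_⟩)
      (fun S _ _ q => ⟨⟨(q.1.1, ⟨PowerSeries.X * q.1.2.1, fun j hj => ?_⟩), fun a => ?_⟩, ?_⟩)
      ?_ ?_ ?_ ?_
    · rw [coeff_mk, p.1.1.2.2 (j + 1) (by omega)]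
    · show coeff 0 (PowerSeries.mk fun j => coeff (j + 1) p.1.1.2.1) - 0 = 0
      rw [coeff_mk, sub_zero]
      exact p.2
    · rw [coeff_X_mul_pos _ (by omega)]
      exact q.1.2.2 (j - 1) (by omega)
    · show coeff 0 (PowerSeries.X * q.1.2.1) - 0 = 0
      rw [coeff_zero_X_mul, sub_zero]
    · show coeff 1 (PowerSeries.X * q.1.2.1) = 0
      have := sub_eq_zero.1 (q.2 ())
      rw [coeff_X_mul_pos _ le_rfl]
      exact this
    · intro S _ _ p
      exact Subtype.ext (Subtype.ext (Prod.ext rfl (Subtype.ext (sh _ (hc0 p.1)))))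
    · intro S _ _ q
      refine Subtype.ext (Prod.ext rfl (Subtype.ext ?_))
      show (PowerSeries.mk fun j => coeff (j + 1) (PowerSeries.X * q.1.2.1)) = q.1.2.1
      ext j
      rw [coeff_mk, coeff_succ_X_mul]
    · intro S S' _ _ _ _ φ c p
      refine Subtype.ext (Prod.ext rfl (Subtype.ext ?_))
      show (PowerSeries.mk fun j => coeff (j + 1) (C (chr c (m • ω)) * twS ω φ c p.1.1.2.1))
        = C (chr c ((m + 1) • ω)) * twS ω φ c (PowerSeries.mk fun j => coeff (j + 1) p.1.1.2.1)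
      ext j
      rw [coeff_mk, coeff_C_mul, coeff_C_mul, coeff_twS, coeff_twS, coeff_mk, ← mul_assoc,
        ← mul_assoc, ← chr_add, ← chr_add, ← add_smul, ← add_smul]
      congr 3
      omega
    · intro S _ _ p b
      cases b with
      | inl i => rfl
      | inr j =>
        show coeff j (PowerSeries.X ^ (m + 1) * PowerSeries.mk fun j => coeff (j + 1) p.1.1.2.1)
          = coeff j (PowerSeries.X ^ m * p.1.1.2.1)
        rw [pow_succ, mul_assoc, sh _ (hc0 p.1)]
  have h2 : OIso (((GenK k σ ω m (n + 1)).app (withU Y (NF.zero Y.F (m • ω)))).unit h)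
      ((GenK k σ ω (m + 1) n).app (withU (Y.times (GF.gm k ((m + 1) • ω)))
          (w := (m + 1) • ω) ⟨fun x => x.2.1, fun φ c x => rfl⟩)) := by
    refine OIso.mk' (fun S _ _ p => ⟨((p.1.1.1, ⟨coeff 1 p.1.1.2.1, p.2⟩),
        ⟨PowerSeries.mk fun j => coeff (j + 1) p.1.1.2.1,
        fun j hj => ?_⟩), fun a => ?_⟩)
      (fun S _ _ q => ⟨⟨(q.1.1.1, ⟨PowerSeries.X * q.1.2.1, fun j hj => ?_⟩), fun a => ?_⟩, ?_⟩)
      ?_ ?_ ?_ ?_
    · rw [coeff_mk, p.1.1.2.2 (j + 1) (by omega)]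
    · show coeff 0 (PowerSeries.mk fun j => coeff (j + 1) p.1.1.2.1) - coeff 1 p.1.1.2.1 = 0
      rw [coeff_mk, sub_self]
    · rw [coeff_X_mul_pos _ (by omega)]
      exact q.1.2.2 (j - 1) (by omega)
    · show coeff 0 (PowerSeries.X * q.1.2.1) - 0 = 0
      rw [coeff_zero_X_mul, sub_zero]
    · show IsUnit (coeff 1 (PowerSeries.X * q.1.2.1))
      have h5 : coeff 0 q.1.2.1 = q.1.1.2.1 := sub_eq_zero.1 (q.2 ())
      rw [coeff_X_mul_pos _ le_rfl]
      show IsUnit (coeff 0 q.1.2.1)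
      rw [h5]
      exact q.1.1.2.2
    · intro S _ _ p
      exact Subtype.ext (Subtype.ext (Prod.ext rfl (Subtype.ext (sh _ (hc0 p.1)))))
    · intro S _ _ q
      have h5 : coeff 0 q.1.2.1 = q.1.1.2.1 := sub_eq_zero.1 (q.2 ())
      refine Subtype.ext (Prod.ext (Prod.ext rfl (Subtype.ext ?_)) (Subtype.ext ?_))
      · show coeff 1 (PowerSeries.X * q.1.2.1) = q.1.1.2.1
        rw [coeff_X_mul_pos _ le_rfl]
        exact h5
      · show (PowerSeries.mk fun j => coeff (j + 1) (PowerSeries.X * q.1.2.1)) = q.1.2.1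
        ext j
        rw [coeff_mk, coeff_succ_X_mul]
    · intro S S' _ _ _ _ φ c p
      refine Subtype.ext (Prod.ext (Prod.ext rfl (Subtype.ext ?_)) (Subtype.ext ?_))
      · show coeff 1 (C (chr c (m • ω)) * twS ω φ c p.1.1.2.1)
          = chr c ((m + 1) • ω) * φ (coeff 1 p.1.1.2.1)
        rw [coeff_C_mul, coeff_twS, ← mul_assoc, ← chr_add, ← add_smul]
      · show (PowerSeries.mk fun j => coeff (j + 1) (C (chr c (m • ω)) * twS ω φ c p.1.1.2.1))
          = C (chr c ((m + 1) • ω)) * twS ω φ c (PowerSeries.mk fun j => coeff (j + 1) p.1.1.2.1)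
        ext j
        rw [coeff_mk, coeff_C_mul, coeff_C_mul, coeff_twS, coeff_twS, coeff_mk, ← mul_assoc,
          ← mul_assoc, ← chr_add, ← chr_add, ← add_smul, ← add_smul]
        congr 3
        omega
    · intro S _ _ p b
      cases b with
      | inl i => rfl
      | inr j =>
        show coeff j (PowerSeries.X ^ (m + 1) * PowerSeries.mk fun j => coeff (j + 1) p.1.1.2.1)
          = coeff j (PowerSeries.X ^ m * p.1.1.2.1)
        rw [pow_succ, mul_assoc, sh _ (hc0 p.1)]
  rw [χ.iso (FT.zero hft h) h1, χ.iso (FT.unit' hft h) h2, pow_succ]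
  ring

end Pool.Agent.Helper6_Mono
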