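import Pool.Agent.Helper6_Mono.DecBase

/-!
# Tools for the recursion
-/

set_option autoImplicit false
set_option linter.unusedVariables false
set_option linter.unusedSectionVars false

namespace Pool.Agent.Helper6_Mono

open PowerSeries Finset

variable {k : Type} [Field k] {σ : Type} {R : Type*} [CommRing R] {L : Rˣ}

/-- multiplication with a fixed functor carrying a function -/
@[reducible] def PK {w : QZ} (Y : OverS k σ QZ) (hY : FT Y.F) (a : NF Y.F w) :
    Kern k QZ σ (fun _ => 0) (Option σ) (wopt σ w) where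
  K := Y.F
  hK := hY
  A := Empty
  wA a := a.elim
  r a {S} _ _ b z := a.elim
  r_tw a {S S'} _ _ _ _ φ c x z := a.elim
  Φ b' {S} _ _ b z := match b' with
    | none => a.fn z
    | some i => (Y.pt i).fn z + b i
  Φ_tw b' {S S'} _ _ _ _ φ c x z := by
    cases b' with
    | none => exact a.fn_tw φ c z
    | some i =>
      show (Y.pt i).fn (Y.F.tw φ c z) + chr c 0 * φ (x i) = chr c 0 * φ ((Y.pt i).fn z + x i)
      rw [(Y.pt i).fn_tw, map_add, mul_add]

theorem PK_app {w : QZ} (Y : OverS k σ QZ) (hY : FT Y.F) (a : NF Y.F w) (Z : OverS k σ QZ) :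
    OIso ((PK Y hY a).app Z) (withU (prS Y Z) (a.fst Z.F)) := by
  refine OIso.mk' (fun S _ _ p => (p.1.2, p.1.1)) (fun S _ _ p => ⟨(p.2, p.1), fun a => a.elim⟩)
    (fun S _ _ p => rfl) (fun S _ _ p => rfl) (fun φ c p => rfl) (fun S _ _ p b => ?_)
  cases b <;> rfl

/-- the invariant `Z ↦ θ (Y × Z, a)` -/
@[reducible] def SInv.left {w : QZ} (θ : SInv k (wopt σ w) L) (Y : OverS k σ QZ) (hY : FT Y.F)
    (a : NF Y.F w) : SInv k (fun _ : σ => (0 : QZ)) L := θ.comp (PK Y hY a)

theorem SInv.left_val {w : QZ} (θ : SInv k (wopt σ w) L) (Y : OverS k σ QZ) (hY : FT Y.F)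
    (a : NF Y.F w) {Z : OverS k σ QZ} (hZ : FT Z.F) :
    (θ.left Y hY a).χ Z = θ.χ (withU (prS Y Z) (a.fst Z.F)) :=
  θ.iso ((PK Y hY a).app_FT hZ) (PK_app Y hY a Z)

variable (k σ) in
/-- the function zero -/
@[reducible] def ZK (w : QZ) : Kern k QZ σ (fun _ => 0) (Option σ) (wopt σ w) where
  K := GF.one k QZ
  hK := FT.one
  A := Empty
  wA a := a.elim
  r a {S} _ _ b z := a.elim
  r_tw a {S S'} _ _ _ _ φ c x z := a.elim
  Φ b' {S} _ _ b z := match b' with
    | none => 0
    | some i => b i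
  Φ_tw b' {S S'} _ _ _ _ φ c x z := by
    cases b' with
    | none => rw [map_zero, mul_zero]
    | some i => rfl

/-- the invariant `Z ↦ θ (Z, 0)` -/
@[reducible] def SInv.nil {w : QZ} (θ : SInv k (wopt σ w) L) :
    SInv k (fun _ : σ => (0 : QZ)) L := θ.comp (ZK k σ w)

theorem SInv.nil_val {w : QZ} (θ : SInv k (wopt σ w) L) {Z : OverS k σ QZ} (hZ : FT Z.F) :
    θ.nil.χ Z = θ.χ (withU Z (NF.zero _ w)) := by
  refine θ.iso ((ZK k σ w).app_FT hZ) (OIso.mk' (fun S _ _ p => p.1.1)
    (fun S _ _ p => ⟨(p, ()), fun a => a.elim⟩)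
    (fun S _ _ p => rfl) (fun S _ _ p => rfl) (fun φ c p => rfl) (fun S _ _ p b => ?_))
  cases b <;> rfl

/-- values only depend on the functions -/
theorem val_congr {w q q' : QZ} (θ : SInv k (wopt σ w) L) (Y : OverS k σ ℤ) (hq : q = q')
    (u : NF (twq Y q).F w) (u' : NF (twq Y q').F w)
    (hu : ∀ (S : Type) [CommRing S] [Algebra k S] (x : Y.F.obj S), u.fn x = u'.fn x) :
    θ.χ (withU (twq Y q) u) = θ.χ (withU (twq Y q') u') := by
  subst hq
  rw [NF.ext' (g := u) (h := u') hu]

theorem nil_shift [Finite σ] {w : QZ} (θ : SInv k (wopt σ w) L) (c : RCell k σ) (q : QZ) :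
    θ.χ (withU (twq c.Y q) (NF.zero _ w)) = θ.χ (withU (triv c.Y) (NF.zero _ w)) := by
  rw [← θ.nil_val (FT.mapWt _ c.ft), ← θ.nil_val (FT.mapWt _ c.ft), RCell.shift]

section tail

variable [Finite σ] {g : MvPolynomial σ k} {s : Set σ} {S : Set ℚ} (D : Dec (k := k) L g s S)
  (ψ : SInv k (fun _ : σ => (0 : QZ)) L)

/-- the tail identity over several steps -/
theorem Dec.tail {q l : ℕ} (h : q ≤ l) :
    D.ts ψ q = D.ts ψ l + ∑ m ∈ Ioc q l, D.as ψ m + ∑ m ∈ Ico q l, D.cs ψ m := by
  induction l, h using Nat.le_induction with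
  | base => simp
  | succ l hl ih =>
    rw [ih, D.ti ψ l, Finset.sum_Ioc_succ_top (by omega), Finset.sum_Ico_succ_top hl]
    ring

end tail

/-! ### Jets of sums, products, powers -/

/-- `g` only depends on the variables in `s` -/
def DepOn (g : MvPolynomial σ k) (s : Set σ) : Prop :=
  ∀ (A : Type) [CommRing A] [Algebra k A] (γ γ' : σ → A), (∀ i ∈ s, γ i = γ' i) →
    MvPolynomial.aeval γ g = MvPolynomial.aeval γ' g

theorem ser_jet {S : Type} [CommRing S] [Algebra k S] (g : MvPolynomial σ k) (s : Set σ) (l : ℕ)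
    (ω : QZ) (γ : (Jet g s l ω).F.obj S) :
    ser ((Jet g s l ω).base γ) = lowS l (MvPolynomial.aeval γ.1 g) := by
  ext j
  rw [coeff_ser, coeff_lowS]

theorem jet_pow_iso (g : MvPolynomial σ k) (s : Set σ) (l N : ℕ) (ω : QZ) :
    OIso (Jet (g ^ N) s l ω) ((PowK k σ ω l N).app (Jet g s l ω)) := by
  refine OIso.mk' (fun S _ _ p => ⟨(p, ()), fun a => a.elim⟩) (fun S _ _ q => q.1.1)
    (fun S _ _ p => rfl) (fun S _ _ q => rfl) (fun φ c p => rfl) (fun S _ _ p b => ?_)
  cases b with
  | inl i => rfl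
  | inr j =>
    show (if j ≤ l then coeff j (ser ((Jet g s l ω).base p) ^ N) else 0)
      = if j ≤ l then coeff j (MvPolynomial.aeval p.1 (g ^ N)) else 0
    rw [ser_jet, map_pow (MvPolynomial.aeval p.1)]
    split_ifs with h
    · exact pow_congr (U := lowS l (MvPolynomial.aeval p.1 g)) (V := MvPolynomial.aeval p.1 g)
        (e := l) (fun i hi => by rw [coeff_lowS, if_pos hi]) N j h
    · rfl

open scoped Classical in
/-- a jet in two disjoint sets of variables is a pair of jets -/
noncomputable def jetUnion {s t : Set σ} (hst : Disjoint s t) (l : ℕ) (ω : QZ) :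
    GEquiv (jetGF k (s ∪ t) l ω) ((jetGF k s l ω).prod (jetGF k t l ω)) where
  eq S _ _ :=
    { toFun := fun γ => (⟨fun i => if i ∈ s then γ.1 i else 0, fun i j h => by
          show coeff j (if i ∈ s then γ.1 i else 0) = 0
          split_ifs with hi
          · rcases h with h | h
            · exact absurd hi h
            · exact γ.2 i j (Or.inr h)
          · rw [map_zero]⟩, ⟨fun i => if i ∈ t then γ.1 i else 0, fun i j h => by
          show coeff j (if i ∈ t then γ.1 i else 0) = 0
          split_ifs with hi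
          · rcases h with h | h
            · exact absurd hi h
            · exact γ.2 i j (Or.inr h)
          · rw [map_zero]⟩)
      invFun := fun p => ⟨fun i => p.1.1 i + p.2.1 i, fun i j h => by
          rw [map_add]
          rcases h with h | h
          · rw [p.1.2 i j (Or.inl fun hi => h (Or.inl hi)),
              p.2.2 i j (Or.inl fun hi => h (Or.inr hi)), add_zero]
          · rw [p.1.2 i j (Or.inr h), p.2.2 i j (Or.inr h), add_zero]⟩
      left_inv := fun γ => by
        refine Subtype.ext (funext fun i => ?_)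
        show (if i ∈ s then γ.1 i else 0) + (if i ∈ t then γ.1 i else 0) = γ.1 i
        by_cases hs : i ∈ s
        · rw [if_pos hs, if_neg (Set.disjoint_left.1 hst hs), add_zero]
        · by_cases ht : i ∈ t
          · rw [if_neg hs, if_pos ht, zero_add]
          · rw [if_neg hs, if_neg ht, add_zero]
            ext j
            rw [γ.2 i j (Or.inl fun h => h.elim hs ht), map_zero]
      right_inv := fun p => by
        have h1 : ∀ i, i ∉ s → p.1.1 i = 0 := fun i hi => by
          ext j
          rw [p.1.2 i j (Or.inl hi), map_zero]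
        have h2 : ∀ i, i ∉ t → p.2.1 i = 0 := fun i hi => by
          ext j
          rw [p.2.2 i j (Or.inl hi), map_zero]
        refine Prod.ext (Subtype.ext (funext fun i => ?_)) (Subtype.ext (funext fun i => ?_))
        · show (if i ∈ s then p.1.1 i + p.2.1 i else 0) = p.1.1 i
          split_ifs with h
          · rw [h2 i (Set.disjoint_left.1 hst h), add_zero]
          · rw [h1 i h]
        · show (if i ∈ t then p.1.1 i + p.2.1 i else 0) = p.2.1 i
          split_ifs with h
          · rw [h1 i (Set.disjoint_right.1 hst h), zero_add]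
          · rw [h2 i h] }
  eq_tw {S S'} _ _ _ _ φ c γ := by
    refine Prod.ext (Subtype.ext (funext fun i => ?_)) (Subtype.ext (funext fun i => ?_))
    · show (if i ∈ s then twS ω φ c (γ.1 i) else 0) = twS ω φ c (if i ∈ s then γ.1 i else 0)
      split_ifs
      · rfl
      · rw [map_zero]
    · show (if i ∈ t then twS ω φ c (γ.1 i) else 0) = twS ω φ c (if i ∈ t then γ.1 i else 0)
      split_ifs
      · rfl
      · rw [map_zero]

section union

variable {g h : MvPolynomial σ k} {s t : Set σ} (hst : Disjoint s t) (hg : DepOn g s)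
  (hh : DepOn h t)

include hst hg hh

theorem jetUnion_aeval {S : Type} [CommRing S] [Algebra k S] (l : ℕ) (ω : QZ)
    (γ : (jetGF k (s ∪ t) l ω).obj S) :
    MvPolynomial.aeval ((jetUnion (k := k) hst l ω).eq S γ).1.1 g = MvPolynomial.aeval γ.1 g ∧
      MvPolynomial.aeval ((jetUnion (k := k) hst l ω).eq S γ).2.1 h
        = MvPolynomial.aeval γ.1 h := by
  classical
  refine ⟨hg _ _ _ fun i hi => ?_, hh _ _ _ fun i hi => ?_⟩
  · show (if i ∈ s then γ.1 i else 0) = _
    rw [if_pos hi]
  · show (if i ∈ t then γ.1 i else 0) = _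
    rw [if_pos hi]

omit hg hh in
theorem jetUnion_pt {S : Type} [CommRing S] [Algebra k S] (l : ℕ) (ω : QZ)
    (γ : (jetGF k (s ∪ t) l ω).obj S) (i : σ) :
    ((jetUnion (k := k) hst l ω).eq S γ).1.1 i + ((jetUnion (k := k) hst l ω).eq S γ).2.1 i
      = γ.1 i := by
  have := congrArg (fun x => x.1 i) (((jetUnion (k := k) hst l ω).eq S).symm_apply_apply γ)
  exact this

theorem jet_add_iso (l : ℕ) (ω : QZ) (hG : FT (Jet h t l ω).F) :
    OIso (Jet (g + h) (s ∪ t) l ω) ((AddK ω (Jet h t l ω) hG).app (Jet g s l ω)) := by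
  let e := jetUnion (k := k) hst l ω
  refine OIso.mk' (fun S _ _ p => ⟨e.eq S p, fun a => a.elim⟩) (fun S _ _ q => (e.eq S).symm q.1)
    (fun S _ _ p => (e.eq S).symm_apply_apply p)
    (fun S _ _ q => Subtype.ext ((e.eq S).apply_symm_apply q.1))
    (fun φ c p => Subtype.ext (e.eq_tw φ c p)) (fun S _ _ p b => ?_)
  cases b with
  | inl i =>
    show coeff 0 ((e.eq S p).1.1 i) + coeff 0 ((e.eq S p).2.1 i) = coeff 0 (p.1 i)
    rw [← map_add, jetUnion_pt hst]
  | inr j =>
    show (if j ≤ l then coeff j (MvPolynomial.aeval (e.eq S p).1.1 g) else 0)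
      + (if j ≤ l then coeff j (MvPolynomial.aeval (e.eq S p).2.1 h) else 0)
      = if j ≤ l then coeff j (MvPolynomial.aeval p.1 (g + h)) else 0
    rw [(jetUnion_aeval hst hg hh l ω p).1, (jetUnion_aeval hst hg hh l ω p).2]
    split_ifs
    · rw [map_add, map_add]
    · rw [add_zero]

theorem jet_mul_iso (l : ℕ) (ω : QZ) (hG : FT (Jet h t l ω).F) :
    OIso (Jet (g * h) (s ∪ t) l ω) ((MulK ω l (Jet h t l ω) hG).app (Jet g s l ω)) := by
  let e := jetUnion (k := k) hst l ω
  refine OIso.mk' (fun S _ _ p => ⟨e.eq S p, fun a => a.elim⟩) (fun S _ _ q => (e.eq S).symm q.1)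
    (fun S _ _ p => (e.eq S).symm_apply_apply p)
    (fun S _ _ q => Subtype.ext ((e.eq S).apply_symm_apply q.1))
    (fun φ c p => Subtype.ext (e.eq_tw φ c p)) (fun S _ _ p b => ?_)
  cases b with
  | inl i =>
    show coeff 0 ((e.eq S p).1.1 i) + coeff 0 ((e.eq S p).2.1 i) = coeff 0 (p.1 i)
    rw [← map_add, jetUnion_pt hst]
  | inr j =>
    show (if j ≤ l then coeff j (ser ((Jet g s l ω).base (e.eq S p).1)
        * ser ((Jet h t l ω).base (e.eq S p).2)) else 0)
      = if j ≤ l then coeff j (MvPolynomial.aeval p.1 (g * h)) else 0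
    rw [ser_jet, ser_jet, (jetUnion_aeval hst hg hh l ω p).1,
      (jetUnion_aeval hst hg hh l ω p).2]
    split_ifs with hj
    · rw [map_mul (MvPolynomial.aeval p.1)]
      have h1 : ∀ (U V : S⟦X⟧), coeff j (lowS l U * lowS l V) = coeff j (U * V) := by
        intro U V
        have e1 := congrArg (coeff j) (lowS_mul_lowS l (lowS l U) V)
        have e2 := congrArg (coeff j) (lowS_mul_lowS l V U)
        rw [coeff_lowS, coeff_lowS, if_pos hj, if_pos hj] at e1 e2
        rw [e1, mul_comm, e2, mul_comm]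
      exact h1 _ _
    · rfl

end union

end Pool.Agent.Helper6_Mono
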