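import Pool.Agent.Helper6_Mono.Hen

/-!
# Strata of the jet spaces of a weighted homogeneous polynomial with an isolated singularity
-/

set_option autoImplicit false
set_option linter.unusedVariables false
set_option linter.unusedSectionVars false

namespace Pool.Agent.Helper6_Mono

open PowerSeries Finset

/-- a weighted homogeneous polynomial `g` of degree `d` with an isolated singularity, in the
variables of the set `s`; the weights divide `D` -/
structure WHD (k : Type) [Field k] (σ : Type) where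
  s : Finset σ
  w : σ → ℕ
  d : ℕ
  g : MvPolynomial σ k
  D : ℕ
  hd : 0 < d
  hD : 0 < D
  hw : ∀ i ∈ s, 0 < w i
  hwd : ∀ i ∈ s, w i ≤ d
  hwD : ∀ i ∈ s, w i ∣ D
  hg : MvPolynomial.IsWeightedHomogeneous w g d
  hs : ∀ i, i ∉ s → MvPolynomial.pderiv i g = 0
  hJ : ∀ i ∈ s, MvPolynomial.X i ∈ (Ideal.span (Set.range fun j => MvPolynomial.pderiv j g)).radical

/-- a system of weights on the torus with coordinates in `U`, for which all polynomials of
`w`-degree `δ` have weight `μ δ` -/
structure WSys {σ : Type} (w : σ → ℕ) (U : Finset σ) (W : Type) [AddCommGroup W] where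
  ν : σ → W
  μ : ℕ → W
  h : ∀ α : σ →₀ ℕ, (∀ i ∈ α.support, i ∈ U) → Finsupp.weight ν α = μ (Finsupp.weight w α)
  p : Prop
  hp : p → ∀ i, ν i = 0

section YG

variable {k : Type} [Field k] {σ : Type} [Fintype σ] {W : Type} [AddCommGroup W]

open scoped Classical in
/-- affine space with given weights; the points are either the coordinates or zero -/
@[reducible] noncomputable def PiO (k : Type) [Field k] {w : σ → ℕ} {U : Finset σ}
    (V : WSys w U W) : OverS k σ W where
  F := GF.pi k V.ν
  pt i := ⟨fun {S} _ _ x => if V.p then x i else 0, fun {S S'} _ _ _ _ φ c x => by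
    show (if V.p then chr c (V.ν i) * φ (x i) else 0) = chr c 0 * φ (if V.p then x i else 0)
    split_ifs with h
    · rw [V.hp h]
    · rw [map_zero, mul_zero]⟩

/-- the coordinates -/
@[reducible] noncomputable def PiO.co {w : σ → ℕ} {U : Finset σ} (V : WSys w U W) (i : σ) :
    NF (PiO k V).F (V.ν i) := ⟨fun x => x i, fun φ c x => rfl⟩

/-- the torus with coordinates in `U` -/
@[reducible] noncomputable def TG (k : Type) [Field k] {w : σ → ℕ} {U : Finset σ}
    (V : WSys w U W) : OverS k σ W :=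
  (PiO k V).tor (PiO.co V) Finset.univ U

/-- weighted homogeneous polynomials as functions on the torus -/
@[reducible] noncomputable def TG.ev {w : σ → ℕ} {U : Finset σ} (V : WSys w U W)
    {P : MvPolynomial σ k} {δ : ℕ} (hP : MvPolynomial.IsWeightedHomogeneous w P δ) :
    NF (TG k V).F (V.μ δ) :=
  ⟨fun x => MvPolynomial.aeval x.1 P, fun φ c x =>
    aeval_tw_supp (wt := V.ν) (U := (U : Set σ)) (fun α hα hU => by
      rw [V.h α hU, hP (MvPolynomial.mem_support_iff.1 hα)]) φ c x.1
      (fun i hi => (x.2 i (Finset.mem_univ i)).2 hi)⟩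

variable (B : WHD k σ) {n : ℕ} (en : Fin n → σ)

theorem WHD.hpd (i : σ) :
    MvPolynomial.IsWeightedHomogeneous B.w (MvPolynomial.pderiv i B.g) (B.d - B.w i) := by
  by_cases hi : i ∈ B.s
  · exact B.hg.pderiv (Nat.sub_add_cancel (B.hwd i hi))
  · rw [B.hs i hi]
    exact MvPolynomial.isWeightedHomogeneous_zero _ _ _

/-- the locus in the torus where the `j`-th partial derivative is the first nonzero one -/
@[reducible] noncomputable def YG {U : Finset σ} (V : WSys B.w U W) (j : Fin n) : OverS k σ W :=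
  (TG k V).stp (fun i => TG.ev V (B.hpd (en i))) j

theorem YG_FT {U : Finset σ} (V : WSys B.w U W) (j : Fin n) : FT (YG B en V j).F := by
  classical
  exact FT.stp (FT.tor (X := PiO k V) (FT.pi _) _ _ _) _ _

/-- the value of the polynomial -/
@[reducible] noncomputable def YG.u {U : Finset σ} (V : WSys B.w U W) (j : Fin n) :
    NF (YG B en V j).F (V.μ B.d) :=
  ⟨fun x => MvPolynomial.aeval x.1.1 B.g, fun φ c x => (TG.ev V B.hg).fn_tw φ c x.1⟩

theorem tw_eq {w : σ → ℕ} {U : Finset σ} {S S' : Type} [CommRing S] [Algebra k S] [CommRing S']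
    [Algebra k S'] {W' : Type} [AddCommGroup W'] (ψ : W →+ W') {ν : σ → W} {ν' : σ → W'}
    (h : ∀ i ∈ U, ψ (ν i) = ν' i) (φ : S →ₐ[k] S') (c : Chr W' S') (x : σ → S)
    (hx : ∀ i, i ∉ U → x i = 0) :
    (fun i => chr (c.pull ψ) (ν i) * φ (x i)) = fun i => chr c (ν' i) * φ (x i) := by
  funext i
  by_cases hi : i ∈ U
  · rw [chr_pull, h i hi]
  · rw [hx i hi, map_zero, mul_zero, mul_zero]

/-- comparison of systems of weights -/
theorem YG_iso {U : Finset σ} {W' : Type} [AddCommGroup W'] (V₁ : WSys B.w U W)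
    (V₂ : WSys B.w U W') (ψ : W →+ W') (h : ∀ i ∈ U, ψ (V₁.ν i) = V₂.ν i) (hp : V₁.p ↔ V₂.p)
    (j : Fin n) : OIso ((YG B en V₁ j).mapS ψ) (YG B en V₂ j) := by
  classical
  refine OIso.mk' (fun S _ _ p => ⟨⟨p.1.1, p.1.2⟩, p.2⟩) (fun S _ _ p => ⟨⟨p.1.1, p.1.2⟩, p.2⟩)
    (fun S _ _ p => rfl) (fun S _ _ p => rfl) (fun {S S'} _ _ _ _ φ c p => ?_)
    (fun S _ _ p b => ?_)
  · refine Subtype.ext (Subtype.ext ?_)
    exact tw_eq (w := B.w) ψ h φ c p.1.1 (fun i hi => (p.1.2 i (Finset.mem_univ i)).2 hi)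
  · show (if V₂.p then p.1.1 b else 0) = if V₁.p then p.1.1 b else 0
    by_cases hq : V₂.p
    · rw [if_pos hq, if_pos (hp.2 hq)]
    · rw [if_neg hq, if_neg fun h => hq (hp.1 h)]

end YG

/-! ### The jets of level `a` -/

section XA

variable {k : Type} [Field k] {σ : Type} [Fintype σ] {W : Type} [AddCommGroup W]

/-- families of series with support in `D` over the base (points, series) -/
@[reducible] noncomputable def supO (g : MvPolynomial σ k) (D : Set (σ × ℕ)) (l : ℕ) (ω : W) :
    Over k W (σ ⊕ ℕ) (wser σ ω) where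
  F := GF.sup k D ω
  pt b := match b with
    | Sum.inl i => ⟨fun γ => coeff 0 (γ.1 i), fun φ c γ => by
        show coeff 0 (twS ω φ c (γ.1 i)) = _
        rw [coeff_twS, zero_smul]
        rfl⟩
    | Sum.inr j => ⟨fun γ => if j ≤ l then coeff j (MvPolynomial.aeval γ.1 g) else 0,
        fun φ c γ => by
          show (if j ≤ l then coeff j (MvPolynomial.aeval (fun i => twS ω φ c (γ.1 i)) g) else 0)
            = chr c (j • ω) * φ (if j ≤ l then coeff j (MvPolynomial.aeval γ.1 g) else 0)
          have : MvPolynomial.aeval (fun i => twS ω φ c (γ.1 i)) g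
              = twS ω φ c (MvPolynomial.aeval γ.1 g) := by
            rw [← MvPolynomial.comp_aeval_apply]
          rw [this, coeff_twS]
          split_ifs
          · rfl
          · rw [map_zero, mul_zero]⟩

variable (B : WHD k σ) {n : ℕ} (en : Fin n → σ) (a l : ℕ) (ω : W)

/-- the indices of level `a` -/
def WHD.DA : Set (σ × ℕ) := {p | p.1 ∈ B.s ∧ a * B.w p.1 ≤ p.2 * B.D ∧ p.2 ≤ l}

theorem WHD.DA_finite : (B.DA a l).Finite := by
  refine Set.Finite.subset ((B.s.finite_toSet).prod (Set.finite_Iic l)) ?_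
  rintro ⟨i, c⟩ h
  exact ⟨h.1, h.2.2⟩

/-- the jets of level `a` -/
@[reducible] noncomputable def WHD.XA : Over k W (σ ⊕ ℕ) (wser σ ω) := supO B.g (B.DA a l) l ω

/-- the variables with a leading coefficient in level `a` -/
def WHD.sA : Finset σ := by
  classical
  exact B.s.filter fun i => B.D ∣ a * B.w i

theorem WHD.mem_sA (i : σ) : i ∈ B.sA a ↔ i ∈ B.s ∧ B.D ∣ a * B.w i := by
  classical
  unfold WHD.sA
  rw [Finset.mem_filter]

/-- the leading coefficients -/
@[reducible] noncomputable def WHD.lead (i : σ) : NF (B.XA a l ω).F ((a * B.w i / B.D) • ω) :=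
  ⟨fun γ => coeff (a * B.w i / B.D) (γ.1 i), fun φ c γ => by
    show coeff (a * B.w i / B.D) (twS ω φ c (γ.1 i)) = _
    rw [coeff_twS]⟩

/-- the stratum where exactly the leading coefficients with index in `U` are not zero -/
@[reducible] noncomputable def WHD.XU (U : Finset σ) : Over k W (σ ⊕ ℕ) (wser σ ω) :=
  (B.XA a l ω).tor (B.lead a l ω) (B.sA a) U

/-- the weights of level `a` -/
@[reducible] def WHD.sys {U : Finset σ} (hU : U ⊆ B.sA a) : WSys B.w U W where
  ν i := (a * B.w i / B.D) • ω
  μ δ := (a * δ / B.D) • ω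
  h α hα := by
    rw [Finsupp.weight_apply, Finsupp.weight_apply, Finsupp.sum, Finsupp.sum, Finset.mul_sum]
    simp only [smul_smul, ← Finset.sum_smul]
    congr 1
    have h1 : ∀ i ∈ α.support, B.D ∣ a * (α i • B.w i) := fun i hi => by
      have := ((B.mem_sA a i).1 (hU (hα i hi))).2
      rw [smul_eq_mul, mul_left_comm]
      exact this.mul_left _
    rw [Nat.sum_div h1]
    refine Finset.sum_congr rfl fun i hi => ?_
    rw [smul_eq_mul, mul_left_comm, Nat.mul_div_assoc _ ((B.mem_sA a i).1 (hU (hα i hi))).2]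
  p := a = 0
  hp ha i := by rw [ha, zero_mul, Nat.zero_div, zero_smul]

end XA

end Pool.Agent.Helper6_Mono
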