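import Pool.Agent.Helper6_Mono.WHIso
import Pool.Agent.Helper6_Mono.Tools

/-!
# The cells of a weighted homogeneous polynomial with an isolated singularity
-/

set_option autoImplicit false
set_option linter.unusedVariables false
set_option linter.unusedSectionVars false

namespace Pool.Agent.Helper6_Mono

open PowerSeries Finset

/-! ### The greatest common divisor of the weights -/

theorem exists_eps {σ : Type} (w : σ → ℕ) (U : Finset σ) :
    ∃ ε : ℕ, (∀ i ∈ U, ε ∣ w i) ∧ ∃ c : σ → ℤ, ∑ i ∈ U, c i * (w i : ℤ) = ε := by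
  classical
  induction U using Finset.induction_on with
  | empty => exact ⟨0, by simp, 0, by simp⟩
  | insert a U ha ih =>
    obtain ⟨ε, h1, c, h2⟩ := ih
    refine ⟨Nat.gcd (w a) ε, fun i hi => ?_, fun i => if i = a then Nat.gcdA (w a) ε else
      Nat.gcdB (w a) ε * c i, ?_⟩
    · rcases Finset.mem_insert.1 hi with rfl | hi
      · exact Nat.gcd_dvd_left _ _
      · exact (Nat.gcd_dvd_right _ _).trans (h1 i hi)
    · rw [Finset.sum_insert ha]
      beta_reduce
      rw [if_pos rfl, Nat.gcd_eq_gcd_ab, ← h2, Finset.sum_mul]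
      congr 1
      · ring
      · refine Finset.sum_congr rfl fun i hi => ?_
        have : i ≠ a := by rintro rfl; exact ha hi
        rw [if_neg this]
        ring

section sys

variable {k : Type} [Field k] {σ : Type} [Fintype σ] (B : WHD k σ)

/-- the greatest common divisor of the weights of the variables in `U` -/
noncomputable def WHD.eps (U : Finset σ) : ℕ := (exists_eps B.w U).choose

/-- the coefficients of the greatest common divisor -/
noncomputable def WHD.bez (U : Finset σ) : σ → ℤ := (exists_eps B.w U).choose_spec.2.choose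

theorem WHD.eps_dvd {U : Finset σ} {i : σ} (hi : i ∈ U) : B.eps U ∣ B.w i :=
  (exists_eps B.w U).choose_spec.1 i hi

theorem WHD.bez_sum (U : Finset σ) : ∑ i ∈ U, B.bez U i * (B.w i : ℤ) = B.eps U :=
  (exists_eps B.w U).choose_spec.2.choose_spec

variable {U : Finset σ} (hU : U.Nonempty) (hUs : U ⊆ B.s)

include hU hUs

theorem WHD.eps_pos : 0 < B.eps U := by
  obtain ⟨i, hi⟩ := hU
  exact Nat.pos_of_dvd_of_pos (B.eps_dvd hi) (B.hw i (hUs hi))

theorem WHD.eps_le : B.eps U ≤ B.d := by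
  obtain ⟨i, hi⟩ := hU
  exact (Nat.le_of_dvd (B.hw i (hUs hi)) (B.eps_dvd hi)).trans (B.hwd i (hUs hi))

omit hU hUs in
/-- the weights of the regular cells -/
@[reducible] noncomputable def WHD.cSys (U : Finset σ) : WSys B.w U ℤ where
  ν i := ((B.w i / B.eps U : ℕ) : ℤ)
  μ δ := ((δ / B.eps U : ℕ) : ℤ)
  h α hα := by
    rw [Finsupp.weight_apply, Finsupp.weight_apply, Finsupp.sum, Finsupp.sum, Nat.sum_div
      (fun i hi => by rw [smul_eq_mul]; exact (B.eps_dvd (hα i hi)).mul_left _), Nat.cast_sum]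
    refine Finset.sum_congr rfl fun i hi => ?_
    rw [smul_eq_mul, Nat.mul_div_assoc _ (B.eps_dvd (hα i hi)), Nat.cast_mul, nsmul_eq_mul]
  p := False
  hp h := h.elim

omit hU hUs in
/-- the trivial weights -/
@[reducible] def WHD.zSys (U : Finset σ) : WSys B.w U ℤ where
  ν _ := 0
  μ _ := 0
  h α hα := by rw [Finsupp.weight_apply, Finsupp.sum]; simp
  p := True
  hp _ _ := rfl

omit hU hUs in
theorem ev_zero {P : MvPolynomial σ k} (hP : ∀ α ∈ P.support, ¬ ∀ i ∈ α.support, i ∈ U)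
    {S : Type} [CommRing S] [Algebra k S] (x : σ → S) (hx : ∀ i, i ∉ U → x i = 0) :
    MvPolynomial.aeval x P = 0 := by
  classical
  rw [MvPolynomial.aeval_def, MvPolynomial.eval₂_eq]
  refine Finset.sum_eq_zero fun α hα => ?_
  have := hP α hα
  push Not at this
  obtain ⟨i, hi, hiU⟩ := this
  rw [Finset.prod_eq_zero hi (by rw [hx i hiU, zero_pow (Finsupp.mem_support_iff.1 hi)]),
    mul_zero]

omit hU hUs in
theorem WHD.ev_zero_eps {P : MvPolynomial σ k} {δ : ℕ}
    (hP : MvPolynomial.IsWeightedHomogeneous B.w P δ) (h : ¬ B.eps U ∣ δ)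
    {S : Type} [CommRing S] [Algebra k S] (x : σ → S) (hx : ∀ i, i ∉ U → x i = 0) :
    MvPolynomial.aeval x P = 0 := by
  refine ev_zero (U := U) (fun α hα hs => h ?_) x hx
  have hw := hP (MvPolynomial.mem_support_iff.1 hα)
  rw [Finsupp.weight_apply, Finsupp.sum] at hw
  rw [← hw]
  exact Finset.dvd_sum fun i hi => by rw [smul_eq_mul]; exact (B.eps_dvd (hs i hi)).mul_left _

omit hU hUs in
theorem WHD.ev_zero_D {a : ℕ} (hUa : U ⊆ B.sA a) {P : MvPolynomial σ k} {δ : ℕ}
    (hP : MvPolynomial.IsWeightedHomogeneous B.w P δ) (h : ¬ B.D ∣ a * δ)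
    {S : Type} [CommRing S] [Algebra k S] (x : σ → S) (hx : ∀ i, i ∉ U → x i = 0) :
    MvPolynomial.aeval x P = 0 := by
  refine ev_zero (U := U) (fun α hα hs => h ?_) x hx
  have hw := hP (MvPolynomial.mem_support_iff.1 hα)
  rw [Finsupp.weight_apply, Finsupp.sum] at hw
  rw [← hw, Finset.mul_sum]
  refine Finset.dvd_sum fun i hi => ?_
  rw [smul_eq_mul, mul_left_comm]
  exact ((B.mem_sA a i).1 (hUa (hs i hi))).2.mul_left _

omit hU hUs in
theorem WHD.D_dvd {a : ℕ} (hUa : U ⊆ B.sA a) : B.D ∣ a * B.eps U := by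
  have h1 : (B.D : ℤ) ∣ (a : ℤ) * (B.eps U : ℤ) := by
    rw [← B.bez_sum U, Finset.mul_sum]
    refine Finset.dvd_sum fun i hi => ?_
    rw [mul_left_comm]
    refine Dvd.dvd.mul_left ?_ _
    exact_mod_cast ((B.mem_sA a i).1 (hUa hi)).2
  exact_mod_cast h1

end sys

/-! ### The invertible function of degree one -/

section vv

variable {k : Type} [Field k] {σ : Type} [Fintype σ] (B : WHD k σ) {n : ℕ} (en : Fin n → σ)
  {U : Finset σ}

open scoped Classical in
/-- the unit given by an element -/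
noncomputable def unf {S : Type} [CommRing S] (y : S) : Sˣ := if h : IsUnit y then h.unit else 1

theorem unf_val {S : Type} [CommRing S] {y : S} (h : IsUnit y) : (unf y : S) = y := by
  unfold unf
  rw [dif_pos h]
  rfl

/-- the invertible function of degree one -/
@[reducible] noncomputable def WHD.vF (hU : U.Nonempty) (hUs : U ⊆ B.s) (j : Fin n) :
    NF (YG B en (B.cSys U) j).F (1 : ℤ) :=
  ⟨fun {S} _ _ x => ((∏ i ∈ U, unf (x.1.1 i) ^ B.bez U i : Sˣ) : S),
    fun {S S'} _ _ _ _ φ c x => by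
    show ((∏ i ∈ U, unf (chr c ((B.w i / B.eps U : ℕ) : ℤ) * φ (x.1.1 i)) ^ B.bez U i : S'ˣ) : S')
      = chr c 1 * φ ((∏ i ∈ U, unf (x.1.1 i) ^ B.bez U i : Sˣ) : S)
    have h1 : ∀ i ∈ U, unf (chr c ((B.w i / B.eps U : ℕ) : ℤ) * φ (x.1.1 i))
        = c (Multiplicative.ofAdd ((B.w i / B.eps U : ℕ) : ℤ))
          * Units.map (φ : S →* S') (unf (x.1.1 i)) := by
      intro i hi
      have hu : IsUnit (x.1.1 i) := (x.1.2 i (Finset.mem_univ i)).1 hi
      apply Units.ext
      rw [unf_val ((chr_isUnit c _).mul (hu.map φ)), Units.val_mul, Units.coe_map, unf_val hu]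
      rfl
    have h2 : ∏ i ∈ U, unf (chr c ((B.w i / B.eps U : ℕ) : ℤ) * φ (x.1.1 i)) ^ B.bez U i
        = c (Multiplicative.ofAdd (1 : ℤ))
          * Units.map (φ : S →* S') (∏ i ∈ U, unf (x.1.1 i) ^ B.bez U i) := by
      rw [Finset.prod_congr rfl fun i hi => by rw [h1 i hi, mul_zpow],
        Finset.prod_mul_distrib, map_prod]
      simp only [map_zpow]
      congr 1
      simp only [← map_zpow, ← ofAdd_zsmul]
      rw [← map_prod, ← ofAdd_sum]
      congr 2
      have h3 := B.bez_sum U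
      have h4 : (B.eps U : ℤ) ≠ 0 := by exact_mod_cast (B.eps_pos hU hUs).ne'
      refine mul_right_cancel₀ h4 ?_
      rw [one_mul, Finset.sum_mul]
      refine Eq.trans ?_ h3
      refine Finset.sum_congr rfl fun i hi => ?_
      rw [smul_eq_mul, mul_assoc]
      congr 1
      exact_mod_cast Nat.div_mul_cancel (B.eps_dvd hi)
    rw [h2, Units.val_mul]
    rfl⟩

/-- the regular cells -/
@[reducible] noncomputable def WHD.rc (hU : U.Nonempty) (hUs : U ⊆ B.s) (j : Fin n) :
    RCell k σ where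
  Y := (YG B en (B.cSys U) j).unit (YG.u B en (B.cSys U) j)
  ft := FT.unit' (YG_FT B en _ j) _
  e := B.d / B.eps U
  he := Nat.div_pos (B.eps_le hU hUs) (B.eps_pos hU hUs)
  u := ⟨fun x => MvPolynomial.aeval x.1.1.1 B.g, fun φ c x =>
    (YG.u B en (B.cSys U) j).fn_tw φ c x.1⟩
  hu S _ _ x := x.2
  v := ⟨fun x => (B.vF en hU hUs j).fn x.1, fun φ c x => (B.vF en hU hUs j).fn_tw φ c x.1⟩
  hv S _ _ x := Units.isUnit _

/-- the free cells -/
@[reducible] noncomputable def WHD.fc (U : Finset σ) (j : Fin n) : FCell k σ where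
  Y := (YG B en (B.cSys U) j).zero (YG.u B en (B.cSys U) j)
  ft := FT.zero (YG_FT B en _ j) _

/-- the cells of order zero -/
@[reducible] noncomputable def WHD.zc (U : Finset σ) (j : Fin n) : ZCell k σ where
  Y := (YG B en (B.zSys U) j).unit (YG.u B en (B.zSys U) j)
  ft := FT.unit' (YG_FT B en _ j) _
  u := ⟨fun x => MvPolynomial.aeval x.1.1.1 B.g, fun φ c x =>
    (YG.u B en (B.zSys U) j).fn_tw φ c x.1⟩
  hu S _ _ x := x.2

/-- the free cells of order zero -/
@[reducible] noncomputable def WHD.fz (U : Finset σ) (j : Fin n) : FCell k σ where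
  Y := (YG B en (B.zSys U) j).zero (YG.u B en (B.zSys U) j)
  ft := FT.zero (YG_FT B en _ j) _

end vv

/-! ### Comparison of the cells -/

section compare

variable {k : Type} [Field k] {σ : Type} [Fintype σ] (B : WHD k σ) {n : ℕ} (en : Fin n → σ)
  {U : Finset σ} {W W' : Type} [AddCommGroup W] [AddCommGroup W']

theorem YG_unit_iso (V₁ : WSys B.w U W) (V₂ : WSys B.w U W') (ψ : W →+ W')
    (h : ∀ i ∈ U, ψ (V₁.ν i) = V₂.ν i) (hp : V₁.p ↔ V₂.p) (j : Fin n) {w' : W'}
    (u₂ : NF (YG B en V₂ j).F w')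
    (hu₂ : ∀ (S : Type) [CommRing S] [Algebra k S] (x : (YG B en V₂ j).F.obj S),
      u₂.fn x = MvPolynomial.aeval x.1.1 B.g)
    (u₁ : NF (((YG B en V₁ j).unit (YG.u B en V₁ j)).mapS ψ).F w')
    (hu₁ : ∀ (S : Type) [CommRing S] [Algebra k S]
      (x : (((YG B en V₁ j).unit (YG.u B en V₁ j)).mapS ψ).F.obj S),
      u₁.fn x = MvPolynomial.aeval x.1.1.1 B.g) :
    OIso ((withU (YG B en V₂ j) u₂).unit (w := w') u₂)
      (withU (((YG B en V₁ j).unit (YG.u B en V₁ j)).mapS ψ) u₁) := by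
  classical
  refine OIso.mk' (fun S _ _ p => ⟨⟨⟨p.1.1.1, p.1.1.2⟩, p.1.2⟩, by
      have h' : IsUnit (u₂.fn p.1) := p.2
      rw [hu₂] at h'; exact h'⟩)
    (fun S _ _ p => ⟨⟨⟨p.1.1.1, p.1.1.2⟩, p.1.2⟩, by
      show IsUnit (u₂.fn _)
      rw [hu₂]; exact p.2⟩)
    (fun S _ _ p => rfl) (fun S _ _ p => rfl) (fun {S S'} _ _ _ _ φ c p => ?_)
    (fun S _ _ p b => ?_)
  · refine Subtype.ext (Subtype.ext (Subtype.ext ?_))
    exact (tw_eq (w := B.w) ψ h φ c p.1.1.1
      (fun i hi => (p.1.1.2 i (Finset.mem_univ i)).2 hi)).symm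
  · cases b with
    | none =>
      exact (hu₁ S _).trans (hu₂ S _).symm
    | some i =>
      show (if V₁.p then p.1.1.1 i else 0) = if V₂.p then p.1.1.1 i else 0
      by_cases hq : V₂.p
      · rw [if_pos hq, if_pos (hp.2 hq)]
      · rw [if_neg hq, if_neg fun h => hq (hp.1 h)]

theorem YG_zero_iso (V₁ : WSys B.w U W) (V₂ : WSys B.w U W') (ψ : W →+ W')
    (h : ∀ i ∈ U, ψ (V₁.ν i) = V₂.ν i) (hp : V₁.p ↔ V₂.p) (j : Fin n) {w' : W'}
    (u₂ : NF (YG B en V₂ j).F w')
    (hu₂ : ∀ (S : Type) [CommRing S] [Algebra k S] (x : (YG B en V₂ j).F.obj S),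
      u₂.fn x = MvPolynomial.aeval x.1.1 B.g) :
    OIso ((withU (YG B en V₂ j) u₂).zero (w := w') u₂)
      (withU (((YG B en V₁ j).zero (YG.u B en V₁ j)).mapS ψ) (NF.zero _ w')) := by
  classical
  refine OIso.mk' (fun S _ _ p => ⟨⟨⟨p.1.1.1, p.1.1.2⟩, p.1.2⟩, by
      have h' : u₂.fn p.1 = 0 := p.2
      rw [hu₂] at h'; exact h'⟩)
    (fun S _ _ p => ⟨⟨⟨p.1.1.1, p.1.1.2⟩, p.1.2⟩, by
      show u₂.fn _ = 0
      rw [hu₂]; exact p.2⟩)
    (fun S _ _ p => rfl) (fun S _ _ p => rfl) (fun {S S'} _ _ _ _ φ c p => ?_)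
    (fun S _ _ p b => ?_)
  · refine Subtype.ext (Subtype.ext (Subtype.ext ?_))
    exact (tw_eq (w := B.w) ψ h φ c p.1.1.1
      (fun i hi => (p.1.1.2 i (Finset.mem_univ i)).2 hi)).symm
  · cases b with
    | none =>
      show (0 : S) = u₂.fn _
      exact p.2.symm
    | some i =>
      show (if V₁.p then p.1.1.1 i else 0) = if V₂.p then p.1.1.1 i else 0
      by_cases hq : V₂.p
      · rw [if_pos hq, if_pos (hp.2 hq)]
      · rw [if_neg hq, if_neg fun h => hq (hp.1 h)]

variable {R : Type*} [CommRing R] {L : Rˣ}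

/-- free cells do not depend on the weights -/
theorem WHD.fc_shift (hU : U.Nonempty) (hUs : U ⊆ B.s) (j : Fin n) {w : QZ}
    (θ : SInv k (wopt σ w) L) (q : QZ) :
    θ.χ (withU (twq (B.fc en U j).Y q) (NF.zero _ w))
      = θ.χ (withU (triv (B.fc en U j).Y) (NF.zero _ w)) := by
  rw [← θ.nil_val (FT.mapWt _ (B.fc en U j).ft), ← θ.nil_val (FT.mapWt _ (B.fc en U j).ft)]
  symm
  let v : NF (B.fc en U j).Y.F (1 : ℤ) :=
    ⟨fun x => (B.vF en hU hUs j).fn x.1, fun φ c x => (B.vF en hU hUs j).fn_tw φ c x.1⟩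
  exact θ.nil.shift (B.fc en U j).Y (B.fc en U j).ft (AddMonoidHom.id ℤ) v
    (fun S _ _ x => Units.isUnit _) rfl (fun _ => rfl) 0 (zmultiplesHom QZ q) q
    (fun w => by simp) (fun _ => map_zero _) (fun _ => map_zero _)

theorem q_weight (ω q : ℚ) {x y : ℕ} (h : (x : ℚ) * q = y * ω) :
    zmultiplesHom QZ ((q : ℚ) : QZ) (x : ℤ) = y • ((ω : ℚ) : QZ) := by
  rw [zmultiplesHom_apply, ← AddCircle.coe_zsmul, ← AddCircle.coe_nsmul]
  have h' : (x : ℤ) • q = y • ω := by
    simp only [zsmul_eq_mul, nsmul_eq_mul, Int.cast_natCast]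
    exact h
  rw [h']

/-- the class of a stratum of positive level -/
theorem WHD.level_pos {a l : ℕ} (ha : a ≠ 0) (hUa : U ⊆ B.sA a) (hU : U.Nonempty) (hUs : U ⊆ B.s)
    (j : Fin n) (ω : ℚ) (χ : SInv k (wser σ (ω : QZ)) L) :
    (χ.cell l (a * B.d / B.D)).χ (withU (YG B en (B.sys a (ω : QZ) hUa) j)
        (YG.u B en (B.sys a (ω : QZ) hUa) j))
      = (if B.D ∣ a * B.d then (B.rc en hU hUs j).val χ l (a * B.d / B.D) else 0)
        + (B.fc en U j).val χ l (a * B.d / B.D) := by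
  classical
  have hft : FT (withU (YG B en (B.sys a (ω : QZ) hUa) j)
    (YG.u B en (B.sys a (ω : QZ) hUa) j)).F := YG_FT B en (B.sys a (ω : QZ) hUa) j
  have hp : (B.cSys U).p ↔ (B.sys a (ω : QZ) hUa).p := by
    show False ↔ a = 0
    exact ⟨fun h => h.elim, fun h => ha h⟩
  rw [(χ.cell l (a * B.d / B.D)).scissor hft (YG.u B en (B.sys a (ω : QZ) hUa) j), add_comm]
  congr 1
  · -- the regular cells
    by_cases hε : B.eps U ∣ B.d
    · by_cases hD : B.D ∣ a * B.d
      · rw [if_pos hD]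
        refine (χ.cell l (a * B.d / B.D)).iso (FT.unit' hft _) (YG_unit_iso B en (B.cSys U)
          (B.sys a (ω : QZ) hUa) (zmultiplesHom QZ ((B.rc en hU hUs j).q ω (a * B.d / B.D)))
          (fun i hi => ?_) hp j _ (fun S _ _ x => rfl)
          ((B.rc en hU hUs j).un ω (a * B.d / B.D)) (fun S _ _ x => rfl))
        refine q_weight ω _ ?_
        show ((B.w i / B.eps U : ℕ) : ℚ) * (((a * B.d / B.D : ℕ) : ℚ) * ω
          / ((B.d / B.eps U : ℕ) : ℚ)) = ((a * B.w i / B.D : ℕ) : ℚ) * ω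
        obtain ⟨e, he⟩ := hε
        obtain ⟨m, hm⟩ := hD
        obtain ⟨p, hp⟩ := B.eps_dvd hi
        obtain ⟨r, hr⟩ := ((B.mem_sA a i).1 (hUa hi)).2
        have hε0 := B.eps_pos hU hUs
        have e1 : B.d / B.eps U = e := by rw [he, Nat.mul_div_cancel_left _ hε0]
        have e2 : a * B.d / B.D = m := by rw [hm, Nat.mul_div_cancel_left _ B.hD]
        have e3 : B.w i / B.eps U = p := by rw [hp, Nat.mul_div_cancel_left _ hε0]
        have e4 : a * B.w i / B.D = r := by rw [hr, Nat.mul_div_cancel_left _ B.hD]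
        rw [e1, e2, e3, e4]
        have he0 : (e : ℚ) ≠ 0 := by
          have : e ≠ 0 := by
            rintro rfl
            have := B.hd
            omega
          exact_mod_cast this
        have key : p * m = r * e := by
          have : B.D * (p * m) = B.D * (r * e) := by
            calc B.D * (p * m) = p * (B.D * m) := by ring
              _ = p * (a * B.d) := by rw [hm]
              _ = (a * (B.eps U * p)) * e := by rw [he]; ring
              _ = (a * B.w i) * e := by rw [← hp]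
              _ = B.D * (r * e) := by rw [hr]; ring
          exact Nat.eq_of_mul_eq_mul_left B.hD this
        have key' : (p : ℚ) * m = r * e := by exact_mod_cast key
        field_simp
        linear_combination ω * key'
      · rw [if_neg hD]
        refine (χ.cell l (a * B.d / B.D)).empty (FT.unit' hft _) fun S _ _ x => ?_
        have h1 : IsUnit (MvPolynomial.aeval x.1.1.1 B.g) := x.2
        rw [B.ev_zero_D hUa B.hg hD x.1.1.1
          (fun i hi => (x.1.1.2 i (Finset.mem_univ i)).2 hi), isUnit_zero_iff] at h1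
        exact h1.symm
    · have h2 : (B.rc en hU hUs j).val χ l (a * B.d / B.D) = 0 := by
        refine (χ.cell l (a * B.d / B.D)).empty (FT.mapWt _ (B.rc en hU hUs j).ft)
          fun S _ _ x => ?_
        have h1 : IsUnit (MvPolynomial.aeval x.1.1.1 B.g) := x.2
        rw [B.ev_zero_eps (U := U) B.hg hε x.1.1.1
          (fun i hi => (x.1.1.2 i (Finset.mem_univ i)).2 hi), isUnit_zero_iff] at h1
        exact h1.symm
      rw [h2, ite_self]
      refine (χ.cell l (a * B.d / B.D)).empty (FT.unit' hft _) fun S _ _ x => ?_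
      have h1 : IsUnit (MvPolynomial.aeval x.1.1.1 B.g) := x.2
      rw [B.ev_zero_eps (U := U) B.hg hε x.1.1.1
        (fun i hi => (x.1.1.2 i (Finset.mem_univ i)).2 hi), isUnit_zero_iff] at h1
      exact h1.symm
  · -- the free cells
    show _ = (χ.cell l (a * B.d / B.D)).χ (withU (triv (B.fc en U j).Y) (NF.zero _ _))
    rw [← B.fc_shift en hU hUs j (χ.cell l (a * B.d / B.D))
      ((((a * B.eps U / B.D : ℕ) : ℚ) * ω : ℚ) : QZ)]
    refine (χ.cell l (a * B.d / B.D)).iso (FT.zero hft _) (YG_zero_iso B en (B.cSys U)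
      (B.sys a (ω : QZ) hUa) (zmultiplesHom QZ ((((a * B.eps U / B.D : ℕ) : ℚ) * ω : ℚ) : QZ))
      (fun i hi => ?_) hp j _ (fun S _ _ x => rfl))
    refine q_weight ω _ ?_
    rw [← mul_assoc]
    congr 1
    have h1 : B.w i / B.eps U * (a * B.eps U / B.D) = a * B.w i / B.D := by
      obtain ⟨m, hm⟩ := B.D_dvd hUa
      obtain ⟨p, hp⟩ := B.eps_dvd hi
      have hε0 := B.eps_pos hU hUs
      have e2 : a * B.eps U / B.D = m := by rw [hm, Nat.mul_div_cancel_left _ B.hD]
      have e3 : B.w i / B.eps U = p := by rw [hp, Nat.mul_div_cancel_left _ hε0]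
      rw [e2, e3]
      have e4 : a * B.w i = p * m * B.D := by
        calc a * B.w i = (a * B.eps U) * p := by rw [hp]; ring
          _ = p * m * B.D := by rw [hm]; ring
      rw [e4, Nat.mul_div_cancel _ B.hD]
    exact_mod_cast h1

/-- the class of a stratum of level zero -/
theorem WHD.level_zero {l : ℕ} (hUa : U ⊆ B.sA 0)
    (j : Fin n) (ω : ℚ) (χ : SInv k (wser σ (ω : QZ)) L) :
    (χ.cell l (0 * B.d / B.D)).χ (withU (YG B en (B.sys 0 (ω : QZ) hUa) j)
        (YG.u B en (B.sys 0 (ω : QZ) hUa) j))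
      = (B.zc en U j).val χ l + (B.fz en U j).val χ l 0 := by
  classical
  have h0 : 0 * B.d / B.D = 0 := by rw [zero_mul, Nat.zero_div]
  have hft : FT (withU (YG B en (B.sys 0 (ω : QZ) hUa) j)
    (YG.u B en (B.sys 0 (ω : QZ) hUa) j)).F := YG_FT B en (B.sys 0 (ω : QZ) hUa) j
  have hp : (B.zSys U).p ↔ (B.sys 0 (ω : QZ) hUa).p := by
    show True ↔ 0 = 0
    simp
  have hν : ∀ i ∈ U, (0 : ℤ →+ QZ) ((B.zSys U).ν i) = (B.sys 0 (ω : QZ) hUa).ν i := by
    intro i _
    show (0 : QZ) = (0 * B.w i / B.D) • (ω : QZ)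
    rw [zero_mul, Nat.zero_div, zero_smul]
  rw [(χ.cell l (0 * B.d / B.D)).scissor hft (YG.u B en (B.sys 0 (ω : QZ) hUa) j), add_comm]
  have e1 : ∀ m, m = 0 → ∀ (u : NF (triv (B.zc en U j).Y).F (m • (ω : QZ)))
      (hu : ∀ (S : Type) [CommRing S] [Algebra k S] (x : (triv (B.zc en U j).Y).F.obj S),
        u.fn x = MvPolynomial.aeval x.1.1.1 B.g),
      (χ.cell l m).χ (withU (triv (B.zc en U j).Y) u) = (B.zc en U j).val χ l := by
    rintro m rfl u hu
    have : u = (B.zc en U j).un (ω : QZ) := NF.ext' fun S _ _ x => hu S x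
    rw [this]
  have e2 : ∀ m, m = 0 → (B.fz en U j).val χ l m = (B.fz en U j).val χ l 0 := by
    rintro m rfl; rfl
  congr 1
  · have hw : (0 : ℤ →+ QZ) 0 = (0 * B.d / B.D) • (ω : QZ) := by
      rw [map_zero, zero_mul, Nat.zero_div, zero_smul]
    rw [← e1 _ h0 (((B.zc en U j).u.mapWt 0).cast hw) (fun S _ _ x => rfl)]
    exact (χ.cell l (0 * B.d / B.D)).iso (FT.unit' hft _) (YG_unit_iso B en (B.zSys U)
      (B.sys 0 (ω : QZ) hUa) 0 hν hp j _ (fun S _ _ x => rfl) _ (fun S _ _ x => rfl))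
  · rw [← e2 _ h0]
    exact (χ.cell l (0 * B.d / B.D)).iso (FT.zero hft _) (YG_zero_iso B en (B.zSys U)
      (B.sys 0 (ω : QZ) hUa) 0 hν hp j _ (fun S _ _ x => rfl))

end compare

end Pool.Agent.Helper6_Mono
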