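import Pool.Agent.Helper6_Mono.WHLevel

/-!
# Decomposition for weighted homogeneous polynomials with an isolated singularity
-/

set_option autoImplicit false
set_option linter.unusedVariables false
set_option linter.unusedSectionVars false

namespace Pool.Agent.Helper6_Mono

open PowerSeries Finset

/-! ### Sums over levels -/

section lsum

variable {R : Type*} [CommRing R]

open scoped Classical in
theorem sum_range_eq {N N' : ℕ} {Q : ℕ → Prop} (X : ℕ → R) (h1 : ∀ a, Q a → a < N)
    (h2 : ∀ a, Q a → a < N') :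
    ∑ a ∈ range N, (if Q a then X a else 0) = ∑ a ∈ range N', (if Q a then X a else 0) := by
  rw [← Finset.sum_filter, ← Finset.sum_filter]
  congr 1
  ext a
  simp only [Finset.mem_filter, Finset.mem_range]
  exact ⟨fun h => ⟨h2 a h.2, h.2⟩, fun h => ⟨h1 a h.2, h.2⟩⟩

open scoped Classical in
/-- sums over the levels -/
noncomputable def lsum (D : ℕ) (X : ℕ → R) (Q : ℕ → ℕ → Prop) (m : ℕ) : R :=
  ∑ a ∈ range ((m + 1) * D), if Q a m then X a else 0

theorem lsum_add {D d : ℕ} {X : ℕ → R} {Q : ℕ → ℕ → Prop} {q : R} {m : ℕ}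
    (H1 : ∀ a m, Q a m → a < (m + 1) * D) (H2 : ∀ a, Q a (m + d) → D ≤ a)
    (H3 : ∀ a, Q (D + a) (m + d) ↔ Q a m) (H4 : ∀ a, X (D + a) = q * X a) :
    lsum D X Q (m + d) = q * lsum D X Q m := by
  classical
  unfold lsum
  rw [sum_range_eq (N' := D + (m + 1) * D) X (H1 · (m + d)) (fun a ha => ?_),
    Finset.sum_range_add, Finset.sum_eq_zero (s := range D), zero_add, Finset.mul_sum]
  · refine Finset.sum_congr rfl fun a _ => ?_
    by_cases h : Q a m
    · rw [if_pos h, if_pos ((H3 a).2 h), H4]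
    · rw [if_neg h, if_neg fun h' => h ((H3 a).1 h'), mul_zero]
  · intro a ha
    rw [Finset.mem_range] at ha
    rw [if_neg fun h => absurd (H2 a h) (not_le.2 ha)]
  · have h1 := H2 a ha
    obtain ⟨b, rfl⟩ := Nat.exists_eq_add_of_le h1
    exact Nat.add_lt_add_left (H1 b m ((H3 b).1 ha)) D

theorem RP.of_periodic {L : Rˣ} {u v : ℕ} (hv : 0 < v) {a : ℕ → R} (N : ℕ)
    (h : ∀ m, N ≤ m → a (m + v) = Li L ^ u * a m) : RP L (steps {(u : ℚ) / v}) a := by
  refine .step _ u v ⟨hv, rfl⟩ (.fin _ N fun m hm => ?_)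
  rw [h m hm, Units.val_pow_eq_pow_val, sub_self]

end lsum

section dec

variable {k : Type} [Field k] {σ : Type} [Fintype σ] (B : WHD k σ) {R : Type*} [CommRing R]

/-- the level `a` contributes a regular cell of order `m` -/
def WHD.QA (U : Finset σ) (a m : ℕ) : Prop := a ≠ 0 ∧ U ⊆ B.sA a ∧ a * B.d = m * B.D

/-- the level `a` contributes a free cell of order `m` -/
def WHD.QC (U : Finset σ) (a m : ℕ) : Prop := a ≠ 0 ∧ U ⊆ B.sA a ∧ a * B.d / B.D = m

theorem WHD.sA_add (a : ℕ) : B.sA (B.D + a) = B.sA a := by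
  ext i
  rw [B.mem_sA, B.mem_sA, add_mul]
  refine and_congr_right fun _ => ?_
  rw [Nat.dvd_add_right (Dvd.intro _ rfl)]

theorem WHD.QA_lt (U : Finset σ) (a m : ℕ) (h : B.QA U a m) : a < (m + 1) * B.D := by
  have h1 : a ≤ a * B.d := Nat.le_mul_of_pos_right a B.hd
  have h2 : m * B.D < (m + 1) * B.D := Nat.mul_lt_mul_of_pos_right (Nat.lt_succ_self m) B.hD
  have h3 := h.2.2
  omega

theorem WHD.QC_lt (U : Finset σ) (a m : ℕ) (h : B.QC U a m) : a < (m + 1) * B.D := by
  have h1 : a ≤ a * B.d := Nat.le_mul_of_pos_right a B.hd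
  have h3 : a * B.d < (m + 1) * B.D := by
    rw [← Nat.div_lt_iff_lt_mul B.hD, h.2.2]
    exact Nat.lt_succ_self m
  omega

theorem WHD.QA_ge (U : Finset σ) {a m : ℕ} (h : B.QA U a (m + B.d)) : B.D ≤ a := by
  have h1 : B.D * B.d ≤ a * B.d := by rw [h.2.2, add_mul, mul_comm B.D]; omega
  exact Nat.le_of_mul_le_mul_right h1 B.hd

theorem WHD.QC_ge (U : Finset σ) {a m : ℕ} (h : B.QC U a (m + B.d)) : B.D ≤ a := by
  have h1 : (m + B.d) * B.D ≤ a * B.d := (Nat.le_div_iff_mul_le B.hD).1 h.2.2.ge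
  have h2 : B.D * B.d ≤ a * B.d := by rw [add_mul, mul_comm B.d] at h1; omega
  exact Nat.le_of_mul_le_mul_right h2 B.hd

theorem WHD.QA_add (U : Finset σ) {m : ℕ} (hm : 1 ≤ m) (a : ℕ) :
    B.QA U (B.D + a) (m + B.d) ↔ B.QA U a m := by
  unfold WHD.QA
  rw [B.sA_add]
  have hD := B.hD
  have e : (B.D + a) * B.d = (m + B.d) * B.D ↔ a * B.d = m * B.D := by
    rw [add_mul, add_mul, mul_comm B.D B.d]
    omega
  rw [e]
  constructor
  · rintro ⟨-, h2, h3⟩
    refine ⟨?_, h2, h3⟩
    rintro rfl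
    have := Nat.mul_pos hm hD
    omega
  · rintro ⟨h1, h2, h3⟩
    exact ⟨by omega, h2, h3⟩

theorem WHD.QC_add (U : Finset σ) {m : ℕ} (hm : 1 ≤ m) (a : ℕ) :
    B.QC U (B.D + a) (m + B.d) ↔ B.QC U a m := by
  unfold WHD.QC
  rw [B.sA_add]
  have hD := B.hD
  have e : (B.D + a) * B.d / B.D = m + B.d ↔ a * B.d / B.D = m := by
    rw [add_mul, Nat.add_comm (B.D * B.d), Nat.add_mul_div_left _ _ hD]
    omega
  rw [e]
  constructor
  · rintro ⟨-, h2, h3⟩
    refine ⟨?_, h2, h3⟩
    rintro rfl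
    rw [zero_mul, Nat.zero_div] at h3
    omega
  · rintro ⟨h1, h2, h3⟩
    exact ⟨by omega, h2, h3⟩

variable (L : Rˣ)

/-- the weight of a level -/
noncomputable def WHD.X (a : ℕ) : R := Li L ^ B.E a

/-- the sum of the weights -/
def WHD.wt : ℕ := ∑ i ∈ B.s, B.w i

theorem WHD.X_add (a : ℕ) : B.X L (B.D + a) = Li L ^ B.wt * B.X L a := by
  unfold WHD.X
  rw [B.E_add, pow_add, WHD.wt]

/-- the coefficients of the regular cells -/
noncomputable def WHD.Ac (U : Finset σ) (m : ℕ) : R := lsum B.D (B.X L) (B.QA U) m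

/-- the coefficients of the free cells -/
noncomputable def WHD.Cc (U : Finset σ) (m : ℕ) : R := lsum B.D (B.X L) (B.QC U) m

/-- the slope -/
def WHD.sl : Set ℚ := {((B.wt : ℕ) : ℚ) / (B.d : ℚ)}

theorem WHD.Ac_RP (U : Finset σ) : RP L (steps B.sl) (B.Ac L U) :=
  RP.of_periodic B.hd 1 fun m hm => lsum_add (B.QA_lt U) (fun a => B.QA_ge U)
    (B.QA_add U hm) (B.X_add L)

theorem WHD.Cc_RP (U : Finset σ) : RP L (steps B.sl) (B.Cc L U) :=
  RP.of_periodic B.hd 1 fun m hm => lsum_add (B.QC_lt U) (fun a => B.QC_ge U)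
    (B.QC_add U hm) (B.X_add L)

theorem WHD.Tc_RP : RP L (steps B.sl) (fun l => B.X L (l * B.D / B.d)) := by
  refine RP.of_periodic B.hd 0 fun m _ => ?_
  have : (m + B.d) * B.D / B.d = B.D + m * B.D / B.d := by
    rw [add_mul, Nat.add_mul_div_left _ _ B.hd, add_comm]
  rw [this, B.X_add]

theorem WHD.Ac_zero (U : Finset σ) : B.Ac L U 0 = 0 := by
  classical
  unfold WHD.Ac lsum
  refine Finset.sum_eq_zero fun a _ => if_neg fun h => h.1 ?_
  have h1 := h.2.2
  rw [zero_mul] at h1
  rcases Nat.mul_eq_zero.1 h1 with h2 | h2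
  · exact h2
  · have := B.hd
    omega

variable {L}

open scoped Classical in
/-- reordering of the sum of the regular cells -/
theorem WHD.sum_reg (U : Finset σ) (l : ℕ) (r : ℕ → R) :
    ∑ m ∈ range (l + 1), B.Ac L U m * r m = ∑ a ∈ range (l * B.D / B.d + 1),
      if a ≠ 0 ∧ U ⊆ B.sA a then B.X L a * (if B.D ∣ a * B.d then r (a * B.d / B.D) else 0)
        else 0 := by
  have h1 : ∀ m ∈ range (l + 1), B.Ac L U m * r m = ∑ a ∈ range (l * B.D / B.d + 1),
      (if B.QA U a m then B.X L a else 0) * r m := by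
    intro m hm
    rw [Finset.mem_range] at hm
    rw [← Finset.sum_mul]
    congr 1
    refine sum_range_eq _ (fun a h => B.QA_lt U a m h) fun a h => Nat.lt_succ_of_le
      ((Nat.le_div_iff_mul_le B.hd).2 ?_)
    rw [h.2.2]
    exact Nat.mul_le_mul_right _ (by omega)
  rw [Finset.sum_congr rfl h1, Finset.sum_comm]
  refine Finset.sum_congr rfl fun a ha => ?_
  rw [Finset.mem_range] at ha
  have hal : a * B.d ≤ l * B.D := (Nat.le_div_iff_mul_le B.hd).1 (by omega)
  by_cases h : a ≠ 0 ∧ U ⊆ B.sA a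
  · rw [if_pos h]
    by_cases hD : B.D ∣ a * B.d
    · rw [if_pos hD, Finset.sum_eq_single (a * B.d / B.D)]
      · rw [if_pos ⟨h.1, h.2, (Nat.div_mul_cancel hD).symm⟩]
      · intro m _ hm
        rw [if_neg, zero_mul]
        intro hq
        exact hm (by rw [hq.2.2, Nat.mul_div_cancel _ B.hD])
      · intro hm
        rw [Finset.mem_range, not_lt] at hm
        exact absurd (WHD.hMl hal) (by omega)
    · rw [if_neg hD, mul_zero]
      refine Finset.sum_eq_zero fun m _ => ?_
      rw [if_neg, zero_mul]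
      intro hq
      exact hD ⟨m, by rw [hq.2.2, mul_comm]⟩
  · rw [if_neg h]
    refine Finset.sum_eq_zero fun m _ => ?_
    rw [if_neg, zero_mul]
    intro hq
    exact h ⟨hq.1, hq.2.1⟩

open scoped Classical in
/-- reordering of the sum of the free cells -/
theorem WHD.sum_free (U : Finset σ) (l : ℕ) (f : ℕ → R) :
    ∑ m ∈ range l, B.Cc L U m * f m + B.Ac L U l * f l
      = ∑ a ∈ range (l * B.D / B.d + 1),
        if a ≠ 0 ∧ U ⊆ B.sA a then B.X L a * f (a * B.d / B.D) else 0 := by
  have h1 : ∀ m ∈ range l, B.Cc L U m * f m = ∑ a ∈ range (l * B.D / B.d + 1),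
      (if B.QC U a m then B.X L a else 0) * f m := by
    intro m hm
    rw [Finset.mem_range] at hm
    rw [← Finset.sum_mul]
    congr 1
    refine sum_range_eq _ (fun a h => B.QC_lt U a m h) fun a h => Nat.lt_succ_of_le
      ((Nat.le_div_iff_mul_le B.hd).2 ?_)
    have h3 : a * B.d < (m + 1) * B.D := by
      rw [← Nat.div_lt_iff_lt_mul B.hD, h.2.2]
      exact Nat.lt_succ_self m
    exact h3.le.trans (Nat.mul_le_mul_right _ (by omega))
  have h2 : B.Ac L U l * f l = ∑ a ∈ range (l * B.D / B.d + 1),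
      (if B.QA U a l then B.X L a else 0) * f l := by
    rw [← Finset.sum_mul]
    congr 1
    refine sum_range_eq _ (fun a h => B.QA_lt U a l h) fun a h => Nat.lt_succ_of_le
      ((Nat.le_div_iff_mul_le B.hd).2 h.2.2.le)
  rw [Finset.sum_congr rfl h1, h2, Finset.sum_comm, ← Finset.sum_add_distrib]
  refine Finset.sum_congr rfl fun a ha => ?_
  rw [Finset.mem_range] at ha
  have hal : a * B.d ≤ l * B.D := (Nat.le_div_iff_mul_le B.hd).1 (by omega)
  by_cases h : a ≠ 0 ∧ U ⊆ B.sA a
  · rw [if_pos h]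
    rcases lt_or_eq_of_le (WHD.hMl hal) with hlt | heq
    · rw [Finset.sum_eq_single (a * B.d / B.D)]
      · rw [if_pos ⟨h.1, h.2, rfl⟩, if_neg, zero_mul, add_zero]
        intro hq
        rw [hq.2.2, Nat.mul_div_cancel _ B.hD] at hlt
        exact lt_irrefl _ hlt
      · intro m _ hm
        rw [if_neg, zero_mul]
        intro hq
        exact hm hq.2.2.symm
      · intro hm
        exact absurd (Finset.mem_range.2 hlt) hm
    · rw [Finset.sum_eq_zero, zero_add, if_pos, heq]
      · refine ⟨h.1, h.2, le_antisymm hal ?_⟩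
        exact (Nat.le_div_iff_mul_le B.hD).1 heq.ge
      · intro m hm
        rw [Finset.mem_range] at hm
        rw [if_neg, zero_mul]
        intro hq
        have := hq.2.2
        omega
  · rw [if_neg h, if_neg, zero_mul, add_zero]
    · refine Finset.sum_eq_zero fun m _ => ?_
      rw [if_neg, zero_mul]
      intro hq
      exact h ⟨hq.1, hq.2.1⟩
    · intro hq
      exact h ⟨hq.1, hq.2.1⟩

theorem WHD.sA_zero {U : Finset σ} (hU : U ⊆ B.s) : U ⊆ B.sA 0 := fun i hi =>
  (B.mem_sA 0 i).2 ⟨hU hi, by rw [zero_mul]; exact dvd_zero _⟩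

open scoped Classical in
/-- the sum over the levels for one stratum -/
theorem WHD.sum_levels {n : ℕ} (en : Fin n → σ) (U : B.PU) (j : Fin n) (l : ℕ) (ω : ℚ)
    (χ : SInv k (wser σ (ω : QZ)) L) :
    ∑ a ∈ range (l * B.D / B.d + 1),
        (if h : U.1 ⊆ B.sA a then
            Li L ^ (B.E a) * (χ.cell l (a * B.d / B.D)).χ
              (withU (YG B en (B.sys a (ω : QZ) h) j) (YG.u B en (B.sys a (ω : QZ) h) j)) else 0)
      = (B.zc en U.1 j).val χ l
        + ∑ m ∈ range (l + 1), B.Ac L U.1 m * (B.rc en U.2.1 U.2.2 j).val χ l m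
        + (∑ m ∈ range l, B.Cc L U.1 m * (B.fc en U.1 j).val χ l m
          + B.Ac L U.1 l * (B.fc en U.1 j).val χ l l)
        + (B.fz en U.1 j).val χ l 0 := by
  rw [B.sum_reg, B.sum_free, Finset.sum_range_succ' _ (l * B.D / B.d),
    Finset.sum_range_succ' _ (l * B.D / B.d), Finset.sum_range_succ' _ (l * B.D / B.d),
    dif_pos (B.sA_zero U.2.2), B.level_zero en, B.E_zero, pow_zero, one_mul,
    if_neg (by simp), if_neg (by simp)]
  have h1 : ∀ a ∈ range (l * B.D / B.d),
      (if h : U.1 ⊆ B.sA (a + 1) then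
        Li L ^ (B.E (a + 1)) * (χ.cell l ((a + 1) * B.d / B.D)).χ
          (withU (YG B en (B.sys (a + 1) (ω : QZ) h) j) (YG.u B en (B.sys (a + 1) (ω : QZ) h) j))
        else 0)
      = (if a + 1 ≠ 0 ∧ U.1 ⊆ B.sA (a + 1) then B.X L (a + 1)
          * (if B.D ∣ (a + 1) * B.d then
            (B.rc en U.2.1 U.2.2 j).val χ l ((a + 1) * B.d / B.D) else 0) else 0)
        + (if a + 1 ≠ 0 ∧ U.1 ⊆ B.sA (a + 1) then B.X L (a + 1)
          * (B.fc en U.1 j).val χ l ((a + 1) * B.d / B.D) else 0) := by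
    intro a _
    by_cases h : U.1 ⊆ B.sA (a + 1)
    · have hc : a + 1 ≠ 0 ∧ U.1 ⊆ B.sA (a + 1) := ⟨by omega, h⟩
      rw [dif_pos h, if_pos hc, if_pos hc,
        B.level_pos en (by omega) h U.2.1 U.2.2 j ω χ, mul_add]
      rfl
    · rw [dif_neg h, if_neg fun h' => h h'.2, if_neg fun h' => h h'.2, add_zero]
  rw [Finset.sum_congr rfl h1, Finset.sum_add_distrib]
  ring

open scoped Classical in
variable (L) in
/-- the decomposition -/
noncomputable def WHD.dec : Dec (k := k) L B.g (B.s : Set σ) B.sl := by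
  let n := Fintype.card σ
  let e : Fin n ≃ σ := (Fintype.equivFin σ).symm
  exact
  { I0 := B.PU × Fin n
    I := B.PU × Fin n
    J := Option (B.PU × Fin n) ⊕ (B.PU × Fin n)
    z := fun p => B.zc e p.1.1 p.2
    α := fun _ => 1
    r := fun p => B.rc e p.1.2.1 p.1.2.2 p.2
    A := fun p => B.Ac L p.1.1
    A0 := fun p => B.Ac_zero L p.1.1
    fc := fun j => match j with
      | Sum.inl none => ptS k σ
      | Sum.inl (some p) => B.fc e p.1.1 p.2
      | Sum.inr p => B.fz e p.1.1 p.2
    C := fun j => match j with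
      | Sum.inl none => fun _ => 0
      | Sum.inl (some p) => B.Cc L p.1.1
      | Sum.inr p => fun m => if m = 0 then 1 else 0
    T := fun j => match j with
      | Sum.inl none => fun l => B.X L (l * B.D / B.d)
      | Sum.inl (some p) => B.Ac L p.1.1
      | Sum.inr p => fun m => if m = 0 then 1 else 0
    rA := fun p => B.Ac_RP L p.1.1
    rC := fun j => match j with
      | Sum.inl none => RP.zero
      | Sum.inl (some p) => B.Cc_RP L p.1.1
      | Sum.inr p => RP.single 1 0
    rT := fun j => match j with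
      | Sum.inl none => B.Tc_RP L
      | Sum.inl (some p) => B.Ac_RP L p.1.1
      | Sum.inr p => RP.single 1 0
    main := fun ω χ l => by
      have hcard : Nat.card (B.s : Set σ) = B.s.card := by
        rw [Nat.card_coe_set_eq, Set.ncard_coe_finset]
      rw [hcard, B.total e χ e.surjective l, Finset.sum_comm]
      have h1 : ∀ U : B.PU, ∑ a ∈ range (l * B.D / B.d + 1), ∑ j,
          (if h : U.1 ⊆ B.sA a then
            Li L ^ (B.E a) * (χ.cell l (a * B.d / B.D)).χ
              (withU (YG B e (B.sys a (ω : QZ) h) j) (YG.u B e (B.sys a (ω : QZ) h) j)) else 0)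
          = ∑ j, ((B.zc e U.1 j).val χ l
            + ∑ m ∈ range (l + 1), B.Ac L U.1 m * (B.rc e U.2.1 U.2.2 j).val χ l m
            + (∑ m ∈ range l, B.Cc L U.1 m * (B.fc e U.1 j).val χ l m
              + B.Ac L U.1 l * (B.fc e U.1 j).val χ l l)
            + (B.fz e U.1 j).val χ l 0) := by
        intro U
        rw [Finset.sum_comm]
        exact Finset.sum_congr rfl fun j _ => B.sum_levels e U j l ω χ
      rw [Finset.sum_congr rfl fun U _ => h1 U, ← Fintype.sum_prod_type'
        (f := fun (U : B.PU) (j : Fin n) => ((B.zc e U.1 j).val χ l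
            + ∑ m ∈ range (l + 1), B.Ac L U.1 m * (B.rc e U.2.1 U.2.2 j).val χ l m
            + (∑ m ∈ range l, B.Cc L U.1 m * (B.fc e U.1 j).val χ l m
              + B.Ac L U.1 l * (B.fc e U.1 j).val χ l l)
            + (B.fz e U.1 j).val χ l 0))]
      simp only [Fintype.sum_sum_type, Fintype.sum_option, zero_mul, zero_add, one_mul,
        Finset.sum_add_distrib, Finset.sum_comm (s := range (l + 1)),
        Finset.sum_comm (s := range l)]
      rcases Nat.eq_zero_or_pos l with hl | hl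
      · subst hl
        simp only [Finset.range_zero, Finset.sum_empty, if_true, one_mul,
          Finset.sum_const_zero, zero_add, add_zero]
        show _ + B.X L (0 * B.D / B.d) * _ = _
        ring
      · have h2 : ∀ p : B.PU × Fin n, ∑ m ∈ range l,
            (if m = 0 then (1 : R) else 0) * (B.fz e p.1.1 p.2).val χ l m
            = (B.fz e p.1.1 p.2).val χ l 0 := by
          intro p
          rw [Finset.sum_eq_single 0]
          · rw [if_pos rfl, one_mul]
          · intro m _ hm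
            rw [if_neg hm, zero_mul]
          · intro hm
            exact absurd (Finset.mem_range.2 hl) hm
        simp only [h2, if_neg hl.ne', zero_mul, Finset.sum_const_zero, add_zero]
        show _ + B.X L (l * B.D / B.d) * _ = _
        ring }

end dec

end Pool.Agent.Helper6_Mono
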