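import Pool.Agent.Helper6_Mono.WH

/-!
# The strata of the jet spaces are cells
-/

set_option autoImplicit false
set_option linter.unusedVariables false
set_option linter.unusedSectionVars false

namespace Pool.Agent.Helper6_Mono

open PowerSeries Finset

section core

variable {k : Type} [Field k] {σ : Type} [Fintype σ] (B : WHD k σ) (a l : ℕ)

/-- the indices of the free coefficients -/
def WHD.DR (j : σ) : Set (σ × ℕ) :=
  {p | p.1 ∈ B.s ∧ a * B.w p.1 < p.2 * B.D ∧ p.2 ≤ l ∧
    (p.1 = j → l < p.2 + a * (B.d - B.w j) / B.D)}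

theorem WHD.DR_subset (j : σ) : B.DR a l j ⊆ B.DA a l := fun p h => ⟨h.1, h.2.1.le, h.2.2.1⟩

theorem WHD.DR_finite (j : σ) : (B.DR a l j).Finite := (B.DA_finite a l).subset (B.DR_subset a l j)

variable {S : Type} [CommRing S] [Algebra k S]

/-- families with given leading coefficients -/
def WHD.Mem (x : σ → S) (γ : σ → S⟦X⟧) : Prop :=
  (∀ i c, (i, c) ∉ B.DA a l → coeff c (γ i) = 0) ∧ ∀ i, Rel a B.D (B.w i) (γ i) (x i)

variable {B a l} {j : σ} (hj : j ∈ B.s) (hdiv : B.D ∣ a * (B.d - B.w j)) (hl : a * B.d ≤ l * B.D)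

include hj hdiv in
theorem WHD.hM : a * B.d / B.D = a * B.w j / B.D + a * (B.d - B.w j) / B.D := by
  have h1 : a * B.d = a * B.w j + a * (B.d - B.w j) := by
    rw [← mul_add, Nat.add_sub_cancel' (B.hwd j hj)]
  rw [h1, Nat.add_div_of_dvd_left hdiv]

include hl in
theorem WHD.hMl : a * B.d / B.D ≤ l := Nat.div_le_of_le_mul (by rw [mul_comm B.D]; exact hl)

include hj hdiv hl in
theorem WHD.core_unique {x : σ → S} (hv : IsUnit (MvPolynomial.aeval x (MvPolynomial.pderiv j B.g)))
    {γ γ' : σ → S⟦X⟧} (hγ : B.Mem a l x γ) (hγ' : B.Mem a l x γ')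
    (hz : ∀ c ≤ l, coeff c (MvPolynomial.aeval γ B.g) = coeff c (MvPolynomial.aeval γ' B.g))
    (hr : ∀ i c, (i, c) ∈ B.DR a l j → coeff c (γ i) = coeff c (γ' i)) : γ = γ' := by
  classical
  have hM := WHD.hM hj hdiv
  have hMl := WHD.hMl hl
  have hrl : a * (B.d - B.w j) / B.D ≤ l :=
    le_trans (by rw [hM]; exact Nat.le_add_left _ _) hMl
  have hlow : ∀ i c, c * B.D ≤ a * B.w i → coeff c (γ i) = coeff c (γ' i) := by
    intro i c hc
    rcases lt_or_eq_of_le hc with h | h
    · rw [(hγ.2 i).1 c h, (hγ'.2 i).1 c h]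
    · rw [(hγ.2 i).2.1 c h, (hγ'.2 i).2.1 c h]
  have hout : ∀ i c, (i ∉ B.s ∨ l < c) → coeff c (γ i) = coeff c (γ' i) := by
    intro i c hc
    have : (i, c) ∉ B.DA a l := by
      rintro ⟨h1, h2, h3⟩
      rcases hc with hc | hc
      · exact hc h1
      · exact absurd h3 (by simpa using hc)
    rw [hγ.1 i c this, hγ'.1 i c this]
  have hne : ∀ i, i ≠ j → γ i = γ' i := by
    intro i hi
    ext c
    by_cases h1 : i ∉ B.s ∨ l < c
    · exact hout i c h1
    · push Not at h1
      rcases le_or_gt (c * B.D) (a * B.w i) with h2 | h2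
      · exact hlow i c h2
      · exact hr i c ⟨h1.1, h2, h1.2, fun h => absurd h hi⟩
  have hT := tri_block B.hD B.hg j (B.hwd j hj) hdiv γ x hγ.2
  have hb : ∀ c, c < a * B.w j / B.D + 1 → c * B.D ≤ a * B.w j := fun c hc =>
    (Nat.le_div_iff_mul_le B.hD).1 (Nat.le_of_lt_succ hc)
  have hupd : Function.update γ j (γ' j) = γ' := by
    funext i
    by_cases hi : i = j
    · subst hi; rw [Function.update_self]
    · rw [Function.update_of_ne hi, hne i hi]
  have hjj : γ j = γ' j := by
    refine hT.unique hv (q := l + 1 - a * (B.d - B.w j) / B.D) (fun c _ => rfl)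
      (fun c hc => (hlow j c (hb c hc)).symm) (fun c hc => ?_) (fun c hc => ?_)
    · by_cases h1 : l < c
      · exact hout j c (Or.inr h1)
      · refine hr j c ⟨hj, ?_, by show c ≤ l; omega, fun _ => by show l < c + _; omega⟩
        show a * B.w j < c * B.D
        by_contra h2
        have := (Nat.le_div_iff_mul_le B.hD).2 (not_lt.1 h2)
        omega
    · show coeff c (MvPolynomial.aeval (Function.update γ j (γ j)) B.g)
        = coeff c (MvPolynomial.aeval (Function.update γ j (γ' j)) B.g)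
      rw [Function.update_eq_self, hupd]
      exact hz c (by omega)
  funext i
  by_cases hi : i = j
  · rw [hi, hjj]
  · exact hne i hi

include hj hdiv hl in
theorem WHD.core_exists {U : Finset σ} (hU : U ⊆ B.sA a) {x : σ → S} (hx : ∀ i, i ∉ U → x i = 0)
    (hv : IsUnit (MvPolynomial.aeval x (MvPolynomial.pderiv j B.g)))
    {z : S⟦X⟧} (hz0 : coeff 0 z = MvPolynomial.aeval x B.g)
    {δ : σ → S⟦X⟧} (hδ : ∀ i c, (i, c) ∉ B.DR a l j → coeff c (δ i) = 0) :
    ∃ γ : σ → S⟦X⟧, B.Mem a l x γ ∧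
      (∀ c ≤ l - a * B.d / B.D, coeff (a * B.d / B.D + c) (MvPolynomial.aeval γ B.g)
        = coeff c z) ∧
      (∀ i c, (i, c) ∈ B.DR a l j → coeff c (γ i) = coeff c (δ i)) := by
  classical
  have hM := WHD.hM hj hdiv
  have hMl := WHD.hMl hl
  have hrl : a * (B.d - B.w j) / B.D ≤ l :=
    le_trans (by rw [hM]; exact Nat.le_add_left _ _) hMl
  have hxd : ∀ i, ¬ B.D ∣ a * B.w i → x i = 0 := fun i hi =>
    hx i fun h => hi ((B.mem_sA a i).1 (hU h)).2
  have hxs : ∀ i, i ∉ B.s → x i = 0 := fun i hi =>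
    hx i fun h => hi ((B.mem_sA a i).1 (hU h)).1
  -- the initial family
  let γ₀ : σ → S⟦X⟧ := fun i => δ i + C (x i) * X ^ (a * B.w i / B.D)
  have hγ₀ : ∀ i c, coeff c (γ₀ i) = coeff c (δ i) + if c = a * B.w i / B.D then x i else 0 := by
    intro i c
    rw [map_add, coeff_C_mul, coeff_X_pow, mul_ite, mul_one, mul_zero]
  have hδ0 : ∀ i c, c * B.D ≤ a * B.w i → coeff c (δ i) = 0 := fun i c hc =>
    hδ i c fun h => absurd h.2.1 (not_lt.2 hc)
  have hrel : ∀ i, Rel a B.D (B.w i) (γ₀ i) (x i) := by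
    intro i
    refine ⟨fun c hc => ?_, fun c hc => ?_, fun hc => hxd i fun ⟨c, h⟩ => hc c (by rw [h, mul_comm])⟩
    · rw [hγ₀, hδ0 i c hc.le, zero_add]
      split_ifs with h
      · refine hxd i fun ⟨c', h'⟩ => ?_
        rw [h, h', Nat.mul_div_cancel_left _ B.hD, mul_comm] at hc
        exact lt_irrefl _ hc
      · rfl
    · rw [hγ₀, hδ0 i c hc.le, zero_add, if_pos]
      rw [← hc, Nat.mul_div_cancel _ B.hD]
  have hsupp : ∀ i c, (i, c) ∉ B.DA a l → coeff c (γ₀ i) = 0 := by
    intro i c hc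
    rw [hγ₀, hδ i c fun h => hc (B.DR_subset a l j h), zero_add]
    split_ifs with h
    · by_cases hi : i ∈ B.s
      · refine hxd i fun hdv => hc ⟨hi, ?_, ?_⟩
        · show a * B.w i ≤ c * B.D
          rw [h, Nat.div_mul_cancel hdv]
        · show c ≤ l
          rw [h]
          exact le_trans (Nat.div_le_div_right (Nat.mul_le_mul_left a (B.hwd i hi))) hMl
      · exact hxs i hi
    · rfl
  have hT := tri_block B.hD B.hg j (B.hwd j hj) hdiv γ₀ x hrel
  have hfl := (Rel.aeval B.hD B.hg hrel).floor B.hD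
  obtain ⟨y, hy1, hy2, hy3⟩ := hT.exists hv (h := X ^ (a * B.d / B.D) * z)
    (q := l + 1 - a * (B.d - B.w j) / B.D) (by
      intro c hc
      show coeff c (MvPolynomial.aeval (Function.update γ₀ j (γ₀ j)) B.g) = _
      rw [Function.update_eq_self, coeff_X_pow_mul']
      rcases Nat.lt_or_ge c (a * B.d / B.D) with h1 | h1
      · rw [if_neg (by omega), hfl.1 c h1]
      · have h2 : c = a * B.d / B.D := by omega
        rw [h2, if_pos le_rfl, Nat.sub_self, hz0, hfl.2]) (by omega)
  have hb : ∀ c, c * B.D ≤ a * B.w j → c < a * B.w j / B.D + 1 := fun c hc =>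
    Nat.lt_succ_of_le ((Nat.le_div_iff_mul_le B.hD).2 hc)
  refine ⟨Function.update γ₀ j y, ⟨fun i c hc => ?_, fun i => ?_⟩, fun c hc => ?_, fun i c hc => ?_⟩
  · by_cases hi : i = j
    · subst hi
      rw [Function.update_self]
      rcases Nat.lt_or_ge c (a * B.w i / B.D + 1) with h1 | h1
      · rw [hy1 c h1, hsupp i c hc]
      · rcases Nat.lt_or_ge c (l + 1 - a * (B.d - B.w i) / B.D) with h2 | h2
        · refine absurd (⟨hj, ?_, ?_⟩ : (i, c) ∈ B.DA a l) hc
          · show a * B.w i ≤ c * B.D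
            by_contra h3
            have := hb c (le_of_lt (not_le.1 h3))
            omega
          · exact Nat.le_of_lt_succ (lt_of_lt_of_le h2 (Nat.sub_le _ _))
        · rw [hy2 c h2, hsupp i c hc]
    · rw [Function.update_of_ne hi, hsupp i c hc]
  · by_cases hi : i = j
    · subst hi
      rw [Function.update_self]
      exact ⟨fun c hc => by rw [hy1 c (hb c hc.le)]; exact (hrel i).1 c hc,
        fun c hc => by rw [hy1 c (hb c hc.le)]; exact (hrel i).2.1 c hc, (hrel i).2.2⟩
    · rw [Function.update_of_ne hi]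
      exact hrel i
  · have h1 := hy3 (a * B.d / B.D + c) (by omega)
    rw [coeff_X_pow_mul', if_pos (by omega), Nat.add_sub_cancel_left] at h1
    exact h1
  · have h0 : coeff c (γ₀ i) = coeff c (δ i) := by
      rw [hγ₀, if_neg, add_zero]
      rintro rfl
      have := hc.2.1
      have h5 : a * B.w i / B.D * B.D ≤ a * B.w i := Nat.div_mul_le_self _ _
      exact absurd this (not_lt.2 h5)
    by_cases hi : i = j
    · subst hi
      rw [Function.update_self, hy2 c (by have := hc.2.2.2 rfl; change l < c + _ at this; omega),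
        h0]
    · rw [Function.update_of_ne hi, h0]

end core

/-! ### The isomorphism -/

section iso

variable {k : Type} [Field k] {σ : Type} [Fintype σ] {W : Type} [AddCommGroup W] (B : WHD k σ)
  {n : ℕ} (en : Fin n → σ) (a l : ℕ) (ω : W) {U : Finset σ} (hU : U ⊆ B.sA a)

open scoped Classical in
/-- the leading coefficients of a family -/
noncomputable def WHD.xl (U : Finset σ) {S : Type} [CommRing S] (γ : σ → S⟦X⟧) : σ → S :=
  fun i => if i ∈ U then coeff (a * B.w i / B.D) (γ i) else 0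

include hU in
theorem WHD.xl_mem {S : Type} [CommRing S] [Algebra k S] (p : (B.XU a l ω U).F.obj S) :
    ∀ i ∈ (Finset.univ : Finset σ), (i ∈ U → IsUnit (B.xl a U p.1.1 i)) ∧
      (i ∉ U → B.xl a U p.1.1 i = 0) := by
  classical
  intro i _
  refine ⟨fun hi => ?_, fun hi => ?_⟩
  · unfold WHD.xl
    rw [if_pos hi]
    exact (p.2 i (hU hi)).1 hi
  · unfold WHD.xl
    rw [if_neg hi]

include hU in
theorem WHD.mem_of {S : Type} [CommRing S] [Algebra k S] (p : (B.XU a l ω U).F.obj S) :
    B.Mem a l (B.xl a U p.1.1) p.1.1 := by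
  classical
  refine ⟨p.1.2, fun i => ⟨fun c hc => p.1.2 i c fun h => absurd h.2.1 (not_le.2 hc),
    fun c hc => ?_, fun hc => ?_⟩⟩
  · have hc' : c = a * B.w i / B.D := by rw [← hc, Nat.mul_div_cancel _ B.hD]
    unfold WHD.xl
    split_ifs with hi
    · rw [hc']
    · by_cases his : i ∈ B.s
      · rw [hc']
        exact (p.2 i ((B.mem_sA a i).2 ⟨his, ⟨c, by rw [← hc, mul_comm]⟩⟩)).2 hi
      · exact p.1.2 i c fun h => his h.1
  · unfold WHD.xl
    rw [if_neg]
    intro hi
    obtain ⟨c, h⟩ := ((B.mem_sA a i).1 (hU hi)).2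
    exact hc c (by rw [h, mul_comm])

/-- the leading coefficients as a point of the torus -/
@[reducible] noncomputable def WHD.toTG {S : Type} [CommRing S] [Algebra k S]
    (p : (B.XU a l ω U).F.obj S) : (TG k (B.sys a ω hU)).F.obj S :=
  ⟨B.xl a U p.1.1, B.xl_mem a l ω hU p⟩

theorem WHD.xl_tw {S S' : Type} [CommRing S] [Algebra k S] [CommRing S'] [Algebra k S']
    (φ : S →ₐ[k] S') (c : Chr W S') (γ : σ → S⟦X⟧) :
    B.xl a U (fun i => twS ω φ c (γ i))
      = fun i => chr c ((a * B.w i / B.D) • ω) * φ (B.xl a U γ i) := by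
  classical
  funext i
  unfold WHD.xl
  split_ifs with h
  · rw [coeff_twS]
  · rw [map_zero, mul_zero]

/-- weighted homogeneous polynomials in the leading coefficients -/
@[reducible] noncomputable def WHD.evX {P : MvPolynomial σ k} {δ : ℕ}
    (hP : MvPolynomial.IsWeightedHomogeneous B.w P δ) :
    NF (B.XU a l ω U).F ((a * δ / B.D) • ω) :=
  ⟨fun p => MvPolynomial.aeval (B.xl a U p.1.1) P, fun {S S'} _ _ _ _ φ c p => by
    show MvPolynomial.aeval (B.xl a U (fun i => twS ω φ c (p.1.1 i))) P = _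
    rw [B.xl_tw]
    exact (TG.ev (B.sys a ω hU) hP).fn_tw φ c (B.toTG a l ω hU p)⟩

/-- the stratum of the jet space -/
@[reducible] noncomputable def WHD.XUj (j : Fin n) : Over k W (σ ⊕ ℕ) (wser σ ω) :=
  (B.XU a l ω U).stp (fun i => B.evX a l ω hU (B.hpd (en i))) j

/-- the part of a family with given support -/
noncomputable def cut {S : Type} [CommRing S] (D : Set (σ × ℕ)) (γ : σ → S⟦X⟧) : σ → S⟦X⟧ := by
  classical
  exact fun i => PowerSeries.mk fun c => if (i, c) ∈ D then coeff c (γ i) else 0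

theorem coeff_cut_mem {S : Type} [CommRing S] {D : Set (σ × ℕ)} (γ : σ → S⟦X⟧) {i : σ} {c : ℕ}
    (h : (i, c) ∈ D) : coeff c (cut D γ i) = coeff c (γ i) := by
  unfold cut
  rw [coeff_mk, if_pos h]

theorem coeff_cut_not {S : Type} [CommRing S] {D : Set (σ × ℕ)} (γ : σ → S⟦X⟧) {i : σ} {c : ℕ}
    (h : (i, c) ∉ D) : coeff c (cut D γ i) = 0 := by
  unfold cut
  rw [coeff_mk, if_neg h]

theorem WHD.piece_iso (j : Fin n) (hj : en j ∈ B.s) (hdiv : B.D ∣ a * (B.d - B.w (en j)))
    (hl : a * B.d ≤ l * B.D) :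
    OIso (B.XUj en a l ω hU j)
      (((GenK k σ ω (a * B.d / B.D) (l - a * B.d / B.D)).app
        (withU (YG B en (B.sys a ω hU) j) (YG.u B en (B.sys a ω hU) j))).times
        (GF.sup k (B.DR a l (en j)) ω)) := by
  classical
  have hMl := WHD.hMl hl
  have hfl : ∀ {S : Type} [CommRing S] [Algebra k S] (p : (B.XU a l ω U).F.obj S),
      (∀ c, c < a * B.d / B.D → coeff c (MvPolynomial.aeval p.1.1 B.g) = 0) ∧
        coeff (a * B.d / B.D) (MvPolynomial.aeval p.1.1 B.g)
          = MvPolynomial.aeval (B.xl a U p.1.1) B.g := fun p =>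
    (Rel.aeval B.hD B.hg (B.mem_of a l ω hU p).2).floor B.hD
  refine OIso.ofBij (fun S _ _ p => (⟨(⟨B.toTG a l ω hU p.1, p.2⟩,
      ⟨PowerSeries.mk fun c => if c ≤ l - a * B.d / B.D then
        coeff (a * B.d / B.D + c) (MvPolynomial.aeval p.1.1.1 B.g) else 0, fun c hc => ?_⟩),
      fun _ => ?_⟩, ⟨cut (B.DR a l (en j)) p.1.1.1, fun i c h => coeff_cut_not _ h⟩)) ?_ ?_ ?_
  · rw [coeff_mk, if_neg (by omega)]
  · show coeff 0 (PowerSeries.mk fun c => if c ≤ l - a * B.d / B.D then
        coeff (a * B.d / B.D + c) (MvPolynomial.aeval p.1.1.1 B.g) else 0)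
      - MvPolynomial.aeval (B.xl a U p.1.1.1) B.g = 0
    rw [coeff_mk, if_pos (Nat.zero_le _), add_zero, (hfl p.1).2, sub_self]
  · intro S S' _ _ _ _ φ c p
    have hg : MvPolynomial.aeval (fun i => twS ω φ c (p.1.1.1 i)) B.g
        = twS ω φ c (MvPolynomial.aeval p.1.1.1 B.g) := by
      rw [← MvPolynomial.comp_aeval_apply]
    refine Prod.ext (Subtype.ext (Prod.ext (Subtype.ext (Subtype.ext ?_)) (Subtype.ext ?_)))
      (Subtype.ext (funext fun i => ?_))
    · exact B.xl_tw a ω φ c p.1.1.1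
    · show (PowerSeries.mk fun e => if e ≤ l - a * B.d / B.D then
        coeff (a * B.d / B.D + e) (MvPolynomial.aeval (fun i => twS ω φ c (p.1.1.1 i)) B.g) else 0)
        = C (chr c ((a * B.d / B.D) • ω)) * twS ω φ c (PowerSeries.mk fun e =>
          if e ≤ l - a * B.d / B.D then
            coeff (a * B.d / B.D + e) (MvPolynomial.aeval p.1.1.1 B.g) else 0)
      ext e
      rw [coeff_mk, coeff_C_mul, coeff_twS, coeff_mk, hg]
      split_ifs
      · rw [coeff_twS, add_smul, chr_add, mul_assoc]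
      · rw [map_zero, mul_zero, mul_zero]
    · show cut (B.DR a l (en j)) (fun i => twS ω φ c (p.1.1.1 i)) i
        = twS ω φ c (cut (B.DR a l (en j)) p.1.1.1 i)
      ext e
      rw [coeff_twS]
      by_cases h : (i, e) ∈ B.DR a l (en j)
      · rw [coeff_cut_mem _ h, coeff_cut_mem _ h, coeff_twS]
      · rw [coeff_cut_not _ h, coeff_cut_not _ h, map_zero, mul_zero]
  · intro S _ _
    constructor
    · intro p p' hpp
      have hx : B.xl a U p.1.1.1 = B.xl a U p'.1.1.1 := congrArg (fun q => q.1.1.1.1.1) hpp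
      have hz : (PowerSeries.mk fun c => if c ≤ l - a * B.d / B.D then
        coeff (a * B.d / B.D + c) (MvPolynomial.aeval p.1.1.1 B.g) else 0)
        = (PowerSeries.mk fun c => if c ≤ l - a * B.d / B.D then
        coeff (a * B.d / B.D + c) (MvPolynomial.aeval p'.1.1.1 B.g) else 0) :=
        congrArg (fun q => q.1.1.2.1) hpp
      have hr : cut (B.DR a l (en j)) p.1.1.1 = cut (B.DR a l (en j)) p'.1.1.1 :=
        congrArg (fun q => q.2.1) hpp
      refine Subtype.ext (Subtype.ext (Subtype.ext ?_))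
      refine WHD.core_unique hj hdiv hl (x := B.xl a U p.1.1.1) p.2.2
        (B.mem_of a l ω hU p.1) (by rw [hx]; exact B.mem_of a l ω hU p'.1) (fun c hc => ?_)
        (fun i c hc => ?_)
      · rcases Nat.lt_or_ge c (a * B.d / B.D) with h | h
        · rw [(hfl p.1).1 c h, (hfl p'.1).1 c h]
        · have := congrArg (coeff (c - a * B.d / B.D)) hz
          rw [coeff_mk, coeff_mk, if_pos (by omega), if_pos (by omega),
            Nat.add_sub_cancel' h] at this
          exact this
      · have := congrArg (fun q => coeff c (q i)) hr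
        simp only [coeff_cut_mem _ hc] at this
        exact this
    · intro q
      have hx : ∀ i, i ∉ U → q.1.1.1.1.1 i = 0 := fun i hi =>
        (q.1.1.1.1.2 i (Finset.mem_univ i)).2 hi
      obtain ⟨γ, hγ, h1, h2⟩ := WHD.core_exists hj hdiv hl hU hx q.1.1.1.2.2
        (z := q.1.1.2.1) (sub_eq_zero.1 (q.1.2 ())) q.2.2
      have hlead : ∀ i ∈ B.sA a, coeff (a * B.w i / B.D) (γ i) = q.1.1.1.1.1 i := fun i hi =>
        (hγ.2 i).2.1 _ (Nat.div_mul_cancel ((B.mem_sA a i).1 hi).2)
      have hxl : B.xl a U γ = q.1.1.1.1.1 := by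
        funext i
        unfold WHD.xl
        split_ifs with hi
        · exact hlead i (hU hi)
        · exact (hx i hi).symm
      refine ⟨⟨⟨⟨γ, hγ.1⟩, fun i hi => ?_⟩, ?_⟩, ?_⟩
      · show (i ∈ U → IsUnit (coeff (a * B.w i / B.D) (γ i))) ∧
          (i ∉ U → coeff (a * B.w i / B.D) (γ i) = 0)
        rw [hlead i hi]
        exact q.1.1.1.1.2 i (Finset.mem_univ i)
      · show (∀ i < j, MvPolynomial.aeval (B.xl a U γ) (MvPolynomial.pderiv (en i) B.g) = 0) ∧
          IsUnit (MvPolynomial.aeval (B.xl a U γ) (MvPolynomial.pderiv (en j) B.g))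
        rw [hxl]
        exact q.1.1.1.2
      · refine Prod.ext (Subtype.ext (Prod.ext (Subtype.ext (Subtype.ext hxl)) (Subtype.ext ?_)))
          (Subtype.ext (funext fun i => ?_))
        · show (PowerSeries.mk fun c => if c ≤ l - a * B.d / B.D then
            coeff (a * B.d / B.D + c) (MvPolynomial.aeval γ B.g) else 0) = q.1.1.2.1
          ext c
          rw [coeff_mk]
          split_ifs with hc
          · exact h1 c hc
          · exact (q.1.1.2.2 c (by omega)).symm
        · show cut (B.DR a l (en j)) γ i = q.2.1 i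
          ext c
          by_cases h : (i, c) ∈ B.DR a l (en j)
          · rw [coeff_cut_mem _ h, h2 i c h]
          · rw [coeff_cut_not _ h, q.2.2 i c h]
  · intro S _ _ p b
    cases b with
    | inl i =>
      show @ite S (a = 0) (Classical.propDecidable (a = 0)) (B.xl a U p.1.1.1 i) 0
        = coeff 0 (p.1.1.1 i)
      have hm := B.mem_of a l ω hU p.1
      split_ifs with ha
      · exact ((hm.2 i).2.1 0 (by rw [ha, zero_mul, zero_mul])).symm
      · by_cases hi : i ∈ B.s
        · rw [(hm.2 i).1 0 (by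
            rw [zero_mul]
            exact Nat.mul_pos (Nat.pos_of_ne_zero ha) (B.hw i hi))]
        · rw [hm.1 i 0 fun h => hi h.1]
    | inr e =>
      show coeff e (X ^ (a * B.d / B.D) * PowerSeries.mk fun c => if c ≤ l - a * B.d / B.D then
          coeff (a * B.d / B.D + c) (MvPolynomial.aeval p.1.1.1 B.g) else 0)
        = if e ≤ l then coeff e (MvPolynomial.aeval p.1.1.1 B.g) else 0
      rw [coeff_X_pow_mul']
      rcases Nat.lt_or_ge e (a * B.d / B.D) with h | h
      · rw [if_neg (by omega), if_pos (by omega), (hfl p.1).1 e h]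
      · rw [if_pos h, coeff_mk, Nat.add_sub_cancel' h]
        by_cases he : e ≤ l
        · rw [if_pos (by omega), if_pos he]
        · rw [if_neg (by omega), if_neg he]

end iso

end Pool.Agent.Helper6_Mono
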