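import Pool.Agent.Helper6_Mono.WHCells

/-!
# The levels of the jet spaces
-/

set_option autoImplicit false
set_option linter.unusedVariables false
set_option linter.unusedSectionVars false

namespace Pool.Agent.Helper6_Mono

open PowerSeries Finset

/-! ### Counting -/

theorem ncard_idx {σ : Type} (s : Finset σ) (lo : σ → ℕ) (l : ℕ) :
    ({p : σ × ℕ | p.1 ∈ s ∧ lo p.1 < p.2 ∧ p.2 ≤ l}).ncard = ∑ i ∈ s, (l - lo i) := by
  classical
  have h : {p : σ × ℕ | p.1 ∈ s ∧ lo p.1 < p.2 ∧ p.2 ≤ l}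
      = ↑((s.sigma fun i => Finset.Ioc (lo i) l).map
        ⟨fun p => (p.1, p.2), fun p q h => by
          obtain ⟨p1, p2⟩ := p
          obtain ⟨q1, q2⟩ := q
          simp only [Prod.mk.injEq] at h
          obtain ⟨rfl, rfl⟩ := h
          rfl⟩ : Finset (σ × ℕ)) := by
    ext ⟨i, c⟩
    simp only [Set.mem_ofPred_eq, Finset.coe_map, Set.mem_image,
      Finset.mem_coe, Finset.mem_sigma, Finset.mem_Ioc]
    constructor
    · rintro ⟨h1, h2, h3⟩
      exact ⟨⟨i, c⟩, ⟨h1, h2, h3⟩, rfl⟩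
    · rintro ⟨⟨i', c'⟩, ⟨h1, h2, h3⟩, h⟩
      cases h
      exact ⟨h1, h2, h3⟩
  rw [h, Set.ncard_coe_finset, Finset.card_map, Finset.card_sigma]
  simp only [Nat.card_Ioc]

section level

variable {k : Type} [Field k] {σ : Type} [Fintype σ] (B : WHD k σ)

/-- the number of coefficients of index between `1` and the order of level `a` -/
def WHD.E (a : ℕ) : ℕ := ∑ i ∈ B.s, a * B.w i / B.D

theorem WHD.E_add (a : ℕ) : B.E (B.D + a) = ∑ i ∈ B.s, B.w i + B.E a := by
  unfold WHD.E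
  rw [← Finset.sum_add_distrib]
  refine Finset.sum_congr rfl fun i _ => ?_
  rw [add_mul, Nat.add_comm (B.D * B.w i), Nat.add_mul_div_left _ _ B.hD, add_comm]

theorem WHD.E_zero : B.E 0 = 0 := by
  unfold WHD.E
  simp

variable {a l : ℕ}

theorem WHD.DA_succ_iff {i : σ} (hi : i ∈ B.s) (c : ℕ) :
    (a + 1) * B.w i ≤ c * B.D ↔ a * B.w i < c * B.D := by
  obtain ⟨e, he⟩ := B.hwD i hi
  have hw := B.hw i hi
  have h1 : c * B.D = c * e * B.w i := by rw [he]; ring
  rw [h1, Nat.mul_le_mul_right_iff hw, Nat.mul_lt_mul_right hw]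
  exact Nat.succ_le_iff

theorem WHD.q_le (hl : a * B.d ≤ l * B.D) {i : σ} (hi : i ∈ B.s) : a * B.w i / B.D ≤ l :=
  le_trans (Nat.div_le_div_right (Nat.mul_le_mul_left a (B.hwd i hi))) (WHD.hMl hl)

theorem WHD.DA_succ_ncard (hl : a * B.d ≤ l * B.D) :
    (B.DA (a + 1) l).ncard + B.E a = B.s.card * l := by
  have h1 : B.DA (a + 1) l
      = {p : σ × ℕ | p.1 ∈ B.s ∧ a * B.w p.1 / B.D < p.2 ∧ p.2 ≤ l} := by
    ext ⟨i, c⟩
    show (i ∈ B.s ∧ (a + 1) * B.w i ≤ c * B.D ∧ c ≤ l) ↔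
      (i ∈ B.s ∧ a * B.w i / B.D < c ∧ c ≤ l)
    refine and_congr_right fun hi => and_congr_left fun _ => ?_
    rw [B.DA_succ_iff hi, Nat.div_lt_iff_lt_mul B.hD]
  rw [h1]
  refine (congrArg (· + B.E a) (ncard_idx B.s (fun i => a * B.w i / B.D) l)).trans ?_
  rw [WHD.E, ← Finset.sum_add_distrib]
  rw [Finset.sum_congr rfl fun i hi => Nat.sub_add_cancel (B.q_le hl hi), Finset.sum_const,
    smul_eq_mul]

theorem WHD.DR_ncard {j : σ} (hj : j ∈ B.s) (hdiv : B.D ∣ a * (B.d - B.w j))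
    (hl : a * B.d ≤ l * B.D) :
    (B.DR a l j).ncard + ((l - a * B.d / B.D) + B.E a) = B.s.card * l := by
  classical
  have hM := WHD.hM hj hdiv
  have hMl := WHD.hMl hl
  have h1 : B.DR a l j = {p : σ × ℕ | p.1 ∈ B.s ∧
      (if p.1 = j then l - a * (B.d - B.w j) / B.D else a * B.w p.1 / B.D) < p.2 ∧ p.2 ≤ l} := by
    ext ⟨i, c⟩
    show (i ∈ B.s ∧ a * B.w i < c * B.D ∧ c ≤ l ∧ (i = j → l < c + a * (B.d - B.w j) / B.D)) ↔
      (i ∈ B.s ∧ (if i = j then l - a * (B.d - B.w j) / B.D else a * B.w i / B.D) < c ∧ c ≤ l)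
    refine and_congr_right fun hi => ?_
    by_cases h : i = j
    · subst h
      rw [if_pos rfl, ← Nat.div_lt_iff_lt_mul B.hD]
      constructor
      · rintro ⟨h1, h2, h3⟩
        have := h3 rfl
        have := lt_of_le_of_lt (Nat.zero_le _) h1
        exact ⟨by omega, h2⟩
      · rintro ⟨h1, h2⟩
        exact ⟨by omega, h2, fun _ => by omega⟩
    · rw [if_neg h, ← Nat.div_lt_iff_lt_mul B.hD]
      exact ⟨fun h' => ⟨h'.1, h'.2.1⟩, fun h' => ⟨h'.1, h'.2, fun h'' => absurd h'' h⟩⟩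
  rw [h1]
  refine (congrArg (· + ((l - a * B.d / B.D) + B.E a)) (ncard_idx B.s (fun i =>
    if i = j then l - a * (B.d - B.w j) / B.D else a * B.w i / B.D) l)).trans ?_
  rw [WHD.E, ← Finset.add_sum_erase _ _ hj, ← Finset.add_sum_erase _ _ hj,
    if_pos rfl]
  have h2 : ∑ i ∈ B.s.erase j, (l - if i = j then l - a * (B.d - B.w j) / B.D
      else a * B.w i / B.D) + ∑ i ∈ B.s.erase j, a * B.w i / B.D = (B.s.card - 1) * l := by
    rw [← Finset.sum_add_distrib, Finset.sum_congr rfl (g := fun _ => l) (fun i hi => by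
      rw [if_neg (Finset.ne_of_mem_erase hi)]
      exact Nat.sub_add_cancel (B.q_le hl (Finset.mem_of_mem_erase hi))), Finset.sum_const,
      smul_eq_mul, Finset.card_erase_of_mem hj]
  have h3 : B.s.card * l = (B.s.card - 1) * l + l := by
    have : 0 < B.s.card := Finset.card_pos.2 ⟨j, hj⟩
    obtain ⟨m, hm⟩ : ∃ m, B.s.card = m + 1 := ⟨B.s.card - 1, by omega⟩
    rw [hm, Nat.add_sub_cancel]; ring
  rw [h3, ← h2]
  rw [hM] at hMl ⊢
  generalize a * B.w j / B.D = q at hMl ⊢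
  generalize a * (B.d - B.w j) / B.D = r at hMl ⊢
  omega

/-! ### The next level -/

variable {W : Type} [AddCommGroup W] (a l) (ω : W)

theorem WHD.next_iso : OIso (B.XU a l ω ∅) (B.XA (a + 1) l ω) := by
  refine OIso.mk' (fun S _ _ p => ⟨p.1.1, fun i c h => ?_⟩)
    (fun S _ _ p => ⟨⟨p.1, fun i c h => ?_⟩, fun i hi => ⟨fun h => by simp at h, fun _ => ?_⟩⟩)
    (fun S _ _ p => rfl) (fun S _ _ p => rfl) (fun φ c p => rfl) (fun S _ _ p b => ?_)
  · by_cases h1 : (i, c) ∈ B.DA a l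
    · have h2 : a * B.w i = c * B.D := by
        refine le_antisymm h1.2.1 (not_lt.1 fun h3 => h ⟨h1.1, ?_, h1.2.2⟩)
        exact (B.DA_succ_iff h1.1 c).2 h3
      have h3 : i ∈ B.sA a := (B.mem_sA a i).2 ⟨h1.1, ⟨c, by rw [h2, mul_comm]⟩⟩
      have h4 := (p.2 i h3).2 (by simp)
      have h5 : coeff (a * B.w i / B.D) (p.1.1 i) = 0 := h4
      rwa [h2, Nat.mul_div_cancel _ B.hD] at h5
    · exact p.1.2 i c h1
  · refine p.2 i c fun h1 => h ⟨h1.1, ?_, h1.2.2⟩
    exact ((B.DA_succ_iff h1.1 c).1 h1.2.1).le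
  · show coeff (a * B.w i / B.D) (p.1 i) = 0
    refine p.2 i _ fun h1 => ?_
    have h2 := (B.DA_succ_iff h1.1 _).1 h1.2.1
    exact absurd (Nat.div_mul_le_self (a * B.w i) B.D) (not_le.2 h2)
  · cases b <;> rfl

theorem WHD.rel_of_DA {S : Type} [CommRing S] [Algebra k S] (γ : (B.XA a l ω).F.obj S) :
    ∃ x : σ → S, ∀ i, Rel a B.D (B.w i) (γ.1 i) (x i) := by
  classical
  refine ⟨fun i => if B.D ∣ a * B.w i then coeff (a * B.w i / B.D) (γ.1 i) else 0, fun i =>
    ⟨fun c hc => γ.2 i c fun h => absurd h.2.1 (not_le.2 hc), fun c hc => ?_, fun hc => ?_⟩⟩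
  · beta_reduce
    rw [if_pos ⟨c, by rw [← hc, mul_comm]⟩, ← hc, Nat.mul_div_cancel _ B.hD]
  · beta_reduce
    rw [if_neg]
    rintro ⟨c, h⟩
    exact hc c (by rw [h, mul_comm])

/-- beyond the last level the series is zero -/
theorem WHD.last_iso (hl : l * B.D < (a + 1) * B.d) (ω : QZ) :
    OIso (B.XA (a + 1) l ω) (((GenK k σ ω l 0).app (withU (triv (ptS k σ).Y)
      (NF.zero (triv (ptS k σ).Y).F (l • ω)))).times (GF.sup k (B.DA (a + 1) l) ω)) := by
  have hg : ∀ {S : Type} [CommRing S] [Algebra k S] (γ : (B.XA (a + 1) l ω).F.obj S) (c : ℕ),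
      c ≤ l → coeff c (MvPolynomial.aeval γ.1 B.g) = 0 := by
    intro S _ _ γ c hc
    obtain ⟨x, hx⟩ := B.rel_of_DA (a + 1) l ω γ
    exact (Rel.aeval B.hD B.hg hx).1 c (lt_of_le_of_lt (Nat.mul_le_mul_right _ hc) hl)
  refine OIso.mk' (fun S _ _ p => (⟨((), ⟨0, fun c hc => map_zero _⟩), fun _ => by
      show coeff 0 (0 : S⟦X⟧) - 0 = 0
      rw [map_zero, sub_zero]⟩, p))
    (fun S _ _ q => q.2) (fun S _ _ p => rfl) (fun S _ _ q => ?_)
    (fun {S S'} _ _ _ _ φ c p => ?_) (fun S _ _ p b => ?_)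
  · refine Prod.ext (Subtype.ext (Prod.ext rfl (Subtype.ext ?_))) rfl
    show (0 : S⟦X⟧) = q.1.1.2.1
    ext c
    rw [map_zero]
    rcases Nat.eq_zero_or_pos c with hc | hc
    · have h4 : coeff 0 q.1.1.2.1 = 0 := sub_eq_zero.1 (q.1.2 ())
      rw [hc, h4]
    · rw [q.1.1.2.2 c (by omega)]
  · refine Prod.ext (Subtype.ext (Prod.ext rfl (Subtype.ext ?_))) rfl
    show (0 : S'⟦X⟧) = C (chr c (l • ω)) * twS ω φ c 0
    rw [map_zero, mul_zero]
  · cases b with
    | inl i =>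
      show (0 : S) = coeff 0 (p.1 i)
      symm
      by_cases hi : i ∈ B.s
      · refine p.2 i 0 fun h => ?_
        have h1 := h.2.1
        simp only [zero_mul, Nat.le_zero, Nat.mul_eq_zero] at h1
        have := B.hw i hi
        omega
      · exact p.2 i 0 fun h => hi h.1
    | inr e =>
      show coeff e (X ^ l * (0 : S⟦X⟧)) = if e ≤ l then coeff e (MvPolynomial.aeval p.1 B.g) else 0
      rw [mul_zero, map_zero]
      split_ifs with he
      · exact (hg p e he).symm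
      · rfl

/-- level zero consists of all jets -/
theorem WHD.first_iso : OIso (Jet B.g (B.s : Set σ) l ω) (B.XA 0 l ω) := by
  refine OIso.mk' (fun S _ _ p => ⟨p.1, fun i c h => p.2 i c ?_⟩)
    (fun S _ _ p => ⟨p.1, fun i c h => p.2 i c fun h' => ?_⟩)
    (fun S _ _ p => rfl) (fun S _ _ p => rfl) (fun φ c p => rfl) (fun S _ _ p b => ?_)
  · by_contra h1
    push Not at h1
    exact h ⟨h1.1, by rw [zero_mul]; exact Nat.zero_le _, h1.2⟩
  · rcases h with h | h
    · exact h h'.1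
    · have : c ≤ l := h'.2.2
      omega
  · cases b <;> rfl

end level

/-! ### Classes -/

section classes

variable {k : Type} [Field k] {σ : Type} [Fintype σ] (B : WHD k σ) {n : ℕ} (en : Fin n → σ)
  {a l : ℕ} {R : Type*} [CommRing R] {L : Rˣ} {ω : QZ} (χ : SInv k (wser σ ω) L)

theorem WHD.XA_FT : FT (B.XA a l ω).F := FT.sup (B.DA_finite a l) ω

theorem WHD.XU_FT (U : Finset σ) : FT (B.XU a l ω U).F := by
  classical
  exact FT.tor (X := B.XA a l ω) B.XA_FT _ _ _

/-- the locus where all partial derivatives vanish is empty -/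
theorem WHD.stz_empty (hen : Function.Surjective en) {U : Finset σ} (hU : U ⊆ B.sA a)
    (hne : U.Nonempty) :
    χ.χ ((B.XU a l ω U).stz (fun i => B.evX a l ω hU (B.hpd (en i)))) = 0 := by
  refine χ.empty (FT.stz (B.XU_FT U) _) fun S _ _ p => ?_
  obtain ⟨i, hi⟩ := hne
  have his : i ∈ B.s := ((B.mem_sA a i).1 (hU hi)).1
  obtain ⟨N, hN⟩ := B.hJ i his
  have h1 : Ideal.span (Set.range fun j => MvPolynomial.pderiv j B.g)
      ≤ RingHom.ker (MvPolynomial.aeval (B.xl a U p.1.1.1) : MvPolynomial σ k →ₐ[k] S) := by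
    rw [Ideal.span_le]
    rintro _ ⟨j, rfl⟩
    obtain ⟨m, rfl⟩ := hen j
    exact p.2 m
  have h2 := h1 hN
  rw [RingHom.mem_ker, map_pow, MvPolynomial.aeval_X] at h2
  have h3 := ((B.xl_mem a l ω hU p.1 i (Finset.mem_univ i)).1 hi).pow N
  rw [h2, isUnit_zero_iff] at h3
  exact h3.symm

/-- the nonempty sets of variables -/
abbrev WHD.PU : Type := {U : Finset σ // U.Nonempty ∧ U ⊆ B.s}

noncomputable instance : Fintype B.PU := Fintype.ofFinite _

open scoped Classical in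
theorem WHD.level_step (hen : Function.Surjective en) :
    χ.χ (B.XA a l ω) = χ.χ (B.XA (a + 1) l ω)
      + ∑ U : B.PU, ∑ j, if h : U.1 ⊆ B.sA a then χ.χ (B.XUj en a l ω h j) else 0 := by
  have h1 := χ.torus (B.XA_FT (a := a) (l := l) (ω := ω)) (B.lead a l ω) (B.sA a)
  rw [h1, ← Finset.add_sum_erase _ _ (Finset.empty_mem_powerset (B.sA a))]
  congr 1
  · exact χ.iso (B.XU_FT ∅) (B.next_iso a l ω)
  · have hs : B.sA a ⊆ B.s := fun i hi => ((B.mem_sA a i).1 hi).1
    have h2 : ∀ U ∈ (B.sA a).powerset.erase ∅, χ.χ (B.XU a l ω U)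
        = ∑ j, if h : U ⊆ B.sA a then χ.χ (B.XUj en a l ω h j) else 0 := by
      intro U hU
      rw [Finset.mem_erase, Finset.mem_powerset] at hU
      rw [χ.stair (B.XU_FT U) (fun i => B.evX a l ω hU.2 (B.hpd (en i))),
        B.stz_empty en χ hen hU.2 (Finset.nonempty_iff_ne_empty.2 hU.1), add_zero]
      refine Finset.sum_congr rfl fun j _ => ?_
      rw [dif_pos hU.2]
    rw [Finset.sum_congr rfl h2]
    have h3 : (B.sA a).powerset.erase ∅ = (B.s.powerset.filter fun U => U.Nonempty).filter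
        fun U => U ⊆ B.sA a := by
      ext U
      simp only [Finset.mem_erase, Finset.mem_powerset, Finset.mem_filter,
        Finset.nonempty_iff_ne_empty]
      constructor
      · rintro ⟨h4, h5⟩
        exact ⟨⟨h5.trans hs, h4⟩, h5⟩
      · rintro ⟨⟨h4, h5⟩, h6⟩
        exact ⟨h5, h6⟩
    rw [h3, Finset.sum_filter]
    rw [Finset.sum_subtype (B.s.powerset.filter fun U => U.Nonempty)
      (p := fun U => U.Nonempty ∧ U ⊆ B.s) (fun U => by
        rw [Finset.mem_filter, Finset.mem_powerset, and_comm])]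
    refine Finset.sum_congr rfl fun U _ => ?_
    by_cases h : U.1 ⊆ B.sA a
    · rw [if_pos h]
    · rw [if_neg h]
      symm
      exact Finset.sum_eq_zero fun j _ => dif_neg h

/-- the class of a stratum -/
theorem WHD.piece_class (hl : a * B.d ≤ l * B.D) {U : Finset σ} (hU : U ⊆ B.sA a) (j : Fin n) :
    Li L ^ (B.s.card * l) * χ.χ (B.XUj en a l ω hU j)
      = Li L ^ (B.E a) * (χ.cell l (a * B.d / B.D)).χ (withU (YG B en (B.sys a ω hU) j)
        (YG.u B en (B.sys a ω hU) j)) := by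
  have hftX : FT (B.XUj en a l ω hU j).F := FT.stp (B.XU_FT U) _ _
  have hftY : FT (withU (YG B en (B.sys a ω hU) j) (YG.u B en (B.sys a ω hU) j)).F :=
    YG_FT B en (B.sys a ω hU) j
  by_cases h : en j ∈ B.s ∧ B.D ∣ a * (B.d - B.w (en j))
  · obtain ⟨hj, hdiv⟩ := h
    have h1 := B.DR_ncard hj hdiv hl
    rw [χ.iso hftX (B.piece_iso en a l ω hU j hj hdiv hl), χ.times_sup
      ((GenK k σ ω (a * B.d / B.D) (l - a * B.d / B.D)).app_FT hftY) (B.DR_finite a l (en j)) ω,
      ← h1]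
    show _ = Li L ^ B.E a * (Li L ^ (l - a * B.d / B.D) * χ.χ _)
    rw [pow_add, pow_add]
    calc _ = (Li L ^ (B.DR a l (en j)).ncard * (L : R) ^ (B.DR a l (en j)).ncard)
          * (Li L ^ B.E a * (Li L ^ (l - a * B.d / B.D) * χ.χ _)) := by ring
      _ = _ := by rw [Li_pow_mul, one_mul]
  · have hz : ∀ {S : Type} [CommRing S] [Algebra k S] (x : σ → S), (∀ i, i ∉ U → x i = 0) →
        MvPolynomial.aeval x (MvPolynomial.pderiv (en j) B.g) = 0 := by
      intro S _ _ x hx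
      by_cases hj : en j ∈ B.s
      · exact B.ev_zero_D hU (B.hpd (en j)) (fun h' => h ⟨hj, h'⟩) x hx
      · rw [B.hs _ hj, map_zero]
    have e1 : χ.χ (B.XUj en a l ω hU j) = 0 := by
      refine χ.empty hftX fun S _ _ p => ?_
      have h1 : IsUnit (MvPolynomial.aeval (B.xl a U p.1.1.1)
        (MvPolynomial.pderiv (en j) B.g)) := p.2.2
      rw [hz _ fun i hi => (B.xl_mem a l ω hU p.1 i (Finset.mem_univ i)).2 hi,
        isUnit_zero_iff] at h1
      exact h1.symm
    have e2 : (χ.cell l (a * B.d / B.D)).χ (withU (YG B en (B.sys a ω hU) j)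
        (YG.u B en (B.sys a ω hU) j)) = 0 := by
      refine (χ.cell l (a * B.d / B.D)).empty hftY fun S _ _ p => ?_
      have h1 : IsUnit (MvPolynomial.aeval p.1.1 (MvPolynomial.pderiv (en j) B.g)) := p.2.2
      rw [hz _ fun i hi => (p.1.2 i (Finset.mem_univ i)).2 hi, isUnit_zero_iff] at h1
      exact h1.symm
    rw [e1, e2, mul_zero, mul_zero]

/-- the class of the jets beyond the last level -/
theorem WHD.last_class (hl : a * B.d ≤ l * B.D) (hl' : l * B.D < (a + 1) * B.d) :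
    Li L ^ (B.s.card * l) * χ.χ (B.XA (a + 1) l ω)
      = Li L ^ (B.E a) * (ptS k σ).val χ l l := by
  have hft : FT (withU (triv (ptS k σ).Y) (NF.zero (triv (ptS k σ).Y).F (l • ω))).F :=
    FT.mapWt _ (ptS k σ).ft
  rw [χ.iso B.XA_FT (B.last_iso a l hl' ω), χ.times_sup
    ((GenK k σ ω l 0).app_FT hft) (B.DA_finite (a + 1) l) ω, ← B.DA_succ_ncard hl]
  show _ = Li L ^ B.E a * (Li L ^ (l - l) * χ.χ ((GenK k σ ω l (l - l)).app _))
  rw [Nat.sub_self, pow_zero, one_mul, pow_add]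
  calc _ = (Li L ^ (B.DA (a + 1) l).ncard * (L : R) ^ (B.DA (a + 1) l).ncard)
        * (Li L ^ B.E a * χ.χ _) := by ring
    _ = _ := by rw [Li_pow_mul, one_mul]

open scoped Classical in
/-- the class of all jets -/
theorem WHD.total (hen : Function.Surjective en) (l : ℕ) :
    Li L ^ (B.s.card * l) * χ.χ (Jet B.g (B.s : Set σ) l ω)
      = ∑ a ∈ range (l * B.D / B.d + 1), ∑ U : B.PU, ∑ j,
          (if h : U.1 ⊆ B.sA a then
            Li L ^ (B.E a) * (χ.cell l (a * B.d / B.D)).χ (withU (YG B en (B.sys a ω h) j)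
              (YG.u B en (B.sys a ω h) j)) else 0)
        + Li L ^ (B.E (l * B.D / B.d)) * (ptS k σ).val χ l l := by
  have key : ∀ N, N ≤ l * B.D / B.d + 1 → Li L ^ (B.s.card * l) * χ.χ (B.XA 0 l ω)
      = ∑ a ∈ range N, ∑ U : B.PU, ∑ j,
          (if h : U.1 ⊆ B.sA a then
            Li L ^ (B.E a) * (χ.cell l (a * B.d / B.D)).χ (withU (YG B en (B.sys a ω h) j)
              (YG.u B en (B.sys a ω h) j)) else 0)
        + Li L ^ (B.s.card * l) * χ.χ (B.XA N l ω) := by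
    intro N
    induction N with
    | zero => intro _; rw [Finset.sum_range_zero, zero_add]
    | succ N ih =>
      intro hN
      have hl : N * B.d ≤ l * B.D := (Nat.le_div_iff_mul_le B.hd).1 (by omega)
      rw [ih (by omega), Finset.sum_range_succ, B.level_step en χ hen, mul_add, Finset.mul_sum,
        add_assoc, add_comm (Li L ^ (B.s.card * l) * χ.χ (B.XA (N + 1) l ω))]
      congr 2
      refine Finset.sum_congr rfl fun U _ => ?_
      rw [Finset.mul_sum]
      refine Finset.sum_congr rfl fun j _ => ?_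
      split_ifs with h
      · exact B.piece_class en χ hl h j
      · rw [mul_zero]
  rw [χ.iso (FT.jet _ (Set.toFinite _) l ω) (B.first_iso l ω), key _ le_rfl]
  congr 1
  refine B.last_class χ ((Nat.le_div_iff_mul_le B.hd).1 le_rfl) ?_
  exact (Nat.div_lt_iff_lt_mul B.hd).1 (Nat.lt_succ_self _)

end classes

end Pool.Agent.Helper6_Mono
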